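import Pool.Agent.Lib.MP_88c759_an.Mink.SCore

/-! Extension of smooth functions from a closed ball (times a convex parameter set). -/

namespace Pool.Agent.Mink.S

open scoped ContDiff Topology
open Set Filter Metric

variable {H V W : Type} [NormedAddCommGroup H] [InnerProductSpace ℝ H] [FiniteDimensional ℝ H]
  [NormedAddCommGroup V] [NormedSpace ℝ V] [FiniteDimensional ℝ V]
  [NormedAddCommGroup W] [NormedSpace ℝ W] [CompleteSpace W]

lemma body_loc {S : Set V} (hc : IsClosed S) (hv : Convex ℝ S) (hi : (interior S).Nonempty)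
    (x₀ : H) {v₀ : V} (h₀ : v₀ ∈ S) :
    Body (closedBall x₀ (1 / 2) ×ˢ (S ∩ closedBall v₀ 1)) := by
  refine ⟨(isCompact_closedBall _ _).prod ((isCompact_closedBall _ _).inter_left hc),
    (convex_closedBall _ _).prod (hv.inter (convex_closedBall _ _)), ?_⟩
  have h1 : v₀ ∈ closure (interior S) := by
    rw [hv.closure_interior_eq_closure_of_nonempty_interior hi]; exact subset_closure h₀
  obtain ⟨v, h2, h3⟩ := mem_closure_iff.1 h1 (ball v₀ 1) isOpen_ball (mem_ball_self one_pos)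
  refine ⟨(x₀, v), mem_interior_iff_mem_nhds.2 (prod_mem_nhds
    (closedBall_mem_nhds _ (by norm_num)) (inter_mem (mem_interior_iff_mem_nhds.1 h3) ?_))⟩
  exact mem_of_superset (isOpen_ball.mem_nhds h2) ball_subset_closedBall

omit [InnerProductSpace ℝ H] [FiniteDimensional ℝ H] in
lemma half_le {x₀ x : H} (h₀ : 1 ≤ ‖x₀‖) (hx : x ∈ closedBall x₀ (1 / 2)) : 1 / 2 ≤ ‖x‖ := by
  have := norm_sub_norm_le x₀ x
  rw [mem_closedBall, dist_comm, dist_eq_norm] at hx
  linarith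

theorem ext_ball {S : Set V} (hc : IsClosed S) (hv : Convex ℝ S) (hi : (interior S).Nonempty)
    {f : H × V → W} (hf : ContDiffOn ℝ ∞ f (closedBall 0 1 ×ˢ S)) :
    ∃ F : H × V → W, ContDiffOn ℝ ∞ F (univ ×ˢ S) ∧ EqOn F f (closedBall 0 1 ×ˢ S) := by
  obtain ⟨a, b, hab⟩ := exists_coef
  let g : ℝ × H × V → W := fun q =>
    Real.smoothTransition (2 - q.1) • f (Real.exp (-q.1) • ‖q.2.1‖⁻¹ • q.2.1, q.2.2)
  let F : H × V → W := fun z => if ‖z.1‖ ≤ 1 then f z else Ex a b 0 g (-Real.log ‖z.1‖, z)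
  have hFf : EqOn F f (closedBall 0 1 ×ˢ S) := fun z hz => if_pos (mem_closedBall_zero_iff.1 hz.1)
  refine ⟨F, fun z₀ hz₀ => ?_, hFf⟩
  rcases lt_or_ge ‖z₀.1‖ 1 with h₀ | h₀
  · have hz : z₀ ∈ closedBall (0:H) 1 ×ˢ S := ⟨mem_closedBall_zero_iff.2 h₀.le, hz₀.2⟩
    refine ((hf.congr hFf) z₀ hz).mono_of_mem_nhdsWithin ?_
    have h1 : ∀ᶠ z : H × V in 𝓝 z₀, ‖z.1‖ < 1 :=
      continuous_fst.norm.continuousAt.eventually_lt continuousAt_const h₀
    filter_upwards [self_mem_nhdsWithin, nhdsWithin_le_nhds h1] with z h2 h3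
    exact ⟨mem_closedBall_zero_iff.2 h3.le, h2.2⟩
  · set S₀ := closedBall z₀.1 (1 / 2) ×ˢ (S ∩ closedBall z₀.2 1) with hS₀
    have hB : Body S₀ := body_loc hc hv hi z₀.1 hz₀.2
    have hpos : ∀ z ∈ S₀, 0 < ‖z.1‖ := fun z hz => lt_of_lt_of_le (by norm_num) (half_le h₀ hz.1)
    have hg : Good S₀ g := by
      refine ⟨?_, 2, fun q _ h2 => ?_⟩
      · have h1 : ContDiffOn ℝ ∞ (fun q : ℝ × H × V => ‖q.2.1‖⁻¹) (Ici 0 ×ˢ S₀) :=
          (ContDiffOn.norm ℝ contDiff_snd.fst.contDiffOn fun q hq =>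
            norm_pos_iff.1 (hpos _ hq.2)).inv fun q hq => (hpos _ hq.2).ne'
        have h2 : ContDiffOn ℝ ∞ (fun q : ℝ × H × V =>
            ((Real.exp (-q.1) • ‖q.2.1‖⁻¹ • q.2.1, q.2.2) : H × V)) (Ici 0 ×ˢ S₀) :=
          (contDiff_fst.neg.exp.contDiffOn.smul (h1.smul contDiff_snd.fst.contDiffOn)).prodMk
            contDiff_snd.snd.contDiffOn
        refine ContDiffOn.smul (Real.smoothTransition.contDiff.comp
          (contDiff_const.sub contDiff_fst)).contDiffOn (hf.comp h2 fun q hq => ⟨?_, hq.2.2.1⟩)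
        rw [mem_closedBall_zero_iff, norm_smul, norm_smul, norm_inv, norm_norm,
          inv_mul_cancel₀ (hpos _ hq.2).ne', mul_one, Real.norm_eq_abs, Real.abs_exp]
        exact Real.exp_le_one_iff.2 (neg_nonpos.2 hq.1)
      · simp only [g]
        rw [Real.smoothTransition.zero_of_nonpos (by linarith), zero_smul]
    have hpol : ContDiffOn ℝ ∞ (fun z : H × V => ((-Real.log ‖z.1‖, z) : ℝ × H × V)) S₀ :=
      ((ContDiffOn.norm ℝ contDiff_fst.contDiffOn fun z hz => norm_pos_iff.1 (hpos _ hz)).log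
        fun z hz => (hpos _ hz).ne').neg.prodMk contDiffOn_id
    have hG := (Ex_contDiffOn hab hB hg).comp hpol fun z hz => ⟨mem_univ _, hz⟩
    have heq : EqOn F (Ex a b 0 g ∘ fun z : H × V => ((-Real.log ‖z.1‖, z) : ℝ × H × V)) S₀ := by
      intro z hz
      simp only [F, Function.comp_apply]
      split_ifs with h1
      · have h2 := hpos z hz
        have h3 : -Real.log ‖z.1‖ ≤ 1 := by
          have h4 := Real.one_sub_inv_le_log_of_pos h2
          have h5 : ‖z.1‖⁻¹ ≤ 2 := by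
            rw [inv_le_comm₀ h2 two_pos, ← one_div]; exact half_le h₀ hz.1
          linarith
        rw [Ex_pos 0 (neg_nonneg.2 (Real.log_nonpos h2.le h1))]
        simp only [g]
        rw [Real.smoothTransition.one_of_one_le (by linarith), one_smul, neg_neg, Real.exp_log h2,
          smul_smul, mul_inv_cancel₀ h2.ne', one_smul]
      · rfl
    have hz : z₀ ∈ S₀ := ⟨mem_closedBall_self (by norm_num), hz₀.2, mem_closedBall_self one_pos.le⟩
    refine ((hG.congr heq) z₀ hz).mono_of_mem_nhdsWithin ?_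
    have h1 : closedBall z₀.1 (1 / 2) ×ˢ closedBall z₀.2 1 ∈ 𝓝 z₀ :=
      prod_mem_nhds (closedBall_mem_nhds _ (by norm_num)) (closedBall_mem_nhds _ one_pos)
    filter_upwards [self_mem_nhdsWithin, nhdsWithin_le_nhds h1] with z h2 h3
    exact ⟨h3.1, h2.2, h3.2⟩

/-- extension in the first and in the last variable -/
theorem ext_two {f : H × ℝ × H → W}
    (hf : ContDiffOn ℝ ∞ f (closedBall 0 1 ×ˢ univ ×ˢ closedBall 0 1)) :
    ∃ F : H × ℝ × H → W, ContDiff ℝ ∞ F ∧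
      EqOn F f (closedBall 0 1 ×ˢ univ ×ˢ closedBall 0 1) := by
  obtain ⟨F₁, h₁, e₁⟩ := ext_ball (isClosed_univ.prod isClosed_closedBall)
    (convex_univ.prod (convex_closedBall _ _)) ⟨((0:ℝ), (0:H)), mem_interior_iff_mem_nhds.2
      (prod_mem_nhds univ_mem (closedBall_mem_nhds _ one_pos))⟩ hf
  have hs : ContDiff ℝ ∞ fun z : H × H × ℝ => ((z.2.1, z.2.2, z.1) : H × ℝ × H) :=
    contDiff_snd.fst.prodMk (contDiff_snd.snd.prodMk contDiff_fst)
  have hs' : ContDiff ℝ ∞ fun z : H × ℝ × H => ((z.2.2, z.1, z.2.1) : H × H × ℝ) :=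
    contDiff_snd.snd.prodMk (contDiff_fst.prodMk contDiff_snd.fst)
  obtain ⟨F₂, h₂, e₂⟩ := ext_ball (S := (univ : Set (H × ℝ))) isClosed_univ convex_univ
    (by simp) (h₁.comp (s := closedBall 0 1 ×ˢ univ) hs.contDiffOn
      fun z hz => ⟨mem_univ _, mem_univ _, hz.1⟩)
  rw [univ_prod_univ, contDiffOn_univ] at h₂
  refine ⟨_, h₂.comp hs', fun z hz => ?_⟩
  rw [Function.comp_apply, e₂ ⟨hz.2.2, mem_univ _⟩]
  exact e₁ hz

end Pool.Agent.Mink.S
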