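import Pool.Agent.Lib.MP_88c759_an.Mink.CF2

set_option maxSynthPendingDepth 3

namespace Pool.Agent.Mink.C

open scoped ContDiff Topology RealInnerProductSpace
open Set Filter

variable {n : ℕ}

theorem Adm.add_psd {k : ℕ} {p : B1 n} {r m : B2 n} (h : Adm k p r) (hr : Sym r) (hm : Psd m) :
    Adm k p (r + m) ∧ SS k p r ≤ SS k p (r + m) := by
  have hp := h.1
  have hs : Sym (r + m) := fun v w => by simp only [_root_.add_apply, hr v w, hm.1 v w]
  obtain ⟨e, κ, he⟩ := exists_diag hp hs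
  obtain ⟨g1, l1⟩ := h.frame_diag hr he.1
  have hle : ∀ i ∈ (Finset.univ : Finset (Fin n)), Wp p * r (e i) (e i) ≤ κ i := fun i _ => by
    have := he.2 i i
    rw [if_pos rfl] at this
    rw [← this, _root_.add_apply, _root_.add_apply, mul_add]
    exact le_add_of_nonneg_right (mul_nonneg (G.Wp_pos hp).le (hm.2 _))
  obtain ⟨g2, l2⟩ := g1.of_le hle
  exact ⟨(he.adm_iff hp k).2 g2, by rw [he.SS_eq hp k]; exact l1.trans (l2 k le_rfl)⟩

theorem Adm.ell {k : ℕ} (hk : 1 ≤ k) {p : B1 n} {r m : B2 n} (h : Adm k p r) (hr : Sym r)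
    (hm : Psd m) (hm0 : m ≠ 0) :
    0 < fderiv ℝ (fun q : B1 n × B2 n => SS k q.1 q.2) (p, r) (0, m) := by
  obtain ⟨e, κ, he⟩ := exists_diag h.1 hr
  have hkn : k ≤ n := by simpa using ((he.adm_iff h.1 k).1 h).le_card
  have h1 := fderiv_SS_pos hk hkn hr h hm hm0
  have hd := ((contDiffAt_SS k h.1 r).differentiableAt (by simp)).hasFDerivAt
  have h2 : HasFDerivAt (fun s : B2 n => ((p, s) : B1 n × B2 n))
      (ContinuousLinearMap.inr ℝ (B1 n) (B2 n)) r := hasFDerivAt_prodMk_right p r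
  have h3 := (HasFDerivAt.comp r (f := fun s : B2 n => ((p, s) : B1 n × B2 n)) hd h2).fderiv
  have h4 : fderiv ℝ (fun s : B2 n => SS k p s) r =
      (fderiv ℝ (fun q : B1 n × B2 n => SS k q.1 q.2) (p, r)).comp
        (ContinuousLinearMap.inr ℝ (B1 n) (B2 n)) := h3
  rw [h4] at h1
  exact h1

theorem concaveOn_log_SS (k : ℕ) (p : B1 n) :
    ConcaveOn ℝ {r : B2 n | Sym r ∧ Adm k p r} (fun r => Real.log (SS k p r)) :=
  ⟨fun _ hr _ hs _ _ ha hb hab => (atg_combo hr hs ha hb hab).1,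
    fun _ hr _ hs _ _ ha hb hab => (atg_combo hr hs ha hb hab).2⟩

theorem adm_lower (k : ℕ) (W L c : ℝ) (hc : 0 < c) : ∃ c' : ℝ, 0 < c' ∧
    ∀ (p : B1 n) (r : B2 n), Adm k p r → Sym r → Wp p ≤ W → ‖r‖ ≤ L → c ≤ SS k p r →
      ∀ j ≤ k, c' ≤ SS j p r := by
  obtain ⟨c', hc', hlow⟩ := gam_lower_all (ι := Fin n) n k c (W ^ 3 * L) hc
  refine ⟨c', hc', fun p r h hr hW hL hS j hj => ?_⟩
  obtain ⟨e, κ, he⟩ := exists_diag h.1 hr
  rw [he.SS_eq h.1] at hS ⊢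
  refine hlow _ κ (by simp) ((he.adm_iff h.1 k).1 h) hS (fun i _ => ?_) j hj
  have hw := (G.Wp_pos h.1).le
  exact (le_abs_self _).trans ((he.abs_le h.1 i).trans (mul_le_mul (pow_le_pow_left₀ hw hW 3) hL
    (norm_nonneg _) (pow_nonneg (hw.trans hW) 3)))

theorem CF3_split {ν : E n} (hν : ‖ν‖ = 1) (v : E n) (hv : ‖v‖ ≤ 1) :
    ∃ (a : ℝ) (v' : E n), v = a • ν + v' ∧ |a| ≤ 1 ∧ ⟪ν, v'⟫ = 0 ∧ ‖v'‖ ≤ 1 := by
  have h1 : ⟪ν, ν⟫ = 1 := by rw [real_inner_self_eq_norm_sq, hν]; norm_num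
  refine ⟨⟪ν, v⟫, v - ⟪ν, v⟫ • ν, by abel, ?_, ?_, ?_⟩
  · exact (abs_real_inner_le_norm _ _).trans (by rw [hν, one_mul]; exact hv)
  · rw [inner_sub_right, real_inner_smul_right, h1]; ring
  · have h2 : ‖v - ⟪ν, v⟫ • ν‖ ^ 2 = ‖v‖ ^ 2 - ⟪ν, v⟫ ^ 2 := by
      rw [norm_sub_sq_real, real_inner_smul_right, norm_smul, hν, real_inner_comm, Real.norm_eq_abs,
        mul_one, sq_abs]
      ring
    have h3 : ‖v‖ ^ 2 ≤ 1 := pow_le_one₀ (norm_nonneg _) hv
    exact (pow_le_one_iff_of_nonneg (norm_nonneg _) two_ne_zero).1 (by nlinarith [sq_nonneg ⟪ν, v⟫])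

/-- a symmetric form whose diagonal in a tangent-normal splitting is bounded is bounded -/
theorem norm_le_of_parts {r : B2 n} (hr : Sym r) {ν : E n} (hν : ‖ν‖ = 1) {C : ℝ}
    (h1 : ∀ v w, ⟪ν, v⟫ = 0 → ⟪ν, w⟫ = 0 → ‖v‖ ≤ 1 → ‖w‖ ≤ 1 → |r v w| ≤ C)
    (h2 : ∀ v, ⟪ν, v⟫ = 0 → ‖v‖ ≤ 1 → |r ν v| ≤ C) (h3 : |r ν ν| ≤ C) : ‖r‖ ≤ 4 * C := by
  have hC : 0 ≤ C := (abs_nonneg _).trans h3
  refine ContinuousLinearMap.opNorm_le_of_unit_norm (by positivity) fun v hv =>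
    ContinuousLinearMap.opNorm_le_of_unit_norm (by positivity) fun w hw => ?_
  obtain ⟨a, v', rfl, ha, hv1, hv2⟩ := CF3_split hν v hv.le
  obtain ⟨b, w', rfl, hb, hw1, hw2⟩ := CF3_split hν w hw.le
  have e1 : r (a • ν + v') (b • ν + w') = a * b * r ν ν + a * r ν w' + b * r ν v' + r v' w' := by
    simp only [map_add, map_smul, _root_.add_apply, _root_.smul_apply, smul_eq_mul, hr v' ν]
    ring
  have b1 : |a * b * r ν ν| ≤ C := by
    rw [abs_mul, abs_mul]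
    exact (mul_le_of_le_one_left (abs_nonneg _) (mul_le_one₀ ha (abs_nonneg _) hb)).trans h3
  have b2 : |a * r ν w'| ≤ C := by
    rw [abs_mul]; exact (mul_le_of_le_one_left (abs_nonneg _) ha).trans (h2 _ hw1 hw2)
  have b3 : |b * r ν v'| ≤ C := by
    rw [abs_mul]; exact (mul_le_of_le_one_left (abs_nonneg _) hb).trans (h2 _ hv1 hv2)
  have b4 := h1 _ _ hv1 hw1 hv2 hw2
  rw [Real.norm_eq_abs, e1, abs_le] at *
  constructor <;> linarith [b1.1, b1.2, b2.1, b2.2, b3.1, b3.2, b4.1, b4.2]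

/-- a nonnegative form on a span is bounded by its diagonal entries -/
theorem CF3_diag_bound {t : Finset (Fin n)} {e : Fin n → E n} {Y : B2 n} (hY : Sym Y) {d : ℝ}
    (h0 : ∀ a ∈ t, ∀ b ∈ t, 0 ≤ Y (e a + e b) (e a + e b) ∧ 0 ≤ Y (e a - e b) (e a - e b))
    (hd : ∀ a ∈ t, Y (e a) (e a) ≤ d) (hd0 : 0 ≤ d) (x : Fin n → ℝ) :
    Y (∑ a ∈ t, x a • e a) (∑ a ∈ t, x a • e a) ≤ n * d * ∑ a ∈ t, x a ^ 2 := by
  have h1 : ∀ a ∈ t, ∀ b ∈ t, x a * x b * Y (e a) (e b) ≤ d / 2 * x a ^ 2 + d / 2 * x b ^ 2 := by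
    intro a ha b hb
    obtain ⟨p1, p2⟩ := h0 a ha b hb
    simp only [map_add, map_sub, _root_.add_apply, _root_.sub_apply, hY (e b) (e a)] at p1 p2
    have q1 : Y (e a) (e b) ≤ d := by linarith [hd a ha, hd b hb]
    have q2 : -d ≤ Y (e a) (e b) := by linarith [hd a ha, hd b hb]
    nlinarith [mul_nonneg (sub_nonneg.2 q1) (sq_nonneg (x a + x b)),
      mul_nonneg (sub_nonneg.2 q2) (sq_nonneg (x a - x b))]
  have h2 : Y (∑ a ∈ t, x a • e a) (∑ a ∈ t, x a • e a) =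
      ∑ a ∈ t, ∑ b ∈ t, x a * x b * Y (e a) (e b) := by
    simp only [map_sum, map_smul, _root_.sum_apply, _root_.smul_apply, smul_eq_mul,
      Finset.mul_sum]
    rw [Finset.sum_comm]
    exact Finset.sum_congr rfl fun i _ => Finset.sum_congr rfl fun j _ => by ring
  have h3 : ∑ a ∈ t, ∑ b ∈ t, (d / 2 * x a ^ 2 + d / 2 * x b ^ 2) =
      t.card * d * ∑ a ∈ t, x a ^ 2 := by
    simp only [Finset.sum_add_distrib, Finset.sum_const, nsmul_eq_mul, ← Finset.mul_sum]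
    ring
  have h4 : (t.card : ℝ) ≤ n := by exact_mod_cast (by simpa using t.card_le_univ : t.card ≤ n)
  rw [h2]
  refine (Finset.sum_le_sum fun a ha => Finset.sum_le_sum fun b hb => h1 a ha b hb).trans ?_
  rw [h3]
  exact mul_le_mul_of_nonneg_right (mul_le_mul_of_nonneg_right h4 hd0)
    (Finset.sum_nonneg fun _ _ => sq_nonneg _)

theorem CF3_gp_sum {s : Finset (Fin n)} {e : Fin n → E n} {p : B1 n}
    (he : ∀ a ∈ s, ∀ b ∈ s, gp p (e a) (e b) = if a = b then 1 else 0) (x : Fin n → ℝ) {b : Fin n}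
    (hb : b ∈ s) : gp p (∑ a ∈ s, x a • e a) (e b) = x b := by
  rw [G.gp_sum_left, Finset.sum_congr rfl fun a ha => by rw [he a ha b hb]]
  simp [hb]

theorem CF3_finrank {s : Finset (Fin n)} {e : Fin n → E n} {p : B1 n}
    (he : ∀ a ∈ s, ∀ b ∈ s, gp p (e a) (e b) = if a = b then 1 else 0) :
    Module.finrank ℝ (Submodule.span ℝ (e '' s)) = s.card := by
  have hli : LinearIndepOn ℝ e (s : Set (Fin n)) := by
    rw [linearIndepOn_finset_iff]
    intro x hx b hb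
    rw [← CF3_gp_sum he x hb, hx]
    simp [gp]
  have := finrank_span_eq_card hli
  rw [Set.image_eq_range, this]
  simp

/-- If a nonnegative form is `≥ c‖v‖²` on a subspace `T`, then in any family `e` (indexed by `s`)
orthonormal for a form `g ≤ ‖·‖²` and spanning a space containing `T`, at least `finrank T`
diagonal entries are `≥ c / n`. -/
theorem many_diag {s : Finset (Fin n)} {e : Fin n → E n} {p : B1 n} (hp : ‖p‖ < 1)
    (he : ∀ a ∈ s, ∀ b ∈ s, gp p (e a) (e b) = if a = b then 1 else 0)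
    {Y : B2 n} (hY : Sym Y) (hY0 : ∀ v ∈ Submodule.span ℝ (e '' s), 0 ≤ Y v v)
    {T : Submodule ℝ (E n)} (hT : T ≤ Submodule.span ℝ (e '' s)) {c : ℝ} (hc : 0 < c)
    (hTc : ∀ v ∈ T, c * ‖v‖ ^ 2 ≤ Y v v) :
    ∃ t ⊆ s, t.card = Module.finrank ℝ T ∧ ∀ a ∈ t, c / (n + 1) ≤ Y (e a) (e a) := by
  classical
  set t₀ := s.filter fun a => c / (n + 1) ≤ Y (e a) (e a) with ht₀
  set t₁ := s.filter fun a => ¬ c / (n + 1) ≤ Y (e a) (e a) with ht₁
  have hsub : t₁ ⊆ s := Finset.filter_subset _ _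
  have he₁ : ∀ a ∈ t₁, ∀ b ∈ t₁, gp p (e a) (e b) = if a = b then 1 else 0 :=
    fun a ha b hb => he a (hsub ha) b (hsub hb)
  have hdis : Submodule.span ℝ (e '' t₁) ⊓ T = ⊥ := by
    rw [eq_bot_iff]
    rintro v ⟨h1, h2⟩
    obtain ⟨x, hx⟩ := (Submodule.mem_span_image_finset_iff_exists_fun' ℝ).1 h1
    have hm : ∀ a ∈ t₁, e a ∈ Submodule.span ℝ (e '' s) := fun a ha =>
      Submodule.subset_span ⟨a, hsub ha, rfl⟩
    have hd0 : 0 ≤ c / (n + 1) := by positivity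
    have h3 := CF3_diag_bound hY (fun a ha b hb => ⟨hY0 _ (add_mem (hm a ha) (hm b hb)),
      hY0 _ (sub_mem (hm a ha) (hm b hb))⟩)
      (fun a ha => (not_le.1 (Finset.mem_filter.1 ha).2).le) hd0 x
    have h4 : gp p v v = ∑ a ∈ t₁, x a ^ 2 := by
      rw [← hx, G.gp_sum_left]
      exact Finset.sum_congr rfl fun a ha => by rw [G.gp_symm, CF3_gp_sum he₁ x ha, sq]
    have h5 : gp p v v ≤ ‖v‖ ^ 2 := gp_self_le p v
    rw [hx, ← h4] at h3
    have h6 := (hTc v h2).trans (h3.trans (mul_le_mul_of_nonneg_left h5 (by positivity)))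
    have h7 : c * ‖v‖ ^ 2 - n * (c / (n + 1)) * ‖v‖ ^ 2 = c / (n + 1) * ‖v‖ ^ 2 := by
      field_simp; ring
    have h8 : 0 < c / (n + 1) := by positivity
    have h9 : ‖v‖ ^ 2 ≤ 0 := by
      by_contra h
      have := mul_pos h8 (not_le.1 h)
      linarith
    exact (Submodule.mem_bot ℝ).2 (norm_eq_zero.1 (pow_eq_zero_iff two_ne_zero |>.1
      (le_antisymm h9 (sq_nonneg _))))
  have hsup : Submodule.span ℝ (e '' t₁) ⊔ T ≤ Submodule.span ℝ (e '' s) :=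
    sup_le (Submodule.span_mono (image_mono (Finset.coe_subset.2 hsub))) hT
  have h1 := Submodule.finrank_sup_add_finrank_inf_eq (Submodule.span ℝ (e '' t₁)) T
  have h2 := Submodule.finrank_mono hsup
  rw [hdis, finrank_bot, CF3_finrank he₁] at h1
  rw [CF3_finrank he] at h2
  have h3 : t₀.card + t₁.card = s.card := Finset.card_filter_add_card_filter_not _
  obtain ⟨t, ht, hc'⟩ := Finset.exists_subset_card_eq (s := t₀) (n := Module.finrank ℝ T)
    (by omega)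
  exact ⟨t, ht.trans (Finset.filter_subset _ _), hc', fun a ha => (Finset.mem_filter.1 (ht ha)).2⟩

end Pool.Agent.Mink.C
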