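import Pool.Agent.Lib.MP_88c759_an.Mink.CG5
import Pool.Agent.Lib.MP_88c759_an.Mink.CF3

set_option maxSynthPendingDepth 3

namespace Pool.Agent.Mink.C

open scoped ContDiff Topology RealInnerProductSpace
open Set Filter

variable {n : ℕ}

variable {Ω : Set (E n)} {ρ : E n → ℝ}

theorem CG6_prof_deriv {δ M : ℝ} (hM : M ≠ 0) (s : ℝ) :
    HasDerivAt (prof δ M) (1 - δ * Real.exp (M * s)) s := by
  have h1 : HasDerivAt (fun r : ℝ => M * r) M s := by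
    simpa using (hasDerivAt_id s).const_mul M
  have h2 := (hasDerivAt_id s).sub (h1.exp.const_mul (δ / M))
  refine h2.congr_deriv ?_
  field_simp

theorem CG6_J2 {δ M : ℝ} (hM : M ≠ 0) {z : E n} (hz : z ≠ 0) (v : E n) :
    J2 (fun t : ℝ => prof δ M ‖z + t • v‖) (prof δ M ‖z‖)
      ((1 - δ * Real.exp (M * ‖z‖)) * ⟪‖z‖⁻¹ • z, v⟫)
      (-(M * (δ * Real.exp (M * ‖z‖))) * ⟪‖z‖⁻¹ • z, v⟫ ^ 2 +
        (1 - δ * Real.exp (M * ‖z‖)) * ((‖v‖ ^ 2 - ⟪‖z‖⁻¹ • z, v⟫ ^ 2) / ‖z‖)) := by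
  have hr : 0 < ‖z‖ := norm_pos_iff.2 hz
  have h1 := ((J2.line z v).inner (J2.line z v)).sqrt (real_inner_self_pos.2 hz)
  simp only [← norm_eq_sqrt_real_inner] at h1
  have h2 : J2 (fun t : ℝ => ‖z + t • v‖) ‖z‖ ⟪‖z‖⁻¹ • z, v⟫
      ((‖v‖ ^ 2 - ⟪‖z‖⁻¹ • z, v⟫ ^ 2) / ‖z‖) := by
    refine h1.of_eq rfl ?_ ?_
    · rw [real_inner_smul_left, real_inner_comm z v]
      field_simp
      ring
    · rw [real_inner_smul_left, real_inner_comm z v, inner_zero_left, inner_zero_right,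
        real_inner_self_eq_norm_sq]
      field_simp
      ring
  have h3 : HasDerivAt (fun s : ℝ => 1 - δ * Real.exp (M * s))
      (-(M * (δ * Real.exp (M * ‖z‖)))) ‖z‖ := by
    have h4 : HasDerivAt (fun r : ℝ => M * r) M ‖z‖ := by
      simpa using (hasDerivAt_id ‖z‖).const_mul M
    refine ((h4.exp.const_mul δ).const_sub 1).congr_deriv ?_
    ring
  exact h2.scomp (Eventually.of_forall fun s => CG6_prof_deriv hM s) h3

theorem CG6_contDiffAt (δ M : ℝ) {y₀ x : E n} (hx : x - y₀ ≠ 0) :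
    ContDiffAt ℝ 2 (fun y : E n => prof δ M ‖y - y₀‖) x := by
  have h1 : ContDiffAt ℝ 2 (fun y : E n => ‖y - y₀‖) x :=
    (contDiffAt_id.sub contDiffAt_const).norm ℝ hx
  unfold prof
  exact h1.sub (contDiffAt_const.mul (contDiffAt_const.mul h1).exp)

/-- a mean convex spacelike graph stays below the radial barrier -/
theorem upper_touch (h : Dom Ω ρ) {u : E n → ℝ} (hu : ContDiffOn ℝ 2 u (closure Ω))
    (hadm : ∀ x ∈ Ω, Adm 1 (d1 u x) (d2 u x)) {δ M ε' c : ℝ} (hδ : 0 < δ) (hM : 0 < M)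
    (hε : 0 < ε') (hMε : 2 * (n : ℝ) ≤ M * ε') (y₀ : E n)
    (hr : ∀ y ∈ closure Ω, ε' ≤ ‖y - y₀‖ ∧ δ * Real.exp (M * ‖y - y₀‖) ≤ 1 / 2)
    (hbd : ∀ y ∈ frontier Ω, u y ≤ c + prof δ M ‖y - y₀‖) :
    ∀ y ∈ closure Ω, u y ≤ c + prof δ M ‖y - y₀‖ := by
  intro y hy
  have hcont : ContinuousOn (fun y => u y - prof δ M ‖y - y₀‖) (closure Ω) := by
    refine hu.continuousOn.sub (Continuous.continuousOn ?_)
    unfold prof
    fun_prop
  obtain ⟨x, hx, hmax⟩ := h.isCompact.exists_isMaxOn ⟨y, hy⟩ hcont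
  rcases h.mem_or hx with hxΩ | hxf
  swap
  · have h1 : u y - prof δ M ‖y - y₀‖ ≤ u x - prof δ M ‖x - y₀‖ := hmax hy
    have h2 := hbd x hxf
    linarith
  exfalso
  have hnh : closure Ω ∈ 𝓝 x := mem_of_superset (h.isOpen.mem_nhds hxΩ) subset_closure
  have hux : ContDiffAt ℝ 2 u x := hu.contDiffAt hnh
  have hloc := hmax.isLocalMax hnh
  obtain ⟨hr1, hr2⟩ := hr x hx
  set z := x - y₀ with hz
  have hr0 : 0 < ‖z‖ := hε.trans_le hr1
  have hz0 : z ≠ 0 := norm_pos_iff.1 hr0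
  set D := δ * Real.exp (M * ‖z‖) with hD
  have hD0 : 0 < D := by positivity
  set zh := ‖z‖⁻¹ • z with hzh
  have hzh1 : ‖zh‖ = 1 := by
    rw [hzh, norm_smul, norm_inv, norm_norm, inv_mul_cancel₀ hr0.ne']
  have key : ∀ v, d1 u x v = (1 - D) * ⟪zh, v⟫ ∧ d2 u x v v ≤
      -(M * D) * ⟪zh, v⟫ ^ 2 + (1 - D) * ((‖v‖ ^ 2 - ⟪zh, v⟫ ^ 2) / ‖z‖) := by
    intro v
    have h1 := (J2_u hux v).sub (CG6_J2 (δ := δ) hM.ne' hz0 v)
    have h2 : IsLocalMax (fun t : ℝ => u (x + t • v) - prof δ M ‖z + t • v‖) 0 := by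
      have h3 : IsLocalMax (fun y => u y - prof δ M ‖y - y₀‖) ((fun t : ℝ => x + t • v) 0) := by
        simpa using hloc
      have h4 := h3.comp_continuous (g := fun t : ℝ => x + t • v) (by fun_prop)
      refine h4.congr (Eventually.of_forall fun t => ?_)
      simp only [Function.comp, hz, add_sub_right_comm]
    obtain ⟨h5, h6⟩ := h1.of_isLocalMax h2
    exact ⟨by linarith, by linarith⟩
  obtain ⟨hp, hS⟩ := hadm x hxΩ
  obtain ⟨e, κ, hd⟩ := exists_diag hp (sym_d2 hux)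
  have hpos := hS 1 le_rfl le_rfl
  rw [hd.SS_eq hp, es_one] at hpos
  have hpe : d1 u x = (1 - D) • innerSL ℝ zh := by
    ext v
    rw [(key v).1]
    simp
  have hpn : ‖d1 u x‖ ^ 2 = (1 - D) ^ 2 := by
    rw [hpe, norm_smul, innerSL_apply_norm, hzh1, mul_one, Real.norm_eq_abs, sq_abs]
  have hw := Wp_sq hp
  have hw0 := Wp_pos hp
  have s1 := hd.1.sum_inner_sq hp zh
  rw [(key zh).1, real_inner_self_eq_norm_sq, hzh1] at s1
  have s2 := hd.1.sum_b_sq hp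
  have s3 : ∑ a, ‖e a‖ ^ 2 = n + ∑ a, d1 u x (e a) ^ 2 := by
    simp only [hd.1.norm_sq, Finset.sum_add_distrib]
    simp
  rw [hpn] at hw
  set w := Wp (d1 u x)
  have s4 : ∑ a, ⟪zh, e a⟫ ^ 2 = w ^ 2 := by rw [s1]; linarith
  have s5 : ∑ a, κ a ≤ w * (-(M * D) * w ^ 2 + (1 - D) * ((n - 1) / ‖z‖)) := by
    have h1 : ∀ a, κ a ≤ w * (-(M * D) * ⟪zh, e a⟫ ^ 2 +
        (1 - D) * ((‖e a‖ ^ 2 - ⟪zh, e a⟫ ^ 2) / ‖z‖)) := fun a => by
      have h2 := hd.2 a a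
      rw [if_pos rfl] at h2
      rw [← h2]
      exact mul_le_mul_of_nonneg_left (key _).2 hw0.le
    refine (Finset.sum_le_sum fun a _ => h1 a).trans (le_of_eq ?_)
    rw [← Finset.mul_sum, Finset.sum_add_distrib, ← Finset.mul_sum, ← Finset.mul_sum,
      ← Finset.sum_div, Finset.sum_sub_distrib, s3, s4]
    congr 4
    linarith
  have hn : (0 : ℝ) ≤ n := Nat.cast_nonneg n
  have s6 : (1 - D) * ((n - 1) / ‖z‖) ≤ M / 2 := by
    rw [← mul_div_assoc, div_le_iff₀ hr0]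
    have : M * ε' ≤ M * ‖z‖ := mul_le_mul_of_nonneg_left hr1 hM.le
    nlinarith
  have s7 : 1 / 2 ≤ D * w ^ 2 := by
    have : 0 ≤ D * w ^ 2 * D := by positivity
    nlinarith
  have s8 : -(M * D) * w ^ 2 + (1 - D) * ((n - 1) / ‖z‖) ≤ 0 := by nlinarith
  have := mul_nonpos_of_nonneg_of_nonpos hw0.le s8
  linarith

/-- boundary gradient estimate -/
theorem grad_bdry (h : Dom Ω ρ) (θ C₀ : ℝ) (h0 : 0 < θ) (h1 : θ < 1) :
    ∃ θ₁ : ℝ, 0 < θ₁ ∧ θ₁ ≤ 1 ∧ ∀ φ ub u : E n → ℝ, PhiB Ω φ C₀ →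
      ContDiffOn ℝ 2 ub (closure Ω) → (∀ x ∈ closure Ω, ‖D1 (closure Ω) ub x‖ ≤ 1 - θ) →
      (∀ x ∈ frontier Ω, ub x = φ x) → ContDiffOn ℝ 2 u (closure Ω) →
      (∀ x ∈ Ω, Adm 1 (d1 u x) (d2 u x)) → (∀ x ∈ frontier Ω, u x = φ x) →
      (∀ x ∈ closure Ω, ub x ≤ u x) → ∀ x ∈ frontier Ω, ‖D1 (closure Ω) u x‖ ≤ 1 - θ₁ := by
  obtain ⟨δ, M, ε, ε', hδ, hM, hε, hε', hMε, H⟩ := upper_bdry h θ C₀ h0 h1
  refine ⟨min θ δ, lt_min h0 hδ, (min_le_left _ _).trans h1.le, ?_⟩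
  intro φ ub u hφ hub hgr hubφ hu hadm huφ hle x hx
  have hxc := h.frontier_sub hx
  have hφ2 : ContDiff ℝ 2 φ := hφ.1.of_le (by norm_num)
  have hν := h.norm_nin hx
  have a1 := h.aT_eq hu hφ2 huφ hx
  have a2 := h.aT_eq hub hφ2 hubφ hx
  have n1 := norm_sq_split (D1 (closure Ω) u x) hν
  have n2 := norm_sq_split (D1 (closure Ω) ub x) hν
  rw [← a1] at n1
  rw [← a2] at n2
  have hq := hgr x hxc
  have hq2 : ‖D1 (closure Ω) ub x‖ ^ 2 ≤ (1 - θ) ^ 2 := pow_le_pow_left₀ (norm_nonneg _) hq 2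
  have haT : ‖aT ρ φ x‖ ≤ 1 - θ :=
    (pow_le_pow_iff_left₀ (norm_nonneg _) (by linarith) two_ne_zero).1
      (by nlinarith [sq_nonneg (D1 (closure Ω) ub x (nin ρ x))])
  obtain ⟨η, hη, hνη, hω, hr, hbd⟩ := H φ hφ (fun a ha b hb => by
    rw [← hubφ a ha, ← hubφ b hb]
    exact h.lip hub hgr (h.frontier_sub ha) (h.frontier_sub hb)) x hx haT
  have e0 : ∀ y, y - (x - ε • η) = y - x + ε • η := fun y => by abel
  have e1 : x - (x - ε • η) = ε • η := by abel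
  have e2 : ‖ε • η‖ = ε := by rw [norm_smul, hη, mul_one, Real.norm_eq_abs, abs_of_pos hε]
  have hz0 : ε • η ≠ 0 := norm_pos_iff.1 (by rw [e2]; exact hε)
  have hup := upper_touch h hu hadm (c := φ x - prof δ M ε) hδ hM hε' hMε (x - ε • η)
    (fun y hy => by rw [e0]; exact hr y hy)
    (fun y hy => by rw [e0, huφ y hy]; linarith [hbd y hy])
  have hD : δ * Real.exp (M * ε) ≤ 1 / 2 := by
    have := (hr x hxc).2
    rwa [sub_self, zero_add, e2] at this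
  have hDδ : δ ≤ δ * Real.exp (M * ε) :=
    le_mul_of_one_le_right hδ.le (Real.one_le_exp (by positivity))
  have hg := CG6_contDiffAt δ M (y₀ := x - ε • η) (x := x) (by rw [e1]; exact hz0)
  have hg1 : d1 (fun y : E n => prof δ M ‖y - (x - ε • η)‖) x (nin ρ x) =
      (1 - δ * Real.exp (M * ε)) * ⟪η, nin ρ x⟫ := by
    have j1 := J2_u hg (nin ρ x)
    have j2 := CG6_J2 (δ := δ) hM.ne' hz0 (nin ρ x)
    have e3 : (fun t : ℝ => prof δ M ‖x + t • nin ρ x - (x - ε • η)‖) =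
        fun t : ℝ => prof δ M ‖ε • η + t • nin ρ x‖ := by
      funext t
      congr 2
      abel
    rw [e3] at j1
    have := (j1.unique j2).2.1
    rwa [e2, smul_smul, inv_mul_cancel₀ hε.ne', one_smul] at this
  have b1 := h.normal_le hx (h.hasD1 hu hxc)
    (((hg.differentiableAt (by norm_num)).hasFDerivAt.const_add
      (φ x - prof δ M ε)).hasFDerivWithinAt)
    (by rw [e1, e2, huφ x hx]; ring) one_pos fun y hy _ => hup y hy
  have b1' : D1 (closure Ω) u x (nin ρ x) ≤ (1 - δ * Real.exp (M * ε)) * ⟪η, nin ρ x⟫ :=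
    b1.trans (le_of_eq hg1)
  have b2 := h.normal_le hx (h.hasD1 hub hxc) (h.hasD1 hu hxc)
    (by rw [hubφ x hx, huφ x hx]) one_pos fun y hy _ => hle y hy
  rcases le_total 0 (D1 (closure Ω) u x (nin ρ x)) with hs | hs
  · have n3 := norm_sq_split (innerSL ℝ η) hν
    rw [shp_innerSL, innerSL_apply_norm, hη, innerSL_apply_apply] at n3
    have n4 : ‖aT ρ φ x‖ ^ 2 = (1 - δ * Real.exp (M * ε)) ^ 2 * ‖pr (nin ρ x) η‖ ^ 2 := by
      rw [← hω, norm_smul, mul_pow, Real.norm_eq_abs, sq_abs]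
    have n5 := pow_le_pow_left₀ hs b1' 2
    have n6 : ‖D1 (closure Ω) u x‖ ≤ 1 - δ * Real.exp (M * ε) :=
      (pow_le_pow_iff_left₀ (norm_nonneg _) (by linarith) two_ne_zero).1 (by
        rw [n1, n4]
        rw [mul_pow] at n5
        have : (1 - δ * Real.exp (M * ε)) ^ 2 = (1 - δ * Real.exp (M * ε)) ^ 2 *
            (‖pr (nin ρ x) η‖ ^ 2 + ⟪η, nin ρ x⟫ ^ 2) := by rw [← n3]; ring
        linarith)
    linarith [min_le_right θ δ]
  · have n6 : ‖D1 (closure Ω) u x‖ ≤ 1 - θ :=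
      (pow_le_pow_iff_left₀ (norm_nonneg _) (by linarith) two_ne_zero).1 (by nlinarith)
    linarith [min_le_left θ δ]

end Pool.Agent.Mink.C
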