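import Pool.Agent.Lib.MP_88c759_an.Mink.CG3

set_option maxSynthPendingDepth 3

namespace Pool.Agent.Mink.C

open scoped ContDiff Topology RealInnerProductSpace
open Set Filter

variable {n : ℕ}

variable {Ω : Set (E n)} {ρ : E n → ℝ}

theorem CG4_frontier (h : Dom Ω ρ) {y : E n} (h0 : ρ y = 0) (h1 : d1 ρ y ≠ 0) :
    y ∈ frontier Ω := by
  have hn : y ∉ Ω := by
    rw [h.eq]
    simp [h0]
  refine ⟨?_, fun hi => hn (interior_subset hi)⟩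
  by_contra hc
  have h2 : ∀ᶠ z in 𝓝 y, z ∉ closure Ω := isClosed_closure.isOpen_compl.mem_nhds hc
  have h3 : IsLocalMin ρ y := h2.mono fun z hz => by
    have h4 : z ∉ Ω := fun hz' => hz (subset_closure hz')
    rw [h.eq] at h4
    rw [h0]
    exact not_lt.1 h4
  exact h1 h3.fderiv_eq_zero

theorem CG4_impl {F : ℝ × ℝ → ℝ} (hF : ContDiffAt ℝ 2 F (0, 0)) (h1 : fderiv ℝ F (0, 0) (0, 1) ≠ 0) :
    ∃ s : ℝ → ℝ, ContDiffAt ℝ 2 s 0 ∧ s 0 = 0 ∧ ∀ᶠ t in 𝓝 (0:ℝ), F (t, s t) = F (0, 0) := by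
  have hi : (fderiv ℝ F (0, 0) ∘L .inr ℝ ℝ ℝ).IsInvertible := by
    refine ⟨ContinuousLinearEquiv.unitsEquivAut ℝ (Units.mk0 _ h1), ?_⟩
    ext
    simp
  exact ⟨_, hF.contDiffAt_implicitFunction two_ne_zero hi,
    hF.implicitFunction_apply_self two_ne_zero hi,
    hF.eventually_apply_implicitFunction two_ne_zero hi⟩

theorem CG4_inner_pr {ν : E n} (hν : ‖ν‖ = 1) (w : E n) : ⟪ν, pr ν w⟫ = 0 := by
  rw [pr, inner_sub_right, real_inner_smul_right, real_inner_self_eq_norm_sq, hν]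
  ring

/-- boundary curves with prescribed tangent -/
theorem Dom.curve (h : Dom Ω ρ) {x : E n} (hx : x ∈ frontier Ω) {τ : E n}
    (hτ : ⟪nin ρ x, τ⟫ = 0) :
    ∃ c : ℝ → E n, J2 c x τ (Bf ρ x τ τ • nin ρ x) ∧ ∀ᶠ t in 𝓝 (0:ℝ), c t ∈ frontier Ω := by
  set ν := nin ρ x with hν
  have hν1 : ‖ν‖ = 1 := h.norm_nin hx
  have hρ2 : ContDiff ℝ 2 ρ := h.smooth.of_le (WithTop.coe_le_coe.2 (le_top : (2 : ℕ∞) ≤ ⊤))
  have hm : 0 < ‖d1 ρ x‖ := norm_pos_iff.2 (h.reg x hx)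
  have hdν : d1 ρ x ν = -‖d1 ρ x‖ := by
    rw [h.d1_rho hx, ← hν, real_inner_self_eq_norm_sq, hν1]; ring
  have hdτ : d1 ρ x τ = 0 := by
    rw [h.d1_rho hx, hτ]; ring
  set A : ℝ × ℝ →L[ℝ] E n := (ContinuousLinearMap.fst ℝ ℝ ℝ).smulRight τ +
    (ContinuousLinearMap.snd ℝ ℝ ℝ).smulRight ν with hA
  have hAa : ∀ t s : ℝ, A (t, s) = t • τ + s • ν := fun t s => rfl
  have hA0 : x + A (0, 0) = x := by rw [hAa]; simp
  have hF : ContDiff ℝ 2 fun u : ℝ × ℝ => ρ (x + A u) :=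
    hρ2.comp (contDiff_const.add A.contDiff)
  have hF' : HasFDerivAt (fun u : ℝ × ℝ => ρ (x + A u)) ((d1 ρ x).comp A) (0, 0) := by
    have h1 : HasFDerivAt ρ (d1 ρ x) (x + A (0, 0)) := by
      rw [hA0]
      exact (hρ2.differentiable two_ne_zero x).hasFDerivAt
    exact h1.comp (0, 0) (A.hasFDerivAt.const_add x)
  obtain ⟨s, hs, hs0, hse⟩ := CG4_impl hF.contDiffAt (by
    rw [hF'.fderiv, ContinuousLinearMap.comp_apply, hAa, zero_smul, one_smul, zero_add, hdν]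
    exact neg_ne_zero.2 hm.ne')
  obtain ⟨b, c, hj⟩ := J2.of_contDiffAt hs
  rw [hs0] at hj
  have hc : J2 (fun t : ℝ => x + t • τ + s t • ν) x (τ + b • ν) (c • ν) :=
    ((J2.line x τ).add (hj.smul (J2.const ν))).of_eq (by simp) (by simp) (by simp)
  have hz : ∀ᶠ t in 𝓝 (0:ℝ), ρ (x + t • τ + s t • ν) = 0 := hse.mono fun t ht => by
    rw [hA0, hAa, ← add_assoc, h.rho_frontier hx] at ht
    exact ht
  have hu := ((J2.comp hρ2.contDiffAt hc).congr hz).unique (J2.const (0:ℝ))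
  have hb : b = 0 := by
    have h1 : d1 ρ x (τ + b • ν) = 0 := hu.2.1
    rw [map_add, map_smul, hdτ, hdν, zero_add, smul_eq_mul] at h1
    exact (mul_eq_zero.1 h1).resolve_right (neg_ne_zero.2 hm.ne')
  subst hb
  rw [zero_smul, add_zero] at hc hu
  have hcc : c = Bf ρ x τ τ := by
    have h1 : d2 ρ x τ τ + d1 ρ x (c • ν) = 0 := hu.2.2
    rw [map_smul, hdν, smul_eq_mul] at h1
    rw [Bf, eq_div_iff hm.ne']
    linarith
  subst hcc
  refine ⟨_, hc, ?_⟩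
  have hcont : Continuous (d1 ρ) := hρ2.continuous_fderiv two_ne_zero
  have h2 : ContinuousAt (fun t : ℝ => d1 ρ (x + t • τ + s t • ν)) 0 :=
    hcont.continuousAt.comp hc.continuousAt
  have h3 : ∀ᶠ t in 𝓝 (0:ℝ), d1 ρ (x + t • τ + s t • ν) ≠ 0 := by
    refine h2.eventually_ne ?_
    have h4 : x + (0:ℝ) • τ + s 0 • ν = x := hc.val
    rw [h4]
    exact h.reg x hx
  filter_upwards [hz, h3] with t ht ht' using CG4_frontier h ht ht'

theorem CG4_tan (h : Dom Ω ρ) {u v : E n → ℝ} (hu : ContDiffOn ℝ 2 u (closure Ω))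
    (hv : ContDiffOn ℝ 2 v (closure Ω)) (huv : ∀ y ∈ frontier Ω, u y = v y) {x : E n}
    (hx : x ∈ frontier Ω) {τ : E n} (hτ : ⟪nin ρ x, τ⟫ = 0) :
    D1 (closure Ω) u x τ = D1 (closure Ω) v x τ ∧
      D2 (closure Ω) u x τ τ = D2 (closure Ω) v x τ τ
        - (D1 (closure Ω) u x (nin ρ x) - D1 (closure Ω) v x (nin ρ x)) * Bf ρ x τ τ := by
  obtain ⟨c, hc, hf⟩ := h.curve hx hτ
  have hcl : ∀ᶠ t in 𝓝 (0:ℝ), c t ∈ closure Ω := hf.mono fun t ht => h.frontier_sub ht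
  have h1 := ((h.J2_curve hu hc hcl).congr (hf.mono fun t ht => huv _ ht)).unique
    (h.J2_curve hv hc hcl)
  refine ⟨h1.2.1, ?_⟩
  have h2 := h1.2.2
  simp only [map_smul, smul_eq_mul] at h2
  linarith

/-- first and second order consequences of the boundary condition -/
theorem Dom.bd1 (h : Dom Ω ρ) {u v : E n → ℝ} (hu : ContDiffOn ℝ 2 u (closure Ω))
    (hv : ContDiffOn ℝ 2 v (closure Ω)) (huv : ∀ y ∈ frontier Ω, u y = v y) {x : E n}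
    (hx : x ∈ frontier Ω) (w : E n) :
    D1 (closure Ω) u x w = D1 (closure Ω) v x w
      + (D1 (closure Ω) u x (nin ρ x) - D1 (closure Ω) v x (nin ρ x)) * ⟪nin ρ x, w⟫ := by
  have h1 := (CG4_tan h hu hv huv hx (CG4_inner_pr (h.norm_nin hx) w)).1
  simp only [pr, map_sub, map_smul, smul_eq_mul] at h1
  linarith

theorem Dom.bd2 (h : Dom Ω ρ) {u v : E n → ℝ} (hu : ContDiffOn ℝ 2 u (closure Ω))
    (hv : ContDiffOn ℝ 2 v (closure Ω)) (huv : ∀ y ∈ frontier Ω, u y = v y) {x : E n}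
    (hx : x ∈ frontier Ω) {τ τ' : E n} (hτ : ⟪nin ρ x, τ⟫ = 0) (hτ' : ⟪nin ρ x, τ'⟫ = 0) :
    D2 (closure Ω) u x τ τ' = D2 (closure Ω) v x τ τ'
      - (D1 (closure Ω) u x (nin ρ x) - D1 (closure Ω) v x (nin ρ x)) * Bf ρ x τ τ' := by
  have h1 := (CG4_tan h hu hv huv hx hτ).2
  have h2 := (CG4_tan h hu hv huv hx hτ').2
  have h3 := (CG4_tan h hu hv huv hx (τ := τ + τ') (by rw [inner_add_right, hτ, hτ', add_zero])).2
  have h4 : Bf ρ x (τ + τ') (τ + τ') = Bf ρ x τ τ + 2 * Bf ρ x τ τ' + Bf ρ x τ' τ' := by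
    have h5 := h.Bf_comm x τ' τ
    simp only [Bf, map_add, ContinuousLinearMap.add_apply, add_div] at h5 ⊢
    linarith
  have h5 := h.sym_D2 hu (h.frontier_sub hx) τ' τ
  have h6 := h.sym_D2 hv (h.frontier_sub hx) τ' τ
  rw [h4] at h3
  simp only [map_add, ContinuousLinearMap.add_apply] at h3
  linarith

/-- splitting the norm of a covector into tangential and normal parts -/
theorem norm_sq_split (p : B1 n) {ν : E n} (hν : ‖ν‖ = 1) :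
    ‖p‖ ^ 2 = ‖pr ν (shp p)‖ ^ 2 + p ν ^ 2 := by
  have h1 : ⟪ν, shp p⟫ = p ν := by rw [real_inner_comm, inner_shp]
  rw [pr, norm_sub_sq_real, real_inner_smul_right, inner_shp, h1, norm_smul, hν, norm_shp,
    Real.norm_eq_abs, mul_one, sq_abs]
  ring

theorem Dom.aT_eq (h : Dom Ω ρ) {u φ : E n → ℝ} (hu : ContDiffOn ℝ 2 u (closure Ω))
    (hφ : ContDiff ℝ 2 φ) (huφ : ∀ y ∈ frontier Ω, u y = φ y) {x : E n} (hx : x ∈ frontier Ω) :
    aT ρ φ x = pr (nin ρ x) (shp (D1 (closure Ω) u x)) := by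
  have h1 : shp (D1 (closure Ω) u x) = shp (d1 φ x) +
      (D1 (closure Ω) u x (nin ρ x) - D1 (closure Ω) φ x (nin ρ x)) • nin ρ x := by
    refine ext_inner_right ℝ fun w => ?_
    rw [inner_add_left, real_inner_smul_left, inner_shp, inner_shp,
      h.bd1 hu hφ.contDiffOn huφ hx w, (h.D1_of_contDiff hφ (h.frontier_sub hx)).1]
  rw [h1, aT, pr, pr, inner_add_right, real_inner_smul_right, real_inner_self_eq_norm_sq,
    h.norm_nin hx, add_smul]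
  simp

/-- solving `gp (β, ·) = l` on the tangent space -/
theorem exists_beta {ν a : E n} (hν : ‖ν‖ = 1) (ha : ⟪ν, a⟫ = 0) {W : ℝ} (hW : 1 ≤ W)
    (haW : ‖a‖ ^ 2 ≤ 1 - (W ^ 2)⁻¹) (l : B1 n) :
    ∃ β : E n, ⟪ν, β⟫ = 0 ∧ ‖β‖ ≤ W ^ 2 * ‖l‖ ∧
      ∀ η, ⟪ν, η⟫ = 0 → ⟪β, η⟫ - ⟪a, β⟫ * ⟪a, η⟫ = l η := by
  set m : E n := pr ν (shp l) with hm
  have hW2 : 0 < W ^ 2 := by positivity
  have hWi : 0 < (W ^ 2)⁻¹ := inv_pos.2 hW2
  have hq : 0 < 1 - ‖a‖ ^ 2 := by linarith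
  have hml : ‖m‖ ≤ ‖l‖ := by
    refine (sq_le_sq₀ (norm_nonneg _) (norm_nonneg _)).1 ?_
    have h1 := norm_sq_split l hν
    rw [← hm] at h1
    nlinarith [sq_nonneg (l ν)]
  refine ⟨m + (⟪a, m⟫ / (1 - ‖a‖ ^ 2)) • a, ?_, ?_, fun η hη => ?_⟩
  · rw [inner_add_right, real_inner_smul_right, ha, hm, CG4_inner_pr hν]
    ring
  · have h1 : |⟪a, m⟫| ≤ ‖a‖ * ‖m‖ := abs_real_inner_le_norm a m
    have h2 : ‖(⟪a, m⟫ / (1 - ‖a‖ ^ 2)) • a‖ ≤ ‖a‖ ^ 2 * ‖m‖ / (1 - ‖a‖ ^ 2) := by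
      rw [norm_smul, Real.norm_eq_abs, abs_div, abs_of_pos hq, div_mul_eq_mul_div]
      refine div_le_div_of_nonneg_right ?_ hq.le
      nlinarith [norm_nonneg a]
    have h3 : ‖m‖ + ‖a‖ ^ 2 * ‖m‖ / (1 - ‖a‖ ^ 2) = ‖m‖ / (1 - ‖a‖ ^ 2) := by
      field_simp
      ring
    have h4 : ‖m‖ / (1 - ‖a‖ ^ 2) ≤ W ^ 2 * ‖l‖ := by
      rw [div_le_iff₀ hq]
      have h5 : 1 ≤ W ^ 2 * (1 - ‖a‖ ^ 2) := by
        have h6 : W ^ 2 * (W ^ 2)⁻¹ = 1 := mul_inv_cancel₀ hW2.ne'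
        nlinarith
      nlinarith [norm_nonneg l]
    linarith [norm_add_le m ((⟪a, m⟫ / (1 - ‖a‖ ^ 2)) • a)]
  · have h1 : ⟪m, η⟫ = l η := by
      rw [hm, pr, inner_sub_left, real_inner_smul_left, hη, inner_shp]
      ring
    rw [inner_add_left, inner_add_right, real_inner_smul_left, real_inner_smul_right, h1,
      real_inner_self_eq_norm_sq]
    field_simp
    ring

end Pool.Agent.Mink.C
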