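import Pool.Agent.Lib.MP_88c759_an.Mink.CG9
import Pool.Agent.Lib.MP_88c759_an.Mink.CG4

set_option maxSynthPendingDepth 3

namespace Pool.Agent.Mink.C

open scoped ContDiff Topology RealInnerProductSpace
open Set Filter

variable {n : ℕ}

variable {Ω : Set (E n)} {ρ : E n → ℝ}

theorem CG10_mul {a b A B : ℝ} (ha : |a| ≤ A) (hb : |b| ≤ B) : |a * b| ≤ A * B := by
  rw [abs_mul]
  exact mul_le_mul ha hb (abs_nonneg _) ((abs_nonneg _).trans ha)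

theorem CG10_app {P : B1 n} {v : E n} {A B : ℝ} (hP : ‖P‖ ≤ A) (hv : ‖v‖ ≤ B) : |P v| ≤ A * B :=
  (P.le_opNorm v).trans (mul_le_mul hP hv (norm_nonneg _) ((norm_nonneg _).trans hP))

theorem CG10_app2 {Q : B2 n} {v w : E n} {A : ℝ} (hQ : ‖Q‖ ≤ A) : |Q v w| ≤ A * ‖v‖ * ‖w‖ :=
  (Q.le_opNorm₂ v w).trans (by gcongr)

theorem CG10_flip {Q : B2 n} {τ : E n} {A : ℝ} (hQ : ‖Q‖ ≤ A) (hτ : ‖τ‖ = 1) : ‖Q.flip τ‖ ≤ A := by
  refine (Q.flip.le_opNorm τ).trans ?_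
  rw [ContinuousLinearMap.opNorm_flip, hτ, mul_one]
  exact hQ

theorem CG10_est {ν τ ζ β h w : E n} {P P' R R' : B1 n} {Q T : B2 n} {δ N B : ℝ} (hB : 1 ≤ B)
    (hν : ‖ν‖ = 1) (hτ : ‖τ‖ = 1) (hτ0 : ⟪ν, τ⟫ = 0) (hζ0 : ⟪ν, ζ⟫ = 0) (hβ0 : ⟪ν, β⟫ = 0)
    (hζ : ‖ζ‖ ≤ B) (hβ : ‖β‖ ≤ B) (hνh : |⟪ν, h⟫| ≤ B * ‖h‖ ^ 2) (hP : ‖P‖ ≤ B)
    (hQ : ‖Q‖ ≤ B) (hT : ‖T‖ ≤ B) (P1 : ‖P' - P‖ ≤ B * ‖h‖) (P2 : ‖P' - P - Q h‖ ≤ B * ‖h‖ ^ 2)
    (R1 : ‖R' - R‖ ≤ B * ‖h‖) (R2 : ‖R' - R - T h‖ ≤ B * ‖h‖ ^ 2) (e1 : |δ| ≤ B * ‖h‖)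
    (e2 : |δ - P h| ≤ B * ‖h‖ ^ 2) (hR : ∀ v, R v = -(N * ⟪ν, v⟫))
    (hF : ∀ η, ⟪ν, η⟫ = 0 → ⟪β, η⟫ - P β * P η = Q η τ + P ν * ⟪ζ, η⟫)
    (hG : ∀ η, ⟪ν, η⟫ = 0 → N * ⟪ζ, η⟫ = T η τ)
    (hw : w = ⟪ζ, h⟫ • ν - ⟪ν, h⟫ • ζ + δ • β) :
    |P τ + ⟪β, h⟫ - P' (τ + w)| ≤ 8 * B ^ 4 * ‖h‖ ^ 2 ∧ |R' (τ + w)| ≤ 5 * B ^ 3 * ‖h‖ ^ 2 := by
  have hB0 : 0 ≤ B := zero_le_one.trans hB
  have ht := norm_nonneg h
  have hνν : ⟪ν, ν⟫ = 1 := by rw [real_inner_self_eq_norm_sq, hν, one_pow]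
  have hη : ⟪ν, h - ⟪ν, h⟫ • ν⟫ = 0 := by
    rw [inner_sub_right, real_inner_smul_right, hνν, mul_one, sub_self]
  have hF' := hF _ hη
  have hG' := hG _ hη
  simp only [inner_sub_right, real_inner_smul_right, map_sub, map_smul, smul_eq_mul, sub_apply,
    smul_apply, real_inner_comm ν β, real_inner_comm ν ζ, hζ0, hβ0, mul_zero, sub_zero] at hF' hG'
  have b1 : B ≤ B ^ 2 := by nlinarith
  have b2 : B ^ 2 ≤ B ^ 3 := pow_le_pow_right₀ hB (by norm_num)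
  have b3 : B ^ 3 ≤ B ^ 4 := pow_le_pow_right₀ hB (by norm_num)
  have c0 := mul_le_mul_of_nonneg_right b1 ht
  have c1 := mul_le_mul_of_nonneg_right b1 (sq_nonneg ‖h‖)
  have c2 := mul_le_mul_of_nonneg_right b2 (sq_nonneg ‖h‖)
  have c3 := mul_le_mul_of_nonneg_right b3 (sq_nonneg ‖h‖)
  have hwn : ‖w‖ ≤ 3 * B ^ 2 * ‖h‖ := by
    have k1 : ‖⟪ζ, h⟫ • ν‖ ≤ B * ‖h‖ := by
      rw [norm_smul, hν, mul_one]
      exact (norm_inner_le_norm _ _).trans (mul_le_mul_of_nonneg_right hζ ht)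
    have k2 : ‖⟪ν, h⟫ • ζ‖ ≤ 1 * ‖h‖ * B := by
      rw [norm_smul, ← hν]
      exact mul_le_mul (norm_inner_le_norm _ _) hζ (norm_nonneg _) (by positivity)
    have k3 : ‖δ • β‖ ≤ B * ‖h‖ * B := by
      rw [norm_smul]
      exact mul_le_mul e1 hβ (norm_nonneg _) (by positivity)
    rw [hw]
    refine (norm_add_le _ _).trans ((add_le_add (norm_sub_le _ _) le_rfl).trans ?_)
    linarith
  have hνw : ⟪ν, w⟫ = ⟪ζ, h⟫ := by
    rw [hw, inner_add_right, inner_sub_right, real_inner_smul_right, real_inner_smul_right,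
      real_inner_smul_right, hνν, hζ0, hβ0]
    ring
  have hPw : P w = ⟪ζ, h⟫ * P ν - ⟪ν, h⟫ * P ζ + δ * P β := by
    rw [hw]
    simp only [map_add, map_sub, map_smul, smul_eq_mul]
  constructor
  · have e : P τ + ⟪β, h⟫ - P' (τ + w) = -(⟪ν, h⟫ * (P β * P ν)) - ⟪ν, h⟫ * Q ν τ
        - (δ - P h) * P β - (P' - P - Q h) τ - (P' - P) w + ⟪ν, h⟫ * P ζ := by
      simp only [map_add, sub_apply]
      linear_combination hF' - hPw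
    have k1 := abs_le.1 (CG10_mul hνh (CG10_mul (CG10_app hP hβ) (CG10_app hP hν.le)))
    have k2 := abs_le.1 (CG10_mul hνh (CG10_app2 (v := ν) (w := τ) hQ))
    have k3 := abs_le.1 (CG10_mul e2 (CG10_app hP hβ))
    have k4 := abs_le.1 (CG10_app P2 hτ.le)
    have k5 := abs_le.1 (CG10_app P1 hwn)
    have k6 := abs_le.1 (CG10_mul hνh (CG10_app hP hζ))
    rw [hν, hτ] at k2
    rw [e, abs_le]
    constructor <;> linarith [k1.1, k1.2, k2.1, k2.2, k3.1, k3.2, k4.1, k4.2, k5.1, k5.2,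
      k6.1, k6.2]
  · have e : R' (τ + w) = ⟪ν, h⟫ * T ν τ + (R' - R - T h) τ + (R' - R) w := by
      simp only [map_add, sub_apply]
      rw [hR τ, hR w, hτ0, hνw]
      linear_combination -hG'
    have k2 := abs_le.1 (CG10_mul hνh (CG10_app2 (v := ν) (w := τ) hT))
    have k4 := abs_le.1 (CG10_app R2 hτ.le)
    have k5 := abs_le.1 (CG10_app R1 hwn)
    rw [hν, hτ] at k2
    rw [e, abs_le]
    constructor <;> linarith [k2.1, k2.2, k4.1, k4.2, k5.1, k5.2]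

theorem CG10_rot (ν ζ : E n) (hν : ‖ν‖ = 1) : ∃ S : E n →L[ℝ] E n,
    (∀ η, S η = ⟪ζ, η⟫ • ν - ⟪ν, η⟫ • ζ) ∧ ‖S‖ ≤ 2 * ‖ζ‖ := by
  refine ⟨(innerSL ℝ ζ).smulRight ν - (innerSL ℝ ν).smulRight ζ, fun η => rfl, ?_⟩
  refine (norm_sub_le _ _).trans (le_of_eq ?_)
  rw [ContinuousLinearMap.norm_smulRight_apply, ContinuousLinearMap.norm_smulRight_apply,
    innerSL_apply_norm, innerSL_apply_norm, hν]
  ring

theorem CG10_slope (h : Dom Ω ρ) {k : ℕ} {ψ : B1 n × ℝ × E n → ℝ} {φ u : E n → ℝ} {C₀ B : ℝ}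
    (hφ : PhiB Ω φ C₀) (hu : SolO k Ω ψ φ u) (hB : 1 ≤ B) (hC : C₀ ≤ B) {y : E n}
    (hy : y ∈ frontier Ω) : |D1 (closure Ω) u y (nin ρ y) - d1 φ y (nin ρ y)| ≤ 2 * B := by
  have h1 := CG10_app (hu.adm y (h.frontier_sub hy)).1.le (h.norm_nin hy).le
  have h2 := CG10_app ((hφ.2 y (h.frontier_sub hy)).2.1.trans hC) (h.norm_nin hy).le
  refine (abs_sub _ _).trans ?_
  linarith

/-- tangential and mixed second derivatives on the boundary -/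
theorem mixed (h : Dom Ω ρ) (k : ℕ) (hk : 2 ≤ k) (hkn : k ≤ n) {c₁ : ℝ} (hc₁ : 0 < c₁)
    (hR : Rk k Ω ρ c₁) (W M c₀ C₀ : ℝ) (hc : 0 < c₀) :
    ∃ C : ℝ, 0 ≤ C ∧ ∀ (ψ : B1 n × ℝ × E n → ℝ) (φ u : E n → ℝ), PsiB Ω ψ M c₀ C₀ → PhiB Ω φ C₀ →
      SolO k Ω ψ φ u → (∀ x ∈ closure Ω, |u x| ≤ M) →
      (∀ x ∈ closure Ω, Wp (D1 (closure Ω) u x) ≤ W) → ∀ x ∈ frontier Ω, ∀ τ : E n,
        ⟪nin ρ x, τ⟫ = 0 → |D2 (closure Ω) u x (nin ρ x) τ| ≤ C * ‖τ‖ ∧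
          ∀ τ' : E n, ⟪nin ρ x, τ'⟫ = 0 → |D2 (closure Ω) u x τ τ'| ≤ C * ‖τ‖ * ‖τ'‖ := by
  obtain ⟨m, C, r, hm, hC, -, hρ, hbd⟩ := h.consts
  obtain ⟨B, hB, hB1, hB2, hB3, hB4, hB5⟩ : ∃ B : ℝ, 1 ≤ B ∧ C ≤ B ∧ C₀ ≤ B ∧ m⁻¹ * C ≤ B ∧
      W ^ 2 * (C₀ + C₀ * (m⁻¹ * C)) ≤ B ∧ m⁻¹ ≤ B :=
    ⟨max 1 (max C (max C₀ (max (m⁻¹ * C) (max (W ^ 2 * (C₀ + C₀ * (m⁻¹ * C))) m⁻¹)))),
      by simp, by simp, by simp, by simp, by simp, by simp⟩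
  have hB0 : 0 ≤ B := zero_le_one.trans hB
  obtain ⟨A, hA⟩ := kil_barrier h k hk hkn hc₁ hR W M c₀ C₀ (2 * B) (18 * B ^ 5) 1 hc one_pos
  refine ⟨max (6 * B + A) (3 * B ^ 2), le_max_of_le_right (by positivity),
    fun ψ φ u hψ hφ hu hM hW x hx => ?_⟩
  have hxc := h.frontier_sub hx
  have hφ2 : ContDiff ℝ 2 φ := hφ.1.of_le (by norm_num)
  have hφ3 : ContDiff ℝ 2 (d1 φ) := hφ.1.fderiv_right (by norm_num)
  have hρ3 : ContDiff ℝ 2 (d1 ρ) := h.smooth.fderiv_right (by norm_cast)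
  have hν := h.norm_nin hx
  have hp := (hu.adm x hxc).1
  obtain ⟨hm1, hBf, -, hfr, -⟩ := hbd x hx
  obtain ⟨-, q1, q2, -⟩ := hφ.2 x hxc
  have hC0 : 0 ≤ C₀ := (norm_nonneg _).trans q1
  have bd : ∀ y ∈ frontier Ω, ∀ v, D1 (closure Ω) u y v = d1 φ y v +
      (D1 (closure Ω) u y (nin ρ y) - d1 φ y (nin ρ y)) * ⟪nin ρ y, v⟫ := fun y hy v => by
    have := h.bd1 hu.c2 hφ2.contDiffOn hu.bd hy v
    rwa [(h.D1_of_contDiff hφ2 (h.frontier_sub hy)).1] at this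
  have key : ∀ τ : E n, ‖τ‖ = 1 → ⟪nin ρ x, τ⟫ = 0 →
      D2 (closure Ω) u x (nin ρ x) τ ≤ 6 * B + A := by
    intro τ hτ hτ0
    have hN : 0 < ‖d1 ρ x‖ := hm.trans_le hm1
    obtain ⟨ζ, hζ0, hζ1, hζ2⟩ := exists_beta (a := 0) hν (inner_zero_right _) (W := 1) le_rfl
      (by simp) (‖d1 ρ x‖⁻¹ • (d2 ρ x).flip τ)
    have hζ : ‖ζ‖ ≤ m⁻¹ * C := by
      rw [one_pow, one_mul, norm_smul, norm_inv, norm_norm] at hζ1
      exact hζ1.trans (mul_le_mul (inv_anti₀ hm hm1) (CG10_flip (hρ x hxc).2.1 hτ)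
        (norm_nonneg _) (by positivity))
    have ha0 : ⟪nin ρ x, aT ρ φ x⟫ = 0 := by
      rw [aT, pr, inner_sub_right, real_inner_smul_right, real_inner_self_eq_norm_sq, hν]
      ring
    have ha1 : ∀ η, ⟪nin ρ x, η⟫ = 0 → ⟪aT ρ φ x, η⟫ = d1 φ x η := fun η hη => by
      rw [aT, pr, inner_sub_left, real_inner_smul_left, hη, inner_shp, mul_zero, sub_zero]
    have ha2 : ‖aT ρ φ x‖ ^ 2 ≤ 1 - (W ^ 2)⁻¹ := by
      have k1 := norm_sq_split (D1 (closure Ω) u x) hν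
      have k2 := (norm_le_of_Wp_le hp (hW x hxc)).1
      rw [h.aT_eq hu.c2 hφ2 hu.bd hx]
      linarith [sq_nonneg (D1 (closure Ω) u x (nin ρ x))]
    obtain ⟨β, hβ0, hβ1, hβ2⟩ := exists_beta hν ha0 ((one_le_Wp hp).trans (hW x hxc)) ha2
      ((d2 φ x).flip τ + d1 φ x (nin ρ x) • innerSL ℝ ζ)
    have hβ : ‖β‖ ≤ B := by
      refine hβ1.trans (le_trans (mul_le_mul_of_nonneg_left ?_ (sq_nonneg W)) hB4)
      refine (norm_add_le _ _).trans (add_le_add (CG10_flip q2 hτ) ?_)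
      rw [norm_smul, innerSL_apply_norm]
      refine mul_le_mul ?_ hζ (norm_nonneg _) hC0
      simpa using CG10_app q1 hν.le
    obtain ⟨S, hS, hS1⟩ := CG10_rot (nin ρ x) ζ hν
    have hS2 : ‖S‖ ≤ 2 * B := hS1.trans (by linarith [hζ.trans hB3])
    have k0 := hA ψ φ u hψ hu hM hW ⟨x, u x, D1 (closure Ω) u x τ, τ, β, S⟩
      (fun v w => by
        simp only [hS, inner_sub_left, inner_sub_right, real_inner_smul_left,
          real_inner_smul_right, real_inner_comm v ζ, real_inner_comm v (nin ρ x)]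
        ring)
      ⟨(CG10_app hp.le hτ.le).trans (by linarith), hτ.le.trans (by linarith),
        hβ.trans (by linarith), hS2⟩ hx rfl rfl (fun y hy _ => by
        have hyc := h.frontier_sub hy
        have t0 := taylor_convex hφ2 h.convex_closure (M := B)
          (fun z hz => (hφ.2 z hz).2.1.trans hB2) (fun z hz => (hφ.2 z hz).2.2.1.trans hB2) hxc hyc
        have t1 := taylor_convex hφ3 h.convex_closure (M := B)
          (fun z hz => (hφ.2 z hz).2.2.1.trans hB2) (fun z hz => (hφ.2 z hz).2.2.2.1.trans hB2)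
          hxc hyc
        have t2 := taylor_convex hρ3 h.convex_closure (M := B)
          (fun z hz => (hρ z hz).2.1.trans hB1) (fun z hz => (hρ z hz).2.2.1.trans hB1) hxc hyc
        have hνh : |⟪nin ρ x, y - x⟫| ≤ B * ‖y - x‖ ^ 2 := by
          rw [abs_of_nonneg (h.support hx hyc)]
          exact (hfr y hy).1.trans (mul_le_mul_of_nonneg_right hB1 (sq_nonneg _))
        obtain ⟨s1, s2⟩ := CG10_est (P := d1 φ x) (P' := d1 φ y) (R := d1 ρ x) (R' := d1 ρ y)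
          (Q := d2 φ x) (T := d2 ρ x) (δ := φ y - φ x) (N := ‖d1 ρ x‖) hB hν hτ hτ0 hζ0 hβ0
          (hζ.trans hB3) hβ hνh (q1.trans hB2) (q2.trans hB2) ((hρ x hxc).2.1.trans hB1)
          t1.1 t1.2 t2.1 t2.2 t0.1 t0.2 (h.d1_rho hx)
          (fun η hη => by
            have := hβ2 η hη
            rw [ha1 η hη, ha1 β hβ0] at this
            exact this)
          (fun η hη => by
            have := hζ2 η hη
            rw [inner_zero_left, zero_mul, sub_zero] at this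
            rw [this, smul_apply, smul_eq_mul, mul_inv_cancel_left₀ hN.ne']
            rfl) rfl
        show -(18 * B ^ 5 * ‖y - x‖ ^ 2) ≤ D1 (closure Ω) u x τ + ⟪β, y - x⟫ -
          D1 (closure Ω) u y (τ + S (y - x) + (u y - u x) • β)
        rw [hu.bd y hy, hu.bd x hx, hS, add_assoc τ, bd y hy (τ + _), bd x hx τ, hτ0, mul_zero,
          add_zero]
        rw [h.d1_rho hy, abs_neg, abs_mul, abs_norm] at s2
        generalize τ + (⟪ζ, y - x⟫ • nin ρ x - ⟪nin ρ x, y - x⟫ • ζ + (φ y - φ x) • β) = v at *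
        have s3 : |⟪nin ρ y, v⟫| ≤ B * (5 * B ^ 3 * ‖y - x‖ ^ 2) := by
          have g1 : m * |⟪nin ρ y, v⟫| ≤ 5 * B ^ 3 * ‖y - x‖ ^ 2 :=
            (mul_le_mul_of_nonneg_right (hbd y hy).1 (abs_nonneg _)).trans s2
          rw [← le_inv_mul_iff₀ hm] at g1
          exact g1.trans (mul_le_mul_of_nonneg_right hB5 (by positivity))
        have s4 := abs_le.1 (CG10_mul (CG10_slope h hφ hu hB hB2 hy) s3)
        have s5 : B ^ 4 * ‖y - x‖ ^ 2 ≤ B ^ 5 * ‖y - x‖ ^ 2 :=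
          mul_le_mul_of_nonneg_right (pow_le_pow_right₀ hB (by norm_num)) (sq_nonneg _)
        linarith [(abs_le.1 s1).1, s4.2])
    refine k0.trans (add_le_add ?_ le_rfl)
    show ⟪β, nin ρ x⟫ - D1 (closure Ω) u x (S (nin ρ x)) -
      D1 (closure Ω) u x (nin ρ x) * D1 (closure Ω) u x β ≤ 6 * B
    have g1 := abs_le.1 (CG10_app hp.le ((S.le_opNorm (nin ρ x)).trans
      (mul_le_mul hS2 hν.le (norm_nonneg _) (by positivity))))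
    have g2 := abs_le.1 (CG10_mul (CG10_app hp.le hν.le) (CG10_app hp.le hβ))
    rw [real_inner_comm, hβ0]
    linarith [g1.1, g2.1]
  intro τ hτ0
  refine ⟨?_, fun τ' hτ' => ?_⟩
  · rcases eq_or_ne τ 0 with rfl | hne
    · simp
    have hn : 0 < ‖τ‖ := norm_pos_iff.2 hne
    have u1 : ‖‖τ‖⁻¹ • τ‖ = 1 := by rw [norm_smul, norm_inv, norm_norm, inv_mul_cancel₀ hn.ne']
    have u2 : ⟪nin ρ x, ‖τ‖⁻¹ • τ⟫ = 0 := by rw [real_inner_smul_right, hτ0, mul_zero]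
    have k1 := key _ u1 u2
    have k2 := key (-(‖τ‖⁻¹ • τ)) (by rw [norm_neg, u1]) (by rw [inner_neg_right, u2, neg_zero])
    rw [map_neg] at k2
    have k3 : |D2 (closure Ω) u x (nin ρ x) (‖τ‖⁻¹ • τ)| ≤ 6 * B + A :=
      abs_le.2 ⟨by linarith, k1⟩
    rw [map_smul, smul_eq_mul, abs_mul, abs_inv, abs_norm, inv_mul_le_iff₀' hn] at k3
    exact k3.trans (mul_le_mul_of_nonneg_right (le_max_left _ _) hn.le)
  · have e := h.bd2 hu.c2 hφ2.contDiffOn hu.bd hx hτ0 hτ'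
    rw [(h.D1_of_contDiff hφ2 hxc).1, (h.D1_of_contDiff hφ2 hxc).2] at e
    have k1 := CG10_app2 (v := τ) (w := τ') (q2.trans hB2)
    have k2 := CG10_mul (CG10_slope h hφ hu hB hB2 hx) ((hBf τ τ').trans
      (show C * ‖τ‖ * ‖τ'‖ ≤ B * ‖τ‖ * ‖τ'‖ by gcongr))
    have k3 : B * (‖τ‖ * ‖τ'‖) ≤ B ^ 2 * (‖τ‖ * ‖τ'‖) :=
      mul_le_mul_of_nonneg_right (by nlinarith) (by positivity)
    have k4 : 3 * B ^ 2 * ‖τ‖ * ‖τ'‖ ≤ max (6 * B + A) (3 * B ^ 2) * ‖τ‖ * ‖τ'‖ := by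
      gcongr
      exact le_max_right _ _
    rw [e]
    refine (abs_sub _ _).trans (le_trans ?_ k4)
    linarith

end Pool.Agent.Mink.C
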