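import Pool.Agent.Lib.MP_88c759_an.Mink.CG10

set_option maxSynthPendingDepth 3

namespace Pool.Agent.Mink.C

open scoped ContDiff Topology RealInnerProductSpace
open Set Filter

variable {n : ℕ}

variable {Ω : Set (E n)} {ρ : E n → ℝ}

theorem CN3_est {ν ν' β h : E n} {P P' l : B1 n} {Q : B2 n} {δ s s' B : ℝ} (hB : 1 ≤ B)
    (hν : ‖ν‖ = 1) (hν' : ‖ν'‖ = 1) (hβ0 : ⟪ν, β⟫ = 0) (hβ : ‖β‖ ≤ B)
    (hνh : |⟪ν, h⟫| ≤ B * ‖h‖ ^ 2) (hP : ‖P‖ ≤ B) (hQ : ‖Q‖ ≤ B) (hl : ‖l‖ ≤ B)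
    (P1 : ‖P' - P‖ ≤ B * ‖h‖) (P2 : ‖P' - P - Q h‖ ≤ B * ‖h‖ ^ 2) (N1 : ‖ν' - ν‖ ≤ B * ‖h‖)
    (e1 : |δ| ≤ B * ‖h‖) (e2 : |δ - P h| ≤ B * ‖h‖ ^ 2) (hs' : |s'| ≤ 2 * B)
    (hs : s' ≤ s + l h + B * ‖h‖ ^ 2)
    (hF : ∀ η, ⟪ν, η⟫ = 0 → ⟪β, η⟫ - P β * P η = Q η ν + l η) :
    -(10 * B ^ 4 * ‖h‖ ^ 2) ≤ P ν + s + ⟪β, h⟫ - (P' (ν + δ • β) + s' * ⟪ν', ν + δ • β⟫) := by
  have hB0 : 0 ≤ B := zero_le_one.trans hB
  have ht := norm_nonneg h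
  have hνν : ⟪ν, ν⟫ = 1 := by rw [real_inner_self_eq_norm_sq, hν, one_pow]
  have hη : ⟪ν, h - ⟪ν, h⟫ • ν⟫ = 0 := by
    rw [inner_sub_right, real_inner_smul_right, hνν, mul_one, sub_self]
  have hF' := hF _ hη
  simp only [inner_sub_right, real_inner_smul_right, map_sub, map_smul, smul_eq_mul, sub_apply,
    smul_apply, real_inner_comm ν β, hβ0, mul_zero, sub_zero] at hF'
  have b1 : B ≤ B ^ 2 := by nlinarith
  have b2 : B ^ 2 ≤ B ^ 3 := pow_le_pow_right₀ hB (by norm_num)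
  have b3 : B ^ 3 ≤ B ^ 4 := pow_le_pow_right₀ hB (by norm_num)
  have c1 := mul_le_mul_of_nonneg_right b1 (sq_nonneg ‖h‖)
  have c2 := mul_le_mul_of_nonneg_right b2 (sq_nonneg ‖h‖)
  have c3 := mul_le_mul_of_nonneg_right b3 (sq_nonneg ‖h‖)
  have n1 : ⟪ν', ν⟫ = 1 - ‖ν' - ν‖ ^ 2 / 2 := by
    rw [norm_sub_sq_real, hν, hν']
    ring
  have n2 : ⟪ν', β⟫ = ⟪ν' - ν, β⟫ := by rw [inner_sub_left, hβ0, sub_zero]
  have n3 : |⟪ν' - ν, β⟫| ≤ B * ‖h‖ * B :=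
    (abs_real_inner_le_norm _ _).trans (mul_le_mul N1 hβ (norm_nonneg _) (by positivity))
  have n4 : |‖ν' - ν‖ ^ 2 / 2| ≤ (B * ‖h‖) ^ 2 / 2 := by
    rw [abs_of_nonneg (by positivity)]
    gcongr
  have e : P ν + s + ⟪β, h⟫ - (P' (ν + δ • β) + s' * ⟪ν', ν + δ • β⟫)
      = (s + l h - s') - ⟪ν, h⟫ * (P β * P ν) - ⟪ν, h⟫ * Q ν ν - ⟪ν, h⟫ * l ν
        - (δ - P h) * P β - (P' - P - Q h) ν - δ * (P' - P) β + s' * (‖ν' - ν‖ ^ 2 / 2)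
        - s' * (δ * ⟪ν' - ν, β⟫) := by
    rw [inner_add_right, real_inner_smul_right, n1, n2]
    simp only [map_add, map_smul, smul_eq_mul, sub_apply]
    linear_combination hF'
  have k1 := abs_le.1 (CG10_mul hνh (CG10_mul (CG10_app hP hβ) (CG10_app hP hν.le)))
  have k2 := abs_le.1 (CG10_mul hνh (CG10_app2 (v := ν) (w := ν) hQ))
  have k3 := abs_le.1 (CG10_mul hνh (CG10_app hl hν.le))
  have k4 := abs_le.1 (CG10_mul e2 (CG10_app hP hβ))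
  have k5 := abs_le.1 (CG10_app P2 hν.le)
  have k6 := abs_le.1 (CG10_mul e1 (CG10_app P1 hβ))
  have k7 := abs_le.1 (CG10_mul hs' n4)
  have k8 := abs_le.1 (CG10_mul hs' (CG10_mul e1 n3))
  rw [hν] at k2
  rw [e]
  linarith [k1.2, k2.2, k3.2, k4.2, k5.2, k6.2, k7.1, k8.2]

/-- a one sided first order bound for the normal slope along the boundary bounds the double normal
derivative from above -/
theorem nn_of_slope (h : Dom Ω ρ) (k : ℕ) (hk : 2 ≤ k) (hkn : k ≤ n) {c₁ : ℝ} (hc₁ : 0 < c₁)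
    (hR : Rk k Ω ρ c₁) (W M c₀ C₀ C r : ℝ) (hc : 0 < c₀) (hr : 0 < r) :
    ∃ C' : ℝ, ∀ (ψ : B1 n × ℝ × E n → ℝ) (φ u : E n → ℝ), PsiB Ω ψ M c₀ C₀ → PhiB Ω φ C₀ →
      SolO k Ω ψ φ u → (∀ x ∈ closure Ω, |u x| ≤ M) →
      (∀ x ∈ closure Ω, Wp (D1 (closure Ω) u x) ≤ W) → ∀ x ∈ frontier Ω, ∀ l : B1 n, ‖l‖ ≤ C →
        (∀ y ∈ frontier Ω, ‖y - x‖ ≤ r →
          D1 (closure Ω) u y (nin ρ y) - d1 φ y (nin ρ y)
            ≤ D1 (closure Ω) u x (nin ρ x) - d1 φ x (nin ρ x) + l (y - x) + C * ‖y - x‖ ^ 2) →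
        D2 (closure Ω) u x (nin ρ x) (nin ρ x) ≤ C' := by
  obtain ⟨m, D, r', hm, hD, -, -, hbd⟩ := h.consts
  obtain ⟨B, hB, hB1, hB2, hB3, hB4⟩ : ∃ B : ℝ, 1 ≤ B ∧ D ≤ B ∧ C₀ ≤ B ∧ C ≤ B ∧
      W ^ 2 * (C₀ + C) ≤ B :=
    ⟨max 1 (max D (max C₀ (max C (W ^ 2 * (C₀ + C))))),
      by simp, by simp, by simp, by simp, by simp⟩
  have hB0 : 0 ≤ B := zero_le_one.trans hB
  obtain ⟨A, hA⟩ := kil_barrier h k hk hkn hc₁ hR W M c₀ C₀ B (10 * B ^ 4) r hc hr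
  refine ⟨B + A, fun ψ φ u hψ hφ hu hM hW x hx l hl hsl => ?_⟩
  have hxc := h.frontier_sub hx
  have hφ2 : ContDiff ℝ 2 φ := hφ.1.of_le (by norm_num)
  have hφ3 : ContDiff ℝ 2 (d1 φ) := hφ.1.fderiv_right (by norm_num)
  have hν := h.norm_nin hx
  have hp := (hu.adm x hxc).1
  obtain ⟨-, -, -, hfr, -⟩ := hbd x hx
  obtain ⟨-, q1, q2, -⟩ := hφ.2 x hxc
  have bd : ∀ y ∈ frontier Ω, ∀ v, D1 (closure Ω) u y v = d1 φ y v +
      (D1 (closure Ω) u y (nin ρ y) - d1 φ y (nin ρ y)) * ⟪nin ρ y, v⟫ := fun y hy v => by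
    have := h.bd1 hu.c2 hφ2.contDiffOn hu.bd hy v
    rwa [(h.D1_of_contDiff hφ2 (h.frontier_sub hy)).1] at this
  have ha0 : ⟪nin ρ x, aT ρ φ x⟫ = 0 := by
    rw [aT, pr, inner_sub_right, real_inner_smul_right, real_inner_self_eq_norm_sq, hν]
    ring
  have ha1 : ∀ η, ⟪nin ρ x, η⟫ = 0 → ⟪aT ρ φ x, η⟫ = d1 φ x η := fun η hη => by
    rw [aT, pr, inner_sub_left, real_inner_smul_left, hη, inner_shp, mul_zero, sub_zero]
  have ha2 : ‖aT ρ φ x‖ ^ 2 ≤ 1 - (W ^ 2)⁻¹ := by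
    have k1 := norm_sq_split (D1 (closure Ω) u x) hν
    have k2 := (norm_le_of_Wp_le hp (hW x hxc)).1
    rw [h.aT_eq hu.c2 hφ2 hu.bd hx]
    linarith [sq_nonneg (D1 (closure Ω) u x (nin ρ x))]
  obtain ⟨β, hβ0, hβ1, hβ2⟩ := exists_beta hν ha0 ((one_le_Wp hp).trans (hW x hxc)) ha2
    ((d2 φ x).flip (nin ρ x) + l)
  have hβ : ‖β‖ ≤ B :=
    hβ1.trans (le_trans (mul_le_mul_of_nonneg_left
      ((norm_add_le _ _).trans (add_le_add (CG10_flip q2 hν) hl)) (sq_nonneg W)) hB4)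
  have k0 := hA ψ φ u hψ hu hM hW ⟨x, u x, D1 (closure Ω) u x (nin ρ x), nin ρ x, β, 0⟩
    (fun v w => by simp)
    ⟨(CG10_app hp.le hν.le).trans (by linarith), hν.le.trans hB, hβ, by simpa using hB0⟩
    hx rfl rfl (fun y hy hyr => by
      have hyc := h.frontier_sub hy
      have t0 := taylor_convex hφ2 h.convex_closure (M := B)
        (fun z hz => (hφ.2 z hz).2.1.trans hB2) (fun z hz => (hφ.2 z hz).2.2.1.trans hB2) hxc hyc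
      have t1 := taylor_convex hφ3 h.convex_closure (M := B)
        (fun z hz => (hφ.2 z hz).2.2.1.trans hB2) (fun z hz => (hφ.2 z hz).2.2.2.1.trans hB2)
        hxc hyc
      have hνh : |⟪nin ρ x, y - x⟫| ≤ B * ‖y - x‖ ^ 2 := by
        rw [abs_of_nonneg (h.support hx hyc)]
        exact (hfr y hy).1.trans (mul_le_mul_of_nonneg_right hB1 (sq_nonneg _))
      have s1 := CN3_est (P := d1 φ x) (P' := d1 φ y) (Q := d2 φ x) (l := l) (δ := φ y - φ x)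
        (s := D1 (closure Ω) u x (nin ρ x) - d1 φ x (nin ρ x)) hB hν (h.norm_nin hy) hβ0 hβ hνh
        (q1.trans hB2) (q2.trans hB2) (hl.trans hB3) t1.1 t1.2
        ((hfr y hy).2.trans (mul_le_mul_of_nonneg_right hB1 (norm_nonneg _))) t0.1 t0.2
        (CG10_slope h hφ hu hB hB2 hy)
        ((hsl y hy hyr).trans (add_le_add le_rfl (mul_le_mul_of_nonneg_right hB3 (sq_nonneg _))))
        (fun η hη => by
          have := hβ2 η hη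
          rw [ha1 η hη, ha1 β hβ0] at this
          exact this)
      show -(10 * B ^ 4 * ‖y - x‖ ^ 2) ≤ D1 (closure Ω) u x (nin ρ x) + ⟪β, y - x⟫ -
        D1 (closure Ω) u y (nin ρ x + (0 : E n →L[ℝ] E n) (y - x) + (u y - u x) • β)
      rw [hu.bd y hy, hu.bd x hx, ContinuousLinearMap.zero_apply, add_zero,
        bd y hy (nin ρ x + _)]
      linarith)
  refine k0.trans (add_le_add ?_ le_rfl)
  show ⟪β, nin ρ x⟫ - D1 (closure Ω) u x ((0 : E n →L[ℝ] E n) (nin ρ x)) -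
    D1 (closure Ω) u x (nin ρ x) * D1 (closure Ω) u x β ≤ B
  have g2 := abs_le.1 (CG10_mul (CG10_app hp.le hν.le) (CG10_app hp.le hβ))
  rw [real_inner_comm, hβ0, ContinuousLinearMap.zero_apply, map_zero]
  linarith [g2.1]

end Pool.Agent.Mink.C
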