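import Pool.Agent.Lib.MP_88c759_an.Mink.CN2
import Pool.Agent.Lib.MP_88c759_an.Mink.CN3
import Pool.Agent.Lib.MP_88c759_an.Mink.CG10

set_option maxSynthPendingDepth 3

namespace Pool.Agent.Mink.C

open scoped ContDiff Topology RealInnerProductSpace
open Set Filter

variable {n : ℕ}

variable {Ω : Set (E n)} {ρ : E n → ℝ}

theorem CN4_gam_cont {α : Type} [TopologicalSpace α] {s : Set α} {a v : α → E n}
    (ha : ContinuousOn a s) (hv : ContinuousOn v s) (h1 : ∀ z ∈ s, ‖a z‖ < 1) :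
    ContinuousOn (fun z => gam (a z) (v z)) s := by
  have hs : ∀ z ∈ s, 0 < Real.sqrt (1 - ‖a z‖ ^ 2) := fun z hz =>
    Real.sqrt_pos.2 (by nlinarith [h1 z hz, norm_nonneg (a z)])
  have c1 : ContinuousOn (fun z => (Real.sqrt (1 - ‖a z‖ ^ 2))⁻¹) s :=
    ((continuousOn_const.sub (ha.norm.pow 2)).sqrt).inv₀ (fun z hz => (hs z hz).ne')
  unfold gam
  refine hv.add (ContinuousOn.smul (ContinuousOn.mul (ContinuousOn.div (c1.pow 2)
    (continuousOn_const.add c1) (fun z hz => ?_)) (ha.inner hv)) ha)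
  have := inv_pos.2 (hs z hz)
  exact (add_pos one_pos this).ne'

theorem CN4_pr_lt {p : B1 n} (hp : ‖p‖ < 1) {ν : E n} (hν : ‖ν‖ = 1) : ‖pr ν (shp p)‖ < 1 := by
  have h1 := norm_sq_split p hν
  by_contra hc
  push Not at hc
  nlinarith [norm_nonneg p, sq_nonneg (p ν)]

theorem CN4_pr_perp {ν : E n} (hν : ‖ν‖ = 1) (v : E n) : ⟪ν, pr ν v⟫ = 0 := by
  unfold pr
  rw [inner_sub_right, real_inner_smul_right, real_inner_self_eq_norm_sq, hν]
  ring

/-- the set of adapted frames along the boundary -/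
def CN4_K (Ω : Set (E n)) (ρ : E n → ℝ) (o : Fin n) : Set (E n × (Fin n → E n)) :=
  {z | z.1 ∈ frontier Ω ∧ Orthonormal ℝ z.2 ∧ z.2 o = nin ρ z.1}

theorem CN4_compact (h : Dom Ω ρ) (o : Fin n) : IsCompact (CN4_K Ω ρ o) := by
  have c1 : IsCompact (frontier Ω ×ˢ
      (Set.pi Set.univ fun _ : Fin n => Metric.closedBall (0 : E n) 1)) :=
    h.isCompact_frontier.prod (isCompact_univ_pi fun _ => isCompact_closedBall _ _)
  refine c1.of_isClosed_subset ?_ ?_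
  · have a1 : IsClosed {z : E n × (Fin n → E n) | z.1 ∈ frontier Ω} :=
      isClosed_frontier.preimage continuous_fst
    have a2 : IsClosed {z ∈ {z : E n × (Fin n → E n) | z.1 ∈ frontier Ω} | z.2 o = nin ρ z.1} :=
      a1.isClosed_eq ((continuous_apply o).comp continuous_snd).continuousOn
        (h.contOn_nin.comp continuous_fst.continuousOn (fun z hz => hz))
    have a3 : IsClosed {z : E n × (Fin n → E n) | Orthonormal ℝ z.2} := by
      simp only [orthonormal_iff_ite, Set.ofPred_forall]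
      exact isClosed_iInter fun i => isClosed_iInter fun j => isClosed_eq
        (((continuous_apply i).comp continuous_snd).inner
          ((continuous_apply j).comp continuous_snd)) continuous_const
    convert a2.inter a3 using 1
    ext z
    simp only [CN4_K, Set.mem_inter_iff, Set.mem_ofPred_eq]
    tauto
  · rintro z ⟨z1, z2, _⟩
    exact ⟨z1, fun i _ => by rw [mem_closedBall_zero_iff, z2.1 i]⟩

/-- tangential diagonal entries -/
noncomputable def CN4_y (Ω : Set (E n)) (u : E n → ℝ) (o : Fin n) (z : E n × (Fin n → E n))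
    (a : Fin n) : ℝ :=
  D2 (closure Ω) u z.1 (gam (pr (z.2 o) (shp (D1 (closure Ω) u z.1))) (z.2 a))
    (gam (pr (z.2 o) (shp (D1 (closure Ω) u z.1))) (z.2 a))

theorem CN4_cont (h : Dom Ω ρ) {u : E n → ℝ} (hu : ContDiffOn ℝ 2 u (closure Ω))
    (hp : ∀ x ∈ closure Ω, ‖D1 (closure Ω) u x‖ < 1) (o : Fin n) :
    ContinuousOn (CN4_y Ω u o) (CN4_K Ω ρ o) := by
  have m : MapsTo Prod.fst (CN4_K Ω ρ o) (closure Ω) := fun z hz => h.frontier_sub hz.1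
  have c1 := (h.contOn_D1 hu).comp continuous_fst.continuousOn m
  have c2 := (h.contOn_D2 hu).comp continuous_fst.continuousOn m
  have c3 : ContinuousOn (fun z : E n × (Fin n → E n) => shp (D1 (closure Ω) u z.1))
      (CN4_K Ω ρ o) := contDiff_shp.continuous.comp_continuousOn c1
  have c4 : ∀ i, ContinuousOn (fun z : E n × (Fin n → E n) => z.2 i) (CN4_K Ω ρ o) := fun i =>
    ((continuous_apply i).comp continuous_snd).continuousOn
  have c5 : ContinuousOn (fun z : E n × (Fin n → E n) =>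
      pr (z.2 o) (shp (D1 (closure Ω) u z.1))) (CN4_K Ω ρ o) := by
    unfold pr
    exact c3.sub (((c4 o).inner (𝕜 := ℝ) c3).smul (c4 o))
  refine continuousOn_pi.2 (fun a => ?_)
  have c6 := CN4_gam_cont c5 (c4 a) (fun z hz => CN4_pr_lt (hp _ (m hz)) (hz.2.1.1 o))
  exact (ContinuousOn.clm_apply c2 c6).clm_apply c6

/-- the tangential entries in terms of the boundary data -/
theorem CN4_bd (h : Dom Ω ρ) {u φ : E n → ℝ} (hu : ContDiffOn ℝ 2 u (closure Ω))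
    (hφ : ContDiff ℝ 2 φ) (huφ : ∀ y ∈ frontier Ω, u y = φ y) {o : Fin n}
    {z : E n × (Fin n → E n)} (hz : z ∈ CN4_K Ω ρ o) {i : Fin n} (hi : i ≠ o) :
    CN4_y Ω u o z i = d2 φ z.1 (gam (aT ρ φ z.1) (z.2 i)) (gam (aT ρ φ z.1) (z.2 i)) -
      (D1 (closure Ω) u z.1 (nin ρ z.1) - d1 φ z.1 (nin ρ z.1)) *
        Bf ρ z.1 (gam (aT ρ φ z.1) (z.2 i)) (gam (aT ρ φ z.1) (z.2 i)) := by
  obtain ⟨z1, z2, z3⟩ := hz
  have t1 : ⟪nin ρ z.1, gam (aT ρ φ z.1) (z.2 i)⟫ = 0 := by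
    refine gam_tangent (CN4_pr_perp (h.norm_nin z1) _) ?_
    rw [← z3]
    exact z2.2 hi.symm
  have e := h.bd2 hu hφ.contDiffOn huφ z1 t1 t1
  obtain ⟨e1, e2⟩ := h.D1_of_contDiff hφ (h.frontier_sub z1)
  rw [e1, e2] at e
  unfold CN4_y
  rw [z3, ← h.aT_eq hu hφ huφ z1]
  exact e

/-- boundary estimate for all second derivatives -/
theorem c2_bdry (h : Dom Ω ρ) (k : ℕ) (hk : 2 ≤ k) (hkn : k ≤ n) {c₁ : ℝ} (hc₁ : 0 < c₁)
    (hR : Rk k Ω ρ c₁) (W M c₀ C₀ : ℝ) (hc : 0 < c₀) :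
    ∃ L : ℝ, ∀ (ψ : B1 n × ℝ × E n → ℝ) (φ u : E n → ℝ), PsiB Ω ψ M c₀ C₀ → PhiB Ω φ C₀ →
      SolO k Ω ψ φ u → (∀ x ∈ closure Ω, |u x| ≤ M) →
      (∀ x ∈ closure Ω, Wp (D1 (closure Ω) u x) ≤ W) →
      ∀ x ∈ frontier Ω, ‖D2 (closure Ω) u x‖ ≤ L := by
  classical
  by_cases hW : 1 ≤ W
  swap
  · refine ⟨0, fun ψ φ u _ _ hs _ hw x hx => absurd ?_ hW⟩
    exact (one_le_Wp (hs.adm x (h.frontier_sub hx)).1).trans (hw x (h.frontier_sub hx))
  obtain ⟨o, -⟩ : ∃ o : Fin n, True := ⟨⟨0, by omega⟩, trivial⟩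
  obtain ⟨C1, C10, H1⟩ := mixed h k hk hkn hc₁ hR W M c₀ C₀ hc
  obtain ⟨ε, ε0, H2⟩ := eta_lower h k hk hc₁ hR
  obtain ⟨C, r, C0, r0, H3⟩ := quot_taylor h W (max C₀ (C1 * W * W)) ε hW ε0
  obtain ⟨C', H4⟩ := nn_of_slope h k hk hkn hc₁ hR W M c₀ C₀ C r hc r0
  obtain ⟨m, m0, H5⟩ := tan_of_nn (n := n) k hk W (max C1 C') c₀ hc
  obtain ⟨C'', H6⟩ := nn_of_tan (n := n) k hk W C1 C₀ m m0
  refine ⟨4 * max C1 C'', fun ψ φ u hψ hφ hs hM hw x hx => ?_⟩
  have hφ2 : ContDiff ℝ 2 φ := hφ.1.of_le (by norm_num)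
  have hp : ∀ y ∈ closure Ω, ‖D1 (closure Ω) u y‖ < 1 := fun y hy => (hs.adm y hy).1
  have mx := H1 ψ φ u hψ hφ hs hM hw
  have hSS : ∀ y ∈ closure Ω, c₀ ≤ SS k (D1 (closure Ω) u y) (D2 (closure Ω) u y) ∧
      SS k (D1 (closure Ω) u y) (D2 (closure Ω) u y) ≤ C₀ := by
    intro y hy
    obtain ⟨_, a1, a2, _⟩ := hψ y hy (u y) (hM y hy) _ (hp y hy).le
    rw [hs.eq y hy]
    exact ⟨a1, a2⟩
  have haT : ∀ y ∈ frontier Ω, ‖aT ρ φ y‖ ^ 2 ≤ 1 - (W ^ 2)⁻¹ := by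
    intro y hy
    have a1 := (norm_le_of_Wp_le (hp y (h.frontier_sub hy)) (hw y (h.frontier_sub hy))).1
    have a2 := norm_sq_split (D1 (closure Ω) u y) (h.norm_nin hy)
    rw [h.aT_eq hs.c2 hφ2 hs.bd hy]
    nlinarith [sq_nonneg (D1 (closure Ω) u y (nin ρ y))]
  have haT1 : ∀ y ∈ frontier Ω, ‖aT ρ φ y‖ < 1 := by
    intro y hy
    rw [h.aT_eq hs.c2 hφ2 hs.bd hy]
    exact CN4_pr_lt (hp y (h.frontier_sub hy)) (h.norm_nin hy)
  have gm : ∀ z ∈ CN4_K Ω ρ o, Gam (Finset.univ.erase o) (k - 1) (CN4_y Ω u o z) := fun z hz =>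
    tan_gam (hs.adm _ (h.frontier_sub hz.1)) (h.sym_D2 hs.c2 (h.frontier_sub hz.1)) o hz.2.1
  obtain ⟨ê1, e1, e2, -⟩ := exists_tan_diag (h.norm_nin hx) o (h.sym_D2 hs.c2 (h.frontier_sub hx))
  obtain ⟨z, hz, zmin⟩ := (CN4_compact h o).exists_isMinOn ⟨(x, ê1), hx, e1, e2⟩
    ((continuous_es (Finset.univ.erase o) (k - 1)).comp_continuousOn (CN4_cont h hs.c2 hp o))
  obtain ⟨f, hf⟩ : ∃ f : Fin n → ℝ,
      f = fun i => es ((Finset.univ.erase o).erase i) (k - 2) (CN4_y Ω u o z) := ⟨_, rfl⟩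
  have f0 : ∀ i ∈ Finset.univ.erase o, 0 < f i := by
    intro i hi
    rw [hf]
    exact ((gm z hz).erase hi).pos (by omega)
  obtain ⟨T, hT⟩ : ∃ T, T = ∑ i ∈ Finset.univ.erase o, f i := ⟨_, rfl⟩
  have T0 : 0 < T := by
    rw [hT]
    refine Finset.sum_pos f0 (Finset.card_pos.1 ?_)
    rw [Finset.card_erase_of_mem (Finset.mem_univ _), Finset.card_univ, Fintype.card_fin]
    omega
  obtain ⟨lam, hlam⟩ : ∃ lam : Fin n → ℝ, lam = fun i => if i = o then 0 else f i / T := ⟨_, rfl⟩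
  have ls : ∀ g : Fin n → ℝ, ∑ i ∈ Finset.univ.erase o, lam i * g i =
      (∑ i ∈ Finset.univ.erase o, f i * g i) / T := by
    intro g
    rw [Finset.sum_div]
    refine Finset.sum_congr rfl (fun i hi => ?_)
    rw [hlam]
    simp only [if_neg (Finset.ne_of_mem_erase hi)]
    ring
  have l1 : ∀ i, |lam i| ≤ 1 := by
    intro i
    rw [hlam]
    by_cases e : i = o
    · simp [e]
    · have hi : i ∈ Finset.univ.erase o := Finset.mem_erase.2 ⟨e, Finset.mem_univ _⟩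
      simp only [if_neg e]
      rw [abs_of_pos (div_pos (f0 i hi) T0), div_le_one T0, hT]
      exact Finset.single_le_sum (fun j hj => (f0 j hj).le) hi
  obtain ⟨mb, hmb⟩ : ∃ mb, mb = ∑ i ∈ Finset.univ.erase o, lam i * CN4_y Ω u o z i := ⟨_, rfl⟩
  have l2 : |mb| ≤ max C₀ (C1 * W * W) := by
    refine le_trans ?_ (le_max_right _ _)
    have b1 : ∀ i ∈ Finset.univ.erase o, |CN4_y Ω u o z i| ≤ C1 * W * W := by
      intro i hi
      have t1 : ⟪nin ρ z.1, gam (aT ρ φ z.1) (z.2 i)⟫ = 0 := by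
        refine gam_tangent (CN4_pr_perp (h.norm_nin hz.1) _) ?_
        rw [← hz.2.2]
        exact hz.2.1.2 (Finset.ne_of_mem_erase hi).symm
      have t2 := (mx _ hz.1 _ t1).2 _ t1
      have t3 := norm_gam_le hW (haT _ hz.1) (z.2 i)
      rw [hz.2.1.1 i, mul_one] at t3
      unfold CN4_y
      rw [hz.2.2, ← h.aT_eq hs.c2 hφ2 hs.bd hz.1]
      refine t2.trans ?_
      gcongr
    rw [hmb, ls, abs_div, abs_of_pos T0, div_le_iff₀ T0, hT, Finset.mul_sum]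
    refine (Finset.abs_sum_le_sum_abs _ _).trans (Finset.sum_le_sum (fun i hi => ?_))
    rw [abs_mul, abs_of_pos (f0 i hi), mul_comm]
    exact mul_le_mul_of_nonneg_right (b1 i hi) (f0 i hi).le
  have low : ∀ w ∈ CN4_K Ω ρ o, ε ≤ ∑ i ∈ Finset.univ.erase o,
      lam i * Bf ρ w.1 (gam (aT ρ φ w.1) (w.2 i)) (gam (aT ρ φ w.1) (w.2 i)) := by
    intro w hw'
    have := H2 w.1 hw'.1 (aT ρ φ w.1) o w.2 _ (haT1 _ hw'.1) (CN4_pr_perp (h.norm_nin hw'.1) _)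
      hw'.2.1 hw'.2.2 (gm z hz)
    rw [ls, le_div_iff₀ T0, hT, hf]
    exact this
  have dec : ∀ w ∈ CN4_K Ω ρ o, ∑ i ∈ Finset.univ.erase o, lam i * CN4_y Ω u o w i =
      ∑ i ∈ Finset.univ.erase o,
        lam i * d2 φ w.1 (gam (aT ρ φ w.1) (w.2 i)) (gam (aT ρ φ w.1) (w.2 i)) -
      (D1 (closure Ω) u w.1 (nin ρ w.1) - d1 φ w.1 (nin ρ w.1)) * ∑ i ∈ Finset.univ.erase o,
        lam i * Bf ρ w.1 (gam (aT ρ φ w.1) (w.2 i)) (gam (aT ρ φ w.1) (w.2 i)) := by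
    intro w hw'
    rw [Finset.mul_sum, ← Finset.sum_sub_distrib]
    refine Finset.sum_congr rfl (fun i hi => ?_)
    rw [CN4_bd h hs.c2 hφ2 hs.bd hw' (Finset.ne_of_mem_erase hi)]
    ring
  have ge : ∀ w ∈ CN4_K Ω ρ o, mb ≤ ∑ i ∈ Finset.univ.erase o, lam i * CN4_y Ω u o w i := by
    intro w hw'
    have a1 := garding (k := k - 1) (by omega) (gm z hz) (gm w hw') (zmin hw')
    have a2 := sum_mul_es_erase (Finset.univ.erase o) (k - 2) (CN4_y Ω u o z)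
    have k1 : k - 2 + 1 = k - 1 := by omega
    have k2 : k - 1 - 1 = k - 2 := by omega
    have k3 : ((k - 2 : ℕ) + 1 : ℝ) = (k - 1 : ℕ) := by rw [← k1]; push_cast; ring
    rw [k1, k3] at a2
    rw [k2, ← a2] at a1
    rw [hmb, ls, ls]
    refine div_le_div_of_nonneg_right ?_ T0.le
    rw [hf]
    refine le_trans (le_of_eq (Finset.sum_congr rfl (fun i _ => mul_comm _ _))) a1
  have hφ' : PhiB Ω φ (max C₀ (C1 * W * W)) := by
    refine ⟨hφ.1, fun y hy => ?_⟩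
    obtain ⟨a1, a2, a3, a4, a5⟩ := hφ.2 y hy
    exact ⟨le_max_of_le_left a1, le_max_of_le_left a2, le_max_of_le_left a3,
      le_max_of_le_left a4, le_max_of_le_left a5⟩
  obtain ⟨l, l3, H7⟩ := H3 φ hφ' haT z.1 hz.1 o z.2 lam mb hz.2.1 hz.2.2 l1 l2
  have nn := H4 ψ φ u hψ hφ hs hM hw z.1 hz.1 l l3 (by
    intro y hy hyr
    obtain ⟨q1, q2⟩ := H7 y hy hyr
    have q3 := orthonormal_rot hz.2.1 o (h.norm_nin hy) q1
    have hw' : (y, fun a => if a = o then nin ρ y else z.2 a -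
        (⟪nin ρ y, z.2 a⟫ / (1 + ⟪z.2 o, nin ρ y⟫)) • (z.2 o + nin ρ y)) ∈ CN4_K Ω ρ o :=
      ⟨hy, q3, if_pos rfl⟩
    have r1 := low _ hw'
    have r2 := dec _ hw'
    have r3 := ge _ hw'
    rw [r2] at r3
    have s1 : ∀ g : E n → ℝ, ∑ i ∈ Finset.univ.erase o, lam i * g (gam (aT ρ φ y)
        (if i = o then nin ρ y else z.2 i -
          (⟪nin ρ y, z.2 i⟫ / (1 + ⟪z.2 o, nin ρ y⟫)) • (z.2 o + nin ρ y))) =
        ∑ i ∈ Finset.univ.erase o, lam i * g (gam (aT ρ φ y) (z.2 i -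
          (⟪nin ρ y, z.2 i⟫ / (1 + ⟪z.2 o, nin ρ y⟫)) • (z.2 o + nin ρ y))) :=
      fun g => Finset.sum_congr rfl (fun i hi => by rw [if_neg (Finset.ne_of_mem_erase hi)])
    dsimp only at r1 r3
    rw [s1 (fun v => Bf ρ y v v)] at r1 r3
    rw [s1 (fun v => d2 φ y v v)] at r3
    have r4 := low z hz
    have r5 := q2 _ (fun _ => rfl) r1 r4
    have r6 := dec z hz
    rw [← hmb] at r6
    have p1 := ε0.trans_le r1
    have p2 := ε0.trans_le r4
    refine le_trans ((le_div_iff₀ p1).2 (by linarith)) (r5.trans (le_of_eq ?_))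
    congr 2
    rw [div_eq_iff p2.ne']
    linarith)
  have zc := h.frontier_sub hz.1
  have lo := H5 _ _ o z.2 (hs.adm _ zc) (h.sym_D2 hs.c2 zc) (hw _ zc) (hSS _ zc).1 hz.2.1 (by
    intro τ hτ
    rw [hz.2.2] at hτ ⊢
    obtain ⟨a1, a2⟩ := mx _ hz.1 τ hτ
    refine ⟨a1.trans (mul_le_mul_of_nonneg_right (le_max_left _ _) (norm_nonneg _)),
      fun τ' hτ' => (a2 τ' hτ').trans ?_⟩
    gcongr
    exact le_max_left _ _) (by rw [hz.2.2]; exact le_max_of_le_right nn)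
  have xc := h.frontier_sub hx
  have fin := H6 _ _ (nin ρ x) o (hs.adm _ xc) (h.sym_D2 hs.c2 xc) (hw _ xc) (hSS _ xc).2
    (h.norm_nin hx) (mx x hx) (by
      intro ê a1 a2
      have a3 : (x, ê) ∈ CN4_K Ω ρ o := ⟨hx, a1, a2⟩
      refine lo.trans (le_trans (zmin a3) (le_of_eq ?_))
      rw [← a2]
      rfl)
  refine norm_le_of_parts (h.sym_D2 hs.c2 xc) (h.norm_nin hx) ?_ ?_ (le_max_of_le_right fin)
  · intro v w hv hw' v1 w1
    refine le_max_of_le_left (((mx x hx v hv).2 w hw').trans ?_)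
    calc C1 * ‖v‖ * ‖w‖ ≤ C1 * 1 * 1 := by gcongr
      _ = C1 := by ring
  · intro v hv v1
    refine le_max_of_le_left ((mx x hx v hv).1.trans ?_)
    calc C1 * ‖v‖ ≤ C1 * 1 := by gcongr
      _ = C1 := by ring

end Pool.Agent.Mink.C
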