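import Pool.Agent.Lib.MP_88c759_an.Mink.CK2
import Pool.Agent.Lib.MP_88c759_an.Mink.CN4
import Pool.Agent.Lib.MP_88c759_an.Mink.CG6

set_option maxSynthPendingDepth 3

namespace Pool.Agent.Mink.C

open scoped ContDiff Topology RealInnerProductSpace
open Set Filter

variable {n : ℕ}

variable {Ω : Set (E n)} {ρ : E n → ℝ}

/-- global a priori estimate -/
theorem apriori0 (h : Dom Ω ρ) (k : ℕ) (hk : 2 ≤ k) (hkn : k + 1 ≤ n) (h2 : n < 2 * k) {c₁ : ℝ}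
    (hc₁ : 0 < c₁) (hR : Rk k Ω ρ c₁) (M c₀ C₀ θ : ℝ) (hc : 0 < c₀) (h0 : 0 < θ) (h1 : θ < 1) :
    ∃ W L : ℝ, 1 ≤ W ∧ ∀ (ψ : B1 n × ℝ × E n → ℝ) (φ ub u : E n → ℝ), PsiB Ω ψ M c₀ C₀ → PhiB Ω φ C₀ →
      ContDiffOn ℝ 2 ub (closure Ω) → (∀ x ∈ closure Ω, ‖D1 (closure Ω) ub x‖ ≤ 1 - θ) →
      (∀ x ∈ frontier Ω, ub x = φ x) → (∀ x ∈ closure Ω, ub x ≤ u x) →
      SolO k Ω ψ φ u → (∀ x ∈ closure Ω, |u x| ≤ M) →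
      ∀ x ∈ closure Ω, Wp (D1 (closure Ω) u x) ≤ W ∧ ‖D2 (closure Ω) u x‖ ≤ L := by
  obtain ⟨θ₁, hθ0, hθ1, hgb⟩ := grad_bdry h θ C₀ h0 h1
  obtain ⟨W, hW, hgi⟩ := grad_int h k hk M c₀ C₀ (Real.sqrt θ₁)⁻¹ hc
  obtain ⟨L₀, hcb⟩ := c2_bdry h k hk (by omega) hc₁ hR W M c₀ C₀ hc
  obtain ⟨L, hci⟩ := c2_int h k hk hkn h2 W M c₀ C₀ L₀ hc
  refine ⟨W, L, hW, fun ψ φ ub u hψ hφ hub hub1 hubb hle hu hM x hx => ?_⟩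
  have hadm : ∀ x ∈ Ω, Adm 1 (d1 u x) (d2 u x) := fun x hx => by
    have h3 := hu.adm x (subset_closure hx)
    rw [h.D1_eq u hx, h.D2_eq u hx] at h3
    exact ⟨h3.1, fun j hj1 hj2 => h3.2 j hj1 (by omega)⟩
  have hb := hgb φ ub u hφ hub hub1 hubb hu.c2 hadm hu.bd hle
  have hW' := hgi ψ φ u hψ hu hM fun y hy => Wp_le_of_norm_le hθ0 hθ1 (hb y hy)
  exact ⟨hW' x hx, hci ψ φ u hψ hu hM hW' (hcb ψ φ u hψ hφ hu hM hW') x hx⟩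

end Pool.Agent.Mink.C
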