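import Pool.Agent.Lib.MP_88c759_an.Mink.CE2

set_option maxSynthPendingDepth 3

namespace Pool.Agent.Mink.C

open scoped ContDiff Topology RealInnerProductSpace
open Set Filter

variable {ι : Type} [DecidableEq ι]

theorem Gam.mono {s : Finset ι} {k l : ℕ} {x : ι → ℝ} (h : Gam s k x) (hl : l ≤ k) : Gam s l x :=
  fun j h1 h2 => h j h1 (h2.trans hl)

theorem Gam.pos {s : Finset ι} {k j : ℕ} {x : ι → ℝ} (h : Gam s k x) (hj : j ≤ k) :
    0 < es s j x := by
  rcases Nat.eq_zero_or_pos j with rfl | h0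
  · rw [es_zero]
    exact one_pos
  · exact h j h0 hj

theorem Gam.le_card {s : Finset ι} {k : ℕ} {x : ι → ℝ} (h : Gam s k x) : k ≤ s.card :=
  not_lt.1 fun hk => (h.pos le_rfl).ne' (es_of_card_lt hk x)

theorem Gam.congr {s : Finset ι} {k : ℕ} {x y : ι → ℝ} (h : Gam s k x)
    (hxy : ∀ i ∈ s, x i = y i) : Gam s k y :=
  fun j h1 h2 => es_congr j hxy ▸ h j h1 h2

theorem Gam.erase {s : Finset ι} {k : ℕ} {x : ι → ℝ} (h : Gam s k x) {i : ι} (hi : i ∈ s) :
    Gam (s.erase i) (k - 1) x := by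
  have key : ∀ j, j + 1 ≤ k → 0 < es (s.erase i) j x := fun j => by
    induction j with
    | zero => exact fun _ => by rw [es_zero]; exact one_pos
    | succ j ih =>
      intro hj
      have ha := ih (by omega)
      have h1 := h.pos (j := j + 1) (by omega)
      have h2 := h.pos hj
      rw [es_erase hi] at h1 h2
      have h3 := newton (s.erase i) j x
      refine not_le.1 fun hb => ?_
      nlinarith [mul_pos ha h2, mul_nonneg h1.le (neg_nonneg.2 hb)]
  exact fun j h1 h2 => key j (by omega)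

theorem Gam.smul {s : Finset ι} {k : ℕ} {x : ι → ℝ} (h : Gam s k x) {c : ℝ} (hc : 0 < c) :
    Gam s k (fun i => c * x i) := fun j h1 h2 => by
  rw [es_smul]
  exact mul_pos (pow_pos hc j) (h j h1 h2)

theorem gam_of_pos {s : Finset ι} {k : ℕ} (hk : k ≤ s.card) {x : ι → ℝ} (h : ∀ i ∈ s, 0 < x i) :
    Gam s k x :=
  fun _ _ h2 => es_pos (h2.trans hk) h

theorem CE3_step {s : Finset ι} {k : ℕ} {x y : ι → ℝ} (h : Gam s k x) {a : ι}
    (h1 : a ∈ s → x a ≤ y a) (h2 : ∀ i, i ≠ a → x i = y i) : ∀ j ≤ k, es s j x ≤ es s j y := by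
  intro j hj
  by_cases ha : a ∈ s
  · cases j with
    | zero => rw [es_zero, es_zero]
    | succ j =>
      have h3 : ∀ l, es (s.erase a) l y = es (s.erase a) l x := fun l =>
        es_congr l fun i hi => (h2 i (Finset.ne_of_mem_erase hi)).symm
      rw [es_erase ha, es_erase ha, h3, h3]
      exact add_le_add (mul_le_mul_of_nonneg_right (h1 ha) ((h.erase ha).pos (by omega)).le) le_rfl
  · exact (es_congr j fun i hi => h2 i (ne_of_mem_of_not_mem hi ha)).le

/-- monotonicity of the cone and of `σ_j` on it -/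
theorem Gam.of_le {s : Finset ι} {k : ℕ} {x y : ι → ℝ} (h : Gam s k x) (hxy : ∀ i ∈ s, x i ≤ y i) :
    Gam s k y ∧ ∀ j ≤ k, es s j x ≤ es s j y := by
  have key : ∀ A : Finset ι, ∀ j ≤ k, es s j x ≤ es s j fun i => if i ∈ A then y i else x i := by
    intro A
    induction A using Finset.induction_on with
    | empty => simp
    | insert a A ha ih =>
      intro j hj
      refine (ih j hj).trans (CE3_step (a := a) (fun l h1 h2 => (h l h1 h2).trans_le (ih l h2))
        (fun h1 => ?_) (fun i hi => ?_) j hj)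
      · simpa [ha] using hxy a h1
      · simp [hi]
  have h2 : ∀ j ≤ k, es s j x ≤ es s j y := fun j hj =>
    (key s j hj).trans (es_congr j fun i hi => if_pos hi).le
  exact ⟨fun j h1 hj => (h j h1 hj).trans_le (h2 j hj), h2⟩

theorem Gam.eventually {s : Finset ι} {k : ℕ} {x : ℝ → ι → ℝ} (h : Gam s k (x 0))
    (hx : ∀ i ∈ s, ContinuousAt (fun t => x t i) 0) : ∀ᶠ t in 𝓝 (0:ℝ), Gam s k (x t) := by
  have key : ∀ j ∈ Finset.range (k + 1), ∀ᶠ t in 𝓝 (0:ℝ), 0 < es s j (x t) := fun j hj => by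
    refine Tendsto.eventually_const_lt (h.pos (Nat.lt_succ_iff.1 (Finset.mem_range.1 hj))) ?_
    exact tendsto_finsetSum _ fun T hT => tendsto_finsetProd _ fun i hi =>
      hx i ((Finset.mem_powersetCard.1 hT).1 hi)
  exact ((eventually_all_finset _).2 key).mono fun t ht j _ hj =>
    ht j (Finset.mem_range.2 (Nat.lt_succ_of_le hj))

/-- `σ_{j+1} / σ_j` is at most its value at the constant vector `Λ` -/
theorem Gam.succ_le {s : Finset ι} {j : ℕ} {x : ι → ℝ} (h : Gam s j x) {Λ : ℝ} (hΛ : 0 ≤ Λ)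
    (hx : ∀ i ∈ s, x i ≤ Λ) :
    (j + 1 : ℝ) * es s (j + 1) x ≤ ((s.card : ℝ) - j) * Λ * es s j x := by
  rcases le_or_gt (es s (j + 1) x) 0 with h0 | h0
  · have h1 : (0 : ℝ) ≤ s.card - j := sub_nonneg.2 (by exact_mod_cast h.le_card)
    exact (mul_nonpos_of_nonneg_of_nonpos (by positivity) h0).trans
      (mul_nonneg (mul_nonneg h1 hΛ) (h.pos le_rfl).le)
  · have h1 : Gam s (j + 1) x := fun l h1 h2 => by
      rcases h2.eq_or_lt with rfl | h3
      exacts [h0, h l h1 (Nat.lt_succ_iff.1 h3)]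
    rw [← sum_mul_es_erase, mul_right_comm, ← sum_es_erase, Finset.sum_mul]
    refine Finset.sum_le_sum fun i hi => ?_
    rw [mul_comm]
    exact mul_le_mul_of_nonneg_left (hx i hi) ((h1.erase hi).pos le_rfl).le

theorem Gam.max_pos {s : Finset ι} {k : ℕ} (hk : 1 ≤ k) {x : ι → ℝ} (h : Gam s k x) {Λ : ℝ}
    (hx : ∀ i ∈ s, x i ≤ Λ) : 0 < Λ := by
  have h1 := h.pos hk
  rw [es_one] at h1
  exact not_le.1 fun h2 => h1.not_ge (Finset.sum_nonpos fun i hi => (hx i hi).trans h2)

theorem CE3_erase_le {s : Finset ι} {j : ℕ} {x : ι → ℝ} (h : Gam s (j + 1) x) {Λ : ℝ}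
    (hx : ∀ i ∈ s, x i ≤ Λ) {i : ι} (hi : i ∈ s) :
    (j + 1 : ℝ) * es (s.erase i) (j + 1) x ≤
      ((s.card : ℝ) - (j + 1)) * Λ * es (s.erase i) j x := by
  have h1 := (h.erase hi).succ_le (h.max_pos (by omega) hx).le
    fun l hl => hx l (Finset.mem_of_mem_erase hl)
  rw [← Finset.card_erase_add_one hi, Nat.cast_succ, add_sub_add_right_eq_sub]
  exact h1

theorem Gam.lower {s : Finset ι} {k : ℕ} (hk : 1 ≤ k) {x : ι → ℝ} (h : Gam s k x) {Λ : ℝ}
    (hx : ∀ i ∈ s, x i ≤ Λ) {i : ι} (hi : i ∈ s) :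
    -(((s.card : ℝ) - k) * Λ) ≤ k * x i := by
  obtain ⟨j, rfl⟩ := Nat.exists_eq_add_of_le' hk
  have h1 := CE3_erase_le h hx hi
  have h2 := mul_pos (show (0 : ℝ) < j + 1 by positivity) (h.pos le_rfl)
  rw [es_erase hi] at h2
  have h3 : 0 < es (s.erase i) j x := (h.erase hi).pos le_rfl
  rw [Nat.cast_succ]
  refine le_of_mul_le_mul_right ?_ h3
  linarith

theorem Gam.part_lower {s : Finset ι} {k : ℕ} (hk : 1 ≤ k) {x : ι → ℝ} (h : Gam s k x) {Λ : ℝ}
    (hx : ∀ i ∈ s, x i ≤ Λ) {i : ι} (hi : i ∈ s) :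
    (k : ℝ) * es s k x ≤ (s.card : ℝ) * Λ * es (s.erase i) (k - 1) x := by
  obtain ⟨j, rfl⟩ := Nat.exists_eq_add_of_le' hk
  have h1 := CE3_erase_le h hx hi
  have h3 : 0 < es (s.erase i) j x := (h.erase hi).pos le_rfl
  have h4 := mul_le_mul_of_nonneg_left (mul_le_mul_of_nonneg_right (hx i hi) h3.le)
    (show (0 : ℝ) ≤ j + 1 by positivity)
  rw [Nat.cast_succ, es_erase hi, Nat.add_sub_cancel]
  linarith

/-- lower bounds for all `σ_j` from a lower bound for `σ_k` and an upper bound for `x` -/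
theorem gam_lower_all (m k : ℕ) (c L : ℝ) (hc : 0 < c) : ∃ c' : ℝ, 0 < c' ∧
    ∀ (s : Finset ι) (x : ι → ℝ), s.card ≤ m → Gam s k x → c ≤ es s k x → (∀ i ∈ s, x i ≤ L) →
      ∀ j ≤ k, c' ≤ es s j x := by
  obtain ⟨R, hR⟩ : ∃ R : ℝ, R = (m + 1) * max L 1 := ⟨_, rfl⟩
  have hL : 1 ≤ max L 1 := le_max_right _ _
  have hR1 : 1 ≤ R := hR ▸ one_le_mul_of_one_le_of_one_le (by simp) hL
  refine ⟨c / R ^ k, by positivity, fun s x hs h hk hx j hj => ?_⟩
  have key : ∀ d, j + d ≤ k → es s (j + d) x ≤ R ^ d * es s j x := fun d => by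
    induction d with
    | zero => simp
    | succ d ih =>
      intro hd
      have h1 := (h.mono (l := j + d) (by omega)).succ_le (zero_le_one.trans hL)
        fun i hi => (hx i hi).trans (le_max_left L 1)
      have h2 := h.pos hd
      have h3 := h.pos (j := j + d) (by omega)
      have h4 : (s.card : ℝ) - (j + d : ℕ) ≤ m + 1 := by
        have : (s.card : ℝ) ≤ m := by exact_mod_cast hs
        linarith [Nat.cast_nonneg (α := ℝ) (j + d)]
      calc es s (j + (d + 1)) x ≤ ((j + d : ℕ) + 1 : ℝ) * es s (j + (d + 1)) x :=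
            le_mul_of_one_le_left h2.le (by simp; positivity)
        _ ≤ _ := h1
        _ ≤ R * (R ^ d * es s j x) := by
            have := ih (by omega)
            rw [hR] at *
            gcongr
        _ = _ := by ring
  obtain ⟨d, rfl⟩ := Nat.exists_eq_add_of_le hj
  rw [div_le_iff₀' (by positivity)]
  exact hk.trans ((key d le_rfl).trans (mul_le_mul_of_nonneg_right
    (pow_le_pow_right₀ hR1 (by omega)) (h.pos hj).le))

/-- an upper bound for `σ_{k-1}` and a lower bound for `σ_k` bound the entries -/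
theorem gam_bound_entries (m k : ℕ) (hk : 2 ≤ k) (c L : ℝ) (hc : 0 < c) : ∃ L' : ℝ, 0 < L' ∧
    ∀ (s : Finset ι) (x : ι → ℝ), s.card ≤ m → Gam s k x → c ≤ es s k x → es s (k - 1) x ≤ L →
      ∀ i ∈ s, x i ≤ L' := by
  obtain ⟨l, rfl⟩ := Nat.exists_eq_add_of_le' hk
  have hL : 0 < max L 1 := one_pos.trans_le (le_max_right _ _)
  obtain ⟨q, hq⟩ : ∃ q : ℝ, q = c / max L 1 := ⟨_, rfl⟩
  have hq0 : 0 < q := hq ▸ div_pos hc hL
  refine ⟨max L 1 / q ^ l, by positivity, fun s x _ h h1 h2 i hi => ?_⟩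
  have h3 : es s (l + 1) x ≤ max L 1 := h2.trans (le_max_left _ _)
  have k1 : ∀ d j, j + d = l + 1 → q * es s j x ≤ es s (j + 1) x := fun d => by
    induction d with
    | zero =>
      rintro j (rfl : j = l + 1)
      refine (mul_le_mul_of_nonneg_left h3 hq0.le).trans (le_trans (le_of_eq ?_) h1)
      rw [hq, div_mul_cancel₀ _ hL.ne']
    | succ d ih =>
      intro j hj
      have h4 := mul_le_mul_of_nonneg_left (ih (j + 1) (by omega)) (h.pos (j := j) (by omega)).le
      refine le_of_mul_le_mul_right ?_ (h.pos (j := j + 1) (by omega))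
      linarith [newton s j x]
  have k2 : ∀ d, d ≤ l → q ^ d * es s 1 x ≤ es s (d + 1) x := fun d => by
    induction d with
    | zero => simp
    | succ d ih =>
      intro hd
      rw [pow_succ', mul_assoc]
      exact (mul_le_mul_of_nonneg_left (ih (by omega)) hq0.le).trans (k1 (l - d) _ (by omega))
  have k3 : x i ≤ es s 1 x := by
    rw [es_erase hi 0, es_zero, mul_one]
    exact le_add_of_nonneg_right ((h.erase hi).pos (by omega)).le
  rw [le_div_iff₀' (by positivity)]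
  exact (mul_le_mul_of_nonneg_left k3 (by positivity)).trans ((k2 l le_rfl).trans h3)

/-- a vector with `k` entries `≥ c` and all entries `≥ -δ` lies in the cone -/
theorem gam_of_many (m k : ℕ) (c : ℝ) (hc : 0 < c) : ∃ δ : ℝ, 0 < δ ∧
    ∀ (s T : Finset ι) (x : ι → ℝ), s.card ≤ m → T ⊆ s → T.card = k → (∀ i ∈ T, c ≤ x i) →
      (∀ i ∈ s, -δ ≤ x i) → Gam s k x := by
  obtain ⟨δ, hδ⟩ : ∃ δ : ℝ, δ = c / (2 ^ m + 1) := ⟨_, rfl⟩
  have h0 : 0 < δ := by rw [hδ]; positivity
  have h1 : 2 ^ m * δ + δ = c := by rw [hδ]; field_simp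
  have h2 : δ ≤ c := h1 ▸ le_add_of_nonneg_left (by positivity)
  refine ⟨δ, h0, fun s T x hs hT hk hx hx' => (Gam.of_le
    (x := fun i => if i ∈ T then c else -δ) (fun j hj hj' => ?_) fun i hi => ?_).1⟩
  · obtain ⟨j, rfl⟩ := Nat.exists_eq_add_of_le' hj
    have k1 : ∀ U ⊆ T, U.card = j + 1 → ∏ i ∈ U, (if i ∈ T then c else -δ) = c ^ (j + 1) :=
      fun U hU hc => by rw [Finset.prod_congr rfl fun i hi => if_pos (hU hi), Finset.prod_const, hc]
    have k2 : ∀ U ∈ s.powersetCard (j + 1),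
        0 ≤ ∏ i ∈ U, (if i ∈ T then c else -δ) + δ * c ^ j := fun U hU => by
      have h3 := (Finset.mem_powersetCard.1 hU).2
      by_cases h4 : U ⊆ T
      · rw [k1 U h4 h3]
        positivity
      · obtain ⟨a, ha, ha'⟩ := Finset.not_subset.1 h4
        have h5 : ∏ i ∈ U.erase a, (if i ∈ T then c else -δ) ≤ c ^ j := by
          refine (le_abs_self _).trans ?_
          rw [Finset.abs_prod]
          refine (Finset.prod_le_prod (g := fun _ => c) (fun _ _ => abs_nonneg _)
            fun i _ => ?_).trans (le_of_eq ?_)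
          · split_ifs
            · exact (abs_of_pos hc).le
            · rwa [abs_neg, abs_of_pos h0]
          · rw [Finset.prod_const, Finset.card_erase_of_mem ha, h3, Nat.add_sub_cancel]
        rw [← Finset.mul_prod_erase U _ ha, if_neg ha']
        linarith [mul_le_mul_of_nonneg_left h5 h0.le]
    obtain ⟨U, hU, hU'⟩ := Finset.exists_subset_card_eq (hk ▸ hj' : j + 1 ≤ T.card)
    have k3 := Finset.single_le_sum k2 (Finset.mem_powersetCard.2 ⟨hU.trans hT, hU'⟩)
    rw [k1 U hU hU', Finset.sum_add_distrib, Finset.sum_const, Finset.card_powersetCard,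
      nsmul_eq_mul] at k3
    have k4 : (s.card.choose (j + 1) : ℝ) ≤ 2 ^ m := by
      exact_mod_cast (Nat.choose_le_two_pow _ _).trans (Nat.pow_le_pow_right two_pos hs)
    have k5 : 0 < δ * c ^ j := by positivity
    have k6 := mul_le_mul_of_nonneg_right k4 k5.le
    have k7 : c ^ (j + 1) = 2 ^ m * (δ * c ^ j) + δ * c ^ j := by
      rw [← mul_assoc, ← add_mul, h1, pow_succ']
    unfold es
    linarith
  · split_ifs with h3
    exacts [hx i h3, hx' i hi]

end Pool.Agent.Mink.C
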