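import Pool.Agent.Lib.MP_88c759_an.Mink.CDef

/-!
Interface between the transfer part (T), the algebra part and the geometric a priori estimate.
-/

set_option maxSynthPendingDepth 3

namespace Pool.Agent.Mink

open scoped ContDiff
open Set

variable {n : ℕ}

/-- A convex `(k-1)`-admissible bounded domain with a global smooth defining function. -/
structure Dom (k : ℕ) (Ω : Set (E n)) (ρ : E n → ℝ) : Prop where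
  smooth : ContDiff ℝ ∞ ρ
  mem : ∀ x, x ∈ Ω ↔ ρ x < 0
  cl : ∀ x, x ∈ closure Ω ↔ ρ x ≤ 0
  fr : ∀ x, x ∈ frontier Ω ↔ ρ x = 0
  grad : ∀ x, ρ x = 0 → fderiv ℝ ρ x ≠ 0
  conv : Convex ℝ Ω
  ne : Ω.Nonempty
  bdd : Bornology.IsBounded Ω
  supp : ∀ x, ρ x = 0 → ∀ y ∈ closure Ω, fderiv ℝ ρ x (y - x) ≤ 0
  psd : ∀ x, ρ x = 0 → ∀ v, fderiv ℝ ρ x v = 0 → 0 ≤ fderiv ℝ (fderiv ℝ ρ) x v v
  adm : ∀ x, ρ x = 0 → ∃ (e : Fin (n - 1) → E n) (κ : Fin (n - 1) → ℝ), Orthonormal ℝ e ∧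
    (∀ i, fderiv ℝ ρ x (e i) = 0) ∧
    (∀ i j, fderiv ℝ (fderiv ℝ ρ) x (e i) (e j) =
      if i = j then κ i * ‖fderiv ℝ ρ x‖ else 0) ∧ C.Gam Finset.univ (k - 1) κ

/-- The arguments `(p, z, x)` of the right hand side: `|p| ≤ 1`, `|z| ≤ R`, `x ∈ closure Ω`. -/
def W (Ω : Set (E n)) (R : ℝ) : Set (B1 n × ℝ × E n) :=
  {q | ‖q.1‖ ≤ 1 ∧ |q.2.1| ≤ R ∧ q.2.2 ∈ closure Ω}

/-- Hypotheses of the a priori estimate, with uniform constants `R`, `M`, `δ`.  The right hand side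
`ψ` takes the tail `(p, z, x)` of a jet `(r, p, z, x)`. -/
structure Apr (k : ℕ) (Ω : Set (E n)) (R M δ : ℝ) (ψ : B1 n × ℝ × E n → ℝ)
    (φ ub u : E n → ℝ) : Prop where
  psi_c : ∀ q ∈ W Ω R, ContDiffAt ℝ 2 ψ q
  psi_b : ∀ q ∈ W Ω R, δ ≤ ψ q ∧ ψ q ≤ M ∧ ‖fderiv ℝ ψ q‖ ≤ M ∧ ‖fderiv ℝ (fderiv ℝ ψ) q‖ ≤ M
  psi_m : ∀ q ∈ W Ω R, 0 ≤ fderiv ℝ ψ q (0, 1, 0)
  phi_c : ContDiff ℝ 4 φ
  phi_b : ∀ i ≤ 4, ∀ x ∈ closure Ω, ‖iteratedFDeriv ℝ i φ x‖ ≤ M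
  ub_c : ContDiffOn ℝ 2 ub (closure Ω)
  ub_b : ∀ x ∈ closure Ω, |ub x| ≤ R ∧ ‖D1 (closure Ω) ub x‖ ≤ 1 - δ ∧
    ‖D2 (closure Ω) ub x‖ ≤ M
  ub_adm : ∀ x ∈ closure Ω, C.Adm k (D1 (closure Ω) ub x) (D2 (closure Ω) ub x)
  ub_sub : ∀ x ∈ closure Ω, ψ (D1 (closure Ω) ub x, ub x, x) ≤
    C.SS k (D1 (closure Ω) ub x) (D2 (closure Ω) ub x)
  ub_bd : ∀ x ∈ frontier Ω, ub x = φ x
  u_c2 : ContDiffOn ℝ 2 u (closure Ω)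
  u_c4 : ContDiffOn ℝ 4 u Ω
  u_b : ∀ x ∈ closure Ω, |u x| ≤ R ∧ ub x ≤ u x
  u_adm : ∀ x ∈ closure Ω, C.Adm k (D1 (closure Ω) u x) (D2 (closure Ω) u x)
  u_eq : ∀ x ∈ closure Ω, C.SS k (D1 (closure Ω) u x) (D2 (closure Ω) u x) =
    ψ (D1 (closure Ω) u x, u x, x)
  u_bd : ∀ x ∈ frontier Ω, u x = φ x

end Pool.Agent.Mink
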