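import Pool.Agent.Lib.MP_88c759_an.Mink.CG3
import Pool.Agent.Lib.MP_88c759_an.Mink.CE3
import Pool.Agent.Lib.MP_88c759_an.Mink.Iface

set_option maxSynthPendingDepth 3

namespace Pool.Agent.Mink.C

open scoped ContDiff Topology RealInnerProductSpace
open Set Filter

variable {n : ℕ} {Ω : Set (E n)} {ρ : E n → ℝ}

theorem dom_of_iface {k : ℕ} (h : Pool.Agent.Mink.Dom k Ω ρ) : C.Dom Ω ρ :=
  ⟨h.smooth, Set.ext h.mem, fun x hx => h.grad x ((h.fr x).1 hx), h.bdd, h.ne, h.conv⟩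

/-- the pointwise statement -/
def CR1_P (k : ℕ) (ρ : E n → ℝ) (c : ℝ) (x : E n) : Prop :=
  ∃ T : Submodule ℝ (E n), Module.finrank ℝ T = k - 1 ∧
    ∀ v ∈ T, ⟪nin ρ x, v⟫ = 0 ∧ c * ‖v‖ ^ 2 ≤ Bf ρ x v v

theorem CR1_mono {k : ℕ} {c c' : ℝ} (hc : c' ≤ c) {x : E n} (h : CR1_P k ρ c x) :
    CR1_P k ρ c' x := by
  obtain ⟨T, h1, h2⟩ := h
  exact ⟨T, h1, fun v hv => ⟨(h2 v hv).1,
    (mul_le_mul_of_nonneg_right hc (sq_nonneg _)).trans (h2 v hv).2⟩⟩

theorem CR1_point {k : ℕ} (h : Pool.Agent.Mink.Dom k Ω ρ) {x : E n} (hx : x ∈ frontier Ω) :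
    ∃ c : ℝ, 0 < c ∧ CR1_P k ρ c x := by
  classical
  have h0 := (h.fr x).1 hx
  have hD := dom_of_iface h
  obtain ⟨e, κ, he, ht, hd, hg⟩ := h.adm x h0
  have hn : 0 < ‖fderiv ℝ ρ x‖ := norm_pos_iff.2 (h.grad x h0)
  have hκ : ∀ i, 0 ≤ κ i := fun i => by
    have h1 := h.psd x h0 (e i) (ht i)
    rw [hd, if_pos rfl] at h1
    exact nonneg_of_mul_nonneg_left h1 hn
  obtain ⟨T, hT, hp⟩ := Finset.exists_ne_zero_of_sum_ne_zero (hg.pos le_rfl).ne'
  have hcard : T.card = k - 1 := (Finset.mem_powersetCard.1 hT).2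
  have hpos : ∀ i ∈ T, 0 < κ i := fun i hi =>
    (hκ i).lt_of_ne' (Finset.prod_ne_zero_iff.1 hp i hi)
  obtain ⟨c, hc, hcT⟩ : ∃ c : ℝ, 0 < c ∧ ∀ i ∈ T, c ≤ κ i := by
    rcases T.eq_empty_or_nonempty with rfl | hne
    · exact ⟨1, one_pos, by simp⟩
    · obtain ⟨i, hi, hm⟩ := T.exists_min_image κ hne
      exact ⟨κ i, hpos i hi, hm⟩
  have he' : Orthonormal ℝ fun i : T => e i := he.comp _ Subtype.val_injective
  refine ⟨c, hc, Submodule.span ℝ (Set.range fun i : T => e i), ?_, fun v hv => ?_⟩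
  · rw [finrank_span_eq_card he'.linearIndependent, Fintype.card_coe, hcard]
  · obtain ⟨a, rfl⟩ := (Submodule.mem_span_range_iff_exists_fun ℝ).1 hv
    constructor
    · have h1 := hD.d1_rho hx (∑ i : T, a i • e i)
      have h2 : d1 ρ x (∑ i : T, a i • e i) = 0 := by
        simp only [d1, map_sum, map_smul, ht, smul_zero, Finset.sum_const_zero]
      rw [h2] at h1
      exact (mul_eq_zero.1 (neg_eq_zero.1 h1.symm)).resolve_left hn.ne'
    · have h1 : ‖∑ i : T, a i • e i‖ ^ 2 = ∑ i : T, a i * a i := by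
        rw [← real_inner_self_eq_norm_sq]
        simpa using he'.inner_sum a a Finset.univ
      have h2 : d2 ρ x (∑ i : T, a i • e i) (∑ i : T, a i • e i) =
          (∑ i : T, κ i * (a i * a i)) * ‖fderiv ℝ ρ x‖ := by
        have h3 : ∀ i j : T, d2 ρ x (e i) (e j) = if i = j then κ i * ‖fderiv ℝ ρ x‖ else 0 :=
          fun i j => (hd i j).trans (by simp only [Subtype.val_inj])
        simp only [map_sum, map_smul, _root_.sum_apply,
          _root_.smul_apply, h3, smul_eq_mul, mul_ite, mul_zero,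
          Finset.sum_ite_eq', Finset.mem_univ, if_true, Finset.sum_mul]
        exact Finset.sum_congr rfl fun i _ => by ring
      rw [Bf, h2, h1, d1, mul_div_assoc, div_self hn.ne', mul_one, Finset.mul_sum]
      exact Finset.sum_le_sum fun i _ =>
        mul_le_mul_of_nonneg_right (hcT i i.2) (mul_self_nonneg _)

theorem CR1_near {k : ℕ} (h : C.Dom Ω ρ) {x : E n} (hx : x ∈ frontier Ω) {c : ℝ} (hc : 0 < c)
    (hP : CR1_P k ρ c x) : ∀ᶠ y in 𝓝[frontier Ω] x, CR1_P k ρ (c / 2) y := by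
  obtain ⟨T, hT, hv⟩ := hP
  obtain ⟨B, hB⟩ : ∃ B : E n → B2 n, B = fun y => ‖d1 ρ y‖⁻¹ • d2 ρ y := ⟨_, rfl⟩
  have hBf : ∀ y v w, Bf ρ y v w = B y v w := fun y v w => by
    simp only [hB, Bf, _root_.smul_apply, smul_eq_mul]
    rw [div_eq_inv_mul]
  have hc1 : ContDiff ℝ 1 (d1 ρ) := (contDiff_infty.1 h.smooth 2).fderiv_right (m := 1) (by norm_num [one_add_one_eq_two])
  have hc2 : Continuous (d2 ρ) := hc1.continuous_fderiv one_ne_zero
  have hBc : ContinuousAt B x := by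
    rw [hB]
    exact (hc1.continuous.norm.continuousAt.inv₀ (norm_ne_zero_iff.2 (h.reg x hx))).smul
      hc2.continuousAt
  have h1 : ContinuousWithinAt (fun y => ‖B y - B x‖ + 2 * ‖B x‖ * ‖nin ρ y - nin ρ x‖)
      (frontier Ω) x :=
    ((hBc.continuousWithinAt.sub continuousWithinAt_const).norm).add
      (continuousWithinAt_const.mul ((h.contOn_nin x hx).sub continuousWithinAt_const).norm)
  have h2 : ∀ᶠ y in 𝓝[frontier Ω] x, ‖B y - B x‖ + 2 * ‖B x‖ * ‖nin ρ y - nin ρ x‖ < c / 2 :=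
    h1.eventually_lt_const (by simpa using hc)
  filter_upwards [h2, self_mem_nhdsWithin] with y hy hyf
  have hny := h.norm_nin hyf
  obtain ⟨L, hL⟩ : ∃ L : E n →ₗ[ℝ] E n, ∀ v, L v = v - ⟪nin ρ y, v⟫ • nin ρ y :=
    ⟨LinearMap.id - (innerₛₗ ℝ (nin ρ y)).smulRight (nin ρ y), fun v => by simp⟩
  have hL0 : ∀ v, ⟪nin ρ y, L v⟫ = 0 := fun v => by
    rw [hL, inner_sub_right, inner_smul_right, real_inner_self_eq_norm_sq, hny]
    ring
  have hLn : ∀ v, ‖L v‖ ≤ ‖v‖ := fun v => by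
    refine le_of_sq_le_sq ?_ (norm_nonneg _)
    rw [hL, norm_sub_sq_real, inner_smul_right, norm_smul, hny, real_inner_comm, mul_one,
      Real.norm_eq_abs, sq_abs]
    nlinarith [sq_nonneg ⟪v, nin ρ y⟫]
  have key : ∀ v ∈ T, c / 2 * ‖v‖ ^ 2 ≤ B y (L v) (L v) := fun v hvT => by
    obtain ⟨k1, k2⟩ := hv v hvT
    have k3 : ‖v - L v‖ ≤ ‖nin ρ y - nin ρ x‖ * ‖v‖ := by
      rw [hL, sub_sub_cancel, norm_smul, hny, mul_one,
        show ⟪nin ρ y, v⟫ = ⟪nin ρ y - nin ρ x, v⟫ by rw [inner_sub_left, k1, sub_zero]]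
      exact norm_inner_le_norm _ _
    have k4 : B y (L v) (L v) =
        B x v v + (B y - B x) (L v) (L v) - B x (v - L v) (L v) - B x v (v - L v) := by
      simp only [map_sub, _root_.sub_apply]
      ring
    have k5 : |(B y - B x) (L v) (L v)| ≤ ‖B y - B x‖ * ‖v‖ * ‖v‖ :=
      ((B y - B x).le_opNorm₂ _ _).trans (by gcongr <;> exact hLn v)
    have k6 : |B x (v - L v) (L v)| ≤ ‖B x‖ * (‖nin ρ y - nin ρ x‖ * ‖v‖) * ‖v‖ :=
      ((B x).le_opNorm₂ _ _).trans (by gcongr; exact hLn v)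
    have k7 : |B x v (v - L v)| ≤ ‖B x‖ * ‖v‖ * (‖nin ρ y - nin ρ x‖ * ‖v‖) :=
      ((B x).le_opNorm₂ _ _).trans (by gcongr)
    rw [hBf] at k2
    have k8 := mul_le_mul_of_nonneg_right hy.le (sq_nonneg ‖v‖)
    rw [k4]
    nlinarith [(abs_le.1 k5).1, (abs_le.1 k6).2, (abs_le.1 k7).2]
  refine ⟨LinearMap.range (L ∘ₗ T.subtype), ?_, ?_⟩
  · rw [LinearMap.finrank_range_of_inj, hT]
    refine (injective_iff_map_eq_zero _).2 fun v hv0 => ?_
    have k1 := key v v.2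
    have k2 : L v = 0 := hv0
    rw [k2, map_zero] at k1
    have k3 : ‖(v : E n)‖ ^ 2 ≤ 0 := by
      by_contra k4
      exact absurd k1 (not_le.2 (mul_pos (half_pos hc) (not_le.1 k4)))
    exact Subtype.ext (norm_eq_zero.1 (pow_eq_zero_iff two_ne_zero |>.1
      (le_antisymm k3 (sq_nonneg _))))
  · rintro _ ⟨v, rfl⟩
    refine ⟨hL0 v, ?_⟩
    rw [hBf]
    refine le_trans ?_ (key v v.2)
    exact mul_le_mul_of_nonneg_left (pow_le_pow_left₀ (norm_nonneg _) (hLn v) 2) (half_pos hc).le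

/-- a convex `(k-1)`-admissible boundary has `k-1` principal curvatures bounded below -/
theorem exists_rk {k : ℕ} (hk : 2 ≤ k) (h : Pool.Agent.Mink.Dom k Ω ρ) :
    ∃ c₁ : ℝ, 0 < c₁ ∧ Rk k Ω ρ c₁ := by
  have hD := dom_of_iface h
  have _ := hk
  refine hD.isCompact_frontier.induction_on
    (p := fun S => ∃ c₁ : ℝ, 0 < c₁ ∧ ∀ x ∈ S, CR1_P k ρ c₁ x) ⟨1, one_pos, by simp⟩ ?_ ?_ ?_
  · rintro s t hst ⟨c, hc, hP⟩
    exact ⟨c, hc, fun x hx => hP x (hst hx)⟩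
  · rintro s t ⟨c, hc, hP⟩ ⟨c', hc', hP'⟩
    exact ⟨min c c', lt_min hc hc', fun x hx => hx.elim
      (fun hx => CR1_mono (min_le_left _ _) (hP x hx))
      fun hx => CR1_mono (min_le_right _ _) (hP' x hx)⟩
  · intro x hx
    obtain ⟨c, hc, hP⟩ := CR1_point h hx
    exact ⟨_, CR1_near hD hx hc hP, c / 2, half_pos hc, fun y hy => hy⟩

theorem phiB_of_iter {φ : E n → ℝ} (hφ : ContDiff ℝ 4 φ) {M : ℝ}
    (hb : ∀ i ≤ 4, ∀ x ∈ closure Ω, ‖iteratedFDeriv ℝ i φ x‖ ≤ M) : PhiB Ω φ M := by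
  refine ⟨hφ, fun x hx => ⟨?_, ?_, ?_, ?_, ?_⟩⟩
  · have h := hb 0 (by norm_num) x hx
    rwa [norm_iteratedFDeriv_zero] at h
  · have h := hb 1 (by norm_num) x hx
    rwa [← norm_iteratedFDeriv_fderiv, norm_iteratedFDeriv_zero] at h
  · have h := hb 2 (by norm_num) x hx
    rwa [← norm_iteratedFDeriv_fderiv, ← norm_iteratedFDeriv_fderiv,
      norm_iteratedFDeriv_zero] at h
  · have h := hb 3 (by norm_num) x hx
    rwa [← norm_iteratedFDeriv_fderiv, ← norm_iteratedFDeriv_fderiv,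
      ← norm_iteratedFDeriv_fderiv, norm_iteratedFDeriv_zero] at h
  · have h := hb 4 (by norm_num) x hx
    rwa [← norm_iteratedFDeriv_fderiv, ← norm_iteratedFDeriv_fderiv,
      ← norm_iteratedFDeriv_fderiv, ← norm_iteratedFDeriv_fderiv, norm_iteratedFDeriv_zero] at h

end Pool.Agent.Mink.C
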