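import Pool.Agent.Lib.MP_88c759_an.Mink.Iface
import Pool.Agent.Lib.MP_88c759_an.Mink.CK3
import Pool.Agent.Lib.MP_88c759_an.Mink.CR1

/-! Part C (geometry): uniform gradient and second derivative estimates. -/

set_option maxSynthPendingDepth 3

namespace Pool.Agent.Mink

open scoped ContDiff
open Set

theorem apriori {n k : ℕ} (hk : 2 ≤ k) (hkn : k ≤ n - 1) (h2k : n < 2 * k)
    {Ω : Set (E n)} {ρ : E n → ℝ} (hΩ : Dom k Ω ρ) (R M δ : ℝ) (hδ : 0 < δ) :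
    ∃ C θ : ℝ, θ < 1 ∧ ∀ (ψ : B1 n × ℝ × E n → ℝ) (φ ub u : E n → ℝ), Apr k Ω R M δ ψ φ ub u →
      ∀ x ∈ closure Ω, ‖D1 (closure Ω) u x‖ ≤ θ ∧ ‖D2 (closure Ω) u x‖ ≤ C := by
  have h := C.dom_of_iface hΩ
  obtain ⟨c₁, hc₁, hR⟩ := C.exists_rk hk hΩ
  obtain ⟨W, L, hW, hap⟩ := C.apriori0 h k hk (by omega) h2k hc₁ hR R δ M (min δ (1 / 2)) hδ
    (lt_min hδ (by norm_num)) ((min_le_right _ _).trans_lt (by norm_num))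
  have hW0 : 0 < (2 * W ^ 2)⁻¹ := by positivity
  refine ⟨L, 1 - (2 * W ^ 2)⁻¹, by linarith, fun ψ φ ub u ha x hx => ?_⟩
  have hψ : C.PsiB Ω ψ R δ M := fun x hx z hz p hp =>
    ⟨ha.psi_c _ ⟨hp, hz, hx⟩, ha.psi_b _ ⟨hp, hz, hx⟩⟩
  have h3 := hap ψ φ ub u hψ (C.phiB_of_iter ha.phi_c ha.phi_b) ha.ub_c
    (fun y hy => (ha.ub_b y hy).2.1.trans (by linarith [min_le_left δ (1 / 2)])) ha.ub_bd
    (fun y hy => (ha.u_b y hy).2) ⟨ha.u_c2, ha.u_c4, ha.u_adm, ha.u_eq, ha.u_bd⟩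
    (fun y hy => (ha.u_b y hy).1) x hx
  exact ⟨(C.norm_le_of_Wp_le (ha.u_adm x hx).1 h3.1).2, h3.2⟩

end Pool.Agent.Mink
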