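import Pool.Agent.Lib.MP_88c759_an.Mink.TMain
import Pool.Agent.Lib.MP_88c759_an.Mink.SExt

/-! The main theorem for right hand sides that are only smooth up to the boundary. -/

set_option maxSynthPendingDepth 3

namespace Pool.Agent.Mink.T

open scoped ContDiff Topology
open Set Filter

variable {n k : ℕ} {Ω : Set (E n)}

theorem exists_ext {Φ Ψ : E n → E n} (h : Chart Ω Φ Ψ) {ψ : E n × ℝ × E n → ℝ}
    (hψ : ContDiffOn ℝ ∞ ψ (closure Ω ×ˢ univ ×ˢ Metric.closedBall 0 1)) :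
    ∃ χ : E n × ℝ × E n → ℝ, ContDiff ℝ ∞ χ ∧
      ∀ x ∈ closure Ω, ∀ (z : ℝ) (p : E n), ‖p‖ ≤ 1 → χ (x, z, p) = ψ (x, z, p) := by
  have h1 : ContDiff ℝ ∞ fun q : E n × ℝ × E n => ((Φ q.1, q.2) : E n × ℝ × E n) :=
    (h.sF.comp contDiff_fst).prodMk contDiff_snd
  have h2 : ContDiff ℝ ∞ fun q : E n × ℝ × E n => ((Ψ q.1, q.2) : E n × ℝ × E n) :=
    (h.sG.comp contDiff_fst).prodMk contDiff_snd
  have h3 : ContDiffOn ℝ ∞ (fun q : E n × ℝ × E n => ψ (Φ q.1, q.2))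
      (Metric.closedBall 0 1 ×ˢ univ ×ˢ Metric.closedBall 0 1) :=
    hψ.comp h1.contDiffOn fun q hq => ⟨(h.cl _).2 (by rw [h.li]; exact hq.1), hq.2⟩
  obtain ⟨F, hF, e⟩ := S.ext_two h3
  refine ⟨fun q => F (Ψ q.1, q.2), hF.comp h2, fun x hx z p hp => ?_⟩
  have h4 : F (Ψ x, z, p) = ψ (Φ (Ψ x), z, p) :=
    e (x := (Ψ x, z, p)) ⟨(h.cl x).1 hx, mem_univ _, mem_closedBall_zero_iff.2 hp⟩
  rw [h.ri] at h4
  exact h4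

theorem grad_le {u : E n → ℝ} (h : Q.Spacelike Ω u) {x : E n} (hx : x ∈ Ω) :
    ‖Q.grad Ω u x‖ ≤ 1 := by
  obtain ⟨θ, hθ, hb⟩ := h.2
  exact (hb x (subset_closure hx)).trans hθ.le

theorem isSol_congr {ψ χ : E n × ℝ × E n → ℝ} {φ u : E n → ℝ}
    (e : ∀ x ∈ closure Ω, ∀ (z : ℝ) (p : E n), ‖p‖ ≤ 1 → χ (x, z, p) = ψ (x, z, p))
    (h : Q.IsSol k Ω ψ φ u) : Q.IsSol k Ω χ φ u :=
  ⟨h.1, fun x hx => by
    rw [e x (subset_closure hx) _ _ (grad_le h.1 hx)]; exact h.2.1 x hx, h.2.2⟩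

theorem main2 (hk : 2 ≤ k) (hkn : k ≤ n - 1) (h2k : n < 2 * k)
    (hΩ : Q.IsSmoothDomain Ω) (hconv : Convex ℝ Ω)
    (hadm : ∀ x₀ ∈ frontier Ω, ∃ κ, Q.IsBdryCurv Ω x₀ κ ∧ Q.InGamma (k - 1) κ)
    {ψ : E n × ℝ × E n → ℝ}
    (hψ : ContDiffOn ℝ ∞ ψ (closure Ω ×ˢ univ ×ˢ Metric.closedBall 0 1))
    (hpos : ∀ x ∈ closure Ω, ∀ z p, ‖p‖ ≤ 1 →
      0 < ψ (x, z, p) ∧ 0 ≤ deriv (fun s => ψ (x, s, p)) z)
    {φ : E n → ℝ} (hφ : ContDiffOn ℝ 4 φ (closure Ω)) (hφs : Q.Spacelike Ω φ)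
    {ub : E n → ℝ} (hub : Q.IsSub k Ω ψ φ ub) :
    ∃ u : E n → ℝ, Q.IsSol k Ω ψ φ u ∧
      (∀ x ∈ closure Ω, ∃ κ, Q.IsCurv Ω u x κ ∧ Q.InGamma k κ) ∧
      (∀ α : ℝ, 0 < α → α < 1 → Q.HolderC3 Ω α u) ∧
      ∀ v, Q.IsSol k Ω ψ φ v → EqOn v u (closure Ω) := by
  obtain ⟨Φ, Ψ, hch⟩ := exists_chart ⟨hΩ.1, hconv, hΩ.2.1.nonempty, hΩ.2.2.1⟩ hΩ.2.2.2
  obtain ⟨χ, hχ, e⟩ := exists_ext hch hψ
  obtain ⟨u, h1, h2, h3, h4⟩ := main n k hk hkn h2k Ω hΩ hconv hadm χ univ isOpen_univ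
    (subset_univ _) hχ.contDiffOn (fun x hx z p hp => by
      simp only [e x hx _ p hp]; exact hpos x hx z p hp) φ hφ hφs ub
    ⟨hub.1, fun x hx => by
      rw [e x (subset_closure hx) _ _ (grad_le hub.1 hx)]; exact hub.2.1 x hx, hub.2.2⟩
  exact ⟨u, isSol_congr (fun x hx z p hp => (e x hx z p hp).symm) h1, h2, h3,
    fun v hv => h4 v (isSol_congr e hv)⟩

end Pool.Agent.Mink.T
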