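import Pool.Agent.Lib.MP_88c759_an.Mink.ADD

/-! Calculus on the closed unit ball. -/

set_option maxSynthPendingDepth 3

namespace Pool.Agent.Mink.A

open scoped ContDiff Topology
open Set Metric Filter MeasureTheory

variable {n : ℕ}

variable {v : E n → ℝ} {x : E n}

theorem D1_eq (v : E n → ℝ) (hx : x ∈ oB n) : D1 (cB n) v x = fderiv ℝ v x := by
  exact fderivWithin_of_mem_nhds (cB_mem_nhds hx)

theorem D1_eventuallyEq (v : E n → ℝ) (hx : x ∈ oB n) : D1 (cB n) v =ᶠ[𝓝 x] fderiv ℝ v := by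
  filter_upwards [isOpen_oB.mem_nhds hx] with y hy using D1_eq v hy

theorem D2_eq (v : E n → ℝ) (hx : x ∈ oB n) : D2 (cB n) v x = DD v x := by
  rw [D2, fderivWithin_of_mem_nhds (cB_mem_nhds hx)]
  exact (D1_eventuallyEq v hx).fderiv_eq

theorem D2_eventuallyEq (v : E n → ℝ) (hx : x ∈ oB n) : D2 (cB n) v =ᶠ[𝓝 x] DD v := by
  filter_upwards [isOpen_oB.mem_nhds hx] with y hy using D2_eq v hy

theorem hasD1 (hv : ContDiffOn ℝ 2 v (cB n)) (hx : x ∈ cB n) :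
    HasFDerivWithinAt v (D1 (cB n) v x) (cB n) x := by
  exact (hv.differentiableOn (by norm_num) x hx).hasFDerivWithinAt

theorem hasD2 (hv : ContDiffOn ℝ 2 v (cB n)) (hx : x ∈ cB n) :
    HasFDerivWithinAt (D1 (cB n) v) (D2 (cB n) v x) (cB n) x := by
  exact ((hv.fderivWithin (m := 1) uniqueDiffOn_cB (by norm_num)).differentiableOn (by norm_num)
    x hx).hasFDerivWithinAt

theorem continuousOn_D2 (hv : ContDiffOn ℝ 2 v (cB n)) : ContinuousOn (D2 (cB n) v) (cB n) := by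
  exact (hv.fderivWithin (m := 1) uniqueDiffOn_cB (by norm_num)).continuousOn_fderivWithin
    uniqueDiffOn_cB le_rfl

/-- `ContDiffWithinAt.isSymmSndFDerivWithinAt`. -/
theorem sym_D2 (hv : ContDiffOn ℝ 2 v (cB n)) (hx : x ∈ cB n) : Sym (D2 (cB n) v x) := by
  refine (hv x hx).isSymmSndFDerivWithinAt (by simp) uniqueDiffOn_cB ?_ hx
  rw [cB, interior_closedBall _ one_ne_zero, closure_ball _ one_ne_zero]
  exact hx

/-- `Convex.norm_image_sub_le_of_norm_hasFDerivWithin_le`. -/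
theorem lip_D0 (hv : ContDiffOn ℝ 2 v (cB n)) {C : ℝ} (h : ∀ x ∈ cB n, ‖D1 (cB n) v x‖ ≤ C) :
    ∀ x ∈ cB n, ∀ y ∈ cB n, |v x - v y| ≤ C * ‖x - y‖ := by
  intro x hx y hy
  exact convex_cB.norm_image_sub_le_of_norm_hasFDerivWithin_le (fun z hz => hasD1 hv hz) h hy hx

theorem lip_D1 (hv : ContDiffOn ℝ 2 v (cB n)) {C : ℝ} (h : ∀ x ∈ cB n, ‖D2 (cB n) v x‖ ≤ C) :
    ∀ x ∈ cB n, ∀ y ∈ cB n, ‖D1 (cB n) v x - D1 (cB n) v y‖ ≤ C * ‖x - y‖ := by
  intro x hx y hy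
  exact convex_cB.norm_image_sub_le_of_norm_hasFDerivWithin_le (fun z hz => hasD2 hv hz) h hy hx

theorem D1_sub (hv : ContDiffOn ℝ 2 v (cB n)) {φ : E n → ℝ} (hφ : ContDiff ℝ 2 φ) (hx : x ∈ cB n) :
    D1 (cB n) (fun y => v y - φ y) x = D1 (cB n) v x - fderiv ℝ φ x := by
  exact ((hasD1 hv hx).sub (hφ.differentiable (by norm_num) x).hasFDerivAt.hasFDerivWithinAt).fderivWithin
    (uniqueDiffOn_cB x hx)

theorem D2_sub (hv : ContDiffOn ℝ 2 v (cB n)) {φ : E n → ℝ} (hφ : ContDiff ℝ 2 φ) (hx : x ∈ cB n) :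
    D2 (cB n) (fun y => v y - φ y) x = D2 (cB n) v x - DD φ x := by
  have h1 : HasFDerivAt (fderiv ℝ φ) (DD φ x) x :=
    ((hφ.fderiv_right (m := 1) (by norm_num)).differentiable (by norm_num) x).hasFDerivAt
  exact (((hasD2 hv hx).sub h1.hasFDerivWithinAt).congr (fun y hy => D1_sub hv hφ hy)
    (D1_sub hv hφ hx)).fderivWithin (uniqueDiffOn_cB x hx)

/-- A function that vanishes on the sphere has no tangential derivative. For `τ ≠ 0` use the curve
`t ↦ cos t • x + sin t • (‖τ‖⁻¹ • τ)` in the sphere (`HasFDerivWithinAt.comp_hasDerivAt`-type lemma,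
`HasDerivAt.unique`). -/
theorem tangent_zero {g : E n → ℝ} {g' : B1 n} (hx : x ∈ sB n)
    (hg : HasFDerivWithinAt g g' (cB n) x) (h0 : ∀ y ∈ sB n, g y = 0) {τ : E n}
    (hτ : inner ℝ x τ = 0) : g' τ = 0 := by
  by_cases h : τ = 0
  · rw [h, map_zero]
  have hn : ‖τ‖ ≠ 0 := norm_ne_zero_iff.2 h
  obtain ⟨u, hu⟩ : ∃ u : E n, u = ‖τ‖⁻¹ • τ := ⟨_, rfl⟩
  have hu1 : ‖u‖ = 1 := by rw [hu, norm_smul, norm_inv, norm_norm, inv_mul_cancel₀ hn]
  have hu2 : inner ℝ x u = 0 := by rw [hu, inner_smul_right, hτ, mul_zero]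
  have hs : ∀ t : ℝ, Real.cos t • x + Real.sin t • u ∈ sB n := by
    intro t
    have h1 : ‖Real.cos t • x + Real.sin t • u‖ ^ 2 = 1 := by
      rw [norm_add_sq_real, norm_smul, norm_smul, inner_smul_left, inner_smul_right, hu2, hu1,
        mem_sB.1 hx]
      simp
    exact mem_sB.2 ((pow_eq_one_iff_of_nonneg (norm_nonneg _) two_ne_zero).1 h1)
  have hd : HasDerivAt (fun t : ℝ => Real.cos t • x + Real.sin t • u) u 0 := by
    have h4 := ((Real.hasDerivAt_cos 0).smul_const x).add ((Real.hasDerivAt_sin 0).smul_const u)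
    rw [Real.sin_zero, Real.cos_zero, neg_zero, zero_smul, one_smul, zero_add] at h4
    exact h4
  have h2 := hg.comp_hasDerivAt_of_eq (0 : ℝ) hd (Eventually.of_forall fun t => sB_sub (hs t))
    (by simp)
  have h3 : g' u = 0 := h2.unique (by
    rw [show (g ∘ fun t : ℝ => Real.cos t • x + Real.sin t • u) = fun _ => 0 from
      funext fun t => h0 _ (hs t)]
    exact hasDerivAt_const _ _)
  rw [hu, map_smul, smul_eq_mul] at h3
  exact (mul_eq_zero.1 h3).resolve_left (inv_ne_zero hn)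

/-- Look along the radius `s ↦ s • x`, `s < 1`: `g (s • x) / (1 - s) → - g' x` and
`dd (s • x) / (1 - s) = 1 + s → 2`. -/
theorem normal_bounds {g : E n → ℝ} {g' : B1 n} (hx : x ∈ sB n)
    (hg : HasFDerivWithinAt g g' (cB n) x) {m M : ℝ}
    (h : ∀ᶠ y in 𝓝[cB n] x, m * dd y ≤ g y ∧ g y ≤ M * dd y) :
    2 * m ≤ -g' x ∧ -g' x ≤ 2 * M := by
  have hx1 : dd x = 0 := by rw [dd, mem_sB.1 hx]; norm_num
  have hx0 := h.self_of_nhdsWithin (sB_sub hx)
  rw [hx1, mul_zero, mul_zero] at hx0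
  have hg0 : g x = 0 := le_antisymm hx0.2 hx0.1
  have hd : HasFDerivAt (dd : E n → ℝ) (-((2 : ℝ) • II n x)) x := by
    have h4 := (hasFDerivAt_normsq 0 x).const_sub 1
    simp only [sub_zero] at h4
    exact h4
  have hc : (0 : E n) - x ∈ posTangentConeAt (cB n) x :=
    sub_mem_posTangentConeAt_of_segment_subset
      (convex_cB.segment_subset (sB_sub hx) (mem_cB.2 (by simp)))
  have hI : II n x x = 1 := by rw [II_self, mem_sB.1 hx]; norm_num
  constructor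
  · have h1 : IsLocalMinOn (fun y => g y - m * dd y) (cB n) x :=
      h.mono fun y hy => by simp only [hg0, hx1]; linarith [hy.1]
    have h2 := h1.hasFDerivWithinAt_nonneg (hg.sub (hd.const_mul m).hasFDerivWithinAt) hc
    simp [hI] at h2
    linarith
  · have h1 : IsLocalMinOn (fun y => M * dd y - g y) (cB n) x :=
      h.mono fun y hy => by simp only [hg0, hx1]; linarith [hy.2]
    have h2 := h1.hasFDerivWithinAt_nonneg ((hd.const_mul M).hasFDerivWithinAt.sub hg) hc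
    simp [hI] at h2
    linarith

/-- A Lipschitz function that vanishes on the sphere: compare `x` with a point `y` of the sphere at
distance `1 - ‖x‖ ≤ dd x` (`exists_norm_eq`-type lemma if `x = 0`). -/
theorem abs_le_dd (hn : 0 < n) {g : E n → ℝ} {L : ℝ}
    (hL : ∀ x ∈ cB n, ∀ y ∈ cB n, |g x - g y| ≤ L * ‖x - y‖) (hL0 : 0 ≤ L)
    (h0 : ∀ y ∈ sB n, g y = 0) : ∀ x ∈ cB n, |g x| ≤ L * dd x := by
  intro x hx
  have hx1 := mem_cB.1 hx
  obtain ⟨y, hy, h1⟩ : ∃ y ∈ sB n, ‖x - y‖ = 1 - ‖x‖ := by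
    by_cases h : x = 0
    · exact ⟨EuclideanSpace.single ⟨0, hn⟩ 1, mem_sB.2 (by simp), by simp [h]⟩
    · have hn : 0 < ‖x‖ := norm_pos_iff.2 h
      refine ⟨‖x‖⁻¹ • x, mem_sB.2 (by rw [norm_smul, norm_inv, norm_norm, inv_mul_cancel₀ hn.ne']),
        ?_⟩
      rw [norm_sub_rev, show ‖x‖⁻¹ • x - x = (‖x‖⁻¹ - 1) • x by rw [sub_smul, one_smul], norm_smul,
        Real.norm_of_nonneg (sub_nonneg.2 ((one_le_inv₀ hn).2 hx1)), sub_mul,
        inv_mul_cancel₀ hn.ne', one_mul]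
  have h2 := hL x hx y (sB_sub hy)
  rw [h0 y hy, sub_zero, h1] at h2
  refine h2.trans (mul_le_mul_of_nonneg_left ?_ hL0)
  rw [dd]
  nlinarith [norm_nonneg x]

/-- `norm_iteratedFDeriv_fderiv`, `norm_iteratedFDeriv_one`. -/
theorem norm_le_of_iterated {φ : E n → ℝ} {M : ℝ} (h : ∀ i ≤ 4, ‖iteratedFDeriv ℝ i φ x‖ ≤ M) :
    ‖fderiv ℝ φ x‖ ≤ M ∧ ‖DD φ x‖ ≤ M ∧ ‖fderiv ℝ (DD φ) x‖ ≤ M := by
  refine ⟨?_, ?_, ?_⟩
  · rw [← norm_iteratedFDeriv_one]
    exact h 1 (by norm_num)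
  · rw [← norm_iteratedFDeriv_one, norm_iteratedFDeriv_fderiv]
    exact h 2 (by norm_num)
  · rw [← norm_iteratedFDeriv_one, norm_iteratedFDeriv_fderiv, norm_iteratedFDeriv_fderiv]
    exact h 3 (by norm_num)

end Pool.Agent.Mink.A
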