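import Pool.Agent.Lib.MP_88c759_an.Mink.ADefs

/-! Symmetric forms and elliptic functionals. -/

set_option maxSynthPendingDepth 3

namespace Pool.Agent.Mink.A

open scoped ContDiff Topology
open Set Metric Filter MeasureTheory

variable {n : ℕ}

lemma alin_half {X : B2 n} (hX : Sym X) {s : ℝ}
    (h : ∀ e, |X e e| ≤ s * ‖e‖ ^ 2) (u v : E n) : |X u v| ≤ s / 2 * (‖u‖ ^ 2 + ‖v‖ ^ 2) := by
  have e1 : X (u + v) (u + v) - X (u - v) (u - v) = 4 * X u v := by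
    simp only [map_add, map_sub, _root_.add_apply, _root_.sub_apply]
    rw [hX v u]
    ring
  have e2 : ‖u + v‖ ^ 2 + ‖u - v‖ ^ 2 = 2 * (‖u‖ ^ 2 + ‖v‖ ^ 2) := by
    rw [norm_add_sq_real, norm_sub_sq_real]
    ring
  have h1 := abs_le.1 (h (u + v))
  have h2 := abs_le.1 (h (u - v))
  have e3 : s * ‖u + v‖ ^ 2 + s * ‖u - v‖ ^ 2 = 4 * (s / 2 * (‖u‖ ^ 2 + ‖v‖ ^ 2)) := by
    rw [← mul_add, e2]
    ring
  rw [abs_le]
  constructor <;> linarith [h1.1, h1.2, h2.1, h2.2]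

lemma alin_hom (X : B2 n) {t : ℝ} (h : ∀ e, ‖e‖ = 1 → X e e ≤ t) (e : E n) :
    X e e ≤ t * ‖e‖ ^ 2 := by
  by_cases he : e = 0
  · simp [he]
  · have hn : ‖e‖ ≠ 0 := norm_ne_zero_iff.2 he
    have hu : ‖(‖e‖⁻¹ : ℝ) • e‖ = 1 := by
      rw [norm_smul, norm_inv, norm_norm, inv_mul_cancel₀ hn]
    have h1 := h _ hu
    simp only [map_smul, _root_.smul_apply, smul_eq_mul] at h1
    have h2 : X e e = ‖e‖⁻¹ * (‖e‖⁻¹ * X e e) * ‖e‖ ^ 2 := by
      field_simp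
    rw [h2]
    exact mul_le_mul_of_nonneg_right h1 (sq_nonneg _)

lemma alin_near (X : B2 n) {e γ : E n} {η : ℝ} (he : ‖e‖ = 1) (hγ : ‖γ‖ = 1)
    (h : ‖e - γ‖ ≤ η) : |X e e - X γ γ| ≤ 2 * η * ‖X‖ := by
  have e1 : X e e - X γ γ = X (e - γ) e + X γ (e - γ) := by
    simp only [map_sub, _root_.sub_apply]
    ring
  have h1 : |X (e - γ) e| ≤ ‖X‖ * ‖e - γ‖ * ‖e‖ := X.le_opNorm₂ _ _
  have h2 : |X γ (e - γ)| ≤ ‖X‖ * ‖γ‖ * ‖e - γ‖ := X.le_opNorm₂ _ _
  rw [he, mul_one] at h1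
  rw [hγ, mul_one] at h2
  have h3 : ‖X‖ * ‖e - γ‖ ≤ ‖X‖ * η := mul_le_mul_of_nonneg_left h (norm_nonneg _)
  rw [e1]
  have h4 := abs_add_le (X (e - γ) e) (X γ (e - γ))
  linarith

lemma alin_neg_sym {X : B2 n} (hX : Sym X) : Sym (-X) := fun v w => by
  simp only [_root_.neg_apply]
  rw [hX v w]

/-- Polarisation: `4 X u v = X (u + v) (u + v) - X (u - v) (u - v)` and the parallelogram law give
`|X u v| ≤ s` for unit vectors. -/
theorem norm_le_of_diag {X : B2 n} (hX : Sym X) {s : ℝ} (hs : 0 ≤ s)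
    (h : ∀ e, |X e e| ≤ s * ‖e‖ ^ 2) : ‖X‖ ≤ s := by
  refine ContinuousLinearMap.opNorm_le_bound₂ X hs fun u v => ?_
  by_cases hu : u = 0
  · simp [hu]
  by_cases hv : v = 0
  · simp [hv]
  have hu' : 0 < ‖u‖ := norm_pos_iff.2 hu
  have hv' : 0 < ‖v‖ := norm_pos_iff.2 hv
  have h1 := alin_half hX h (‖v‖ • u) (‖u‖ • v)
  simp only [map_smul, _root_.smul_apply, smul_eq_mul, norm_smul, norm_norm,
    abs_mul, abs_norm] at h1
  rw [Real.norm_eq_abs]
  have h2 : ‖u‖ * ‖v‖ * |X u v| ≤ ‖u‖ * ‖v‖ * (s * ‖u‖ * ‖v‖) := by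
    nlinarith [h1]
  exact le_of_mul_le_mul_left h2 (mul_pos hu' hv')

/-- `s • II - X` is positive semidefinite. -/
theorem norm_le_of_ell {lam Lam : ℝ} (hlam : 0 < lam) {l : B2 n →L[ℝ] ℝ} (hl : Ell lam Lam l)
    {X : B2 n} (hX : Sym X) {s ρ : ℝ} (hs : 0 ≤ s) (h : ∀ e, X e e ≤ s * ‖e‖ ^ 2)
    (hρ : -ρ ≤ l X) : ‖X‖ ≤ s + (Lam * s + ρ) / lam := by
  have hm : Psd (s • II n - X) := by
    refine ⟨fun v w => ?_, fun v => ?_⟩
    · simp only [_root_.sub_apply, _root_.smul_apply, smul_eq_mul]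
      rw [hX v w, psd_II.1 v w]
    · simp only [_root_.sub_apply, _root_.smul_apply, smul_eq_mul]
      rw [II_self]
      linarith [h v]
  have h1 := hl.1 _ hm
  rw [map_sub, map_smul, smul_eq_mul] at h1
  have h2 : l (II n) ≤ Lam := (le_abs_self _).trans (ell_II hl)
  have h3 : s * l (II n) ≤ s * Lam := mul_le_mul_of_nonneg_left h2 hs
  have h4 : ‖s • II n - X‖ ≤ (Lam * s + ρ) / lam := by
    rw [le_div_iff₀ hlam]
    linarith
  have h5 : ‖s • II n‖ ≤ s := by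
    rw [norm_smul, Real.norm_eq_abs, abs_of_nonneg hs]
    exact mul_le_of_le_one_right hs norm_II_le
  have h6 : X = s • II n - (s • II n - X) := by abel
  calc ‖X‖ = ‖s • II n - (s • II n - X)‖ := by rw [← h6]
    _ ≤ ‖s • II n‖ + ‖s • II n - X‖ := norm_sub_le _ _
    _ ≤ _ := add_le_add h5 h4

/-- Take a finite `η`-net `Γ` of the unit sphere contained in the sphere (compactness), with
`η ≤ 1 / 4` and `2 η (1 + |Lam| / lam) ≤ 1 / 2`. For unit vectors `|X e e - X γ γ| ≤ 2 η ‖X‖`; then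
use `norm_le_of_diag`, resp. `norm_le_of_ell`, with `s + 2 η ‖X‖` and absorb. -/
theorem exists_net {lam : ℝ} (hlam : 0 < lam) (Lam : ℝ) :
    ∃ (Γ : Finset (E n)) (C : ℝ), 0 ≤ C ∧ Net lam Lam C Γ := by
  have hq : 0 ≤ |Lam| / lam := div_nonneg (abs_nonneg _) hlam.le
  obtain ⟨A, hA⟩ : ∃ A : ℝ, A = 1 + |Lam| / lam := ⟨_, rfl⟩
  have hA1 : 1 ≤ A := by linarith
  have hA0 : 0 < A := by linarith
  obtain ⟨η, hη⟩ : ∃ η : ℝ, η = 1 / (4 * A) := ⟨_, rfl⟩
  have hη0 : 0 < η := by rw [hη]; positivity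
  have hηA : 2 * η * A = 1 / 2 := by rw [hη]; field_simp; norm_num
  have hη4 : 2 * η ≤ 1 / 2 := by nlinarith
  obtain ⟨t, hts, htf, hcov⟩ :=
    finite_cover_balls_of_compact (isCompact_sphere (0 : E n) 1) hη0
  have hunit : ∀ γ ∈ htf.toFinset, ‖γ‖ = 1 := fun γ hγ =>
    mem_sphere_zero_iff_norm.1 (hts (htf.mem_toFinset.1 hγ))
  have hnear : ∀ (X : B2 n) (e : E n), ‖e‖ = 1 →
      ∃ γ ∈ htf.toFinset, |X e e - X γ γ| ≤ 2 * η * ‖X‖ := by
    intro X e he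
    obtain ⟨γ, hγ, hb⟩ := mem_iUnion₂.1 (hcov (mem_sphere_zero_iff_norm.2 he))
    have hγ' := htf.mem_toFinset.2 hγ
    exact ⟨γ, hγ', alin_near X he (hunit γ hγ') (mem_ball_iff_norm.1 hb).le⟩
  refine ⟨htf.toFinset, 2 * A + 2 / lam, by positivity, hunit, ?_, ?_⟩
  · intro X hX s hs h
    have hX0 := norm_nonneg X
    have h1 : ‖X‖ ≤ s + 2 * η * ‖X‖ := by
      refine norm_le_of_diag hX (by positivity) fun e => ?_
      rw [abs_le]
      constructor
      · have h2 := alin_hom (-X) (t := s + 2 * η * ‖X‖) (fun e he => by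
          obtain ⟨γ, hγ, hb⟩ := hnear X e he
          simp only [_root_.neg_apply]
          linarith [(abs_le.1 hb).1, (abs_le.1 (h γ hγ)).1]) e
        simp only [_root_.neg_apply] at h2
        linarith
      · exact alin_hom X (fun e he => by
          obtain ⟨γ, hγ, hb⟩ := hnear X e he
          linarith [(abs_le.1 hb).2, (abs_le.1 (h γ hγ)).2]) e
    nlinarith
  · intro l X s ρ hl hX hs hρ h hl'
    have hX0 := norm_nonneg X
    have h1 := norm_le_of_ell hlam hl hX (s := s + 2 * η * ‖X‖) (by positivity)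
      (alin_hom X fun e he => by
        obtain ⟨γ, hγ, hb⟩ := hnear X e he
        linarith [(abs_le.1 hb).2, h γ hγ]) hl'
    rw [abs_of_nonneg (ell_Lam hl)] at hA
    have h2 : s + 2 * η * ‖X‖ + (Lam * (s + 2 * η * ‖X‖) + ρ) / lam
        = A * s + 2 * η * A * ‖X‖ + ρ / lam := by
      rw [hA]
      ring
    rw [h2, hηA] at h1
    have h3 : (2 * A + 2 / lam) * (s + ρ)
        = 2 * (A * s) + 2 * (ρ / lam) + (2 * (A * ρ) + 2 * (s / lam)) := by ring
    have h4 : 0 ≤ A * ρ := by positivity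
    have h5 : 0 ≤ s / lam := by positivity
    rw [h3]
    linarith

/-- If all entries of `X` with a slot orthogonal to the unit vector `x` are small and `X` is almost
nonnegative for one elliptic functional and almost nonpositive for another one, then `X` is small.
Write `e = a • x + τ`; then `|X e e - a ^ 2 * X x x| ≤ 2 s ‖e‖ ^ 2`. If `X x x ≤ 0` apply
`norm_le_of_ell` to `X` and `l`, otherwise to `-X` and `l'`. -/
theorem norm_le_of_tangential {lam Lam : ℝ} (hlam : 0 < lam) {l l' : B2 n →L[ℝ] ℝ}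
    (hl : Ell lam Lam l) (hl' : Ell lam Lam l') {X : B2 n} (hX : Sym X) {x : E n} (hx : ‖x‖ = 1)
    {s ρ : ℝ} (hs : 0 ≤ s) (h : ∀ ξ τ, inner ℝ x τ = 0 → |X ξ τ| ≤ s * ‖ξ‖ * ‖τ‖)
    (hρ : -ρ ≤ l X) (hρ' : l' X ≤ ρ) : ‖X‖ ≤ 2 * s + (Lam * (2 * s) + ρ) / lam := by
  have key : ∀ e, |X e e - inner ℝ x e ^ 2 * X x x| ≤ 2 * s * ‖e‖ ^ 2 := by
    intro e
    obtain ⟨a, ha⟩ : ∃ a : ℝ, a = inner ℝ x e := ⟨_, rfl⟩
    obtain ⟨τ, hτ⟩ : ∃ τ : E n, τ = e - a • x := ⟨_, rfl⟩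
    have h0 : inner ℝ x τ = 0 := by
      rw [hτ, inner_sub_right, inner_smul_right, real_inner_self_eq_norm_sq, hx, ← ha]
      ring
    have he : e = a • x + τ := by rw [hτ]; abel
    have hn : ‖e‖ ^ 2 = a ^ 2 + ‖τ‖ ^ 2 := by
      rw [he, norm_add_sq_real, inner_smul_left, h0, norm_smul, hx, Real.norm_eq_abs]
      simp
    have hτe : ‖τ‖ ≤ ‖e‖ :=
      (pow_le_pow_iff_left₀ (norm_nonneg _) (norm_nonneg _) two_ne_zero).1
        (by nlinarith [sq_nonneg a])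
    have hae : |a| ≤ ‖e‖ :=
      (pow_le_pow_iff_left₀ (abs_nonneg _) (norm_nonneg _) two_ne_zero).1
        (by rw [sq_abs]; nlinarith [sq_nonneg ‖τ‖])
    have e1 : X e e = a * X e x + X e τ := by
      conv_lhs => rw [show X e e = X e (a • x + τ) by rw [← he]]
      rw [map_add, map_smul, smul_eq_mul]
    have e2 : X e x = a * X x x + X x τ := by
      rw [hX e x]
      conv_lhs => rw [he]
      rw [map_add, map_smul, smul_eq_mul]
    have e3 : X e e - a ^ 2 * X x x = a * X x τ + X e τ := by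
      rw [e1, e2]
      ring
    have h1 := h e τ h0
    have h2 := h x τ h0
    rw [hx, mul_one] at h2
    have he0 := norm_nonneg e
    have hτ0 := norm_nonneg τ
    have h3 : |a * X x τ| ≤ ‖e‖ * (s * ‖e‖) := by
      rw [abs_mul]
      exact mul_le_mul hae (h2.trans (mul_le_mul_of_nonneg_left hτe hs)) (abs_nonneg _) he0
    have h4 : s * ‖e‖ * ‖τ‖ ≤ s * ‖e‖ * ‖e‖ := mul_le_mul_of_nonneg_left hτe (by positivity)
    rw [← ha, e3]
    have h5 := abs_add_le (a * X x τ) (X e τ)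
    nlinarith
  have hs2 : 0 ≤ 2 * s := by positivity
  rcases le_total (X x x) 0 with hxx | hxx
  · refine norm_le_of_ell hlam hl hX hs2 (fun e => ?_) hρ
    have h1 := (abs_le.1 (key e)).2
    have h2 : inner ℝ x e ^ 2 * X x x ≤ 0 := mul_nonpos_of_nonneg_of_nonpos (sq_nonneg _) hxx
    linarith
  · rw [← norm_neg X]
    refine norm_le_of_ell hlam hl' (alin_neg_sym hX) hs2 (fun e => ?_) ?_
    · have h1 := (abs_le.1 (key e)).1
      have h2 : 0 ≤ inner ℝ x e ^ 2 * X x x := mul_nonneg (sq_nonneg _) hxx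
      simp only [_root_.neg_apply]
      linarith
    · rw [map_neg]
      linarith

end Pool.Agent.Mink.A
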