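import Pool.Agent.Lib.MP_88c759_an.Mink.ADD

/-! Symmetry of third and fourth derivatives. -/

set_option maxSynthPendingDepth 3

namespace Pool.Agent.Mink.A

open scoped ContDiff Topology
open Set Metric Filter MeasureTheory

section asym_gen

variable {V U W : Type} [NormedAddCommGroup V] [NormedSpace ℝ V] [NormedAddCommGroup U]
  [NormedSpace ℝ U] [NormedAddCommGroup W] [NormedSpace ℝ W]

theorem asym_app {g : V → U →L[ℝ] W} {x : V} (hg : DifferentiableAt ℝ g x) (c : U) (a : V) :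
    fderiv ℝ (fun y => g y c) x a = fderiv ℝ g x a c := by
  rw [fderiv_clm_apply hg (differentiableAt_const c)]
  simp

theorem asym_app2 {g : V → U →L[ℝ] U →L[ℝ] W} {x : V} (hg : DifferentiableAt ℝ g x) (b c : U)
    (a : V) : fderiv ℝ (fun y => g y b c) x a = fderiv ℝ g x a b c := by
  rw [asym_app (hg.clm_apply (differentiableAt_const b)), asym_app hg]

theorem asym_app3 {g : V → U →L[ℝ] U →L[ℝ] U →L[ℝ] W} {x : V} (hg : DifferentiableAt ℝ g x)
    (b c d : U) (a : V) : fderiv ℝ (fun y => g y b c d) x a = fderiv ℝ g x a b c d := by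
  rw [asym_app2 (hg.clm_apply (differentiableAt_const b)), asym_app hg]

theorem asym_d1 {f : V → W} {x : V} (hf : ContDiffAt ℝ 2 f x) :
    DifferentiableAt ℝ (fderiv ℝ f) x :=
  (hf.fderiv_right (m := 1) (by norm_num)).differentiableAt one_ne_zero

theorem asym_32 {f : V → W} {x : V} (hf : ContDiffAt ℝ 3 f x) : ContDiffAt ℝ 2 (fderiv ℝ f) x :=
  hf.fderiv_right (by norm_num)

theorem asym_43 {f : V → W} {x : V} (hf : ContDiffAt ℝ 4 f x) : ContDiffAt ℝ 3 (fderiv ℝ f) x :=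
  hf.fderiv_right (by norm_num)

theorem asym_sym {f : V → W} {x : V} (hf : ContDiffAt ℝ 2 f x) (a b : V) :
    fderiv ℝ (fderiv ℝ f) x a b = fderiv ℝ (fderiv ℝ f) x b a :=
  hf.isSymmSndFDerivAt (by simp) a b

theorem asym_ev32 {f : V → W} {x : V} (hf : ContDiffAt ℝ 3 f x) :
    ∀ᶠ y in 𝓝 x, ContDiffAt ℝ 2 f y :=
  (hf.of_le (m := 2) (by norm_num)).eventually (by simp)

theorem asym_ev43 {f : V → W} {x : V} (hf : ContDiffAt ℝ 4 f x) :
    ∀ᶠ y in 𝓝 x, ContDiffAt ℝ 3 f y :=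
  (hf.of_le (m := 3) (by norm_num)).eventually (by simp)

end asym_gen

variable {n : ℕ}

variable {v : E n → ℝ} {x : E n}

/-- `DD v y` is symmetric for `y` near `x`; differentiate `y ↦ DD v y b c`. -/
theorem D3_sym (hv : ContDiffAt ℝ 3 v x) (a : E n) : Sym (fderiv ℝ (DD v) x a) := by
  intro b c
  have hd : DifferentiableAt ℝ (DD v) x := asym_d1 (asym_32 hv)
  rw [← asym_app2 hd, ← asym_app2 hd]
  have he : (fun y => DD v y b c) =ᶠ[𝓝 x] fun y => DD v y c b :=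
    (asym_ev32 hv).mono fun y hy => asym_sym hy b c
  rw [he.fderiv_eq]

/-- `ContDiffAt.isSymmSndFDerivAt` for `fderiv ℝ v`. -/
theorem D3_swap (hv : ContDiffAt ℝ 3 v x) (a b : E n) :
    fderiv ℝ (DD v) x a b = fderiv ℝ (DD v) x b a := by
  exact asym_sym (asym_32 hv) a b

/-- The fourth derivative is symmetric in the slots (1 2) (`isSymmSndFDerivAt` for `DD v`), (2 3) and
(3 4) (differentiate `D3_swap`, `D3_sym`, which hold near `x`). -/
theorem D4_swap (hv : ContDiffAt ℝ 4 v x) (a b c d : E n) :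
    fderiv ℝ (fderiv ℝ (DD v)) x a b c d = fderiv ℝ (fderiv ℝ (DD v)) x c d a b := by
  have hd : DifferentiableAt ℝ (fderiv ℝ (DD v)) x := asym_d1 (asym_32 (asym_43 hv))
  have s12 : ∀ a b : E n, fderiv ℝ (fderiv ℝ (DD v)) x a b = fderiv ℝ (fderiv ℝ (DD v)) x b a :=
    asym_sym (asym_32 (asym_43 hv))
  have s23 : ∀ a b c d : E n, fderiv ℝ (fderiv ℝ (DD v)) x a b c d =
      fderiv ℝ (fderiv ℝ (DD v)) x a c b d := by
    intro a b c d
    rw [← asym_app3 hd, ← asym_app3 hd]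
    have he : (fun y => fderiv ℝ (DD v) y b c d) =ᶠ[𝓝 x] fun y => fderiv ℝ (DD v) y c b d :=
      (asym_ev43 hv).mono fun y hy => by
        show fderiv ℝ (DD v) y b c d = fderiv ℝ (DD v) y c b d
        rw [D3_swap hy b c]
    rw [he.fderiv_eq]
  have s34 : ∀ a b c d : E n, fderiv ℝ (fderiv ℝ (DD v)) x a b c d =
      fderiv ℝ (fderiv ℝ (DD v)) x a b d c := by
    intro a b c d
    rw [← asym_app3 hd, ← asym_app3 hd]
    have he : (fun y => fderiv ℝ (DD v) y b c d) =ᶠ[𝓝 x] fun y => fderiv ℝ (DD v) y b d c :=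
      (asym_ev43 hv).mono fun y hy => D3_sym hy b c d
    rw [he.fderiv_eq]
  rw [s23 a b c d, s12 a c, s34 c a b d, s23 c a d b]

theorem contDiffAt_pure (hv : ContDiffAt ℝ 4 v x) (γ : E n) :
    ContDiffAt ℝ 2 (fun y => DD v y γ γ) x := by
  exact ((asym_32 (asym_43 hv)).clm_apply contDiffAt_const).clm_apply contDiffAt_const

theorem fderiv_pure (hv : ContDiffAt ℝ 3 v x) (γ ξ : E n) :
    fderiv ℝ (fun y => DD v y γ γ) x ξ = fderiv ℝ (DD v) x ξ γ γ := by
  exact asym_app2 (asym_d1 (asym_32 hv)) γ γ ξ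

theorem DD_pure (hv : ContDiffAt ℝ 4 v x) (γ : E n) :
    DD (fun y => DD v y γ γ) x = fderiv ℝ (fderiv ℝ (DD v)) x γ γ := by
  ext ξ ζ
  have hd : DifferentiableAt ℝ (fderiv ℝ (DD v)) x := asym_d1 (asym_32 (asym_43 hv))
  rw [D4_swap hv γ γ ξ ζ, ← asym_app3 hd, ← asym_app (asym_d1 (contDiffAt_pure hv γ))]
  have he : (fun y => fderiv ℝ (fun y => DD v y γ γ) y ζ) =ᶠ[𝓝 x]
      fun y => fderiv ℝ (DD v) y ζ γ γ :=
    (asym_ev43 hv).mono fun y hy => fderiv_pure hy γ ζ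
  rw [he.fderiv_eq]

theorem contDiffAt_field (hv : ContDiffAt ℝ 3 v x) (S : E n →L[ℝ] E n) :
    ContDiffAt ℝ 2 (fun y => fderiv ℝ v y (S y)) x := by
  exact (asym_32 hv).clm_apply S.contDiff.contDiffAt

/-- The difference is `(ξ, ζ) ↦ DD v x ζ (S ξ) + DD v x ξ (S ζ)`. -/
theorem DD_field (hv : ContDiffAt ℝ 3 v x) (S : E n →L[ℝ] E n) :
    ‖DD (fun y => fderiv ℝ v y (S y)) x - fderiv ℝ (DD v) x (S x)‖ ≤ 2 * ‖DD v x‖ * ‖S‖ := by
  have hd : DifferentiableAt ℝ (DD v) x := asym_d1 (asym_32 hv)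
  have hd1 : DifferentiableAt ℝ (fderiv ℝ v) x := asym_d1 (hv.of_le (by norm_num))
  have key : ∀ ξ ζ : E n, DD (fun y => fderiv ℝ v y (S y)) x ξ ζ =
      fderiv ℝ (DD v) x (S x) ξ ζ + (DD v x ζ (S ξ) + DD v x ξ (S ζ)) := by
    intro ξ ζ
    rw [← asym_app (asym_d1 (contDiffAt_field hv S))]
    have he : (fun y => fderiv ℝ (fun y => fderiv ℝ v y (S y)) y ζ) =ᶠ[𝓝 x]
        fun y => DD v y ζ (S y) + fderiv ℝ v y (S ζ) :=
      (asym_ev32 hv).mono fun y hy => by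
        show fderiv ℝ (fun y => fderiv ℝ v y (S y)) y ζ = DD v y ζ (S y) + fderiv ℝ v y (S ζ)
        rw [fderiv_clm_apply (asym_d1 hy) S.differentiableAt, S.fderiv, add_comm]
        rfl
    have h1 : DifferentiableAt ℝ (fun y => DD v y ζ) x := hd.clm_apply (differentiableAt_const ζ)
    rw [he.fderiv_eq, fderiv_fun_add (h1.clm_apply S.differentiableAt)
      (hd1.clm_apply (differentiableAt_const _)), ContinuousLinearMap.add_apply, asym_app hd1,
      fderiv_clm_apply h1 S.differentiableAt, S.fderiv, ContinuousLinearMap.add_apply,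
      ContinuousLinearMap.flip_apply, asym_app hd, ContinuousLinearMap.comp_apply,
      D3_sym hv ξ ζ (S x), D3_swap hv ξ (S x)]
    ring
  refine ContinuousLinearMap.opNorm_le_bound₂ _ (by positivity) fun ξ ζ => ?_
  rw [ContinuousLinearMap.sub_apply, ContinuousLinearMap.sub_apply, key, add_sub_cancel_left]
  have h1 : ‖DD v x ζ (S ξ)‖ ≤ ‖DD v x‖ * ‖ζ‖ * (‖S‖ * ‖ξ‖) :=
    ((DD v x).le_opNorm₂ _ _).trans (mul_le_mul_of_nonneg_left (S.le_opNorm _) (by positivity))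
  have h2 : ‖DD v x ξ (S ζ)‖ ≤ ‖DD v x‖ * ‖ξ‖ * (‖S‖ * ‖ζ‖) :=
    ((DD v x).le_opNorm₂ _ _).trans (mul_le_mul_of_nonneg_left (S.le_opNorm _) (by positivity))
  refine (norm_add_le _ _).trans ((add_le_add h1 h2).trans (le_of_eq ?_))
  ring

end Pool.Agent.Mink.A
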