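import Pool.Agent.Lib.MP_88c759_an.Mink.AKry
import Pool.Agent.Lib.MP_88c759_an.Mink.ACalc
import Pool.Agent.Lib.MP_88c759_an.Mink.ASym
import Pool.Agent.Lib.MP_88c759_an.Mink.ALin

/-! The second derivatives are Hoelder continuous on the sphere. -/

set_option maxSynthPendingDepth 3

namespace Pool.Agent.Mink.A

open scoped ContDiff Topology
open Set Metric Filter MeasureTheory

variable {n : ℕ}

/-- The derivative of the field `x ↦ D1 u x (S x)` within the closed ball. -/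
lemma abd_hasD {u : E n → ℝ} (hu : ContDiffOn ℝ 2 u (cB n)) (S : E n →L[ℝ] E n) {x : E n}
    (hx : x ∈ cB n) : HasFDerivWithinAt (fun y => D1 (cB n) u y (S y))
      ((D1 (cB n) u x).comp S + (D2 (cB n) u x).flip (S x)) (cB n) x :=
  (hasD2 hu hx).clm_apply S.hasFDerivWithinAt

lemma abd_apply (a : B1 n) (b : B2 n) (S : E n →L[ℝ] E n) (z ξ : E n) :
    (a.comp S + b.flip z) ξ = a (S ξ) + b ξ z := rfl

lemma abd_zero {u : E n → ℝ} (hu : ContDiffOn ℝ 2 u (cB n)) (h0 : ∀ x ∈ sB n, u x = 0)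
    (S : E n →L[ℝ] E n) (hS : ∀ x, inner ℝ x (S x) = 0) :
    ∀ y ∈ sB n, D1 (cB n) u y (S y) = 0 := fun y hy =>
  tangent_zero hy (hasD1 hu (sB_sub hy)) h0 (hS y)

lemma abd_S {S : E n →L[ℝ] E n} (hS : ‖S‖ ≤ 2) (z : E n) : ‖S z‖ ≤ 2 * ‖z‖ :=
  (S.le_opNorm z).trans (mul_le_mul_of_nonneg_right hS (norm_nonneg _))

lemma abd_b1 {a : B1 n} {L : ℝ} (h : ‖a‖ ≤ L) (z : E n) : |a z| ≤ L * ‖z‖ :=
  (a.le_opNorm z).trans (mul_le_mul_of_nonneg_right h (norm_nonneg _))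

lemma abd_b2 {b : B2 n} {L : ℝ} (h : ‖b‖ ≤ L) (z w : E n) : |b z w| ≤ L * ‖z‖ * ‖w‖ :=
  (b.le_opNorm₂ z w).trans (mul_le_mul_of_nonneg_right
    (mul_le_mul_of_nonneg_right h (norm_nonneg _)) (norm_nonneg _))

lemma abd_norm {a : B1 n} {b : B2 n} {L : ℝ} (hL : 0 ≤ L) (ha : ‖a‖ ≤ L) (hb : ‖b‖ ≤ L)
    {S : E n →L[ℝ] E n} (hS : ‖S‖ ≤ 2) {x : E n} (hx : ‖x‖ ≤ 1) :
    ‖a.comp S + b.flip (S x)‖ ≤ 4 * L := by
  refine ContinuousLinearMap.opNorm_le_bound _ (by positivity) fun ξ => ?_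
  rw [abd_apply, Real.norm_eq_abs]
  have h1 := abd_b1 ha (S ξ)
  have h2 := abd_b2 hb ξ (S x)
  have h3 := abd_S hS ξ
  have h4 : ‖S x‖ ≤ 2 := (abd_S hS x).trans (by linarith)
  have h5 : L * ‖S ξ‖ ≤ L * (2 * ‖ξ‖) := mul_le_mul_of_nonneg_left h3 hL
  have h6 : L * ‖ξ‖ * ‖S x‖ ≤ L * ‖ξ‖ * 2 := mul_le_mul_of_nonneg_left h4 (by positivity)
  have h7 := abs_add_le (a (S ξ)) (b ξ (S x))
  linarith

lemma abd_dd_nonneg {x : E n} (hx : x ∈ cB n) : 0 ≤ dd x := by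
  have h := mem_cB.1 hx
  have h0 := norm_nonneg x
  unfold dd
  nlinarith

lemma abd_rpow {d α : ℝ} (hd : 0 ≤ d) (hd2 : d ≤ 2) (h0 : 0 < α) (h1 : α < 1) :
    d ≤ 2 * d ^ α := by
  rcases hd.eq_or_lt with h | h
  · rw [← h, Real.zero_rpow h0.ne']
    norm_num
  · have e : d = d ^ (1 - α) * d ^ α := by
      rw [← Real.rpow_add h]
      simp
    have h2 : d ^ (1 - α) ≤ 2 := by
      calc d ^ (1 - α) ≤ (2 : ℝ) ^ (1 - α) := Real.rpow_le_rpow hd hd2 (by linarith)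
        _ ≤ (2 : ℝ) ^ (1 : ℝ) := Real.rpow_le_rpow_of_exponent_le (by norm_num) (by linarith)
        _ = 2 := Real.rpow_one _
    calc d = d ^ (1 - α) * d ^ α := e
      _ ≤ 2 * d ^ α := mul_le_mul_of_nonneg_right h2 (Real.rpow_nonneg hd _)

lemma abd_rpow2 {d α : ℝ} (hd : 1 / 2 ≤ d) (h0 : 0 < α) (h1 : α < 1) : 1 / 2 ≤ d ^ α := by
  calc (1 / 2 : ℝ) = (1 / 2 : ℝ) ^ (1 : ℝ) := (Real.rpow_one _).symm
    _ ≤ (1 / 2 : ℝ) ^ α :=
      Real.rpow_le_rpow_of_exponent_ge (by norm_num) (by norm_num) h1.le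
    _ ≤ d ^ α := Real.rpow_le_rpow (by norm_num) hd h0.le

lemma abd_rpow3 {d α : ℝ} (hd : 0 ≤ d) (h1 : α < 1) : (2 * d) ^ α ≤ 2 * d ^ α := by
  rw [Real.mul_rpow (by norm_num) hd]
  refine mul_le_mul_of_nonneg_right ?_ (Real.rpow_nonneg hd _)
  calc (2 : ℝ) ^ α ≤ (2 : ℝ) ^ (1 : ℝ) := Real.rpow_le_rpow_of_exponent_le (by norm_num) h1.le
    _ = 2 := Real.rpow_one _

/-- The field is a bounded solution in the open ball. -/
lemma abd_inner {lam Lam : ℝ} {u : E n → ℝ} {L : ℝ} (hL : 0 ≤ L) (hu3 : ContDiffOn ℝ 3 u (oB n))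
    (h2 : ∀ x ∈ cB n, ‖D2 (cB n) u x‖ ≤ L) {S : E n →L[ℝ] E n} (hS : ‖S‖ ≤ 2) {x : E n}
    (hx : x ∈ oB n) {l : B2 n →L[ℝ] ℝ} (hl : Ell lam Lam l)
    (he : ∀ e, |l (fderiv ℝ (DD u) x e)| ≤ L * ‖e‖) :
    ContDiffAt ℝ 2 (fun y => D1 (cB n) u y (S y)) x ∧
      |l (DD (fun y => D1 (cB n) u y (S y)) x)| ≤ (4 + 4 * |Lam|) * L := by
  have h3 : ContDiffAt ℝ 3 u x := hu3.contDiffAt (isOpen_oB.mem_nhds hx)
  have hev : (fun y => D1 (cB n) u y (S y)) =ᶠ[𝓝 x] fun y => fderiv ℝ u y (S y) := by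
    filter_upwards [D1_eventuallyEq u hx] with y hy
    rw [hy]
  refine ⟨(contDiffAt_field h3 S).congr_of_eventuallyEq hev, ?_⟩
  rw [DD_congr hev]
  have hf := DD_field h3 S
  have hD : ‖DD u x‖ ≤ L := by
    rw [← D2_eq u hx]
    exact h2 x (oB_sub hx)
  have hLam := ell_Lam hl
  have hx1 : ‖x‖ ≤ 1 := mem_cB.1 (oB_sub hx)
  have h4 : ‖S x‖ ≤ 2 := (abd_S hS x).trans (by linarith)
  have h5 := he (S x)
  have h6 := ell_abs hl (DD (fun y => fderiv ℝ u y (S y)) x - fderiv ℝ (DD u) x (S x))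
  rw [map_sub] at h6
  have h7 : 2 * ‖DD u x‖ * ‖S‖ ≤ 2 * L * 2 :=
    mul_le_mul (by linarith) hS (norm_nonneg _) (by positivity)
  have h8 := mul_le_mul_of_nonneg_left (hf.trans h7) hLam
  have h9 : L * ‖S x‖ ≤ L * 2 := mul_le_mul_of_nonneg_left h4 hL
  have h10 := abs_add_le (l (DD (fun y => fderiv ℝ u y (S y)) x) - l (fderiv ℝ (DD u) x (S x)))
    (l (fderiv ℝ (DD u) x (S x)))
  rw [sub_add_cancel] at h10
  rw [abs_of_nonneg hLam]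
  nlinarith

/-- The infinitesimal rotation in the plane spanned by `x` and `τ`. -/
lemma abd_rot {x τ : E n} (hx : ‖x‖ = 1) (hτ : ‖τ‖ = 1) (h : inner ℝ x τ = 0) :
    ∃ S : E n →L[ℝ] E n, ‖S‖ ≤ 2 ∧ (∀ z, inner ℝ z (S z) = 0) ∧ S x = τ := by
  have ha : ∀ z, ((II n x).smulRight τ - (II n τ).smulRight x) z =
      (inner ℝ x z : ℝ) • τ - (inner ℝ τ z : ℝ) • x := fun z => rfl
  refine ⟨(II n x).smulRight τ - (II n τ).smulRight x, ?_, fun z => ?_, ?_⟩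
  · refine (norm_sub_le _ _).trans ?_
    rw [ContinuousLinearMap.norm_smulRight_apply, ContinuousLinearMap.norm_smulRight_apply,
      norm_II_apply, norm_II_apply, hx, hτ]
    norm_num
  · rw [ha, inner_sub_right, real_inner_smul_right, real_inner_smul_right, real_inner_comm z x,
      real_inner_comm z τ]
    ring
  · rw [ha, real_inner_self_eq_norm_sq, hx, real_inner_comm, h]
    simp

/-- Let `g x = D1 u x (S x)`, with derivative `ξ ↦ D2 u x ξ (S x) + D1 u x (S ξ)` within `cB n` (`hasD2`,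
`HasFDerivWithinAt.clm_apply`), of norm at most `4 L`. It vanishes on the sphere (`tangent_zero`), so
`|g| ≤ 4 L dd` (`abs_le_dd`), and `|l (DD g x)| ≤ (2 + 4 |Lam|) L` (`D1_eventuallyEq`, `DD_field`). For
`‖y - x‖ ≤ 1 / 2`, `y ≠ x`, use `krylov` with `r = 2 ‖y - x‖` and `normal_bounds` at `x` and at `y`; note
`D1 u y (S y) = 0`. Otherwise use the bound on `D2`. -/
theorem normal_holder (hn : 0 < n) {lam : ℝ} (hlam : 0 < lam) (Lam : ℝ) :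
    ∃ α C : ℝ, 0 < α ∧ α < 1 ∧ 0 ≤ C ∧ ∀ (u : E n → ℝ) (L : ℝ), 0 ≤ L → ContDiffOn ℝ 2 u (cB n) →
      ContDiffOn ℝ 3 u (oB n) → (∀ x ∈ sB n, u x = 0) → (∀ x ∈ cB n, ‖D1 (cB n) u x‖ ≤ L) →
      (∀ x ∈ cB n, ‖D2 (cB n) u x‖ ≤ L) →
      (∀ x ∈ oB n, ∃ l : B2 n →L[ℝ] ℝ, Ell lam Lam l ∧
        ∀ e, |l (fderiv ℝ (DD u) x e)| ≤ L * ‖e‖) →
      ∀ S : E n →L[ℝ] E n, ‖S‖ ≤ 2 → (∀ x, inner ℝ x (S x) = 0) → ∀ x ∈ sB n, ∀ y ∈ sB n,
        |D2 (cB n) u y y (S y) - D2 (cB n) u x x (S x)| ≤ C * L * ‖y - x‖ ^ α := by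
  obtain ⟨α, C, hα0, hα1, hC, hK⟩ := krylov (n := n) hlam Lam
  refine ⟨α, 4 * C * (4 + 4 * |Lam|) + 8, hα0, hα1, by positivity, ?_⟩
  intro u L hL hu hu3 h0 h1 h2 hl S hS hS0 x hx y hy
  have hz := abd_zero hu h0 S hS0
  have hx1 : ‖x‖ = 1 := mem_sB.1 hx
  have hy1 : ‖y‖ = 1 := mem_sB.1 hy
  have hd0 : 0 ≤ ‖y - x‖ ^ α := Real.rpow_nonneg (norm_nonneg _) _
  have hA : 0 ≤ 4 * C * (4 + 4 * |Lam|) * L * ‖y - x‖ ^ α := by positivity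
  have hB : 0 ≤ 8 * L * ‖y - x‖ ^ α := by positivity
  have hsplit : (4 * C * (4 + 4 * |Lam|) + 8) * L * ‖y - x‖ ^ α =
      4 * C * (4 + 4 * |Lam|) * L * ‖y - x‖ ^ α + 8 * L * ‖y - x‖ ^ α := by ring
  rw [hsplit]
  by_cases hfar : 1 / 2 ≤ ‖y - x‖
  · have e1 := abd_b2 (h2 y (sB_sub hy)) y (S y)
    have e2 := abd_b2 (h2 x (sB_sub hx)) x (S x)
    have e3 := abd_S hS x
    have e4 := abd_S hS y
    rw [hy1, mul_one] at e1 e4
    rw [hx1, mul_one] at e2 e3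
    have e5 := abd_rpow2 hfar hα0 hα1
    have e6 : L * ‖S x‖ ≤ L * 2 := mul_le_mul_of_nonneg_left e3 hL
    have e7 : L * ‖S y‖ ≤ L * 2 := mul_le_mul_of_nonneg_left e4 hL
    have e8 : 8 * L * (1 / 2) ≤ 8 * L * ‖y - x‖ ^ α := mul_le_mul_of_nonneg_left e5 (by positivity)
    have e9 := abs_sub (D2 (cB n) u y y (S y)) (D2 (cB n) u x x (S x))
    linarith
  rcases eq_or_ne y x with hyx | hyx
  · rw [hyx, sub_self, abs_zero]
    rw [hyx] at hA hB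
    linarith
  have hd : 0 < ‖y - x‖ := norm_pos_iff.2 (sub_ne_zero.2 hyx)
  have hfar' : ‖y - x‖ < 1 / 2 := not_le.1 hfar
  have hL' : 0 ≤ (4 + 4 * |Lam|) * L := by positivity
  have hcont : ContinuousOn (fun y => D1 (cB n) u y (S y)) (cB n) := fun z hz =>
    (abd_hasD hu S hz).continuousWithinAt
  have hlip : ∀ a ∈ cB n, ∀ b ∈ cB n,
      |D1 (cB n) u a (S a) - D1 (cB n) u b (S b)| ≤ 4 * L * ‖a - b‖ := fun a ha b hb =>
    convex_cB.norm_image_sub_le_of_norm_hasFDerivWithin_le (fun z hz => abd_hasD hu S hz)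
      (fun z hz => abd_norm hL (h1 z hz) (h2 z hz) hS (mem_cB.1 hz)) hb ha
  have hdd := abs_le_dd hn (g := fun y => D1 (cB n) u y (S y)) hlip (by positivity) hz
  have hdd' : ∀ z ∈ cB n, |D1 (cB n) u z (S z)| ≤ (4 + 4 * |Lam|) * L * dd z := fun z hz =>
    (hdd z hz).trans (mul_le_mul_of_nonneg_right
      (mul_le_mul_of_nonneg_right (by linarith [abs_nonneg Lam]) hL) (abd_dd_nonneg hz))
  obtain ⟨m, M, -, -, hmM, hq⟩ := hK (fun y => D1 (cB n) u y (S y)) ((4 + 4 * |Lam|) * L) hL' hcont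
    hdd' (fun z hz => by
      obtain ⟨l, hl1, hl2⟩ := hl z hz
      obtain ⟨k1, k2⟩ := abd_inner hL hu3 h2 hS hz hl1 hl2
      exact ⟨k1, l, hl1, k2⟩) x hx (2 * ‖y - x‖) (by positivity) (by linarith)
  have hev : ∀ z : E n, ‖z - x‖ < 2 * ‖y - x‖ → ∀ᶠ w in 𝓝[cB n] z,
      m * dd w ≤ D1 (cB n) u w (S w) ∧ D1 (cB n) u w (S w) ≤ M * dd w := fun z hz => by
    have hb : closedBall x (2 * ‖y - x‖) ∈ 𝓝 z :=
      closedBall_mem_nhds_of_mem (by rwa [mem_ball, dist_eq_norm])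
    filter_upwards [self_mem_nhdsWithin, mem_nhdsWithin_of_mem_nhds hb] with w hw1 hw2
    exact hq w ⟨hw1, hw2⟩
  have n1 := normal_bounds hx (abd_hasD hu S (sB_sub hx)) (hev x (by rw [sub_self, norm_zero]; positivity))
  have n2 := normal_bounds hy (abd_hasD hu S (sB_sub hy)) (hev y (by linarith))
  rw [abd_apply, hz x hx, zero_add] at n1
  rw [abd_apply, hz y hy, zero_add] at n2
  have e1 := mul_le_mul_of_nonneg_left (abd_rpow3 hd.le hα1)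
    (show 0 ≤ C * ((4 + 4 * |Lam|) * L) by positivity)
  rw [abs_le]
  constructor <;> nlinarith [n1.1, n1.2, n2.1, n2.2]

/-- The function `g x = D1 u x (S x)` vanishes on the sphere; apply `tangent_zero` to `g` and the vector
`ξ - ⟪y, ξ⟫ • y`. -/
theorem D2_field {u : E n → ℝ} (hu : ContDiffOn ℝ 2 u (cB n)) (h0 : ∀ x ∈ sB n, u x = 0)
    (S : E n →L[ℝ] E n) (hS : ∀ x, inner ℝ x (S x) = 0) {y : E n} (hy : y ∈ sB n) (ξ : E n) :
    D2 (cB n) u y ξ (S y) = inner ℝ y ξ * D2 (cB n) u y y (S y) - D1 (cB n) u y (S ξ) := by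
  have hz := abd_zero hu h0 S hS
  have hy1 : ‖y‖ = 1 := mem_sB.1 hy
  have hτ : inner ℝ y (ξ - (inner ℝ y ξ : ℝ) • y) = 0 := by
    rw [inner_sub_right, real_inner_smul_right, real_inner_self_eq_norm_sq, hy1]
    ring
  have h := tangent_zero hy (abd_hasD hu S (sB_sub hy)) hz hτ
  rw [abd_apply] at h
  simp only [map_sub, map_smul, sub_apply, smul_apply,
    smul_eq_mul, hz y hy] at h
  linarith

/-- For a unit vector `τ` orthogonal to `x` take `S z = ⟪x, z⟫ • τ - ⟪τ, z⟫ • x`, so `S x = τ`. Write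
`D2 u y ξ τ = D2 u y ξ (S y) + D2 u y ξ (S (x - y))`, use `D2_field` at `x` and `y`, `normal_holder`, `lip_D1` and
`‖y - x‖ ≤ 2 * ‖y - x‖ ^ α` (as `‖y - x‖ ≤ 2`). -/
theorem tangential_holder (hn : 0 < n) {lam : ℝ} (hlam : 0 < lam) (Lam : ℝ) :
    ∃ α C : ℝ, 0 < α ∧ α < 1 ∧ 0 ≤ C ∧ ∀ (u : E n → ℝ) (L : ℝ), 0 ≤ L → ContDiffOn ℝ 2 u (cB n) →
      ContDiffOn ℝ 3 u (oB n) → (∀ x ∈ sB n, u x = 0) → (∀ x ∈ cB n, ‖D1 (cB n) u x‖ ≤ L) →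
      (∀ x ∈ cB n, ‖D2 (cB n) u x‖ ≤ L) →
      (∀ x ∈ oB n, ∃ l : B2 n →L[ℝ] ℝ, Ell lam Lam l ∧
        ∀ e, |l (fderiv ℝ (DD u) x e)| ≤ L * ‖e‖) →
      ∀ x ∈ sB n, ∀ y ∈ sB n, ∀ ξ τ, inner ℝ x τ = 0 →
        |(D2 (cB n) u y - D2 (cB n) u x) ξ τ| ≤ C * L * ‖y - x‖ ^ α * ‖ξ‖ * ‖τ‖ := by
  obtain ⟨α, C, hα0, hα1, hC, hN⟩ := normal_holder hn hlam Lam
  refine ⟨α, C + 12, hα0, hα1, by positivity, ?_⟩
  intro u L hL hu hu3 h0 h1 h2 hl x hx y hy ξ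
  have hx1 : ‖x‖ = 1 := mem_sB.1 hx
  have hy1 : ‖y‖ = 1 := mem_sB.1 hy
  have key : ∀ τ : E n, inner ℝ x τ = 0 → ‖τ‖ = 1 →
      |(D2 (cB n) u y - D2 (cB n) u x) ξ τ| ≤ (C + 12) * L * ‖y - x‖ ^ α * ‖ξ‖ := by
    intro τ hτ hτ1
    obtain ⟨S, hS, hS0, hSx⟩ := abd_rot hx1 hτ1 hτ
    have f1 := D2_field hu h0 S hS0 hx ξ
    have f2 := D2_field hu h0 S hS0 hy ξ
    have f3 := hN u L hL hu hu3 h0 h1 h2 hl S hS hS0 x hx y hy
    have hd2 : ‖y - x‖ ≤ 2 := (norm_sub_le _ _).trans (by linarith)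
    have hr := abd_rpow (norm_nonneg _) hd2 hα0 hα1
    have hξ := norm_nonneg ξ
    have hd := norm_nonneg (y - x)
    have e : (D2 (cB n) u y - D2 (cB n) u x) ξ τ =
        inner ℝ y ξ * (D2 (cB n) u y y (S y) - D2 (cB n) u x x (S x)) +
          inner ℝ (y - x) ξ * D2 (cB n) u x x (S x) -
          (D1 (cB n) u y - D1 (cB n) u x) (S ξ) - D2 (cB n) u y ξ (S (y - x)) := by
      rw [← hSx]
      simp only [sub_apply, map_sub, inner_sub_left]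
      rw [f1, f2]
      ring
    have b1 : |inner ℝ y ξ * (D2 (cB n) u y y (S y) - D2 (cB n) u x x (S x))| ≤
        ‖ξ‖ * (C * L * ‖y - x‖ ^ α) := by
      rw [abs_mul]
      refine mul_le_mul ?_ f3 (abs_nonneg _) hξ
      simpa [hy1] using abs_real_inner_le_norm y ξ
    have b2 : |inner ℝ (y - x) ξ * D2 (cB n) u x x (S x)| ≤ ‖y - x‖ * ‖ξ‖ * L := by
      rw [abs_mul]
      refine mul_le_mul (abs_real_inner_le_norm _ _) ?_ (abs_nonneg _) (by positivity)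
      have := abd_b2 (h2 x (sB_sub hx)) x (S x)
      rwa [hx1, mul_one, show ‖S x‖ = 1 by rw [hSx, hτ1], mul_one] at this
    have b3 : |(D1 (cB n) u y - D1 (cB n) u x) (S ξ)| ≤ L * ‖y - x‖ * (2 * ‖ξ‖) :=
      (abd_b1 (lip_D1 hu h2 y (sB_sub hy) x (sB_sub hx)) (S ξ)).trans
        (mul_le_mul_of_nonneg_left (abd_S hS ξ) (by positivity))
    have b4 : |D2 (cB n) u y ξ (S (y - x))| ≤ L * ‖ξ‖ * (2 * ‖y - x‖) :=
      (abd_b2 (h2 y (sB_sub hy)) ξ _).trans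
        (mul_le_mul_of_nonneg_left (abd_S hS _) (by positivity))
    have b5 : 5 * (L * ‖ξ‖) * ‖y - x‖ ≤ 5 * (L * ‖ξ‖) * (2 * ‖y - x‖ ^ α) :=
      mul_le_mul_of_nonneg_left hr (by positivity)
    have b6 : 0 ≤ L * ‖ξ‖ * ‖y - x‖ ^ α := by positivity
    rw [e]
    rw [abs_le] at b1 b2 b3 b4 ⊢
    constructor <;> nlinarith [b1.1, b1.2, b2.1, b2.2, b3.1, b3.2, b4.1, b4.2]
  intro τ hτ
  rcases eq_or_ne τ 0 with h | h
  · simp [h]
  have hpos : 0 < ‖τ‖ := norm_pos_iff.2 h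
  have k := key (‖τ‖⁻¹ • τ) (by rw [real_inner_smul_right, hτ, mul_zero])
    (by rw [norm_smul, norm_inv, norm_norm, inv_mul_cancel₀ hpos.ne'])
  rw [map_smul, smul_eq_mul, abs_mul, abs_inv, abs_norm, inv_mul_le_iff₀ hpos] at k
  linarith

end Pool.Agent.Mink.A
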