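import Pool.Agent.Lib.MP_88c759_an.Mink.ABd

/-! The second derivatives of a solution on the sphere. -/

set_option maxSynthPendingDepth 3

namespace Pool.Agent.Mink.A

open scoped ContDiff Topology
open Set Metric Filter MeasureTheory

variable {n : ℕ}

lemma abd2_le_rpow {d α : ℝ} (h0 : 0 ≤ d) (h2 : d ≤ 2) (hα : 0 < α) (hα1 : α < 1) :
    d ≤ 2 * d ^ α := by
  have h1 : d ^ (1 - α) ≤ 2 :=
    (Real.rpow_le_rpow h0 h2 (by linarith)).trans
      ((Real.rpow_le_rpow_of_exponent_le one_le_two (by linarith : 1 - α ≤ 1)).trans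
        (Real.rpow_one 2).le)
  calc d = d ^ ((1 - α) + α) := by rw [sub_add_cancel, Real.rpow_one]
    _ = d ^ (1 - α) * d ^ α := Real.rpow_add' h0 (by rw [sub_add_cancel]; exact one_ne_zero)
    _ ≤ 2 * d ^ α := mul_le_mul_of_nonneg_right h1 (Real.rpow_nonneg h0 _)

lemma abd2_diffAt {v : E n → ℝ} {x : E n} (hv : ContDiffAt ℝ 3 v x) :
    DifferentiableAt ℝ (DD v) x := by
  have h1 : ContDiffAt ℝ 2 (fderiv ℝ v) x := hv.fderiv_right (by norm_num)
  have h2 : ContDiffAt ℝ 1 (fderiv ℝ (fderiv ℝ v)) x := h1.fderiv_right (by norm_num)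
  exact h2.differentiableAt one_ne_zero

lemma abd2_fderiv_sub {v φ : E n → ℝ} {x : E n} (hv : ContDiffAt ℝ 3 v x)
    (hφ : ContDiff ℝ 3 φ) :
    fderiv ℝ (DD (fun y => v y - φ y)) x = fderiv ℝ (DD v) x - fderiv ℝ (DD φ) x := by
  have h1 : DD (fun y => v y - φ y) =ᶠ[𝓝 x] fun y => DD v y - DD φ y := by
    filter_upwards [hv.eventually (by simp)] with y hy
    exact DD_sub (hy.of_le (by norm_num)) (hφ.contDiffAt.of_le (by norm_num))
  rw [h1.fderiv_eq]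
  exact fderiv_sub (abd2_diffAt hv) (abd2_diffAt hφ.contDiffAt)

/-- Apply `tangential_holder` to `u = v - φ` with `L = C + M + |Lam| M` (`D1_sub`, `D2_sub`; near a point of
`oB n` one has `DD u = DD v - DD φ`). `DD φ` is Lipschitz on `cB n` with constant `M`. Finish with
`norm_le_of_tangential` for `X = D2 v y - D2 v x`, `l x`, `l y` and `Data.tan`. -/
theorem sphere_holder (hn : 0 < n) {lam : ℝ} (hlam : 0 < lam) (Lam : ℝ) {C M : ℝ} (hC : 0 ≤ C)
    (hM : 0 ≤ M) : ∃ α C' : ℝ, 0 < α ∧ α < 1 ∧ 0 ≤ C' ∧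
      ∀ (v φ : E n → ℝ) (l : E n → B2 n →L[ℝ] ℝ), Data lam Lam C v l → ContDiff ℝ 3 φ →
        (∀ x ∈ cB n, ‖fderiv ℝ φ x‖ ≤ M ∧ ‖DD φ x‖ ≤ M ∧ ‖fderiv ℝ (DD φ) x‖ ≤ M) →
        (∀ x ∈ sB n, v x = φ x) → ∀ x ∈ sB n, ∀ y ∈ sB n,
          ‖D2 (cB n) v x - D2 (cB n) v y‖ ≤ C' * ‖x - y‖ ^ α := by
  obtain ⟨α, C0, hα, hα1, hC0, H⟩ := tangential_holder hn hlam Lam
  have hLM : 0 ≤ |Lam| * M := mul_nonneg (abs_nonneg _) hM
  obtain ⟨L, hL⟩ : ∃ L, L = C + M + |Lam| * M := ⟨_, rfl⟩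
  have hL0 : 0 ≤ L := by rw [hL]; positivity
  obtain ⟨s, hs⟩ : ∃ s, s = C0 * L + 2 * M := ⟨_, rfl⟩
  have hs0 : 0 ≤ s := by rw [hs]; positivity
  refine ⟨α, 2 * s + (|Lam| * (2 * s) + 2 * C) / lam, hα, hα1, by positivity, ?_⟩
  intro v φ l hD hφ hb h0 x hx y hy
  have hφ2 : ContDiff ℝ 2 φ := hφ.of_le (by norm_num)
  have hT := H (fun z => v z - φ z) L hL0 (hD.c2.sub hφ2.contDiffOn)
    ((hD.c4.of_le (by norm_num)).sub hφ.contDiffOn) (fun z hz => by rw [h0 z hz, sub_self])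
    (fun z hz => by
      rw [D1_sub hD.c2 hφ2 hz]
      have h1 := hD.b1 z hz
      have h2 := (hb z hz).1
      exact (norm_sub_le _ _).trans (by linarith))
    (fun z hz => by
      rw [D2_sub hD.c2 hφ2 hz]
      have h1 := hD.b2 z hz
      have h2 := (hb z hz).2.1
      exact (norm_sub_le _ _).trans (by linarith))
    (fun z hz => ⟨l z, hD.ell z (oB_sub hz), fun e => by
      have hv : ContDiffAt ℝ 3 v z :=
        (hD.c4.contDiffAt (isOpen_oB.mem_nhds hz)).of_le (by norm_num)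
      rw [abd2_fderiv_sub hv hφ, sub_apply, map_sub]
      have h1 := hD.d1 z hz e
      have h2 := ell_abs (hD.ell z (oB_sub hz)) (fderiv ℝ (DD φ) z e)
      have h3 : ‖fderiv ℝ (DD φ) z e‖ ≤ M * ‖e‖ :=
        (fderiv ℝ (DD φ) z).le_of_opNorm_le (hb z (oB_sub hz)).2.2 e
      have h4 : Lam * ‖fderiv ℝ (DD φ) z e‖ ≤ |Lam| * (M * ‖e‖) :=
        mul_le_mul (le_abs_self _) h3 (norm_nonneg _) (abs_nonneg _)
      have h5 : 0 ≤ M * ‖e‖ := mul_nonneg hM (norm_nonneg _)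
      refine (abs_sub _ _).trans ?_
      rw [hL]
      linarith⟩) x hx y hy
  have hxc := sB_sub hx
  have hyc := sB_sub hy
  have hlip : ‖DD φ y - DD φ x‖ ≤ M * ‖y - x‖ :=
    convex_cB.norm_image_sub_le_of_norm_fderiv_le (fun z _ => abd2_diffAt hφ.contDiffAt)
      (fun z hz => (hb z hz).2.2) hxc hyc
  have hd : ‖y - x‖ ≤ 2 * ‖y - x‖ ^ α := by
    refine abd2_le_rpow (norm_nonneg _) ((norm_sub_le _ _).trans ?_) hα hα1
    rw [mem_sB.1 hx, mem_sB.1 hy]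
    norm_num
  obtain ⟨P, hP⟩ : ∃ P, P = ‖y - x‖ ^ α := ⟨_, rfl⟩
  have hP0 : 0 ≤ P := by rw [hP]; positivity
  rw [← hP] at hd hT
  have hX : Sym (D2 (cB n) v y - D2 (cB n) v x) := fun a b => by
    simp only [sub_apply]
    rw [sym_D2 hD.c2 hyc a b, sym_D2 hD.c2 hxc a b]
  have hCd : C * ‖y - x‖ ≤ 2 * C * P := by nlinarith
  have key := norm_le_of_tangential hlam (hD.ell x hxc) (hD.ell y hyc) hX (mem_sB.1 hx)
    (s := s * P) (ρ := 2 * C * P) (mul_nonneg hs0 hP0) (fun ξ τ hτ => by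
      have h1 := hT ξ τ hτ
      rw [D2_sub hD.c2 hφ2 hxc, D2_sub hD.c2 hφ2 hyc] at h1
      have h2 : |(DD φ y - DD φ x) ξ τ| ≤ 2 * M * P * ‖ξ‖ * ‖τ‖ := by
        refine ((DD φ y - DD φ x).le_opNorm₂ ξ τ).trans ?_
        have h3 : ‖DD φ y - DD φ x‖ ≤ 2 * M * P := by nlinarith
        gcongr
      have e : (D2 (cB n) v y - D2 (cB n) v x) ξ τ =
          (D2 (cB n) v y - DD φ y - (D2 (cB n) v x - DD φ x)) ξ τ + (DD φ y - DD φ x) ξ τ := by
        simp only [sub_apply]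
        ring
      rw [e, hs]
      refine (abs_add_le _ _).trans ?_
      linarith)
    (by linarith [hD.tan y hyc x hxc])
    (by
      have h1 := hD.tan x hxc y hyc
      rw [norm_sub_rev, ← neg_sub (D2 (cB n) v y), map_neg] at h1
      linarith)
  rw [norm_sub_rev, norm_sub_rev x y, ← hP]
  refine key.trans ?_
  have h6 : Lam * (2 * (s * P)) ≤ |Lam| * (2 * (s * P)) :=
    mul_le_mul_of_nonneg_right (le_abs_self _) (by positivity)
  rw [add_mul, div_mul_eq_mul_div]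
  refine add_le_add (le_of_eq (by ring)) (div_le_div_of_nonneg_right ?_ hlam.le)
  linarith

end Pool.Agent.Mink.A
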