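import Pool.Agent.Lib.MP_88c759_an.Mink.ADefs

/-! Measure estimates for expanding maps and for maps with bounded derivative. -/

set_option maxSynthPendingDepth 3

namespace Pool.Agent.Mink.A

open scoped ContDiff Topology
open Set Metric Filter MeasureTheory

variable {n : ℕ}

/-- `volume` is a multiple of the Hausdorff measure `μH[finrank]` (both are additive Haar measures,
`isAddLeftInvariant_eq_smul`); `LipschitzOnWith.hausdorffMeasure_image_le`. -/
theorem volume_image_le_of_lip {f : E n → E n} {s : Set (E n)} {K : NNReal}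
    (h : LipschitzOnWith K f s) : volume (f '' s) ≤ (K : ENNReal) ^ n * volume s := by
  have h1 := h.hausdorffMeasure_image_le (d := (n : ℝ)) (Nat.cast_nonneg n)
  rw [ENNReal.rpow_natCast] at h1
  rw [← EuclideanSpace.euclideanHausdorffMeasure_eq_volume n,
    Measure.euclideanHausdorffMeasure_def, Measure.smul_apply, Measure.smul_apply,
    ENNReal.smul_def, ENNReal.smul_def, smul_eq_mul, smul_eq_mul, mul_left_comm]
  exact mul_le_mul_right h1 _

/-- The inverse (`Function.invFunOn`) of an expanding map is Lipschitz. No measurability is needed. -/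
theorem volume_le_of_expanding {f : E n → E n} {s : Set (E n)}
    (h : ∀ x ∈ s, ∀ y ∈ s, ‖x - y‖ ≤ 2 * ‖f x - f y‖) : volume s ≤ 2 ^ n * volume (f '' s) := by
  have hinj : InjOn f s := by
    intro x hx y hy hxy
    have h1 := h x hx y hy
    rw [hxy, sub_self, norm_zero, mul_zero] at h1
    exact sub_eq_zero.1 (norm_le_zero_iff.1 h1)
  have hl : LipschitzOnWith 2 (Function.invFunOn f s) (f '' s) := by
    refine LipschitzOnWith.of_dist_le_mul ?_
    rintro _ ⟨x, hx, rfl⟩ _ ⟨y, hy, rfl⟩
    rw [hinj.leftInvOn_invFunOn hx, hinj.leftInvOn_invFunOn hy, dist_eq_norm, dist_eq_norm]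
    exact_mod_cast h x hx y hy
  have h2 := volume_image_le_of_lip hl
  rw [hinj.invFunOn_image subset_rfl] at h2
  exact_mod_cast h2

/-- `addHaar_image_le_lintegral_abs_det_fderiv`; the determinant is bounded on the compact set of
operators of norm at most `L` (`ContinuousLinearMap.continuous_det`). -/
theorem exists_area (L : ℝ) : ∃ C : NNReal, ∀ (f : E n → E n) (s : Set (E n)), MeasurableSet s →
    (∀ x ∈ s, ∃ f' : E n →L[ℝ] E n, HasFDerivAt f f' x ∧ ‖f'‖ ≤ L) →
    volume (f '' s) ≤ C * volume s := by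
  have hK : IsCompact (closedBall (0 : E n →L[ℝ] E n) L) := isCompact_closedBall _ _
  obtain ⟨C, hC⟩ := hK.exists_bound_of_continuousOn
    (ContinuousLinearMap.continuous_det (𝕜 := ℝ) (E := E n)).continuousOn
  refine ⟨C.toNNReal, fun f s hs hf => ?_⟩
  choose! f' hf' using hf
  refine (addHaar_image_le_lintegral_abs_det_fderiv volume hs
    (fun x hx => (hf' x hx).1.hasFDerivWithinAt)).trans ?_
  rw [← setLIntegral_const]
  refine setLIntegral_mono' hs fun x hx => ?_
  exact ENNReal.ofReal_le_ofReal (hC _ (mem_closedBall_zero_iff.2 (hf' x hx).2))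

theorem volume_closedBall_mul (x y : E n) {r c : ℝ} (hr : 0 < r) (hc : 0 < c) :
    volume (closedBall x (c * r)) = ENNReal.ofReal (c ^ n) * volume (ball y r) := by
  rw [Measure.addHaar_closedBall volume x (mul_pos hc hr).le,
    Measure.addHaar_ball_of_pos volume y hr, finrank_euclideanSpace_fin, mul_pow,
    ENNReal.ofReal_mul (pow_nonneg hc.le n), mul_assoc]

/-- A ball is covered by finitely many sets. -/
theorem exists_large {ι : Type*} (s : Finset ι) (A : ι → Set (E n)) (x : E n) {r : ℝ} (hr : 0 < r)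
    (h : ∀ y ∈ ball x r, ∃ i ∈ s, y ∈ A i) :
    ∃ i ∈ s, ENNReal.ofReal (1 / s.card) * volume (ball x r) ≤ volume (ball x r ∩ A i) := by
  obtain ⟨i0, hi0, -⟩ := h x (mem_ball_self hr)
  obtain ⟨i, hi, hmax⟩ := s.exists_max_image (fun i => volume (ball x r ∩ A i)) ⟨i0, hi0⟩
  refine ⟨i, hi, ?_⟩
  have hc : (0 : ℝ) < s.card := by exact_mod_cast Finset.card_pos.2 ⟨i0, hi0⟩
  have h1 : volume (ball x r) ≤ s.card * volume (ball x r ∩ A i) := by
    calc volume (ball x r) ≤ volume (⋃ j ∈ s, ball x r ∩ A j) := by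
          refine measure_mono fun y hy => ?_
          obtain ⟨j, hj, hy'⟩ := h y hy
          exact mem_iUnion₂.2 ⟨j, hj, hy, hy'⟩
      _ ≤ ∑ j ∈ s, volume (ball x r ∩ A j) := measure_biUnion_finset_le _ _
      _ ≤ s.card • volume (ball x r ∩ A i) := Finset.sum_le_card_nsmul _ _ _ hmax
      _ = s.card * volume (ball x r ∩ A i) := nsmul_eq_mul _ _
  calc ENNReal.ofReal (1 / s.card) * volume (ball x r)
      ≤ ENNReal.ofReal (1 / s.card) * (s.card * volume (ball x r ∩ A i)) :=
        mul_le_mul_right h1 _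
    _ = volume (ball x r ∩ A i) := by
        rw [← mul_assoc, ← ENNReal.ofReal_natCast, ← ENNReal.ofReal_mul (by positivity),
          one_div_mul_cancel hc.ne', ENNReal.ofReal_one, one_mul]

/-- The ball with centre `(1 + r / 2) • x` and radius `r / 2` lies outside of the unit ball. -/
theorem volume_outside {x : E n} (hx : x ∈ sB n) {r : ℝ} (hr : 0 < r) :
    ENNReal.ofReal ((1 / 2) ^ n) * volume (ball x r) ≤ volume (ball x r \ cB n) := by
  have hx1 : ‖x‖ = 1 := mem_sB.1 hx
  have hr2 : 0 < r / 2 := by positivity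
  have h1 : volume (ball ((1 + r / 2) • x) (1 / 2 * r))
      = ENNReal.ofReal ((1 / 2) ^ n) * volume (ball x r) := by
    rw [Measure.addHaar_ball_mul_of_pos volume _ (by norm_num : (0 : ℝ) < 1 / 2),
      finrank_euclideanSpace_fin, Measure.addHaar_ball_center volume x]
  rw [← h1]
  refine measure_mono fun y hy => ?_
  rw [mem_ball, dist_eq_norm] at hy
  have h2 : ‖(1 + r / 2) • x‖ = 1 + r / 2 := by
    rw [norm_smul, hx1, mul_one, Real.norm_of_nonneg (by positivity)]
  have h3 : ‖(r / 2) • x‖ = r / 2 := by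
    rw [norm_smul, hx1, mul_one, Real.norm_of_nonneg hr2.le]
  constructor
  · rw [mem_ball, dist_eq_norm]
    have h4 : y - x = (y - (1 + r / 2) • x) + (r / 2) • x := by
      rw [add_smul, one_smul]; abel
    have h5 := norm_add_le (y - (1 + r / 2) • x) ((r / 2) • x)
    rw [h4]
    linarith
  · intro hy'
    have h4 := mem_cB.1 hy'
    have h5 := norm_sub_norm_le ((1 + r / 2) • x) y
    rw [norm_sub_rev] at h5
    linarith

end Pool.Agent.Mink.A
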