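import Pool.Agent.Lib.MP_88c759_an.Mink.ADD
import Pool.Agent.Lib.MP_88c759_an.Mink.AMeas

/-! Contact sets of paraboloids. -/

set_option maxSynthPendingDepth 3

namespace Pool.Agent.Mink.A

open scoped ContDiff Topology
open Set Metric Filter MeasureTheory

variable {n : ℕ}

variable {D B : Set (E n)} {w : E n → ℝ}

/-- The image under `Prod.fst` of a closed subset of `D ×ˢ B`. -/
theorem isCompact_cont (hD : IsCompact D) (hB : IsCompact B) (hw : ContinuousOn w D) (a : ℝ) :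
    IsCompact (Cont D B w a) := by
  have h : Cont D B w a = Prod.fst '' ((D ×ˢ B) ∩ ⋂ z ∈ D, (D ×ˢ B) ∩
      (fun q : E n × E n => w q.1 + a / 2 * ‖q.1 - q.2‖ ^ 2 - a / 2 * ‖z - q.2‖ ^ 2) ⁻¹'
        Iic (w z)) := by
    ext x
    constructor
    · rintro ⟨hx, y, hy, h⟩
      refine ⟨(x, y), ⟨⟨hx, hy⟩, mem_iInter₂.2 fun z hz => ⟨⟨hx, hy⟩, ?_⟩⟩, rfl⟩
      have := h z hz
      simp only [mem_preimage, mem_Iic]
      linarith
    · rintro ⟨⟨x, y⟩, ⟨⟨hx, hy⟩, h⟩, rfl⟩
      refine ⟨hx, y, hy, fun z hz => ?_⟩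
      have := (mem_iInter₂.1 h z hz).2
      simp only [mem_preimage, mem_Iic] at this
      linarith
  rw [h]
  refine ((hD.prod hB).inter_right (isClosed_biInter fun z _ => ?_)).image continuous_fst
  refine ContinuousOn.preimage_isClosed_of_isClosed ?_ (hD.prod hB).isClosed isClosed_Iic
  exact ((hw.comp continuousOn_fst fun q hq => hq.1).add (by fun_prop)).sub (by fun_prop)

/-- The derivative at an interior contact point. -/
theorem fderiv_cont {a : ℝ} {x y : E n} (hD : D ∈ 𝓝 x) (hw : DifferentiableAt ℝ w x)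
    (h : ∀ z ∈ D, w x + a / 2 * ‖x - y‖ ^ 2 ≤ w z + a / 2 * ‖z - y‖ ^ 2) :
    fderiv ℝ w x = -(a • II n (x - y)) := by
  have h1 : IsLocalMin (fun z => w z + a / 2 * ‖z - y‖ ^ 2) x := mem_of_superset hD h
  have h2 := (hw.hasFDerivAt.add ((hasFDerivAt_normsq y x).const_mul (a / 2))).fderiv
  have h3 := h1.fderiv_eq_zero
  rw [show (fun z => w z + a / 2 * ‖z - y‖ ^ 2) = w + fun z => a / 2 * ‖z - y‖ ^ 2 from rfl, h2,
    smul_smul, div_mul_cancel₀ _ two_ne_zero] at h3
  exact eq_neg_of_add_eq_zero_left h3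

lemma acont_sq (x y z : E n) :
    ‖z - y‖ ^ 2 = ‖z - x‖ ^ 2 + 2 * inner ℝ (z - x) (x - y) + ‖x - y‖ ^ 2 := by
  rw [← norm_add_sq_real, sub_add_sub_cancel]

lemma acont_vertex {a a' : ℝ} {x y y' : E n} (hD : D ∈ 𝓝 x) (hw : DifferentiableAt ℝ w x)
    (h : ∀ z ∈ D, w x + a / 2 * ‖x - y‖ ^ 2 ≤ w z + a / 2 * ‖z - y‖ ^ 2)
    (h' : ∀ z ∈ D, w x + a' / 2 * ‖x - y'‖ ^ 2 ≤ w z + a' / 2 * ‖z - y'‖ ^ 2) :
    a • (x - y) = a' • (x - y') := by
  have e := neg_injective ((fderiv_cont hD hw h).symm.trans (fderiv_cont hD hw h'))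
  rw [← map_smul, ← map_smul, ← sub_eq_zero, ← map_sub, ← norm_eq_zero, norm_II_apply, norm_eq_zero,
    sub_eq_zero] at e
  exact e

/-- The openings for which `x` is a contact point form an interval. If `y1`, `y2` are the vertices then
`a1 • (x - y1) = a2 • (x - y2)` by `fderiv_cont`; the vertex `y = x - (a1 / a) • (x - y1)` lies on the
segment from `y1` to `y2`, and `‖x - y‖ ^ 2 - ‖z - y‖ ^ 2 = -‖z - x‖ ^ 2 - 2 ⟪z - x, x - y⟫`. -/
theorem cont_between (hB : Convex ℝ B) {a1 a a2 : ℝ} (h0 : 0 < a1) (h1 : a1 ≤ a) (h2 : a ≤ a2)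
    {x : E n} (hD : D ∈ 𝓝 x) (hw : DifferentiableAt ℝ w x) (hx1 : x ∈ Cont D B w a1)
    (hx2 : x ∈ Cont D B w a2) : x ∈ Cont D B w a := by
  obtain ⟨hx, y1, hy1, k1⟩ := hx1
  obtain ⟨-, y2, hy2, k2⟩ := hx2
  have ha : 0 < a := h0.trans_le h1
  have ha2 : 0 < a2 := ha.trans_le h2
  have e := acont_vertex hD hw k1 k2
  rcases (h1.trans h2).eq_or_lt with h12 | h12
  · obtain rfl : a1 = a := le_antisymm h1 (h12 ▸ h2)
    exact ⟨hx, y1, hy1, k1⟩
  have hd : 0 < a2 - a1 := sub_pos.2 h12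
  refine ⟨hx, x - (a1 / a) • (x - y1), ?_, fun z hz => ?_⟩
  · have e2 : y2 = x - (a1 / a2) • (x - y1) := by
      rw [div_eq_inv_mul, mul_smul, e, smul_smul, inv_mul_cancel₀ ha2.ne', one_smul, sub_sub_cancel]
    have := hB hy1 hy2 (a := a1 * (a2 - a) / (a * (a2 - a1))) (b := a2 * (a - a1) / (a * (a2 - a1)))
      (div_nonneg (mul_nonneg h0.le (sub_nonneg.2 h2)) (by positivity))
      (div_nonneg (mul_nonneg ha2.le (sub_nonneg.2 h1)) (by positivity)) (by field_simp; ring)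
    convert this using 1
    rw [e2]
    match_scalars
    · field_simp
    · field_simp
      ring
  · have k := k1 z hz
    have s1 := acont_sq x y1 z
    have s2 := acont_sq x (x - (a1 / a) • (x - y1)) z
    rw [sub_sub_cancel, inner_smul_right] at s2
    have s3 : a * (a1 / a * inner ℝ (z - x) (x - y1)) = a1 * inner ℝ (z - x) (x - y1) := by
      field_simp
    rw [sub_sub_cancel, s2]
    rw [s1] at k
    nlinarith [sq_nonneg ‖z - x‖]

/-- A monotone selection of vertices. Let `m y` be the minimum over `z ∈ D` of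
`w z + a / 2 * ‖z - y‖ ^ 2` (continuous in `y`, `IsCompact.continuous_sInf` or a direct Lipschitz bound on
`B`), and let `p x ∈ B` maximise `m y - a / 2 * ‖x - y‖ ^ 2`. If `x'` is a contact point with vertex
`y'` then `y'` is a maximiser for `x'`: `m y - a / 2 * ‖x' - y‖ ^ 2 ≤ w x' = m y' - a / 2 * ‖x' - y'‖ ^ 2`.
Adding the inequalities for two maximisers gives the monotonicity. -/
theorem exists_selection (hD : IsCompact D) (hD0 : D.Nonempty) (hB : IsCompact B)
    (hB0 : B.Nonempty) (hw : ContinuousOn w D) {a : ℝ} (ha : 0 < a) :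
    ∃ p : E n → E n, (∀ x, p x ∈ B) ∧ (∀ x x', 0 ≤ inner ℝ (x - x') (p x - p x')) ∧
      ∀ x, ∀ x' ∈ D, ∀ y' ∈ B,
        (∀ z ∈ D, w x' + a / 2 * ‖x' - y'‖ ^ 2 ≤ w z + a / 2 * ‖z - y'‖ ^ 2) →
        0 ≤ inner ℝ (x - x') (p x - y') := by
  have h1 : ∀ y : E n, ∃ z ∈ D, IsMinOn (fun z => w z + a / 2 * ‖z - y‖ ^ 2) D z := fun y =>
    hD.exists_isMinOn hD0 (hw.add (by fun_prop))
  choose q hq hq' using h1
  set m : E n → ℝ := fun y => w (q y) + a / 2 * ‖q y - y‖ ^ 2 with hm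
  have hle : ∀ y, ∀ z ∈ D, m y ≤ w z + a / 2 * ‖z - y‖ ^ 2 := fun y z hz => hq' y hz
  obtain ⟨R1, hR1⟩ := hD.isBounded.exists_norm_le
  obtain ⟨R2, hR2⟩ := hB.isBounded.exists_norm_le
  have hmc : ContinuousOn m B := by
    refine (LipschitzOnWith.of_le_add_mul' (a * (R1 + R2)) fun y hy y' hy' => ?_).continuousOn
    have k := hle y _ (hq y')
    have k1 : ‖q y' - y‖ ≤ R1 + R2 := (norm_sub_le _ _).trans (add_le_add (hR1 _ (hq _)) (hR2 _ hy))
    have k2 : ‖q y' - y'‖ ≤ R1 + R2 :=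
      (norm_sub_le _ _).trans (add_le_add (hR1 _ (hq _)) (hR2 _ hy'))
    have k3 : ‖q y' - y‖ - ‖q y' - y'‖ ≤ dist y y' := by
      rw [← dist_eq_norm, ← dist_eq_norm, dist_comm y]
      linarith [dist_triangle (q y') y' y]
    have k4 : ‖q y' - y‖ ^ 2 - ‖q y' - y'‖ ^ 2 ≤ 2 * (R1 + R2) * dist y y' := by
      nlinarith [norm_nonneg (q y' - y), norm_nonneg (q y' - y'), dist_nonneg (x := y) (y := y')]
    simp only [hm] at k ⊢
    nlinarith
  have h2 : ∀ x : E n, ∃ y ∈ B, IsMaxOn (fun y => m y - a / 2 * ‖x - y‖ ^ 2) B y := fun x =>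
    hB.exists_isMaxOn hB0 (hmc.sub (by fun_prop))
  choose p hp hp' using h2
  have key : ∀ x x' y', m y' - a / 2 * ‖x - y'‖ ^ 2 ≤ m (p x) - a / 2 * ‖x - p x‖ ^ 2 →
      m (p x) - a / 2 * ‖x' - p x‖ ^ 2 ≤ m y' - a / 2 * ‖x' - y'‖ ^ 2 →
      0 ≤ inner ℝ (x - x') (p x - y') := by
    intro x x' y' k1 k2
    simp only [norm_sub_sq_real] at k1 k2
    simp only [inner_sub_left, inner_sub_right]
    refine nonneg_of_mul_nonneg_right (a := a) ?_ ha
    linarith
  refine ⟨p, hp, fun x x' => key x x' _ (hp' x (hp x')) (hp' x' (hp x)),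
    fun x x' hx' y' hy' h => key x x' y' (hp' x hy') ?_⟩
  have k1 := hle (p x) x' hx'
  have k2 := h _ (hq y')
  simp only [hm] at k1 ⊢
  linarith

/-- One step. Let `p` be as in `exists_selection` and `f x = midpoint x (p x) ∈ B` for
`x ∈ B \ Cont a`; `f` is expanding (`volume_le_of_expanding`). Let `x'` minimise
`w z + a * ‖z - f x‖ ^ 2` on `D`, so `x' ∈ Cont (2 a)` and `f x = T x'` with
`T z = z + (2 a)⁻¹ • gradient w z` (`fderiv_cont`). If `x' ∈ Cont a` with vertex `y'` then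
`x' + y' = 2 f x = x + p x`, so `x = x'` by monotonicity, which is impossible. At points of `Cont (2 a)`
the form `DD w x' + (2 a) • II` is positive semidefinite (`psd_of_isLocalMin`), so its norm is at most
`(K + 2 a Lam) / lam`, and `T` has a derivative of norm at most `(1 + |Lam|) / lam` (`exists_area`). -/
theorem cont_step {lam : ℝ} (hlam : 0 < lam) (Lam : ℝ) : ∃ C : NNReal,
    ∀ (D B : Set (E n)) (w : E n → ℝ) (a K : ℝ), IsCompact D → D.Nonempty → IsCompact B →
      Convex ℝ B → ContinuousOn w D → 0 < a → K ≤ a →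
      (∀ x ∈ Cont D B w (2 * a), D ∈ 𝓝 x ∧ Sup lam Lam K w x) →
      volume (B \ Cont D B w a) ≤ C * volume (Cont D B w (2 * a) \ Cont D B w a) := by
  obtain ⟨C, hC⟩ := exists_area (n := n) ((1 + |Lam|) / lam)
  refine ⟨2 ^ n * C, fun D B w a K hD hD0 hB hBc hw ha hK hs => ?_⟩
  rcases B.eq_empty_or_nonempty with rfl | hB0
  · simp
  obtain ⟨p, hp, hp1, hp2⟩ := exists_selection hD hD0 hB hB0 hw ha
  set f : E n → E n := fun x => (1 / 2 : ℝ) • (x + p x) with hf
  obtain ⟨Φ, hΦ1, hΦ2⟩ : ∃ Φ : B1 n →L[ℝ] E n, (∀ x, Φ (II n x) = x) ∧ ∀ g, ‖Φ g‖ = ‖g‖ :=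
    ⟨(InnerProductSpace.toDual ℝ (E n)).symm.toLinearIsometry.toContinuousLinearMap,
      fun x => (InnerProductSpace.toDual ℝ (E n)).symm_apply_apply x,
      fun g => (InnerProductSpace.toDual ℝ (E n)).symm.norm_map g⟩
  set T : E n → E n := fun z => z + (2 * a)⁻¹ • Φ (fderiv ℝ w z) with hT
  have h1 : volume (B \ Cont D B w a) ≤ 2 ^ n * volume (f '' (B \ Cont D B w a)) := by
    refine volume_le_of_expanding fun x _ x' _ => ?_
    have e : f x - f x' = (1 / 2 : ℝ) • ((x - x') + (p x - p x')) := by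
      simp only [hf]
      module
    rw [e, norm_smul, Real.norm_of_nonneg (by norm_num), ← mul_assoc, mul_one_div_cancel two_ne_zero,
      one_mul]
    refine le_of_sq_le_sq ?_ (norm_nonneg _)
    rw [norm_add_sq_real]
    linarith [hp1 x x', sq_nonneg ‖p x - p x'‖]
  have h2 : f '' (B \ Cont D B w a) ⊆ T '' (Cont D B w (2 * a) \ Cont D B w a) := by
    rintro _ ⟨x, ⟨hx, hx'⟩, rfl⟩
    have hfx : f x ∈ B := by
      have := hBc hx (hp x) (a := 1 / 2) (b := 1 / 2) (by norm_num) (by norm_num) (by norm_num)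
      rwa [← smul_add] at this
    obtain ⟨z, hz, hz'⟩ := hD.exists_isMinOn hD0
      (f := fun z => w z + 2 * a / 2 * ‖z - f x‖ ^ 2) (hw.add (by fun_prop))
    have hc : z ∈ Cont D B w (2 * a) := ⟨hz, f x, hfx, fun z' h => hz' h⟩
    obtain ⟨hn, hd, -⟩ := hs z hc
    have hd' := hd.differentiableAt two_ne_zero
    refine ⟨z, ⟨hc, ?_⟩, ?_⟩
    · rintro ⟨-, y, hy, k⟩
      have e := acont_vertex hn hd' k fun z' h => hz' h
      rw [mul_comm, mul_smul] at e
      have e1 : p x - y = -(x - z) := by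
        have e2 := smul_right_injective _ ha.ne' e
        simp only [hf] at e2
        linear_combination (norm := module) e2
      have k2 := hp2 x z hz y hy k
      rw [e1, inner_neg_right, real_inner_self_eq_norm_sq] at k2
      have : x = z := by
        rw [← sub_eq_zero, ← norm_eq_zero]
        exact pow_eq_zero_iff two_ne_zero |>.1 (le_antisymm (by linarith) (sq_nonneg _))
      exact hx' ⟨this ▸ hz, y, hy, this ▸ k⟩
    · simp only [hT]
      rw [fderiv_cont hn hd' fun z' h => hz' h, map_neg, map_smul, hΦ1, smul_neg, smul_smul,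
        inv_mul_cancel₀ (by positivity), one_smul]
      abel
  have h3 := hC T (Cont D B w (2 * a) \ Cont D B w a)
    ((isCompact_cont hD hB hw _).measurableSet.diff (isCompact_cont hD hB hw _).measurableSet)
    fun x hx => by
      obtain ⟨hn, hd, l, hl, hlK⟩ := hs x hx.1
      obtain ⟨-, y, -, k⟩ := hx.1
      have hq : ContDiffAt ℝ 2 (fun z : E n => ‖z - y‖ ^ 2) x :=
        (contDiff_infty.1 (contDiff_normsq y) 2).contDiffAt
      have hpsd := psd_of_isLocalMin (f := fun z => w z + 2 * a / 2 * ‖z - y‖ ^ 2)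
        (hd.add (contDiffAt_const.mul hq)) (mem_of_superset hn k)
      rw [DD_add hd (contDiffAt_const.mul hq), DD_const_mul _ hq, DD_normsq, smul_smul,
        div_mul_cancel₀ _ two_ne_zero] at hpsd
      have hb := hl.1 _ hpsd
      rw [map_add, map_smul, smul_eq_mul] at hb
      have hI := (le_abs_self _).trans ((ell_II hl).trans (le_abs_self Lam))
      have hd2 : HasFDerivAt (fderiv ℝ w) (DD w x) x :=
        ((hd.fderiv_right (m := 1) (by norm_num)).differentiableAt one_ne_zero).hasFDerivAt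
      refine ⟨_, (hasFDerivAt_id x).add ((Φ.hasFDerivAt.comp x hd2).const_smul (2 * a)⁻¹), ?_⟩
      refine ContinuousLinearMap.opNorm_le_bound _ (by positivity) fun ξ => ?_
      have e : (ContinuousLinearMap.id ℝ (E n) + (2 * a)⁻¹ • Φ.comp (DD w x)) ξ =
          (2 * a)⁻¹ • Φ ((DD w x + (2 * a) • II n) ξ) := by
        rw [add_apply, add_apply, map_add, smul_add,
          smul_apply, smul_apply, map_smul, hΦ1, smul_smul,
          inv_mul_cancel₀ (by positivity), one_smul, add_comm]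
        rfl
      rw [e, norm_smul, hΦ2, Real.norm_of_nonneg (by positivity), inv_mul_le_iff₀ (by positivity),
        ← mul_assoc]
      refine (ContinuousLinearMap.le_opNorm _ _).trans
        (mul_le_mul_of_nonneg_right ?_ (norm_nonneg _))
      rw [← mul_div_assoc, le_div_iff₀ hlam]
      nlinarith
  refine h1.trans ?_
  push_cast
  rw [mul_assoc]
  exact mul_le_mul_right ((measure_mono h2).trans h3) _

end Pool.Agent.Mink.A
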