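import Pool.Agent.Lib.MP_88c759_an.Mink.ADefs

/-! Rules for second derivatives. -/

set_option maxSynthPendingDepth 3

namespace Pool.Agent.Mink.A

open scoped ContDiff Topology
open Set Metric Filter MeasureTheory

variable {n : ℕ}

variable {f g : E n → ℝ} {x : E n}

theorem add_ev (hf : ContDiffAt ℝ 2 f x) : ∀ᶠ y in 𝓝 x, HasFDerivAt f (fderiv ℝ f y) y :=
  (hf.eventually (by simp)).mono fun _ hy => (hy.differentiableAt (by simp)).hasFDerivAt

theorem add_d2 (hf : ContDiffAt ℝ 2 f x) : HasFDerivAt (fderiv ℝ f) (DD f x) x :=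
  ((hf.fderiv_right (m := 1) (by norm_num)).differentiableAt (by simp)).hasFDerivAt

theorem add_of_ev {G : E n → B1 n} {r : B2 n} (h1 : ∀ᶠ y in 𝓝 x, HasFDerivAt f (G y) y)
    (h2 : HasFDerivAt G r x) : DD f x = r :=
  (h2.congr_of_eventuallyEq (h1.mono fun _ hy => hy.fderiv)).fderiv

theorem DD_congr (h : f =ᶠ[𝓝 x] g) : DD f x = DD g x := by
  exact h.fderiv.fderiv_eq

theorem DD_sym (hf : ContDiffAt ℝ 2 f x) : Sym (DD f x) := by
  exact fun v w => (hf.isSymmSndFDerivAt (by simp)).eq v w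

theorem DD_const (c : ℝ) (x : E n) : DD (fun _ : E n => c) x = 0 := by
  exact add_of_ev (G := fun _ => 0) (Eventually.of_forall fun y => hasFDerivAt_const c y)
    (hasFDerivAt_const _ _)

theorem DD_add (hf : ContDiffAt ℝ 2 f x) (hg : ContDiffAt ℝ 2 g x) :
    DD (fun y => f y + g y) x = DD f x + DD g x := by
  exact add_of_ev (((add_ev hf).and (add_ev hg)).mono fun _ hy => hy.1.fun_add hy.2)
    ((add_d2 hf).fun_add (add_d2 hg))

theorem DD_sub (hf : ContDiffAt ℝ 2 f x) (hg : ContDiffAt ℝ 2 g x) :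
    DD (fun y => f y - g y) x = DD f x - DD g x := by
  exact add_of_ev (((add_ev hf).and (add_ev hg)).mono fun _ hy => hy.1.fun_sub hy.2)
    ((add_d2 hf).fun_sub (add_d2 hg))

theorem DD_const_mul (c : ℝ) (hf : ContDiffAt ℝ 2 f x) :
    DD (fun y => c * f y) x = c • DD f x := by
  exact add_of_ev ((add_ev hf).mono fun _ hy => hy.const_mul c) ((add_d2 hf).fun_const_smul c)

theorem DD_sum {ι : Type*} (s : Finset ι) {F : ι → E n → ℝ} (hF : ∀ i ∈ s, ContDiffAt ℝ 2 (F i) x) :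
    DD (fun y => ∑ i ∈ s, F i y) x = ∑ i ∈ s, DD (F i) x := by
  refine add_of_ev (G := fun y => ∑ i ∈ s, fderiv ℝ (F i) y) ?_
    (HasFDerivAt.fun_sum fun i hi => add_d2 (hF i hi))
  exact ((Finset.eventually_all s).2 fun i hi => add_ev (hF i hi)).mono fun _ hy =>
    HasFDerivAt.fun_sum hy

/-- Chain rule: near `x` the first derivative is `φ' (f y) • fderiv f y`. -/
theorem DD_comp (hf : ContDiffAt ℝ 2 f x) {φ φ' : ℝ → ℝ} {c : ℝ}
    (h1 : ∀ t, HasDerivAt φ (φ' t) t) (h2 : HasDerivAt φ' c (f x)) :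
    DD (fun y => φ (f y)) x = φ' (f x) • DD f x + c • tt (fderiv ℝ f x) := by
  have h3 := (h2.comp_hasFDerivAt x (add_ev hf).self_of_nhds).fun_smul (add_d2 hf)
  refine (add_of_ev ((add_ev hf).mono fun y hy => (h1 (f y)).comp_hasFDerivAt y hy) h3).trans ?_
  ext v w
  simp [tt, mul_assoc]

theorem DD_sq (hf : ContDiffAt ℝ 2 f x) :
    DD (fun y => f y ^ 2) x = (2 * f x) • DD f x + (2 : ℝ) • tt (fderiv ℝ f x) := by
  have h := DD_comp hf (φ := fun t => t ^ 2) (φ' := fun t => 2 * t) (c := 2)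
    (fun t => by simpa using hasDerivAt_pow 2 t) (by simpa using (hasDerivAt_id (f x)).const_mul 2)
  exact h

theorem contDiff_normsq (z : E n) : ContDiff ℝ ∞ fun y : E n => ‖y - z‖ ^ 2 := by
  exact (contDiff_norm_sq ℝ).comp (contDiff_id.sub contDiff_const)

theorem hasFDerivAt_normsq (z x : E n) :
    HasFDerivAt (fun y : E n => ‖y - z‖ ^ 2) ((2 : ℝ) • II n (x - z)) x := by
  refine ((hasFDerivAt_id x).sub_const z).norm_sq.congr_fderiv ?_
  rw [ContinuousLinearMap.comp_id, ← Nat.cast_smul_eq_nsmul ℝ]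
  rfl

theorem DD_normsq (z x : E n) : DD (fun y : E n => ‖y - z‖ ^ 2) x = (2 : ℝ) • II n := by
  refine add_of_ev (Eventually.of_forall fun y => hasFDerivAt_normsq z y) ?_
  have h := ((II n).hasFDerivAt.comp x ((hasFDerivAt_id x).sub_const z)).fun_const_smul (2 : ℝ)
  rw [ContinuousLinearMap.comp_id] at h
  exact h

theorem contDiff_dd : ContDiff ℝ ∞ (dd : E n → ℝ) := by
  exact contDiff_const.sub (contDiff_norm_sq ℝ)

theorem DD_dd (x : E n) : DD dd x = (-2 : ℝ) • II n := by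
  have h : ContDiffAt ℝ 2 (fun y : E n => ‖y - 0‖ ^ 2) x :=
    (contDiff_infty.1 (contDiff_normsq 0) 2).contDiffAt
  have h1 := DD_sub (contDiffAt_const (c := (1 : ℝ))) h
  rw [DD_const, DD_normsq, zero_sub, ← neg_smul] at h1
  simp only [sub_zero] at h1
  exact h1

/-- A real function `φ` with a local minimum at `0`, differentiable near `0`, whose derivative has
derivative `c` at `0`, has `0 ≤ c` (otherwise `φ'` has the sign of `-t` and `φ` decreases to the
right of `0`; mean value theorem, or `isLocalMax_of_deriv_deriv_neg`-type lemmas after adding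
a small multiple of `t ^ 2`). -/
theorem second_nonneg {φ φ' : ℝ → ℝ} {c : ℝ} (h1 : ∀ᶠ t in 𝓝 (0 : ℝ), HasDerivAt φ (φ' t) t)
    (h2 : HasDerivAt φ' c 0) (hmin : IsLocalMin φ 0) : 0 ≤ c := by
  by_contra hc
  have h0 : φ' 0 = 0 := hmin.hasDerivAt_eq_zero h1.self_of_nhds
  have h3 : ∀ᶠ t in 𝓝[>] (0 : ℝ), φ' t < 0 := by
    have h4 := (hasDerivAt_iff_tendsto_slope.1 h2).mono_left (nhdsGT_le_nhdsNE 0)
    filter_upwards [h4.eventually (gt_mem_nhds (not_le.1 hc)), self_mem_nhdsWithin] with t ht ht'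
    rw [slope_def_field, h0, sub_zero, sub_zero] at ht
    exact (div_neg_iff.1 ht).elim (fun h => absurd h.2 (not_lt.2 (le_of_lt ht'))) (fun h => h.1)
  obtain ⟨u, hu, h5⟩ := (nhdsGT_basis 0).eventually_iff.1 h3
  obtain ⟨ε, hε, h6⟩ := Metric.eventually_nhds_iff.1 (h1.and hmin)
  have h7 : 0 < min u ε / 2 := half_pos (lt_min hu hε)
  have h8 : min u ε / 2 < min u ε := half_lt_self (lt_min hu hε)
  have h9 : ∀ t ∈ Icc 0 (min u ε / 2), HasDerivAt φ (φ' t) t ∧ φ 0 ≤ φ t := fun t ht => h6 (by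
    rw [Real.dist_eq, sub_zero, abs_of_nonneg ht.1]
    exact ht.2.trans_lt (h8.trans_le (min_le_right _ _)))
  obtain ⟨t, ht, e⟩ := exists_hasDerivAt_eq_slope φ φ' h7
    (fun t ht => (h9 t ht).1.continuousAt.continuousWithinAt)
    (fun t ht => (h9 t (Ioo_subset_Icc_self ht)).1)
  have h10 : φ' t < 0 := h5 ⟨ht.1, ht.2.trans (h8.trans_le (min_le_left _ _))⟩
  rw [e, sub_zero] at h10
  exact absurd h10 (not_lt.2 (div_nonneg (sub_nonneg.2 (h9 _ ⟨h7.le, le_rfl⟩).2) h7.le))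

/-- Apply `second_nonneg` to `t ↦ f (x + t • v)`. -/
theorem psd_of_isLocalMin (hf : ContDiffAt ℝ 2 f x) (hmin : IsLocalMin f x) : Psd (DD f x) := by
  refine ⟨DD_sym hf, fun v => ?_⟩
  have h1 : ∀ t : ℝ, HasDerivAt (fun t : ℝ => x + t • v) v t := fun t => by
    simpa using ((hasDerivAt_id t).smul_const v).const_add x
  have h2 : Tendsto (fun t : ℝ => x + t • v) (𝓝 0) (𝓝 x) := by
    simpa using (h1 0).continuousAt.tendsto
  have e : x + (0 : ℝ) • v = x := by simp
  refine second_nonneg (φ := fun t => f (x + t • v)) (φ' := fun t => fderiv ℝ f (x + t • v) v)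
    ((h2.eventually (add_ev hf)).mono fun t ht => ht.comp_hasDerivAt t (h1 t)) ?_ ?_
  · have h3 : HasFDerivAt (fderiv ℝ f) (DD f x) (x + (0 : ℝ) • v) := by
      rw [e]
      exact add_d2 hf
    simpa using (h3.comp_hasDerivAt (0 : ℝ) (h1 0)).clm_apply (hasDerivAt_const (0 : ℝ) v)
  · refine (h2.eventually hmin).mono fun t ht => ?_
    show f (x + (0 : ℝ) • v) ≤ _
    rw [e]
    exact ht

end Pool.Agent.Mink.A
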