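import Pool.Agent.Lib.MP_88c759_an.Mink.AFam
import Pool.Agent.Lib.MP_88c759_an.Mink.ACalc
import Pool.Agent.Lib.MP_88c759_an.Mink.ASym

/-! Differentiating the equation. -/

set_option maxSynthPendingDepth 3

namespace Pool.Agent.Mink.A

open scoped ContDiff Topology
open Set Metric Filter MeasureTheory

variable {n : ℕ}

theorem adata_apply {V V' W : Type} [NormedAddCommGroup V] [NormedSpace ℝ V]
    [NormedAddCommGroup V'] [NormedSpace ℝ V'] [NormedAddCommGroup W] [NormedSpace ℝ W]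
    {f : V → V' →L[ℝ] W} {x : V} (hf : DifferentiableAt ℝ f x) (e : V') :
    HasFDerivAt (fun y => f y e) ((fderiv ℝ f x).flip e) x := by
  have h := hf.hasFDerivAt.clm_apply (hasFDerivAt_const e x)
  simpa using h

theorem adata_diff {V W : Type} [NormedAddCommGroup V] [NormedSpace ℝ V]
    [NormedAddCommGroup W] [NormedSpace ℝ W] {f : V → W} {x : V} (hf : ContDiffAt ℝ 2 f x) :
    DifferentiableAt ℝ (fderiv ℝ f) x ∧ ∀ᶠ y in 𝓝 x, DifferentiableAt ℝ f y :=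
  ⟨(hf.fderiv_right (m := 1) (by norm_num)).differentiableAt one_ne_zero,
    (hf.eventually (by simp)).mono fun _ hy => hy.differentiableAt two_ne_zero⟩

/-- Differentiate `G (J y) = 0` once, and `fderiv G (J y) (fderiv J y e) = 0` (true near `x`) once more. -/
theorem diff_comp_zero {V W : Type} [NormedAddCommGroup V] [NormedSpace ℝ V] [NormedAddCommGroup W]
    [NormedSpace ℝ W] {G : W → ℝ} {J : V → W} {x : V} (hG : ContDiffAt ℝ 2 G (J x))
    (hJ : ContDiffAt ℝ 2 J x) (h : ∀ᶠ y in 𝓝 x, G (J y) = 0) (e : V) :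
    fderiv ℝ G (J x) (fderiv ℝ J x e) = 0 ∧
      fderiv ℝ (fderiv ℝ G) (J x) (fderiv ℝ J x e) (fderiv ℝ J x e) +
        fderiv ℝ G (J x) (fderiv ℝ (fderiv ℝ J) x e e) = 0 := by
  have h1 : ∀ᶠ y in 𝓝 x, fderiv ℝ G (J y) (fderiv ℝ J y e) = 0 := by
    filter_upwards [h.eventually_nhds, (adata_diff hJ).2,
      hJ.continuousAt.eventually (adata_diff hG).2] with y hy hJy hGy
    have h2 : HasFDerivAt (fun z => G (J z)) ((fderiv ℝ G (J y)).comp (fderiv ℝ J y)) y :=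
      hGy.hasFDerivAt.comp y hJy.hasFDerivAt
    have h3 : HasFDerivAt (fun z => G (J z)) (0 : V →L[ℝ] ℝ) y :=
      (hasFDerivAt_const (0 : ℝ) y).congr_of_eventuallyEq hy
    exact DFunLike.congr_fun (h2.unique h3) e
  refine ⟨h1.self_of_nhds, ?_⟩
  have h2 : HasFDerivAt (fun y => fderiv ℝ G (J y))
      ((fderiv ℝ (fderiv ℝ G) (J x)).comp (fderiv ℝ J x)) x :=
    (adata_diff hG).1.hasFDerivAt.comp x (hJ.differentiableAt two_ne_zero).hasFDerivAt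
  have h3 := h2.clm_apply (adata_apply (adata_diff hJ).1 e)
  have h4 : HasFDerivAt (fun y => fderiv ℝ G (J y) (fderiv ℝ J y e)) (0 : V →L[ℝ] ℝ) x :=
    (hasFDerivAt_const (0 : ℝ) x).congr_of_eventuallyEq h1
  have h5 := DFunLike.congr_fun (h3.unique h4) e
  rw [add_comm]
  simpa using h5

/-- The derivatives of the jet map. -/
theorem jet_derivs {v : E n → ℝ} {x : E n} (hv : ContDiffAt ℝ 4 v x) (t : ℝ) (e : E n) :
    ContDiffAt ℝ 2 (fun y => ((t, DD v y, fderiv ℝ v y, v y, y) : ℝ × Jet n)) x ∧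
    fderiv ℝ (fun y => ((t, DD v y, fderiv ℝ v y, v y, y) : ℝ × Jet n)) x e =
      (0, fderiv ℝ (DD v) x e, DD v x e, fderiv ℝ v x e, e) ∧
    fderiv ℝ (fderiv ℝ fun y => ((t, DD v y, fderiv ℝ v y, v y, y) : ℝ × Jet n)) x e e =
      (0, fderiv ℝ (fderiv ℝ (DD v)) x e e, fderiv ℝ (DD v) x e e, DD v x e e, 0) := by
  have h3 : ContDiffAt ℝ 3 (fderiv ℝ v) x := hv.fderiv_right (by norm_num)
  have h2 : ContDiffAt ℝ 2 (DD v) x := h3.fderiv_right (by norm_num)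
  have h3' : ContDiffAt ℝ 2 (fderiv ℝ v) x := h3.of_le (by norm_num)
  have h4' : ContDiffAt ℝ 2 v x := hv.of_le (by norm_num)
  have hJ : ContDiffAt ℝ 2 (fun y => ((t, DD v y, fderiv ℝ v y, v y, y) : ℝ × Jet n)) x :=
    contDiffAt_const.prodMk (h2.prodMk (h3'.prodMk (h4'.prodMk contDiffAt_id)))
  have h1 : ∀ᶠ y in 𝓝 x,
      fderiv ℝ (fun y => ((t, DD v y, fderiv ℝ v y, v y, y) : ℝ × Jet n)) y e =
        (0, fderiv ℝ (DD v) y e, DD v y e, fderiv ℝ v y e, e) := by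
    filter_upwards [(adata_diff h2).2, (adata_diff h3').2, (adata_diff h4').2] with y a b c
    exact DFunLike.congr_fun ((hasFDerivAt_const t y).prodMk (a.hasFDerivAt.prodMk
      (b.hasFDerivAt.prodMk (c.hasFDerivAt.prodMk (hasFDerivAt_id y))))).fderiv e
  refine ⟨hJ, h1.self_of_nhds, ?_⟩
  have h5 := (hasFDerivAt_const (0 : ℝ) x).prodMk ((adata_apply (adata_diff h2).1 e).prodMk
    ((adata_apply (adata_diff h3').1 e).prodMk ((adata_apply (adata_diff h4').1 e).prodMk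
      (hasFDerivAt_const e x))))
  exact DFunLike.congr_fun
    ((adata_apply (adata_diff hJ).1 e).unique (h5.congr_of_eventuallyEq h1)) e

theorem adata_d2 {W : Type} [NormedAddCommGroup W] [NormedSpace ℝ W] (F1 : W →L[ℝ] ℝ)
    (F2 : W →L[ℝ] W →L[ℝ] ℝ) (a b c d : W) {C N : ℝ} (h : F2 (a + b) (a + b) + F1 (c + d) = 0)
    (haa : F2 a a ≤ 0) (h1 : ‖F1‖ ≤ C) (h2 : ‖F2‖ ≤ C) (ha : ‖a‖ ≤ N) (hb : ‖b‖ ≤ C)
    (hd : ‖d‖ ≤ N + C) (hC : 1 ≤ C) : -(3 * C ^ 3 * (1 + N)) ≤ F1 c := by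
  have hN : 0 ≤ N := (norm_nonneg _).trans ha
  have hC0 : 0 ≤ C := zero_le_one.trans hC
  have k1 : F2 a b ≤ C * N * C :=
    (le_abs_self _).trans ((F2.le_opNorm₂ a b).trans (by gcongr))
  have k2 : F2 b a ≤ C * C * N :=
    (le_abs_self _).trans ((F2.le_opNorm₂ b a).trans (by gcongr))
  have k3 : F2 b b ≤ C * C * C :=
    (le_abs_self _).trans ((F2.le_opNorm₂ b b).trans (by gcongr))
  have k4 : F1 d ≤ C * (N + C) := (le_abs_self _).trans ((F1.le_opNorm d).trans (by gcongr))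
  simp only [map_add, add_apply] at h
  have k5 : C ^ 2 ≤ C ^ 3 := pow_le_pow_right₀ hC (by norm_num)
  have k6 : C ≤ C ^ 3 := le_self_pow₀ hC (by norm_num)
  nlinarith [mul_le_mul_of_nonneg_right k5 hN, mul_le_mul_of_nonneg_right k6 hN]

theorem adata_norm {a : ℝ} {r : B2 n} {p : B1 n} {z : ℝ} {x : E n} {M : ℝ} (h1 : |a| ≤ M)
    (h2 : ‖r‖ ≤ M) (h3 : ‖p‖ ≤ M) (h4 : |z| ≤ M) (h5 : ‖x‖ ≤ M) :
    ‖((a, r, p, z, x) : ℝ × Jet n)‖ ≤ M :=
  norm_prod_le_iff.2 ⟨h1, norm_prod_le_iff.2 ⟨h2, norm_prod_le_iff.2 ⟨h3,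
    norm_prod_le_iff.2 ⟨h4, h5⟩⟩⟩⟩

theorem adata_jet {v : E n → ℝ} {x : E n} (hx : x ∈ oB n) :
    jet (cB n) v x = (DD v x, fderiv ℝ v x, v x, x) := by
  rw [jet, D2_eq v hx, D1_eq v hx]

theorem adata_tan {A : Set (ℝ × Jet n)} {F : ℝ × Jet n → ℝ} (hF : Fam A F) {t C ε : ℝ}
    (ht : t ∈ Icc (0 : ℝ) 1) {φ v : E n → ℝ} (hv : Sol A F t φ v) (hC : 1 ≤ C)
    (b1 : ∀ x ∈ cB n, ‖D1 (cB n) v x‖ ≤ C) (b2 : ∀ x ∈ cB n, ‖D2 (cB n) v x‖ ≤ C) {x y : E n}
    (hx : x ∈ cB n) (hy : y ∈ cB n) (hA : closedBall (t, jet (cB n) v x) ε ⊆ A)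
    (hD : ∀ q ∈ closedBall (t, jet (cB n) v x) ε, ‖fderiv ℝ F q‖ ≤ C) (hxy : C * ‖x - y‖ ≤ ε) :
    -(C * (C * ‖x - y‖)) ≤ lin F (t, jet (cB n) v y) (D2 (cB n) v x - D2 (cB n) v y) := by
  have hC0 : 0 ≤ C := zero_le_one.trans hC
  have h0 : 0 ≤ C * ‖x - y‖ := mul_nonneg hC0 (norm_nonneg _)
  have h1 : ‖((t, jet (cB n) v x) : ℝ × Jet n) - (t, D2 (cB n) v x, D1 (cB n) v y, v y, y)‖ ≤
      C * ‖x - y‖ :=
    adata_norm (a := t - t) (r := D2 (cB n) v x - D2 (cB n) v x) (by rwa [sub_self, abs_zero])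
      (by rwa [sub_self, norm_zero])
      (lip_D1 hv.c2 b2 x hx y hy) (lip_D0 hv.c2 b1 x hx y hy)
      (le_mul_of_one_le_left (norm_nonneg _) hC)
  have h2 : ((t, D2 (cB n) v x, D1 (cB n) v y, v y, y) : ℝ × Jet n) ∈
      closedBall (t, jet (cB n) v x) ε := mem_closedBall_iff_norm'.2 (h1.trans hxy)
  have h3 := Convex.norm_image_sub_le_of_norm_fderiv_le (𝕜 := ℝ) (f := F)
    (fun q hq => (hF.smooth.contDiffAt (hF.isOpen.mem_nhds (hA hq))).differentiableAt (by simp))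
    hD (convex_closedBall _ ε) h2 (mem_closedBall_self (h0.trans hxy))
  have h4 := fam_tangent hF ht hy (sym_D2 hv.c2 hy) (sym_D2 hv.c2 hx) (hv.mem y hy) (hA h2)
  have h5 : F (t, D2 (cB n) v y, D1 (cB n) v y, v y, y) = 0 := hv.eq y hy
  rw [hv.eq x hx, zero_sub, norm_neg] at h3
  have h6 := (abs_le.1 (h3.trans (mul_le_mul_of_nonneg_left h1 hC0))).1
  rw [h5, zero_add] at h4
  exact h6.trans h4

theorem adata_eqs {A : Set (ℝ × Jet n)} {F : ℝ × Jet n → ℝ} (hF : Fam A F) {t : ℝ}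
    {φ v : E n → ℝ} (hv : Sol A F t φ v) {x : E n} (hx : x ∈ oB n) (e : E n) :
    fderiv ℝ F (t, jet (cB n) v x)
      (ins n (fderiv ℝ (DD v) x e) + (0, 0, DD v x e, fderiv ℝ v x e, e)) = 0 ∧
    fderiv ℝ (fderiv ℝ F) (t, jet (cB n) v x)
      (ins n (fderiv ℝ (DD v) x e) + (0, 0, DD v x e, fderiv ℝ v x e, e))
      (ins n (fderiv ℝ (DD v) x e) + (0, 0, DD v x e, fderiv ℝ v x e, e)) +
      fderiv ℝ F (t, jet (cB n) v x) (ins n (fderiv ℝ (fderiv ℝ (DD v)) x e e) +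
        (0, 0, fderiv ℝ (DD v) x e e, DD v x e e, 0)) = 0 := by
  obtain ⟨k1, k2, k3⟩ := jet_derivs (hv.c4.contDiffAt (isOpen_oB.mem_nhds hx)) t e
  have hm := hv.mem x (oB_sub hx)
  rw [adata_jet hx] at hm ⊢
  have h := diff_comp_zero (G := F)
    (J := fun y => ((t, DD v y, fderiv ℝ v y, v y, y) : ℝ × Jet n)) (x := x)
    ((hF.smooth.contDiffAt (hF.isOpen.mem_nhds hm)).of_le
      (WithTop.coe_le_coe.2 (le_top (a := (2 : ℕ∞))))) k1 ?_ e
  · rw [k2, k3] at h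
    simpa only [ins_apply, Prod.mk_add_mk, add_zero, zero_add] using h
  · filter_upwards [isOpen_oB.mem_nhds hx] with y hy
    rw [← adata_jet hy]
    exact hv.eq y (oB_sub hy)

/-- Take `l x = lin F (t, jet (cB n) v x)` and the constants of `fam_consts`. `tan`: if
`C ‖x - y‖ ≤ ε` then the jet of `v` at `y` with `D2 v y` replaced by `D2 v x` lies in the ball of radius
`C ‖x - y‖` around the jet at `x` (`lip_D0`, `lip_D1`), so `F ≥ -C * C ‖x - y‖` there (mean value inequality on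
the ball); `fam_tangent`. Otherwise `|l y (..)| ≤ 2 C ^ 2 ≤ 2 C ^ 3 / ε * ‖x - y‖`. `d1`, `d2`: `diff_comp_zero`,
`jet_derivs`; write `fderiv J x e = ins X + b` with `X` symmetric (`D3_sym`), `‖b‖ ≤ C ‖e‖`, expand and use
`fam_second`. -/
theorem exists_data {A : Set (ℝ × Jet n)} {F : ℝ × Jet n → ℝ} (hF : Fam A F)
    {K : Set (ℝ × Jet n)} (hK : IsCompact K) (hKA : K ⊆ A) :
    ∃ lam Lam C : ℝ, 0 < lam ∧ 0 ≤ C ∧ ∀ t ∈ Icc (0 : ℝ) 1, ∀ φ v : E n → ℝ, Sol A F t φ v →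
      (∀ x ∈ cB n, (t, jet (cB n) v x) ∈ K) → ∃ l, Data lam Lam C v l := by
  obtain ⟨lam, C, ε, hlam, hC, hε, H⟩ := fam_consts hF hK hKA
  have hC0 : 0 ≤ C := zero_le_one.trans hC
  have k5 : C ^ 2 ≤ C ^ 3 := pow_le_pow_right₀ hC (by norm_num)
  have k6 : C ≤ C ^ 3 := le_self_pow₀ hC (by norm_num)
  have k7 : 0 ≤ 2 * C ^ 3 / ε := by positivity
  refine ⟨lam, C, 3 * C ^ 3 + 2 * C ^ 3 / ε, hlam, by positivity, fun t ht φ v hv hq =>
    ⟨fun x => lin F (t, jet (cB n) v x), ?_⟩⟩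
  have b1 : ∀ x ∈ cB n, ‖D1 (cB n) v x‖ ≤ C := fun x hx =>
    (norm_prod_le_iff.1 (norm_prod_le_iff.1 (norm_prod_le_iff.1 (H _ (hq x hx)).1).2).2).1
  have b2 : ∀ x ∈ cB n, ‖D2 (cB n) v x‖ ≤ C := fun x hx =>
    (norm_prod_le_iff.1 (norm_prod_le_iff.1 (H _ (hq x hx)).1).2).1
  have hell : ∀ x ∈ cB n, Ell lam C (lin F (t, jet (cB n) v x)) := fun x hx =>
    (H _ (hq x hx)).2.2.2.2 ht hx (sym_D2 hv.c2 hx)
  have hb : ∀ x ∈ oB n, ∀ e : E n,
      ‖((0, 0, DD v x e, fderiv ℝ v x e, e) : ℝ × Jet n)‖ ≤ C * ‖e‖ := fun x hx e => by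
    have h0 : 0 ≤ C * ‖e‖ := mul_nonneg hC0 (norm_nonneg _)
    refine adata_norm (by rwa [abs_zero]) (by rwa [norm_zero]) ?_ ?_
      (le_mul_of_one_le_left (norm_nonneg _) hC)
    · exact (DD v x).le_of_opNorm_le (D2_eq v hx ▸ b2 x (oB_sub hx)) e
    · exact (fderiv ℝ v x).le_of_opNorm_le (D1_eq v hx ▸ b1 x (oB_sub hx)) e
  refine ⟨hv.c2, hv.c4, hell, fun x hx => (b1 x hx).trans (by linarith),
    fun x hx => (b2 x hx).trans (by linarith), fun x hx y hy => ?_, fun x hx e => ?_,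
    fun x hx e he => ?_⟩
  · have h0 := norm_nonneg (x - y)
    rcases le_total (C * ‖x - y‖) ε with h | h
    · refine le_trans ?_ (adata_tan hF ht hv hC b1 b2 hx hy (H _ (hq x hx)).2.1
        (H _ (hq x hx)).2.2.1 h)
      nlinarith [mul_le_mul_of_nonneg_right k5 h0, mul_nonneg k7 h0]
    · have h1 := (ell_abs (hell y hy) (D2 (cB n) v x - D2 (cB n) v y)).trans
        (mul_le_mul_of_nonneg_left ((norm_sub_le _ _).trans (add_le_add (b2 x hx) (b2 y hy))) hC0)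
      refine le_trans ?_ (abs_le.1 h1).1
      have h2 : C * (C + C) ≤ 2 * C ^ 3 / ε * ‖x - y‖ := by
        rw [div_mul_eq_mul_div, le_div_iff₀ hε]
        nlinarith [mul_le_mul_of_nonneg_left h (mul_nonneg hC0 hC0)]
      nlinarith [mul_nonneg (pow_nonneg hC0 3) h0]
  · have h1 := (adata_eqs hF hv hx e).1
    rw [map_add] at h1
    have h2 := (fderiv ℝ F (t, jet (cB n) v x)).le_of_opNorm_le_of_le
      ((H _ (hq x (oB_sub hx))).2.2.1 _ (mem_closedBall_self hε.le)) (hb x hx e)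
    have h3 : lin F (t, jet (cB n) v x) (fderiv ℝ (DD v) x e) = -_ := eq_neg_of_add_eq_zero_left h1
    have h0 := norm_nonneg e
    rw [h3, abs_neg]
    refine le_trans h2 ?_
    nlinarith [mul_le_mul_of_nonneg_right k5 h0, mul_nonneg k7 h0, mul_nonneg (pow_nonneg hC0 3) h0]
  · have hx' := oB_sub hx
    have hN := norm_nonneg (fderiv ℝ (DD v) x)
    have hX : ‖fderiv ℝ (DD v) x e‖ ≤ ‖fderiv ℝ (DD v) x‖ :=
      ((fderiv ℝ (DD v) x).le_opNorm e).trans (mul_le_of_le_one_right hN he)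
    have h1 := adata_d2 _ _ _ _ _ _ (N := ‖fderiv ℝ (DD v) x‖) (adata_eqs hF hv hx e).2
      (fam_second hF ht hx' (sym_D2 hv.c2 hx')
        (D3_sym ((hv.c4.contDiffAt (isOpen_oB.mem_nhds hx)).of_le (by norm_num)) e) (hv.mem x hx'))
      ((H _ (hq x hx')).2.2.1 _ (mem_closedBall_self hε.le)) (H _ (hq x hx')).2.2.2.1
      (adata_norm (a := 0) (p := 0) (z := 0) (x := 0) (by rwa [abs_zero]) hX (by rwa [norm_zero])
        (by rwa [abs_zero]) (by rwa [norm_zero]))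
      ((hb x hx e).trans (mul_le_of_le_one_right hC0 he))
      (adata_norm (by rw [abs_zero]; positivity) (by rw [norm_zero]; positivity) ?_ ?_
        (by rw [norm_zero]; positivity)) hC
    · refine le_trans ?_ h1
      nlinarith [mul_nonneg k7 hN]
    · exact (((fderiv ℝ (DD v) x e).le_opNorm e).trans
        (mul_le_of_le_one_right (norm_nonneg _) he)).trans (hX.trans (by linarith))
    · have h2 : ‖DD v x‖ ≤ C := D2_eq v hx ▸ b2 x hx'
      have h3 : ‖DD v x e‖ ≤ C :=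
        ((DD v x).le_opNorm e).trans ((mul_le_of_le_one_right (norm_nonneg _) he).trans h2)
      exact (((DD v x e).le_opNorm e).trans
        (mul_le_of_le_one_right (norm_nonneg _) he)).trans (h3.trans (by linarith))

end Pool.Agent.Mink.A
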