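import Pool.Agent.Lib.MP_88c759_an.Mink.Base

/-! Definitions for the global second order Hoelder estimate. -/

set_option maxSynthPendingDepth 3

namespace Pool.Agent.Mink.A

open scoped ContDiff Topology
open Set Metric Filter MeasureTheory

variable {n : ℕ}

/-- The second derivative. -/
noncomputable abbrev DD (w : E n → ℝ) : E n → B2 n := fderiv ℝ (fderiv ℝ w)

/-- The inner product as a bilinear form. -/
noncomputable def II (n : ℕ) : B2 n := innerSL ℝ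

/-- The square of a linear form. -/
noncomputable def tt (a : B1 n) : B2 n := a.smulRight a

/-- The defining function of the unit ball. -/
noncomputable def dd (x : E n) : ℝ := 1 - ‖x‖ ^ 2

/-- `w` is a supersolution at `x`. -/
def Sup (lam Lam K : ℝ) (w : E n → ℝ) (x : E n) : Prop :=
  ContDiffAt ℝ 2 w x ∧ ∃ l : B2 n →L[ℝ] ℝ, Ell lam Lam l ∧ l (DD w x) ≤ K

/-- All that is used about a solution `v` and the linearised operators `l`. -/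
structure Data (lam Lam C : ℝ) (v : E n → ℝ) (l : E n → B2 n →L[ℝ] ℝ) : Prop where
  c2 : ContDiffOn ℝ 2 v (cB n)
  c4 : ContDiffOn ℝ 4 v (oB n)
  ell : ∀ x ∈ cB n, Ell lam Lam (l x)
  b1 : ∀ x ∈ cB n, ‖D1 (cB n) v x‖ ≤ C
  b2 : ∀ x ∈ cB n, ‖D2 (cB n) v x‖ ≤ C
  tan : ∀ x ∈ cB n, ∀ y ∈ cB n, -(C * ‖x - y‖) ≤ l y (D2 (cB n) v x - D2 (cB n) v y)
  d1 : ∀ x ∈ oB n, ∀ e, |l x (fderiv ℝ (DD v) x e)| ≤ C * ‖e‖
  d2 : ∀ x ∈ oB n, ∀ e, ‖e‖ ≤ 1 →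
    -(C * (1 + ‖fderiv ℝ (DD v) x‖)) ≤ l x (fderiv ℝ (fderiv ℝ (DD v)) x e e)

/-- A finite set of unit vectors that detects the norm of symmetric forms. -/
structure Net (lam Lam C : ℝ) (Γ : Finset (E n)) : Prop where
  unit : ∀ γ ∈ Γ, ‖γ‖ = 1
  two : ∀ X : B2 n, Sym X → ∀ s, 0 ≤ s → (∀ γ ∈ Γ, |X γ γ| ≤ s) → ‖X‖ ≤ 2 * s
  one : ∀ (l : B2 n →L[ℝ] ℝ) (X : B2 n) (s ρ : ℝ), Ell lam Lam l → Sym X → 0 ≤ s → 0 ≤ ρ →
    (∀ γ ∈ Γ, X γ γ ≤ s) → -ρ ≤ l X → ‖X‖ ≤ C * (s + ρ)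

/-- The pure second derivatives of `v` oscillate by at most `os` in total on the ball. -/
def Osc (Γ : Finset (E n)) (v : E n → ℝ) (x0 : E n) (r os : ℝ) : Prop :=
  ∃ a b : E n → ℝ, ∑ γ ∈ Γ, (b γ - a γ) ≤ os ∧ ∀ x ∈ cB n ∩ closedBall x0 r, ∀ γ ∈ Γ,
    a γ ≤ D2 (cB n) v x γ γ ∧ D2 (cB n) v x γ γ ≤ b γ

/-- The quotient `g / dd` oscillates by at most `os` on the ball. -/
def Quo (L : ℝ) (g : E n → ℝ) (x0 : E n) (r os : ℝ) : Prop :=
  ∃ m M : ℝ, -L ≤ m ∧ M ≤ L ∧ M - m ≤ os ∧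
    ∀ x ∈ cB n ∩ closedBall x0 r, m * dd x ≤ g x ∧ g x ≤ M * dd x

/-- Points of `D` where `w` is touched from below by a paraboloid of opening `a` with vertex
in `B`. -/
def Cont (D B : Set (E n)) (w : E n → ℝ) (a : ℝ) : Set (E n) :=
  {x | x ∈ D ∧ ∃ y ∈ B, ∀ z ∈ D, w x + a / 2 * ‖x - y‖ ^ 2 ≤ w z + a / 2 * ‖z - y‖ ^ 2}

/-- The inclusion of the second order slot. -/
noncomputable def ins (n : ℕ) : B2 n →L[ℝ] ℝ × Jet n :=
  (ContinuousLinearMap.inr ℝ ℝ (Jet n)).comp (ContinuousLinearMap.inl ℝ (B2 n) (B1 n × ℝ × E n))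

/-- The principal part of the linearisation. -/
noncomputable def lin (F : ℝ × Jet n → ℝ) (q : ℝ × Jet n) : B2 n →L[ℝ] ℝ :=
  (fderiv ℝ F q).comp (ins n)

lemma II_apply (x y : E n) : II n x y = inner ℝ x y := rfl

lemma II_self (x : E n) : II n x x = ‖x‖ ^ 2 := real_inner_self_eq_norm_sq x

lemma norm_II_apply (x : E n) : ‖II n x‖ = ‖x‖ := innerSL_apply_norm ℝ x

lemma norm_II_le : ‖II n‖ ≤ 1 :=
  ContinuousLinearMap.opNorm_le_bound _ zero_le_one fun x => by rw [norm_II_apply, one_mul]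

lemma psd_II : Psd (II n) :=
  ⟨fun v w => by rw [II_apply, II_apply, real_inner_comm], fun v => by rw [II_self]; positivity⟩

lemma tt_apply (a : B1 n) (x y : E n) : tt a x y = a x * a y := rfl

lemma norm_tt (a : B1 n) : ‖tt a‖ = ‖a‖ ^ 2 := by
  rw [tt, ContinuousLinearMap.norm_smulRight_apply, sq]

lemma psd_tt (a : B1 n) : Psd (tt a) :=
  ⟨fun v w => by rw [tt_apply, tt_apply, mul_comm], fun v => mul_self_nonneg _⟩

lemma ins_apply (m : B2 n) : ins n m = (0, m, 0, 0, 0) := rfl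

lemma lin_apply (F : ℝ × Jet n → ℝ) (q : ℝ × Jet n) (m : B2 n) :
    lin F q m = fderiv ℝ F q (0, m, 0, 0, 0) := rfl

lemma mem_cB {x : E n} : x ∈ cB n ↔ ‖x‖ ≤ 1 := mem_closedBall_zero_iff

lemma mem_oB {x : E n} : x ∈ oB n ↔ ‖x‖ < 1 := mem_ball_zero_iff

lemma mem_sB {x : E n} : x ∈ sB n ↔ ‖x‖ = 1 := mem_sphere_zero_iff_norm

lemma oB_sub : oB n ⊆ cB n := ball_subset_closedBall

lemma sB_sub : sB n ⊆ cB n := sphere_subset_closedBall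

lemma isOpen_oB : IsOpen (oB n) := isOpen_ball

lemma isClosed_cB : IsClosed (cB n) := isClosed_closedBall

lemma convex_cB : Convex ℝ (cB n) := convex_closedBall _ _

lemma cB_mem_nhds {x : E n} (hx : x ∈ oB n) : cB n ∈ 𝓝 x :=
  mem_of_superset (isOpen_oB.mem_nhds hx) oB_sub

lemma uniqueDiffOn_cB : UniqueDiffOn ℝ (cB n) :=
  uniqueDiffOn_convex convex_cB ⟨0, mem_interior_iff_mem_nhds.2 (cB_mem_nhds (mem_oB.2 (by simp)))⟩

section Ell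

variable {lam Lam : ℝ} {l : B2 n →L[ℝ] ℝ}

lemma ell_Lam (h : Ell lam Lam l) : 0 ≤ Lam := (norm_nonneg _).trans h.2

lemma ell_abs (h : Ell lam Lam l) (m : B2 n) : |l m| ≤ Lam * ‖m‖ :=
  (l.le_opNorm m).trans (mul_le_mul_of_nonneg_right h.2 (norm_nonneg _))

lemma ell_II (h : Ell lam Lam l) : |l (II n)| ≤ Lam :=
  (ell_abs h _).trans (mul_le_of_le_one_right (ell_Lam h) norm_II_le)

lemma ell_tt (h : Ell lam Lam l) (a : B1 n) : lam * ‖a‖ ^ 2 ≤ l (tt a) :=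
  norm_tt a ▸ h.1 _ (psd_tt a)

lemma ell_nonneg (h : Ell lam Lam l) (hlam : 0 ≤ lam) {m : B2 n} (hm : Psd m) : 0 ≤ l m :=
  (mul_nonneg hlam (norm_nonneg _)).trans (h.1 m hm)

end Ell

end Pool.Agent.Mink.A
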