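import Pool.Agent.Lib.MP_88c759_an.Mink.ACalc
import Pool.Agent.Lib.MP_88c759_an.Mink.ASym

/-! The auxiliary subsolutions of the Evans-Krylov argument. -/

set_option maxSynthPendingDepth 3

namespace Pool.Agent.Mink.A

open scoped ContDiff Topology
open Set Metric Filter MeasureTheory

variable {n : ℕ}

lemma aek1_abs (X : B2 n) {γ : E n} (h : ‖γ‖ = 1) : |X γ γ| ≤ ‖X‖ := by
  simpa [h] using X.le_opNorm₂ γ γ

lemma aek1_sym {X Y : B2 n} (hX : Sym X) (hY : Sym Y) : Sym (X - Y) := fun v w => by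
  simp only [sub_apply, hX v w, hY v w]

/-- Replace `D2` by `DD` near `x` (`D2_eventuallyEq`). With `h γ y = DD v y γ γ` and
`T = ‖fderiv (DD v) x‖`: `l (DD (h γ) x) ≥ -C (1 + T)` (`DD_pure`, `Data.d2`),
`l (DD ((h γ - a γ) ^ 2) x) ≥ -2 os0 C (1 + T) + 2 lam ‖fderiv (h γ) x‖ ^ 2` (`DD_sq`, `ell_tt`), and
`T ^ 2 ≤ 4 ∑ ‖fderiv (h γ) x‖ ^ 2` (`Net.two` for the symmetric form `fderiv (DD v) x ξ`, `D3_sym`,
`fderiv_pure`). With `C' = C (1 + 2 ε card Γ os0)` take `K = C' + C' ^ 2 / (2 ε lam)`. -/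
theorem ek_sup {lam Lam C C1 ε os0 : ℝ} (hlam : 0 < lam) (hC : 0 ≤ C) {Γ : Finset (E n)}
    (hΓ : Net lam Lam C1 Γ) (hε : 0 < ε) (hos0 : 0 ≤ os0) : ∃ K : ℝ, 0 ≤ K ∧
    ∀ (v : E n → ℝ) (l : E n → B2 n →L[ℝ] ℝ), Data lam Lam C v l → ∀ (a : E n → ℝ) (c : ℝ),
      ∀ γ ∈ Γ, ∀ x ∈ oB n,
      (∀ γ' ∈ Γ, a γ' ≤ D2 (cB n) v x γ' γ' ∧ D2 (cB n) v x γ' γ' - a γ' ≤ os0) →
      Sup lam Lam K (fun y => c - (D2 (cB n) v y γ γ +
        ε * ∑ γ' ∈ Γ, (D2 (cB n) v y γ' γ' - a γ') ^ 2)) x := by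
  obtain ⟨C', hC'⟩ : ∃ C', C' = C * (1 + 2 * ε * Γ.card * os0) := ⟨_, rfl⟩
  have hC0 : 0 ≤ C' := by rw [hC']; positivity
  refine ⟨C' + C' ^ 2 / (2 * (ε * lam)), by positivity, fun v l hv a c γ hγ x hx ha => ?_⟩
  have h4 : ContDiffAt ℝ 4 v x := hv.c4.contDiffAt (isOpen_oB.mem_nhds hx)
  have h3 : ContDiffAt ℝ 3 v x := h4.of_le (by norm_num)
  have he : (fun y => c - (D2 (cB n) v y γ γ + ε * ∑ γ' ∈ Γ, (D2 (cB n) v y γ' γ' - a γ') ^ 2))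
      =ᶠ[𝓝 x] fun y => c - (DD v y γ γ + ε * ∑ γ' ∈ Γ, (DD v y γ' γ' - a γ') ^ 2) :=
    (D2_eventuallyEq v hx).mono fun y hy => by simp only [hy]
  rw [D2_eq v hx] at ha
  have p1 := contDiffAt_pure h4
  have p2 : ∀ γ', ContDiffAt ℝ 2 (fun y => DD v y γ' γ' - a γ') x := fun γ' =>
    (p1 γ').sub contDiffAt_const
  have p3 : ContDiffAt ℝ 2 (fun y => ∑ γ' ∈ Γ, (DD v y γ' γ' - a γ') ^ 2) x :=
    ContDiffAt.sum fun γ' _ => (p2 γ').pow 2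
  have p4 := (contDiffAt_const (c := ε)).mul p3
  have hl := hv.ell x (oB_sub hx)
  refine ⟨(contDiffAt_const.sub ((p1 γ).add p4)).congr_of_eventuallyEq he, l x, hl, ?_⟩
  have q1 : ∀ γ' ∈ Γ, -(C * (1 + ‖fderiv ℝ (DD v) x‖)) ≤ l x (DD (fun y => DD v y γ' γ') x) :=
    fun γ' h => by
      rw [DD_pure h4]
      exact hv.d2 x hx γ' (hΓ.unit γ' h).le
  obtain ⟨S, hS⟩ : ∃ S, S = ∑ γ' ∈ Γ, ‖fderiv ℝ (fun y => DD v y γ' γ') x‖ ^ 2 := ⟨_, rfl⟩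
  have hS0 : 0 ≤ S := hS ▸ Finset.sum_nonneg fun _ _ => sq_nonneg _
  have q2 : ‖fderiv ℝ (DD v) x‖ ≤ 2 * √S := by
    refine ContinuousLinearMap.opNorm_le_bound _ (by positivity) fun ξ => ?_
    rw [mul_assoc]
    refine hΓ.two _ (D3_sym h3 ξ) _ (by positivity) fun γ' h => ?_
    rw [← fderiv_pure h3]
    refine ((fderiv ℝ (fun y => DD v y γ' γ') x).le_opNorm ξ).trans (mul_le_mul_of_nonneg_right
      (Real.le_sqrt_of_sq_le ?_) (norm_nonneg _))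
    rw [hS]
    exact Finset.single_le_sum (f := fun γ' => ‖fderiv ℝ (fun y => DD v y γ' γ') x‖ ^ 2)
      (fun _ _ => sq_nonneg _) h
  have q3 : ‖fderiv ℝ (DD v) x‖ ^ 2 ≤ 4 * S := by
    refine (pow_le_pow_left₀ (norm_nonneg _) q2 2).trans (le_of_eq ?_)
    rw [mul_pow, Real.sq_sqrt hS0]
    norm_num
  have hT := norm_nonneg (fderiv ℝ (DD v) x)
  generalize ‖fderiv ℝ (DD v) x‖ = T at q1 q3 hT
  have q4 : ∀ γ' ∈ Γ, -(2 * os0 * (C * (1 + T))) +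
      2 * lam * ‖fderiv ℝ (fun y => DD v y γ' γ') x‖ ^ 2 ≤
      l x (DD (fun y => (DD v y γ' γ' - a γ') ^ 2) x) := fun γ' h => by
    rw [DD_sq (p2 γ'), DD_sub (p1 γ') contDiffAt_const, DD_const, sub_zero, fderiv_sub_const,
      map_add, map_smul, map_smul, smul_eq_mul, smul_eq_mul]
    have r1 := ell_tt hl (fderiv ℝ (fun y => DD v y γ' γ') x)
    have r2 := mul_le_mul_of_nonneg_left (q1 γ' h) (sub_nonneg.2 (ha γ' h).1)
    have r3 := mul_le_mul_of_nonneg_right (ha γ' h).2 (show 0 ≤ C * (1 + T) by positivity)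
    linarith
  have q5 := mul_le_mul_of_nonneg_left (Finset.sum_le_sum q4) hε.le
  rw [Finset.sum_add_distrib, Finset.sum_const, ← Finset.mul_sum, ← hS, nsmul_eq_mul] at q5
  rw [DD_congr he, DD_sub contDiffAt_const ((p1 γ).add p4), DD_const, DD_add (p1 γ) p4,
    DD_const_mul ε p3, DD_sum Γ fun γ' _ => (p2 γ').pow 2, zero_sub, map_neg, map_add, map_smul,
    map_sum, smul_eq_mul]
  have q6 := q1 γ hγ
  have hμ : 0 < ε * lam := mul_pos hε hlam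
  have q7 : C' * T - ε * lam / 2 * T ^ 2 ≤ C' ^ 2 / (2 * (ε * lam)) := by
    rw [le_div_iff₀ (by positivity)]
    nlinarith [sq_nonneg (C' - ε * lam * T)]
  have q8 := mul_le_mul_of_nonneg_left q3 hμ.le
  have q9 : C' * T + C' = C * (1 + T) + ε * (Γ.card * (2 * os0 * (C * (1 + T)))) := by
    rw [hC']
    ring
  linarith

/-- If all upper bounds are almost attained at `y` then `D2 v` is close to `D2 v y`: `Net.one` for
`X = D2 v x - D2 v y` and `Data.tan` give `‖X‖ ≤ C1 (σ + 2 C r)`. -/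
theorem ek_close {lam Lam C C1 : ℝ} (hC : 0 ≤ C) (hC1 : 0 ≤ C1) {Γ : Finset (E n)}
    (hΓ : Net lam Lam C1 Γ) {v : E n → ℝ} {l : E n → B2 n →L[ℝ] ℝ} (hv : Data lam Lam C v l)
    {x0 y : E n} {r σ : ℝ} (hσ : 0 ≤ σ) (hy : y ∈ cB n ∩ closedBall x0 r) {b : E n → ℝ}
    (hb : ∀ x ∈ cB n ∩ closedBall x0 r, ∀ γ ∈ Γ, D2 (cB n) v x γ γ ≤ b γ)
    (h : ∀ γ ∈ Γ, b γ - D2 (cB n) v y γ γ ≤ σ) :
    Osc Γ v x0 r (2 * Γ.card * C1 * (σ + 2 * C * r)) := by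
  have hr : 0 ≤ r := dist_nonneg.trans hy.2
  refine ⟨fun γ => D2 (cB n) v y γ γ - C1 * (σ + 2 * C * r),
    fun γ => D2 (cB n) v y γ γ + C1 * (σ + 2 * C * r), le_of_eq ?_, fun x hx γ hγ => ?_⟩
  · simp only [add_sub_sub_cancel, Finset.sum_const, nsmul_eq_mul]
    ring
  · have h1 : ‖x - y‖ ≤ 2 * r := by
      rw [← dist_eq_norm]
      linarith [dist_triangle_right x y x0, mem_closedBall.1 hx.2, mem_closedBall.1 hy.2]
    have h2 := hΓ.one (l y) _ σ (2 * C * r) (hv.ell y hy.1)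
      (aek1_sym (sym_D2 hv.c2 hx.1) (sym_D2 hv.c2 hy.1)) hσ (by positivity)
      (fun γ' h' => (sub_le_sub_right (hb x hx γ' h') _).trans (h γ' h'))
      (le_trans (by linarith [mul_le_mul_of_nonneg_left h1 hC]) (hv.tan x hx.1 y hy.1))
    have h3 := abs_le.1 ((aek1_abs _ (hΓ.unit γ hγ)).trans h2)
    simp only [sub_apply] at h3
    constructor <;> linarith [h3.1, h3.2]

theorem Osc.mono {Γ : Finset (E n)} {v : E n → ℝ} {x0 : E n} {r r' os os' : ℝ} (hr : r' ≤ r)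
    (hos : os ≤ os') (h : Osc Γ v x0 r os) : Osc Γ v x0 r' os' := by
  obtain ⟨a, b, h1, h2⟩ := h
  exact ⟨a, b, h1.trans hos, fun x hx => h2 x ⟨hx.1, closedBall_subset_closedBall hr hx.2⟩⟩

theorem osc_top {lam Lam C C1 : ℝ} {Γ : Finset (E n)} (hΓ : Net lam Lam C1 Γ) {v : E n → ℝ}
    {l : E n → B2 n →L[ℝ] ℝ} (hv : Data lam Lam C v l) (x0 : E n) (r : ℝ) :
    Osc Γ v x0 r (2 * Γ.card * C) := by
  refine ⟨fun _ => -C, fun _ => C, le_of_eq ?_, fun x hx γ hγ =>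
    abs_le.1 ((aek1_abs _ (hΓ.unit γ hγ)).trans (hv.b2 x hx.1))⟩
  rw [Finset.sum_const, nsmul_eq_mul]
  ring

theorem Osc.norm_le {lam Lam C C1 : ℝ} {Γ : Finset (E n)} (hΓ : Net lam Lam C1 Γ) {v : E n → ℝ}
    {l : E n → B2 n →L[ℝ] ℝ} (hv : Data lam Lam C v l) {x y : E n} (hx : x ∈ cB n) (hy : y ∈ cB n)
    {os : ℝ} (h : Osc Γ v y ‖x - y‖ os) : ‖D2 (cB n) v x - D2 (cB n) v y‖ ≤ 2 * os := by
  obtain ⟨a, b, h1, h2⟩ := h
  have h3 := h2 x ⟨hx, mem_closedBall_iff_norm.2 le_rfl⟩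
  have h4 := h2 y ⟨hy, mem_closedBall_self (norm_nonneg _)⟩
  have h5 : ∀ γ ∈ Γ, 0 ≤ b γ - a γ := fun γ hγ => sub_nonneg.2 ((h4 γ hγ).1.trans (h4 γ hγ).2)
  refine hΓ.two _ (aek1_sym (sym_D2 hv.c2 hx) (sym_D2 hv.c2 hy)) _
    ((Finset.sum_nonneg h5).trans h1) fun γ hγ => ?_
  have h6 := (Finset.single_le_sum h5 hγ).trans h1
  simp only [sub_apply]
  rw [abs_le]
  constructor <;> linarith [(h3 γ hγ).1, (h3 γ hγ).2, (h4 γ hγ).1, (h4 γ hγ).2]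

end Pool.Agent.Mink.A
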