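import Pool.Agent.Lib.MP_88c759_an.Mink.ACont

/-! The growth lemma of Krylov and Safonov. -/

set_option maxSynthPendingDepth 3

namespace Pool.Agent.Mink.A

open scoped ContDiff Topology
open Set Metric Filter MeasureTheory

variable {n : ℕ}

/-- Let `C` come from `cont_step`, take `J` with `C * 4 ^ n < J * δ` and `c = 1 / (3 * 2 ^ J)`. Suppose
`w x1 + K r ^ 2 < c h =: h0`. Let `D = Z ∩ closedBall x0 (4 r)`, `B = closedBall x0 r`,
`a j = 2 ^ j * h0 / r ^ 2` and `A j = Cont D B w (a j)`. Testing with `z = x1` shows that a point `x` of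
`A j`, `j ≤ J`, with vertex `y` has `‖x - y‖ ^ 2 ≤ 6 r ^ 2` and `w x < h0 + 2 a r ^ 2 ≤ h`, so
`x ∈ ball x0 (4 r)`, `D ∈ 𝓝 x` and `Sup` holds. The measurable sets `A (j + 1) \ A j`, `j < J`, are pairwise
disjoint (`cont_between`) and lie in `closedBall x0 (4 r)`, while
`δ * volume (ball x0 r) ≤ volume (B \ A j) ≤ C * volume (A (j + 1) \ A j)`. Sum over `j < J`
(`measure_biUnion_finset`, `volume_closedBall_mul`). -/
theorem growth {lam δ : ℝ} (hlam : 0 < lam) (Lam : ℝ) (hδ : 0 < δ) : ∃ c : ℝ, 0 < c ∧ c ≤ 1 ∧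
    ∀ (Z : Set (E n)) (w : E n → ℝ) (x0 : E n) (r K h : ℝ), IsClosed Z → 0 < r → 0 ≤ K →
      ContinuousOn w (Z ∩ closedBall x0 (4 * r)) → (∀ x ∈ Z ∩ closedBall x0 (4 * r), 0 ≤ w x) →
      (∀ x ∈ Z ∩ ball x0 (4 * r), w x < h → Z ∈ 𝓝 x ∧ Sup lam Lam K w x) →
      ENNReal.ofReal δ * volume (ball x0 r) ≤ volume (ball x0 r \ {x ∈ Z | w x < h}) →
      ∀ x ∈ Z ∩ closedBall x0 r, c * h - K * r ^ 2 ≤ w x := by
  obtain ⟨C, hC⟩ := cont_step (n := n) hlam Lam
  obtain ⟨J, hJ⟩ := exists_nat_gt (C * 4 ^ n / δ : ℝ)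
  rw [div_lt_iff₀ hδ] at hJ
  have h2J : (1 : ℝ) ≤ 2 ^ J := one_le_pow₀ one_le_two
  refine ⟨1 / (3 * 2 ^ J), by positivity, (div_le_one (by positivity)).2 (by linarith),
    fun Z w x0 r K h hZ hr hK hw h0 hs hm x1 hx1 => ?_⟩
  by_contra hcon
  obtain ⟨h1, hh1⟩ : ∃ h1, h1 = 1 / (3 * 2 ^ J) * h := ⟨_, rfl⟩
  have hh : h = 3 * (2 ^ J * h1) := by
    rw [hh1]
    field_simp
  rw [← hh1, not_le] at hcon
  set D := Z ∩ closedBall x0 (4 * r) with hD
  set B := closedBall x0 r with hB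
  have hDc : IsCompact D := (isCompact_closedBall _ _).inter_left hZ
  have hx1D : x1 ∈ D := ⟨hx1.1, closedBall_subset_closedBall (by linarith) hx1.2⟩
  have hw1 := h0 x1 hx1D
  have hr2 : 0 < r ^ 2 := by positivity
  have hK2 := mul_nonneg hK hr2.le
  have hh0 : 0 < h1 := by linarith
  set a : ℕ → ℝ := fun j => 2 ^ j * h1 / r ^ 2 with ha
  have ha0 : ∀ j, 0 < a j := fun j => by positivity
  have har : ∀ j, a j * r ^ 2 = 2 ^ j * h1 := fun j => div_mul_cancel₀ _ hr2.ne'
  have hmono : ∀ i j, i ≤ j → a i ≤ a j := fun i j hij =>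
    div_le_div_of_nonneg_right (mul_le_mul_of_nonneg_right (pow_le_pow_right₀ one_le_two hij) hh0.le)
      hr2.le
  have hs2 : ∀ j, a (j + 1) = 2 * a j := fun j => by
    simp only [ha, pow_succ]
    ring
  have key : ∀ j ≤ J, ∀ x ∈ Cont D B w (a j), w x < h ∧ D ∈ 𝓝 x ∧ Sup lam Lam K w x := by
    rintro j hj x ⟨hx, y, hy, k⟩
    have k1 := k x1 hx1D
    have k2 : ‖x1 - y‖ ≤ 2 * r := by
      rw [← dist_eq_norm]
      linarith [dist_triangle_right x1 y x0, mem_closedBall.1 hx1.2, mem_closedBall.1 hy]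
    have k3 : a j / 2 * ‖x1 - y‖ ^ 2 ≤ 2 * (2 ^ j * h1) := by
      rw [← har]
      have := pow_le_pow_left₀ (norm_nonneg _) k2 2
      nlinarith [ha0 j]
    have k4 : h1 ≤ 2 ^ j * h1 := le_mul_of_one_le_left hh0.le (one_le_pow₀ one_le_two)
    have k5 : 2 ^ j * h1 ≤ 2 ^ J * h1 :=
      mul_le_mul_of_nonneg_right (pow_le_pow_right₀ one_le_two hj) hh0.le
    have k6 : 0 ≤ a j / 2 * ‖x - y‖ ^ 2 := by
      have := ha0 j
      positivity
    have k7 : w x < h := by linarith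
    have k8 : ‖x - y‖ < 3 * r := by
      refine lt_of_pow_lt_pow_left₀ 2 (by positivity) (lt_of_mul_lt_mul_left ?_ (ha0 j).le)
      linarith [har j, h0 x hx]
    have k9 : x ∈ ball x0 (4 * r) := by
      rw [← dist_eq_norm] at k8
      exact mem_ball.2 (by linarith [dist_triangle x y x0, mem_closedBall.1 hy])
    obtain ⟨k10, k11⟩ := hs x ⟨hx.1, k9⟩ k7
    exact ⟨k7, inter_mem k10 (mem_of_superset (isOpen_ball.mem_nhds k9) ball_subset_closedBall), k11⟩
  set A : ℕ → Set (E n) := fun j => Cont D B w (a (j + 1)) \ Cont D B w (a j) with hA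
  have hAm : ∀ j, MeasurableSet (A j) := fun j =>
    (isCompact_cont hDc (isCompact_closedBall _ _) hw _).measurableSet.diff
      (isCompact_cont hDc (isCompact_closedBall _ _) hw _).measurableSet
  have hstep : ∀ j < J, ENNReal.ofReal δ * volume (ball x0 r) ≤ C * volume (A j) := fun j hj => by
    have hKa : K ≤ a j := by
      refine le_trans ?_ (hmono 0 j (Nat.zero_le j))
      simp only [ha, pow_zero, one_mul]
      rw [le_div_iff₀ hr2]
      linarith
    have := hC D B w (a j) K hDc ⟨x1, hx1D⟩ (isCompact_closedBall _ _) (convex_closedBall _ _) hw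
      (ha0 j) hKa fun x hx => (key (j + 1) hj x (hs2 j ▸ hx)).2
    rw [← hs2] at this
    refine hm.trans (le_trans (measure_mono fun x hx => ?_) this)
    exact ⟨ball_subset_closedBall hx.1, fun hc => hx.2 ⟨hc.1.1, (key j hj.le x hc).1⟩⟩
  have hdis : ∀ i j, i < j → j < J → Disjoint (A i) (A j) := fun i j hij hj =>
    Set.disjoint_left.2 fun x hi hx => by
      obtain ⟨-, k1, k2, -⟩ := key (j + 1) hj x hx.1
      exact hx.2 (cont_between (convex_closedBall _ _) (ha0 _) (hmono _ _ hij)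
        (hmono _ _ (Nat.le_succ j)) k1 (k2.differentiableAt two_ne_zero) hi.1 hx.1)
  have hsum : ∑ j ∈ Finset.range J, volume (A j) ≤ ENNReal.ofReal (4 ^ n) * volume (ball x0 r) := by
    rw [← measure_biUnion_finset ?_ fun j _ => hAm j,
      ← volume_closedBall_mul x0 x0 hr (by norm_num : (0 : ℝ) < 4)]
    · exact measure_mono (iUnion₂_subset fun j _ x hx => hx.1.1.2)
    · intro i hi j hj hij
      rcases lt_or_gt_of_ne hij with h | h
      · exact hdis i j h (Finset.mem_range.1 hj)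
      · exact (hdis j i h (Finset.mem_range.1 hi)).symm
  have hfin : ENNReal.ofReal (J * δ) * volume (ball x0 r) ≤
      ENNReal.ofReal (C * 4 ^ n) * volume (ball x0 r) := by
    rw [ENNReal.ofReal_mul (Nat.cast_nonneg J), ENNReal.ofReal_mul C.coe_nonneg, mul_assoc, mul_assoc,
      ENNReal.ofReal_natCast, ENNReal.ofReal_coe_nnreal]
    refine le_trans ?_ (mul_le_mul_right hsum _)
    rw [Finset.mul_sum]
    refine le_trans (le_of_eq ?_) (Finset.sum_le_sum fun j hj => hstep j (Finset.mem_range.1 hj))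
    rw [Finset.sum_const, Finset.card_range, nsmul_eq_mul]
  rw [ENNReal.mul_le_mul_iff_left (measure_ball_pos volume x0 hr).ne' measure_ball_lt_top.ne,
    ENNReal.ofReal_le_ofReal_iff (by positivity)] at hfin
  linarith

end Pool.Agent.Mink.A
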