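import Pool.Agent.Lib.MP_88c759_an.Mink.ADefs

/-! Iteration of an oscillation decay. -/

set_option maxSynthPendingDepth 3

namespace Pool.Agent.Mink.A

open scoped ContDiff Topology
open Set Metric Filter MeasureTheory

variable {n : ℕ}

/-- Choose `β ≤ α`, `β < 1` with `γ < q := θ ^ β`. With `A = max os0 (C / (q - γ))` one has
`P (θ ^ k) (A * q ^ k)` for all `k` (apply the step to `min (A * q ^ k) os0`; note that `P r os0` holds for
all `r ≤ 1`, and that of two true bounds the smaller one is true). For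
`θ ^ (k + 1) < r ≤ θ ^ k` (`exists_nat_pow_near_of_lt_one`) use `q ^ k ≤ (r / θ) ^ β`. -/
theorem iter {θ γ α : ℝ} (hθ : 0 < θ) (hθ1 : θ < 1) (hγ : 0 ≤ γ) (hγ1 : γ < 1) (hα : 0 < α) :
    ∃ β C' : ℝ, 0 < β ∧ β < 1 ∧ 0 ≤ C' ∧ ∀ (P : ℝ → ℝ → Prop) (os0 C : ℝ), 0 ≤ os0 → 0 ≤ C →
      (∀ r r' os os', r' ≤ r → os ≤ os' → P r os → P r' os') → P 1 os0 →
      (∀ r os, 0 < r → r ≤ 1 → 0 ≤ os → os ≤ os0 → P r os → P (θ * r) (γ * os + C * r ^ α)) →
      ∀ r, 0 < r → r ≤ 1 → P r (C' * (os0 + C) * r ^ β) := by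
  obtain ⟨β, hβ, hβα, hβ1, hq⟩ : ∃ β : ℝ, 0 < β ∧ β ≤ α ∧ β < 1 ∧ γ < θ ^ β := by
    have h1 : ∀ᶠ β in 𝓝 (0 : ℝ), γ < θ ^ β :=
      (Real.continuousAt_const_rpow hθ.ne').eventually (lt_mem_nhds (by simpa using hγ1))
    have h2 : ∀ᶠ β in 𝓝[>] (0 : ℝ), 0 < β ∧ β ≤ α ∧ β < 1 ∧ γ < θ ^ β := by
      filter_upwards [self_mem_nhdsWithin, nhdsWithin_le_nhds (ge_mem_nhds hα),
        nhdsWithin_le_nhds (gt_mem_nhds one_pos), nhdsWithin_le_nhds h1] with β a b c d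
      exact ⟨a, b, c, d⟩
    exact h2.exists
  obtain ⟨q, hqe⟩ : ∃ q, q = θ ^ β := ⟨_, rfl⟩
  rw [← hqe] at hq
  have hq0 : 0 < q := hγ.trans_lt hq
  have hd : 0 < q - γ := sub_pos.2 hq
  refine ⟨β, (1 + 1 / (q - γ)) / q, hβ, hβ1, by positivity,
    fun P os0 C h0 hC hm h1 hs r hr hr1 => ?_⟩
  obtain ⟨A, hA⟩ : ∃ A, A = (1 + 1 / (q - γ)) * (os0 + C) := ⟨_, rfl⟩
  have hA1 : os0 ≤ A := by
    have : 0 ≤ 1 / (q - γ) * (os0 + C) := by positivity
    linarith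
  have hA2 : C ≤ A * (q - γ) := by
    have e : A * (q - γ) = (q - γ) * (os0 + C) + (os0 + C) := by
      rw [hA]
      field_simp
    have : 0 ≤ (q - γ) * (os0 + C) := by positivity
    linarith
  have hA0 : 0 ≤ A := h0.trans hA1
  have e : ∀ k : ℕ, (θ ^ k) ^ β = q ^ k := fun k => by
    rw [hqe, ← Real.rpow_natCast, ← Real.rpow_natCast, ← Real.rpow_mul hθ.le,
      ← Real.rpow_mul hθ.le, mul_comm]
  have key : ∀ k : ℕ, P (θ ^ k) (A * q ^ k) := by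
    intro k
    induction k with
    | zero => simpa using hm _ _ _ _ le_rfl hA1 h1
    | succ k ih =>
      have k0 : 0 < θ ^ k := by positivity
      have k1 : θ ^ k ≤ 1 := pow_le_one₀ hθ.le hθ1.le
      have k2 : P (θ ^ k) (min (A * q ^ k) os0) := by
        rcases min_choice (A * q ^ k) os0 with h | h <;> rw [h]
        exacts [ih, hm _ _ _ _ k1 le_rfl h1]
      refine hm _ _ _ _ (pow_succ' θ k).le ?_
        (hs _ _ k0 k1 (le_min (by positivity) h0) (min_le_right _ _) k2)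
      have k3 := mul_le_mul_of_nonneg_left (min_le_left (A * q ^ k) os0) hγ
      have k4 := mul_le_mul_of_nonneg_left
        ((Real.rpow_le_rpow_of_exponent_ge k0 k1 hβα).trans (e k).le) hC
      have k5 := mul_le_mul_of_nonneg_right hA2 (pow_pos hq0 k).le
      rw [pow_succ]
      linarith
  obtain ⟨k, k1, k2⟩ := exists_nat_pow_near_of_lt_one hr hr1 hθ hθ1
  refine hm _ _ _ _ k2 ?_ (key k)
  have k3 := (e (k + 1)).ge.trans (Real.rpow_le_rpow (by positivity) k1.le hβ.le)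
  rw [div_mul_eq_mul_div, ← hA, div_mul_eq_mul_div, le_div_iff₀ hq0, mul_assoc, ← pow_succ]
  exact mul_le_mul_of_nonneg_left k3 hA0

end Pool.Agent.Mink.A
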