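import Pool.Agent.Lib.MP_88c759_an.Mink.AEK1
import Pool.Agent.Lib.MP_88c759_an.Mink.AGrow
import Pool.Agent.Lib.MP_88c759_an.Mink.AIter
import Pool.Agent.Lib.MP_88c759_an.Mink.ALin

/-! The Evans-Krylov estimate up to the boundary. -/

set_option maxSynthPendingDepth 3

namespace Pool.Agent.Mink.A

open scoped ContDiff Topology
open Set Metric Filter MeasureTheory

variable {n : ℕ}

/-- Improvement of one upper bound. Let `c` come from `growth`, `ε' = c ε / (2 (os0 + 1))`, `K` from `ek_sup`,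
and `u = b γ + ε' ∑ (b - a) ^ 2 - (h γ + ε' ∑ (h - a) ^ 2)` with `h γ y = D2 v y γ γ`. On
`cB n ∩ closedBall x0 r` one has `0 ≤ b γ - h γ ≤ u ≤ b γ - h γ + ε' os0 os` (all `b - a` are nonnegative as `x0`
belongs to the set). Apply `growth` with `Z = cB n`, centre `z`, radius `ρ`, height `ε os`; lower `b γ` by
`c ε os / 2 - K r ^ 2` (`Function.update`, or `b - Pi.single`). -/
theorem ek_improve {lam Lam C C1 ε δ os0 : ℝ} (hlam : 0 < lam) (hC : 0 ≤ C) {Γ : Finset (E n)}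
    (hΓ : Net lam Lam C1 Γ) (hε : 0 < ε) (hε1 : ε ≤ 1) (hδ : 0 < δ) (hos0 : 0 ≤ os0) :
    ∃ q K : ℝ, 0 ≤ q ∧ q < 1 ∧ 0 ≤ K ∧
    ∀ (v : E n → ℝ) (l : E n → B2 n →L[ℝ] ℝ), Data lam Lam C v l → ∀ x0 ∈ cB n,
      ∀ (z : E n) (r r' ρ os : ℝ) (a b : E n → ℝ), 0 < ρ → ρ ≤ r → 0 ≤ os → os ≤ os0 →
      closedBall z (4 * ρ) ⊆ closedBall x0 r → closedBall x0 r' ⊆ closedBall z ρ → 0 ≤ r →
      ∑ γ ∈ Γ, (b γ - a γ) ≤ os → (∀ x ∈ cB n ∩ closedBall x0 r, ∀ γ ∈ Γ,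
        a γ ≤ D2 (cB n) v x γ γ ∧ D2 (cB n) v x γ γ ≤ b γ) → ∀ γ ∈ Γ,
      (∀ x ∈ sB n ∩ ball z (4 * ρ), ε * os ≤ b γ - D2 (cB n) v x γ γ) →
      ENNReal.ofReal δ * volume (ball z ρ) ≤
        volume (ball z ρ \ {x ∈ cB n | b γ - D2 (cB n) v x γ γ < ε * os}) →
      Osc Γ v x0 r' (q * os + K * r ^ 2) := by
  classical
  obtain ⟨c, hc, hc1, hg⟩ := growth (n := n) hlam Lam hδ
  obtain ⟨e, he⟩ : ∃ e, e = c * ε / (2 * (os0 + 1)) := ⟨_, rfl⟩
  have he0 : 0 < e := by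
    rw [he]
    positivity
  have he1 : e * os0 ≤ c * ε / 2 := by
    rw [he, div_mul_eq_mul_div, div_le_div_iff₀ (by positivity) two_pos]
    nlinarith [mul_pos hc hε]
  obtain ⟨K, hK, hs⟩ := ek_sup hlam hC hΓ he0 hos0
  have hcε : c * ε ≤ 1 := mul_le_one₀ hc1 hε.le hε1
  refine ⟨1 - c * ε / 2, K, by linarith, by linarith [mul_pos hc hε], hK,
    fun v l hv x0 hx0 z r r' ρ os a b hρ hρr hos hos1 h4 h1 hr hsum hab γ hγ hbd hm => ?_⟩
  have hba : ∀ γ' ∈ Γ, 0 ≤ b γ' - a γ' := fun γ' h => by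
    have := hab x0 ⟨hx0, mem_closedBall_self hr⟩ γ' h
    linarith [this.1, this.2]
  have hba' : ∀ γ' ∈ Γ, b γ' - a γ' ≤ os0 := fun γ' h =>
    (Finset.single_le_sum hba h).trans (hsum.trans hos1)
  set u : E n → ℝ := fun y => b γ + e * ∑ γ' ∈ Γ, (b γ' - a γ') ^ 2 - (D2 (cB n) v y γ γ +
    e * ∑ γ' ∈ Γ, (D2 (cB n) v y γ' γ' - a γ') ^ 2) with hu
  have hlo : ∀ x ∈ cB n ∩ closedBall x0 r, b γ - D2 (cB n) v x γ γ ≤ u x := fun x hx => by
    have : ∑ γ' ∈ Γ, (D2 (cB n) v x γ' γ' - a γ') ^ 2 ≤ ∑ γ' ∈ Γ, (b γ' - a γ') ^ 2 :=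
      Finset.sum_le_sum fun γ' h => pow_le_pow_left₀ (sub_nonneg.2 (hab x hx γ' h).1)
        (sub_le_sub_right (hab x hx γ' h).2 _) 2
    have := mul_le_mul_of_nonneg_left this he0.le
    simp only [hu]
    linarith
  have hup : ∀ x, u x ≤ b γ - D2 (cB n) v x γ γ + c * ε / 2 * os := fun x => by
    have k1 : ∑ γ' ∈ Γ, (b γ' - a γ') ^ 2 ≤ os0 * os := by
      refine le_trans ?_ (mul_le_mul_of_nonneg_left hsum hos0)
      rw [Finset.mul_sum]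
      exact Finset.sum_le_sum fun γ' h => by nlinarith [hba γ' h, hba' γ' h]
    have k2 : 0 ≤ e * ∑ γ' ∈ Γ, (D2 (cB n) v x γ' γ' - a γ') ^ 2 := by positivity
    have k3 := mul_le_mul_of_nonneg_left k1 he0.le
    have k4 := mul_le_mul_of_nonneg_right he1 hos
    simp only [hu]
    linarith
  have hcont : ∀ γ', ContinuousOn (fun y => D2 (cB n) v y γ' γ') (cB n) := fun γ' =>
    ((continuousOn_D2 hv.c2).clm_apply continuousOn_const).clm_apply continuousOn_const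
  have hsub : closedBall z ρ ⊆ closedBall x0 r :=
    (closedBall_subset_closedBall (by linarith)).trans h4
  have key := hg (cB n) u z ρ K (ε * os) isClosed_cB hρ hK
    ((continuousOn_const.sub ((hcont γ).add (continuousOn_const.mul (continuousOn_finsetSum _
      fun γ' _ => ((hcont γ').sub continuousOn_const).pow 2)))).mono inter_subset_left)
    (fun x hx => (sub_nonneg.2 (hab x ⟨hx.1, h4 hx.2⟩ γ hγ).2).trans (hlo x ⟨hx.1, h4 hx.2⟩))
    (fun x hx hlt => by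
      have hx' : x ∈ cB n ∩ closedBall x0 r := ⟨hx.1, h4 (ball_subset_closedBall hx.2)⟩
      have hxo : x ∈ oB n := mem_oB.2 ((mem_cB.1 hx.1).lt_of_ne fun h => by
        linarith [hbd x ⟨mem_sB.2 h, hx.2⟩, hlo x hx'])
      exact ⟨cB_mem_nhds hxo, hs v l hv a _ γ hγ x hxo fun γ' h => ⟨(hab x hx' γ' h).1, by
        linarith [(hab x hx' γ' h).2, hba' γ' h]⟩⟩)
    (hm.trans (measure_mono fun x hx => ⟨hx.1, fun h => hx.2 ⟨h.1,
      (hlo x ⟨h.1, hsub (ball_subset_closedBall hx.1)⟩).trans_lt h.2⟩⟩))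
  refine ⟨a, fun γ' => b γ' - if γ' = γ then c * ε / 2 * os - K * r ^ 2 else 0, ?_,
    fun x hx γ' h => ⟨(hab x ⟨hx.1, hsub (h1 hx.2)⟩ γ' h).1, ?_⟩⟩
  · simp only [sub_right_comm _ _ (a _)]
    rw [Finset.sum_sub_distrib, Finset.sum_ite_eq', if_pos hγ]
    linarith
  · beta_reduce
    split_ifs with h'
    · have k1 := key x ⟨hx.1, h1 hx.2⟩
      have k2 := mul_le_mul_of_nonneg_left (pow_le_pow_left₀ hρ.le hρr 2) hK
      rw [h']
      linarith [hup x]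
    · simpa using (hab x ⟨hx.1, hsub (h1 hx.2)⟩ γ' h).2

/-- Let `N = card Γ`, `ε = 1 / (4 (N + 1) (C1 + 1))`, `δ = min (1 / (N + 1)) ((1 / 2) ^ n)`, `ρ = r / 24`,
`h γ y = D2 v y γ γ`. If `‖x0‖ + 4 ρ ≤ 1`: either some `y ∈ ball x0 ρ` has `b γ - h γ y < ε os` for all `γ`
(`ek_close`), or `exists_large` gives `γ` for `ek_improve` with `z = x0`. Otherwise let `z = ‖x0‖⁻¹ • x0 ∈ sB n`,
`‖z - x0‖ < 4 ρ`, and use the radius `5 ρ`: either some `γ` has `ε os ≤ b γ - h γ` on `sB n ∩ ball z (20 ρ)`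
(`ek_improve`, `volume_outside`), or `b γ - h γ z ≤ ε os + C2 r ^ α` for all `γ` (`ek_close` with `y = z`).
Use `r ^ 2 ≤ r ≤ r ^ α`. -/
theorem ek_step {lam Lam C C1 C2 α os0 : ℝ} (hlam : 0 < lam) (hC : 0 ≤ C) (hC1 : 0 ≤ C1)
    (hC2 : 0 ≤ C2) (hα : 0 < α) (hα1 : α ≤ 1) {Γ : Finset (E n)} (hΓ : Net lam Lam C1 Γ)
    (hos0 : 0 ≤ os0) : ∃ q K : ℝ, 0 ≤ q ∧ q < 1 ∧ 0 ≤ K ∧
    ∀ (v : E n → ℝ) (l : E n → B2 n →L[ℝ] ℝ), Data lam Lam C v l →
      (∀ x ∈ sB n, ∀ y ∈ sB n, ‖D2 (cB n) v x - D2 (cB n) v y‖ ≤ C2 * ‖x - y‖ ^ α) →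
      ∀ x0 ∈ cB n, ∀ r os, 0 < r → r ≤ 1 → 0 ≤ os → os ≤ os0 → Osc Γ v x0 r os →
        Osc Γ v x0 (1 / 24 * r) (q * os + K * r ^ α) := by
  obtain ⟨ε, hε⟩ : ∃ ε : ℝ, ε = 1 / (4 * (Γ.card + 1) * (C1 + 1)) := ⟨_, rfl⟩
  have hN : (0 : ℝ) ≤ Γ.card := Nat.cast_nonneg _
  have hε0 : 0 < ε := by
    rw [hε]
    positivity
  have hε1 : ε ≤ 1 := by
    rw [hε, div_le_one (by positivity)]
    nlinarith [mul_nonneg hN hC1]
  have hε2 : 2 * Γ.card * C1 * ε ≤ 1 / 2 := by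
    rw [hε, mul_one_div, div_le_div_iff₀ (by positivity) two_pos]
    nlinarith
  obtain ⟨q, K, hq, hq1, hK, hi⟩ := ek_improve (δ := min (1 / (Γ.card + 1)) ((1 / 2) ^ n)) hlam hC hΓ
    hε0 hε1 (by positivity) hos0
  refine ⟨max q (1 / 2), K + 2 * Γ.card * C1 * (C2 + 2 * C), le_max_of_le_left hq,
    max_lt hq1 (by norm_num), by positivity,
    fun v l hv hsp x0 hx0 r os hr hr1 hos hos1 ⟨a, b, hsum, hab⟩ => ?_⟩
  have hrα : r ≤ r ^ α := by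
    simpa using Real.rpow_le_rpow_of_exponent_ge hr hr1 hα1
  have hα0 : 0 ≤ r ^ α := hr.le.trans hrα
  have hNC : 0 ≤ 2 * Γ.card * C1 := by positivity
  have fin1 : Osc Γ v x0 (1 / 24 * r) (q * os + K * r ^ 2) → Osc Γ v x0 (1 / 24 * r)
      (max q (1 / 2) * os + (K + 2 * Γ.card * C1 * (C2 + 2 * C)) * r ^ α) := fun h => by
    refine h.mono le_rfl (add_le_add (mul_le_mul_of_nonneg_right (le_max_left _ _) hos) ?_)
    exact mul_le_mul (le_add_of_nonneg_right (by positivity)) (by nlinarith) (by positivity)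
      (by positivity)
  have fin2 : ∀ y ∈ cB n ∩ closedBall x0 r,
      (∀ γ ∈ Γ, b γ - D2 (cB n) v y γ γ ≤ ε * os + C2 * r ^ α) → Osc Γ v x0 (1 / 24 * r)
      (max q (1 / 2) * os + (K + 2 * Γ.card * C1 * (C2 + 2 * C)) * r ^ α) := fun y hy h => by
    refine (ek_close hC hC1 hΓ hv (by positivity) hy (fun x hx γ hγ => (hab x hx γ hγ).2) h).mono
      (by linarith) ?_
    have k1 := mul_le_mul_of_nonneg_right (hε2.trans (le_max_right q _)) hos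
    have k2 := mul_le_mul_of_nonneg_left (mul_le_mul_of_nonneg_left hrα hC) hNC
    have k3 := mul_nonneg hK hα0
    linarith
  have hC2α := mul_nonneg hC2 hα0
  rcases le_or_gt (‖x0‖ + 4 * (1 / 24 * r)) 1 with hin | hout
  · have hball : ∀ y ∈ ball x0 (4 * (1 / 24 * r)), ‖y‖ < 1 := fun y hy => by
      linarith [mem_ball_iff_norm.1 hy, norm_le_norm_add_norm_sub' y x0]
    by_cases hy : ∃ y ∈ ball x0 (1 / 24 * r), ∀ γ ∈ Γ, b γ - D2 (cB n) v y γ γ < ε * os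
    · obtain ⟨y, hy, h⟩ := hy
      exact fin2 y ⟨mem_cB.2 (hball y (ball_subset_ball (by linarith) hy)).le,
        ball_subset_closedBall (ball_subset_ball (by linarith) hy)⟩
        fun γ hγ => by linarith [h γ hγ]
    · push Not at hy
      obtain ⟨γ, hγ, hm⟩ := exists_large Γ (fun γ => {y | ε * os ≤ b γ - D2 (cB n) v y γ γ}) x0
        (r := 1 / 24 * r) (by positivity) hy
      refine fin1 (hi v l hv x0 hx0 x0 r _ (1 / 24 * r) os a b (by positivity) (by linarith) hos hos1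
        (closedBall_subset_closedBall (by linarith)) subset_rfl hr.le hsum hab γ hγ
        (fun x hx => absurd (mem_sB.1 hx.1) (hball x hx.2).ne) ?_)
      have hpos : (0 : ℝ) < Γ.card := by exact_mod_cast Finset.card_pos.2 ⟨γ, hγ⟩
      refine le_trans (mul_le_mul_left (ENNReal.ofReal_le_ofReal ((min_le_left _ _).trans
        (one_div_le_one_div_of_le hpos (by linarith)))) _) (hm.trans (measure_mono fun x hx => ?_))
      exact ⟨hx.1, fun h => absurd h.2 (not_lt.2 hx.2)⟩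
  · have h0 : 0 < ‖x0‖ := by linarith
    have hz : ‖x0‖⁻¹ • x0 ∈ sB n := mem_sB.2 (norm_smul_inv_norm (norm_pos_iff.1 h0))
    have hd : dist (‖x0‖⁻¹ • x0) x0 ≤ 4 * (1 / 24 * r) := by
      have e : ‖x0‖⁻¹ • x0 - x0 = (1 - ‖x0‖) • ‖x0‖⁻¹ • x0 := by
        rw [sub_smul, one_smul, smul_inv_smul₀ h0.ne']
      rw [dist_eq_norm, e, norm_smul, mem_sB.1 hz, mul_one,
        Real.norm_of_nonneg (sub_nonneg.2 (mem_cB.1 hx0))]
      linarith
    generalize ‖x0‖⁻¹ • x0 = z at hz hd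
    by_cases hy : ∃ γ ∈ Γ, ∀ x ∈ sB n ∩ ball z (4 * (5 / 24 * r)), ε * os ≤ b γ - D2 (cB n) v x γ γ
    · obtain ⟨γ, hγ, h⟩ := hy
      refine fin1 (hi v l hv x0 hx0 z r _ (5 / 24 * r) os a b (by positivity) (by linarith) hos hos1
        (closedBall_subset_closedBall' (by linarith))
        (closedBall_subset_closedBall' (by rw [dist_comm]; linarith)) hr.le hsum hab γ hγ h ?_)
      exact le_trans (mul_le_mul_left (ENNReal.ofReal_le_ofReal (min_le_right _ _)) _)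
        ((volume_outside hz (by positivity)).trans (measure_mono
          (sdiff_subset_sdiff_right fun x hx => hx.1)))
    · push Not at hy
      refine fin2 z ⟨sB_sub hz, mem_closedBall.2 (by linarith)⟩ fun γ hγ => ?_
      obtain ⟨y, hy1, hy2⟩ := hy γ hγ
      have k1 := (hsp y hy1.1 z hz).trans (mul_le_mul_of_nonneg_left (Real.rpow_le_rpow
        (norm_nonneg _) (show ‖y - z‖ ≤ r by linarith [mem_ball_iff_norm.1 hy1.2]) hα.le) hC2)
      have k2 := (le_abs_self _).trans ((D2 (cB n) v y - D2 (cB n) v z).le_opNorm₂ γ γ)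
      rw [hΓ.unit γ hγ, mul_one, mul_one, sub_apply, sub_apply] at k2
      linarith

/-- `exists_net`, `iter` with `os0 = 2 card Γ C` (`osc_top`), `Osc.norm_le`; for `‖x - y‖ > 1` use
`Data.b2`. -/
theorem evans_krylov {lam C C2 α : ℝ} (hlam : 0 < lam) (Lam : ℝ) (hC : 0 ≤ C) (hC2 : 0 ≤ C2)
    (hα : 0 < α) (hα1 : α ≤ 1) : ∃ β C' : ℝ, 0 < β ∧ β < 1 ∧
    ∀ (v : E n → ℝ) (l : E n → B2 n →L[ℝ] ℝ), Data lam Lam C v l →
      (∀ x ∈ sB n, ∀ y ∈ sB n, ‖D2 (cB n) v x - D2 (cB n) v y‖ ≤ C2 * ‖x - y‖ ^ α) →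
      ∀ x ∈ cB n, ∀ y ∈ cB n, ‖D2 (cB n) v x - D2 (cB n) v y‖ ≤ C' * ‖x - y‖ ^ β := by
  obtain ⟨Γ, C1, hC1, hΓ⟩ := exists_net (n := n) hlam Lam
  have h0 : 0 ≤ 2 * Γ.card * C := by positivity
  obtain ⟨q, K, hq, hq1, hK, hs⟩ := ek_step hlam hC hC1 hC2 hα hα1 hΓ h0
  obtain ⟨β, C', hβ, hβ1, hC', hi⟩ := iter (θ := 1 / 24) (by norm_num) (by norm_num) hq hq1 hα
  refine ⟨β, 2 * (C' * (2 * Γ.card * C + K)) + 2 * C, hβ, hβ1, fun v l hv hsp x hx y hy => ?_⟩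
  have h1 : 0 ≤ ‖x - y‖ ^ β := by positivity
  have h2 : 0 ≤ C' * (2 * Γ.card * C + K) * ‖x - y‖ ^ β := by positivity
  rcases eq_or_ne x y with rfl | hxy
  · rw [sub_self (D2 (cB n) v x), norm_zero]
    positivity
  rcases le_or_gt ‖x - y‖ 1 with h | h
  · have := (hi (Osc Γ v y) _ K h0 hK (fun _ _ _ _ h1 h2 h3 => h3.mono h1 h2) (osc_top hΓ hv y 1)
      (hs v l hv hsp y hy) _ (norm_pos_iff.2 (sub_ne_zero.2 hxy)) h).norm_le hΓ hv hx hy
    linarith [mul_nonneg hC h1]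
  · have h3 := mul_le_mul_of_nonneg_left (Real.one_le_rpow h.le hβ.le) hC
    linarith [norm_sub_le (D2 (cB n) v x) (D2 (cB n) v y), hv.b2 x hx, hv.b2 y hy]

end Pool.Agent.Mink.A
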