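import Pool.Agent.Lib.MP_88c759_an.Mink.ADD

/-! Uniform constants and concavity for a family of equations. -/

set_option maxSynthPendingDepth 3

namespace Pool.Agent.Mink.A

open scoped ContDiff Topology
open Set Metric Filter MeasureTheory

variable {n : ℕ}

variable {A : Set (ℝ × Jet n)} {F : ℝ × Jet n → ℝ}

lemma afam_closed_sym : IsClosed {r : B2 n | Sym r} := by
  simp only [Sym, ofPred_forall]
  exact isClosed_iInter fun v => isClosed_iInter fun w => isClosed_eq (by fun_prop) (by fun_prop)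

lemma afam_closed_psd : IsClosed {r : B2 n | Psd r} := by
  refine afam_closed_sym.inter (s₂ := {r : B2 n | ∀ v, 0 ≤ r v v}) ?_
  simp only [ofPred_forall]
  exact isClosed_iInter fun v => isClosed_le continuous_const (by fun_prop)

lemma afam_norm_ins : ‖ins n‖ ≤ 1 :=
  ContinuousLinearMap.opNorm_le_bound _ zero_le_one fun m => by
    simp [ins_apply, Prod.norm_def]

lemma afam_psd_smul {m : B2 n} (hm : Psd m) {c : ℝ} (hc : 0 ≤ c) : Psd (c • m) :=
  ⟨fun v w => by simp [hm.1 v w], fun v => mul_nonneg hc (hm.2 v)⟩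

lemma afam_sym_line {r X : B2 n} (hr : Sym r) (hX : Sym X) (s : ℝ) : Sym (r + s • X) :=
  fun v w => by simp [hr v w, hX v w]

lemma afam_line (t : ℝ) (r X : B2 n) (p : B1 n) (z : ℝ) (x : E n) (s : ℝ) :
    ((t, r, p, z, x) : ℝ × Jet n) + s • ins n X = (t, r + s • X, p, z, x) := by
  simp [ins_apply]

lemma afam_hasDerivAt {V W : Type} [NormedAddCommGroup V] [NormedSpace ℝ V] [NormedAddCommGroup W]
    [NormedSpace ℝ W] {G : V → W} {q v : V} {s : ℝ} (hG : DifferentiableAt ℝ G (q + s • v)) :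
    HasDerivAt (fun u : ℝ => G (q + u • v)) (fderiv ℝ G (q + s • v) v) s := by
  have h1 : HasDerivAt (fun u : ℝ => q + u • v) v s := by
    simpa using ((hasDerivAt_id s).smul_const v).const_add q
  exact hG.hasFDerivAt.comp_hasDerivAt s h1

/-- `IsCompact.exists_cthickening_subset_open`; `fderiv F` and `fderiv (fderiv F)` are continuous on the
open set `A`, hence bounded on the compact set `cthickening ε K`. For `lam` minimise the continuous positive
function `(q, m) ↦ lin F q m` on the product of the compact sets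
`{q ∈ K | q.1 ∈ Icc 0 1 ∧ q.2.2.2.2 ∈ cB n ∧ Sym q.2.1}` and `{m | Psd m ∧ ‖m‖ = 1}`
(`IsCompact.exists_forall_le'`); `‖ins n‖ ≤ 1`. -/
theorem fam_consts (hF : Fam A F) {K : Set (ℝ × Jet n)} (hK : IsCompact K) (hKA : K ⊆ A) :
    ∃ lam C ε : ℝ, 0 < lam ∧ 1 ≤ C ∧ 0 < ε ∧ ∀ q ∈ K, ‖q‖ ≤ C ∧ closedBall q ε ⊆ A ∧
      (∀ q' ∈ closedBall q ε, ‖fderiv ℝ F q'‖ ≤ C) ∧ ‖fderiv ℝ (fderiv ℝ F) q‖ ≤ C ∧
      (q.1 ∈ Icc (0 : ℝ) 1 → q.2.2.2.2 ∈ cB n → Sym q.2.1 → Ell lam C (lin F q)) := by
  have : ProperSpace (ℝ × Jet n) := FiniteDimensional.proper_real _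
  have : ProperSpace (B2 n) := FiniteDimensional.proper_real _
  obtain ⟨ε, hε, hεA⟩ := hK.exists_cthickening_subset_open hF.isOpen hKA
  have c1 : ContinuousOn (fderiv ℝ F) A :=
    hF.smooth.continuousOn_fderiv_of_isOpen hF.isOpen (by simp)
  have c2 : ContinuousOn (fderiv ℝ (fderiv ℝ F)) A :=
    (hF.smooth.fderiv_of_isOpen (m := 1) hF.isOpen (by norm_cast)).continuousOn_fderiv_of_isOpen
      hF.isOpen le_rfl
  obtain ⟨C0, h0⟩ := hK.exists_bound_of_continuousOn continuousOn_id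
  obtain ⟨C1, h1⟩ := (hK.cthickening (r := ε)).exists_bound_of_continuousOn (c1.mono hεA)
  obtain ⟨C2, h2⟩ := hK.exists_bound_of_continuousOn (c2.mono hKA)
  have k1 : IsCompact (K ∩ {q | q.1 ∈ Icc (0 : ℝ) 1 ∧ q.2.2.2.2 ∈ cB n ∧ Sym q.2.1}) :=
    hK.inter_right ((isClosed_Icc.preimage continuous_fst).inter
      ((isClosed_cB.preimage (by fun_prop)).inter (afam_closed_sym.preimage (by fun_prop))))
  have k2 : IsCompact (sphere (0 : B2 n) 1 ∩ {m | Psd m}) :=
    (isCompact_sphere _ _).inter_right afam_closed_psd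
  obtain ⟨lam, hlam, hl⟩ := (k1.prod k2).exists_forall_le' (a := (0 : ℝ))
    (f := fun qm : (ℝ × Jet n) × B2 n => fderiv ℝ F qm.1 (ins n qm.2))
    ((c1.comp continuousOn_fst fun qm h => hKA h.1.1).clm_apply
      ((ins n).continuous.comp continuous_snd).continuousOn) (by
      rintro ⟨⟨t, r, p, z, x⟩, m⟩ ⟨⟨hq, ht, hx, hr⟩, hm1, hm⟩
      refine hF.ell t ht r p z x hx hr (hKA hq) m hm ?_
      rintro rfl
      simp at hm1)
  refine ⟨lam, max (max C0 C1) (max C2 1), ε, hlam, le_max_of_le_right (le_max_right _ _), hε,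
    fun q hq => ?_⟩
  have hb := closedBall_subset_cthickening hq ε
  have b1 : ∀ q' ∈ closedBall q ε, ‖fderiv ℝ F q'‖ ≤ max (max C0 C1) (max C2 1) := fun q' h =>
    (h1 q' (hb h)).trans (le_max_of_le_left (le_max_right _ _))
  refine ⟨(h0 q hq).trans (le_max_of_le_left (le_max_left _ _)), hb.trans hεA, b1,
    (h2 q hq).trans (le_max_of_le_right (le_max_left _ _)), fun ht hx hr => ⟨fun m hm => ?_, ?_⟩⟩
  · rcases eq_or_ne m 0 with rfl | hm0
    · simp
    · have hn : 0 < ‖m‖ := norm_pos_iff.2 hm0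
      have h := hl (q, ‖m‖⁻¹ • m) ⟨⟨hq, ht, hx, hr⟩, by
        rw [mem_sphere_zero_iff_norm, norm_smul, norm_inv, norm_norm, inv_mul_cancel₀ hn.ne'],
        afam_psd_smul hm (inv_nonneg.2 hn.le)⟩
      change lam ≤ lin F q (‖m‖⁻¹ • m) at h
      rw [map_smul, smul_eq_mul, le_inv_mul_iff₀ hn] at h
      linarith
  · refine (ContinuousLinearMap.opNorm_comp_le _ _).trans ?_
    exact (mul_le_of_le_one_right (norm_nonneg _) afam_norm_ins).trans
      (b1 q (mem_closedBall_self hε.le))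

/-- The function `s ↦ F (t, r + s • (r' - r), p, z, x)` is concave on `[0, 1]` (`Fam.conc`) and has derivative
`lin F q (r' - r)` at `0` (`ConcaveOn.slope_le_of_hasDerivAt`-type lemma, or a limit of slopes). -/
theorem fam_tangent (hF : Fam A F) {t : ℝ} (ht : t ∈ Icc (0 : ℝ) 1) {r r' : B2 n} {p : B1 n} {z : ℝ}
    {x : E n} (hx : x ∈ cB n) (hr : Sym r) (hr' : Sym r') (h : (t, r, p, z, x) ∈ A)
    (h' : (t, r', p, z, x) ∈ A) :
    F (t, r', p, z, x) ≤ F (t, r, p, z, x) + lin F (t, r, p, z, x) (r' - r) := by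
  have hc := (hF.conc t ht p z x hx).comp_affineMap (AffineMap.lineMap r r')
  have hd : DifferentiableAt ℝ F ((t, r, p, z, x) + (0 : ℝ) • ins n (r' - r)) := by
    rw [zero_smul, add_zero]
    exact (hF.smooth.contDiffAt (hF.isOpen.mem_nhds h)).differentiableAt (by simp)
  have h1 := afam_hasDerivAt hd
  rw [zero_smul, add_zero] at h1
  have e : (fun u : ℝ => F ((t, r, p, z, x) + u • ins n (r' - r))) =
      (fun r => F (t, r, p, z, x)) ∘ AffineMap.lineMap r r' := by
    funext u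
    rw [afam_line, Function.comp_apply, AffineMap.lineMap_apply_module', add_comm]
  rw [e] at h1
  have h2 := hc.slope_le_of_hasDerivAt (x := 0) (y := 1) (by simpa using ⟨hr, h⟩)
    (by simpa using ⟨hr', h'⟩) one_pos h1
  rw [slope_def_field] at h2
  simp only [Function.comp_apply, AffineMap.lineMap_apply_zero, AffineMap.lineMap_apply_one,
    sub_zero, div_one] at h2
  change _ ≤ lin F (t, r, p, z, x) (r' - r) at h2
  linarith

/-- By `fam_tangent` the function `s ↦ s * lin F q X - F (q + s • ins X)` has a local minimum at `0`;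
`second_nonneg`. -/
theorem fam_second (hF : Fam A F) {t : ℝ} (ht : t ∈ Icc (0 : ℝ) 1) {r X : B2 n} {p : B1 n} {z : ℝ}
    {x : E n} (hx : x ∈ cB n) (hr : Sym r) (hX : Sym X) (h : (t, r, p, z, x) ∈ A) :
    fderiv ℝ (fderiv ℝ F) (t, r, p, z, x) (ins n X) (ins n X) ≤ 0 := by
  set q : ℝ × Jet n := (t, r, p, z, x) with hq
  have hc : ContinuousAt (fun u : ℝ => q + u • ins n X) 0 := by fun_prop
  have hA : ∀ᶠ u : ℝ in 𝓝 0, q + u • ins n X ∈ A :=
    hc.eventually (hF.isOpen.mem_nhds (by simpa using h))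
  have hd : DifferentiableAt ℝ (fderiv ℝ F) (q + (0 : ℝ) • ins n X) := by
    rw [zero_smul, add_zero]
    exact ((hF.smooth.fderiv_of_isOpen (m := 1) hF.isOpen (by norm_cast)).contDiffAt
      (hF.isOpen.mem_nhds h)).differentiableAt (by simp)
  have h2 := ((afam_hasDerivAt hd).clm_apply (hasDerivAt_const (0 : ℝ) (ins n X))).const_sub
    (lin F q X)
  rw [zero_smul, add_zero, map_zero, add_zero] at h2
  have h3 := second_nonneg (φ := fun u : ℝ => u * lin F q X - F (q + u • ins n X))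
    (hA.mono fun u hu => by
      have := ((hasDerivAt_id u).mul_const (lin F q X)).sub (afam_hasDerivAt
        ((hF.smooth.contDiffAt (hF.isOpen.mem_nhds hu)).differentiableAt (by simp)))
      rwa [one_mul] at this) h2 (hA.mono fun u hu => by
      rw [hq, afam_line] at hu
      have := fam_tangent hF ht hx hr (afam_sym_line hr hX u) h hu
      rw [add_sub_cancel_left, map_smul, smul_eq_mul] at this
      simp only [zero_smul, add_zero, zero_mul]
      rw [hq, afam_line]
      linarith)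
  linarith

end Pool.Agent.Mink.A
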