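import Pool.Agent.Lib.MP_88c759_an.Mink.ADD

/-! A quantitative Hopf lemma. -/

set_option maxSynthPendingDepth 3

namespace Pool.Agent.Mink.A

open scoped ContDiff Topology
open Set Metric Filter MeasureTheory

variable {n : ℕ}

/-- The barrier function. -/
noncomputable def ahopfPsi (γ ρ : ℝ) (z : E n) (y : E n) : ℝ :=
  Real.exp (-(γ / ρ ^ 2) * ‖y - z‖ ^ 2) - Real.exp (-(25 * γ))

lemma ahopf_contDiff (γ ρ : ℝ) (z : E n) : ContDiff ℝ 2 (ahopfPsi γ ρ z) := by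
  have h : ContDiff ℝ 2 fun y : E n => ‖y - z‖ ^ 2 :=
    (contDiff_normsq z).of_le (WithTop.coe_le_coe.2 (le_top : (2 : ℕ∞) ≤ ⊤))
  exact ((contDiff_const.mul h).exp).sub contDiff_const

lemma ahopf_DD (γ ρ : ℝ) (z x : E n) : DD (ahopfPsi γ ρ z) x =
    (-(γ / ρ ^ 2) * Real.exp (-(γ / ρ ^ 2) * ‖x - z‖ ^ 2)) • ((2 : ℝ) • II n) +
      ((γ / ρ ^ 2) ^ 2 * Real.exp (-(γ / ρ ^ 2) * ‖x - z‖ ^ 2)) • tt ((2 : ℝ) • II n (x - z)) := by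
  have h : ContDiffAt ℝ 2 (fun y : E n => ‖y - z‖ ^ 2) x :=
    ((contDiff_normsq z).of_le (WithTop.coe_le_coe.2 (le_top : (2 : ℕ∞) ≤ ⊤))).contDiffAt
  have he : ∀ t : ℝ, HasDerivAt (fun t : ℝ => Real.exp (-(γ / ρ ^ 2) * t))
      (-(γ / ρ ^ 2) * Real.exp (-(γ / ρ ^ 2) * t)) t := by
    intro t
    have := ((hasDerivAt_id t).const_mul (-(γ / ρ ^ 2))).exp
    simpa [mul_comm] using this
  have h1 : ∀ t : ℝ, HasDerivAt (fun t : ℝ => Real.exp (-(γ / ρ ^ 2) * t) - Real.exp (-(25 * γ)))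
      (-(γ / ρ ^ 2) * Real.exp (-(γ / ρ ^ 2) * t)) t := fun t => (he t).sub_const _
  have h2 : HasDerivAt (fun t : ℝ => -(γ / ρ ^ 2) * Real.exp (-(γ / ρ ^ 2) * t))
      ((γ / ρ ^ 2) ^ 2 * Real.exp (-(γ / ρ ^ 2) * ‖x - z‖ ^ 2)) (‖x - z‖ ^ 2) := by
    have := (he (‖x - z‖ ^ 2)).const_mul (-(γ / ρ ^ 2))
    refine this.congr_deriv ?_
    ring
  have := DD_comp h h1 h2
  rw [DD_normsq, (hasFDerivAt_normsq z x).fderiv] at this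
  exact this

lemma ahopf_ell {lam Lam γ ρ : ℝ} (hlam : 0 < lam) (hγ : 1 ≤ γ) (hγ2 : 2 * |Lam| + 1 ≤ γ * lam)
    (hρ : 0 < ρ) {l : B2 n →L[ℝ] ℝ} (hl : Ell lam Lam l) {z x : E n} (h1 : ρ / 2 ≤ ‖x - z‖)
    (h2 : ‖x - z‖ ≤ 5 * ρ) : Real.exp (-(25 * γ)) ≤ ρ ^ 2 * l (DD (ahopfPsi γ ρ z) x) := by
  rw [ahopf_DD, map_add, map_smul, map_smul, map_smul, smul_eq_mul, smul_eq_mul, smul_eq_mul]
  set e := Real.exp (-(γ / ρ ^ 2) * ‖x - z‖ ^ 2) with he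
  have hρ2 : 0 < ρ ^ 2 := by positivity
  have hd2 : ‖x - z‖ ^ 2 ≤ 25 * ρ ^ 2 := by nlinarith [norm_nonneg (x - z)]
  have hd1 : ρ ^ 2 ≤ 4 * ‖x - z‖ ^ 2 := by nlinarith
  have he0 : Real.exp (-(25 * γ)) ≤ e := by
    apply Real.exp_le_exp.2
    have : γ / ρ ^ 2 * ‖x - z‖ ^ 2 ≤ γ / ρ ^ 2 * (25 * ρ ^ 2) :=
      mul_le_mul_of_nonneg_left hd2 (by positivity)
    have h3 : γ / ρ ^ 2 * (25 * ρ ^ 2) = 25 * γ := by field_simp
    linarith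
  have hepos : 0 < e := Real.exp_pos _
  have hI : l (II n) ≤ |Lam| := (le_abs_self _).trans ((ell_II hl).trans (le_abs_self _))
  have hT : lam * ρ ^ 2 ≤ l (tt ((2 : ℝ) • II n (x - z))) := by
    refine le_trans ?_ (ell_tt hl _)
    rw [norm_smul, norm_II_apply, Real.norm_two]
    apply mul_le_mul_of_nonneg_left _ hlam.le
    nlinarith
  have hc : ρ ^ 2 * (-(γ / ρ ^ 2) * e * (2 * l (II n)) +
      (γ / ρ ^ 2) ^ 2 * e * l (tt ((2 : ℝ) • II n (x - z)))) =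
      γ * e * (-(2 * l (II n)) + γ * (l (tt ((2 : ℝ) • II n (x - z))) / ρ ^ 2)) := by
    field_simp
  rw [hc]
  have hT' : lam ≤ l (tt ((2 : ℝ) • II n (x - z))) / ρ ^ 2 := by
    rw [le_div_iff₀ hρ2]; exact hT
  have h4 : γ * lam ≤ γ * (l (tt ((2 : ℝ) • II n (x - z))) / ρ ^ 2) :=
    mul_le_mul_of_nonneg_left hT' (by linarith)
  have h5 : 1 ≤ -(2 * l (II n)) + γ * (l (tt ((2 : ℝ) • II n (x - z))) / ρ ^ 2) := by linarith
  have h6 : e ≤ γ * e := le_mul_of_one_le_left hepos.le hγ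
  calc Real.exp (-(25 * γ)) ≤ γ * e * 1 := by linarith
    _ ≤ _ := mul_le_mul_of_nonneg_left h5 (by positivity)

lemma ahopf_le_one {γ ρ : ℝ} (hγ : 1 ≤ γ) (z x : E n) : ahopfPsi γ ρ z x ≤ 1 := by
  have h1 : Real.exp (-(γ / ρ ^ 2) * ‖x - z‖ ^ 2) ≤ 1 := by
    apply Real.exp_le_one_iff.2
    have : 0 ≤ γ / ρ ^ 2 * ‖x - z‖ ^ 2 := by positivity
    linarith
  have h2 := Real.exp_pos (-(25 * γ))
  unfold ahopfPsi
  linarith

lemma ahopf_outer {γ ρ : ℝ} (hρ : 0 < ρ) {z x : E n} (h : ‖x - z‖ = 5 * ρ) :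
    ahopfPsi γ ρ z x = 0 := by
  unfold ahopfPsi
  have : -(γ / ρ ^ 2) * ‖x - z‖ ^ 2 = -(25 * γ) := by
    rw [h]; field_simp; norm_num
  rw [this, sub_self]

lemma ahopf_lower {γ ρ : ℝ} (hγ : 1 ≤ γ) (hρ : 0 < ρ) {z x : E n} (h : ‖x - z‖ ≤ 5 * ρ) :
    Real.exp (-(25 * γ)) * (5 * ρ - ‖x - z‖) ≤ ρ * ahopfPsi γ ρ z x := by
  unfold ahopfPsi
  have hρ2 : 0 < ρ ^ 2 := by positivity
  have hk := Real.exp_pos (-(25 * γ))
  have hd := norm_nonneg (x - z)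
  set d := ‖x - z‖ with hd'
  have h1 : Real.exp (-(γ / ρ ^ 2) * d ^ 2) =
      Real.exp (-(25 * γ)) * Real.exp (γ * ((25 * ρ ^ 2 - d ^ 2) / ρ ^ 2)) := by
    rw [← Real.exp_add]; congr 1; field_simp; ring
  have h2 := Real.add_one_le_exp (γ * ((25 * ρ ^ 2 - d ^ 2) / ρ ^ 2))
  have h3 : 0 ≤ (25 * ρ ^ 2 - d ^ 2) / ρ ^ 2 := div_nonneg (by nlinarith) hρ2.le
  have h4 : (25 * ρ ^ 2 - d ^ 2) / ρ ^ 2 ≤ γ * ((25 * ρ ^ 2 - d ^ 2) / ρ ^ 2) :=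
    le_mul_of_one_le_left h3 hγ
  have h5 : 5 * ρ - d ≤ ρ * ((25 * ρ ^ 2 - d ^ 2) / ρ ^ 2) := by
    have : ρ * ((25 * ρ ^ 2 - d ^ 2) / ρ ^ 2) = (5 * ρ - d) * ((5 * ρ + d) / ρ) := by
      field_simp; ring
    rw [this]
    apply le_mul_of_one_le_right (by linarith)
    rw [le_div_iff₀ hρ]; linarith
  have h6 : 5 * ρ - d ≤ ρ * (Real.exp (γ * ((25 * ρ ^ 2 - d ^ 2) / ρ ^ 2)) - 1) :=
    h5.trans (mul_le_mul_of_nonneg_left (by linarith) hρ.le)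
  rw [h1]
  calc Real.exp (-(25 * γ)) * (5 * ρ - d)
      ≤ Real.exp (-(25 * γ)) * (ρ * (Real.exp (γ * ((25 * ρ ^ 2 - d ^ 2) / ρ ^ 2)) - 1)) :=
        mul_le_mul_of_nonneg_left h6 hk.le
    _ = _ := by ring

/-- Comparison with the barrier on the annulus. -/
lemma ahopf_compare {lam Lam γ ρ K A : ℝ} (hlam : 0 < lam) (hγ : 1 ≤ γ)
    (hγ2 : 2 * |Lam| + 1 ≤ γ * lam) (hρ : 0 < ρ) (hA : 0 ≤ A)
    (hKA : K * ρ ^ 2 < Real.exp (-(25 * γ)) * A) {W : E n → ℝ} {z : E n}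
    (hW : ContinuousOn W (closedBall z (5 * ρ))) (h0 : ∀ x ∈ closedBall z (5 * ρ), 0 ≤ W x)
    (hS : ∀ x ∈ ball z (5 * ρ), Sup lam Lam K W x) (hAW : ∀ x ∈ closedBall z (ρ / 2), A ≤ W x)
    {x : E n} (hx1 : ρ / 2 ≤ ‖x - z‖) (hx2 : ‖x - z‖ ≤ 5 * ρ) : A * ahopfPsi γ ρ z x ≤ W x := by
  set S : Set (E n) := closedBall z (5 * ρ) \ ball z (ρ / 2) with hSdef
  have hmem : ∀ y, y ∈ S ↔ ρ / 2 ≤ ‖y - z‖ ∧ ‖y - z‖ ≤ 5 * ρ := by
    intro y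
    simp only [hSdef, Set.mem_sdiff, mem_closedBall, mem_ball, dist_eq_norm, not_lt]
    tauto
  have hSc : IsCompact S := (isCompact_closedBall z _).diff isOpen_ball
  have hψ := ahopf_contDiff γ ρ z
  have hcont : ContinuousOn (fun y => W y - A * ahopfPsi γ ρ z y) S :=
    (hW.mono sdiff_subset).sub (continuous_const.mul hψ.continuous).continuousOn
  obtain ⟨y, hy, hmin⟩ := hSc.exists_isMinOn ⟨x, (hmem x).2 ⟨hx1, hx2⟩⟩ hcont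
  obtain ⟨hy1, hy2⟩ := (hmem y).1 hy
  have hxy : W y - A * ahopfPsi γ ρ z y ≤ W x - A * ahopfPsi γ ρ z x :=
    hmin ((hmem x).2 ⟨hx1, hx2⟩)
  suffices h : 0 ≤ W y - A * ahopfPsi γ ρ z y by linarith
  rcases hy1.eq_or_lt with h1 | h1
  · have h2 : A ≤ W y := hAW y (by rw [mem_closedBall, dist_eq_norm]; exact h1.ge)
    have h3 : A * ahopfPsi γ ρ z y ≤ A := mul_le_of_le_one_right hA (ahopf_le_one hγ z y)
    linarith
  rcases hy2.eq_or_lt with h2 | h2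
  · rw [ahopf_outer hρ h2, mul_zero, sub_zero]
    exact h0 y hy.1
  exfalso
  have hyb : y ∈ ball z (5 * ρ) := by rw [mem_ball, dist_eq_norm]; exact h2
  obtain ⟨hC2, l, hl, hK⟩ := hS y hyb
  have hnh : S ∈ 𝓝 y := by
    have ho : IsOpen (ball z (5 * ρ) \ closedBall z (ρ / 2)) := isOpen_ball.sdiff isClosed_closedBall
    refine mem_of_superset (ho.mem_nhds ⟨hyb, ?_⟩)
      (sdiff_subset_sdiff ball_subset_closedBall ball_subset_closedBall)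
    rw [mem_closedBall, dist_eq_norm, not_le]; exact h1
  have hloc : IsLocalMin (fun y => W y - A * ahopfPsi γ ρ z y) y := hmin.isLocalMin hnh
  have hAψ : ContDiffAt ℝ 2 (fun y => A * ahopfPsi γ ρ z y) y :=
    contDiffAt_const.mul hψ.contDiffAt
  have hpsd := psd_of_isLocalMin (hC2.sub hAψ) hloc
  have h3 := ell_nonneg hl hlam.le hpsd
  rw [DD_sub hC2 hAψ, DD_const_mul A hψ.contDiffAt, map_sub, map_smul, smul_eq_mul] at h3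
  have h4 := ahopf_ell hlam hγ hγ2 hρ hl hy1 hy2
  have h5 : A * l (DD (ahopfPsi γ ρ z) y) ≤ K := by linarith
  have h6 := mul_le_mul_of_nonneg_left h4 hA
  have h7 := mul_le_mul_of_nonneg_left h5 (sq_nonneg ρ)
  nlinarith

/-- Barrier `ψ x = exp (-γ ‖x - z‖ ^ 2 / ρ ^ 2) - exp (-25 γ)` with `γ ≥ 1`, `γ lam ≥ 2 |Lam| + 1`. By
`DD_comp`, `DD_normsq`, `ell_tt`, `ell_II`, on the annulus `ρ / 2 ≤ ‖x - z‖ ≤ 5 ρ` one has
`ρ ^ 2 * l (DD ψ x) ≥ exp (-25 γ) * (γ ^ 2 lam - 2 γ Lam) ≥ exp (-25 γ) =: κ0`. If `K ρ ^ 2 < κ0 A` then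
`W - A ψ` has no interior minimum on the annulus (`psd_of_isLocalMin`), and it is nonnegative on both
spheres; moreover `ψ x ≥ κ0 γ (25 - t ^ 2) ≥ 5 κ0 (5 - t)` for `t = ‖x - z‖ / ρ` (`Real.add_one_le_exp`).
Take `κ = min (1 / 5) κ0` and `C = κ / κ0`; if `κ0 A ≤ K ρ ^ 2` the left side is not positive. -/
theorem hopf {lam : ℝ} (hlam : 0 < lam) (Lam : ℝ) : ∃ κ C : ℝ, 0 < κ ∧ κ ≤ 1 ∧ 0 ≤ C ∧
    ∀ (W : E n → ℝ) (z : E n) (ρ K A : ℝ), 0 < ρ → 0 ≤ K → ContinuousOn W (closedBall z (5 * ρ)) →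
      (∀ x ∈ closedBall z (5 * ρ), 0 ≤ W x) → (∀ x ∈ ball z (5 * ρ), Sup lam Lam K W x) →
      (∀ x ∈ closedBall z (ρ / 2), A ≤ W x) →
      ∀ x ∈ closedBall z (5 * ρ), (κ * A - C * K * ρ ^ 2) * (5 * ρ - ‖x - z‖) ≤ ρ * W x := by
  obtain ⟨γ, hγ, hγ2⟩ : ∃ γ : ℝ, 1 ≤ γ ∧ 2 * |Lam| + 1 ≤ γ * lam := by
    refine ⟨max 1 ((2 * |Lam| + 1) / lam), le_max_left _ _, ?_⟩
    rw [← div_le_iff₀ hlam]
    exact le_max_right _ _
  have hk := Real.exp_pos (-(25 * γ))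
  have hk1 : Real.exp (-(25 * γ)) ≤ 1 := Real.exp_le_one_iff.2 (by linarith)
  refine ⟨Real.exp (-(25 * γ)) / 5, 1 / 5, by positivity, by linarith, by norm_num, ?_⟩
  intro W z ρ K A hρ hK hW h0 hS hAW x hx
  have hx2 : ‖x - z‖ ≤ 5 * ρ := by rwa [mem_closedBall, dist_eq_norm] at hx
  have hd := norm_nonneg (x - z)
  have hWx := h0 x hx
  have hKρ : 0 ≤ K * ρ ^ 2 := by positivity
  rcases le_or_gt (Real.exp (-(25 * γ)) * A) (K * ρ ^ 2) with h | h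
  · have h1 : Real.exp (-(25 * γ)) / 5 * A - 1 / 5 * K * ρ ^ 2 ≤ 0 := by linarith
    exact (mul_nonpos_of_nonpos_of_nonneg h1 (by linarith)).trans (by positivity)
  have hA : 0 ≤ A := by
    by_contra hA
    have := mul_neg_of_pos_of_neg hk (not_le.1 hA)
    linarith
  have hkA : 0 ≤ Real.exp (-(25 * γ)) * A := by positivity
  have h1 : (Real.exp (-(25 * γ)) / 5 * A - 1 / 5 * K * ρ ^ 2) * (5 * ρ - ‖x - z‖) ≤
      (Real.exp (-(25 * γ)) * A / 5) * (5 * ρ - ‖x - z‖) :=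
    mul_le_mul_of_nonneg_right (by linarith) (by linarith)
  refine h1.trans ?_
  rcases le_total ‖x - z‖ (ρ / 2) with h2 | h2
  · have h3 : A ≤ W x := hAW x (by rwa [mem_closedBall, dist_eq_norm])
    have h4 : Real.exp (-(25 * γ)) * A ≤ A := mul_le_of_le_one_left hA hk1
    have h5 : (Real.exp (-(25 * γ)) * A / 5) * (5 * ρ - ‖x - z‖) ≤ (W x / 5) * (5 * ρ) :=
      mul_le_mul (by linarith) (by linarith) (by linarith) (by positivity)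
    linarith
  · have h3 := ahopf_compare hlam hγ hγ2 hρ hA h hW h0 hS hAW h2 hx2
    have h4 := mul_le_mul_of_nonneg_left (ahopf_lower hγ hρ hx2) hA
    have h5 := mul_le_mul_of_nonneg_left h3 hρ.le
    have h6 : 0 ≤ Real.exp (-(25 * γ)) * A * (5 * ρ - ‖x - z‖) :=
      mul_nonneg hkA (by linarith)
    nlinarith

end Pool.Agent.Mink.A
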