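import Pool.Agent.Lib.MP_88c759_an.Mink.AGrow
import Pool.Agent.Lib.MP_88c759_an.Mink.AHopf
import Pool.Agent.Lib.MP_88c759_an.Mink.AIter

/-! The boundary estimate of Krylov. -/

set_option maxSynthPendingDepth 3

namespace Pool.Agent.Mink.A

open scoped ContDiff Topology
open Set Metric Filter MeasureTheory

variable {n : ℕ}

lemma akry_tri (u z y : E n) : ‖u - y‖ ≤ ‖u - z‖ + ‖z - y‖ := norm_sub_le_norm_sub_add_norm_sub u z y

lemma akry_norm {y : E n} (hy : ‖y‖ = 1) {t : ℝ} (ht : t ≤ 1) : ‖(1 - t) • y‖ = 1 - t := by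
  rw [norm_smul, hy, mul_one, Real.norm_of_nonneg (by linarith)]

lemma akry_dist {y : E n} (hy : ‖y‖ = 1) {t : ℝ} (ht : 0 ≤ t) : ‖(1 - t) • y - y‖ = t := by
  have e : (1 - t) • y - y = (-t) • y := by module
  rw [e, norm_smul, hy, mul_one, norm_neg, Real.norm_of_nonneg ht]

lemma akry_le {y u : E n} (hy : ‖y‖ = 1) {t : ℝ} (ht : t ≤ 1) :
    ‖u‖ ≤ ‖u - (1 - t) • y‖ + (1 - t) := by
  have := akry_tri u ((1 - t) • y) 0
  rwa [sub_zero, sub_zero, akry_norm hy ht] at this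

lemma akry_dd {x : E n} (hx : ‖x‖ ≤ 1) : 1 - ‖x‖ ≤ dd x ∧ dd x ≤ 2 * (1 - ‖x‖) := by
  have := norm_nonneg x
  unfold dd
  constructor <;> nlinarith

/-- Let `ρ = r / 12`, `z = (1 - 5 ρ) • x0`. Apply `growth` (with `Z = cB n`, `δ = 1 / 2`) on `ball z ρ`:
`W ≥ c h - K ρ ^ 2` on `closedBall z ρ`. For `x ∈ cB n ∩ closedBall x0 (ρ / 4)` let `y = ‖x‖⁻¹ • x`, so
`‖y - x0‖ ≤ ρ / 2`, and apply `hopf` with centre `(1 - 5 ρ) • y`; `5 ρ - ‖x - (1 - 5 ρ) • y‖ = 1 - ‖x‖`, which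
lies between `dd x / 2` and `dd x`. -/
theorem kry_lower {lam : ℝ} (hlam : 0 < lam) (Lam : ℝ) : ∃ c C : ℝ, 0 < c ∧ c ≤ 1 ∧ 0 ≤ C ∧
    ∀ (W : E n → ℝ) (r K s : ℝ), ∀ x0 ∈ sB n, 0 < r → r ≤ 1 → 0 ≤ K → 0 ≤ s →
      ContinuousOn W (cB n) → (∀ x ∈ cB n ∩ closedBall x0 r, 0 ≤ W x) →
      (∀ x ∈ oB n, Sup lam Lam K W x) →
      ENNReal.ofReal (1 / 2) * volume (ball ((1 - 5 * (r / 12)) • x0) (r / 12)) ≤
        volume (ball ((1 - 5 * (r / 12)) • x0) (r / 12) ∩ {x | s * r ≤ W x}) →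
      ∀ x ∈ cB n ∩ closedBall x0 (1 / 48 * r), (c * s - C * K * r) * dd x ≤ W x := by
  obtain ⟨c1, hc1, hc1', hg⟩ := growth (n := n) hlam Lam (δ := 1 / 2) (by norm_num)
  obtain ⟨κ, C2, hκ, hκ', hC2, hh⟩ := hopf (n := n) hlam Lam
  refine ⟨κ * c1, κ + C2, by positivity, mul_le_one₀ hκ' hc1.le hc1', by positivity, ?_⟩
  intro W r K s x0 hx0 hr hr1 hK hs hW hW0 hS hvol x hx
  obtain ⟨ρ, hρ⟩ : ∃ ρ, ρ = r / 12 := ⟨_, rfl⟩
  rw [← hρ] at hvol
  have hρ0 : 0 < ρ := by linarith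
  have h5 : 5 * ρ ≤ 1 := by linarith
  have h5' : 0 ≤ 5 * ρ := by linarith
  rw [mem_sB] at hx0
  have hA : ∀ u ∈ cB n ∩ closedBall ((1 - 5 * ρ) • x0) ρ, c1 * (s * r) - K * ρ ^ 2 ≤ W u := by
    refine hg (cB n) W _ ρ K (s * r) isClosed_cB hρ0 hK (hW.mono inter_subset_left) ?_ ?_ ?_
    · intro u hu
      refine hW0 u ⟨hu.1, ?_⟩
      have h1 := hu.2
      rw [mem_closedBall, dist_eq_norm] at h1 ⊢
      have h2 := akry_tri u ((1 - 5 * ρ) • x0) x0
      rw [akry_dist hx0 h5'] at h2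
      linarith
    · intro u hu _
      have h1 := hu.2
      rw [mem_ball, dist_eq_norm] at h1
      have h2 := akry_le (u := u) hx0 h5
      have h3 : u ∈ oB n := mem_oB.2 (by linarith)
      exact ⟨cB_mem_nhds h3, hS u h3⟩
    · refine hvol.trans (measure_mono ?_)
      rintro u ⟨h1, h2⟩
      exact ⟨h1, fun h3 => absurd h3.2 (not_lt.2 h2)⟩
  have hx1 : ‖x‖ ≤ 1 := mem_cB.1 hx.1
  have hx2 : ‖x - x0‖ ≤ ρ / 4 := by
    have h1 := hx.2
    rw [mem_closedBall, dist_eq_norm] at h1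
    linarith
  have hx3 : 1 - ρ / 4 ≤ ‖x‖ := by
    have h1 := akry_tri x0 x 0
    rw [sub_zero, sub_zero, hx0, norm_sub_rev] at h1
    linarith
  have hxp : 0 < ‖x‖ := by linarith
  obtain ⟨y, hy, hxy⟩ : ∃ y : E n, ‖y‖ = 1 ∧ x = ‖x‖ • y :=
    ⟨‖x‖⁻¹ • x, by rw [norm_smul, norm_inv, norm_norm, inv_mul_cancel₀ hxp.ne'],
      by rw [smul_smul, mul_inv_cancel₀ hxp.ne', one_smul]⟩
  obtain ⟨a, ha⟩ : ∃ a, a = ‖x‖ := ⟨_, rfl⟩
  have hxa : x = a • y := by rw [ha]; exact hxy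
  have hyx : ‖y - x‖ = 1 - a := by
    have e : y - x = (1 - a) • y := by rw [hxa]; module
    rw [e, akry_norm hy (by linarith)]
  have hy0 : ‖y - x0‖ ≤ ρ / 2 := by
    have h1 := akry_tri y x x0
    linarith
  have hxz : ‖x - (1 - 5 * ρ) • y‖ = a - 1 + 5 * ρ := by
    have e : x - (1 - 5 * ρ) • y = (a - 1 + 5 * ρ) • y := by rw [hxa]; module
    rw [e, norm_smul, hy, mul_one, Real.norm_of_nonneg (by linarith)]
  have hzz : ‖(1 - 5 * ρ) • y - (1 - 5 * ρ) • x0‖ ≤ ρ / 2 := by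
    rw [← smul_sub, norm_smul, Real.norm_of_nonneg (by linarith)]
    have := norm_nonneg (y - x0)
    nlinarith
  have hsub : ∀ u ∈ closedBall ((1 - 5 * ρ) • y) (5 * ρ), u ∈ cB n ∩ closedBall x0 r := by
    intro u hu
    rw [mem_closedBall, dist_eq_norm] at hu
    have h1 := akry_le (u := u) hy h5
    have h2 := akry_tri u ((1 - 5 * ρ) • y) y
    rw [akry_dist hy h5'] at h2
    have h3 := akry_tri u y x0
    refine ⟨mem_cB.2 (by linarith), ?_⟩
    rw [mem_closedBall, dist_eq_norm]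
    linarith
  have key := hh W ((1 - 5 * ρ) • y) ρ K (c1 * (s * r) - K * ρ ^ 2) hρ0 hK
    (hW.mono fun u hu => (hsub u hu).1) (fun u hu => hW0 u (hsub u hu)) (fun u hu => by
      rw [mem_ball, dist_eq_norm] at hu
      have h1 := akry_le (u := u) hy h5
      exact hS u (mem_oB.2 (by linarith))) (fun u hu => by
      refine hA u ⟨(hsub u (closedBall_subset_closedBall (by linarith) hu)).1, ?_⟩
      rw [mem_closedBall, dist_eq_norm] at hu ⊢
      have h1 := akry_tri u ((1 - 5 * ρ) • y) ((1 - 5 * ρ) • x0)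
      linarith) x (by rw [mem_closedBall, dist_eq_norm, hxz]; linarith)
  rw [hxz] at key
  have hWx : 0 ≤ W x := hW0 x ⟨hx.1, closedBall_subset_closedBall (by linarith) hx.2⟩
  obtain ⟨d1, d2⟩ := akry_dd hx1
  rw [← ha] at d1 d2
  have ha1 : 0 ≤ 1 - a := by linarith
  have hr12 : r = 12 * ρ := by linarith
  have k2 : (12 * (κ * c1 * s) - (κ + C2) * K * ρ) * (1 - a) ≤ W x := by
    refine le_of_mul_le_mul_left (le_trans (le_of_eq ?_) key) hρ0
    rw [hr12]; ring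
  rcases le_total (κ * c1 * s - (κ + C2) * K * r) 0 with h | h
  · exact (mul_nonpos_of_nonpos_of_nonneg h (by linarith)).trans hWx
  · refine (mul_le_mul_of_nonneg_left d2 h).trans (le_trans ?_ k2)
    have p1 : 0 ≤ κ * c1 * s := by positivity
    have p2 : 0 ≤ (κ + C2) * K * ρ := by positivity
    have p3 : 2 * (κ * c1 * s - (κ + C2) * K * r) ≤ 12 * (κ * c1 * s) - (κ + C2) * K * ρ := by
      rw [hr12]; linarith
    have := mul_le_mul_of_nonneg_right p3 ha1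
    linarith

/-- Step of the iteration. `W1 = g - m dd` and `W2 = M dd - g` are nonnegative supersolutions with
`K = L + 2 |Lam| L` (`DD_dd`, `ell_II`; `|m|, |M| ≤ L` because `m ≤ M`). On the inner ball `dd ≥ r / 3`, so
one of them is at least `(M - m) / 6 * r` at every point (`exists_large` with two sets). Replace `m` by
`m + max 0 (c (M - m) / 6 - C K r)`, or `M` by `M - max 0 (...)`. -/
theorem kry_step {lam : ℝ} (hlam : 0 < lam) (Lam : ℝ) : ∃ γ C : ℝ, 0 ≤ γ ∧ γ < 1 ∧ 0 ≤ C ∧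
    ∀ (g : E n → ℝ) (L : ℝ), 0 ≤ L → ContinuousOn g (cB n) →
      (∀ x ∈ oB n, ContDiffAt ℝ 2 g x ∧ ∃ l : B2 n →L[ℝ] ℝ, Ell lam Lam l ∧ |l (DD g x)| ≤ L) →
      ∀ x0 ∈ sB n, ∀ r os, 0 < r → r ≤ 1 → Quo L g x0 r os →
        Quo L g x0 (1 / 48 * r) (γ * os + C * L * r) := by
  obtain ⟨c, C, hc, hc1, hC, hk⟩ := kry_lower (n := n) hlam Lam
  refine ⟨1 - c / 6, C * (1 + 2 * |Lam|), by linarith, by linarith, by positivity, ?_⟩
  rintro g L hL hg hD x0 hx0 r os hr hr1 ⟨m, M, hm, hM, hos, hb⟩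
  have hx0' := mem_sB.1 hx0
  have h5 : 5 * (r / 12) ≤ 1 := by linarith
  have hin : ∀ u ∈ ball ((1 - 5 * (r / 12)) • x0) (r / 12),
      u ∈ cB n ∩ closedBall x0 r ∧ r / 3 ≤ dd u := by
    intro u hu
    rw [mem_ball, dist_eq_norm] at hu
    have h1 := akry_le (u := u) hx0' h5
    have h2 := akry_tri u ((1 - 5 * (r / 12)) • x0) x0
    rw [akry_dist hx0' (by linarith)] at h2
    have h3 : ‖u‖ ≤ 1 := by linarith
    refine ⟨⟨mem_cB.2 h3, ?_⟩, le_trans (by linarith) (akry_dd h3).1⟩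
    rw [mem_closedBall, dist_eq_norm]
    linarith
  have hmM : m ≤ M := by
    obtain ⟨h1, h2⟩ := hin _ (mem_ball_self (by linarith))
    obtain ⟨h3, h4⟩ := hb _ h1
    exact le_of_mul_le_mul_right (h3.trans h4) (by linarith)
  have hdc : Continuous (dd : E n → ℝ) := contDiff_dd.continuous
  have hd2 : ∀ x : E n, ContDiffAt ℝ 2 dd x := fun x =>
    (contDiff_infty.1 contDiff_dd 2).contDiffAt
  have hK : 0 ≤ L + 2 * |Lam| * L := by positivity
  have hII : ∀ (l : B2 n →L[ℝ] ℝ) (a : ℝ), Ell lam Lam l → |a| ≤ L → |a * l (II n)| ≤ |Lam| * L := by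
    intro l a hl ha
    rw [abs_mul, mul_comm]
    exact mul_le_mul ((ell_II hl).trans (le_abs_self _)) ha (abs_nonneg _) (abs_nonneg _)
  have hS1 : ∀ x ∈ oB n, Sup lam Lam (L + 2 * |Lam| * L) (fun y => g y - m * dd y) x := by
    intro x hx
    obtain ⟨h1, l, hl, h2⟩ := hD x hx
    have h3 : ContDiffAt ℝ 2 (fun y => m * dd y) x := contDiffAt_const.mul (hd2 x)
    refine ⟨h1.sub h3, l, hl, ?_⟩
    rw [DD_sub h1 h3, DD_const_mul m (hd2 x), DD_dd, map_sub, map_smul, map_smul, smul_eq_mul,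
      smul_eq_mul]
    have h4 := abs_le.1 (hII l m hl (abs_le.2 ⟨hm, hmM.trans hM⟩))
    have h5 := abs_le.1 h2
    linarith [h4.2, h5.2]
  have hS2 : ∀ x ∈ oB n, Sup lam Lam (L + 2 * |Lam| * L) (fun y => M * dd y - g y) x := by
    intro x hx
    obtain ⟨h1, l, hl, h2⟩ := hD x hx
    have h3 : ContDiffAt ℝ 2 (fun y => M * dd y) x := contDiffAt_const.mul (hd2 x)
    refine ⟨h3.sub h1, l, hl, ?_⟩
    rw [DD_sub h3 h1, DD_const_mul M (hd2 x), DD_dd, map_sub, map_smul, map_smul, smul_eq_mul,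
      smul_eq_mul]
    have h4 := abs_le.1 (hII l M hl (abs_le.2 ⟨hm.trans hmM, hM⟩))
    have h5 := abs_le.1 h2
    linarith [h4.1, h5.1]
  have hs : 0 ≤ (M - m) / 6 := by linarith
  obtain ⟨i, -, hi⟩ := exists_large (Finset.univ : Finset Bool)
    (fun i => if i then {x | (M - m) / 6 * r ≤ g x - m * dd x}
      else {x | (M - m) / 6 * r ≤ M * dd x - g x}) ((1 - 5 * (r / 12)) • x0)
    (r := r / 12) (by linarith) (by
      intro u hu
      have h1 := mul_le_mul_of_nonneg_left (hin u hu).2 (sub_nonneg.2 hmM)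
      by_cases h2 : (M - m) / 6 * r ≤ g u - m * dd u
      · exact ⟨true, Finset.mem_univ _, h2⟩
      · refine ⟨false, Finset.mem_univ _, ?_⟩
        show (M - m) / 6 * r ≤ M * dd u - g u
        push Not at h2
        linarith)
  rw [Finset.card_univ, Fintype.card_bool, Nat.cast_ofNat] at hi
  have hsub : cB n ∩ closedBall x0 (1 / 48 * r) ⊆ cB n ∩ closedBall x0 r :=
    inter_subset_inter_right _ (closedBall_subset_closedBall (by linarith))
  obtain ⟨t, ht⟩ : ∃ t, t = c * ((M - m) / 6) - C * (L + 2 * |Lam| * L) * r := ⟨_, rfl⟩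
  have hfin : M - m - max 0 t ≤ (1 - c / 6) * os + C * (1 + 2 * |Lam|) * L * r := by
    have h1 := le_max_right 0 t
    have h2 := mul_le_mul_of_nonneg_left hos (show 0 ≤ 1 - c / 6 by linarith)
    linarith
  have h0 := le_max_left 0 t
  cases i
  · have key := hk (fun y => M * dd y - g y) r _ _ x0 hx0 hr hr1 hK hs
      ((continuous_const.mul hdc).continuousOn.sub hg) (fun x hx => sub_nonneg.2 (hb x hx).2) hS2 hi
    rw [← ht] at key
    refine ⟨m, M - max 0 t, hm, by linarith, by linarith, fun x hx => ⟨(hb x (hsub hx)).1, ?_⟩⟩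
    have h1 := key x hx
    have h2 := (hb x (hsub hx)).2
    rcases le_total 0 t with h | h
    · rw [max_eq_right h]; linarith
    · rw [max_eq_left h]; linarith
  · have key := hk (fun y => g y - m * dd y) r _ _ x0 hx0 hr hr1 hK hs
      (hg.sub (continuous_const.mul hdc).continuousOn) (fun x hx => sub_nonneg.2 (hb x hx).1) hS1 hi
    rw [← ht] at key
    refine ⟨m + max 0 t, M, by linarith, hM, by linarith, fun x hx => ⟨?_, (hb x (hsub hx)).2⟩⟩
    have h1 := key x hx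
    have h2 := (hb x (hsub hx)).1
    rcases le_total 0 t with h | h
    · rw [max_eq_right h]; linarith
    · rw [max_eq_left h]; linarith

/-- `iter` with `α = 1`, `os0 = 2 L`. -/
theorem krylov {lam : ℝ} (hlam : 0 < lam) (Lam : ℝ) : ∃ α C : ℝ, 0 < α ∧ α < 1 ∧ 0 ≤ C ∧
    ∀ (g : E n → ℝ) (L : ℝ), 0 ≤ L → ContinuousOn g (cB n) → (∀ x ∈ cB n, |g x| ≤ L * dd x) →
      (∀ x ∈ oB n, ContDiffAt ℝ 2 g x ∧ ∃ l : B2 n →L[ℝ] ℝ, Ell lam Lam l ∧ |l (DD g x)| ≤ L) →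
      ∀ x0 ∈ sB n, ∀ r, 0 < r → r ≤ 1 → Quo L g x0 r (C * L * r ^ α) := by
  obtain ⟨γ, C, hγ, hγ1, hC, hk⟩ := kry_step (n := n) hlam Lam
  obtain ⟨β, C', hβ, hβ1, hC', hi⟩ := iter (θ := 1 / 48) (α := 1) (by norm_num) (by norm_num) hγ hγ1
    one_pos
  refine ⟨β, C' * (2 + C), hβ, hβ1, by positivity, ?_⟩
  intro g L hL hg hb hD x0 hx0 r hr hr1
  have key := hi (fun r os => Quo L g x0 r os) (2 * L) (C * L) (by positivity) (by positivity) ?_ ?_ ?_
    r hr hr1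
  · have e : C' * (2 + C) * L * r ^ β = C' * (2 * L + C * L) * r ^ β := by ring
    rw [e]
    exact key
  · rintro r r' os os' h1 h2 ⟨m, M, hm, hM, hos, h⟩
    exact ⟨m, M, hm, hM, hos.trans h2, fun x hx => h x ⟨hx.1, closedBall_subset_closedBall h1 hx.2⟩⟩
  · refine ⟨-L, L, le_rfl, le_rfl, by linarith, fun x hx => ?_⟩
    have h1 := abs_le.1 (hb x hx.1)
    exact ⟨by linarith [h1.1], h1.2⟩
  · intro r os h1 h2 _ _ h
    rw [Real.rpow_one]
    exact hk g L hL hg hD x0 hx0 r os h1 h2 h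

end Pool.Agent.Mink.A
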