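import Pool.Agent.Lib.MP_88c759_an.Mink.AData
import Pool.Agent.Lib.MP_88c759_an.Mink.AEK2
import Pool.Agent.Lib.MP_88c759_an.Mink.ABd2

/-! Part A: global `C^{2,β}` a priori estimate (Evans-Krylov up to the boundary). -/

set_option maxSynthPendingDepth 3

namespace Pool.Agent.Mink

open scoped ContDiff
open Set

theorem c2beta {n : ℕ} (hn : 0 < n) {A : Set (ℝ × Jet n)} {F : ℝ × Jet n → ℝ} (hF : Fam A F)
    {K : Set (ℝ × Jet n)} (hK : IsCompact K) (hKA : K ⊆ A) (M : ℝ) :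
    ∃ β C : ℝ, 0 < β ∧ β < 1 ∧ ∀ t ∈ Icc (0:ℝ) 1, ∀ φ v : E n → ℝ, ContDiff ℝ 4 φ →
      (∀ i ≤ 4, ∀ x ∈ cB n, ‖iteratedFDeriv ℝ i φ x‖ ≤ M) → Sol A F t φ v →
      (∀ x ∈ cB n, (t, jet (cB n) v x) ∈ K) →
      ∀ x ∈ cB n, ∀ y ∈ cB n, ‖D2 (cB n) v x - D2 (cB n) v y‖ ≤ C * ‖x - y‖ ^ β := by
  obtain ⟨lam, Lam, C, hlam, hC, h1⟩ := Mink.A.exists_data hF hK hKA
  obtain ⟨α, C2, hα, hα1, hC2, h2⟩ := Mink.A.sphere_holder hn hlam Lam hC (abs_nonneg M)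
  obtain ⟨β, C', hβ, hβ1, h3⟩ := Mink.A.evans_krylov (n := n) hlam Lam hC hC2 hα hα1.le
  refine ⟨β, C', hβ, hβ1, fun t ht φ v hφ hM hv hK => ?_⟩
  obtain ⟨l, hl⟩ := h1 t ht φ v hv hK
  exact h3 v l hl (h2 v φ l hl (hφ.of_le (by norm_num))
    (fun x hx => Mink.A.norm_le_of_iterated fun i hi => (hM i hi x hx).trans (le_abs_self M)) hv.bd)

end Pool.Agent.Mink
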