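import Pool.Agent.Lib.MP_88c759_an.Mink.BMain

/-! Part B: the continuity method on the closed unit ball. -/

set_option maxSynthPendingDepth 3

namespace Pool.Agent.Mink

open scoped ContDiff
open Set

theorem continuity_method {n : ℕ} (hn : 0 < n) {A : Set (ℝ × Jet n)} {F : ℝ × Jet n → ℝ}
    (hF : Fam A F) {φ₀ φ₁ : E n → ℝ} (h₀ : ContDiff ℝ 4 φ₀) (h₁ : ContDiff ℝ 4 φ₁)
    {K : Set (ℝ × Jet n)} (hK : IsCompact K) (hKA : K ⊆ A)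
    (hap : ∀ t ∈ Icc (0:ℝ) 1, ∀ v : E n → ℝ,
      Sol A F t (fun x => (1 - t) * φ₀ x + t * φ₁ x) v → ∀ x ∈ cB n, (t, jet (cB n) v x) ∈ K)
    {v₀ : E n → ℝ} (hv₀ : Sol A F 0 φ₀ v₀) (hv₀3 : ContDiffOn ℝ 3 v₀ (cB n)) :
    ∃ v : E n → ℝ, Sol A F 1 φ₁ v ∧ ∀ α : ℝ, 0 < α → α < 1 → C3a (cB n) α v :=
  B.continuity hn hF h₀ h₁ hK hKA hap hv₀ hv₀3

end Pool.Agent.Mink
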