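import Pool.Agent.Lib.MP_88c759_an.Mink.CE4

set_option maxSynthPendingDepth 3

namespace Pool.Agent.Mink.C

open scoped ContDiff Topology RealInnerProductSpace
open Set Filter

variable {ι : Type} [DecidableEq ι]

theorem CE5_poly (s : Finset ι) (a b c : ι → ℝ) :
    ∀ i ∈ s, J2 (fun t : ℝ => (fun (t : ℝ) (i : ι) => a i + t * b i + t ^ 2 / 2 * c i) t i)
      (a i) (b i) (c i) := by
  intro i _
  simpa [smul_eq_mul] using J2.poly (a i) (b i) (c i)

theorem CE5_logjet {s : Finset ι} {k : ℕ} {x : ℝ → ι → ℝ} {a b c : ι → ℝ} (ha : Gam s k a)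
    (hx : ∀ i ∈ s, J2 (fun t => x t i) (a i) (b i) (c i)) :
    J2 (fun t => Real.log (es s k (x t))) (Real.log (es s k a)) (e1 s k a b / es s k a)
      (e1 s k a c / es s k a - Gq s k a b) := by
  refine ((J2_es s k hx).log (ha.pos le_rfl)).of_eq rfl rfl ?_
  unfold Gq
  ring

/-- along a curve with concave coordinates `log σ_k` has nonpositive second derivative -/
theorem log_es_second {s : Finset ι} {k : ℕ} {a b c : ι → ℝ} (ha : Gam s k a)
    (hc : ∀ i ∈ s, c i ≤ 0) : e1 s k a c / es s k a - Gq s k a b ≤ 0 := by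
  induction k with
  | zero => simp [e1, Gq, e2]
  | succ k ih =>
    have hak : Gam s k a := ha.mono (Nat.le_succ k)
    have hx := CE5_poly s a b c
    set x : ℝ → ι → ℝ := fun (t : ℝ) (i : ι) => a i + t * b i + t ^ 2 / 2 * c i with hxdef
    obtain ⟨q2, hq, hq2⟩ := qq_inv_concave False 0 (k + 1) (by omega) s ha.le_card hx
      (by simpa using hak) (by
        intro i hi α β hβ
        rcases hβ with rfl | hf
        · have := hc i hi
          nlinarith [sq_nonneg α]
        · exact hf.elim)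
    have hq2' : q2 ≤ 0 := by simpa using hq2 1 0 (Or.inl rfl)
    have hqpos : 0 < qq s (k + 1) a := by
      unfold qq
      simpa using div_pos (ha.pos le_rfl) (hak.pos le_rfl)
    have h1 := CE5_logjet ha hx
    have h2 := (CE5_logjet hak hx).add (hq.log hqpos)
    have hx0 : x 0 = a := by funext i; simp [hxdef]
    have hev : ∀ᶠ t in 𝓝 (0:ℝ), Gam s (k + 1) (x t) :=
      Gam.eventually (by rw [hx0]; exact ha) (fun i hi => (hx i hi).continuousAt)
    have h3 := h2.congr (g := fun t => Real.log (es s (k + 1) (x t))) (by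
      filter_upwards [hev] with t ht
      have p1 : 0 < es s (k + 1) (x t) := ht.pos le_rfl
      have p0 : 0 < es s k (x t) := ht.pos (Nat.le_succ k)
      unfold qq
      rw [Nat.add_sub_cancel, Real.log_div p1.ne' p0.ne']
      ring)
    rw [(h1.unique h3).2.2]
    have e1' := ih hak
    have e2' : q2 / qq s (k + 1) a ≤ 0 := div_nonpos_of_nonpos_of_nonneg hq2' hqpos.le
    have e3' : 0 ≤ dq s (k + 1) a b ^ 2 / qq s (k + 1) a ^ 2 := by positivity
    linarith

theorem Gq_nonneg {s : Finset ι} {k : ℕ} {a : ι → ℝ} (ha : Gam s k a) (b : ι → ℝ) :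
    0 ≤ Gq s k a b := by
  have h := log_es_second (b := b) (c := fun _ => 0) ha (fun _ _ => le_rfl)
  have h0 : e1 s k a (fun _ => 0) = 0 := by simp [e1]
  rw [h0] at h
  simpa using h

theorem CE5_line (s : Finset ι) (x y : ι → ℝ) (t : ℝ) :
    ∀ i ∈ s, J2 (fun τ : ℝ => (fun (τ : ℝ) (i : ι) => x i + (t + τ) * (y i - x i)) τ i)
      ((fun i => x i + t * (y i - x i)) i) ((fun i => y i - x i) i) ((fun _ => (0:ℝ)) i) := by
  intro i _
  refine (J2.line (x i + t * (y i - x i)) (y i - x i)).congr (Eventually.of_forall fun τ => ?_)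
  simp only [smul_eq_mul]
  ring

theorem CE5_seg {x y : ι → ℝ} {a b : ℝ} (hab : a + b = 1) :
    a • x + b • y = fun i => x i + b * (y i - x i) := by
  funext i
  have : a = 1 - b := by linarith
  subst this
  simp only [Pi.add_apply, Pi.smul_apply, smul_eq_mul]
  ring

theorem CE5_mem {S : Set (ι → ℝ)} (hS : Convex ℝ S) {x y : ι → ℝ} (hx : x ∈ S) (hy : y ∈ S)
    {t : ℝ} (ht : t ∈ Icc (0:ℝ) 1) : (fun i => x i + t * (y i - x i)) ∈ S := by
  rw [← CE5_seg (a := 1 - t) (by ring)]
  exact hS hx hy (by linarith [ht.2]) ht.1 (by ring)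

theorem CE5_chord {f : ℝ → ℝ} (hf : ConcaveOn ℝ (Icc (0:ℝ) 1) f) {a b : ℝ} (ha : 0 ≤ a)
    (hb : 0 ≤ b) (hab : a + b = 1) : a * f 0 + b * f 1 ≤ f b := by
  have h := hf.2 (left_mem_Icc.2 zero_le_one) (right_mem_Icc.2 zero_le_one) ha hb hab
  simpa using h

theorem convex_gam (s : Finset ι) (k : ℕ) : Convex ℝ {x : ι → ℝ | Gam s k x} := by
  induction k with
  | zero =>
    intro x _ y _ a b _ _ _ j h1 h2
    omega
  | succ k ih =>
    intro x hx y hy a b ha hb hab
    have hx' : Gam s (k + 1) x := hx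
    have hy' : Gam s (k + 1) y := hy
    have hxk : Gam s k x := hx'.mono (Nat.le_succ k)
    have hyk : Gam s k y := hy'.mono (Nat.le_succ k)
    have hconc : ConcaveOn ℝ (Icc (0:ℝ) 1)
        (fun t => qq s (k + 1) (fun i => x i + t * (y i - x i))) := by
      refine concaveOn_of_J2 fun t ht => ?_
      have hm : Gam s k (fun i => x i + t * (y i - x i)) := CE5_mem ih hxk hyk ht
      obtain ⟨q2, hq, hq2⟩ := qq_inv_concave False 0 (k + 1) (by omega) s hx'.le_card
        (CE5_line s x y t) (by simpa using hm) (by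
          intro i _ α β hβ
          rcases hβ with rfl | hf
          · simp
          · exact hf.elim)
      exact ⟨_, q2, hq, by simpa using hq2 1 0 (Or.inl rfl)⟩
    have hch := CE5_chord hconc ha hb hab
    have e0 : (fun i => x i + 0 * (y i - x i)) = x := by funext i; ring
    have e1' : (fun i => x i + 1 * (y i - x i)) = y := by funext i; ring
    simp only [e0, e1'] at hch
    have px : 0 < qq s (k + 1) x := by
      unfold qq
      simpa using div_pos (hx'.pos le_rfl) (hxk.pos le_rfl)
    have py : 0 < qq s (k + 1) y := by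
      unfold qq
      simpa using div_pos (hy'.pos le_rfl) (hyk.pos le_rfl)
    have hb1 : b ∈ Icc (0:ℝ) 1 := ⟨hb, by linarith⟩
    have hm : Gam s k (fun i => x i + b * (y i - x i)) := CE5_mem ih hxk hyk hb1
    have hpos : 0 < qq s (k + 1) (fun i => x i + b * (y i - x i)) := by
      refine lt_of_lt_of_le ?_ hch
      rcases eq_or_lt_of_le ha with h | h
      · have : b = 1 := by linarith
        rw [← h, this]
        linarith
      · nlinarith [mul_pos h px, mul_nonneg hb py.le]
    rw [CE5_seg hab]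
    intro j h1 h2
    rcases Nat.lt_or_ge j (k + 1) with h | h
    · exact hm j h1 (by omega)
    · have hj : j = k + 1 := by omega
      subst hj
      unfold qq at hpos
      rw [Nat.add_sub_cancel] at hpos
      exact (div_pos_iff_of_pos_right (hm.pos le_rfl)).1 hpos

theorem CE5_concave {s : Finset ι} {k : ℕ} {x y : ι → ℝ} (hx : Gam s k x) (hy : Gam s k y) :
    ConcaveOn ℝ (Icc (0:ℝ) 1)
      (fun t => Real.log (es s k (fun i => x i + t * (y i - x i)))) := by
  refine concaveOn_of_J2 fun t ht => ?_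
  have hm : Gam s k (fun i => x i + t * (y i - x i)) := CE5_mem (convex_gam s k) hx hy ht
  exact ⟨_, _, CE5_logjet hm (CE5_line s x y t), log_es_second hm (fun _ _ => le_rfl)⟩

theorem concaveOn_log_es (s : Finset ι) (k : ℕ) :
    ConcaveOn ℝ {x : ι → ℝ | Gam s k x} (fun x => Real.log (es s k x)) := by
  refine ⟨convex_gam s k, ?_⟩
  intro x hx y hy a b ha hb hab
  have hch := CE5_chord (CE5_concave (s := s) (k := k) hx hy) ha hb hab
  have e0 : (fun i => x i + 0 * (y i - x i)) = x := by funext i; ring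
  have e1' : (fun i => x i + 1 * (y i - x i)) = y := by funext i; ring
  simp only [e0, e1'] at hch
  rw [CE5_seg hab]
  simpa [smul_eq_mul] using hch

/-- Gårding inequality, comparison form -/
theorem garding {s : Finset ι} {k : ℕ} (hk : 1 ≤ k) {x y : ι → ℝ} (hx : Gam s k x)
    (hy : Gam s k y) (hxy : es s k x ≤ es s k y) :
    (k : ℝ) * es s k x ≤ ∑ i ∈ s, es (s.erase i) (k - 1) x * y i := by
  have hc := CE5_concave hx hy
  have e0 : (fun i => x i + 0 * (y i - x i)) = x := by funext i; ring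
  have e1' : (fun i => x i + 1 * (y i - x i)) = y := by funext i; ring
  have hj := CE5_logjet (a := fun i => x i + 0 * (y i - x i)) (by rw [e0]; exact hx)
    (CE5_line s x y 0)
  have hd := hj.hasDerivAt
  simp only [zero_add, e0] at hd
  have hs := hc.slope_le_of_hasDerivAt (left_mem_Icc.2 zero_le_one) (right_mem_Icc.2 zero_le_one)
    zero_lt_one hd
  rw [slope_def_field] at hs
  simp only [e0, e1', sub_zero, div_one] at hs
  have px : 0 < es s k x := hx.pos le_rfl
  have hlog : Real.log (es s k x) ≤ Real.log (es s k y) := Real.log_le_log px hxy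
  have h0 : 0 ≤ e1 s k x (fun i => y i - x i) :=
    by
      have h : 0 ≤ e1 s k x (fun i => y i - x i) / es s k x := by linarith
      simpa using (le_div_iff₀ px).1 h
  obtain ⟨j, rfl⟩ : ∃ j, k = j + 1 := ⟨k - 1, by omega⟩
  have hsum := sum_mul_es_erase s j x
  simp only [e1, Nat.add_sub_cancel, Nat.succ_ne_zero, if_false, sub_mul,
    Finset.sum_sub_distrib] at h0
  rw [Nat.add_sub_cancel]
  push_cast
  rw [← hsum]
  have : ∑ i ∈ s, es (s.erase i) j x * y i = ∑ i ∈ s, y i * es (s.erase i) j x :=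
    Finset.sum_congr rfl fun i _ => mul_comm _ _
  linarith

theorem garding_pos {s : Finset ι} {k : ℕ} (hk : 1 ≤ k) {x y : ι → ℝ} (hx : Gam s k x)
    (hy : Gam s k y) : 0 < ∑ i ∈ s, es (s.erase i) (k - 1) x * y i := by
  have px : 0 < es s k x := hx.pos le_rfl
  have py : 0 < es s k y := hy.pos le_rfl
  set c : ℝ := max 1 (es s k x / es s k y) with hcdef
  have c1 : 1 ≤ c := le_max_left _ _
  have c0 : 0 < c := by linarith
  have c2 : es s k x ≤ c * es s k y := (div_le_iff₀ py).1 (le_max_right _ _)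
  have c3 : c ≤ c ^ k := le_self_pow₀ c1 (by omega)
  have h := garding hk hx (hy.smul c0) (by
    rw [es_smul]
    exact c2.trans (mul_le_mul_of_nonneg_right c3 py.le))
  have e : ∑ i ∈ s, es (s.erase i) (k - 1) x * (c * y i)
      = c * ∑ i ∈ s, es (s.erase i) (k - 1) x * y i := by
    rw [Finset.mul_sum]
    exact Finset.sum_congr rfl fun i _ => by ring
  rw [e] at h
  have kpos : (0:ℝ) < k := by exact_mod_cast hk
  exact (mul_pos_iff_of_pos_left c0).1 (lt_of_lt_of_le (mul_pos kpos px) h)

/-- averaging by a doubly stochastic matrix preserves the cone and increases `σ_k` -/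
theorem gam_doubly [Fintype ι] {k : ℕ} {x : ι → ℝ} (hx : Gam Finset.univ k x) (D : ι → ι → ℝ)
    (h0 : ∀ i j, 0 ≤ D i j) (h1 : ∀ i, ∑ j, D i j = 1) (h2 : ∀ j, ∑ i, D i j = 1) :
    Gam Finset.univ k (fun i => ∑ j, D i j * x j) ∧
      es Finset.univ k x ≤ es Finset.univ k (fun i => ∑ j, D i j * x j) := by
  have hD : Matrix.of D ∈ doublyStochastic ℝ ι :=
    mem_doublyStochastic_iff_sum.2 ⟨h0, h1, h2⟩
  obtain ⟨w, w0, w1, hw⟩ := exists_eq_sum_perm_of_mem_doublyStochastic hD
  have key : (fun i => ∑ j, D i j * x j)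
      = ∑ σ : Equiv.Perm ι, w σ • (fun i => x (σ i)) := by
    funext i
    have hij : ∀ j, D i j = ∑ σ : Equiv.Perm ι, w σ * (if σ i = j then 1 else 0) := by
      intro j
      have := congrFun (congrFun hw i) j
      rw [Matrix.of_apply] at this
      rw [← this, Matrix.sum_apply]
      refine Finset.sum_congr rfl fun σ _ => ?_
      simp [Equiv.Perm.permMatrix, PEquiv.toMatrix_apply, Equiv.toPEquiv_apply]
    simp only [hij, Finset.sum_mul, Finset.sum_apply, Pi.smul_apply, smul_eq_mul]
    rw [Finset.sum_comm]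
    refine Finset.sum_congr rfl fun σ _ => ?_
    simp
  have hmem : ∀ σ : Equiv.Perm ι, (fun i => x (σ i)) ∈ {x : ι → ℝ | Gam Finset.univ k x} := by
    intro σ j j1 j2
    rw [es_perm]
    exact hx j j1 j2
  have hG : Gam Finset.univ k (∑ σ : Equiv.Perm ι, w σ • (fun i => x (σ i))) :=
    (convex_gam Finset.univ k).sum_mem (fun σ _ => w0 σ) w1 (fun σ _ => hmem σ)
  rw [key]
  refine ⟨hG, ?_⟩
  have hl := (concaveOn_log_es Finset.univ k).le_map_sum (fun σ _ => w0 σ) w1
    (fun σ _ => hmem σ)
  simp only [es_perm, smul_eq_mul, ← Finset.sum_mul, w1, one_mul] at hl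
  exact (Real.log_le_log_iff (hx.pos le_rfl) (hG.pos le_rfl)).1 hl

end Pool.Agent.Mink.C
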