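import Pool.Agent.Lib.MP_88c759_an.Mink.CX1

set_option maxSynthPendingDepth 3

namespace Pool.Agent.Mink.C

open scoped ContDiff Topology RealInnerProductSpace
open Set Filter

variable {n : ℕ}

theorem CX2_pairs (F : Finset (Fin n) → ℝ) :
    ∑ p, ∑ q ∈ Finset.univ.erase p, F {p, q}
      = 2 * ∑ S ∈ Finset.univ.powersetCard 2, F S := by
  have h1 : ∀ p : Fin n, ∑ q ∈ Finset.univ.erase p, F {p, q}
      = ∑ S ∈ (Finset.univ.powersetCard 2).filter (fun S => p ∈ S), F S := by
    intro p
    refine Finset.sum_bij (fun q _ => ({p, q} : Finset (Fin n))) ?_ ?_ ?_ ?_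
    · intro q hq
      have hqp : q ≠ p := (Finset.mem_erase.1 hq).1
      rw [Finset.mem_filter, Finset.mem_powersetCard]
      exact ⟨⟨Finset.subset_univ _, Finset.card_pair hqp.symm⟩, Finset.mem_insert_self _ _⟩
    · intro q hq q' hq' h
      have hqp : q ≠ p := (Finset.mem_erase.1 hq).1
      have h2 : q ∈ ({p, q'} : Finset (Fin n)) := by
        rw [← h]
        simp
      rcases Finset.mem_insert.1 h2 with h3 | h3
      · exact absurd h3 hqp
      · exact Finset.mem_singleton.1 h3
    · intro S hS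
      rw [Finset.mem_filter, Finset.mem_powersetCard] at hS
      obtain ⟨⟨-, hc⟩, hp⟩ := hS
      obtain ⟨x, y, hxy, rfl⟩ := Finset.card_eq_two.1 hc
      rcases Finset.mem_insert.1 hp with h3 | h3
      · subst h3
        exact ⟨y, Finset.mem_erase.2 ⟨hxy.symm, Finset.mem_univ _⟩, rfl⟩
      · rw [Finset.mem_singleton] at h3
        subst h3
        exact ⟨x, Finset.mem_erase.2 ⟨hxy, Finset.mem_univ _⟩, Finset.pair_comm _ _⟩
    · intro q _
      rfl
  rw [Finset.sum_congr rfl (fun p _ => h1 p)]
  simp only [Finset.sum_filter]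
  rw [Finset.sum_comm, Finset.mul_sum]
  refine Finset.sum_congr rfl (fun S hS => ?_)
  rw [← Finset.sum_filter, Finset.sum_const, Finset.filter_mem_eq_inter, Finset.univ_inter,
    (Finset.mem_powersetCard.1 hS).2]
  simp

theorem CX2_split (k : ℕ) (hk : 2 ≤ k) (F : Finset (Fin n) → ℝ) :
    ∑ S ∈ Finset.univ.filter (fun S : Finset (Fin n) => S.card ≤ k), F S
      = F ∅ + ∑ i, F {i} + (1 / 2) * ∑ p, ∑ q ∈ Finset.univ.erase p, F {p, q}
        + ∑ S ∈ Finset.univ.filter (fun S : Finset (Fin n) => 3 ≤ S.card ∧ S.card ≤ k), F S := by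
  have h0 : F ∅ = ∑ S ∈ Finset.univ.filter (fun S : Finset (Fin n) => S.card = 0), F S := by
    have : Finset.univ.filter (fun S : Finset (Fin n) => S.card = 0) = {∅} := by
      ext S
      simp
    rw [this, Finset.sum_singleton]
  have h1 : ∑ i, F {i} = ∑ S ∈ Finset.univ.filter (fun S : Finset (Fin n) => S.card = 1), F S := by
    have : Finset.univ.filter (fun S : Finset (Fin n) => S.card = 1)
        = Finset.univ.powersetCard 1 := by
      ext S
      simp [Finset.mem_powersetCard]
    rw [this, Finset.powersetCard_one, Finset.sum_map]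
    rfl
  have h2 : (1 / 2) * ∑ p, ∑ q ∈ Finset.univ.erase p, F {p, q}
      = ∑ S ∈ Finset.univ.filter (fun S : Finset (Fin n) => S.card = 2), F S := by
    have : Finset.univ.filter (fun S : Finset (Fin n) => S.card = 2)
        = Finset.univ.powersetCard 2 := by
      ext S
      simp [Finset.mem_powersetCard]
    rw [this, CX2_pairs]
    ring
  rw [h0, h1, h2]
  simp only [Finset.sum_filter]
  rw [← Finset.sum_add_distrib, ← Finset.sum_add_distrib, ← Finset.sum_add_distrib]
  refine Finset.sum_congr rfl (fun S _ => ?_)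
  split_ifs <;> first | omega | simp

theorem CX2_det_empty (X : Matrix (Fin n) (Fin n) ℝ) :
    (X.submatrix (Subtype.val : (∅ : Finset (Fin n)) → Fin n)
      (Subtype.val : (∅ : Finset (Fin n)) → Fin n)).det = 1 :=
  Matrix.det_eq_one_of_card_eq_zero (by simp)

theorem CX2_det_single (X : Matrix (Fin n) (Fin n) ℝ) (i : Fin n) :
    (X.submatrix (Subtype.val : ({i} : Finset (Fin n)) → Fin n)
      (Subtype.val : ({i} : Finset (Fin n)) → Fin n)).det = X i i := by
  rw [Matrix.det_eq_elem_of_card_eq_one (by simp) ⟨i, Finset.mem_singleton_self i⟩]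
  rfl

theorem CX2_det_pair (X : Matrix (Fin n) (Fin n) ℝ) (p q : Fin n) (h : q ≠ p) :
    (X.submatrix (Subtype.val : ({p, q} : Finset (Fin n)) → Fin n)
      (Subtype.val : ({p, q} : Finset (Fin n)) → Fin n)).det = X p p * X q q - X p q * X q p := by
  let g : Fin 2 → ({p, q} : Finset (Fin n)) :=
    ![⟨p, Finset.mem_insert_self _ _⟩, ⟨q, Finset.mem_insert_of_mem (Finset.mem_singleton_self _)⟩]
  have hg : Function.Bijective g := by
    rw [Fintype.bijective_iff_injective_and_card]
    refine ⟨?_, by rw [Fintype.card_fin, Fintype.card_coe, Finset.card_pair h.symm]⟩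
    intro a b hab
    have h2 := congrArg Subtype.val hab
    fin_cases a <;> fin_cases b
    · rfl
    · exact absurd h2 h.symm
    · exact absurd h2 h
    · rfl
  rw [← Matrix.det_submatrix_equiv_self (Equiv.ofBijective g hg), Matrix.det_fin_two]
  rfl

theorem CX2_expand (k : ℕ) (hk : 2 ≤ k) (κ : Fin n → ℝ) (X : Matrix (Fin n) (Fin n) ℝ) :
    sM k (Matrix.diagonal κ + X) = es Finset.univ k κ + ∑ i, fk k κ i * X i i
      + (1 / 2) * ∑ p, ∑ q ∈ Finset.univ.erase p, sk k κ p q * (X p p * X q q - X p q * X q p)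
      + ∑ S ∈ Finset.univ.filter (fun S : Finset (Fin n) => 3 ≤ S.card ∧ S.card ≤ k),
        es Sᶜ (k - S.card) κ *
          (X.submatrix (Subtype.val : S → Fin n) (Subtype.val : S → Fin n)).det := by
  rw [sM_diagonal_add, CX2_split k hk]
  congr 1
  congr 1
  · congr 1
    · rw [CX2_det_empty, Finset.compl_empty, Finset.card_empty, Nat.sub_zero, mul_one]
    · refine Finset.sum_congr rfl (fun i _ => ?_)
      rw [CX2_det_single, Finset.compl_singleton, Finset.card_singleton]
      rfl
  · congr 1
    refine Finset.sum_congr rfl (fun p _ => Finset.sum_congr rfl (fun q hq => ?_))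
    have hqp : q ≠ p := (Finset.mem_erase.1 hq).1
    have hc : ({p, q} : Finset (Fin n))ᶜ = (Finset.univ.erase p).erase q := by
      ext x
      simp only [Finset.mem_compl, Finset.mem_insert, Finset.mem_singleton, Finset.mem_erase,
        Finset.mem_univ, and_true]
      tauto
    rw [CX2_det_pair X p q hqp, Finset.card_pair hqp.symm, hc]
    rfl

theorem CX2_prod {α : Type} [DecidableEq α] (s : Finset α) (f : α → ℝ → ℝ) (b c : α → ℝ)
    (h : ∀ i, J2 (f i) 0 (b i) (c i)) :
    ∃ a' b' c' : ℝ, J2 (fun t => ∏ i ∈ s, f i t) a' b' c' ∧ (1 ≤ s.card → a' = 0) ∧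
      (2 ≤ s.card → b' = 0) ∧ (3 ≤ s.card → c' = 0) := by
  induction s using Finset.induction_on with
  | empty =>
    refine ⟨1, 0, 0, ?_, by simp, by simp, by simp⟩
    simpa using J2.const (1 : ℝ)
  | insert i s hi ih =>
    obtain ⟨a', b', c', hJ, h1, h2, -⟩ := ih
    refine ⟨_, _, _, ((h i).mul hJ).congr (Eventually.of_forall (fun t => ?_)), ?_, ?_, ?_⟩
    · simp only [Finset.prod_insert hi]
    · intro _
      ring
    · intro hc
      rw [Finset.card_insert_of_notMem hi] at hc
      rw [h1 (by omega)]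
      ring
    · intro hc
      rw [Finset.card_insert_of_notMem hi] at hc
      rw [h1 (by omega), h2 (by omega)]
      ring

theorem CX2_det_big {α : Type} [DecidableEq α] [Fintype α] (hc : 3 ≤ Fintype.card α)
    (X : ℝ → Matrix α α ℝ) (A B : α → α → ℝ) (h : ∀ i l, J2 (fun t => X t i l) 0 (A i l) (B i l)) :
    J2 (fun t => (X t).det) 0 0 0 := by
  have h1 : ∀ σ ∈ (Finset.univ : Finset (Equiv.Perm α)),
      J2 (fun t => ((Equiv.Perm.sign σ : ℤ) : ℝ) * ∏ i, X t (σ i) i) 0 0 0 := by
    intro σ _
    obtain ⟨a', b', c', hJ, e1, e2, e3⟩ := CX2_prod Finset.univ (fun i t => X t (σ i) i)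
      (fun i => A (σ i) i) (fun i => B (σ i) i) (fun i => h (σ i) i)
    rw [Finset.card_univ] at e1 e2 e3
    refine (hJ.const_mul _).of_eq ?_ ?_ ?_
    · rw [e1 (by omega), mul_zero]
    · rw [e2 (by omega), mul_zero]
    · rw [e3 hc, mul_zero]
  refine ((J2.sum _ h1).congr (Eventually.of_forall (fun t => ?_))).of_eq (by simp) (by simp)
    (by simp)
  exact (Matrix.det_apply' (X t)).symm

/-- two-jet of `σ_k` of a matrix curve through a diagonal matrix -/
theorem J2_sM (k : ℕ) (hk : 2 ≤ k) {M : ℝ → Matrix (Fin n) (Fin n) ℝ} {κ : Fin n → ℝ}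
    {A B : Fin n → Fin n → ℝ}
    (hM : ∀ i l, J2 (fun t => M t i l) (if i = l then κ i else 0) (A i l) (B i l)) :
    J2 (fun t => sM k (M t)) (es Finset.univ k κ) (∑ i, fk k κ i * A i i)
      (∑ i, fk k κ i * B i i
        + ∑ p, ∑ q ∈ Finset.univ.erase p, sk k κ p q * (A p p * A q q - A p q * A q p)) := by
  have hX : ∀ i l, J2 (fun t => (M t - Matrix.diagonal κ) i l) 0 (A i l) (B i l) := by
    intro i l
    refine (((hM i l).sub (J2.const (if i = l then κ i else 0))).congr
      (Eventually.of_forall (fun t => ?_))).of_eq (sub_self _) (sub_zero _) (sub_zero _)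
    simp only [Matrix.sub_apply, Matrix.diagonal_apply]
  have j1 := J2.sum Finset.univ (fun i _ => (hX i i).const_mul (fk k κ i))
  have j2 := (J2.sum Finset.univ (fun p _ => J2.sum (Finset.univ.erase p) (fun q _ =>
    (((hX p p).mul (hX q q)).sub ((hX p q).mul (hX q p))).const_mul (sk k κ p q)))).const_mul
      (1 / 2)
  have j3 := J2.sum
    (Finset.univ.filter (fun S : Finset (Fin n) => 3 ≤ S.card ∧ S.card ≤ k))
    (f := fun S t => es Sᶜ (k - S.card) κ * ((M t - Matrix.diagonal κ).submatrix
      (Subtype.val : S → Fin n) (Subtype.val : S → Fin n)).det)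
    (a := fun _ => 0) (b := fun _ => 0) (c := fun _ => 0) (fun S hS => by
      have h3 : 3 ≤ Fintype.card S := by
        rw [Fintype.card_coe]
        exact (Finset.mem_filter.1 hS).2.1
      exact ((CX2_det_big h3 (fun t => (M t - Matrix.diagonal κ).submatrix
        (Subtype.val : S → Fin n) (Subtype.val : S → Fin n)) (fun i l => A i l) (fun i l => B i l)
        (fun i l => hX i l)).const_mul _).of_eq (mul_zero _) (mul_zero _) (mul_zero _))
  refine (((((J2.const (es Finset.univ k κ)).add j1).add j2).add j3).congr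
    (Eventually.of_forall (fun t => ?_))).of_eq ?_ ?_ ?_
  · have e := CX2_expand k hk κ (M t - Matrix.diagonal κ)
    rw [add_sub_cancel] at e
    exact e.symm
  · simp
  · simp
  · rw [Finset.sum_const_zero, add_zero, zero_add, Finset.mul_sum]
    congr 1
    refine Finset.sum_congr rfl (fun p _ => ?_)
    rw [Finset.mul_sum]
    refine Finset.sum_congr rfl (fun q _ => ?_)
    ring

/-- first derivative, any `j ≥ 1` -/
theorem hasDerivAt_sM (j : ℕ) (hj : 1 ≤ j) (κ : Fin n → ℝ) (A : Matrix (Fin n) (Fin n) ℝ) :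
    HasDerivAt (fun t : ℝ => sM j (Matrix.diagonal κ + t • A)) (∑ i, fk j κ i * A i i) 0 := by
  have hM : ∀ i l, J2 (fun t : ℝ => (Matrix.diagonal κ + t • A) i l) (if i = l then κ i else 0)
      (A i l) 0 := by
    intro i l
    refine (J2.line (if i = l then κ i else 0) (A i l)).congr (Eventually.of_forall (fun t => ?_))
    simp only [Matrix.add_apply, Matrix.diagonal_apply, Matrix.smul_apply]
  rcases Nat.lt_or_ge j 2 with h | h
  · obtain rfl : j = 1 := by omega
    have e : ∀ N : Matrix (Fin n) (Fin n) ℝ, sM 1 N = ∑ i, N i i := by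
      intro N
      unfold sM
      rw [Finset.powersetCard_one, Finset.sum_map]
      exact Finset.sum_congr rfl (fun i _ => CX2_det_single N i)
    have e2 : ∑ i, fk 1 κ i * A i i = ∑ i, A i i := by
      refine Finset.sum_congr rfl (fun i _ => ?_)
      rw [show fk 1 κ i = 1 from es_zero _ _, one_mul]
    simp only [e]
    rw [e2]
    exact (J2.sum Finset.univ (fun i _ => hM i i)).hasDerivAt
  · exact (J2_sM j h (M := fun t : ℝ => Matrix.diagonal κ + t • A) (B := fun _ _ => 0)
      hM).hasDerivAt

/-- a symmetric matrix which is diagonal off one row and column -/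
theorem sM_arrow (k : ℕ) (hk : 2 ≤ k) (o : Fin n) (H : Matrix (Fin n) (Fin n) ℝ)
    (hs : ∀ a b, H a b = H b a) (hd : ∀ a b, a ≠ b → a ≠ o → b ≠ o → H a b = 0) :
    sM k H = es Finset.univ k (fun a => H a a)
      - ∑ a ∈ Finset.univ.erase o, H a o ^ 2 * sk k (fun a => H a a) o a := by
  set κ : Fin n → ℝ := fun a => H a a with hκ
  set X : Matrix (Fin n) (Fin n) ℝ := H - Matrix.diagonal κ with hX
  have x0 : ∀ a, X a a = 0 := by
    intro a
    simp [hX, hκ]
  have x1 : ∀ a b, a ≠ b → X a b = H a b := by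
    intro a b hab
    simp [hX, Matrix.diagonal_apply_ne _ hab]
  have x2 : ∀ a b, a ≠ o → b ≠ o → X a b = 0 := by
    intro a b ha hb
    by_cases hab : a = b
    · rw [hab, x0]
    · rw [x1 a b hab, hd a b hab ha hb]
  have e := CX2_expand k hk κ X
  rw [hX, add_sub_cancel, ← hX] at e
  have e1 : ∑ i, fk k κ i * X i i = 0 :=
    Finset.sum_eq_zero (fun i _ => by rw [x0, mul_zero])
  have e3 : ∑ S ∈ Finset.univ.filter (fun S : Finset (Fin n) => 3 ≤ S.card ∧ S.card ≤ k),
      es Sᶜ (k - S.card) κ *
        (X.submatrix (Subtype.val : S → Fin n) (Subtype.val : S → Fin n)).det = 0 := by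
    refine Finset.sum_eq_zero (fun S hS => ?_)
    have h3 : 3 ≤ S.card := (Finset.mem_filter.1 hS).2.1
    rw [Matrix.det_apply', Finset.sum_eq_zero, mul_zero]
    intro σ _
    have h4 : ∃ i : S, i.1 ≠ o ∧ (σ i).1 ≠ o := by
      by_contra hne
      have h5 : (Finset.univ : Finset S) ⊆ Finset.univ.filter (fun i : S => i.1 = o) ∪
          Finset.univ.filter (fun i : S => (σ i).1 = o) := by
        intro i _
        by_contra h6
        simp only [Finset.mem_union, Finset.mem_filter, Finset.mem_univ, true_and, not_or] at h6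
        exact hne ⟨i, h6⟩
      have h7 : (Finset.univ.filter (fun i : S => i.1 = o)).card ≤ 1 := by
        rw [Finset.card_le_one]
        intro a ha b hb
        exact Subtype.ext ((Finset.mem_filter.1 ha).2.trans (Finset.mem_filter.1 hb).2.symm)
      have h8 : (Finset.univ.filter (fun i : S => (σ i).1 = o)).card ≤ 1 := by
        rw [Finset.card_le_one]
        intro a ha b hb
        exact σ.injective
          (Subtype.ext ((Finset.mem_filter.1 ha).2.trans (Finset.mem_filter.1 hb).2.symm))
      have h9 := (Finset.card_le_card h5).trans (Finset.card_union_le _ _)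
      rw [Finset.card_univ, Fintype.card_coe] at h9
      omega
    obtain ⟨i, hi, hi'⟩ := h4
    rw [Finset.prod_eq_zero (Finset.mem_univ i), mul_zero]
    exact x2 _ _ hi' hi
  have e2 : ∑ p, ∑ q ∈ Finset.univ.erase p, sk k κ p q * (X p p * X q q - X p q * X q p)
      = -2 * ∑ a ∈ Finset.univ.erase o, H a o ^ 2 * sk k κ o a := by
    rw [← Finset.add_sum_erase _ _ (Finset.mem_univ o)]
    have f1 : ∑ q ∈ Finset.univ.erase o, sk k κ o q * (X o o * X q q - X o q * X q o)
        = -∑ a ∈ Finset.univ.erase o, H a o ^ 2 * sk k κ o a := by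
      rw [← Finset.sum_neg_distrib]
      refine Finset.sum_congr rfl (fun q hq => ?_)
      have hq' : q ≠ o := (Finset.mem_erase.1 hq).1
      rw [x0, x1 o q hq'.symm, x1 q o hq', hs o q]
      ring
    have f2 : ∑ p ∈ Finset.univ.erase o, ∑ q ∈ Finset.univ.erase p,
        sk k κ p q * (X p p * X q q - X p q * X q p)
        = -∑ a ∈ Finset.univ.erase o, H a o ^ 2 * sk k κ o a := by
      rw [← Finset.sum_neg_distrib]
      refine Finset.sum_congr rfl (fun p hp => ?_)
      have hp' : p ≠ o := (Finset.mem_erase.1 hp).1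
      rw [Finset.sum_eq_single_of_mem o (Finset.mem_erase.2 ⟨hp'.symm, Finset.mem_univ _⟩)]
      · have : sk k κ p o = sk k κ o p := by
          unfold sk
          rw [Finset.erase_right_comm]
        rw [x0, x1 o p hp'.symm, x1 p o hp', hs o p, this]
        ring
      · intro q _ hq
        rw [x0, x2 p q hp' hq]
        ring
    rw [f1, f2]
    ring
  rw [e, e1, e2, e3]
  ring

end Pool.Agent.Mink.C
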