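import Pool.Agent.Lib.MP_88c759_an.Mink.CX1

/-! Orthonormal frames for the induced metric and diagonalisation of the shape operator. -/

set_option maxSynthPendingDepth 3

namespace Pool.Agent.Mink.G

open scoped ContDiff Topology RealInnerProductSpace
open Set Filter Matrix C

variable {n : ℕ}

/-- matrix whose columns are the vectors of a frame -/
noncomputable def fm (e : Fin n → E n) : Matrix (Fin n) (Fin n) ℝ := Matrix.of fun i a => e a i
/-- matrix of the induced metric -/
noncomputable def gm (p : B1 n) : Matrix (Fin n) (Fin n) ℝ :=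
  Matrix.of fun i j => dl i j - p (ee i) * p (ee j)
/-- matrix of the inverse metric -/
noncomputable def gi (p : B1 n) : Matrix (Fin n) (Fin n) ℝ :=
  Matrix.of fun i j => dl i j + Wp p ^ 2 * p (ee i) * p (ee j)
/-- matrix of a bilinear form -/
noncomputable def rm (r : B2 n) : Matrix (Fin n) (Fin n) ℝ := Matrix.of fun i j => r (ee i) (ee j)

theorem sum_ee (v : E n) : ∑ i, v i • ee i = v := by
  ext j
  simp [ee, Finset.sum_apply, Pi.single_apply]

theorem lin_expand (p : B1 n) (v : E n) : p v = ∑ i, v i * p (ee i) := by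
  conv_lhs => rw [← sum_ee v]
  simp [map_sum]

theorem bil_expand (r : B2 n) (v w : E n) :
    r v w = ∑ i, ∑ j, v i * r (ee i) (ee j) * w j := by
  conv_lhs => rw [← sum_ee v, ← sum_ee w]
  simp only [map_sum, map_smul, _root_.sum_apply, _root_.smul_apply,
    smul_eq_mul, Finset.mul_sum]
  rw [Finset.sum_comm]
  exact Finset.sum_congr rfl fun i _ => Finset.sum_congr rfl fun j _ => by ring

theorem inner_shp (p : B1 n) (v : E n) : ⟪shp p, v⟫ = p v :=
  InnerProductSpace.toDual_symm_apply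

theorem inner_ee (v : E n) (i : Fin n) : ⟪v, ee i⟫ = v i := by
  simp [ee, EuclideanSpace.inner_single_right]

theorem shp_coord (p : B1 n) (i : Fin n) : shp p i = p (ee i) := by
  rw [← inner_shp, inner_ee]

theorem norm_shp' (p : B1 n) : ‖shp p‖ = ‖p‖ := (InnerProductSpace.toDual ℝ (E n)).symm.norm_map p

theorem p_shp (p : B1 n) : p (shp p) = ‖p‖ ^ 2 := by
  rw [← inner_shp, real_inner_self_eq_norm_sq, norm_shp']

theorem normsq_eq (p : B1 n) : ‖p‖ ^ 2 = ∑ i, p (ee i) ^ 2 := by
  rw [← p_shp, lin_expand]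
  exact Finset.sum_congr rfl fun i _ => by rw [shp_coord, sq]

theorem one_sub_pos {p : B1 n} (hp : ‖p‖ < 1) : 0 < 1 - ‖p‖ ^ 2 := by
  have := norm_nonneg p
  nlinarith

theorem Wp_pos {p : B1 n} (hp : ‖p‖ < 1) : 0 < Wp p :=
  inv_pos.2 (Real.sqrt_pos.2 (one_sub_pos hp))

theorem Wp_sq {p : B1 n} (hp : ‖p‖ < 1) : Wp p ^ 2 * (1 - ‖p‖ ^ 2) = 1 := by
  rw [Wp, inv_pow, Real.sq_sqrt (one_sub_pos hp).le, inv_mul_cancel₀ (one_sub_pos hp).ne']

theorem inner_expand (v w : E n) : ⟪v, w⟫ = ∑ i, v i * w i := by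
  simp [PiLp.inner_apply, mul_comm]

theorem gp_symm (p : B1 n) (v w : E n) : gp p v w = gp p w v := by
  rw [gp, gp, real_inner_comm, mul_comm]

theorem gp_add_left (p : B1 n) (u v w : E n) : gp p (u + v) w = gp p u w + gp p v w := by
  simp only [gp, inner_add_left, map_add]; ring

theorem gp_smul_left (p : B1 n) (c : ℝ) (v w : E n) : gp p (c • v) w = c * gp p v w := by
  simp only [gp, real_inner_smul_left, map_smul, smul_eq_mul]; ring

theorem gp_sum_left {ι : Type} (p : B1 n) (s : Finset ι) (c : ι → ℝ) (f : ι → E n) (w : E n) :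
    gp p (∑ j ∈ s, c j • f j) w = ∑ j ∈ s, c j * gp p (f j) w := by
  simp only [gp, sum_inner, map_sum, real_inner_smul_left, map_smul, smul_eq_mul, Finset.sum_mul,
    ← Finset.sum_sub_distrib]
  exact Finset.sum_congr rfl fun j _ => by ring

theorem gp_expand (p : B1 n) (v w : E n) : gp p v w = ∑ i, ∑ j, v i * gm p i j * w j := by
  rw [gp, inner_expand, lin_expand p v, lin_expand p w, Finset.sum_mul_sum, ← Finset.sum_sub_distrib]
  refine Finset.sum_congr rfl fun i _ => ?_
  simp only [gm, of_apply, dl, mul_sub, sub_mul, Finset.sum_sub_distrib, mul_ite, ite_mul, mul_one,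
    mul_zero, zero_mul, Finset.sum_ite_eq, Finset.mem_univ, if_true]
  congr 1
  exact Finset.sum_congr rfl fun j _ => by ring

theorem gm_mul_gi {p : B1 n} (hp : ‖p‖ < 1) : gm p * gi p = 1 := by
  ext i j
  have h1 := Wp_sq hp
  rw [normsq_eq] at h1
  have h2 : ∑ l, (dl i l - p (ee i) * p (ee l)) * (dl l j + Wp p ^ 2 * p (ee l) * p (ee j)) =
      dl i j + p (ee i) * p (ee j) * (Wp p ^ 2 * (1 - ∑ l, p (ee l) ^ 2) - 1) := by
    have h3 : ∀ l, (dl i l - p (ee i) * p (ee l)) * (dl l j + Wp p ^ 2 * p (ee l) * p (ee j)) =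
        dl i l * (dl l j + Wp p ^ 2 * p (ee l) * p (ee j)) - (p (ee i) * p (ee l)) * dl l j
          - p (ee i) * p (ee j) * Wp p ^ 2 * p (ee l) ^ 2 := fun l => by ring
    simp only [h3, Finset.sum_sub_distrib, ← Finset.mul_sum]
    simp only [dl, ite_mul, mul_ite, one_mul, zero_mul, mul_one, mul_zero, Finset.sum_ite_eq,
      Finset.sum_ite_eq', Finset.mem_univ, if_true]
    ring
  rw [Matrix.mul_apply]
  simp only [gm, gi, of_apply]
  rw [h2, h1, Matrix.one_apply, dl]
  ring

theorem shape_eq_mul (p : B1 n) (r : B2 n) : shape p r = gi p * (Wp p • rm r) := by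
  ext i j
  have h : r (shp p) (ee j) = ∑ l, p (ee l) * r (ee l) (ee j) := by
    conv_lhs => rw [← sum_ee (shp p)]
    simp [map_sum, shp_coord]
  rw [Matrix.mul_apply]
  simp only [shape, gi, rm, of_apply, Matrix.smul_apply, smul_eq_mul, h, add_mul,
    Finset.sum_add_distrib, dl, ite_mul, one_mul, zero_mul, Finset.sum_ite_eq, Finset.mem_univ,
    if_true, mul_add, Finset.mul_sum]
  congr 1
  exact Finset.sum_congr rfl fun l _ => by ring

theorem conj_apply (e : Fin n → E n) (M : Matrix (Fin n) (Fin n) ℝ) (a b : Fin n) :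
    ((fm e)ᵀ * M * fm e) a b = ∑ i, ∑ j, e a i * M i j * e b j := by
  simp only [Matrix.mul_apply, transpose_apply, fm, of_apply, Finset.sum_mul]
  rw [Finset.sum_comm]

theorem frame_mat {p : B1 n} {e : Fin n → E n} (he : IsFrame p e) :
    (fm e)ᵀ * gm p * fm e = 1 := by
  ext a b
  rw [conj_apply, ← gp_expand, he a b, Matrix.one_apply]

theorem frame_mat' {p : B1 n} {e : Fin n → E n} (he : IsFrame p e) :
    fm e * (fm e)ᵀ * gm p = 1 := by
  rw [Matrix.mul_assoc]
  exact mul_eq_one_comm.1 (frame_mat he)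

theorem gi_eq {p : B1 n} (hp : ‖p‖ < 1) {e : Fin n → E n} (he : IsFrame p e) :
    gi p = fm e * (fm e)ᵀ := by
  rw [← Matrix.one_mul (gi p), ← frame_mat' he, Matrix.mul_assoc, gm_mul_gi hp, Matrix.mul_one]

/-- expansion of a vector in a frame -/
theorem frame_expand {p : B1 n} {e : Fin n → E n} (he : IsFrame p e) (v : E n) :
    ∑ a, gp p (e a) v • e a = v := by
  ext i
  have h := congrFun (congrArg (fun M => M *ᵥ (fun j => v j)) (frame_mat' he)) i
  simp only [one_mulVec] at h
  rw [← h]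
  simp only [mulVec, dotProduct, Matrix.mul_apply, transpose_apply, fm, of_apply, gp_expand,
    WithLp.ofLp_sum, Finset.sum_apply, WithLp.ofLp_smul, Pi.smul_apply, smul_eq_mul,
    Finset.sum_mul]
  rw [Finset.sum_comm]
  conv_rhs => rw [Finset.sum_comm]
  refine Finset.sum_congr rfl fun l _ => ?_
  rw [Finset.sum_comm]
  exact Finset.sum_congr rfl fun j _ => Finset.sum_congr rfl fun a _ => by ring

theorem gp_parseval {p : B1 n} {e : Fin n → E n} (he : IsFrame p e) (v w : E n) :
    gp p v w = ∑ a, gp p (e a) v * gp p (e a) w := by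
  conv_lhs => rw [← frame_expand he v]
  rw [gp_sum_left]

theorem bil_frame {p : B1 n} {e : Fin n → E n} (he : IsFrame p e) (r : B2 n) (v w : E n) :
    r v w = ∑ a, ∑ b, gp p (e a) v * r (e a) (e b) * gp p (e b) w := by
  conv_lhs => rw [← frame_expand he v, ← frame_expand he w]
  simp only [map_sum, map_smul, _root_.sum_apply, _root_.smul_apply,
    smul_eq_mul, Finset.mul_sum]
  rw [Finset.sum_comm]
  exact Finset.sum_congr rfl fun i _ => Finset.sum_congr rfl fun j _ => by ring

theorem charpoly_frame {p : B1 n} (hp : ‖p‖ < 1) {e : Fin n → E n} (he : IsFrame p e) (r : B2 n) :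
    (shape p r).charpoly = (Matrix.of fun a b => Wp p * r (e a) (e b)).charpoly := by
  rw [shape_eq_mul, gi_eq hp he, Matrix.mul_assoc, Matrix.charpoly_mul_comm]
  congr 1
  ext a b
  rw [conj_apply, of_apply, bil_expand, Finset.mul_sum]
  refine Finset.sum_congr rfl fun i _ => ?_
  rw [Finset.mul_sum]
  exact Finset.sum_congr rfl fun j _ => by
    simp only [Matrix.smul_apply, rm, of_apply, smul_eq_mul]; ring

theorem SS_frame {p : B1 n} (hp : ‖p‖ < 1) {e : Fin n → E n} (he : IsFrame p e) (j : ℕ)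
    (r : B2 n) : SS j p r = sM j (Matrix.of fun a b => Wp p * r (e a) (e b)) :=
  sM_eq_of_charpoly (charpoly_frame hp he r) j

theorem diag_mat {p : B1 n} {r : B2 n} {e : Fin n → E n} {κ : Fin n → ℝ} (h : Diag p r e κ) :
    (Matrix.of fun a b => Wp p * r (e a) (e b)) = Matrix.diagonal κ := by
  ext a b
  rw [of_apply, h.2 a b, Matrix.diagonal_apply]

theorem SS_diag {p : B1 n} (hp : ‖p‖ < 1) {r : B2 n} {e : Fin n → E n} {κ : Fin n → ℝ}
    (h : Diag p r e κ) (j : ℕ) : SS j p r = es Finset.univ j κ := by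
  rw [SS_frame hp h.1, diag_mat h, sM_diagonal]

theorem adm_iff_gam {k : ℕ} {p : B1 n} (hp : ‖p‖ < 1) {r : B2 n} {e : Fin n → E n}
    {κ : Fin n → ℝ} (h : Diag p r e κ) : Adm k p r ↔ Gam Finset.univ k κ := by
  simp only [Adm, Gam, hp, true_and, SS_diag hp h]

theorem exists_frame {p : B1 n} (hp : ‖p‖ < 1) : ∃ e, IsFrame p e := by
  have hw := Wp_pos hp
  have h1 := Wp_sq hp
  refine ⟨fun a => ee a + (Wp p ^ 2 / (1 + Wp p) * p (ee a)) • shp p, fun a b => ?_⟩
  have e1 : ⟪ee a, ee b⟫ = if a = b then (1:ℝ) else 0 := by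
    rw [inner_ee]; simp [ee, eq_comm]
  have e2 : ⟪ee a, shp p⟫ = p (ee a) := by rw [real_inner_comm, inner_shp]
  simp only [gp, inner_add_left, inner_add_right, real_inner_smul_left, real_inner_smul_right,
    map_add, map_smul, smul_eq_mul, e1, e2, inner_shp, p_shp]
  have h2 : ‖p‖ ^ 2 = 1 - (Wp p ^ 2)⁻¹ := by field_simp; linarith
  rw [h2]
  field_simp
  ring

theorem exists_diag {p : B1 n} (hp : ‖p‖ < 1) {r : B2 n} (hr : Sym r) :
    ∃ e κ, Diag p r e κ := by
  obtain ⟨f, hf⟩ := exists_frame hp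
  set H : Matrix (Fin n) (Fin n) ℝ := Matrix.of fun a b => Wp p * r (f a) (f b) with hH
  have hh : H.IsHermitian := by
    ext a b
    simp only [conjTranspose_apply, star_trivial, hH, of_apply, hr (f a) (f b)]
  set U : Matrix (Fin n) (Fin n) ℝ := (hh.eigenvectorUnitary : Matrix (Fin n) (Fin n) ℝ) with hU
  have hU1 : Uᵀ * U = 1 := by
    have := (Matrix.mem_unitaryGroup_iff').1 hh.eigenvectorUnitary.2
    simpa [star_eq_conjTranspose] using this
  have hU2 : Uᵀ * H * U = Matrix.diagonal hh.eigenvalues := by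
    have := hh.conjStarAlgAut_star_eigenvectorUnitary
    simpa [star_eq_conjTranspose, Function.comp_def] using this
  refine ⟨fun b => ∑ a, U a b • f a, hh.eigenvalues, fun a b => ?_, fun a b => ?_⟩
  · rw [gp_sum_left]
    have h1 : ∀ c, gp p (f c) (∑ d, U d b • f d) = U c b := fun c => by
      rw [gp_symm, gp_sum_left]
      simp only [hf _ c, mul_ite, mul_one, mul_zero, Finset.sum_ite_eq', Finset.mem_univ, if_true]
    simp only [h1]
    have := congrFun (congrFun hU1 a) b
    rwa [Matrix.mul_apply, Matrix.one_apply] at this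
  · have := congrFun (congrFun hU2 a) b
    rw [Matrix.diagonal_apply] at this
    rw [← this]
    simp only [map_sum, map_smul, _root_.sum_apply, _root_.smul_apply,
      smul_eq_mul, Finset.mul_sum, Matrix.mul_apply, transpose_apply, hH, of_apply, Finset.sum_mul]
    exact Finset.sum_congr rfl fun i _ => Finset.sum_congr rfl fun j _ => by ring

theorem contDiffOn_Wp : ContDiffOn ℝ ∞ (Wp : B1 n → ℝ) {p | ‖p‖ < 1} := by
  have h : ContDiff ℝ ∞ fun p : B1 n => 1 - ‖p‖ ^ 2 := by
    simp only [normsq_eq]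
    exact contDiff_const.sub (ContDiff.sum fun i _ => (contDiff_id.clm_apply contDiff_const).pow 2)
  exact (h.contDiffOn.sqrt fun p hp => (one_sub_pos hp).ne').inv
    fun p hp => (Real.sqrt_pos.2 (one_sub_pos hp)).ne'

end Pool.Agent.Mink.G
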