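import Pool.Agent.Lib.MP_88c759_an.Mink.Iface
import Pool.Agent.Lib.MP_88c759_an.Mink.GFr
import Pool.Agent.Lib.MP_88c759_an.Mink.CE5
import Pool.Agent.Lib.MP_88c759_an.Mink.CX2

/-! Algebra facts on `C.SS` used by the transfer part. -/

set_option maxSynthPendingDepth 3

namespace Pool.Agent.Mink

open scoped ContDiff Topology
open Set Polynomial Filter

variable {n k : ℕ}

/-- the diagonal entries in any frame lie in the cone and have larger `σ_k` -/
theorem atg_schur {r : B2 n} {p : B1 n} (hr : Sym r) (h : C.Adm k p r) {e : Fin n → E n}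
    (he : C.IsFrame p e) :
    C.Gam Finset.univ k (fun i => C.Wp p * r (e i) (e i)) ∧
      C.SS k p r ≤ C.es Finset.univ k (fun i => C.Wp p * r (e i) (e i)) := by
  obtain ⟨f, κ, hf⟩ := G.exists_diag h.1 hr
  have hg := (G.adm_iff_gam h.1 hf).1 h
  have key : (fun i => C.Wp p * r (e i) (e i)) = fun i => ∑ j, C.gp p (f j) (e i) ^ 2 * κ j := by
    funext i
    rw [G.bil_frame hf.1 r, Finset.mul_sum]
    refine Finset.sum_congr rfl fun a _ => ?_
    have h1 : ∀ b, C.Wp p * (C.gp p (f a) (e i) * r (f a) (f b) * C.gp p (f b) (e i)) =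
        C.gp p (f a) (e i) * (if a = b then κ a else 0) * C.gp p (f b) (e i) := fun b => by
      rw [← hf.2 a b]; ring
    rw [Finset.mul_sum]
    simp only [h1, mul_ite, ite_mul, mul_zero, zero_mul, Finset.sum_ite_eq, Finset.mem_univ,
      if_true]
    ring
  rw [key, G.SS_diag h.1 hf]
  refine C.gam_doubly hg _ (fun i j => sq_nonneg _) (fun i => ?_) (fun j => ?_)
  · have := G.gp_parseval hf.1 (e i) (e i)
    rw [he i i, if_pos rfl] at this
    rw [this]
    exact Finset.sum_congr rfl fun j _ => sq _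
  · have := G.gp_parseval he (f j) (f j)
    rw [hf.1 j j, if_pos rfl] at this
    rw [this]
    exact Finset.sum_congr rfl fun i _ => by rw [G.gp_symm, sq]

theorem atg_combo {r s : B2 n} {p : B1 n} (hr : Sym r ∧ C.Adm k p r) (hs : Sym s ∧ C.Adm k p s)
    {a b : ℝ} (ha : 0 ≤ a) (hb : 0 ≤ b) (hab : a + b = 1) :
    (Sym (a • r + b • s) ∧ C.Adm k p (a • r + b • s)) ∧
      a • Real.log (C.SS k p r) + b • Real.log (C.SS k p s) ≤
        Real.log (C.SS k p (a • r + b • s)) := by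
  have hp := hr.2.1
  have hsym : Sym (a • r + b • s) := fun v w => by
    simp only [_root_.add_apply, _root_.smul_apply, hr.1 v w, hs.1 v w]
  obtain ⟨e, κ, he⟩ := G.exists_diag hp hsym
  obtain ⟨g1, l1⟩ := atg_schur hr.1 hr.2 he.1
  obtain ⟨g2, l2⟩ := atg_schur hs.1 hs.2 he.1
  have hκ : κ = a • (fun i => C.Wp p * r (e i) (e i)) + b • fun i => C.Wp p * s (e i) (e i) := by
    funext i
    have := he.2 i i
    rw [if_pos rfl] at this
    rw [← this]
    simp only [_root_.add_apply, _root_.smul_apply, smul_eq_mul,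
      Pi.add_apply, Pi.smul_apply]
    ring
  have hc := C.concaveOn_log_es (Finset.univ : Finset (Fin n)) k
  refine ⟨⟨hsym, (G.adm_iff_gam hp he).2 (hκ ▸ hc.1 g1 g2 ha hb hab)⟩, ?_⟩
  rw [G.SS_diag hp he, hκ]
  refine le_trans ?_ (hc.2 g1 g2 ha hb hab)
  have pos : ∀ t : B2 n, Sym t ∧ C.Adm k p t → 0 < C.SS k p t := fun t ht => by
    obtain ⟨f, μ, hf⟩ := G.exists_diag hp ht.1
    rw [G.SS_diag hp hf]
    exact ((G.adm_iff_gam hp hf).1 ht.2).pos le_rfl
  exact add_le_add (smul_le_smul_of_nonneg_left (Real.log_le_log (pos r hr) l1) ha)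
    (smul_le_smul_of_nonneg_left (Real.log_le_log (pos s hs) l2) hb)

/-- the admissible cone is convex and `log σ_k` is concave on it -/
theorem concaveOn_log_SS (_hk : 1 ≤ k) (_hkn : k ≤ n) (p : B1 n) :
    ConcaveOn ℝ {r : B2 n | Sym r ∧ C.Adm k p r} (fun r => Real.log (C.SS k p r)) :=
  ⟨fun _ hr _ hs _ _ ha hb hab => (atg_combo hr hs ha hb hab).1,
    fun _ hr _ hs _ _ ha hb hab => (atg_combo hr hs ha hb hab).2⟩

/-- smoothness of `σ_j` of the principal curvatures in the jet -/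
theorem contDiffOn_SS (j : ℕ) :
    ContDiffOn ℝ ∞ (fun q : B1 n × B2 n => C.SS j q.1 q.2) {q | ‖q.1‖ < 1} := by
  have hW : ContDiffOn ℝ ∞ (fun q : B1 n × B2 n => C.Wp q.1) {q | ‖q.1‖ < 1} :=
    G.contDiffOn_Wp.comp contDiff_fst.contDiffOn fun _ h => h
  have hp : ∀ v : E n, ContDiff ℝ ∞ fun q : B1 n × B2 n => q.1 v := fun v =>
    contDiff_fst.clm_apply contDiff_const
  have hr : ∀ v w : E n, ContDiff ℝ ∞ fun q : B1 n × B2 n => q.2 v w := fun v w =>
    (contDiff_snd.clm_apply contDiff_const).clm_apply contDiff_const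
  have hm : ContDiffOn ℝ ∞ (fun (q : B1 n × B2 n) (a b : Fin n) => C.shape q.1 q.2 a b)
      {q | ‖q.1‖ < 1} := by
    refine contDiffOn_pi.2 fun a => contDiffOn_pi.2 fun b => ?_
    simp only [G.shape_eq_mul, Matrix.mul_apply, G.gi, G.rm, Matrix.of_apply, Matrix.smul_apply,
      smul_eq_mul]
    exact ContDiffOn.sum fun l _ => (contDiffOn_const.add (((hW.pow 2).mul
      (hp _).contDiffOn).mul (hp _).contDiffOn)).mul (hW.mul (hr _ _).contDiffOn)
  exact (C.contDiff_sM j).comp_contDiffOn hm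

theorem contDiff_SS_right (j : ℕ) {p : B1 n} (hp : ‖p‖ < 1) :
    ContDiff ℝ ∞ fun s : B2 n => C.SS j p s := by
  have h0 : ContDiff ℝ ∞ fun s : B2 n => ((p, s) : B1 n × B2 n) :=
    contDiff_const.prodMk contDiff_id
  have h1 := ContDiffOn.comp (s := univ) (contDiffOn_SS (n := n) j) h0.contDiffOn fun _ _ => hp
  rw [contDiffOn_univ] at h1
  exact h1

theorem atg_psd_zero {m : B2 n} (hm : Psd m) {v w : E n} (hv : m v v = 0) (hw : m w w = 0) :
    m v w = 0 := by
  have h1 := hm.2 (v + w)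
  have h2 := hm.2 (v - w)
  simp only [map_add, map_sub, _root_.add_apply, _root_.sub_apply, hv, hw,
    hm.1 w v] at h1 h2
  linarith

/-- strict ellipticity -/
theorem fderiv_SS_pos (hk : 1 ≤ k) (_hkn : k ≤ n) {r : B2 n} {p : B1 n} (hr : Sym r)
    (h : C.Adm k p r) {m : B2 n} (hm : Psd m) (hm0 : m ≠ 0) :
    0 < fderiv ℝ (fun s : B2 n => C.SS k p s) r m := by
  have hp := h.1
  obtain ⟨e, κ, he⟩ := G.exists_diag hp hr
  have hg := (G.adm_iff_gam hp he).1 h
  have hd := (contDiff_SS_right k hp).differentiable (by simp) r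
  have hl : HasDerivAt (fun t : ℝ => r + t • m) m 0 := by
    simpa using ((hasDerivAt_id (0:ℝ)).smul_const m).const_add r
  have h1 : HasDerivAt (fun t : ℝ => C.SS k p (r + t • m))
      (fderiv ℝ (fun s : B2 n => C.SS k p s) r m) 0 :=
    HasFDerivAt.comp_hasDerivAt_of_eq (0:ℝ) hd.hasFDerivAt hl (by simp)
  have h2 := C.hasDerivAt_sM k hk κ (Matrix.of fun a b => C.Wp p * m (e a) (e b))
  have h3 : (fun t : ℝ => C.SS k p (r + t • m)) = fun t : ℝ => C.sM k (Matrix.diagonal κ +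
      t • Matrix.of fun a b => C.Wp p * m (e a) (e b)) := by
    funext t
    rw [G.SS_frame hp he.1, ← G.diag_mat he]
    congr 1
    ext a b
    simp only [Matrix.of_apply, Matrix.add_apply, Matrix.smul_apply, _root_.add_apply,
      _root_.smul_apply, smul_eq_mul]
    ring
  rw [h3] at h1
  rw [h1.unique h2]
  have hf : ∀ i, 0 < C.fk k κ i := fun i => (hg.erase (Finset.mem_univ i)).pos le_rfl
  have hw := G.Wp_pos hp
  have hex : ∃ i, m (e i) (e i) ≠ 0 := by
    by_contra hc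
    push Not at hc
    refine hm0 ?_
    ext v w
    rw [G.bil_frame he.1 m]
    simp [atg_psd_zero hm (hc _) (hc _)]
  obtain ⟨i, hi⟩ := hex
  exact Finset.sum_pos' (fun j _ => mul_nonneg (hf j).le (mul_nonneg hw.le (hm.2 _)))
    ⟨i, Finset.mem_univ i, mul_pos (hf i) (mul_pos hw (lt_of_le_of_ne (hm.2 _) hi.symm))⟩

theorem atg_shift (hkn : k ≤ n) {κ : Fin n → ℝ}
    (h0 : ∀ j, 1 ≤ j → j ≤ k → 0 ≤ C.es Finset.univ j κ) (j : ℕ) (hj : j ≤ k) :
    ∀ t : ℝ, 0 < t → C.es Finset.univ j κ ≤ C.es Finset.univ j (fun i => κ i + t) ∧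
      0 < C.es Finset.univ j (fun i => κ i + t) := by
  induction j with
  | zero => intro t _; simp [C.es_zero]
  | succ j ih =>
    intro t ht
    have hd := C.hasDerivAt_es_shift (Finset.univ : Finset (Fin n)) j κ
    have hm : StrictMonoOn (fun τ : ℝ => C.es Finset.univ (j + 1) (fun i => κ i + τ)) (Ici 0) := by
      refine strictMonoOn_of_deriv_pos (convex_Ici 0)
        (fun τ _ => (hd τ).continuousAt.continuousWithinAt) fun τ hτ => ?_
      rw [interior_Ici] at hτ
      rw [(hd τ).deriv]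
      refine mul_pos ?_ (ih (by omega) τ hτ).2
      rw [Finset.card_univ, Fintype.card_fin, sub_pos]
      exact_mod_cast (by omega : j < n)
    have h1 := hm (mem_Ici.2 le_rfl) (mem_Ici.2 ht.le) ht
    simp only [add_zero] at h1
    exact ⟨h1.le, (h0 (j + 1) (by omega) hj).trans_lt h1⟩

/-- closed cone and `σ_k > 0` give the open cone -/
theorem adm_of_nonneg (hkn : k ≤ n) {r : B2 n} {p : B1 n} (hr : Sym r) (hp : ‖p‖ < 1)
    (h0 : ∀ j, 1 ≤ j → j ≤ k → 0 ≤ C.SS j p r) (hpos : 0 < C.SS k p r) : C.Adm k p r := by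
  obtain ⟨e, κ, he⟩ := G.exists_diag hp hr
  rw [G.adm_iff_gam hp he]
  simp only [G.SS_diag hp he] at h0 hpos
  obtain ⟨c, hc, hlow⟩ := C.gam_lower_all (ι := Fin n) n k _ (∑ i, |κ i| + 1) hpos
  intro j _ hj
  refine hc.trans_le ?_
  have hcont : ContinuousAt (fun t : ℝ => C.es Finset.univ j (fun i => κ i + t)) 0 :=
    ((C.continuous_es _ j).comp (continuous_pi fun i => continuous_const.add continuous_id)).continuousAt
  have ht := hcont.tendsto.mono_left (nhdsWithin_le_nhds (s := Ioi 0))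
  simp only [add_zero] at ht
  refine ge_of_tendsto ht ?_
  filter_upwards [Ioc_mem_nhdsGT (zero_lt_one' ℝ)] with t h1
  refine hlow _ _ (by simp) (fun l _ hl => (atg_shift hkn h0 l hl t h1.1).2)
    (atg_shift hkn h0 k le_rfl t h1.1).1 (fun i _ => ?_) j hj
  have h2 : |κ i| ≤ ∑ l, |κ l| :=
    Finset.single_le_sum (f := fun l => |κ l|) (fun l _ => abs_nonneg _) (Finset.mem_univ i)
  linarith [le_abs_self (κ i), h1.2]

/-- the shape operator of a symmetric spacelike jet has real eigenvalues -/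
theorem exists_eigen {r : B2 n} {p : B1 n} (hr : Sym r) (hp : ‖p‖ < 1) :
    ∃ κ : Fin n → ℝ, (C.shape p r).charpoly = ∏ i, (X - Polynomial.C (κ i)) := by
  obtain ⟨e, κ, he⟩ := G.exists_diag hp hr
  exact ⟨κ, by rw [G.charpoly_frame hp he.1, G.diag_mat he, Matrix.charpoly_diagonal]⟩

end Pool.Agent.Mink
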