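import Pool.Agent.Lib.MP_88c759_an.Mink.BX

/-! Blow-up limits. -/

set_option maxSynthPendingDepth 3

namespace Pool.Agent.Mink.B

open scoped ContDiff Topology
open Set Filter

variable {n : ℕ} {β : ℝ}

/-- the Taylor inequalities between two points with jets -/
def bblowT (β : ℝ) : Set ((E n × J0 n) × E n × J0 n) :=
  {p | ‖p.2.2.1 - p.1.2.1‖ ≤ 1 * ‖p.2.1 - p.1.1‖ ^ β ∧
    ‖p.2.2.2.1 - p.1.2.2.1 - p.1.2.1 (p.2.1 - p.1.1)‖ ≤ 1 * ‖p.2.1 - p.1.1‖ ^ (1 + β) ∧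
    ‖p.2.2.2.2 - p.1.2.2.2 - p.1.2.2.1 (p.2.1 - p.1.1)‖ ≤
      (‖p.1.2.1‖ + 1 * ‖p.2.1 - p.1.1‖ ^ β) * ‖p.2.1 - p.1.1‖ ^ 2}

lemma bblow_closed (hβ : 0 < β) : IsClosed (bblowT (n := n) β) := by
  have h0 : Continuous fun p : (E n × J0 n) × E n × J0 n => p.2.1 - p.1.1 := by fun_prop
  have h1 : Continuous fun p : (E n × J0 n) × E n × J0 n => ‖p.2.1 - p.1.1‖ ^ β :=
    h0.norm.rpow_const fun _ => Or.inr hβ.le
  have h2 : Continuous fun p : (E n × J0 n) × E n × J0 n => ‖p.2.1 - p.1.1‖ ^ (1 + β) :=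
    h0.norm.rpow_const fun _ => Or.inr (by linarith)
  have a1 : Continuous fun p : (E n × J0 n) × E n × J0 n => p.1.2.1 :=
    continuous_fst.snd.fst
  have a2 : Continuous fun p : (E n × J0 n) × E n × J0 n => p.1.2.2.1 :=
    continuous_fst.snd.snd.fst
  have a3 : Continuous fun p : (E n × J0 n) × E n × J0 n => p.1.2.2.2 :=
    continuous_fst.snd.snd.snd
  have b1 : Continuous fun p : (E n × J0 n) × E n × J0 n => p.2.2.1 :=
    continuous_snd.snd.fst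
  have b2 : Continuous fun p : (E n × J0 n) × E n × J0 n => p.2.2.2.1 :=
    continuous_snd.snd.snd.fst
  have b3 : Continuous fun p : (E n × J0 n) × E n × J0 n => p.2.2.2.2 :=
    continuous_snd.snd.snd.snd
  refine IsClosed.and (isClosed_le (b1.sub a1).norm (continuous_const.mul h1))
    (IsClosed.and (isClosed_le ((b2.sub a2).sub (a1.clm_apply h0)).norm (continuous_const.mul h2))
      (isClosed_le ((b3.sub a3).sub (a2.clm_apply h0)).norm
        ((a1.norm.add (continuous_const.mul h1)).mul (h0.norm.pow 2))))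

lemma bblow_eq (hβ : 0 < β) {z : E n} {v v' : J0 n} (h : ((z, v), (z, v')) ∈ bblowT β) :
    v' = v := by
  obtain ⟨h1, h2, h3⟩ := h
  have e : (1 + β) ≠ 0 := by linarith
  simp only [sub_self, norm_zero, Real.zero_rpow hβ.ne', Real.zero_rpow e, mul_zero, map_zero,
    sub_zero, norm_le_zero_iff, sub_eq_zero, ne_eq, OfNat.ofNat_ne_zero, not_false_eq_true,
    zero_pow] at h1 h2 h3
  exact Prod.ext h1 (Prod.ext h2 h3)

/-- For `z ∈ limSet u D` choose `zz → z`; `J i (zz i)` is bounded (Taylor inequalities from `0`),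
so it has a limit `g z` (`ulim`). Two approximating families give the same limit by the Taylor
inequalities, which also pass to the limit (`le_of_tendsto_of_tendsto`, continuity of `rpow`). -/
theorem blow (hβ : 0 < β) {I : Type} (u : Ultrafilter I) {D : I → Set (E n)} {J : I → E n → J0 n}
    (h : ∀ᶠ i in u, 0 ∈ D i ∧ J i 0 = 0 ∧ Tay β 1 (D i) (J i)) :
    ∃ g : E n → J0 n, Tay β 1 (limSet u D) g ∧ ∀ (zz : I → E n) (z : E n),
      (∀ᶠ i in u, zz i ∈ D i) → Tendsto zz u (𝓝 z) → Tendsto (fun i => J i (zz i)) u (𝓝 (g z)) := by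
  classical
  have hex : ∀ (zz : I → E n) (z : E n), (∀ᶠ i in u, zz i ∈ D i) → Tendsto zz u (𝓝 z) →
      ∃ v, Tendsto (fun i => J i (zz i)) u (𝓝 v) := by
    intro zz z h1 h2
    have hb : ∀ᶠ i in u, ‖zz i‖ ≤ ‖z‖ + 1 :=
      h2.norm.eventually (eventually_le_nhds (lt_add_one _))
    refine ulim u (C := (‖z‖ + 1) ^ β + (‖z‖ + 1) ^ (1 + β) + (‖z‖ + 1) ^ β * (‖z‖ + 1) ^ 2) ?_
    filter_upwards [h, h1, hb] with i hi hz hb
    obtain ⟨t1, t2, t3⟩ := hi.2.2 0 hi.1 (zz i) hz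
    simp only [hi.2.1, Prod.fst_zero, Prod.snd_zero, sub_zero, zero_apply,
      norm_zero, one_mul, zero_add] at t1 t2 t3
    have p1 : ‖zz i‖ ^ β ≤ (‖z‖ + 1) ^ β := by gcongr
    have p2 : ‖zz i‖ ^ (1 + β) ≤ (‖z‖ + 1) ^ (1 + β) := by gcongr
    have p3 : ‖zz i‖ ^ β * ‖zz i‖ ^ 2 ≤ (‖z‖ + 1) ^ β * (‖z‖ + 1) ^ 2 := by gcongr
    have q1 : 0 ≤ (‖z‖ + 1) ^ β := by positivity
    have q2 : 0 ≤ (‖z‖ + 1) ^ (1 + β) := by positivity
    have q3 : 0 ≤ (‖z‖ + 1) ^ β * (‖z‖ + 1) ^ 2 := by positivity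
    refine norm_prod_le_iff.2 ⟨by linarith, norm_prod_le_iff.2 ⟨by linarith, by linarith⟩⟩
  have hT : ∀ (zz ww : I → E n) (z w : E n) (v v' : J0 n), (∀ᶠ i in u, zz i ∈ D i) →
      (∀ᶠ i in u, ww i ∈ D i) → Tendsto zz u (𝓝 z) → Tendsto ww u (𝓝 w) →
      Tendsto (fun i => J i (zz i)) u (𝓝 v) → Tendsto (fun i => J i (ww i)) u (𝓝 v') →
      ((z, v), (w, v')) ∈ bblowT β := by
    intro zz ww z w v v' h1 h2 h3 h4 h5 h6
    refine (bblow_closed hβ).mem_of_tendsto ((h3.prodMk_nhds h5).prodMk_nhds (h4.prodMk_nhds h6)) ?_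
    filter_upwards [h, h1, h2] with i hi hz hw
    exact hi.2.2 _ hz _ hw
  have hc : ∀ z, ∃ v : J0 n, z ∈ limSet u D → ∃ zz : I → E n, (∀ᶠ i in u, zz i ∈ D i) ∧
      Tendsto zz u (𝓝 z) ∧ Tendsto (fun i => J i (zz i)) u (𝓝 v) := by
    intro z
    by_cases hz : z ∈ limSet u D
    · obtain ⟨zz, h1, h2⟩ := hz
      obtain ⟨v, hv⟩ := hex zz z h1 h2
      exact ⟨v, fun _ => ⟨zz, h1, h2, hv⟩⟩
    · exact ⟨0, fun e => absurd e hz⟩
  choose g hg using hc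
  refine ⟨g, fun z hz w hw => ?_, fun zz z h1 h2 => ?_⟩
  · obtain ⟨zz, a1, a2, a3⟩ := hg z hz
    obtain ⟨ww, b1, b2, b3⟩ := hg w hw
    exact hT zz ww z w _ _ a1 b1 a2 b2 a3 b3
  · obtain ⟨v, hv⟩ := hex zz z h1 h2
    obtain ⟨ww, b1, b2, b3⟩ := hg z ⟨zz, h1, h2⟩
    rwa [bblow_eq hβ (hT zz ww z z _ _ h1 b1 h2 b2 hv b3)]

lemma convex_rB (b : E n) (ρ : ℝ) : Convex ℝ (rB b ρ) := by
  intro x hx y hy s t hs ht hst
  have h := convex_cB hx hy hs ht hst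
  have e : s • (b + ρ • x) + t • (b + ρ • y) = (s + t) • b + ρ • (s • x + t • y) := by module
  rw [e, hst, one_smul] at h
  exact h

lemma resc_zero (f : E n → J0 n) (b : E n) (ρ : ℝ) : resc β f b ρ 0 = 0 := by
  simp [resc]

/-- chain rule; the derivative of the quadratic term uses `IsJet.sym_cB` at `b` -/
lemma isJet_resc {f : E n → J0 n} (hf : IsJet (cB n) f) {b : E n} (hb : b ∈ cB n) {ρ : ℝ}
    (hρ : 0 < ρ) : IsJet (rB b ρ) (resc β f b ρ) := by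
  have hs := hf.sym_cB hb
  have hm : MapsTo (fun z => b + ρ • z) (rB b ρ) (cB n) := fun _ hz => hz
  have h0 : ∀ z, HasFDerivWithinAt (fun z : E n => ρ • z) (ρ • ContinuousLinearMap.id ℝ (E n))
      (rB b ρ) z := fun z => (hasFDerivWithinAt_id z _).const_smul ρ
  have h1 : ∀ z, HasFDerivWithinAt (fun z : E n => b + ρ • z) (ρ • ContinuousLinearMap.id ℝ (E n))
      (rB b ρ) z := fun z => (h0 z).const_add b
  have e1 : ρ ^ (1 + β) = ρ ^ β * ρ := by rw [add_comm, Real.rpow_add_one hρ.ne']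
  have e2 : ρ ^ (2 + β) = ρ ^ (1 + β) * ρ := by
    rw [← Real.rpow_add_one hρ.ne']; congr 1; ring
  have p0 : 0 < ρ ^ β := Real.rpow_pos_of_pos hρ _
  have p1 : 0 < ρ ^ (1 + β) := Real.rpow_pos_of_pos hρ _
  refine ⟨fun z hz => ?_, fun z hz => ?_⟩
  · have a1 := (hf.1 _ (hm hz)).comp z (h1 z) hm
    have a2 := (f b).2.1.hasFDerivAt.comp_hasFDerivWithinAt z (h0 z)
    have a3 := ((f b).1.hasFDerivAt.comp_hasFDerivWithinAt z (h0 z)).clm_apply (h0 z)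
    have a4 := (((a1.sub_const (f b).2.2).sub a2).sub (a3.const_mul (1 / 2))).const_mul
      (ρ ^ (2 + β))⁻¹
    refine HasFDerivWithinAt.congr_fderiv a4 (ContinuousLinearMap.ext fun v => ?_)
    simp only [resc, smul_apply, sub_apply,
      add_apply, ContinuousLinearMap.comp_apply, ContinuousLinearMap.id_apply,
      ContinuousLinearMap.flip_apply, Function.comp_apply, map_smul, smul_eq_mul, e2, hs v z]
    field_simp
    ring
  · have a1 := (hf.2 _ (hm hz)).comp z (h1 z) hm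
    have a2 := (f b).1.hasFDerivAt.comp_hasFDerivWithinAt z (h0 z)
    have a4 := ((a1.sub_const (f b).2.1).sub a2).const_smul (ρ ^ (1 + β))⁻¹
    refine HasFDerivWithinAt.congr_fderiv a4 (ContinuousLinearMap.ext fun v =>
      ContinuousLinearMap.ext fun w => ?_)
    simp only [resc, smul_apply, sub_apply,
      ContinuousLinearMap.comp_apply, ContinuousLinearMap.id_apply, map_smul, smul_eq_mul, e1]
    field_simp

lemma bblow_rpow {ρ : ℝ} (hρ : 0 < ρ) (b z w : E n) :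
    ‖b + ρ • z - (b + ρ • w)‖ ^ β = ρ ^ β * ‖z - w‖ ^ β := by
  rw [add_sub_add_left_eq_sub, ← smul_sub, norm_smul, Real.norm_of_nonneg hρ.le,
    Real.mul_rpow hρ.le (norm_nonneg _)]

lemma tay_resc (hβ : 0 < β) {f : E n → J0 n} (hf : IsJet (cB n) f)
    (h1 : HS β 1 (cB n) fun x => (f x).1) {b : E n} (hb : b ∈ cB n) {ρ : ℝ} (hρ : 0 < ρ) :
    Tay β 1 (rB b ρ) (resc β f b ρ) := by
  refine (isJet_resc hf hb hρ).tay hβ (convex_rB b ρ) fun z hz w hw => ?_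
  have p0 : 0 < ρ ^ β := Real.rpow_pos_of_pos hρ _
  have h := h1 _ hz _ hw
  rw [bblow_rpow hρ] at h
  change ‖(ρ ^ β)⁻¹ • ((f (b + ρ • z)).1 - (f b).1) - (ρ ^ β)⁻¹ • ((f (b + ρ • w)).1 - (f b).1)‖ ≤ _
  rw [← smul_sub, sub_sub_sub_cancel_right, norm_smul, norm_inv, Real.norm_of_nonneg p0.le,
    inv_mul_le_iff₀ p0]
  linarith

lemma bblow_rhs {lam Lam ε ρ : ℝ} {l : E n → B2 n →L[ℝ] ℝ} {f : E n → J0 n} {x y b z : E n}
    (h : Bad β lam Lam ε l f x y) (hb : b ∈ cB n) (hρ : 0 < ρ) (hz : z ∈ rB b ρ) :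
    ‖l b (resc β f b ρ z).1‖ ≤ ε * (1 + Lam) * ‖z‖ ^ β := by
  have p0 : 0 < ρ ^ β := Real.rpow_pos_of_pos hρ _
  have hw : b + ρ • z ∈ cB n := hz
  have e0 : ‖b + ρ • z - b‖ ^ β = ρ ^ β * ‖z‖ ^ β := by
    simpa using bblow_rpow (β := β) hρ b z 0
  have h1 := h.rhs _ hw _ hb
  have h2 := h.hl.2 _ hw _ hb
  have h3 := (norm_fst_le _).trans (h.sup _ hw)
  rw [e0] at h1 h2
  have h4 : ‖(l (b + ρ • z) - l b) (f (b + ρ • z)).1‖ ≤ Lam * (ρ ^ β * ‖z‖ ^ β) * ε :=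
    (ContinuousLinearMap.le_opNorm _ _).trans
      (mul_le_mul h2 h3 (norm_nonneg _) ((norm_nonneg _).trans h2))
  have e : l b ((f (b + ρ • z)).1 - (f b).1) = (l (b + ρ • z) (f (b + ρ • z)).1 - l b (f b).1) -
      (l (b + ρ • z) - l b) (f (b + ρ • z)).1 := by
    simp only [map_sub, sub_apply]
    ring
  change ‖l b ((ρ ^ β)⁻¹ • ((f (b + ρ • z)).1 - (f b).1))‖ ≤ _
  rw [map_smul, norm_smul, norm_inv, Real.norm_of_nonneg p0.le, inv_mul_le_iff₀ p0, e]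
  refine (norm_sub_le _ _).trans ((add_le_add h1 h4).trans_eq ?_)
  ring

variable {lam Lam : ℝ} {I : Type} {ε : I → ℝ} {l : I → E n → B2 n →L[ℝ] ℝ} {f : I → E n → J0 n}
  {x y : I → E n}

/-- `‖x - y‖^β ≤ 4 ε` -/
lemma bad_rho (hβ : 0 < β) {u : Filter I} (hε : Tendsto ε u (𝓝 0))
    (hb : ∀ i, Bad β lam Lam (ε i) (l i) (f i) (x i) (y i)) :
    Tendsto (fun i => ‖x i - y i‖) u (𝓝 0) := by
  have h1 : Tendsto (fun i => ‖x i - y i‖ ^ β) u (𝓝 0) := by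
    have h4 : Tendsto (fun i => 4 * ε i) u (𝓝 0) := by simpa using hε.const_mul 4
    refine squeeze_zero (fun i => by positivity) (fun i => ?_) h4
    have a1 := (norm_fst_le _).trans ((hb i).sup _ (hb i).hx)
    have a2 := (norm_fst_le _).trans ((hb i).sup _ (hb i).hy)
    linarith [(hb i).big, norm_sub_le (f i (x i)).1 (f i (y i)).1]
  have h2 := h1.rpow_const (p := β⁻¹) (Or.inr (by positivity))
  rw [Real.zero_rpow (inv_ne_zero hβ.ne')] at h2
  exact h2.congr fun i => Real.rpow_rpow_inv (norm_nonneg _) hβ.ne'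

/-- `g` from `blow`; `L = lim l i (b i)`; `a`, `a'` the limits of `ρ⁻¹ • (x i - b i)`,
`ρ⁻¹ • (y i - b i)`, where the top components differ by at least `1/2`. With `w = b + ρ zz`:
`l b (r w - r b) = (l w (r w) - l b (r b)) - (l w - l b) (r w)` is at most
`ε (1 + Lam) ‖ρ zz‖^β` in absolute value. -/
theorem blow_common (hβ : 0 < β) (hlam : 0 < lam) (u : Ultrafilter I) (hε : Tendsto ε u (𝓝 0))
    (hb : ∀ i, Bad β lam Lam (ε i) (l i) (f i) (x i) (y i)) {b : I → E n} (hbm : ∀ i, b i ∈ cB n)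
    {R : ℝ} (hR : ∀ᶠ i in u, ‖x i - b i‖ ≤ R * ‖x i - y i‖) {S : Set (E n)}
    (hS : S = limSet u fun i => rB (b i) ‖x i - y i‖) :
    ∃ (g : E n → J0 n) (L : B2 n →L[ℝ] ℝ) (a a' : E n), PosL L ∧ Tay β 1 S g ∧
      (∀ z ∈ S, L (g z).1 = 0) ∧ a ∈ S ∧ a' ∈ S ∧ (g a).1 ≠ (g a').1 ∧
      ∀ (zz : I → E n) (z : E n), (∀ᶠ i in u, zz i ∈ rB (b i) ‖x i - y i‖) → Tendsto zz u (𝓝 z) →
        Tendsto (fun i => resc β (f i) (b i) ‖x i - y i‖ (zz i)) u (𝓝 (g z)) := by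
  subst hS
  have hρ : ∀ i, 0 < ‖x i - y i‖ := fun i => norm_pos_iff.2 (sub_ne_zero.2 (hb i).ne)
  have hp : ∀ i, 0 < ‖x i - y i‖ ^ β := fun i => Real.rpow_pos_of_pos (hρ i) _
  obtain ⟨g, hg1, hg2⟩ := blow hβ u (D := fun i => rB (b i) ‖x i - y i‖)
    (J := fun i => resc β (f i) (b i) ‖x i - y i‖) (.of_forall fun i =>
      ⟨by simpa [rB] using hbm i, resc_zero _ _ _, tay_resc hβ (hb i).jet (hb i).one (hbm i) (hρ i)⟩)
  obtain ⟨L, hL⟩ := ulim u (g := fun i => l i (b i)) (C := Lam)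
    (.of_forall fun i => (hb i).hl.1 _ (hbm i))
  have ex : ∀ i (w : E n), b i + ‖x i - y i‖ • ‖x i - y i‖⁻¹ • (w - b i) = w := fun i w => by
    rw [smul_inv_smul₀ (hρ i).ne', add_sub_cancel]
  obtain ⟨a, ha⟩ := ulim u (g := fun i => ‖x i - y i‖⁻¹ • (x i - b i)) (C := R) (by
    filter_upwards [hR] with i hi
    rwa [norm_smul, norm_inv, norm_norm, inv_mul_le_iff₀ (hρ i), mul_comm])
  obtain ⟨a', ha'⟩ := ulim u (g := fun i => ‖x i - y i‖⁻¹ • (y i - b i)) (C := R + 1) (by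
    filter_upwards [hR] with i hi
    rw [norm_smul, norm_inv, norm_norm, inv_mul_le_iff₀ (hρ i)]
    have := norm_sub_le (x i - b i) (x i - y i)
    rw [sub_sub_sub_cancel_left] at this
    linarith)
  have ma : ∀ᶠ i in u, ‖x i - y i‖⁻¹ • (x i - b i) ∈ rB (b i) ‖x i - y i‖ :=
    .of_forall fun i => by
      change _ ∈ cB n
      rw [ex]; exact (hb i).hx
  have ma' : ∀ᶠ i in u, ‖x i - y i‖⁻¹ • (y i - b i) ∈ rB (b i) ‖x i - y i‖ :=
    .of_forall fun i => by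
      change _ ∈ cB n
      rw [ex]; exact (hb i).hy
  have hev : ∀ {v : I → B2 n} {m : B2 n}, Tendsto v u (𝓝 m) →
      Tendsto (fun i => l i (b i) (v i)) u (𝓝 (L m)) := fun {v m} hv =>
    ((continuous_fst.clm_apply continuous_snd).tendsto (L, m)).comp (hL.prodMk_nhds hv)
  refine ⟨g, L, a, a', fun m hm h0 => ?_, hg1, fun z hz => ?_, ⟨_, ma, ha⟩, ⟨_, ma', ha'⟩,
    fun e => ?_, hg2⟩
  · exact (mul_pos hlam (norm_pos_iff.2 h0)).trans_le (ge_of_tendsto (hev tendsto_const_nhds)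
      (.of_forall fun i => (hb i).ell _ (hbm i) m hm))
  · obtain ⟨zz, h1, h2⟩ := hz
    have t1 := hev ((continuous_fst.tendsto _).comp (hg2 zz z h1 h2))
    refine tendsto_nhds_unique t1 ?_
    have t2 : Tendsto (fun i => ε i * (1 + Lam) * ‖zz i‖ ^ β) u (𝓝 0) := by
      simpa using (hε.mul_const (1 + Lam)).mul (h2.norm.rpow_const (p := β) (Or.inr hβ.le))
    refine squeeze_zero_norm' ?_ t2
    filter_upwards [h1] with i hi
    exact bblow_rhs (hb i) (hbm i) (hρ i) hi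
  · have t1 := (continuous_fst.tendsto _).comp (hg2 _ _ ma ha)
    have t2 := (continuous_fst.tendsto _).comp (hg2 _ _ ma' ha')
    have t3 : 1 / 2 ≤ ‖(g a).1 - (g a').1‖ := by
      refine ge_of_tendsto (t1.sub t2).norm (.of_forall fun i => ?_)
      simp only [Function.comp_apply, resc, ex]
      rw [← smul_sub, sub_sub_sub_cancel_right, norm_smul, norm_inv, Real.norm_of_nonneg (hp i).le,
        le_inv_mul_iff₀ (hp i)]
      linarith [(hb i).big]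
    rw [e, sub_self, norm_zero] at t3
    linarith

end Pool.Agent.Mink.B
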