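import Pool.Agent.Lib.MP_88c759_an.Mink.BReg

/-! Third derivatives are Hölder up to the boundary. -/

set_option maxSynthPendingDepth 3

namespace Pool.Agent.Mink.B

open scoped ContDiff Topology
open Set Filter

variable {n : ℕ} {β t : ℝ} {A : Set (ℝ × Jet n)} {F : ℝ × Jet n → ℝ} {f : E n → J0 n}

/-- the antisymmetric part of a bilinear form at a pair of vectors -/
noncomputable def bc3_alt (w z : E n) : B2 n →L[ℝ] ℝ :=
  (ContinuousLinearMap.apply ℝ ℝ z).comp (ContinuousLinearMap.apply ℝ (B1 n) w) -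
    (ContinuousLinearMap.apply ℝ ℝ w).comp (ContinuousLinearMap.apply ℝ (B1 n) z)

lemma bc3_alt_apply (w z : E n) (m : B2 n) : bc3_alt w z m = m w z - m z w := rfl

lemma bc3_ext {V : Type} [NormedAddCommGroup V] [NormedSpace ℝ V] {P Q : E n →L[ℝ] V}
    (h : ∀ a : Fin n, P (EuclideanSpace.single a 1) = Q (EuclideanSpace.single a 1)) : P = Q := by
  refine ContinuousLinearMap.coe_injective
    ((EuclideanSpace.basisFun (Fin n) ℝ).toBasis.ext fun a => ?_)
  simpa using h a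

lemma bc3_sym {V : Type} [NormedAddCommGroup V] [NormedSpace ℝ V] (m : E n →L[ℝ] E n →L[ℝ] V)
    (h : ∀ a b : Fin n, m (EuclideanSpace.single a 1) (EuclideanSpace.single b 1) =
      m (EuclideanSpace.single b 1) (EuclideanSpace.single a 1)) (v w : E n) :
    m v w = m w v := by
  have e : m = m.flip := bc3_ext fun a => bc3_ext fun b => h a b
  exact DFunLike.congr_fun (DFunLike.congr_fun e v) w

/-- `second_derivative_symmetric_of_eventually` for `p`, and the derivative of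
`y ↦ r y w z - r y z w = 0`. -/
lemma sym3 (hf : IsJet (cB n) f) {x : E n} (hx : x ∈ oB n) {s : B3 n}
    (hs : HasFDerivAt (fun y => (f y).1) s x) : (∀ v w, s v w = s w v) ∧ ∀ v, Sym (s v) := by
  constructor
  · refine second_derivative_symmetric_of_eventually (f := fun y => (f y).2.1) ?_ hs
    filter_upwards [isOpen_oB.mem_nhds hx] with y hy
    exact (hf.2 y (oB_subset hy)).hasFDerivAt (cB_mem_nhds hy)
  · intro v w z
    have h1 := (bc3_alt w z).hasFDerivAt.comp x hs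
    have h2 : HasFDerivAt (bc3_alt w z ∘ fun y => (f y).1) (0 : E n →L[ℝ] ℝ) x := by
      refine (hasFDerivAt_const (0 : ℝ) x).congr_of_eventuallyEq ?_
      filter_upwards [cB_mem_nhds hx] with y hy
      exact sub_eq_zero.2 (hf.sym_cB hy w z)
    exact sub_eq_zero.1 (DFunLike.congr_fun (h1.unique h2) v)

/-- By bilinearity `σ (skew a b x) = 0` for all `a b`; `skew τ x x = ‖x‖² τ` for `τ ⊥ x`. Apply
`tan_zero` to `m = σ x`, `ξ = innerSL ℝ x`. -/
lemma inj3 {l : B2 n →L[ℝ] ℝ} (hl : PosL l) {x : E n} (hx : x ≠ 0) {σ : B3 n}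
    (h12 : ∀ v w, σ v w = σ w v) (h23 : ∀ v, Sym (σ v))
    (hr : ∀ a b : Fin n, σ (skew (EuclideanSpace.single a 1) (EuclideanSpace.single b 1) x) = 0)
    (he : l (σ x) = 0) : σ = 0 := by
  have hxx : inner ℝ x x ≠ 0 := inner_self_ne_zero.2 hx
  have key : ∀ u v, inner ℝ x u • σ v = inner ℝ x v • σ u := by
    refine bc3_sym ((innerSL ℝ x).smulRight σ) fun a b => ?_
    have := hr b a
    rw [skew_apply, map_sub, map_smul, map_smul, sub_eq_zero, real_inner_comm,
      real_inner_comm x] at this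
    exact this
  have h0 : σ x = 0 := by
    refine tan_zero hl (ξ := innerSL ℝ x) (h23 x) (fun h hh => ?_) he
    have h1 := key x h
    rw [show inner ℝ x h = 0 from hh, zero_smul, smul_eq_zero_iff_right hxx] at h1
    rw [h12, h1]
    rfl
  refine ContinuousLinearMap.ext fun v => ?_
  have h1 := key x v
  rw [h0, smul_zero, smul_eq_zero_iff_right hxx] at h1
  exact h1

/-- The differentiated equation. `D x = fderiv ℝ F (t, mkJ (f x) x)` is Hölder (`Hol.comp_on`,
`ContDiffOn.fderiv_of_isOpen`); `l x m = D x (0, m, 0, 0, 0)`,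
`g x v = -D x (0, 0, r x v, p x v, v)`. -/
lemma diff_eq (h0 : 0 < β) (h1 : β < 1) (hF : Fam A F) (ht : t ∈ Icc (0 : ℝ) 1)
    (hs : BSol A F t β f) : ∃ (l : E n → B2 n →L[ℝ] ℝ) (g : E n → E n → ℝ), Hol β l ∧
      (∀ v, Hol β fun x => g x v) ∧ (∀ x ∈ cB n, PosL (l x)) ∧ ∀ x ∈ oB n, ∀ s : B3 n,
        HasFDerivAt (fun y => (f y).1) s x → ∀ v, l x (s v) = g x v := by
  have hr : Hol β fun x => (f x).1 := hs.hol.map (.fst ℝ _ _)
  have hq : Hol β fun x => (f x).2 := hs.hol.map (.snd ℝ _ _)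
  have hp : Hol β fun x => (f x).2.1 := hq.map (.fst ℝ _ _)
  have hu : Hol β fun x => (f x).2.2 := hq.map (.snd ℝ _ _)
  have hJ : Hol β fun x => ((t, mkJ (f x) x) : ℝ × Jet n) :=
    (hol_const t).prod (hr.prod (hp.prod (hu.prod (hol_id h0.le h1.le))))
  have hD : Hol β fun x => fderiv ℝ F (t, mkJ (f x) x) :=
    hJ.comp_on h0 hF.isOpen (hF.smooth.fderiv_of_isOpen hF.isOpen le_rfl) hs.mem
  refine ⟨fun x => (fderiv ℝ F (t, mkJ (f x) x)).comp
      ((ContinuousLinearMap.inr ℝ ℝ (Jet n)).comp (ContinuousLinearMap.inl ℝ (B2 n) _)),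
    fun x v => -fderiv ℝ F (t, mkJ (f x) x) (0, 0, (f x).1 v, (f x).2.1 v, v),
    hol_clm fun m => hD.map (ContinuousLinearMap.apply ℝ ℝ ((0, m, 0) : ℝ × Jet n)),
    fun v => ?_, fun x hx m hm hm0 => ?_, fun x hx s hs' v => ?_⟩
  · have hk : Hol β fun x => ((0, 0, (f x).1 v, (f x).2.1 v, v) : ℝ × Jet n) :=
      (hol_const (0 : ℝ)).prod ((hol_const (0 : B2 n)).prod
        ((hr.map (ContinuousLinearMap.apply ℝ (B1 n) v)).prod
          ((hp.map (ContinuousLinearMap.apply ℝ ℝ v)).prod (hol_const v))))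
    exact (Hol.bil (.id ℝ _) hD hk).map (-ContinuousLinearMap.id ℝ ℝ)
  · exact hF.ell t ht _ _ _ x hx (hs.jet.sym_cB hx) (hs.mem x hx) m hm hm0
  · have hx' := oB_subset hx
    have hN := cB_mem_nhds hx
    have hk : HasFDerivAt (fun y => ((t, mkJ (f y) y) : ℝ × Jet n)) _ x :=
      (hasFDerivAt_const t x).prodMk (hs'.prodMk (((hs.jet.2 x hx').hasFDerivAt hN).prodMk
        (((hs.jet.1 x hx').hasFDerivAt hN).prodMk (hasFDerivAt_id x))))
    have hFd : HasFDerivAt F (fderiv ℝ F (t, mkJ (f x) x)) (t, mkJ (f x) x) :=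
      ((hF.smooth.contDiffAt (hF.isOpen.mem_nhds (hs.mem x hx'))).differentiableAt
        (by simp)).hasFDerivAt
    have h2 := hFd.comp x hk
    have h3 : HasFDerivAt (F ∘ fun y => ((t, mkJ (f y) y) : ℝ × Jet n)) (0 : E n →L[ℝ] ℝ) x := by
      refine (hasFDerivAt_const (0 : ℝ) x).congr_of_eventuallyEq ?_
      filter_upwards [hN] with y hy
      exact hs.eq y hy
    have h4 : fderiv ℝ F (t, mkJ (f x) x) (0, s v, (f x).1 v, (f x).2.1 v, v) = 0 :=
      DFunLike.congr_fun (h2.unique h3) v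
    have e : ((0, s v, (f x).1 v, (f x).2.1 v, v) : ℝ × Jet n) =
        (0, s v, 0) + (0, 0, (f x).1 v, (f x).2.1 v, v) := by simp
    rw [e, map_add] at h4
    exact eq_neg_of_add_eq_zero_left h4

/-- Gluing: if neither both points have norm `≥ 1/4` nor both have norm `≤ 3/4`, they are at
distance at least `1/2`. On `closedBall 0 (3/4)` a `C¹` function is Lipschitz
(`ContDiffOn.exists_lipschitzOnWith`, `norm_sub_le_rpow`). -/
lemma hol_glue {V : Type} [NormedAddCommGroup V] [NormedSpace ℝ V] (h0 : 0 < β) (h1 : β < 1)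
    {s : E n → V} (hi : ContDiffOn ℝ 1 s (oB n)) {C : ℝ}
    (hb : ∀ x ∈ oB n, 1 / 4 ≤ ‖x‖ → ‖s x‖ ≤ C) (ho : HS β C {x ∈ oB n | 1 / 4 ≤ ‖x‖} s) :
    ∃ C', (∀ x ∈ oB n, ‖s x‖ ≤ C') ∧ HS β C' (oB n) s := by
  have hsub : Metric.closedBall (0 : E n) (3 / 4) ⊆ oB n :=
    Metric.closedBall_subset_ball (by norm_num)
  have hK := isCompact_closedBall (0 : E n) (3 / 4)
  obtain ⟨K, hL⟩ := (hi.mono hsub).exists_lipschitzOnWith one_ne_zero (convex_closedBall _ _) hK
  obtain ⟨M, hM⟩ := hK.exists_bound_of_continuousOn (hi.mono hsub).continuousOn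
  have hM0 : 0 ≤ M := (norm_nonneg _).trans (hM 0 (Metric.mem_closedBall_self (by norm_num)))
  have hK0 : (0 : ℝ) ≤ K := K.2
  have hC0 := abs_nonneg C
  have hC1 := le_abs_self C
  have hsup : ∀ x ∈ oB n, ‖s x‖ ≤ M + |C| := by
    intro x hx
    rcases le_total (1 / 4) ‖x‖ with h | h
    · linarith [hb x hx h]
    · linarith [hM x (mem_closedBall_zero_iff.2 (by linarith))]
  refine ⟨2 * K + 8 * (M + |C|), fun x hx => by linarith [hsup x hx], fun x hx y hy => ?_⟩
  have hp : 0 ≤ ‖x - y‖ ^ β := by positivity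
  have hr := norm_sub_le_rpow h0.le h1.le (oB_subset hx) (oB_subset hy)
  by_cases ha : 1 / 4 ≤ ‖x‖ ∧ 1 / 4 ≤ ‖y‖
  · refine (ho x ⟨hx, ha.1⟩ y ⟨hy, ha.2⟩).trans (mul_le_mul_of_nonneg_right ?_ hp)
    linarith
  by_cases hc : ‖x‖ ≤ 3 / 4 ∧ ‖y‖ ≤ 3 / 4
  · have h2 := hL.norm_sub_le (mem_closedBall_zero_iff.2 hc.1) (mem_closedBall_zero_iff.2 hc.2)
    have h3 := mul_le_mul_of_nonneg_left hr hK0
    have h4 : 0 ≤ (M + |C|) * ‖x - y‖ ^ β := by positivity
    nlinarith
  have h2 : 1 / 2 ≤ ‖x - y‖ := by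
    have h3 := norm_sub_norm_le x y
    have h4 := norm_sub_norm_le y x
    rw [norm_sub_rev] at h4
    rw [not_and_or, not_le, not_le] at ha hc
    rcases ha with ha | ha <;> rcases hc with hc | hc <;> linarith
  have h3 : ‖s x - s y‖ ≤ 2 * (M + |C|) := by
    linarith [norm_sub_le (s x) (s y), hsup x hx, hsup y hy]
  have h4 : 1 / 4 ≤ ‖x - y‖ ^ β := by linarith
  have h5 := mul_le_mul_of_nonneg_left h4 (add_nonneg hM0 hC0)
  have h6 : 0 ≤ K * ‖x - y‖ ^ β := by positivity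
  nlinarith

/-- `Der.tay1` on the open ball, passage to the closure by continuity, `der_of_tay`; or
`hasFDerivWithinAt_closure_of_tendsto_fderiv`. -/
lemma der_closure {V : Type} [NormedAddCommGroup V] [NormedSpace ℝ V] {a : E n → V}
    {a' : E n → E n →L[ℝ] V} (ha : ContinuousOn a (cB n)) (ha' : ContinuousOn a' (cB n))
    (h : ∀ x ∈ oB n, HasFDerivAt a (a' x) x) : Der (cB n) a a' := by
  intro x hx
  rw [← closure_oB]
  refine hasFDerivWithinAt_closure_of_tendsto_fderiv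
    (fun y hy => (h y hy).differentiableAt.differentiableWithinAt) (convex_ball _ _) isOpen_oB
    (fun y hy => (ha y (closure_oB (n := n) ▸ hy)).mono oB_subset) ?_
  refine (((ha' x hx).mono oB_subset).tendsto).congr' ?_
  filter_upwards [self_mem_nhdsWithin] with y hy
  exact (h y hy).fderiv.symm

/-- the linear system satisfied by the third derivative -/
noncomputable def bc3_M (l : B2 n →L[ℝ] ℝ) (a b x : E n) : B3 n →L[ℝ] B1 n × B1 n × B2 n × ℝ :=
  LinearMap.toContinuousLinearMap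
    { toFun := fun σ => (σ a b - σ b a, (bc3_alt a b).comp σ, σ (skew a b x), l (σ a))
      map_add' := fun σ τ => by
        simp only [add_apply, ContinuousLinearMap.comp_add, map_add,
          Prod.mk_add_mk, add_sub_add_comm]
      map_smul' := fun c σ => by
        simp only [smul_apply, ContinuousLinearMap.comp_smul, map_smul,
          Prod.smul_mk, smul_sub, RingHom.id_apply] }

lemma bc3_M_apply (l : B2 n →L[ℝ] ℝ) (a b x : E n) (σ : B3 n) :
    bc3_M l a b x σ = (σ a b - σ b a, (bc3_alt a b).comp σ, σ (skew a b x), l (σ a)) := rfl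

/-- `s = fderiv ℝ r` on the open ball is `C¹` (`int_reg` with `m = 2`). Apply `hol_solve` on
`K = {x ∈ cB n | 1/4 ≤ ‖x‖}` with index set `Fin n × Fin n × Fin n` and
`M (a, b, c) x σ = (σ a b c - σ b a c, σ a b c - σ a c b, σ (skew a b x), l x (σ a))`
(`hol_clm`, `inj3`, `sym3`, `rot_reg`, `diff_eq`); then `hol_glue`, `hol_extend`, `der_closure`. -/
theorem c3 (hn : 0 < n) (h0 : 0 < β) (h1 : β < 1) (hF : Fam A F) (ht : t ∈ Icc (0 : ℝ) 1)
    (hs : BSol A F t β f) {φ : E n → ℝ} (hφ : ContDiff ℝ 4 φ) (hb : ∀ x ∈ sB n, (f x).2.2 = φ x) :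
    ∃ s : E n → B3 n, Hol β s ∧ Der (cB n) (fun x => (f x).1) s := by
  have hr2 : ContDiffOn ℝ (2 : ℕ) (fun y => (f y).1) (oB n) := (int_reg hn h0 h1 hF ht hs 2).fst
  have hs1 : ContDiffOn ℝ 1 (fderiv ℝ fun y => (f y).1) (oB n) :=
    hr2.fderiv_of_isOpen isOpen_oB (by norm_num)
  have hd : ∀ x ∈ oB n, HasFDerivAt (fun y => (f y).1) (fderiv ℝ (fun y => (f y).1) x) x :=
    fun x hx => ((hr2.contDiffAt (isOpen_oB.mem_nhds hx)).differentiableAt (by simp)).hasFDerivAt
  obtain ⟨l, g, hl, hg, hpos, heq⟩ := diff_eq h0 h1 hF ht hs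
  have hskew : ∀ a b x : E n, inner ℝ (skew a b x) x = 0 := by
    intro a b x
    rw [skew_apply, inner_sub_left, real_inner_smul_left, real_inner_smul_left]
    ring
  choose T hT hTe using fun i : Fin n × Fin n => rot_reg hn h0 h1 hF ht hs hφ hb
    (hskew (EuclideanSpace.single i.1 1) (EuclideanSpace.single i.2 1))
  have hK : IsCompact {x ∈ cB n | 1 / 4 ≤ ‖x‖} :=
    isCompact_cB.inter_right (isClosed_le continuous_const continuous_norm)
  obtain ⟨C, hC1, hC2⟩ := hol_solve (D := {x ∈ oB n | 1 / 4 ≤ ‖x‖}) h0 hK (fun x hx => hx.1)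
    (fun x hx => ⟨oB_subset hx.1, hx.2⟩)
    (M := fun (i : Fin n × Fin n) x =>
      bc3_M (l x) (EuclideanSpace.single i.1 1) (EuclideanSpace.single i.2 1) x)
    (fun i => hol_clm fun σ => (hol_const _).prod ((hol_const _).prod
      (((hol_id h0.le h1.le).map (σ.comp (skew _ _))).prod
        (hl.map (ContinuousLinearMap.apply ℝ ℝ (σ (EuclideanSpace.single i.1 1)))))))
    (fun x hx σ hσ => by
      have hx0 : x ≠ 0 := by
        rintro rfl
        have := hx.2
        rw [norm_zero] at this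
        norm_num at this
      refine inj3 (hpos x hx.1) hx0
        (bc3_sym σ fun a b => sub_eq_zero.1 (congrArg Prod.fst (hσ (a, b))))
        (fun v => bc3_sym (σ v) fun a b =>
          sub_eq_zero.1 (DFunLike.congr_fun (congrArg (fun z => z.2.1) (hσ (a, b))) v))
        (fun a b => congrArg (fun z => z.2.2.1) (hσ (a, b))) ?_
      have e : (l x).comp σ = 0 := bc3_ext fun a => congrArg (fun z => z.2.2.2) (hσ (a, a))
      exact DFunLike.congr_fun e x)
    (g := fun i x => (0, 0, T i x, g x (EuclideanSpace.single i.1 1)))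
    (fun i => (hol_const _).prod ((hol_const _).prod ((hT i).prod (hg _))))
    (s := fderiv ℝ fun y => (f y).1) (fun x hx i => by
      obtain ⟨h12, h23⟩ := sym3 hs.jet hx.1 (hd x hx.1)
      rw [bc3_M_apply, hTe i x hx.1, heq x hx.1 _ (hd x hx.1), h12, sub_self]
      refine Prod.ext rfl (Prod.ext (ContinuousLinearMap.ext fun v => ?_) rfl)
      exact sub_eq_zero.2 (h23 v _ _))
  obtain ⟨C', hC3, hC4⟩ := hol_glue h0 h1 hs1 (fun x hx h => hC1 x ⟨hx, h⟩) hC2
  obtain ⟨s', hs', he⟩ := hol_extend h0 hC3 hC4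
  refine ⟨s', ⟨C', hs'⟩, der_closure ((hs.hol.map (.fst ℝ _ _)).continuousOn h0)
    (hs'.2.continuousOn h0) fun x hx => ?_⟩
  rw [he x hx]
  exact hd x hx

end Pool.Agent.Mink.B
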