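import Pool.Agent.Lib.MP_88c759_an.Mink.BPT

/-! Changes of variables depending on a parameter; interior and tangential regularity. -/

set_option maxSynthPendingDepth 3

namespace Pool.Agent.Mink.B

open scoped ContDiff Topology
open Set Filter

variable {n : ℕ} {β t : ℝ} {A : Set (ℝ × Jet n)} {F : ℝ × Jet n → ℝ} {f : E n → J0 n}

/-- chain rule: the derivative is `k ↦ fderiv ℝ F _ (0, k.1, k.2.1, k.2.2, 0)` -/
lemma posJ_of_fam (hF : Fam A F) (ht : t ∈ Icc (0 : ℝ) 1) {x : E n} (hx : x ∈ cB n) {j : J0 n}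
    (hj : Sym j.1) (hA : (t, mkJ j x) ∈ A) : PosJ (fderiv ℝ (fun k => F (t, mkJ k x)) j) := by
  let L : J0 n →L[ℝ] ℝ × Jet n := (0 : J0 n →L[ℝ] ℝ).prod ((ContinuousLinearMap.fst ℝ _ _).prod
    (((ContinuousLinearMap.fst ℝ _ _).comp (.snd ℝ _ _)).prod
      (((ContinuousLinearMap.snd ℝ _ _).comp (.snd ℝ _ _)).prod 0)))
  have e : (fun k : J0 n => ((t, mkJ k x) : ℝ × Jet n)) = fun k => (t, 0, 0, 0, x) + L k :=
    funext fun k => by simp [L, mkJ]
  have h1 : HasFDerivAt (fun k : J0 n => ((t, mkJ k x) : ℝ × Jet n)) L j := by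
    rw [e]
    exact L.hasFDerivAt.const_add _
  have h2 : DifferentiableAt ℝ F (t, mkJ j x) :=
    (hF.smooth.contDiffAt (hF.isOpen.mem_nhds hA)).differentiableAt (by simp)
  have h3 : fderiv ℝ (fun k => F (t, mkJ k x)) j = _ := (h2.hasFDerivAt.comp j h1).fderiv
  rw [h3]
  exact ⟨fun m hm hm0 => hF.ell t ht _ _ _ x hx hj hA m hm hm0, hF.mono t ht _ _ _ x hx hj hA⟩

/-- `HasFDerivWithinAt.comp`, `HasFDerivWithinAt.clm_comp` -/
lemma isJet_pull {φ : E n → E n} (hφ : ContDiff ℝ 2 φ) {S T : Set (E n)} (hS : MapsTo φ S T)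
    (hf : IsJet T f) : IsJet S (pull φ f) := by
  have d1 : ∀ x, HasFDerivWithinAt φ (fderiv ℝ φ x) S x := fun x =>
    (hφ.differentiable (by norm_num) x).hasFDerivAt.hasFDerivWithinAt
  have d2 : ∀ x, HasFDerivWithinAt (fderiv ℝ φ) (fderiv ℝ (fderiv ℝ φ) x) S x := fun x =>
    ((hφ.fderiv_right (m := 1) (by norm_num)).differentiable
      (by norm_num) x).hasFDerivAt.hasFDerivWithinAt
  refine ⟨fun x hx => (hf.1 _ (hS hx)).comp x (d1 x) hS, fun x hx => ?_⟩
  refine (((hf.2 _ (hS hx)).comp x (d1 x) hS).clm_comp (d2 x)).congr_fderiv ?_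
  rw [add_comm]
  rfl

/-- `contDiff_clm_apply_iff` down to scalars -/
lemma contDiff_pullL : ContDiff ℝ ∞
    fun z : (E n →L[ℝ] E n) × (E n →L[ℝ] E n →L[ℝ] E n) => pullL z.1 z.2 := by
  refine contDiff_clm_apply_iff.2 fun j => ?_
  simp only [pullL_apply]
  refine ContDiff.prodMk ?_ (ContDiff.prodMk (contDiff_const.clm_comp contDiff_fst) contDiff_const)
  refine contDiff_clm_apply_iff.2 fun v => contDiff_clm_apply_iff.2 fun w => ?_
  exact ((contDiff_const.clm_apply (contDiff_fst.clm_apply contDiff_const)).clm_apply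
    (contDiff_fst.clm_apply contDiff_const)).add
    (contDiff_const.clm_apply ((contDiff_snd.clm_apply contDiff_const).clm_apply contDiff_const))

lemma bcv_fd {P V W : Type} [NormedAddCommGroup P] [NormedSpace ℝ P] [NormedAddCommGroup V]
    [NormedSpace ℝ V] [NormedAddCommGroup W] [NormedSpace ℝ W] {Ψ : P × V → W}
    (hΨ : ContDiff ℝ ∞ Ψ) : ContDiff ℝ ∞ fun z : P × V => fderiv ℝ (fun y => Ψ (z.1, y)) z.2 :=
  ContDiff.fderiv (f := fun (z : P × V) y => Ψ (z.1, y))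
    (hΨ.comp (contDiff_fst.fst.prodMk contDiff_snd)) contDiff_snd (by norm_cast)

/-- Let `M (h, x) = pullL (D Φ_h x) (D² Φ_h x)`, smooth (`ContDiff.fderiv`), `M (0, x) = id`. Apply
`pt` to `G (h, j, x) = F (t, mkJ ((M (h, x)).inverse j) (Φ (h, x)))` on the open set where
`M (h, x)` is invertible (`ContinuousLinearEquiv.isOpen`, `contDiffAt_map_inverse`) and the
argument lies in `A`. The jet field `pull Φ_h f` solves it, and is uniformly close to `f` by
`IsCompact.eventually_forall_of_forall_eventually` (replace `f` by the continuous `H.mk f _`). -/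
theorem cv (hn : 0 < n) (h0 : 0 < β) (h1 : β < 1) (hF : Fam A F) (ht : t ∈ Icc (0 : ℝ) 1)
    (hs : BSol A F t β f) {P : Type} [NormedAddCommGroup P] [NormedSpace ℝ P]
    [FiniteDimensional ℝ P] {Φ : P × E n → E n} (hΦ : ContDiff ℝ ∞ Φ) (hΦ0 : ∀ x, Φ (0, x) = x)
    (hΦB : ∀ᶠ h in 𝓝 (0 : P), MapsTo (fun x => Φ (h, x)) (cB n) (cB n)) {J : P → H n β (J0 n)}
    {m : ℕ} (hm : m ≠ 0) (hJ : ContDiffAt ℝ m J 0) (hJ0 : ∀ x ∈ cB n, J 0 x = f x)
    (hJj : ∀ᶠ h in 𝓝 (0 : P), IsJet (cB n) (J h) ∧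
      ∀ x ∈ sB n, (J h x).2.2 = (f (Φ (h, x))).2.2) :
    ∃ W : P → H n β (J0 n), ContDiffAt ℝ m W 0 ∧
      ∀ᶠ h in 𝓝 (0 : P), ∀ x ∈ cB n, W h x = pull (fun y => Φ (h, y)) f x := by
  let M : P × E n → J0 n →L[ℝ] J0 n := fun z => pullL (fderiv ℝ (fun y => Φ (z.1, y)) z.2)
    (fderiv ℝ (fderiv ℝ fun y => Φ (z.1, y)) z.2)
  have hM : ContDiff ℝ ∞ M := by
    have a1 := bcv_fd hΦ
    have a2 := bcv_fd a1
    have a3 := (contDiff_pullL (n := n)).comp (a1.prodMk a2)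
    exact a3
  have hM0 : ∀ x, M (0, x) = .id ℝ (J0 n) := fun x => by
    have e : (fun y => Φ (0, y)) = id := funext hΦ0
    have e' : fderiv ℝ (id : E n → E n) = fun _ => .id ℝ (E n) := funext fun _ => fderiv_id
    simp only [M, e, e', fderiv_fun_const, Pi.zero_apply, pullL_id]
  have hπ : ContDiff ℝ ∞ fun z : P × J0 n × E n => (z.1, z.2.2) :=
    contDiff_fst.prodMk contDiff_snd.snd
  have hI : IsOpen {z : P × E n | (M z).IsInvertible} :=
    ContinuousLinearEquiv.isOpen.preimage hM.continuous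
  let g : P × J0 n × E n → ℝ × Jet n := fun z =>
    (t, mkJ ((M (z.1, z.2.2)).inverse z.2.1) (Φ (z.1, z.2.2)))
  have hg : ContDiffOn ℝ ∞ g {z | (M (z.1, z.2.2)).IsInvertible} := fun z hz => by
    have a1 := (ContinuousLinearMap.IsInvertible.contDiffAt_map_inverse (n := ∞) hz).comp z
      (hM.comp hπ).contDiffAt
    have h2 : ContDiffAt ℝ ∞ (fun z : P × J0 n × E n => (M (z.1, z.2.2)).inverse z.2.1) z :=
      a1.clm_apply contDiffAt_snd.fst
    exact (contDiffAt_const.prodMk (h2.fst.prodMk (h2.snd.fst.prodMk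
      (h2.snd.snd.prodMk (hΦ.comp hπ).contDiffAt)))).contDiffWithinAt
  have hg0 : ∀ j x, g (0, j, x) = (t, mkJ j x) := fun j x => by
    simp only [g, hM0, hΦ0, ContinuousLinearMap.inverse_id, ContinuousLinearMap.id_apply]
  have hid : ∀ x, (M (0, x)).IsInvertible := fun x =>
    ⟨ContinuousLinearEquiv.refl ℝ _, (hM0 x).symm⟩
  obtain ⟨W, hW, -, δ, hδ, hu⟩ := pt hn h0 h1
    (hg.continuousOn.isOpen_inter_preimage (hI.preimage hπ.continuous) hF.isOpen)
    (G := fun z => F (g z)) (hF.smooth.comp (hg.mono inter_subset_left) fun z hz => hz.2) hm hJ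
    (hJj.mono fun h hh => hh.1)
    (fun x hx => ⟨hid x, by rw [mem_preimage, hg0, hJ0 x hx]; exact hs.mem x hx⟩)
    (fun x hx => by rw [hg0, hJ0 x hx]; exact hs.eq x hx)
    (fun x hx => by
      simp only [hg0, hJ0 x hx]
      exact posJ_of_fam hF ht hx (hs.jet.sym_cB hx) (hs.mem x hx))
  have hc := (H.mk f hs.hol).continuous h0
  have hnear : ∀ᶠ h in 𝓝 (0 : P), ∀ x ∈ cB n, (M (h, x)).IsInvertible ∧
      ‖M (h, x) (H.mk f hs.hol (Φ (h, x))) - H.mk f hs.hol x‖ < δ := by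
    refine isCompact_cB.eventually_forall_of_forall_eventually fun x _ => ?_
    have h2 : Continuous fun z : P × E n => ‖M z (H.mk f hs.hol (Φ z)) - H.mk f hs.hol z.2‖ :=
      ((hM.continuous.clm_apply (hc.comp hΦ.continuous)).sub (hc.comp continuous_snd)).norm
    refine (hI.eventually_mem (hid x)).and (h2.continuousAt.eventually (gt_mem_nhds ?_))
    simpa only [hM0, hΦ0, ContinuousLinearMap.id_apply, sub_self, norm_zero] using hδ
  refine ⟨W, hW, ?_⟩
  filter_upwards [hu, hΦB, hJj, hnear] with h hu hB hj hnear x hx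
  have hφ : ContDiff ℝ 2 fun y => Φ (h, y) :=
    (hΦ.of_le (by norm_cast)).comp (contDiff_const.prodMk contDiff_id)
  refine (hu _ (isJet_pull hφ hB hs.jet) (fun y hy => (hj.2 y hy).symm) (fun y hy => ?_) x hx).symm
  obtain ⟨h2, h3⟩ := hnear y hy
  rw [H.mk_apply _ (hB hy), H.mk_apply _ hy, ← hJ0 y hy] at h3
  refine ⟨h3.le, ?_⟩
  change F (t, mkJ ((M (h, y)).inverse (M (h, y) (f (Φ (h, y))))) (Φ (h, y))) = 0
  rw [h2.inverse_apply_self]
  exact hs.eq _ (hB hy)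

end Pool.Agent.Mink.B
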