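import Pool.Agent.Lib.MP_88c759_an.Mink.BNem

/-! Smooth cutoffs; Hölder solutions of injective linear systems; extension to the closed ball. -/

set_option maxSynthPendingDepth 3

namespace Pool.Agent.Mink.B

open scoped ContDiff Topology
open Set Filter

variable {n : ℕ} {β : ℝ} {V W : Type} [NormedAddCommGroup V] [NormedSpace ℝ V]
  [FiniteDimensional ℝ V] [NormedAddCommGroup W] [NormedSpace ℝ W]

/-- `IsCompact.exists_cthickening_subset_open`; a smooth `χ : V → ℝ` equal to `1` on the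
`δ`-thickening of `C` with `tsupport χ ⊆ U` (for example from
`exists_contMDiffMap_zero_one_of_isClosed` or `exists_contMDiff_support_eq_eq_one_iff`);
`G' z = χ z • G z` (`contDiff_of_tsupport` or pointwise: near a point outside `tsupport χ` it is zero). -/
lemma exists_cutoff {U : Set V} (hU : IsOpen U) {G : V → W} (hG : ContDiffOn ℝ ∞ G U) {C : Set V}
    (hC : IsCompact C) (hCU : C ⊆ U) :
    ∃ (G' : V → W) (δ : ℝ), ContDiff ℝ ∞ G' ∧ 0 < δ ∧
      ∀ c ∈ C, ∀ z, ‖z - c‖ < δ → z ∈ U ∧ G' =ᶠ[𝓝 z] G := by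
  obtain ⟨δ, hδ, hsub⟩ := hC.exists_cthickening_subset_open hU hCU
  have := FiniteDimensional.proper_real V
  obtain ⟨f, h0, h1, -⟩ := exists_contMDiffMap_zero_one_nhds_of_isClosed (modelWithCornersSelf ℝ V)
    (n := ⊤) hU.isClosed_compl (Metric.isClosed_cthickening (δ := δ) (E := C))
    (disjoint_left.2 fun x hx hx' => hx (hsub hx'))
  have hf : ContDiff ℝ ∞ f := f.contMDiff.contDiff
  refine ⟨fun z => f z • G z, δ, contDiff_iff_contDiffAt.2 fun z => ?_, hδ, fun c hc z hz => ?_⟩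
  · by_cases hz : z ∈ U
    · exact hf.contDiffAt.smul (hG.contDiffAt (hU.mem_nhds hz))
    · have h2 : ∀ᶠ x in 𝓝 z, f x = 0 := h0.filter_mono (nhds_le_nhdsSet hz)
      refine (contDiffAt_const (c := (0 : W))).congr_of_eventuallyEq ?_
      filter_upwards [h2] with x hx
      rw [hx, zero_smul]
  · have hz' : z ∈ Metric.cthickening δ C :=
      Metric.mem_cthickening_of_dist_le z c δ C hc (by rw [dist_eq_norm]; exact hz.le)
    refine ⟨hsub hz', ?_⟩
    filter_upwards [h1.filter_mono (nhds_le_nhdsSet hz')] with x hx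
    rw [hx, one_smul]

/-- `exists_cutoff` with `C = f '' cB n`, then `Hol.comp` and `Hol.congr`. -/
lemma Hol.comp_on (hβ : 0 < β) {U : Set V} (hU : IsOpen U) {G : V → W} (hG : ContDiffOn ℝ ∞ G U)
    {f : E n → V} (hf : Hol β f) (hfU : ∀ x ∈ cB n, f x ∈ U) : Hol β fun x => G (f x) := by
  obtain ⟨G', δ, hG', hδ, h⟩ := exists_cutoff hU hG
    (isCompact_cB.image_of_continuousOn (hf.continuousOn hβ))
    (by rintro _ ⟨x, hx, rfl⟩; exact hfU x hx)
  refine (hf.comp (hG'.of_le (by norm_cast))).congr fun x hx => ?_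
  exact ((h (f x) ⟨x, hx, rfl⟩ (f x) (by simpa using hδ)).2.self_of_nhds).symm

/-- `Module.Basis.exists_opNorm_le` -/
lemma hol_clm {M : E n → V →L[ℝ] W} (hM : ∀ v, Hol β fun x => M x v) : Hol β M := by
  obtain ⟨C, hC, h⟩ := (Module.finBasis ℝ V).exists_opNorm_le (F := W)
  choose D hD using fun i => hM (Module.finBasis ℝ V i)
  have hD0 : ∀ i, 0 ≤ D i := fun i => (hD i).nonneg
  have hS : 0 ≤ ∑ i, D i := Finset.sum_nonneg fun i _ => hD0 i
  have hle : ∀ i, D i ≤ ∑ j, D j := fun i =>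
    Finset.single_le_sum (fun j _ => hD0 j) (Finset.mem_univ i)
  refine ⟨C * ∑ i, D i, fun x hx => h hS fun i => ((hD i).1 x hx).trans (hle i),
    fun x hx y hy => ?_⟩
  rw [mul_assoc]
  refine h (by positivity) fun i => ?_
  exact ((hD i).2.mono (hle i)) x hx y hy

/-- By compactness of `K × sphere` there is `c > 0` with `c ‖v‖ ≤ ∑ i, ‖M i x v‖` for `x ∈ K`
(`IsCompact.exists_forall_le'`). So `s` is bounded on `D`, and
`M i x (s x - s y) = g i x - g i y - (M i x - M i y) (s y)`. -/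
lemma hol_solve (hβ : 0 < β) {ι : Type} [Finite ι] {K D : Set (E n)} (hK : IsCompact K)
    (hKB : K ⊆ cB n) (hD : D ⊆ K) {M : ι → E n → V →L[ℝ] W} (hM : ∀ i, Hol β (M i))
    (hinj : ∀ x ∈ K, ∀ v, (∀ i, M i x v = 0) → v = 0) {g : ι → E n → W} (hg : ∀ i, Hol β (g i))
    {s : E n → V} (hs : ∀ x ∈ D, ∀ i, M i x (s x) = g i x) :
    ∃ C, (∀ x ∈ D, ‖s x‖ ≤ C) ∧ HS β C D s := by
  have := Fintype.ofFinite ι
  have := FiniteDimensional.proper_real V
  choose CM hCM using hM
  choose Cg hCg using hg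
  have hcont : ContinuousOn (fun q : E n × V => ∑ i, ‖M i q.1 q.2‖)
      (K ×ˢ Metric.sphere (0 : V) 1) := by
    refine continuousOn_finsetSum _ fun i _ => ContinuousOn.norm ?_
    refine ContinuousOn.clm_apply ?_ continuousOn_snd
    exact ((hCM i).2.continuousOn hβ).comp continuousOn_fst fun q hq => hKB hq.1
  obtain ⟨c, hc, hcK⟩ := (hK.prod (isCompact_sphere (0 : V) 1)).exists_forall_le' (a := 0) hcont
    (fun q hq => by
      refine (Finset.sum_nonneg fun i _ => norm_nonneg _).lt_of_ne' fun h => ?_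
      have h1 := (Finset.sum_eq_zero_iff_of_nonneg fun i _ => norm_nonneg _).1 h
      have h2 := hinj q.1 hq.1 q.2 fun i => norm_eq_zero.1 (h1 i (Finset.mem_univ i))
      have h3 : ‖q.2‖ = 1 := mem_sphere_zero_iff_norm.1 hq.2
      rw [h2, norm_zero] at h3
      exact zero_ne_one h3)
  have hlow : ∀ x ∈ K, ∀ v : V, c * ‖v‖ ≤ ∑ i, ‖M i x v‖ := by
    intro x hx v
    rcases eq_or_ne v 0 with h | h
    · rw [h, norm_zero, mul_zero]; exact Finset.sum_nonneg fun i _ => norm_nonneg _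
    · have hp : 0 < ‖v‖ := norm_pos_iff.2 h
      have h1 : ‖‖v‖⁻¹ • v‖ = 1 := by
        rw [norm_smul, norm_inv, norm_norm, inv_mul_cancel₀ hp.ne']
      have h2 : c ≤ ∑ i, ‖M i x (‖v‖⁻¹ • v)‖ :=
        hcK (x, ‖v‖⁻¹ • v) ⟨hx, mem_sphere_zero_iff_norm.2 h1⟩
      simp only [map_smul, norm_smul, norm_inv, norm_norm] at h2
      rw [← Finset.mul_sum, ← div_eq_inv_mul, le_div_iff₀ hp] at h2
      exact h2
  have hb : ∀ x ∈ D, ‖s x‖ ≤ (∑ i, Cg i) / c := by
    intro x hx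
    rw [le_div_iff₀ hc, mul_comm]
    refine (hlow x (hD hx) _).trans (Finset.sum_le_sum fun i _ => ?_)
    rw [hs x hx i]
    exact (hCg i).1 x (hKB (hD hx))
  refine ⟨max ((∑ i, Cg i) / c) ((∑ i, (Cg i + CM i * ((∑ i, Cg i) / c))) / c),
    fun x hx => (hb x hx).trans (le_max_left _ _), HS.mono ?_ (le_max_right _ _)⟩
  intro x hx y hy
  rw [div_mul_eq_mul_div, le_div_iff₀ hc, mul_comm, Finset.sum_mul]
  refine (hlow x (hD hx) _).trans (Finset.sum_le_sum fun i _ => ?_)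
  have e : M i x (s x - s y) = (g i x - g i y) - (M i x - M i y) (s y) := by
    rw [map_sub, sub_apply, hs x hx i, hs y hy i]; abel
  have hxB := hKB (hD hx)
  have hyB := hKB (hD hy)
  have h1 := (hCg i).2 x hxB y hyB
  have h2 : ‖(M i x - M i y) (s y)‖ ≤ CM i * ‖x - y‖ ^ β * ((∑ i, Cg i) / c) :=
    ((M i x - M i y).le_opNorm _).trans (mul_le_mul ((hCM i).2 x hxB y hyB) (hb y hy)
      (norm_nonneg _) (mul_nonneg (hCM i).nonneg (by positivity)))
  rw [e]
  refine (norm_sub_le _ _).trans ?_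
  linarith

/-- Extension of a Hölder function from the open ball to the closed ball. For `x ∈ cB n` take an
ultrafilter below `𝓝[oB n] x` (or use Cauchy filters); `s' x` is the limit of `s` along
`𝓝[oB n] x`. -/
lemma hol_extend (hβ : 0 < β) {s : E n → V} {C : ℝ} (hb : ∀ x ∈ oB n, ‖s x‖ ≤ C)
    (hs : HS β C (oB n) s) : ∃ s' : E n → V, HolC β C s' ∧ ∀ x ∈ oB n, s' x = s x := by
  have hex : ∀ x : E n, ∃ v : V, x ∈ cB n → ∃ u : Filter (E n), u.NeBot ∧ u ≤ 𝓝[oB n] x ∧
      Tendsto s u (𝓝 v) := by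
    intro x
    by_cases hx : x ∈ cB n
    · have hne : (𝓝[oB n] x).NeBot := mem_closure_iff_nhdsWithin_neBot.1 (closure_oB ▸ hx)
      have hle : (Ultrafilter.of (𝓝[oB n] x) : Filter (E n)) ≤ 𝓝[oB n] x := Ultrafilter.of_le _
      obtain ⟨v, hv⟩ := ulim (Ultrafilter.of (𝓝[oB n] x)) (g := s) (C := C)
        ((eventually_mem_nhdsWithin.mono fun y hy => hb y hy).filter_mono hle)
      exact ⟨v, fun _ => ⟨_, inferInstance, hle, hv⟩⟩
    · exact ⟨0, fun h => absurd h hx⟩
  choose s' hs' using hex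
  have hrp : ∀ y : E n, Continuous fun x : E n => C * ‖x - y‖ ^ β := fun y =>
    continuous_const.mul ((continuous_id.sub continuous_const).norm.rpow_const fun _ => Or.inr hβ.le)
  have key : ∀ x ∈ cB n, ∀ (y : E n) (w : V), (∀ a ∈ oB n, ‖s a - w‖ ≤ C * ‖a - y‖ ^ β) →
      ‖s' x - w‖ ≤ C * ‖x - y‖ ^ β := by
    intro x hx y w h
    obtain ⟨u, hu, hle, ht⟩ := hs' x hx
    refine le_of_tendsto_of_tendsto (b := u) (ht.sub_const w).norm
      (((hrp y).tendsto x).mono_left (hle.trans nhdsWithin_le_nhds)) ?_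
    exact (eventually_mem_nhdsWithin.mono fun a ha => h a ha).filter_mono hle
  refine ⟨s', ⟨fun x hx => ?_, fun x hx y hy => ?_⟩, fun x hx => ?_⟩
  · obtain ⟨u, hu, hle, ht⟩ := hs' x hx
    exact le_of_tendsto ht.norm ((eventually_mem_nhdsWithin.mono fun a ha => hb a ha).filter_mono hle)
  · refine key x hx y _ fun a ha => ?_
    rw [norm_sub_rev, norm_sub_rev a]
    exact key y hy a _ fun b hb' => hs b hb' a ha
  · have h := key x (oB_subset hx) x (s x) fun a ha => hs a ha x hx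
    rw [sub_self, norm_zero, Real.zero_rpow hβ.ne', mul_zero] at h
    exact sub_eq_zero.1 (norm_le_zero_iff.1 h)

end Pool.Agent.Mink.B
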