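import Pool.Agent.Lib.MP_88c759_an.Mink.BH

/-! Definitions for the continuity method. -/

set_option maxSynthPendingDepth 3

namespace Pool.Agent.Mink.B

open scoped ContDiff Topology
open Set Filter

/-- second derivative, first derivative, value -/
abbrev J0 (n : ℕ) : Type := B2 n × B1 n × ℝ

noncomputable instance instJ0a (n : ℕ) : NormedAddCommGroup (J0 n) := inferInstance
noncomputable instance instJ0b (n : ℕ) : NormedSpace ℝ (J0 n) := inferInstance
instance instB1f (n : ℕ) : FiniteDimensional ℝ (B1 n) := inferInstance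
instance instB2f (n : ℕ) : FiniteDimensional ℝ (B2 n) := inferInstance
instance instB3f (n : ℕ) : FiniteDimensional ℝ (B3 n) := inferInstance
instance instJ0f (n : ℕ) : FiniteDimensional ℝ (J0 n) := inferInstance
instance instJf (n : ℕ) : FiniteDimensional ℝ (Jet n) := inferInstance
instance instJ0c (n : ℕ) : CompleteSpace (J0 n) := inferInstance

variable {n : ℕ} {β : ℝ} {V : Type} [NormedAddCommGroup V] [NormedSpace ℝ V]

/-- `g'` is a derivative of `g` within `S` -/
def Der (S : Set (E n)) (g : E n → V) (g' : E n → E n →L[ℝ] V) : Prop :=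
  ∀ x ∈ S, HasFDerivWithinAt g (g' x) S x

/-- `f = (r, p, u)` with `p = Du`, `r = Dp` within `S` -/
def IsJet (S : Set (E n)) (f : E n → J0 n) : Prop :=
  Der S (fun x => (f x).2.2) (fun x => (f x).2.1) ∧ Der S (fun x => (f x).2.1) fun x => (f x).1

/-- zero boundary values -/
def Bd (f : E n → J0 n) : Prop := ∀ x ∈ sB n, (f x).2.2 = 0

/-- the Taylor inequalities of a jet field with Hölder second derivative -/
def Tay (β C : ℝ) (S : Set (E n)) (f : E n → J0 n) : Prop :=
  ∀ x ∈ S, ∀ y ∈ S, ‖(f y).1 - (f x).1‖ ≤ C * ‖y - x‖ ^ β ∧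
    ‖(f y).2.1 - (f x).2.1 - (f x).1 (y - x)‖ ≤ C * ‖y - x‖ ^ (1 + β) ∧
    ‖(f y).2.2 - (f x).2.2 - (f x).2.1 (y - x)‖ ≤ (‖(f x).1‖ + C * ‖y - x‖ ^ β) * ‖y - x‖ ^ 2

variable {S : Set (E n)} {f g : E n → J0 n}

lemma Der.congr {a b : E n → V} {a' b' : E n → E n →L[ℝ] V} (h : Der S a a')
    (e : ∀ x ∈ S, b x = a x) (e' : ∀ x ∈ S, b' x = a' x) : Der S b b' := fun x hx => by
  rw [e' x hx]; exact (h x hx).congr e (e x hx)

lemma Der.mono {a : E n → V} {a' : E n → E n →L[ℝ] V} (h : Der S a a') {T : Set (E n)}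
    (hT : T ⊆ S) : Der T a a' := fun x hx => (h x (hT hx)).mono hT

lemma Der.continuousOn {a : E n → V} {a' : E n → E n →L[ℝ] V} (h : Der S a a') :
    ContinuousOn a S := fun x hx => (h x hx).continuousWithinAt

lemma IsJet.congr (h : IsJet S f) (e : ∀ x ∈ S, g x = f x) : IsJet S g :=
  ⟨h.1.congr (fun x hx => by rw [e x hx]) fun x hx => by rw [e x hx],
    h.2.congr (fun x hx => by rw [e x hx]) fun x hx => by rw [e x hx]⟩

lemma IsJet.mono (h : IsJet S f) {T : Set (E n)} (hT : T ⊆ S) : IsJet T f :=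
  ⟨h.1.mono hT, h.2.mono hT⟩

lemma IsJet.add (hf : IsJet S f) (hg : IsJet S g) : IsJet S fun x => f x + g x :=
  ⟨fun x hx => (hf.1 x hx).add (hg.1 x hx), fun x hx => (hf.2 x hx).add (hg.2 x hx)⟩

lemma IsJet.sub (hf : IsJet S f) (hg : IsJet S g) : IsJet S fun x => f x - g x :=
  ⟨fun x hx => (hf.1 x hx).sub (hg.1 x hx), fun x hx => (hf.2 x hx).sub (hg.2 x hx)⟩

lemma IsJet.smul (hf : IsJet S f) (c : ℝ) : IsJet S fun x => c • f x :=
  ⟨fun x hx => (hf.1 x hx).const_smul c, fun x hx => (hf.2 x hx).const_smul c⟩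

lemma isJet_zero : IsJet S fun _ => (0 : J0 n) :=
  ⟨fun _ _ => hasFDerivWithinAt_const _ _ _, fun _ _ => hasFDerivWithinAt_const _ _ _⟩

variable (n β) in
/-- jets of `C^{2,β}` functions on the closed ball that vanish on the sphere -/
def X : Submodule ℝ (H n β (J0 n)) where
  carrier := {w | IsJet (cB n) w ∧ Bd w}
  add_mem' := fun ha hb => ⟨ha.1.add hb.1, fun x hx => by simp [ha.2 x hx, hb.2 x hx]⟩
  zero_mem' := ⟨isJet_zero, fun _ _ => rfl⟩
  smul_mem' := fun c _ ha => ⟨ha.1.smul c, fun x hx => by simp [ha.2 x hx]⟩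

noncomputable instance instXa : NormedAddCommGroup (X n β) := inferInstance
noncomputable instance instXb : NormedSpace ℝ (X n β) := inferInstance

/-- the jet field of `v`, derivatives within the closed ball -/
noncomputable def j0 (v : E n → ℝ) (x : E n) : J0 n := (D2 (cB n) v x, D1 (cB n) v x, v x)

/-- the jet field of a function on the whole space -/
noncomputable def gj (v : E n → ℝ) (x : E n) : J0 n :=
  (fderiv ℝ (fderiv ℝ v) x, fderiv ℝ v x, v x)

/-- the full jet -/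
def mkJ (j : J0 n) (x : E n) : Jet n := (j.1, j.2.1, j.2.2, x)

lemma jet_eq (v : E n → ℝ) (x : E n) : jet (cB n) v x = mkJ (j0 v x) x := rfl

/-- positive on nonzero positive semidefinite forms -/
def PosL (l : B2 n →L[ℝ] ℝ) : Prop := ∀ m, Psd m → m ≠ 0 → 0 < l m

/-- elliptic, with nonpositive coefficient of order zero -/
def PosJ (l : J0 n →L[ℝ] ℝ) : Prop := (∀ m, Psd m → m ≠ 0 → 0 < l (m, 0, 0)) ∧ l (0, 0, 1) ≤ 0

/-- quantitative form of `PosJ` -/
def EllJ (lam Lam : ℝ) (l : J0 n →L[ℝ] ℝ) : Prop :=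
  (∀ m, Psd m → lam * ‖m‖ ≤ l (m, 0, 0)) ∧ ‖l‖ ≤ Lam ∧ l (0, 0, 1) ≤ 0

/-- the linear operator with coefficient field `l` -/
noncomputable def opL (l : H n β (J0 n →L[ℝ] ℝ)) : X n β →L[ℝ] H n β ℝ :=
  (H.app l).comp (X n β).subtypeL

@[simp] lemma opL_apply (l : H n β (J0 n →L[ℝ] ℝ)) (w : X n β) (x : E n) :
    opL l w x = l x ((w : H n β (J0 n)) x) := H.app_apply _ _ _

/-- the Laplacian on jets -/
noncomputable def lap : J0 n →L[ℝ] ℝ :=
  ∑ i : Fin n, (ContinuousLinearMap.apply ℝ ℝ (EuclideanSpace.single i 1)).comp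
    ((ContinuousLinearMap.apply ℝ (B1 n) (EuclideanSpace.single i 1)).comp (.fst ℝ _ _))

lemma lap_apply (j : J0 n) :
    lap j = ∑ i : Fin n, j.1 (EuclideanSpace.single i 1) (EuclideanSpace.single i 1) := by
  simp [lap]

/-- tensor product of two linear forms -/
noncomputable def tens (a b : B1 n) : B2 n := a.smulRight b

@[simp] lemma tens_apply (a b : B1 n) (v w : E n) : tens a b v w = a v * b w := rfl

lemma psd_tens (a : B1 n) : Psd (tens a a) :=
  ⟨fun _ _ => mul_comm _ _, fun _ => mul_self_nonneg _⟩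

/-- the inner product as a bilinear form -/
noncomputable def inn : B2 n := innerSL ℝ

@[simp] lemma inn_apply (v w : E n) : (inn : B2 n) v w = inner ℝ v w := rfl

/-- forward difference -/
def dl (h : E n) (a : E n → V) (x : E n) : V := a (x + h) - a x

/-- subtract the Taylor polynomial at `b` and rescale by `ρ` -/
noncomputable def resc (β : ℝ) (f : E n → J0 n) (b : E n) (ρ : ℝ) (z : E n) : J0 n :=
  ((ρ ^ β)⁻¹ • ((f (b + ρ • z)).1 - (f b).1),
    (ρ ^ (1 + β))⁻¹ • ((f (b + ρ • z)).2.1 - (f b).2.1 - (f b).1 (ρ • z)),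
    (ρ ^ (2 + β))⁻¹ * ((f (b + ρ • z)).2.2 - (f b).2.2 - (f b).2.1 (ρ • z) -
      (1 / 2) * (f b).1 (ρ • z) (ρ • z)))

/-- the limit of the sets `D i` along `u` -/
def limSet {I : Type} (u : Filter I) (D : I → Set (E n)) : Set (E n) :=
  {z | ∃ zz : I → E n, (∀ᶠ i in u, zz i ∈ D i) ∧ Tendsto zz u (𝓝 z)}

/-- the rescaled ball -/
def rB (b : E n) (ρ : ℝ) : Set (E n) := {z | b + ρ • z ∈ cB n}

/-- a normalised counterexample to the Schauder estimate, with defect `ε` -/
structure Bad (β lam Lam ε : ℝ) (l : E n → B2 n →L[ℝ] ℝ) (f : E n → J0 n) (x y : E n) : Prop where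
  hl : HolC β Lam l
  ell : ∀ z ∈ cB n, ∀ m, Psd m → lam * ‖m‖ ≤ l z m
  jet : IsJet (cB n) f
  bd : Bd f
  one : HS β 1 (cB n) fun z => (f z).1
  sup : ∀ z ∈ cB n, ‖f z‖ ≤ ε
  rhs : HS β ε (cB n) fun z => l z (f z).1
  hx : x ∈ cB n
  hy : y ∈ cB n
  ne : x ≠ y
  big : ‖x - y‖ ^ β ≤ 2 * ‖(f x).1 - (f y).1‖

/-- the action on jets of a map with first derivative `A` and second derivative `B` -/
noncomputable def pullL (A : E n →L[ℝ] E n) (B : E n →L[ℝ] E n →L[ℝ] E n) : J0 n →L[ℝ] J0 n :=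
  LinearMap.toContinuousLinearMap
    { toFun := fun j => (j.1.bilinearComp A A +
        (ContinuousLinearMap.compL ℝ (E n) (E n) ℝ j.2.1).comp B, j.2.1.comp A, j.2.2)
      map_add' := fun a b => by ext <;> simp; ring
      map_smul' := fun c a => by ext <;> simp }

lemma pullL_apply (A : E n →L[ℝ] E n) (B : E n →L[ℝ] E n →L[ℝ] E n) (j : J0 n) :
    pullL A B j = (j.1.bilinearComp A A +
      (ContinuousLinearMap.compL ℝ (E n) (E n) ℝ j.2.1).comp B, j.2.1.comp A, j.2.2) := rfl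

lemma pullL_id : pullL (.id ℝ (E n)) 0 = .id ℝ (J0 n) := by
  refine ContinuousLinearMap.ext fun j => ?_
  rw [pullL_apply]; ext <;> simp

/-- the jet field of `u ∘ φ`, if `f` is the jet field of `u` -/
noncomputable def pull (φ : E n → E n) (f : E n → J0 n) (x : E n) : J0 n :=
  pullL (fderiv ℝ φ x) (fderiv ℝ (fderiv ℝ φ) x) (f (φ x))

/-- the infinitesimal rotation in the plane of `a` and `b` -/
noncomputable def skew (a b : E n) : E n →L[ℝ] E n :=
  (innerSL ℝ b).smulRight a - (innerSL ℝ a).smulRight b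

lemma skew_apply (a b x : E n) : skew a b x = inner ℝ b x • a - inner ℝ a x • b := rfl

/-- an admissible `C^{2,β}` solution, given by its jet field -/
structure BSol (A : Set (ℝ × Jet n)) (F : ℝ × Jet n → ℝ) (t β : ℝ) (f : E n → J0 n) : Prop where
  hol : Hol β f
  jet : IsJet (cB n) f
  mem : ∀ x ∈ cB n, (t, mkJ (f x) x) ∈ A
  eq : ∀ x ∈ cB n, F (t, mkJ (f x) x) = 0

end Pool.Agent.Mink.B
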