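import Pool.Agent.Lib.MP_88c759_an.Mink.Base

/-! The Hölder space on the closed unit ball. -/

set_option maxSynthPendingDepth 3

namespace Pool.Agent.Mink.B

open scoped ContDiff ENNReal Topology
open Set Filter

variable {n : ℕ} {β : ℝ} {V W U : Type} [NormedAddCommGroup V] [NormedSpace ℝ V]
  [NormedAddCommGroup W] [NormedSpace ℝ W] [NormedAddCommGroup U] [NormedSpace ℝ U]

lemma mem_cB {x : E n} : x ∈ cB n ↔ ‖x‖ ≤ 1 := mem_closedBall_zero_iff
lemma mem_oB {x : E n} : x ∈ oB n ↔ ‖x‖ < 1 := mem_ball_zero_iff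
lemma mem_sB {x : E n} : x ∈ sB n ↔ ‖x‖ = 1 := mem_sphere_zero_iff_norm
lemma zero_mem_cB : (0 : E n) ∈ cB n := by simp [mem_cB]
lemma oB_subset : oB n ⊆ cB n := Metric.ball_subset_closedBall
lemma sB_subset : sB n ⊆ cB n := Metric.sphere_subset_closedBall
lemma isOpen_oB : IsOpen (oB n) := Metric.isOpen_ball
lemma isCompact_cB : IsCompact (cB n) := isCompact_closedBall _ _
lemma convex_cB : Convex ℝ (cB n) := convex_closedBall _ _
lemma interior_cB : interior (cB n) = oB n := interior_closedBall _ one_ne_zero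
lemma closure_oB : closure (oB n) = cB n := closure_ball _ one_ne_zero
lemma cB_mem_nhds {x : E n} (h : x ∈ oB n) : cB n ∈ 𝓝 x :=
  mem_of_superset (isOpen_oB.mem_nhds h) oB_subset
lemma uniqueDiffOn_cB : UniqueDiffOn ℝ (cB n) :=
  uniqueDiffOn_convex convex_cB ⟨0, by rw [interior_cB, mem_oB]; simp⟩
lemma norm_sub_le_two {x y : E n} (hx : x ∈ cB n) (hy : y ∈ cB n) : ‖x - y‖ ≤ 2 := by
  linarith [norm_sub_le x y, mem_cB.1 hx, mem_cB.1 hy]

/-- On the ball a Lipschitz bound gives a Hölder bound. -/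
lemma norm_sub_le_rpow (h0 : 0 ≤ β) (h1 : β ≤ 1) {x y : E n} (hx : x ∈ cB n) (hy : y ∈ cB n) :
    ‖x - y‖ ≤ 2 * ‖x - y‖ ^ β := by
  rcases (norm_nonneg (x - y)).eq_or_lt with h | h
  · rw [← h]; positivity
  have h2 : ‖x - y‖ ^ (1 - β) ≤ 2 :=
    (Real.rpow_le_rpow h.le (norm_sub_le_two hx hy) (by linarith)).trans
      ((Real.rpow_le_rpow_of_exponent_le one_le_two (by linarith)).trans_eq (Real.rpow_one 2))
  calc ‖x - y‖ = ‖x - y‖ ^ (1 - β) * ‖x - y‖ ^ β := by rw [← Real.rpow_add h]; simp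
    _ ≤ _ := by gcongr

/-- radial retraction onto the closed ball -/
noncomputable def proj (x : E n) : E n := (max 1 ‖x‖)⁻¹ • x

lemma proj_mem (x : E n) : proj x ∈ cB n := by
  have : 0 < max 1 ‖x‖ := lt_max_of_lt_left one_pos
  rw [mem_cB, proj, norm_smul, norm_inv, Real.norm_of_nonneg this.le, inv_mul_le_iff₀ this]
  simp

lemma proj_eq {x : E n} (h : x ∈ cB n) : proj x = x := by
  simp [proj, max_eq_left (mem_cB.1 h)]

lemma continuous_proj : Continuous (proj : E n → E n) :=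
  ((continuous_const.max continuous_norm).inv₀ fun _ =>
    (lt_max_of_lt_left one_pos).ne').smul continuous_id

lemma proj_lip (x y : E n) : ‖proj x - proj y‖ ≤ 2 * ‖x - y‖ := by
  have ha : 1 ≤ max 1 ‖x‖ := le_max_left _ _
  have hb : 1 ≤ max 1 ‖y‖ := le_max_left _ _
  have e : proj x - proj y =
      (max 1 ‖x‖)⁻¹ • (x - y) + ((max 1 ‖x‖)⁻¹ * (max 1 ‖y‖ - max 1 ‖x‖)) • proj y := by
    have : (max 1 ‖x‖)⁻¹ * (max 1 ‖y‖ - max 1 ‖x‖) * (max 1 ‖y‖)⁻¹ =
        (max 1 ‖x‖)⁻¹ - (max 1 ‖y‖)⁻¹ := by field_simp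
    rw [proj, proj, smul_smul, this]; module
  have h1 : |max 1 ‖y‖ - max 1 ‖x‖| ≤ ‖x - y‖ := by
    rw [max_comm 1, max_comm 1]
    exact (abs_max_sub_max_le_abs _ _ _).trans ((abs_norm_sub_norm_le _ _).trans_eq
      (norm_sub_rev _ _))
  have h2 : |(max 1 ‖x‖)⁻¹| ≤ 1 := by
    rw [abs_of_nonneg (by positivity)]; exact inv_le_one_of_one_le₀ ha
  have h3 := mem_cB.1 (proj_mem y)
  rw [e]
  refine (norm_add_le _ _).trans ?_
  rw [norm_smul, norm_smul, Real.norm_eq_abs, Real.norm_eq_abs, abs_mul, two_mul]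
  refine add_le_add (mul_le_of_le_one_left (norm_nonneg _) h2) ?_
  exact (mul_le_of_le_one_right (by positivity) h3).trans
    ((mul_le_of_le_one_left (abs_nonneg _) h2).trans h1)

/-- Hölder seminorm at most `C` on `S` -/
def HS (β C : ℝ) (S : Set (E n)) (f : E n → V) : Prop :=
  ∀ x ∈ S, ∀ y ∈ S, ‖f x - f y‖ ≤ C * ‖x - y‖ ^ β

/-- supremum and Hölder seminorm on the closed ball at most `C` -/
def HolC (β C : ℝ) (f : E n → V) : Prop := (∀ x ∈ cB n, ‖f x‖ ≤ C) ∧ HS β C (cB n) f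

/-- Hölder continuous on the closed ball -/
def Hol (β : ℝ) (f : E n → V) : Prop := ∃ C, HolC β C f

omit [NormedSpace ℝ V] in
lemma HS.mono {C C' : ℝ} {S : Set (E n)} {f : E n → V} (h : HS β C S f) (hC : C ≤ C') :
    HS β C' S f := fun x hx y hy => (h x hx y hy).trans (by gcongr)

omit [NormedSpace ℝ V] in
lemma HolC.nonneg {C : ℝ} {f : E n → V} (h : HolC β C f) : 0 ≤ C :=
  (norm_nonneg _).trans (h.1 0 zero_mem_cB)

omit [NormedSpace ℝ V] in
lemma HolC.mono {C C' : ℝ} {f : E n → V} (h : HolC β C f) (hC : C ≤ C') : HolC β C' f :=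
  ⟨fun x hx => (h.1 x hx).trans hC, h.2.mono hC⟩

omit [NormedSpace ℝ V] in
lemma hol_of {C C' : ℝ} {f : E n → V} (h : ∀ x ∈ cB n, ‖f x‖ ≤ C) (h' : HS β C' (cB n) f) :
    Hol β f := ⟨max C C', fun x hx => (h x hx).trans (le_max_left _ _), h'.mono (le_max_right _ _)⟩

omit [NormedSpace ℝ V] in
lemma Hol.congr {f g : E n → V} (h : Hol β f) (e : ∀ x ∈ cB n, g x = f x) : Hol β g := by
  obtain ⟨C, h1, h2⟩ := h
  exact ⟨C, fun x hx => e x hx ▸ h1 x hx, fun x hx y hy => by rw [e x hx, e y hy]; exact h2 x hx y hy⟩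

omit [NormedSpace ℝ V] in
lemma HS.continuousOn (hβ : 0 < β) {C : ℝ} {S : Set (E n)} {f : E n → V} (h : HS β C S f) :
    ContinuousOn f S := fun y hy => by
  refine tendsto_iff_norm_sub_tendsto_zero.2 (squeeze_zero' (.of_forall fun _ => norm_nonneg _)
    (eventually_mem_nhdsWithin.mono fun x hx => h x hx y hy) (tendsto_nhdsWithin_of_tendsto_nhds ?_))
  have : Continuous fun x : E n => C * ‖x - y‖ ^ β :=
    continuous_const.mul ((continuous_id.sub continuous_const).norm.rpow_const fun _ => Or.inr hβ.le)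
  simpa [hβ.ne'] using this.tendsto y

variable (n β V) in
/-- The Hölder space as a subspace of pairs (function, difference quotient). -/
def HSub : Submodule ℝ (lp (fun _ : cB n => V) ∞ × lp (fun _ : cB n × cB n => V) ∞) where
  carrier := {z | (∀ x y : cB n, z.1 x - z.1 y = ‖(x : E n) - y‖ ^ β • z.2 (x, y)) ∧
    ∀ x, z.2 (x, x) = 0}
  add_mem' := fun {a b} ha hb => ⟨fun x y => by
      simp only [Prod.fst_add, Prod.snd_add, lp.coeFn_add, Pi.add_apply, smul_add, ← ha.1, ← hb.1]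
      abel,
    fun x => by simp [ha.2, hb.2]⟩
  zero_mem' := by simp
  smul_mem' := fun c a ha => ⟨fun x y => by
      simp only [Prod.smul_fst, Prod.smul_snd, lp.coeFn_smul, Pi.smul_apply]
      rw [← smul_sub, ha.1, smul_comm],
    fun x => by simp [ha.2]⟩

variable (n β V) in
/-- The Hölder space `C^{0,β}` of the closed unit ball with values in `V`. -/
def H : Type := HSub n β V

noncomputable instance : NormedAddCommGroup (H n β V) :=
  inferInstanceAs (NormedAddCommGroup (HSub n β V))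
noncomputable instance : NormedSpace ℝ (H n β V) := inferInstanceAs (NormedSpace ℝ (HSub n β V))

omit [NormedSpace ℝ V] in
private lemma cont_ev {I : Type} (i : I) : Continuous fun f : lp (fun _ : I => V) ∞ => f i :=
  (LipschitzWith.of_dist_le_mul (K := 1) fun f g => by
    simpa [dist_eq_norm] using lp.norm_apply_le_norm ENNReal.top_ne_zero (f - g) i).continuous

instance [CompleteSpace V] : CompleteSpace (H n β V) := by
  have : IsClosed (HSub n β V : Set (lp (fun _ : cB n => V) ∞ ×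
      lp (fun _ : cB n × cB n => V) ∞)) := by
    refine IsClosed.and ?_ ?_
    · simp only [ofPred_forall]
      exact isClosed_iInter fun x => isClosed_iInter fun y => isClosed_eq
        (((cont_ev x).comp continuous_fst).sub ((cont_ev y).comp continuous_fst))
        (((cont_ev (x, y)).comp continuous_snd).const_smul _)
    · simp only [ofPred_forall]
      exact isClosed_iInter fun x => isClosed_eq ((cont_ev (x, x)).comp continuous_snd)
        continuous_const
  exact this.completeSpace_coe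

namespace H

/-- the underlying function, constant along rays outside the ball -/
noncomputable def fn (f : H n β V) (x : E n) : V := (f : HSub n β V).1.1 ⟨proj x, proj_mem x⟩

noncomputable instance : CoeFun (H n β V) fun _ => E n → V := ⟨fn⟩

@[simp] lemma add_apply (f g : H n β V) (x : E n) : (f + g) x = f x + g x := rfl
@[simp] lemma sub_apply (f g : H n β V) (x : E n) : (f - g) x = f x - g x := rfl
@[simp] lemma neg_apply (f : H n β V) (x : E n) : (-f) x = -f x := rfl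
@[simp] lemma smul_apply (c : ℝ) (f : H n β V) (x : E n) : (c • f) x = c • f x := rfl
@[simp] lemma zero_apply (x : E n) : (0 : H n β V) x = 0 := rfl

lemma fn_eq (f : H n β V) (x : cB n) : f x = (f : HSub n β V).1.1 x := by
  simp only [fn, proj_eq x.2]

lemma apply_proj (f : H n β V) (x : E n) : f (proj x) = f x := fn_eq f ⟨_, proj_mem x⟩

lemma norm_apply_le (f : H n β V) (x : E n) : ‖f x‖ ≤ ‖f‖ :=
  (lp.norm_apply_le_norm ENNReal.top_ne_zero _ _).trans (norm_fst_le (f : HSub n β V).1)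

lemma holC (f : H n β V) : HolC β ‖f‖ f := ⟨fun x _ => f.norm_apply_le x, fun x hx y hy => by
  rw [fn_eq f ⟨x, hx⟩, fn_eq f ⟨y, hy⟩, (f : HSub n β V).2.1, norm_smul, mul_comm,
    Real.norm_of_nonneg (by positivity)]
  gcongr
  exact (lp.norm_apply_le_norm ENNReal.top_ne_zero _ _).trans (norm_snd_le (f : HSub n β V).1)⟩

lemma hol (f : H n β V) : Hol β f := ⟨_, f.holC⟩

lemma norm_le {f : H n β V} {C : ℝ} (h : HolC β C f) : ‖f‖ ≤ C := by
  refine max_le (lp.norm_le_of_forall_le h.nonneg fun x => fn_eq f x ▸ h.1 x x.2)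
    (lp.norm_le_of_forall_le h.nonneg fun z => ?_)
  obtain ⟨x, y⟩ := z
  by_cases e : x = y
  · subst e
    exact ((congrArg norm ((f : HSub n β V).2.2 x)).trans norm_zero).trans_le h.nonneg
  have h0 : 0 < ‖(x : E n) - y‖ ^ β :=
    Real.rpow_pos_of_pos (norm_pos_iff.2 (sub_ne_zero.2 (Subtype.coe_ne_coe.2 e))) _
  have := h.2 x x.2 y y.2
  rw [fn_eq, fn_eq, (f : HSub n β V).2.1, norm_smul, Real.norm_of_nonneg h0.le, mul_comm] at this
  exact le_of_mul_le_mul_right this h0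

lemma ext {f g : H n β V} (h : ∀ x ∈ cB n, f x = g x) : f = g := by
  rw [← sub_eq_zero, ← norm_le_zero_iff]
  exact norm_le ⟨fun x hx => by simp [h x hx], fun x hx y hy => by simp [h x hx, h y hy]⟩

/-- the element of the Hölder space given by a Hölder function -/
noncomputable def mk (f : E n → V) (h : Hol β f) : H n β V :=
  (⟨(⟨fun x => f x, memℓp_infty ⟨h.choose, by
      rintro _ ⟨x, rfl⟩; exact h.choose_spec.1 x x.2⟩⟩,
    ⟨fun z => (‖(z.1 : E n) - z.2‖ ^ β)⁻¹ • (f z.1 - f z.2), memℓp_infty ⟨h.choose, by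
      rintro _ ⟨⟨x, y⟩, rfl⟩
      rcases (Real.rpow_nonneg (norm_nonneg ((x : E n) - y)) β).eq_or_lt with e | e
      · simpa [← e] using h.choose_spec.nonneg
      · simp only [norm_smul, norm_inv, Real.norm_of_nonneg e.le]
        rw [inv_mul_le_iff₀ e, mul_comm]
        exact h.choose_spec.2 x x.2 y y.2⟩⟩), fun x y => by
    by_cases e : x = y
    · simp [e]
    have h0 : 0 < ‖(x : E n) - y‖ ^ β :=
      Real.rpow_pos_of_pos (norm_pos_iff.2 (sub_ne_zero.2 (Subtype.coe_ne_coe.2 e))) _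
    exact (smul_inv_smul₀ h0.ne' _).symm, fun x => by simp⟩ : HSub n β V)

lemma mk_apply {f : E n → V} (h : Hol β f) {x : E n} (hx : x ∈ cB n) : mk f h x = f x :=
  fn_eq _ ⟨x, hx⟩

lemma continuous (hβ : 0 < β) (f : H n β V) : Continuous f :=
  ((f.holC.2.continuousOn hβ).comp_continuous continuous_proj proj_mem).congr f.apply_proj

/-- evaluation -/
noncomputable def ev (x : E n) : H n β V →L[ℝ] V :=
  LinearMap.mkContinuous ⟨⟨fun f => f x, fun _ _ => rfl⟩, fun _ _ => rfl⟩ 1 fun f => by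
    simpa using f.norm_apply_le x

@[simp] lemma ev_apply (x : E n) (f : H n β V) : ev x f = f x := rfl

lemma holC_bil (B : V →L[ℝ] W →L[ℝ] U) {f : E n → V} {g : E n → W} {C D : ℝ} (hf : HolC β C f)
    (hg : HolC β D g) : HolC β (2 * ‖B‖ * C * D) fun x => B (f x) (g x) := by
  have hC := hf.nonneg
  have hD := hg.nonneg
  refine ⟨fun x hx => (B.le_opNorm₂ _ _).trans ?_, fun x hx y hy => ?_⟩
  · have : ‖B‖ * ‖f x‖ * ‖g x‖ ≤ ‖B‖ * C * D := by gcongr; exacts [hf.1 x hx, hg.1 x hx]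
    have : 0 ≤ ‖B‖ * C * D := by positivity
    linarith
  · have e : B (f x) (g x) - B (f y) (g y) = B (f x - f y) (g x) + B (f y) (g x - g y) := by
      simp
    have h1 : ‖B‖ * ‖f x - f y‖ * ‖g x‖ ≤ ‖B‖ * (C * ‖x - y‖ ^ β) * D := by
      gcongr; exacts [hf.2 x hx y hy, hg.1 x hx]
    have h2 : ‖B‖ * ‖f y‖ * ‖g x - g y‖ ≤ ‖B‖ * C * (D * ‖x - y‖ ^ β) := by
      gcongr; exacts [hf.1 y hy, hg.2 x hx y hy]
    change ‖B (f x) (g x) - B (f y) (g y)‖ ≤ _
    rw [e]
    linarith [norm_add_le (B (f x - f y) (g x)) (B (f y) (g x - g y)),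
      B.le_opNorm₂ (f x - f y) (g x), B.le_opNorm₂ (f y) (g x - g y)]

omit [NormedSpace ℝ V] in
lemma holC_const (v : V) : HolC β ‖v‖ fun _ : E n => v :=
  ⟨fun _ _ => le_rfl, fun _ _ _ _ => by simp; positivity⟩

lemma holC_map (A : V →L[ℝ] W) {f : E n → V} {C : ℝ} (hf : HolC β C f) :
    HolC β (‖A‖ * C) fun x => A (f x) :=
  ⟨fun x hx => (A.le_opNorm _).trans (by gcongr; exact hf.1 x hx), fun x hx y hy => by
    rw [← map_sub, mul_assoc]
    exact (A.le_opNorm _).trans (by gcongr; exact hf.2 x hx y hy)⟩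

lemma holC_mk {f : E n → V} (h : Hol β f) {C : ℝ} (hC : HolC β C f) : HolC β C (mk f h) :=
  ⟨fun x hx => by rw [mk_apply h hx]; exact hC.1 x hx,
    fun x hx y hy => by rw [mk_apply h hx, mk_apply h hy]; exact hC.2 x hx y hy⟩

lemma mk_apply' {f : E n → V} (h : Hol β f) (x : E n) : mk f h x = f (proj x) := rfl

/-- pointwise application of a bilinear map -/
noncomputable def bil (B : V →L[ℝ] W →L[ℝ] U) : H n β V →L[ℝ] H n β W →L[ℝ] H n β U :=
  LinearMap.mkContinuous₂ (LinearMap.mk₂ ℝ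
    (fun f g => mk (fun x => B (f x) (g x)) ⟨_, holC_bil B f.holC g.holC⟩)
    (fun _ _ _ => ext fun x _ => by simp [mk_apply']) (fun _ _ _ => ext fun x _ => by simp [mk_apply'])
    (fun _ _ _ => ext fun x _ => by simp [mk_apply']) (fun _ _ _ => ext fun x _ => by simp [mk_apply']))
    (2 * ‖B‖) fun f g => norm_le (holC_mk _ (holC_bil B f.holC g.holC))

@[simp] lemma bil_apply (B : V →L[ℝ] W →L[ℝ] U) (f : H n β V) (g : H n β W) (x : E n) :
    bil B f g x = B (f x) (g x) := by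
  rw [← apply_proj f, ← apply_proj g]; rfl

lemma norm_bil_le (B : V →L[ℝ] W →L[ℝ] U) (f : H n β V) (g : H n β W) :
    ‖bil B f g‖ ≤ 2 * ‖B‖ * ‖f‖ * ‖g‖ := norm_le (holC_mk _ (holC_bil B f.holC g.holC))

/-- pointwise application of a linear map -/
noncomputable def map (A : V →L[ℝ] W) : H n β V →L[ℝ] H n β W :=
  LinearMap.mkContinuous ⟨⟨fun f => mk (fun x => A (f x)) ⟨_, holC_map A f.holC⟩,
    fun _ _ => ext fun x _ => by simp [mk_apply']⟩, fun _ _ => ext fun x _ => by simp [mk_apply']⟩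
    ‖A‖ fun f => norm_le (holC_mk _ (holC_map A f.holC))

@[simp] lemma map_apply (A : V →L[ℝ] W) (f : H n β V) (x : E n) : map A f x = A (f x) := by
  rw [← apply_proj f]; rfl

lemma norm_map_le (A : V →L[ℝ] W) (f : H n β V) : ‖map A f‖ ≤ ‖A‖ * ‖f‖ :=
  norm_le (holC_mk _ (holC_map A f.holC))

/-- constants -/
noncomputable def const : V →L[ℝ] H n β V :=
  LinearMap.mkContinuous ⟨⟨fun v => mk (fun _ => v) ⟨_, holC_const v⟩,
    fun _ _ => ext fun x _ => rfl⟩, fun _ _ => ext fun x _ => rfl⟩ 1 fun v => by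
      rw [one_mul]; exact norm_le (holC_mk _ (holC_const v))

@[simp] lemma const_apply (v : V) (x : E n) : (const v : H n β V) x = v := rfl

lemma norm_const_le (v : V) : ‖(const v : H n β V)‖ ≤ ‖v‖ := norm_le (holC_mk _ (holC_const v))

/-- pointwise application of a field of linear maps -/
noncomputable def app : H n β (V →L[ℝ] W) →L[ℝ] H n β V →L[ℝ] H n β W := bil (.id ℝ _)

@[simp] lemma app_apply (A : H n β (V →L[ℝ] W)) (f : H n β V) (x : E n) :
    app A f x = A x (f x) := bil_apply _ _ _ _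

lemma norm_app_le (A : H n β (V →L[ℝ] W)) (f : H n β V) : ‖app A f‖ ≤ 2 * ‖A‖ * ‖f‖ := by
  refine (norm_bil_le _ A f).trans ?_
  have : ‖ContinuousLinearMap.id ℝ (V →L[ℝ] W)‖ ≤ 1 := ContinuousLinearMap.norm_id_le
  have h : 2 * ‖ContinuousLinearMap.id ℝ (V →L[ℝ] W)‖ ≤ 2 := by linarith
  gcongr

/-- pairing -/
noncomputable def pair : H n β V × H n β W →L[ℝ] H n β (V × W) :=
  (map (.inl ℝ V W)).coprod (map (.inr ℝ V W))

@[simp] lemma pair_apply (f : H n β V) (g : H n β W) (x : E n) : pair (f, g) x = (f x, g x) := by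
  simp [pair]

end H

lemma hol_id (h0 : 0 ≤ β) (h1 : β ≤ 1) : Hol β fun x : E n => x :=
  hol_of (fun _ => mem_cB.1) fun _ hx _ hy => norm_sub_le_rpow h0 h1 hx hy

omit [NormedSpace ℝ V] in
lemma hol_const (v : V) : Hol β fun _ : E n => v := ⟨_, H.holC_const v⟩

lemma Hol.map (A : V →L[ℝ] W) {f : E n → V} (hf : Hol β f) : Hol β fun x => A (f x) :=
  ⟨_, H.holC_map A hf.choose_spec⟩

lemma Hol.bil (B : V →L[ℝ] W →L[ℝ] U) {f : E n → V} {g : E n → W} (hf : Hol β f) (hg : Hol β g) :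
    Hol β fun x => B (f x) (g x) := ⟨_, H.holC_bil B hf.choose_spec hg.choose_spec⟩

lemma Hol.add {f g : E n → V} (hf : Hol β f) (hg : Hol β g) : Hol β fun x => f x + g x :=
  (H.mk f hf + H.mk g hg).hol.congr fun x hx => by simp [H.mk_apply _ hx]

lemma Hol.sub {f g : E n → V} (hf : Hol β f) (hg : Hol β g) : Hol β fun x => f x - g x :=
  (H.mk f hf - H.mk g hg).hol.congr fun x hx => by simp [H.mk_apply _ hx]

lemma Hol.prod {f : E n → V} {g : E n → W} (hf : Hol β f) (hg : Hol β g) :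
    Hol β fun x => (f x, g x) :=
  (H.pair (H.mk f hf, H.mk g hg)).hol.congr fun x hx => by simp [H.mk_apply _ hx]

omit [NormedSpace ℝ V] in
lemma Hol.continuousOn (hβ : 0 < β) {f : E n → V} (hf : Hol β f) : ContinuousOn f (cB n) :=
  hf.choose_spec.2.continuousOn hβ

/-- limits along ultrafilters in finite dimension -/
lemma ulim [FiniteDimensional ℝ V] {I : Type} (u : Ultrafilter I) {g : I → V} {C : ℝ}
    (h : ∀ᶠ i in u, ‖g i‖ ≤ C) : ∃ v, Tendsto g u (𝓝 v) := by
  have := FiniteDimensional.proper_real V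
  obtain ⟨v, -, hv⟩ := (isCompact_closedBall (0 : V) C).ultrafilter_le_nhds (u.map g)
    (le_principal_iff.2 (h.mono fun i hi => mem_closedBall_zero_iff.2 hi))
  exact ⟨v, hv⟩

end Pool.Agent.Mink.B
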