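import Pool.Agent.Lib.MP_88c759_an.Mink.BMax

/-! Liouville theorems for bounded solutions with constant coefficients. -/

set_option maxSynthPendingDepth 3

namespace Pool.Agent.Mink.B

open scoped ContDiff Topology
open Set Filter

variable {n : ℕ} {L : B2 n →L[ℝ] ℝ} {g : E n → J0 n}

lemma bliou_tens_ne {ξ : B1 n} (hξ : ξ ≠ 0) : tens ξ ξ ≠ 0 := fun h => by
  refine hξ (ContinuousLinearMap.ext fun v => ?_)
  have h1 : tens ξ ξ v v = 0 := by rw [h]; rfl
  rw [tens_apply] at h1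
  exact mul_self_eq_zero.1 h1

/-- If `ξ ≠ 0` pick `e` with `ξ e = 1`; then `m = m e e • tens ξ ξ`, and `0 < L (tens ξ ξ)`.
If `ξ = 0` then `m = 0` directly. -/
lemma tan_zero (hL : PosL L) {ξ : B1 n} {m : B2 n} (hm : Sym m) (hk : ∀ h, ξ h = 0 → m h = 0)
    (h0 : L m = 0) : m = 0 := by
  by_cases hξ : ξ = 0
  · ext1 h
    exact hk h (by simp [hξ])
  obtain ⟨e₀, he₀⟩ : ∃ e, ξ e ≠ 0 := by
    by_contra hc
    push Not at hc
    exact hξ (ContinuousLinearMap.ext hc)
  set e : E n := (ξ e₀)⁻¹ • e₀ with he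
  have he1 : ξ e = 1 := by simp [he, he₀]
  have h1 : ∀ v w, m v w = ξ v * m e w := fun v w => by
    have h2 := hk (v - ξ v • e) (by simp [he1])
    have h3 : m (v - ξ v • e) w = 0 := by rw [h2]; rfl
    simp only [map_sub, map_smul, ContinuousLinearMap.sub_apply, ContinuousLinearMap.smul_apply,
      smul_eq_mul] at h3
    linarith
  have h2 : m = m e e • tens ξ ξ := by
    refine ContinuousLinearMap.ext fun v => ContinuousLinearMap.ext fun w => ?_
    simp only [ContinuousLinearMap.smul_apply, tens_apply, smul_eq_mul]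
    rw [h1 v w, hm e w, h1 w e]; ring
  have h3 : 0 < L (tens ξ ξ) := hL _ (psd_tens ξ) (bliou_tens_ne hξ)
  have h4 : m e e = 0 := by
    rw [h2, map_smul, smul_eq_mul] at h0
    exact (mul_eq_zero.1 h0).resolve_right h3.ne'
  rw [h2, h4, zero_smul]

lemma bliou_lim {a K : ℝ} (h : ∀ δ : ℝ, 0 < δ → 0 ≤ a + δ * K) : 0 ≤ a := by
  have h1 : Tendsto (fun δ : ℝ => a + δ * K) (𝓝[>] 0) (𝓝 (a + 0 * K)) :=
    (by fun_prop : Continuous fun δ : ℝ => a + δ * K).continuousAt.tendsto.mono_left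
      nhdsWithin_le_nhds
  rw [zero_mul, add_zero] at h1
  exact ge_of_tendsto h1 (eventually_mem_nhdsWithin.mono fun δ hδ => h δ hδ)

/-- the barrier is a jet field -/
lemma bliou_bar (ξ : B1 n) (c ε δ N T : ℝ) (S : Set (E n)) :
    IsJet S fun x => (((2 * δ) • (inn : B2 n) - (2 * δ * N) • tens ξ ξ,
      ε • ξ + ((2 * δ) • (inn : B2 n) x - (2 * δ * N * (ξ x - c)) • ξ),
      ε * (ξ x - c) + δ * (‖x‖ ^ 2 - N * (ξ x - c) ^ 2 + N * T ^ 2)) : J0 n) := by
  constructor
  · intro x _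
    have h1 : HasFDerivAt (fun x : E n => ξ x - c) ξ x := ξ.hasFDerivAt.sub_const c
    have h2 : HasFDerivAt (fun x : E n => ‖x‖ ^ 2) (2 • innerSL ℝ x) x :=
      (hasStrictFDerivAt_norm_sq x).hasFDerivAt
    have h3 := (h1.const_mul ε).add
      ((((h2.sub ((h1.pow 2).const_mul N)).add_const (N * T ^ 2))).const_mul δ)
    refine (h3.congr_fderiv ?_).hasFDerivWithinAt
    refine ContinuousLinearMap.ext fun v => ?_
    simp
    ring
  · intro x _
    have h1 : HasFDerivAt (fun x : E n => ξ x - c) ξ x := ξ.hasFDerivAt.sub_const c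
    have h2 : HasFDerivAt (fun x : E n => (inn : B2 n) x) inn x := (inn : B2 n).hasFDerivAt
    have h3 := ((h2.const_smul (2 * δ)).sub
      ((h1.const_mul (2 * δ * N)).smul_const ξ)).const_add (ε • ξ)
    refine (h3.congr_fderiv ?_).hasFDerivWithinAt
    refine ContinuousLinearMap.ext fun v => ContinuousLinearMap.ext fun w => ?_
    simp
    ring

lemma bliou_half (hL : PosL L) {ξ : B1 n} (hξ : ξ ≠ 0) {c M : ℝ} (hg : IsJet {x | c ≤ ξ x} g)
    (h0 : ∀ x, c ≤ ξ x → L (g x).1 = 0) (hM : ∀ x, c ≤ ξ x → |(g x).2.2| ≤ M)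
    (hb : ∀ x, ξ x = c → (g x).2.2 = 0) (x₀ : E n) (hx₀ : c ≤ ξ x₀) : 0 ≤ (g x₀).2.2 := by
  have ht : 0 < L (tens ξ ξ) := hL _ (psd_tens ξ) (bliou_tens_ne hξ)
  obtain ⟨N, hN0, hN⟩ : ∃ N : ℝ, 0 ≤ N ∧ L inn < N * L (tens ξ ξ) := by
    refine ⟨(|L inn| + 1) / L (tens ξ ξ), by positivity, ?_⟩
    rw [div_mul_cancel₀ _ ht.ne']
    linarith [le_abs_self (L inn)]
  refine bliou_lim (K := ξ x₀ - c) fun ε hε => ?_
  obtain ⟨T, hT1, hT2⟩ : ∃ T : ℝ, ξ x₀ - c ≤ T ∧ M ≤ ε * T := by
    refine ⟨max (ξ x₀ - c) (M / ε), le_max_left _ _, ?_⟩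
    rw [← div_le_iff₀' hε]
    exact le_max_right _ _
  refine bliou_lim (K := ‖x₀‖ ^ 2 - N * (ξ x₀ - c) ^ 2 + N * T ^ 2) fun δ hδ => ?_
  obtain ⟨R, hR1, hR2⟩ : ∃ R : ℝ, ‖x₀‖ ≤ R ∧ M ≤ δ * R ^ 2 := by
    refine ⟨max ‖x₀‖ (max 1 (M / δ)), le_max_left _ _, ?_⟩
    rw [← div_le_iff₀' hδ]
    have h1 : (1 : ℝ) ≤ max ‖x₀‖ (max 1 (M / δ)) := (le_max_left _ _).trans (le_max_right _ _)
    have h2 : M / δ ≤ max ‖x₀‖ (max 1 (M / δ)) := (le_max_right _ _).trans (le_max_right _ _)
    nlinarith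
  set S : Set (E n) := Metric.closedBall 0 R ∩ ξ ⁻¹' Icc c (c + T) with hS
  have hSc : IsCompact S :=
    (isCompact_closedBall 0 R).inter_right (isClosed_Icc.preimage ξ.continuous)
  have hj := (hg.mono (T := S) fun z hz => hz.2.1).add (bliou_bar ξ c ε δ N T S)
  have key := mp0 hSc hj (fun z hz => ?_) x₀
    ⟨mem_closedBall_zero_iff.2 hR1, hx₀, by linarith⟩
  · simp only [Prod.snd_add] at key
    linarith
  obtain ⟨hz1, hz2, hz3⟩ := hz
  rw [mem_closedBall_zero_iff] at hz1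
  have hu := (abs_le.1 (hM z hz2)).1
  have hs0 : 0 ≤ ξ z - c := sub_nonneg.2 hz2
  have hsT : ξ z - c ≤ T := by linarith
  have hq : 0 ≤ δ * (N * (T ^ 2 - (ξ z - c) ^ 2)) :=
    mul_nonneg hδ.le (mul_nonneg hN0 (by nlinarith))
  have hn2 : 0 ≤ δ * ‖z‖ ^ 2 := by positivity
  have he : 0 ≤ ε * (ξ z - c) := mul_nonneg hε.le hs0
  simp only [Prod.snd_add]
  rcases hz2.eq_or_lt with h2 | h2
  · left
    rw [hb z h2.symm]
    nlinarith
  rcases hz3.eq_or_lt with h3 | h3
  · left
    have h4 : ξ z - c = T := by linarith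
    rw [h4] at hq he ⊢
    nlinarith
  rcases hz1.eq_or_lt with h1 | h1
  · left
    rw [h1] at hn2 ⊢
    nlinarith
  right
  refine ⟨inter_mem (Metric.closedBall_mem_nhds_of_mem (mem_ball_zero_iff.2 h1))
    (ξ.continuous.continuousAt.preimage_mem_nhds (Icc_mem_nhds h2 h3)),
    L.comp (.fst ℝ _ _), fun m hm => ?_, by simp, ?_⟩
  · by_cases hm0 : m = 0
    · simp [hm0]
    · exact (hL m hm hm0).le
  · simp only [ContinuousLinearMap.comp_apply, ContinuousLinearMap.coe_fst', map_add,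
      map_sub, map_smul, smul_eq_mul, h0 z h2.le]
    nlinarith

/-- By symmetry (`g ↦ -g`) it suffices to show `0 ≤ u x₀`. Put `s x = ξ x - c`. Given `ε, δ > 0`
choose `T ≥ s x₀` with `M ≤ ε T`, `R ≥ ‖x₀‖` with `M ≤ δ R²`, and `N` with
`L (innerSL ℝ) < N L (tens ξ ξ)`. Apply `mp0` (with `Λ = L ∘ fst`) on the compact set
`{0 ≤ s ≤ T} ∩ closedBall 0 R` to `u + ε s + δ (‖x‖² - N s² + N T²)`. Let `δ → 0`, then `ε → 0`. -/
theorem liou_half (hL : PosL L) {ξ : B1 n} (hξ : ξ ≠ 0) {c M : ℝ} (hg : IsJet {x | c ≤ ξ x} g)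
    (h0 : ∀ x, c ≤ ξ x → L (g x).1 = 0) (hM : ∀ x, c ≤ ξ x → |(g x).2.2| ≤ M)
    (hb : ∀ x, ξ x = c → (g x).2.2 = 0) : ∀ x, c ≤ ξ x → (g x).2.2 = 0 := by
  intro x hx
  have h1 := bliou_half hL hξ hg h0 hM hb x hx
  have h2 := bliou_half hL hξ (g := fun x => (-1 : ℝ) • g x) (M := M) (hg.smul (-1))
    (fun z hz => by simp [h0 z hz]) (fun z hz => by simpa using hM z hz)
    (fun z hz => by simp [hb z hz]) x hx
  simp only [Prod.smul_snd, smul_eq_mul] at h2
  linarith

/-- The symmetric form `a ξ ρ = L (tens ξ ρ + tens ρ ξ) / 2` on `B1 n` is positive definite, so the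
linear map `ξ ↦ a ξ` from `B1 n` to its dual is injective, hence onto
(`LinearMap.injective_iff_surjective_of_finrank_eq_finrank`, or `LinearMap.BilinForm.toDual`). -/
lemma exists_mirror (hL : PosL L) (d : E n) :
    ∃ ξ : B1 n, ∀ ρ : B1 n, L (tens ξ ρ + tens ρ ξ) = 2 * ρ d := by
  let φ : B1 n →ₗ[ℝ] Module.Dual ℝ (B1 n) :=
    LinearMap.mk₂ ℝ (fun ξ ρ : B1 n => L (tens ξ ρ + tens ρ ξ))
      (fun a b ρ => by
        rw [← map_add]; congr 1
        refine ContinuousLinearMap.ext fun v => ContinuousLinearMap.ext fun w => ?_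
        simp only [ContinuousLinearMap.add_apply, tens_apply]; ring)
      (fun c a ρ => by
        rw [← map_smul]; congr 1
        refine ContinuousLinearMap.ext fun v => ContinuousLinearMap.ext fun w => ?_
        simp only [ContinuousLinearMap.add_apply, tens_apply, ContinuousLinearMap.smul_apply,
          smul_eq_mul]; ring)
      (fun a b ρ => by
        rw [← map_add]; congr 1
        refine ContinuousLinearMap.ext fun v => ContinuousLinearMap.ext fun w => ?_
        simp only [ContinuousLinearMap.add_apply, tens_apply]; ring)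
      (fun c a ρ => by
        rw [← map_smul]; congr 1
        refine ContinuousLinearMap.ext fun v => ContinuousLinearMap.ext fun w => ?_
        simp only [ContinuousLinearMap.add_apply, tens_apply, ContinuousLinearMap.smul_apply,
          smul_eq_mul]; ring)
  have hinj : Function.Injective φ := by
    rw [injective_iff_map_eq_zero]
    intro a ha
    by_contra hne
    have h1 : φ a a = 0 := by rw [ha]; rfl
    have h2 : φ a a = L (tens a a + tens a a) := rfl
    have h3 := hL _ (psd_tens a) (bliou_tens_ne hne)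
    rw [h2, map_add] at h1
    linarith
  have hsurj : Function.Surjective φ :=
    (LinearMap.injective_iff_surjective_of_finrank_eq_finrank
      (Subspace.dual_finrank_eq (K := ℝ) (V := B1 n)).symm).1 hinj
  obtain ⟨ξ, hξ⟩ := hsurj
    { toFun := fun ρ => 2 * ρ d
      map_add' := fun a b => by simp only [ContinuousLinearMap.add_apply]; ring
      map_smul' := fun c a => by
        simp only [ContinuousLinearMap.smul_apply, smul_eq_mul, RingHom.id_apply]; ring }
  exact ⟨ξ, fun ρ => LinearMap.congr_fun hξ ρ⟩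

/-- composition with an affine map -/
lemma bliou_comp (hg : IsJet univ g) (A : E n →L[ℝ] E n) (b : E n) :
    IsJet univ fun z => (((g (A z + b)).1.bilinearComp A A, (g (A z + b)).2.1.comp A,
      (g (A z + b)).2.2) : J0 n) := by
  constructor
  · intro x _
    have h1 : HasFDerivAt (fun z => A z + b) A x := A.hasFDerivAt.add_const b
    have h2 := hasFDerivWithinAt_univ.1 (hg.1 (A x + b) (mem_univ _))
    exact (h2.comp x h1).hasFDerivWithinAt
  · intro x _
    have h1 : HasFDerivAt (fun z => A z + b) A x := A.hasFDerivAt.add_const b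
    have h2 := hasFDerivWithinAt_univ.1 (hg.2 (A x + b) (mem_univ _))
    have h3 := ((ContinuousLinearMap.compL ℝ (E n) (E n) ℝ).flip A).hasFDerivAt.comp x
      (h2.comp x h1)
    refine (h3.congr_fderiv ?_).hasFDerivWithinAt
    refine ContinuousLinearMap.ext fun v => ContinuousLinearMap.ext fun w => ?_
    simp

/-- For `x ≠ y`, `d = x - y`, `ξ` from `exists_mirror` (`ξ d = L (tens ξ ξ) > 0`). The reflection
`R z = z - (2 (ξ z - c) / ξ d) • d`, `c = ξ ((x + y)/2)`, has linear part `R₀` with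
`L (m.bilinearComp R₀ R₀) = L m` for symmetric `m` (take `ρ = m d`), fixes `{ξ = c}` and sends `x`
to `y`. Apply `liou_half` to the jet of `u - u ∘ R`, which is
`z ↦ g z - ((g (R z)).1.bilinearComp R₀ R₀, (g (R z)).2.1 ∘ R₀, (g (R z)).2.2)`. -/
theorem liou_all (hL : PosL L) {M : ℝ} (hg : IsJet univ g) (h0 : ∀ x, L (g x).1 = 0)
    (hM : ∀ x, |(g x).2.2| ≤ M) (x y : E n) : (g x).2.2 = (g y).2.2 := by
  by_cases hxy : x = y
  · rw [hxy]
  obtain ⟨ξ, hξ⟩ := exists_mirror hL (x - y)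
  set d : E n := x - y with hd
  have hd0 : d ≠ 0 := sub_ne_zero.2 hxy
  have hξ0 : ξ ≠ 0 := by
    intro h
    have h1 := hξ (innerSL ℝ d)
    have h2 : tens ξ (innerSL ℝ d) + tens (innerSL ℝ d) ξ = 0 := by
      refine ContinuousLinearMap.ext fun v => ContinuousLinearMap.ext fun w => ?_
      simp [h]
    rw [h2, map_zero, innerSL_apply_apply, real_inner_self_eq_norm_sq] at h1
    have h3 : 0 < ‖d‖ := norm_pos_iff.2 hd0
    nlinarith
  have hLt : L (tens ξ ξ) = ξ d := by
    have h1 := hξ ξ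
    rw [map_add] at h1
    linarith
  have hpos : 0 < ξ d := hLt ▸ hL _ (psd_tens ξ) (bliou_tens_ne hξ0)
  set c : ℝ := (ξ x + ξ y) / 2 with hc
  set R₀ : E n →L[ℝ] E n := .id ℝ (E n) - (2 / ξ d) • ξ.smulRight d with hR₀
  have hR₀a : ∀ v, R₀ v = v - (2 / ξ d * ξ v) • d := fun v => by
    simp [hR₀, smul_smul]
  set R : E n → E n := fun z => R₀ z + (2 / ξ d * c) • d with hR
  have hLR : ∀ m : B2 n, Sym m → L (m.bilinearComp R₀ R₀) = L m := fun m hm => by
    have h1 : m.bilinearComp R₀ R₀ = m - (2 / ξ d) • (tens ξ (m d) + tens (m d) ξ) +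
        ((2 / ξ d) ^ 2 * m d d) • tens ξ ξ := by
      refine ContinuousLinearMap.ext fun v => ContinuousLinearMap.ext fun w => ?_
      simp only [ContinuousLinearMap.bilinearComp_apply, hR₀a, map_sub, map_smul,
        ContinuousLinearMap.sub_apply, ContinuousLinearMap.smul_apply,
        ContinuousLinearMap.add_apply, tens_apply, smul_eq_mul]
      rw [hm v d]; ring
    rw [h1, map_add, map_sub, map_smul, map_smul, hξ, hLt, smul_eq_mul, smul_eq_mul]
    field_simp
    ring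
  have hj := bliou_comp hg R₀ ((2 / ξ d * c) • d)
  have hdx : ξ d = ξ x - ξ y := by rw [hd, map_sub]
  have key := liou_half hL hξ0 (c := c) (M := M + M) ((hg.sub hj).mono (subset_univ _))
    (fun z _ => by
      simp only [Prod.fst_sub, map_sub]
      rw [hLR _ (hg.sym convex_univ (by simp) (mem_univ _)), h0, h0, sub_zero])
    (fun z _ => by
      simp only [Prod.snd_sub]
      exact (abs_sub _ _).trans (add_le_add (hM _) (hM _)))
    (fun z hz => by
      simp only [Prod.snd_sub]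
      rw [hR₀a, hz, sub_add_cancel, sub_self])
    x (by rw [hc]; linarith)
  simp only [Prod.snd_sub] at key
  have hRx : R₀ x + (2 / ξ d * c) • d = y := by
    have h1 : 2 / ξ d * ξ x - 2 / ξ d * c = 1 := by
      rw [← mul_sub, hc]
      field_simp
      linarith
    rw [hR₀a, sub_add, ← sub_smul, h1, one_smul, hd, sub_sub_cancel]
  rw [hRx] at key
  linarith

end Pool.Agent.Mink.B
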