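import Pool.Agent.Lib.MP_88c759_an.Mink.BLiou

/-! Liouville theorems for solutions with Hölder second derivatives. -/

set_option maxSynthPendingDepth 3

namespace Pool.Agent.Mink.B

open scoped ContDiff Topology
open Set Filter

variable {n : ℕ} {β C : ℝ} {L : B2 n →L[ℝ] ℝ} {g : E n → J0 n} {S : Set (E n)}

section aux

variable {V : Type} [NormedAddCommGroup V] [NormedSpace ℝ V] {a : E n → V}
  {a' : E n → E n →L[ℝ] V}

lemma bliou2_shift (h : Der S a a') (x : E n) {T : Set (E n)} (hT : ∀ z ∈ T, x + z ∈ S) :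
    Der T (fun z => a (x + z)) fun z => a' (x + z) := by
  intro z hz
  have h1 : HasFDerivWithinAt (fun z : E n => x + z) (ContinuousLinearMap.id ℝ (E n)) T z :=
    ((hasFDerivAt_id z).const_add x).hasFDerivWithinAt
  exact (h (x + z) (hT z hz)).comp z h1 hT

lemma bliou2_line (h : Der S a a') {x v : E n} (hl : ∀ t : ℝ, x + t • v ∈ S) :
    HasDerivAt (fun t : ℝ => a (x + t • v)) (a' x v) 0 := by
  have h1 : HasDerivAt (fun t : ℝ => x + t • v) v 0 := by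
    simpa using ((hasDerivAt_id (0 : ℝ)).smul_const v).const_add x
  have h2 : HasFDerivWithinAt a (a' x) S (x + (0 : ℝ) • v) := by
    have := hl 0
    simp only [zero_smul, add_zero] at this ⊢
    exact h x this
  have h3 := h2.comp_hasDerivWithinAt (0 : ℝ) (s := univ) h1.hasDerivWithinAt fun t _ => hl t
  exact hasDerivWithinAt_univ.1 h3

lemma bliou2_two (h : Der S a a') {x y v : E n} (hx : ∀ t : ℝ, x + t • v ∈ S)
    (hy : ∀ t : ℝ, y + t • v ∈ S)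
    (e : ∀ t : ℝ, a (x + t • v) - a x = a (y + t • v) - a y) : a' x v = a' y v := by
  have h1 := (bliou2_line h hx).sub_const (a x)
  have h2 := (bliou2_line h hy).sub_const (a y)
  rw [funext e] at h1
  exact h1.unique h2

lemma bliou2_zero (h : Der S a a') {x v : E n} (hx : ∀ t : ℝ, x + t • v ∈ S)
    (e : ∀ t : ℝ, a (x + t • v) = a x) : a' x v = 0 := by
  have h1 := bliou2_line h hx
  rw [funext e] at h1
  exact h1.unique (hasDerivAt_const _ _)

end aux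

lemma bliou2_shiftJ (hg : IsJet S g) (x : E n) {T : Set (E n)} (hT : ∀ z ∈ T, x + z ∈ S) :
    IsJet T fun z => g (x + z) :=
  ⟨bliou2_shift hg.1 x hT, bliou2_shift hg.2 x hT⟩

lemma bliou2_convex (ξ : B1 n) : Convex ℝ {x | 0 ≤ ξ x} :=
  convex_halfSpace_ge (ξ : E n →ₗ[ℝ] ℝ).isLinear 0

lemma bliou2_int {ξ : B1 n} (hξ : ξ ≠ 0) : (interior {x | 0 ≤ ξ x}).Nonempty := by
  have h1 : ∃ v, 0 < ξ v := by
    by_contra h
    push Not at h
    refine hξ (ContinuousLinearMap.ext fun v => le_antisymm (h v) ?_)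
    have := h (-v)
    rw [map_neg] at this
    change 0 ≤ ξ v
    linarith
  obtain ⟨v, hv⟩ := h1
  refine ⟨v, mem_interior.2 ⟨{x | 0 < ξ x}, fun x (hx : 0 < ξ x) => hx.le,
    isOpen_lt continuous_const ξ.continuous, hv⟩⟩

/-- differences of a jet field form a jet field -/
lemma IsJet.dl (hg : IsJet S g) {h : E n} (hS : ∀ x ∈ S, x + h ∈ S) : IsJet S (dl h g) := by
  have h1 := bliou2_shiftJ hg h (T := S) fun z hz => by rw [add_comm]; exact hS z hz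
  refine (h1.sub hg).congr fun x _ => ?_
  rw [B.dl, add_comm]

/-- Second differences are Hölder. For fixed `x, y` and `h = x - y` not preserving `S` argue on
segments: `t ↦ p (x + t h₃) - p (y + t h₃)` has derivative bounded by `C ‖x-y‖^β ‖h₃‖`, and so on.
A clean way: the jet field `z ↦ g (x + z) - g (y + z)` on the convex set
`{z | x + z ∈ S ∧ y + z ∈ S}` has top component bounded by `C ‖x-y‖^β`; apply `Der.lip` twice. -/
lemma dl2_holder (hS : Convex ℝ S) (hg : IsJet S g) (hC : HS β C S fun x => (g x).1) {h₂ h₃ : E n}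
    (hh₂ : ∀ x ∈ S, x + h₂ ∈ S) (hh₃ : ∀ x ∈ S, x + h₃ ∈ S) {x y : E n} (hx : x ∈ S) (hy : y ∈ S) :
    |(dl h₂ (dl h₃ g) x).2.2 - (dl h₂ (dl h₃ g) y).2.2| ≤ C * ‖x - y‖ ^ β * ‖h₂‖ * ‖h₃‖ := by
  let T : Set (E n) := {z | x + z ∈ S ∧ y + z ∈ S}
  have hT : Convex ℝ T :=
    (hS.translate_preimage_right x).inter (hS.translate_preimage_right y)
  have hw : IsJet T fun z => g (x + z) - g (y + z) :=
    (bliou2_shiftJ hg x fun z hz => hz.1).sub (bliou2_shiftJ hg y fun z hz => hz.2)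
  have hT3 : ∀ z ∈ T, z + h₃ ∈ T := fun z hz =>
    ⟨by rw [← add_assoc]; exact hh₃ _ hz.1, by rw [← add_assoc]; exact hh₃ _ hz.2⟩
  have hT0 : (0 : E n) ∈ T := ⟨by rwa [add_zero], by rwa [add_zero]⟩
  have hT2 : h₂ ∈ T := ⟨hh₂ x hx, hh₂ y hy⟩
  have hM : ∀ z ∈ T, ‖(g (x + z) - g (y + z)).1‖ ≤ C * ‖x - y‖ ^ β := by
    intro z hz
    have := hC _ hz.1 _ hz.2
    rwa [add_sub_add_right_eq_sub] at this
  have hM2 : ∀ z ∈ T, ‖(dl h₃ (fun z => g (x + z) - g (y + z)) z).2.1‖ ≤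
      C * ‖x - y‖ ^ β * ‖h₃‖ := by
    intro z hz
    have := Der.lip hT hw.2 hM hz (hT3 z hz)
    rwa [add_sub_cancel_left] at this
  have h3 := Der.lip hT (hw.dl hT3).1 hM2 hT0 hT2
  rw [sub_zero, Real.norm_eq_abs] at h3
  have e : (dl h₂ (dl h₃ g) x).2.2 - (dl h₂ (dl h₃ g) y).2.2 =
      (dl h₃ (fun z => g (x + z) - g (y + z)) h₂).2.2 -
        (dl h₃ (fun z => g (x + z) - g (y + z)) 0).2.2 := by
    simp only [B.dl, Prod.snd_sub, add_zero, zero_add, add_assoc]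
    ring
  rw [e]
  linarith

/-- a linear function of sublinear growth vanishes -/
lemma sublinear (h1 : β < 1) {c D : ℝ} (h : ∀ k : ℕ, |k * c| ≤ D * (k : ℝ) ^ β) : c = 0 := by
  by_contra hc
  have hc' : 0 < |c| := abs_pos.2 hc
  have ht : Tendsto (fun k : ℕ => (k : ℝ) ^ (1 - β)) atTop atTop :=
    (tendsto_rpow_atTop (by linarith)).comp tendsto_natCast_atTop_atTop
  obtain ⟨k, hk, hk1⟩ := ((ht.eventually_gt_atTop (D / |c|)).and (eventually_ge_atTop 1)).exists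
  have hk0 : (0 : ℝ) < k := by exact_mod_cast hk1
  have h2 := h k
  have h3 : (k : ℝ) = (k : ℝ) ^ (1 - β) * (k : ℝ) ^ β := by
    rw [← Real.rpow_add hk0, sub_add_cancel, Real.rpow_one]
  have h4 : 0 < (k : ℝ) ^ β := Real.rpow_pos_of_pos hk0 β
  rw [abs_mul, abs_of_pos hk0] at h2
  rw [div_lt_iff₀ hc'] at hk
  have h5 := mul_lt_mul_of_pos_right hk h4
  have h6 : (k : ℝ) ^ (1 - β) * |c| * (k : ℝ) ^ β = k * |c| := by
    rw [mul_right_comm, ← h3]
  linarith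

lemma bliou2_ray (h1 : β < 1) {q : E n → ℝ} {K c : ℝ} {x₀ h : E n} (hx : x₀ ∈ S)
    (hS : ∀ x ∈ S, x + h ∈ S) (hq : ∀ x ∈ S, ∀ y ∈ S, |q x - q y| ≤ K * ‖x - y‖ ^ β)
    (hc : ∀ x ∈ S, q (x + h) - q x = c) : c = 0 := by
  have h2 : ∀ k : ℕ, x₀ + (k : ℝ) • h ∈ S ∧ q (x₀ + (k : ℝ) • h) - q x₀ = k * c := by
    intro k
    induction k with
    | zero => simpa using hx
    | succ k ih =>
      have e : x₀ + ((k + 1 : ℕ) : ℝ) • h = x₀ + (k : ℝ) • h + h := by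
        rw [Nat.cast_succ, add_smul, one_smul, add_assoc]
      rw [e]
      refine ⟨hS _ ih.1, ?_⟩
      have := hc _ ih.1
      rw [Nat.cast_succ]
      linarith [ih.2]
  refine sublinear h1 (D := K * ‖h‖ ^ β) fun k => ?_
  have := hq _ (h2 k).1 _ hx
  rw [(h2 k).2, add_sub_cancel_left, norm_smul, Real.norm_natCast,
    Real.mul_rpow (Nat.cast_nonneg k) (norm_nonneg h)] at this
  linarith

lemma bliou2_L {h : E n} (hS : ∀ x ∈ S, x + h ∈ S) (he : ∀ x ∈ S, L (g x).1 = 0) :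
    ∀ x ∈ S, L (dl h g x).1 = 0 := by
  intro x hx
  rw [B.dl, Prod.fst_sub, map_sub, he _ (hS x hx), he x hx, sub_self]

lemma bliou2_hol (hS : Convex ℝ S) (hg : IsJet S g) (hC : HS β C S fun x => (g x).1) {h₂ h₃ : E n}
    (hh₂ : ∀ x ∈ S, x + h₂ ∈ S) (hh₃ : ∀ x ∈ S, x + h₃ ∈ S) : ∀ x ∈ S, ∀ y ∈ S,
    |(dl h₂ (dl h₃ g) x).2.2 - (dl h₂ (dl h₃ g) y).2.2| ≤ C * ‖h₂‖ * ‖h₃‖ * ‖x - y‖ ^ β := by
  intro x hx y hy
  have := dl2_holder hS hg hC hh₂ hh₃ hx hy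
  linarith

lemma bliou2_bdd (hS : Convex ℝ S) (hg : IsJet S g) (hC : HS β C S fun x => (g x).1)
    {h₁ h₂ h₃ : E n} (hh₁ : ∀ x ∈ S, x + h₁ ∈ S) (hh₂ : ∀ x ∈ S, x + h₂ ∈ S)
    (hh₃ : ∀ x ∈ S, x + h₃ ∈ S) : ∀ x ∈ S,
    |(dl h₁ (dl h₂ (dl h₃ g)) x).2.2| ≤ C * ‖h₂‖ * ‖h₃‖ * ‖h₁‖ ^ β := by
  intro x hx
  have := bliou2_hol hS hg hC hh₂ hh₃ _ (hh₁ x hx) x hx
  rwa [add_sub_cancel_left] at this

/-- Third differences `dl h₁ (dl h₂ (dl h₃ g))` are bounded (`dl2_holder`) solutions, so constant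
(`liou_all`); the constant is zero by `sublinear` (sum along `k • h₁`). So the value of
`dl h₂ (dl h₃ g)` is constant, its gradient `dl h₂ (dl h₃ p)` vanishes, so
`p (z + h) - p z` does not depend on `z`; differentiate in `h` at `0`. -/
theorem liou3 (h0 : 0 < β) (h1 : β < 1) (hL : PosL L) (hg : IsJet univ g)
    (hC : HS β C univ fun x => (g x).1) (he : ∀ x, L (g x).1 = 0) (x y : E n) :
    (g x).1 = (g y).1 := by
  have hu : ∀ h : E n, ∀ x ∈ (univ : Set (E n)), x + h ∈ (univ : Set (E n)) :=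
    fun _ _ _ => mem_univ _
  have hq : ∀ h₁ h₂ h₃ z, (dl h₂ (dl h₃ g) (z + h₁)).2.2 = (dl h₂ (dl h₃ g) z).2.2 := by
    intro h₁ h₂ h₃ z
    have hc := liou_all hL (((hg.dl (hu h₃)).dl (hu h₂)).dl (hu h₁))
      (fun x => bliou2_L (hu h₁) (bliou2_L (hu h₂) (bliou2_L (hu h₃) fun x _ => he x)) x
        (mem_univ x))
      (fun x => bliou2_bdd convex_univ hg hC (hu h₁) (hu h₂) (hu h₃) x (mem_univ x))
    have h2 : (dl h₁ (dl h₂ (dl h₃ g)) z).2.2 = 0 :=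
      bliou2_ray h1 (mem_univ z) (hu h₁) (bliou2_hol convex_univ hg hC (hu h₂) (hu h₃))
        fun x _ => hc x z
    exact sub_eq_zero.1 h2
  have hp : ∀ h₂ h₃ z, (dl h₂ (dl h₃ g) z).2.1 = 0 := by
    intro h₂ h₃ z
    ext1 v
    exact bliou2_zero ((hg.dl (hu h₃)).dl (hu h₂)).1 (fun _ => mem_univ _) fun t => hq _ _ _ _
  ext1 v
  refine bliou2_two hg.2 (fun _ => mem_univ _) (fun _ => mem_univ _) fun t => ?_
  have := hp (x - y) (t • v) y
  rw [B.dl, add_sub_cancel] at this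
  exact sub_eq_zero.1 this

/-- Step used twice in `liou4`: the top component kills `ker ξ` in the second slot (differentiate
`z ↦ p (z + t h) - p z = 0`, or use the line `t ↦ z + t h`), it is symmetric (`IsJet.sym`), so it
vanishes by `tan_zero`; then `Der.lip` with `M = 0`. -/
lemma grad_const (hL : PosL L) {ξ : B1 n} (hξ : ξ ≠ 0) (hg : IsJet {x | 0 ≤ ξ x} g)
    (he : ∀ x, 0 ≤ ξ x → L (g x).1 = 0)
    (hi : ∀ h, ξ h = 0 → ∀ x, 0 ≤ ξ x → (g (x + h)).2.1 = (g x).2.1) :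
    ∀ x y, 0 ≤ ξ x → 0 ≤ ξ y → (g x).2.1 = (g y).2.1 := by
  have hl : ∀ x v, 0 ≤ ξ x → ξ v = 0 → ∀ t : ℝ, x + t • v ∈ {x | 0 ≤ ξ x} := by
    intro x v hx hv t
    simpa [hv] using hx
  have hr : ∀ x ∈ {x | 0 ≤ ξ x}, ‖(g x).1‖ ≤ 0 := by
    intro x hx
    rw [tan_zero hL (hg.sym (bliou2_convex ξ) (bliou2_int hξ) hx)
      (fun v hv => bliou2_zero hg.2 (hl x v hx hv) fun t => hi _ (by simp [hv]) x hx) (he x hx),
      norm_zero]
  intro x y hx hy
  have := Der.lip (bliou2_convex ξ) hg.2 hr hy hx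
  rw [zero_mul, norm_le_zero_iff] at this
  exact sub_eq_zero.1 this

/-- All `h` below are tangential (`ξ h = 0`). Third differences vanish on the half space
(`liou_half`). So `q = dl h₂ (dl h₃ g)` has translation invariant value, hence translation
invariant gradient (`IsJet.unique`), hence constant gradient `π` (`grad_const`); `π = 0` by
`sublinear` and `dl2_holder` on rays `k • z`. So `w = dl h₃ g` has translation invariant gradient,
hence constant gradient: `p (z + h) - p z` does not depend on `z`. Differentiating along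
`t ↦ t • h` gives `r x h = r y h`; apply `tan_zero` to `r x - r y`. -/
theorem liou4 (h0 : 0 < β) (h1 : β < 1) (hL : PosL L) {ξ : B1 n} (hξ : ξ ≠ 0)
    (hg : IsJet {x | 0 ≤ ξ x} g) (hC : HS β C {x | 0 ≤ ξ x} fun x => (g x).1)
    (he : ∀ x, 0 ≤ ξ x → L (g x).1 = 0)
    (hb : ∀ z h₁ h₂ h₃, ξ z = 0 → ξ h₁ = 0 → ξ h₂ = 0 → ξ h₃ = 0 →
      (dl h₁ (dl h₂ (dl h₃ g)) z).2.2 = 0) :
    ∀ x y, 0 ≤ ξ x → 0 ≤ ξ y → (g x).1 = (g y).1 := by
  have hcv := bliou2_convex ξ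
  have hud : UniqueDiffOn ℝ {x | 0 ≤ ξ x} := uniqueDiffOn_convex hcv (bliou2_int hξ)
  have hu : ∀ h : E n, 0 ≤ ξ h → ∀ x ∈ {x | 0 ≤ ξ x}, x + h ∈ {x | 0 ≤ ξ x} := by
    intro h hh x hx
    change 0 ≤ ξ (x + h)
    rw [map_add]
    exact add_nonneg hx hh
  have hl : ∀ x v, 0 ≤ ξ x → ξ v = 0 → ∀ t : ℝ, x + t • v ∈ {x | 0 ≤ ξ x} := by
    intro x v hx hv t
    simpa [hv] using hx
  have hp : ∀ h₂ h₃, ξ h₂ = 0 → ξ h₃ = 0 → ∀ z, 0 ≤ ξ z → (dl h₂ (dl h₃ g) z).2.1 = 0 := by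
    intro h₂ h₃ e₂ e₃
    have u₂ := hu h₂ e₂.ge
    have u₃ := hu h₃ e₃.ge
    have hj := (hg.dl u₃).dl u₂
    have hLq := bliou2_L u₂ (bliou2_L u₃ he)
    have hinv : ∀ h₁, ξ h₁ = 0 → ∀ x, 0 ≤ ξ x →
        (dl h₂ (dl h₃ g) (x + h₁)).2.1 = (dl h₂ (dl h₃ g) x).2.1 := by
      intro h₁ e₁ x hx
      have u₁ := hu h₁ e₁.ge
      have hz := liou_half hL hξ (hj.dl u₁) (bliou2_L u₁ hLq) (bliou2_bdd hcv hg hC u₁ u₂ u₃)
        fun z hz => hb z h₁ h₂ h₃ hz e₁ e₂ e₃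
      have := IsJet.unique hud (hj.dl u₁) isJet_zero hz hx
      have h3 : (dl h₁ (dl h₂ (dl h₃ g)) x).2.1 = 0 := by rw [this]; rfl
      exact sub_eq_zero.1 h3
    have hc := grad_const hL hξ hj hLq hinv
    intro z hz
    have hv : ∀ v, 0 ≤ ξ v → (dl h₂ (dl h₃ g) z).2.1 v = 0 := by
      intro v hv
      refine bliou2_ray h1 hz (hu v hv) (bliou2_hol hcv hg hC u₂ u₃) fun x hx => ?_
      have := Der.tay0 hcv hj.1 (M := 0) hx (hu v hv x hx) fun w hw _ => by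
        rw [hc w x hw hx, sub_self, norm_zero]
      rw [zero_mul, norm_le_zero_iff, add_sub_cancel_left, hc x z hx hz] at this
      exact sub_eq_zero.1 this
    ext1 v
    rcases le_total 0 (ξ v) with h | h
    · exact hv v h
    · have := hv (-v) (by rw [map_neg]; linarith)
      rw [map_neg, neg_eq_zero] at this
      exact this
  intro x y hx hy
  refine sub_eq_zero.1 (tan_zero hL (ξ := ξ) (fun a b => ?_) (fun v hv => ?_) ?_)
  · change (g x).1 a b - (g y).1 a b = (g x).1 b a - (g y).1 b a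
    rw [hg.sym hcv (bliou2_int hξ) hx a b, hg.sym hcv (bliou2_int hξ) hy a b]
  · refine sub_eq_zero.2 (bliou2_two hg.2 (hl x v hx hv) (hl y v hy hv) fun t => ?_)
    have e : ξ (t • v) = 0 := by simp [hv]
    exact grad_const hL hξ (hg.dl (hu _ e.ge)) (bliou2_L (hu _ e.ge) he)
      (fun h hh z hz => sub_eq_zero.1 (hp h _ hh e z hz)) x y hx hy
  · rw [map_sub, he x hx, he y hy, sub_self]

end Pool.Agent.Mink.B
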