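import Pool.Agent.Lib.MP_88c759_an.Mink.BC3
import Pool.Agent.Lib.MP_88c759_an.Mink.ATA

/-! The continuity method. -/

set_option maxSynthPendingDepth 3

namespace Pool.Agent.Mink.B

open scoped ContDiff Topology
open Set Filter

variable {n : ℕ} {β t : ℝ} {A : Set (ℝ × Jet n)} {F : ℝ × Jet n → ℝ} {f : E n → J0 n}

lemma sol_of_bsol (hn : 0 < n) (h0 : 0 < β) (h1 : β < 1) (hF : Fam A F) (ht : t ∈ Icc (0 : ℝ) 1)
    (hs : BSol A F t β f) {φ : E n → ℝ} (hb : ∀ x ∈ sB n, (f x).2.2 = φ x) :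
    Sol A F t φ fun x => (f x).2.2 := by
  refine ⟨hs.jet.contDiffOn (hs.hol.continuousOn h0).fst, ?_, fun x hx => ?_, fun x hx => ?_, hb⟩
  · exact (int_reg hn h0 h1 hF ht hs 4).snd.snd
  · rw [jet_eq, hs.jet.j0_eq hx]
    exact hs.mem x hx
  · rw [jet_eq, hs.jet.j0_eq hx]
    exact hs.eq x hx

/-- `c3` for `β` makes the top component Lipschitz, so `f` is a `BSol` for `α`; `c3` for `α`. -/
lemma c3a_of_bsol (hn : 0 < n) (h0 : 0 < β) (h1 : β < 1) (hF : Fam A F) (ht : t ∈ Icc (0 : ℝ) 1)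
    (hs : BSol A F t β f) {φ : E n → ℝ} (hφ : ContDiff ℝ 4 φ) (hb : ∀ x ∈ sB n, (f x).2.2 = φ x)
    {α : ℝ} (a0 : 0 < α) (a1 : α < 1) : C3a (cB n) α fun x => (f x).2.2 := by
  obtain ⟨s, ⟨C, hC⟩, hs2⟩ := c3 hn h0 h1 hF ht hs hφ hb
  obtain ⟨M, hM⟩ := hs.hol
  have hC0 := hC.nonneg
  have hH : HS α (2 * C) (cB n) fun x => (f x).1 := fun x hx y hy => by
    refine (hs2.lip convex_cB hC.1 hy hx).trans ?_
    calc C * ‖x - y‖ ≤ C * (2 * ‖x - y‖ ^ α) :=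
          mul_le_mul_of_nonneg_left (norm_sub_le_rpow a0.le a1.le hx hy) hC0
      _ = 2 * C * ‖x - y‖ ^ α := by ring
  have hs' : BSol A F t α f :=
    ⟨⟨_, hs.jet.holC a0.le a1.le hM.1 (by positivity) hH⟩, hs.jet, hs.mem, hs.eq⟩
  obtain ⟨s', ⟨C', hC'⟩, hs2'⟩ := c3 hn a0 a1 hF ht hs' hφ hb
  exact hs.jet.c3a a0 hs2' hC'.2

lemma bmain_hol_gj (h0 : 0 < β) (h1 : β < 1) {φ : E n → ℝ} (h : ContDiff ℝ 4 φ) :
    Hol β (gj φ) :=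
  Hol.comp (G := gj φ) (contDiff_gj 1 (h.of_le (by norm_num))) (hol_id h0.le h1.le)

/-- `pt` with `P = ℝ`, `G (h, j, x) = F (h, mkJ j x)`,
`J h = H.mk f _ + (h - t) • (H.mk (gj φ₁) _ - H.mk (gj φ₀) _)`. -/
lemma step_open (hn : 0 < n) (h0 : 0 < β) (h1 : β < 1) (hF : Fam A F) (ht : t ∈ Icc (0 : ℝ) 1)
    (hs : BSol A F t β f) {φ₀ φ₁ : E n → ℝ} (h₀ : ContDiff ℝ 4 φ₀) (h₁ : ContDiff ℝ 4 φ₁)
    (hb : ∀ x ∈ sB n, (f x).2.2 = (1 - t) * φ₀ x + t * φ₁ x) :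
    ∀ᶠ s in 𝓝 t, ∃ g, BSol A F s β g ∧ ∀ x ∈ sB n, (g x).2.2 = (1 - s) * φ₀ x + s * φ₁ x := by
  have hL : ContDiff ℝ ∞ fun q : ℝ × J0 n × E n => ((q.1, mkJ q.2.1 q.2.2) : ℝ × Jet n) :=
    contDiff_fst.prodMk (contDiff_snd.fst.fst.prodMk (contDiff_snd.fst.snd.fst.prodMk
      (contDiff_snd.fst.snd.snd.prodMk contDiff_snd.snd)))
  have hU : IsOpen {q : ℝ × J0 n × E n | ((q.1, mkJ q.2.1 q.2.2) : ℝ × Jet n) ∈ A} :=
    hF.isOpen.preimage hL.continuous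
  have hG : ContDiffOn ℝ ∞ (fun q : ℝ × J0 n × E n => F (q.1, mkJ q.2.1 q.2.2))
      {q : ℝ × J0 n × E n | ((q.1, mkJ q.2.1 q.2.2) : ℝ × Jet n) ∈ A} :=
    hF.smooth.comp hL.contDiffOn fun q hq => hq
  set J : ℝ → H n β (J0 n) := fun h => H.mk f hs.hol + (h - t) •
    (H.mk (gj φ₁) (bmain_hol_gj h0 h1 h₁) - H.mk (gj φ₀) (bmain_hol_gj h0 h1 h₀)) with hJdef
  have hJa : ∀ h, ∀ x ∈ cB n, J h x = f x + (h - t) • (gj φ₁ x - gj φ₀ x) := by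
    intro h x hx
    simp only [hJdef, H.add_apply, H.smul_apply, H.sub_apply, H.mk_apply _ hx]
  have hJt : ∀ x ∈ cB n, J t x = f x := by
    intro x hx
    rw [hJa t x hx, sub_self, zero_smul, add_zero]
  have hJ : ContDiffAt ℝ (1 : ℕ) J t :=
    contDiffAt_const.add ((contDiffAt_id.sub contDiffAt_const).smul contDiffAt_const)
  have hJj : ∀ h, IsJet (cB n) (J h) := fun h =>
    (hs.jet.add (((isJet_gj (h₁.of_le (by norm_num)) _).sub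
      (isJet_gj (h₀.of_le (by norm_num)) _)).smul (h - t))).congr (hJa h)
  obtain ⟨W, -, hW, -⟩ := pt hn h0 h1 hU hG one_ne_zero hJ (Eventually.of_forall hJj)
    (fun x hx => by
      rw [hJt x hx]
      exact hs.mem x hx)
    (fun x hx => by
      rw [hJt x hx]
      exact hs.eq x hx)
    (fun x hx => by
      rw [hJt x hx]
      exact posJ_of_fam hF ht hx (hs.jet.sym_cB hx) (hs.mem x hx))
  filter_upwards [hW] with s hWs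
  refine ⟨W s, ⟨(W s).hol, hWs.1, fun x hx => (hWs.2.2 x hx).1, fun x hx => (hWs.2.2 x hx).2⟩,
    fun x hx => ?_⟩
  rw [hWs.2.1 x hx, hJa s x (sB_subset hx)]
  change (f x).2.2 + (s - t) * (φ₁ x - φ₀ x) = _
  rw [hb x hx]
  ring

/-- `jlim` along an ultrafilter; `K` is closed and bounded. -/
lemma step_closed (h0 : 0 < β) (h1 : β < 1) (hF : Fam A F) {φ₀ φ₁ : E n → ℝ}
    {K : Set (ℝ × Jet n)} (hK : IsCompact K) (hKA : K ⊆ A) {C : ℝ}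
    (hap : ∀ s ∈ Icc (0 : ℝ) 1, ∀ g, BSol A F s β g →
      (∀ x ∈ sB n, (g x).2.2 = (1 - s) * φ₀ x + s * φ₁ x) →
      (∀ x ∈ cB n, (s, mkJ (g x) x) ∈ K) ∧ HS β C (cB n) fun x => (g x).1) :
    IsClosed ({s | ∃ g, BSol A F s β g ∧ ∀ x ∈ sB n, (g x).2.2 = (1 - s) * φ₀ x + s * φ₁ x} ∩
      Icc (0 : ℝ) 1) := by
  refine isClosed_iff_ultrafilter.2 fun s₀ u hu hT => ?_
  have hex : ∀ s, s ∈ {s | ∃ g, BSol A F s β g ∧
      ∀ x ∈ sB n, (g x).2.2 = (1 - s) * φ₀ x + s * φ₁ x} ∩ Icc (0 : ℝ) 1 →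
      ∃ g, BSol A F s β g ∧ ∀ x ∈ sB n, (g x).2.2 = (1 - s) * φ₀ x + s * φ₁ x :=
    fun s hs => hs.1
  choose! g hg using hex
  obtain ⟨M, hM⟩ := hK.isBounded.exists_norm_le
  have hev : ∀ᶠ s in (u : Filter ℝ), s ∈ Icc (0 : ℝ) 1 ∧ BSol A F s β (g s) ∧
      (∀ x ∈ sB n, (g s x).2.2 = (1 - s) * φ₀ x + s * φ₁ x) ∧
      (∀ x ∈ cB n, (s, mkJ (g s x) x) ∈ K) ∧ HS β C (cB n) fun x => (g s x).1 := by
    filter_upwards [hT] with s hs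
    exact ⟨hs.2, (hg s hs).1, (hg s hs).2, hap s hs.2 (g s) (hg s hs).1 (hg s hs).2⟩
  obtain ⟨g₀, hj, hH, hlim⟩ := jlim (C := 2 * M + max C 0) h0 u (F := g) (by
    filter_upwards [hev] with s hs
    refine ⟨hs.2.1.jet, hs.2.1.jet.holC h0.le h1.le (fun x hx => ?_) (le_max_right _ _)
      (hs.2.2.2.2.mono (le_max_left _ _))⟩
    have h2 : ‖mkJ (g s x) x‖ ≤ M := (norm_snd_le (s, mkJ (g s x) x)).trans (hM _ (hs.2.2.2.1 x hx))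
    rw [mkJ, norm_prod_le_iff, norm_prod_le_iff, norm_prod_le_iff] at h2
    rw [norm_prod_le_iff, norm_prod_le_iff]
    exact ⟨h2.1, h2.2.1, h2.2.2.1⟩)
  have hid : Tendsto (fun s : ℝ => s) u (𝓝 s₀) := hu
  have hl2 : ∀ x ∈ cB n, Tendsto (fun s => ((s, mkJ (g s x) x) : ℝ × Jet n)) u
      (𝓝 (s₀, mkJ (g₀ x) x)) := fun x hx =>
    hid.prodMk_nhds ((hlim x hx).fst_nhds.prodMk_nhds ((hlim x hx).snd_nhds.fst_nhds.prodMk_nhds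
      ((hlim x hx).snd_nhds.snd_nhds.prodMk_nhds tendsto_const_nhds)))
  have hmem : ∀ x ∈ cB n, (s₀, mkJ (g₀ x) x) ∈ A := fun x hx =>
    hKA (hK.isClosed.mem_of_tendsto (hl2 x hx) (hev.mono fun s hs => hs.2.2.2.1 x hx))
  refine ⟨⟨g₀, ⟨⟨_, hH⟩, hj, hmem, fun x hx => ?_⟩, fun x hx => ?_⟩,
    isClosed_Icc.mem_of_tendsto hid (hev.mono fun s hs => hs.1)⟩
  · have h3 := (hF.smooth.continuousOn.continuousAt (hF.isOpen.mem_nhds (hmem x hx))).tendsto.comp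
      (hl2 x hx)
    exact tendsto_nhds_unique_of_eventuallyEq h3 tendsto_const_nhds
      (hev.mono fun s hs => hs.2.1.eq x hx)
  · have h3 : Tendsto (fun s : ℝ => (1 - s) * φ₀ x + s * φ₁ x) u
        (𝓝 ((1 - s₀) * φ₀ x + s₀ * φ₁ x)) :=
      ((tendsto_const_nhds.sub hid).mul tendsto_const_nhds).add (hid.mul tendsto_const_nhds)
    exact tendsto_nhds_unique_of_eventuallyEq (hlim x (sB_subset hx)).snd_nhds.snd_nhds h3
      (hev.mono fun s hs => hs.2.2.1 x hx)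

lemma bmain_bound {φ : E n → ℝ} (h : ContDiff ℝ 4 φ) :
    ∃ M : ℝ, ∀ i : ℕ, i ≤ 4 → ∀ x ∈ cB n, ‖iteratedFDeriv ℝ i φ x‖ ≤ M := by
  have h1 : ∀ i : ℕ, i ≤ 4 → ∃ M : ℝ, ∀ x ∈ cB n, ‖iteratedFDeriv ℝ i φ x‖ ≤ M := fun i hi =>
    isCompact_cB.exists_bound_of_continuousOn
      (h.continuous_iteratedFDeriv (by exact_mod_cast hi)).continuousOn
  choose! M hM using h1
  refine ⟨∑ i ∈ Finset.range 5, |M i|, fun i hi x hx => (hM i hi x hx).trans ?_⟩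
  exact (le_abs_self _).trans (Finset.single_le_sum (f := fun i => |M i|)
    (fun _ _ => abs_nonneg _) (Finset.mem_range.2 (by omega)))

lemma bmain_bound_mix {φ₀ φ₁ : E n → ℝ} (h₀ : ContDiff ℝ 4 φ₀) (h₁ : ContDiff ℝ 4 φ₁) :
    ∃ M : ℝ, ∀ t ∈ Icc (0 : ℝ) 1, ∀ i : ℕ, i ≤ 4 → ∀ x ∈ cB n,
      ‖iteratedFDeriv ℝ i (fun x => (1 - t) * φ₀ x + t * φ₁ x) x‖ ≤ M := by
  obtain ⟨M₀, hM₀⟩ := bmain_bound h₀
  obtain ⟨M₁, hM₁⟩ := bmain_bound h₁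
  refine ⟨M₀ + M₁, fun t ht i hi x hx => ?_⟩
  have hi' : (i : WithTop ℕ∞) ≤ 4 := by exact_mod_cast hi
  have c0 : ContDiffAt ℝ i φ₀ x := (h₀.of_le hi').contDiffAt
  have c1 : ContDiffAt ℝ i φ₁ x := (h₁.of_le hi').contDiffAt
  have e : (fun x => (1 - t) * φ₀ x + t * φ₁ x) = (1 - t) • φ₀ + t • φ₁ := rfl
  have d0 : ContDiffAt ℝ i ((1 - t) • φ₀) x := c0.const_smul (1 - t)
  have d1 : ContDiffAt ℝ i (t • φ₁) x := c1.const_smul t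
  rw [e, iteratedFDeriv_add_apply d0 d1,
    iteratedFDeriv_const_smul_apply c0, iteratedFDeriv_const_smul_apply c1]
  refine (norm_add_le _ _).trans (add_le_add ?_ ?_)
  · rw [norm_smul, Real.norm_of_nonneg (sub_nonneg.2 ht.2)]
    exact (mul_le_of_le_one_left (norm_nonneg _) (by linarith [ht.1])).trans (hM₀ i hi x hx)
  · rw [norm_smul, Real.norm_of_nonneg ht.1]
    exact (mul_le_of_le_one_left (norm_nonneg _) ht.2).trans (hM₁ i hi x hx)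

/-- `c2beta`, `IsClosed.Icc_subset_of_forall_mem_nhdsWithin` -/
theorem continuity (hn : 0 < n) (hF : Fam A F) {φ₀ φ₁ : E n → ℝ} (h₀ : ContDiff ℝ 4 φ₀)
    (h₁ : ContDiff ℝ 4 φ₁) {K : Set (ℝ × Jet n)} (hK : IsCompact K) (hKA : K ⊆ A)
    (hap : ∀ t ∈ Icc (0:ℝ) 1, ∀ v : E n → ℝ,
      Sol A F t (fun x => (1 - t) * φ₀ x + t * φ₁ x) v → ∀ x ∈ cB n, (t, jet (cB n) v x) ∈ K)
    {v₀ : E n → ℝ} (hv₀ : Sol A F 0 φ₀ v₀) (hv₀3 : ContDiffOn ℝ 3 v₀ (cB n)) :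
    ∃ v : E n → ℝ, Sol A F 1 φ₁ v ∧ ∀ α : ℝ, 0 < α → α < 1 → C3a (cB n) α v := by
  obtain ⟨M, hM⟩ := bmain_bound_mix h₀ h₁
  obtain ⟨β, C, h0, h1, hC⟩ := c2beta hn hF hK hKA M
  have hcl := step_closed (φ₀ := φ₀) (φ₁ := φ₁) (C := C) h0 h1 hF hK hKA (fun s hs g hg hb => by
    have hsol := sol_of_bsol hn h0 h1 hF hs hg (φ := fun x => (1 - s) * φ₀ x + s * φ₁ x) hb
    have hKm := hap s hs _ hsol
    refine ⟨fun x hx => ?_, fun x hx y hy => ?_⟩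
    · have h2 := hKm x hx
      rwa [jet_eq, hg.jet.j0_eq hx] at h2
    · have h2 := hC s hs _ _ ((contDiff_const.mul h₀).add (contDiff_const.mul h₁)) (hM s hs) hsol
        hKm x hx y hy
      have ex : D2 (cB n) (fun x => (g x).2.2) x = (g x).1 := congrArg Prod.fst (hg.jet.j0_eq hx)
      have ey : D2 (cB n) (fun x => (g x).2.2) y = (g y).1 := congrArg Prod.fst (hg.jet.j0_eq hy)
      rwa [ex, ey] at h2)
  have hsub := hcl.Icc_subset_of_forall_mem_nhdsWithin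
    ⟨j0 v₀, ⟨hol_j0 h0.le h1.le hv₀3, isJet_j0 hv₀.c2, hv₀.mem, hv₀.eq⟩, fun x hx => by
      change v₀ x = _
      rw [hv₀.bd x hx]
      ring⟩
    (fun s hs => by
      obtain ⟨⟨g, hg, hb⟩, hs'⟩ := hs
      exact mem_nhdsWithin_of_mem_nhds
        (step_open hn h0 h1 hF (Ico_subset_Icc_self hs') hg h₀ h₁ hb))
  have h11 : (1 : ℝ) ∈ Icc (0 : ℝ) 1 := ⟨zero_le_one, le_rfl⟩
  obtain ⟨g, hg, hb⟩ := hsub h11
  have hb' : ∀ x ∈ sB n, (g x).2.2 = φ₁ x := fun x hx => by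
    rw [hb x hx]
    ring
  exact ⟨_, sol_of_bsol hn h0 h1 hF h11 hg hb', fun α a0 a1 =>
    c3a_of_bsol hn h0 h1 hF h11 hg h₁ hb' a0 a1⟩

end Pool.Agent.Mink.B
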