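import Pool.Agent.Lib.MP_88c759_an.Mink.BX

/-! The weak maximum principle. No continuity of the coefficients is needed. -/

set_option maxSynthPendingDepth 3

namespace Pool.Agent.Mink.B

open scoped ContDiff Topology
open Set Filter

variable {n : ℕ} {S : Set (E n)} {f : E n → J0 n}

private lemma second_nonneg {φ φ' : ℝ → ℝ} {c : ℝ}
    (h1 : ∀ᶠ t in 𝓝 (0 : ℝ), HasDerivAt φ (φ' t) t)
    (h2 : HasDerivAt φ' c 0) (hmin : IsLocalMin φ 0) : 0 ≤ c := by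
  by_contra hc
  have h0 : φ' 0 = 0 := hmin.hasDerivAt_eq_zero h1.self_of_nhds
  have h3 : ∀ᶠ t in 𝓝[>] (0 : ℝ), φ' t < 0 := by
    have h4 := (hasDerivAt_iff_tendsto_slope.1 h2).mono_left (nhdsGT_le_nhdsNE 0)
    filter_upwards [h4.eventually (gt_mem_nhds (not_le.1 hc)), self_mem_nhdsWithin] with t ht ht'
    rw [slope_def_field, h0, sub_zero, sub_zero] at ht
    exact (div_neg_iff.1 ht).elim (fun h => absurd h.2 (not_lt.2 (le_of_lt ht'))) (fun h => h.1)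
  obtain ⟨u, hu, h5⟩ := (nhdsGT_basis 0).eventually_iff.1 h3
  obtain ⟨ε, hε, h6⟩ := Metric.eventually_nhds_iff.1 (h1.and hmin)
  have h7 : 0 < min u ε / 2 := half_pos (lt_min hu hε)
  have h8 : min u ε / 2 < min u ε := half_lt_self (lt_min hu hε)
  have h9 : ∀ t ∈ Icc 0 (min u ε / 2), HasDerivAt φ (φ' t) t ∧ φ 0 ≤ φ t := fun t ht => h6 (by
    rw [Real.dist_eq, sub_zero, abs_of_nonneg ht.1]
    exact ht.2.trans_lt (h8.trans_le (min_le_right _ _)))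
  obtain ⟨t, ht, e⟩ := exists_hasDerivAt_eq_slope φ φ' h7
    (fun t ht => (h9 t ht).1.continuousAt.continuousWithinAt)
    (fun t ht => (h9 t (Ioo_subset_Icc_self ht)).1)
  have h10 : φ' t < 0 := h5 ⟨ht.1, ht.2.trans (h8.trans_le (min_le_left _ _))⟩
  rw [e, sub_zero] at h10
  exact absurd h10 (not_lt.2 (div_nonneg (sub_nonneg.2 (h9 _ ⟨h7.le, le_rfl⟩).2) h7.le))

private lemma j0_split (j : J0 n) (Λ : J0 n →L[ℝ] ℝ) :
    Λ j = Λ (j.1, 0, 0) + Λ (0, j.2.1, 0) + j.2.2 * Λ (0, 0, 1) := by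
  rw [← smul_eq_mul, ← map_smul, ← map_add, ← map_add]
  congr 1
  ext <;> simp

/-- `IsLocalMin.hasFDerivAt_eq_zero`; symmetry by `second_derivative_symmetric_of_eventually` or
`IsJet.sym` on a small ball; for the sign restrict to the line `t ↦ x + t • v`: if the second
derivative is negative then `isLocalMax_of_deriv_deriv_neg` gives a local maximum as well, so the
function is locally constant and the second derivative vanishes. -/
lemma psd_of_min (hf : IsJet S f) {x : E n} (hS : S ∈ 𝓝 x)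
    (hmin : ∀ y ∈ S, (f x).2.2 ≤ (f y).2.2) : (f x).2.1 = 0 ∧ Psd (f x).1 := by
  have h1 : ∀ᶠ y in 𝓝 x, HasFDerivAt (fun y => (f y).2.2) (f y).2.1 y :=
    (eventually_mem_nhds_iff.2 hS).mono fun y hy => (hf.1 y (mem_of_mem_nhds hy)).hasFDerivAt hy
  have h2 : HasFDerivAt (fun y => (f y).2.1) (f x).1 x :=
    (hf.2 x (mem_of_mem_nhds hS)).hasFDerivAt hS
  have hm : IsLocalMin (fun y => (f y).2.2) x := mem_of_superset hS hmin
  refine ⟨hm.hasFDerivAt_eq_zero h1.self_of_nhds,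
    second_derivative_symmetric_of_eventually h1 h2, fun v => ?_⟩
  have h3 : ∀ t : ℝ, HasDerivAt (fun t : ℝ => x + t • v) v t := fun t => by
    simpa using ((hasDerivAt_id t).smul_const v).const_add x
  have h4 : Tendsto (fun t : ℝ => x + t • v) (𝓝 0) (𝓝 x) := by
    simpa using (h3 0).continuousAt.tendsto
  have e : x + (0 : ℝ) • v = x := by simp
  refine second_nonneg (φ := fun t => (f (x + t • v)).2.2) (φ' := fun t => (f (x + t • v)).2.1 v)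
    ((h4.eventually h1).mono fun t ht => HasFDerivAt.comp_hasDerivAt
      (l := fun y => (f y).2.2) (f := fun t : ℝ => x + t • v) t ht (h3 t)) ?_ ?_
  · have h5 : HasFDerivAt (fun y => (f y).2.1) (f x).1 (x + (0 : ℝ) • v) := by
      rw [e]
      exact h2
    simpa using (h5.comp_hasDerivAt (0 : ℝ) (h3 0)).clm_apply (hasDerivAt_const (0 : ℝ) v)
  · refine (h4.eventually hm).mono fun t ht => ?_
    show (f (x + (0 : ℝ) • v)).2.2 ≤ _
    rw [e]
    exact ht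

/-- At a negative minimum `x`: `f x = (r, 0, 0) + u • (0, 0, 1)`, so `0 ≤ Λ (f x)`. -/
lemma mp0 (hS : IsCompact S) (hf : IsJet S f)
    (h : ∀ x ∈ S, 0 ≤ (f x).2.2 ∨ (S ∈ 𝓝 x ∧ ∃ Λ : J0 n →L[ℝ] ℝ,
      (∀ m, Psd m → 0 ≤ Λ (m, 0, 0)) ∧ Λ (0, 0, 1) ≤ 0 ∧ Λ (f x) < 0)) :
    ∀ x ∈ S, 0 ≤ (f x).2.2 := by
  intro x hx
  obtain ⟨z, hz, hm⟩ := hS.exists_isMinOn ⟨x, hx⟩ hf.1.continuousOn
  refine le_trans ?_ (hm hx)
  rcases h z hz with h0 | ⟨hn, Λ, h1, h2, h3⟩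
  · exact h0
  by_contra hc
  obtain ⟨h4, h5⟩ := psd_of_min hf hn fun y hy => hm hy
  rw [j0_split, h4] at h3
  have h6 : Λ (0, 0, 0) = 0 := map_zero Λ
  have h7 := mul_nonneg_of_nonpos_of_nonpos (not_le.1 hc).le h2
  linarith [h1 _ h5]

/-- Barrier `w x = e^{2γ} - e^{γ (ξ x + 1)}`, `ξ` a coordinate form of norm one, with jet
`b x = (-γ² E • tens ξ ξ, -γ E • ξ, w x)`, `E = e^{γ (ξ x + 1)} ≥ 1`. Then
`Λ (b x) ≤ -E (γ² lam - γ Lam) ≤ -1` for `γ` large (`‖tens ξ ξ‖ = 1`). Apply `mp0` to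
`M' • b ± f` for every `M' > M`. -/
theorem maxp (hn : 0 < n) {lam : ℝ} (hlam : 0 < lam) (Lam : ℝ) :
    ∃ C : ℝ, 0 < C ∧ ∀ (Λ : E n → J0 n →L[ℝ] ℝ) (f : E n → J0 n) (M : ℝ),
      (∀ x ∈ oB n, EllJ lam Lam (Λ x)) → IsJet (cB n) f → Bd f →
      (∀ x ∈ oB n, |Λ x (f x)| ≤ M) → ∀ x ∈ cB n, |(f x).2.2| ≤ C * M := by
  set e : E n := EuclideanSpace.single ⟨0, hn⟩ 1 with he
  have he1 : ‖e‖ = 1 := by simp [he]
  set ξ : B1 n := innerSL ℝ e with hξ
  have hξ1 : ‖ξ‖ = 1 := by rw [hξ, innerSL_apply_norm, he1]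
  have hξe : ξ e = 1 := by rw [hξ, innerSL_apply_apply, real_inner_self_eq_norm_sq, he1]; simp
  have hξx : ∀ x ∈ cB n, |ξ x| ≤ 1 := fun x hx => by
    have := ξ.le_opNorm x
    rw [hξ1, one_mul] at this
    exact this.trans (mem_cB.1 hx)
  have ht : 1 ≤ ‖tens ξ ξ‖ := by
    have := (tens ξ ξ).le_opNorm₂ e e
    simpa [hξe, he1] using this
  obtain ⟨γ, hγ1, hγ2⟩ : ∃ γ : ℝ, 1 ≤ γ ∧ |Lam| + 1 ≤ γ * lam := by
    refine ⟨(|Lam| + 1) / lam + 1, le_add_of_nonneg_left (by positivity), ?_⟩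
    rw [add_mul, div_mul_cancel₀ _ hlam.ne']
    linarith
  set X : E n → ℝ := fun x => Real.exp (γ * (ξ x + 1)) with hX
  have dX : ∀ x, HasFDerivAt X ((γ * X x) • ξ) x := fun x => by
    have := ((ξ.hasFDerivAt (x := x)).add_const 1).const_mul γ |>.exp
    rwa [smul_smul, mul_comm] at this
  set b : E n → J0 n := fun x =>
    (-(γ * (γ * X x)) • tens ξ ξ, -(γ * X x) • ξ, Real.exp (2 * γ) - X x) with hb
  have hbj : IsJet (cB n) b := by
    refine ⟨fun x _ => HasFDerivAt.hasFDerivWithinAt ?_, fun x _ => HasFDerivAt.hasFDerivWithinAt ?_⟩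
    · have := (dX x).const_sub (Real.exp (2 * γ))
      rwa [← neg_smul] at this
    · refine (((dX x).const_mul γ).neg.smul_const ξ).congr_fderiv ?_
      ext v w
      simp [hb, mul_assoc]
  have hX1 : ∀ x ∈ cB n, 1 ≤ X x := fun x hx =>
    Real.one_le_exp (mul_nonneg (by linarith) (by linarith [(abs_le.1 (hξx x hx)).1]))
  have hX2 : ∀ x ∈ cB n, X x ≤ Real.exp (2 * γ) := fun x hx =>
    Real.exp_le_exp.2 (by nlinarith [(abs_le.1 (hξx x hx)).2])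
  have hL : ∀ x ∈ cB n, ∀ l : J0 n →L[ℝ] ℝ, EllJ lam Lam l → l (b x) ≤ -1 := fun x hx l hl => by
    have a1 : l ((b x).1, 0, 0) = -(γ * (γ * X x)) * l (tens ξ ξ, 0, 0) := by
      rw [← smul_eq_mul, ← map_smul]; simp [hb]
    have a2 : l (0, (b x).2.1, 0) = -(γ * X x) * l (0, ξ, 0) := by
      rw [← smul_eq_mul, ← map_smul]; simp [hb]
    have a3 : lam ≤ l (tens ξ ξ, 0, 0) :=
      (le_mul_of_one_le_right hlam.le ht).trans (hl.1 _ (psd_tens ξ))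
    have a4 : |l (0, ξ, 0)| ≤ |Lam| := by
      have := l.le_opNorm (0, ξ, 0)
      simp only [Prod.norm_def, norm_zero, hξ1, Real.norm_eq_abs] at this
      norm_num at this
      exact this.trans (hl.2.1.trans (le_abs_self _))
    have a5 : (b x).2.2 * l (0, 0, 1) ≤ 0 :=
      mul_nonpos_of_nonneg_of_nonpos (sub_nonneg.2 (hX2 x hx)) hl.2.2
    have a6 : 1 ≤ γ * X x := one_le_mul_of_one_le_of_one_le hγ1 (hX1 x hx)
    have a7 : 1 ≤ γ * l (tens ξ ξ, 0, 0) + l (0, ξ, 0) := by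
      nlinarith [(abs_le.1 a4).1]
    rw [j0_split, a1, a2]
    nlinarith [one_le_mul_of_one_le_of_one_le a6 a7]
  have key : ∀ (Λ : E n → J0 n →L[ℝ] ℝ) (f : E n → J0 n) (M : ℝ),
      (∀ x ∈ oB n, EllJ lam Lam (Λ x)) → IsJet (cB n) f → Bd f →
      (∀ x ∈ oB n, |Λ x (f x)| ≤ M) → ∀ x ∈ cB n, -(f x).2.2 ≤ Real.exp (2 * γ) * M := by
    intro Λ f M hΛ hf hbd hM x hx
    have hM0 : 0 ≤ M := (abs_nonneg _).trans (hM 0 (by simp [mem_oB]))
    refine le_of_forall_pos_le_add fun δ hδ => ?_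
    have hd : 0 < δ / Real.exp (2 * γ) := by positivity
    have h1 := mp0 isCompact_cB ((hbj.smul (M + δ / Real.exp (2 * γ))).add hf) (fun y hy => ?_) x hx
    · have h2 : 0 ≤ (M + δ / Real.exp (2 * γ)) * (Real.exp (2 * γ) - X x) + (f x).2.2 := h1
      have h3 : δ / Real.exp (2 * γ) * Real.exp (2 * γ) = δ := div_mul_cancel₀ _ (Real.exp_ne_zero _)
      nlinarith [mul_nonneg (add_nonneg hM0 hd.le) (zero_le_one.trans (hX1 x hx))]
    rcases (mem_cB.1 hy).eq_or_lt with h | h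
    · left
      show 0 ≤ (M + δ / Real.exp (2 * γ)) * (Real.exp (2 * γ) - X y) + (f y).2.2
      rw [hbd y (mem_sB.2 h), add_zero]
      exact mul_nonneg (add_nonneg hM0 hd.le) (sub_nonneg.2 (hX2 y hy))
    · have hy' := mem_oB.2 h
      refine Or.inr ⟨cB_mem_nhds hy', Λ y, fun m hm =>
        (mul_nonneg hlam.le (norm_nonneg _)).trans ((hΛ y hy').1 m hm), (hΛ y hy').2.2, ?_⟩
      rw [map_add, map_smul, smul_eq_mul]
      nlinarith [hL y hy _ (hΛ y hy'), (abs_le.1 (hM y hy')).2]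
  refine ⟨Real.exp (2 * γ), Real.exp_pos _, fun Λ f M hΛ hf hbd hM x hx => abs_le.2 ⟨?_, ?_⟩⟩
  · exact neg_le.1 (key Λ f M hΛ hf hbd hM x hx)
  · simpa using key Λ _ M hΛ (hf.smul (-1)) (fun y hy => by simp [hbd y hy])
      (fun y hy => by simpa using hM y hy) x hx

/-- Let `C` come from `maxp` for `lam/2`, `Lam + lam`, and `ε ≤ lam/2`, `C ε < 1`. Put
`Λ' x j = Λ x j - ε j.2.2`; it is `EllJ (lam/2) (Lam + lam)`, and `|Λ' x (f x)| ≤ ε sup |u|`.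
So `sup |u| ≤ C ε sup |u|`, `u = 0`, and `IsJet.unique` with `isJet_zero`. -/
theorem uniq0 (hn : 0 < n) {lam : ℝ} (hlam : 0 < lam) (Lam : ℝ) :
    ∃ ε : ℝ, 0 < ε ∧ ∀ (Λ₀ Λ : E n → J0 n →L[ℝ] ℝ) (f : E n → J0 n),
      (∀ x ∈ cB n, EllJ lam Lam (Λ₀ x)) → (∀ x ∈ cB n, ‖Λ x - Λ₀ x‖ ≤ ε) → IsJet (cB n) f →
      Bd f → (∀ x ∈ cB n, Λ x (f x) = 0) → ∀ x ∈ cB n, f x = 0 := by
  obtain ⟨C, hC, h⟩ := maxp hn (half_pos hlam) (Lam + lam)
  have hε : 0 < min (lam / 2) (1 / (2 * C)) := lt_min (half_pos hlam) (by positivity)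
  have hε1 : min (lam / 2) (1 / (2 * C)) ≤ lam / 2 := min_le_left _ _
  have hε2 : C * min (lam / 2) (1 / (2 * C)) ≤ 1 / 2 :=
    (mul_le_mul_of_nonneg_left (min_le_right _ _) hC.le).trans_eq (by field_simp)
  refine ⟨_, hε, fun Λ₀ Λ f h0 h1 hf hbd hz => ?_⟩
  generalize min (lam / 2) (1 / (2 * C)) = ε at hε hε1 hε2 h1
  set π : J0 n →L[ℝ] ℝ := (ContinuousLinearMap.snd ℝ (B1 n) ℝ).comp
    (ContinuousLinearMap.snd ℝ (B2 n) (B1 n × ℝ)) with hπ
  have hπ1 : ‖π‖ ≤ 1 := π.opNorm_le_bound zero_le_one fun j => by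
    rw [one_mul]; exact (norm_snd_le j.2).trans (norm_snd_le j)
  have hd : ∀ x ∈ cB n, ∀ j, |Λ x j - Λ₀ x j| ≤ ε * ‖j‖ := fun x hx j =>
    ((Λ x - Λ₀ x).le_opNorm j).trans (by gcongr; exact h1 x hx)
  obtain ⟨z, hz1, hz2⟩ := isCompact_cB.exists_isMaxOn ⟨0, zero_mem_cB⟩ hf.1.continuousOn.abs
  have h2 := h (fun x => Λ x - ε • π) f (ε * |(f z).2.2|) (fun x hx => ?_) hf hbd
    (fun x hx => ?_) z hz1
  · have h3 : |(f z).2.2| ≤ 0 := by nlinarith [abs_nonneg (f z).2.2]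
    exact fun x hx => hf.unique uniqueDiffOn_cB isJet_zero
      (fun y hy => abs_nonpos_iff.1 ((hz2 hy).trans h3)) hx
  · have hx' := oB_subset hx
    refine ⟨fun m hm => ?_, ?_, ?_⟩
    · have a1 := (abs_le.1 (hd x hx' (m, 0, 0))).1
      have a2 : ‖((m, 0, 0) : J0 n)‖ = ‖m‖ := by simp [Prod.norm_def]
      have a3 : (Λ x - ε • π) (m, 0, 0) = Λ x (m, 0, 0) := by simp [hπ]
      rw [a2] at a1
      rw [a3]
      nlinarith [(h0 x hx').1 m hm, norm_nonneg m]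
    · have a1 : ‖ε • π‖ ≤ ε := by
        rw [norm_smul, Real.norm_of_nonneg hε.le]; exact mul_le_of_le_one_right hε.le hπ1
      linarith [norm_sub_le (Λ x) (ε • π), norm_sub_norm_le (Λ x) (Λ₀ x), h1 x hx', (h0 x hx').2.1]
    · have a1 := (abs_le.1 (hd x hx' (0, 0, 1))).2
      have a2 : ‖((0, 0, 1) : J0 n)‖ = 1 := by simp [Prod.norm_def]
      have a3 : (Λ x - ε • π) (0, 0, 1) = Λ x (0, 0, 1) - ε := by simp [hπ]
      rw [a2] at a1
      rw [a3]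
      linarith [(h0 x hx').2.2]
  · have hx' := oB_subset hx
    have a3 : (Λ x - ε • π) (f x) = -(ε * (f x).2.2) := by simp [hπ, hz x hx']
    rw [a3, abs_neg, abs_mul, abs_of_pos hε]
    exact mul_le_mul_of_nonneg_left (hz2 hx') hε.le

/-- compactness of `cB n × {m | Psd m ∧ ‖m‖ = 1}` (`IsCompact.exists_forall_le'`) -/
lemma ell_of_pos {Λ : E n → J0 n →L[ℝ] ℝ} (hc : ContinuousOn Λ (cB n))
    (h : ∀ x ∈ cB n, PosJ (Λ x)) : ∃ lam Lam : ℝ, 0 < lam ∧ ∀ x ∈ cB n, EllJ lam Lam (Λ x) := by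
  have := FiniteDimensional.proper_real (B2 n)
  have ev : ∀ v w : E n, Continuous fun m : B2 n => m v w := fun v w => by fun_prop
  have hK : IsCompact {m : B2 n | Psd m ∧ ‖m‖ = 1} := by
    refine (isCompact_closedBall (0 : B2 n) 1).of_isClosed_subset
      (IsClosed.and (IsClosed.and ?_ ?_) (isClosed_eq continuous_norm continuous_const))
      fun m hm => mem_closedBall_zero_iff.2 hm.2.le
    · simp only [Sym, ofPred_forall]
      exact isClosed_iInter fun v => isClosed_iInter fun w => isClosed_eq (ev v w) (ev w v)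
    · simp only [ofPred_forall]
      exact isClosed_iInter fun v => isClosed_le continuous_const (ev v v)
  obtain ⟨lam, h0, h1⟩ := (isCompact_cB.prod hK).exists_forall_le'
    (f := fun z : E n × B2 n => Λ z.1 (z.2, 0, 0)) (a := 0)
    ((hc.comp continuousOn_fst fun z hz => hz.1).clm_apply (by fun_prop))
    fun z hz => (h z.1 hz.1).1 z.2 hz.2.1 (norm_ne_zero_iff.1 (hz.2.2.trans_ne one_ne_zero))
  obtain ⟨Lam, h2⟩ := isCompact_cB.exists_bound_of_continuousOn hc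
  refine ⟨lam, Lam, h0, fun x hx => ⟨fun m hm => ?_, h2 x hx, (h x hx).2⟩⟩
  by_cases e : m = 0
  · subst e
    have h6 : Λ x (0, 0, 0) = 0 := map_zero _
    rw [h6, norm_zero, mul_zero]
  have h3 : 0 < ‖m‖ := norm_pos_iff.2 e
  have h4 : lam ≤ Λ x (‖m‖⁻¹ • m, 0, 0) := h1 (x, ‖m‖⁻¹ • m) ⟨hx, ⟨fun v w => by simp [hm.1 v w],
    fun v => mul_nonneg (inv_nonneg.2 h3.le) (hm.2 v)⟩, norm_smul_inv_norm e⟩
  have h5 : Λ x (‖m‖⁻¹ • m, 0, 0) = ‖m‖⁻¹ * Λ x (m, 0, 0) := by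
    rw [← smul_eq_mul, ← map_smul]; simp
  rwa [h5, ← div_eq_inv_mul, le_div_iff₀ h3] at h4

end Pool.Agent.Mink.B
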