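import Pool.Agent.Lib.MP_88c759_an.Mink.BH

/-! Composition operators on the Hölder space. -/

set_option maxSynthPendingDepth 3

namespace Pool.Agent.Mink.B

open scoped ContDiff Topology
open Set Filter

variable {n : ℕ} {β : ℝ} {V W : Type} [NormedAddCommGroup V] [NormedSpace ℝ V]
  [FiniteDimensional ℝ V] [NormedAddCommGroup W] [NormedSpace ℝ W]

lemma bnem_bound {G : V → W} (hG : ContDiff ℝ 1 G) (R : ℝ) :
    ∃ M : ℝ, 0 ≤ M ∧ (∀ a : V, ‖a‖ ≤ R → ‖G a‖ ≤ M) ∧ (∀ a : V, ‖a‖ ≤ R → ‖fderiv ℝ G a‖ ≤ M) ∧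
      ∀ a b : V, ‖a‖ ≤ R → ‖b‖ ≤ R → ‖G a - G b‖ ≤ M * ‖a - b‖ := by
  have := FiniteDimensional.proper_real V
  obtain ⟨M₁, h₁⟩ := (isCompact_closedBall (0 : V) R).exists_bound_of_continuousOn
    hG.continuous.continuousOn
  obtain ⟨M₂, h₂⟩ := (isCompact_closedBall (0 : V) R).exists_bound_of_continuousOn
    (hG.continuous_fderiv one_ne_zero).continuousOn
  have h₃ : ∀ a ∈ Metric.closedBall (0 : V) R, ‖fderiv ℝ G a‖ ≤ max 0 (max M₁ M₂) :=
    fun a ha => (h₂ a ha).trans ((le_max_right _ _).trans (le_max_right _ _))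
  refine ⟨max 0 (max M₁ M₂), le_max_left _ _, fun a ha =>
    (h₁ a (mem_closedBall_zero_iff.2 ha)).trans ((le_max_left _ _).trans (le_max_right _ _)),
    fun a ha => h₃ a (mem_closedBall_zero_iff.2 ha), fun a b ha hb => ?_⟩
  exact (convex_closedBall (0 : V) R).norm_image_sub_le_of_norm_fderiv_le
    (fun x _ => hG.differentiable one_ne_zero x) h₃ (mem_closedBall_zero_iff.2 hb)
    (mem_closedBall_zero_iff.2 ha)

omit [FiniteDimensional ℝ V] in
lemma bnem_line {G : V → W} (hG : Differentiable ℝ G) (a v : V) (t : ℝ) :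
    HasDerivAt (fun s : ℝ => G (a + s • v)) (fderiv ℝ G (a + t • v) v) t := by
  have h1 : HasDerivAt (fun s : ℝ => a + s • v) v t := by
    simpa using ((hasDerivAt_id t).smul_const v).const_add a
  exact (hG (a + t • v)).hasFDerivAt.comp_hasDerivAt t h1

omit [FiniteDimensional ℝ V] in
lemma bnem_seg {a a' : V} {R t : ℝ} (ha : ‖a‖ ≤ R) (ha' : ‖a'‖ ≤ R) (h0 : 0 ≤ t) (h1 : t ≤ 1) :
    ‖a' + t • (a - a')‖ ≤ R := by
  have e : a' + t • (a - a') = (1 - t) • a' + t • a := by module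
  rw [e]
  refine (norm_add_le _ _).trans ?_
  rw [norm_smul, norm_smul, Real.norm_of_nonneg h0, Real.norm_of_nonneg (by linarith)]
  nlinarith

omit [FiniteDimensional ℝ V] in
lemma bnem_four {G : V → W} (hG : Differentiable ℝ G) {R M δ η : ℝ}
    (hM : ∀ a : V, ‖a‖ ≤ R → ‖fderiv ℝ G a‖ ≤ M)
    (hη : ∀ a b : V, ‖a‖ ≤ R → ‖b‖ ≤ R → ‖a - b‖ ≤ δ → ‖fderiv ℝ G a - fderiv ℝ G b‖ ≤ η)
    {a a' b b' : V} (ha : ‖a‖ ≤ R) (ha' : ‖a'‖ ≤ R) (hb : ‖b‖ ≤ R) (hb' : ‖b'‖ ≤ R)
    (hd : ‖b - a‖ ≤ δ) (hd' : ‖b' - a'‖ ≤ δ) :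
    ‖(G b - G a) - (G b' - G a')‖ ≤ M * ‖(b - a) - (b' - a')‖ + η * ‖a - a'‖ := by
  have h := norm_image_sub_le_of_norm_deriv_le_segment_01'
    (f := fun s : ℝ => G (b' + s • (b - b')) - G (a' + s • (a - a')))
    (f' := fun t : ℝ => fderiv ℝ G (b' + t • (b - b')) (b - b') -
      fderiv ℝ G (a' + t • (a - a')) (a - a'))
    (C := M * ‖(b - a) - (b' - a')‖ + η * ‖a - a'‖)
    (fun t _ => ((bnem_line hG b' (b - b') t).sub (bnem_line hG a' (a - a') t)).hasDerivWithinAt)
    (fun t ht => by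
      have e : fderiv ℝ G (b' + t • (b - b')) (b - b') - fderiv ℝ G (a' + t • (a - a')) (a - a') =
          fderiv ℝ G (b' + t • (b - b')) ((b - a) - (b' - a')) +
            (fderiv ℝ G (b' + t • (b - b')) - fderiv ℝ G (a' + t • (a - a'))) (a - a') := by
        simp only [map_sub, _root_.sub_apply]
        abel
      have s1 := bnem_seg hb hb' ht.1 ht.2.le
      have s2 := bnem_seg ha ha' ht.1 ht.2.le
      have s3 : ‖(b' + t • (b - b')) - (a' + t • (a - a'))‖ ≤ δ := by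
        have e' : (b' + t • (b - b')) - (a' + t • (a - a')) =
            (b' - a') + t • ((b - a) - (b' - a')) := by module
        rw [e']
        exact bnem_seg hd hd' ht.1 ht.2.le
      rw [e]
      refine (norm_add_le _ _).trans (add_le_add ?_ ?_)
      · exact (ContinuousLinearMap.le_opNorm _ _).trans
          (mul_le_mul_of_nonneg_right (hM _ s1) (norm_nonneg _))
      · exact (ContinuousLinearMap.le_opNorm _ _).trans
          (mul_le_mul_of_nonneg_right (hη _ _ s1 s2 s3) (norm_nonneg _)))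
  simpa using h

/-- `G` and `fderiv G` are bounded on the compact convex ball of radius `C`; mean value
inequality `Convex.norm_image_sub_le_of_norm_fderiv_le`. -/
lemma Hol.comp {G : V → W} (hG : ContDiff ℝ 1 G) {f : E n → V} (hf : Hol β f) :
    Hol β fun x => G (f x) := by
  obtain ⟨C, h1, h2⟩ := hf
  obtain ⟨M, hM, hb, -, hl⟩ := bnem_bound hG C
  refine hol_of (C' := M * C) (fun x hx => hb _ (h1 x hx)) fun x hx y hy => ?_
  refine (hl _ _ (h1 x hx) (h1 y hy)).trans ?_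
  rw [mul_assoc]
  exact mul_le_mul_of_nonneg_left (h2 x hx y hy) hM

open Classical in
/-- the composition operator `f ↦ G ∘ f` -/
noncomputable def nem (G : V → W) (f : H n β V) : H n β W :=
  if h : Hol β (fun x => G (f x)) then H.mk _ h else 0

lemma nem_apply {G : V → W} (hG : ContDiff ℝ 1 G) (f : H n β V) (x : E n) :
    nem G f x = G (f x) := by
  rw [nem, dif_pos (f.hol.comp hG), H.mk_apply', H.apply_proj]

/-- Fix `f`, let `‖g - f‖ ≤ δ ≤ 1`. Sup part: Lipschitz bound of `G` on the ball of radius `‖f‖+1`.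
Hölder part: one-dimensional mean value inequality for
`t ↦ G (g y + t (g x - g y)) - G (f y + t (f x - f y))` on `[0,1]`, whose derivative
`DG(b_t)(Δg) - DG(a_t)(Δf) = DG(b_t)(Δg - Δf) + (DG(b_t) - DG(a_t))(Δf)` has norm at most
`(M δ + ω(δ) ‖f‖) ‖x-y‖^β`, `ω` the modulus of uniform continuity of `DG` on that ball. -/
lemma continuous_nem {G : V → W} (hG : ContDiff ℝ 1 G) :
    Continuous (nem G : H n β V → H n β W) := by
  have := FiniteDimensional.proper_real V
  refine continuous_iff_continuousAt.2 fun f => Metric.continuousAt_iff.2 fun ε hε => ?_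
  obtain ⟨M, hM, -, hD, hl⟩ := bnem_bound hG (‖f‖ + 1)
  have huc := (isCompact_closedBall (0 : V) (‖f‖ + 1)).uniformContinuousOn_of_continuous
    (hG.continuous_fderiv one_ne_zero).continuousOn
  have hf0 := norm_nonneg f
  obtain ⟨δ₁, hδ₁, hu⟩ := Metric.uniformContinuousOn_iff_le.1 huc (ε / (2 * (‖f‖ + 1)))
    (by positivity)
  refine ⟨min 1 (min δ₁ (ε / (2 * (M + 1)))), by positivity, fun g hg => ?_⟩
  rw [dist_eq_norm] at hg ⊢
  have g1 : ‖g - f‖ ≤ 1 := (hg.trans_le (min_le_left _ _)).le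
  have g2 : ‖g - f‖ ≤ δ₁ := (hg.trans_le ((min_le_right _ _).trans (min_le_left _ _))).le
  have g3 : ‖g - f‖ ≤ ε / (2 * (M + 1)) :=
    (hg.trans_le ((min_le_right _ _).trans (min_le_right _ _))).le
  have bf : ∀ x, ‖f x‖ ≤ ‖f‖ + 1 := fun x => (f.norm_apply_le x).trans (by linarith)
  have bd : ∀ x, ‖g x - f x‖ ≤ ‖g - f‖ := fun x => (g - f).norm_apply_le x
  have bg : ∀ x, ‖g x‖ ≤ ‖f‖ + 1 := fun x => by
    have h1 := norm_add_le (g x - f x) (f x)
    rw [sub_add_cancel] at h1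
    linarith [bd x, f.norm_apply_le x]
  have k1 : M * ‖g - f‖ < ε / 2 := by
    calc M * ‖g - f‖ ≤ M * (ε / (2 * (M + 1))) := mul_le_mul_of_nonneg_left g3 hM
      _ < (M + 1) * (ε / (2 * (M + 1))) := mul_lt_mul_of_pos_right (by linarith) (by positivity)
      _ = ε / 2 := by field_simp
  have k2 : ε / (2 * (‖f‖ + 1)) * ‖f‖ ≤ ε / 2 := by
    calc ε / (2 * (‖f‖ + 1)) * ‖f‖ ≤ ε / (2 * (‖f‖ + 1)) * (‖f‖ + 1) :=
          mul_le_mul_of_nonneg_left (by linarith) (by positivity)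
      _ = ε / 2 := by field_simp
  have k3 : 0 ≤ ε / (2 * (‖f‖ + 1)) * ‖f‖ := by positivity
  refine lt_of_le_of_lt (H.norm_le (C := M * ‖g - f‖ + ε / (2 * (‖f‖ + 1)) * ‖f‖)
    ⟨fun x _ => ?_, fun x hx y hy => ?_⟩) (by linarith)
  · rw [H.sub_apply, nem_apply hG, nem_apply hG]
    have := (hl _ _ (bg x) (bf x)).trans (mul_le_mul_of_nonneg_left (bd x) hM)
    linarith
  · rw [H.sub_apply, H.sub_apply, nem_apply hG, nem_apply hG, nem_apply hG, nem_apply hG]
    refine (bnem_four (hG.differentiable one_ne_zero) hD (δ := δ₁) (η := ε / (2 * (‖f‖ + 1)))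
      (fun a b ha hb hab => ?_) (bf x) (bf y) (bg x) (bg y) ((bd x).trans g2)
      ((bd y).trans g2)).trans ?_
    · rw [← dist_eq_norm] at hab ⊢
      exact hu a (mem_closedBall_zero_iff.2 ha) b (mem_closedBall_zero_iff.2 hb) hab
    · have a1 : ‖(g x - f x) - (g y - f y)‖ ≤ ‖g - f‖ * ‖x - y‖ ^ β := (g - f).holC.2 x hx y hy
      have a2 : ‖f x - f y‖ ≤ ‖f‖ * ‖x - y‖ ^ β := f.holC.2 x hx y hy
      rw [add_mul, mul_assoc, mul_assoc]
      exact add_le_add (mul_le_mul_of_nonneg_left a1 hM)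
        (mul_le_mul_of_nonneg_left a2 (by positivity))

/-- Remainder `R = nem G (f+g) - nem G f - app (nem DG f) g`. For a continuous linear
`Λ : H n β W →L W` of the form `ev x` or `ev x - ev y`, the function
`t ↦ Λ (nem G (f + t g) - t • app (nem DG f) g)` has derivative `Λ B_t`,
`B_t = app (nem DG (f + t g) - nem DG f) g`, and `‖B_t‖ ≤ 2 ε ‖g‖` by `continuous_nem` for `DG`
and `H.norm_app_le`. The one-dimensional mean value inequality gives `HolC β (2 ε ‖g‖) R`. -/
lemma hasFDerivAt_nem {G : V → W} (hG : ContDiff ℝ 2 G) (f : H n β V) :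
    HasFDerivAt (nem G : H n β V → H n β W) (H.app (nem (fderiv ℝ G) f)) f := by
  have hG1 : ContDiff ℝ 1 G := hG.of_le (by norm_num)
  have hD : ContDiff ℝ 1 (fderiv ℝ G) := hG.fderiv_right (by norm_num)
  rw [hasFDerivAt_iff_isLittleO_nhds_zero, Asymptotics.isLittleO_iff]
  intro c hc
  obtain ⟨δ, hδ, hcont⟩ := Metric.continuousAt_iff.1
    ((continuous_nem (n := n) (β := β) hD).continuousAt (x := f)) (c / 2) (by positivity)
  filter_upwards [Metric.ball_mem_nhds (0 : H n β V) hδ] with g hg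
  rw [mem_ball_zero_iff] at hg
  have hB : ∀ t ∈ Ico (0 : ℝ) 1,
      ‖H.app (nem (fderiv ℝ G) (f + t • g) - nem (fderiv ℝ G) f) g‖ ≤ c * ‖g‖ := by
    intro t ht
    have h1 : dist (f + t • g) f < δ := by
      rw [dist_eq_norm, add_sub_cancel_left, norm_smul, Real.norm_of_nonneg ht.1]
      exact (mul_le_of_le_one_left (norm_nonneg _) ht.2.le).trans_lt hg
    have h2 := hcont h1
    rw [dist_eq_norm] at h2
    refine (H.norm_app_le _ _).trans (mul_le_mul_of_nonneg_right (by linarith) (norm_nonneg _))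
  have hd : ∀ (x : E n) (t : ℝ),
      HasDerivAt (fun s : ℝ => G (f x + s • g x) - s • fderiv ℝ G (f x) (g x))
        (H.app (nem (fderiv ℝ G) (f + t • g) - nem (fderiv ℝ G) f) g x) t := by
    intro x t
    have h1 := (bnem_line (hG1.differentiable one_ne_zero) (f x) (g x) t).sub
      ((hasDerivAt_id t).smul_const (fderiv ℝ G (f x) (g x)))
    rw [H.app_apply, H.sub_apply, nem_apply hD, nem_apply hD, H.add_apply, H.smul_apply,
      _root_.sub_apply]
    rw [one_smul] at h1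
    exact h1
  have hv : ∀ x : E n, (nem G (f + g) - nem G f - H.app (nem (fderiv ℝ G) f) g) x =
      (G (f x + (1 : ℝ) • g x) - (1 : ℝ) • fderiv ℝ G (f x) (g x)) -
        (G (f x + (0 : ℝ) • g x) - (0 : ℝ) • fderiv ℝ G (f x) (g x)) := by
    intro x
    rw [H.sub_apply, H.sub_apply, nem_apply hG1, nem_apply hG1, H.app_apply, nem_apply hD,
      H.add_apply, one_smul, one_smul, zero_smul, zero_smul, add_zero, sub_zero]
    abel
  refine H.norm_le ⟨fun x _ => ?_, fun x hx y hy => ?_⟩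
  · rw [hv]
    exact norm_image_sub_le_of_norm_deriv_le_segment_01' (fun t _ => (hd x t).hasDerivWithinAt)
      fun t ht => (H.norm_apply_le _ x).trans (hB t ht)
  · rw [hv, hv, sub_sub_sub_comm]
    exact norm_image_sub_le_of_norm_deriv_le_segment_01'
      (fun t _ => ((hd x t).sub (hd y t)).hasDerivWithinAt)
      fun t ht => ((H.holC _).2 x hx y hy).trans
        (mul_le_mul_of_nonneg_right (hB t ht) (by positivity))

/-- Induction on `m` generalizing `W`; `contDiff_succ_iff_hasFDerivAt`. -/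
theorem contDiff_nem (m : ℕ) {G : V → W} (hG : ContDiff ℝ (m + 1 : ℕ) G) :
    ContDiff ℝ m (nem G : H n β V → H n β W) := by
  induction m generalizing W with
  | zero => exact contDiff_zero.2 (continuous_nem (by simpa using hG))
  | succ m ih =>
    have h2 : ContDiff ℝ 2 G := hG.of_le (by norm_cast; omega)
    have hD : ContDiff ℝ (m + 1 : ℕ) (fderiv ℝ G) := hG.fderiv_right (by norm_cast)
    have := contDiff_succ_iff_hasFDerivAt (𝕜 := ℝ) (n := m)
      (f := (nem G : H n β V → H n β W))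
    push_cast
    exact this.2 ⟨fun f => H.app (nem (fderiv ℝ G) f),
      (H.app : H n β (V →L[ℝ] W) →L[ℝ] H n β V →L[ℝ] H n β W).contDiff.comp (ih hD),
      hasFDerivAt_nem h2⟩

end Pool.Agent.Mink.B
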