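import Pool.Agent.Lib.MP_88c759_an.Mink.BSchB

/-! The Schauder estimate and the a priori bound for linear equations. -/

set_option maxSynthPendingDepth 3

namespace Pool.Agent.Mink.B

open scoped ContDiff Topology
open Set Filter

variable {n : ℕ} {β : ℝ}

lemma bsch_tendsto : Tendsto (fun i : ℕ => 1 / ((i : ℝ) + 1))
    (Ultrafilter.of (atTop : Filter ℕ)) (𝓝 0) :=
  tendsto_one_div_add_atTop_nhds_zero_nat.mono_left (Ultrafilter.of_le _)

lemma bsch_smul {V : Type} [NormedAddCommGroup V] [NormedSpace ℝ V] {C c : ℝ} {S : Set (E n)}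
    {f : E n → V} (h : HS β C S f) (hc : 0 ≤ c) : HS β (c * C) S fun x => c • f x := by
  intro x hx y hy
  rw [← smul_sub, norm_smul, Real.norm_of_nonneg hc, mul_assoc]
  exact mul_le_mul_of_nonneg_left (h x hx y hy) hc

lemma bsch_least {V : Type} [NormedAddCommGroup V] {C : ℝ} {S : Set (E n)} {f : E n → V}
    (hC : 0 ≤ C) (h : HS β C S f) : ∃ N : ℝ, HS β N S f ∧ ∀ c, 0 ≤ c → HS β c S f → N ≤ c := by
  have hne : ({c | 0 ≤ c ∧ HS β c S f} : Set ℝ).Nonempty := ⟨C, hC, h⟩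
  refine ⟨sInf {c | 0 ≤ c ∧ HS β c S f}, fun x hx y hy => ?_,
    fun c h1 h2 => csInf_le ⟨0, fun _ h => h.1⟩ ⟨h1, h2⟩⟩
  rcases (Real.rpow_nonneg (norm_nonneg (x - y)) β).eq_or_lt with e | e
  · have h1 := h x hx y hy
    rw [← e, mul_zero] at h1 ⊢
    exact h1
  · rw [← div_le_iff₀ e]
    exact le_csInf hne fun c hc => (div_le_iff₀ e).2 (hc.2 x hx y hy)

/-- Base points `b i = x i`; every `z` lies eventually in `rB (x i) (ρ i)`, so the limit set is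
everything; `blow_common`, `liou3`. -/
theorem no_bad_int (h0 : 0 < β) (h1 : β < 1) {lam Lam : ℝ} (hlam : 0 < lam) {I : Type}
    (u : Ultrafilter I) {ε : I → ℝ} {l : I → E n → B2 n →L[ℝ] ℝ} {f : I → E n → J0 n}
    {x y : I → E n} (hε : Tendsto ε u (𝓝 0))
    (hb : ∀ i, Bad β lam Lam (ε i) (l i) (f i) (x i) (y i))
    (hR : ∀ R : ℝ, ∀ᶠ i in u, R * ‖x i - y i‖ < 1 - ‖x i‖) : False := by
  have hS : (univ : Set (E n)) = limSet u fun i => rB (x i) ‖x i - y i‖ := by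
    refine (eq_univ_of_forall fun z => ?_).symm
    refine ⟨fun _ => z, ?_, tendsto_const_nhds⟩
    filter_upwards [hR ‖z‖] with i hi
    change x i + ‖x i - y i‖ • z ∈ cB n
    have h2 := norm_add_le (x i) (‖x i - y i‖ • z)
    rw [norm_smul, norm_norm, mul_comm] at h2
    rw [mem_cB]
    linarith
  obtain ⟨g, L, a, a', hL, hT, he, -, -, hne, -⟩ := blow_common h0 hlam u hε hb
    (fun i => (hb i).hx) (R := 0) (Eventually.of_forall fun i => by simp) hS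
  exact hne (liou3 h0 h1 hL (hT.isJet h0) hT.hs (fun z => he z trivial) a a')

/-- Otherwise choose counterexamples for `ε = 1/(i+1)`, `u = hyperfilter ℕ` or
`Ultrafilter.of atTop`; `Ultrafilter.eventually_not` gives the dichotomy. -/
theorem no_bad (h0 : 0 < β) (h1 : β < 1) {lam : ℝ} (hlam : 0 < lam) (Lam : ℝ) :
    ∃ ε : ℝ, 0 < ε ∧ ∀ (l : E n → B2 n →L[ℝ] ℝ) (f : E n → J0 n) (x y : E n),
      ¬ Bad β lam Lam ε l f x y := by
  by_contra hcon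
  have h : ∀ i : ℕ, ∃ (l : E n → B2 n →L[ℝ] ℝ) (f : E n → J0 n) (x y : E n),
      Bad β lam Lam (1 / ((i : ℝ) + 1)) l f x y := by
    intro i
    by_contra h
    exact hcon ⟨_, Nat.one_div_pos_of_nat, fun l f x y hb => h ⟨l, f, x, y, hb⟩⟩
  choose l f x y hb using h
  by_cases hR : ∃ R : ℝ, ∀ᶠ i in (Ultrafilter.of (atTop : Filter ℕ) : Filter ℕ),
      1 - ‖x i‖ ≤ R * ‖x i - y i‖
  · obtain ⟨R, hR⟩ := hR
    exact no_bad_bdry h0 h1 hlam _ bsch_tendsto hb hR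
  · refine no_bad_int h0 h1 hlam _ bsch_tendsto hb fun R => ?_
    exact (Ultrafilter.eventually_not.2 fun h => hR ⟨R, h⟩).mono fun i hi => not_le.1 hi

/-- `C = 1/ε`. Let `N₀` be the least Hölder constant of the top component (an `sInf`, or the `sSup`
of the quotients). If `N₀ > M/ε`, normalise `f` by `N₀⁻¹` and pick a pair at which the constant
`N₀/2` fails. -/
theorem schauder (h0 : 0 < β) (h1 : β < 1) {lam : ℝ} (hlam : 0 < lam) (Lam : ℝ) :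
    ∃ C : ℝ, 0 < C ∧ ∀ (l : E n → B2 n →L[ℝ] ℝ) (f : E n → J0 n) (M : ℝ), HolC β Lam l →
      (∀ z ∈ cB n, ∀ m, Psd m → lam * ‖m‖ ≤ l z m) → IsJet (cB n) f → Bd f → Hol β f →
      (∀ z ∈ cB n, ‖f z‖ ≤ M) → HS β M (cB n) (fun z => l z (f z).1) →
      HS β (C * M) (cB n) fun z => (f z).1 := by
  obtain ⟨ε, hε, hno⟩ := no_bad (n := n) h0 h1 hlam Lam
  refine ⟨ε⁻¹, inv_pos.2 hε, fun l f M hl hell hf hbd hh hM hr => ?_⟩
  have hM0 : 0 ≤ M := (norm_nonneg _).trans (hM 0 zero_mem_cB)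
  obtain ⟨C, hC⟩ := hh
  have hC1 : HS β C (cB n) fun z => (f z).1 := fun x hx y hy =>
    (norm_fst_le (f x - f y)).trans (hC.2 x hx y hy)
  obtain ⟨N, hN, hmin⟩ := bsch_least hC.nonneg hC1
  by_contra hcon
  have h2 : ε⁻¹ * M < N := not_le.1 fun h => hcon (hN.mono h)
  have hN0 : 0 < N := lt_of_le_of_lt (by positivity) h2
  have hi : 0 ≤ N⁻¹ := (inv_pos.2 hN0).le
  have h3 : N⁻¹ * M ≤ ε := by
    rw [inv_mul_le_iff₀ hN0, mul_comm]
    exact ((inv_mul_lt_iff₀ hε).1 h2).le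
  have h4 : ∃ x ∈ cB n, ∃ y ∈ cB n, N / 2 * ‖x - y‖ ^ β < ‖(f x).1 - (f y).1‖ := by
    by_contra h
    have h5 := hmin (N / 2) (by positivity) fun x hx y hy => not_lt.1 fun h' => h ⟨x, hx, y, hy, h'⟩
    linarith
  obtain ⟨x, hx, y, hy, h4⟩ := h4
  refine hno l (fun z => N⁻¹ • f z) x y ⟨hl, hell, hf.smul _, fun z hz => ?_, ?_, fun z hz => ?_, ?_,
    hx, hy, ?_, ?_⟩
  · simp [hbd z hz]
  · have h5 := bsch_smul hN hi
    rw [inv_mul_cancel₀ hN0.ne'] at h5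
    exact h5
  · rw [norm_smul, Real.norm_of_nonneg hi]
    exact (mul_le_mul_of_nonneg_left (hM z hz) hi).trans h3
  · have h5 := (bsch_smul hr hi).mono h3
    intro a ha b hb
    have h6 := h5 a ha b hb
    simpa only [Prod.smul_fst, map_smul] using h6
  · rintro rfl
    rw [sub_self (f x).1, norm_zero] at h4
    exact absurd h4 (not_lt.2 (by positivity))
  · change _ ≤ 2 * ‖N⁻¹ • (f x).1 - N⁻¹ • (f y).1‖
    rw [← smul_sub, norm_smul, Real.norm_of_nonneg hi, mul_left_comm, le_inv_mul_iff₀ hN0]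
    linarith

/-- By contradiction: `jlim` gives a limit jet with zero values, which vanishes
(`IsJet.unique`); take also the limit of the bad points. -/
theorem interp (h0 : 0 < β) {ε : ℝ} (hε : 0 < ε) : ∃ δ : ℝ, 0 < δ ∧ ∀ f : E n → J0 n,
    IsJet (cB n) f → HolC β 1 f → (∀ x ∈ cB n, |(f x).2.2| ≤ δ) → ∀ x ∈ cB n, ‖f x‖ ≤ ε := by
  by_contra hcon
  have h : ∀ i : ℕ, ∃ (f : E n → J0 n) (x : E n), IsJet (cB n) f ∧ HolC β 1 f ∧
      (∀ x ∈ cB n, |(f x).2.2| ≤ 1 / ((i : ℝ) + 1)) ∧ x ∈ cB n ∧ ε < ‖f x‖ := by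
    intro i
    by_contra h
    exact hcon ⟨_, Nat.one_div_pos_of_nat, fun f h1 h2 h3 x hx =>
      not_lt.1 fun h4 => h ⟨f, x, h1, h2, h3, hx, h4⟩⟩
  choose f x h1 h2 h3 hx h4 using h
  obtain ⟨g, hg, -, hlim⟩ := jlim h0 (Ultrafilter.of (atTop : Filter ℕ))
    (Eventually.of_forall fun i => ⟨h1 i, h2 i⟩)
  obtain ⟨z, hz⟩ := ulim (Ultrafilter.of (atTop : Filter ℕ))
    (Eventually.of_forall fun i => mem_cB.1 (hx i))
  have hzm : z ∈ cB n := isCompact_cB.isClosed.mem_of_tendsto hz (Eventually.of_forall hx)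
  have hg0 : g z = 0 := by
    refine hg.unique uniqueDiffOn_cB isJet_zero (fun y hy => ?_) hzm
    have h5 := (hlim y hy).snd_nhds.snd_nhds.abs
    exact abs_nonpos_iff.1 (le_of_tendsto_of_tendsto' h5 bsch_tendsto fun i => h3 i y hy)
  have h5 := (hlim z hzm).norm
  rw [hg0, norm_zero] at h5
  have h6 := (tendsto_iff_norm_sub_tendsto_zero.1 hz).rpow_const (p := β) (Or.inr h0.le)
  rw [Real.zero_rpow h0.ne'] at h6
  have h7 := h6.add h5
  rw [add_zero] at h7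
  refine absurd (ge_of_tendsto' h7 fun i => ?_) (not_le.2 hε)
  have h8 := (h2 i).2 _ (hx i) z hzm
  have h9 := norm_sub_norm_le (f i (x i)) (f i z)
  have h10 := h4 i
  linarith

lemma bsch_hol {Lam : ℝ} (Λ : H n β (J0 n →L[ℝ] ℝ)) (hΛ : ‖Λ‖ ≤ Lam) :
    HolC β Lam fun x => (Λ x).comp (ContinuousLinearMap.inl ℝ (B2 n) (B1 n × ℝ)) := by
  have h : ∀ a : J0 n →L[ℝ] ℝ, ‖a.comp (ContinuousLinearMap.inl ℝ (B2 n) (B1 n × ℝ))‖ ≤ ‖a‖ :=
    fun a => ContinuousLinearMap.opNorm_le_bound _ (norm_nonneg _) fun m =>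
      (a.le_opNorm _).trans_eq (by simp)
  refine HolC.mono ⟨fun x _ => (h _).trans (Λ.norm_apply_le x), fun x hx y hy => ?_⟩ hΛ
  rw [← ContinuousLinearMap.sub_comp]
  exact (h _).trans (Λ.holC.2 x hx y hy)

lemma bsch_rhs {Lam η D : ℝ} {Λ : E n → J0 n →L[ℝ] ℝ} {f : E n → J0 n} (hΛ : HolC β Lam Λ)
    (hη : HS β η (cB n) fun x => Λ x (f x)) (hD : HolC β D fun x => ((0, (f x).2) : J0 n)) :
    HS β (η + 2 * Lam * D) (cB n)
      fun x => (Λ x).comp (ContinuousLinearMap.inl ℝ (B2 n) (B1 n × ℝ)) (f x).1 := by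
  have h1 := H.holC_bil (ContinuousLinearMap.id ℝ (J0 n →L[ℝ] ℝ)) hΛ hD
  have h2 : 2 * ‖ContinuousLinearMap.id ℝ (J0 n →L[ℝ] ℝ)‖ * Lam * D ≤ 2 * 1 * Lam * D := by
    have := hΛ.nonneg
    have := hD.nonneg
    gcongr
    exact ContinuousLinearMap.norm_id_le
  rw [mul_one] at h2
  have h3 : ∀ x, (Λ x).comp (ContinuousLinearMap.inl ℝ (B2 n) (B1 n × ℝ)) (f x).1 =
      Λ x (f x) - Λ x (0, (f x).2) := by
    intro x
    rw [← map_sub]
    exact congrArg (Λ x) (Prod.ext (sub_zero _).symm (sub_self _).symm)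
  intro x hx y hy
  have h4 := (h1.mono h2).2 x hx y hy
  have h5 := hη x hx y hy
  simp only [ContinuousLinearMap.id_apply] at h4
  simp only [h3]
  rw [sub_sub_sub_comm, add_mul]
  exact (norm_sub_le _ _).trans (add_le_add h5 h4)

/-- Normalise `‖w‖ = 1`, `η = ‖opL Λ w‖`. `maxp`: `|u| ≤ C₁ η`. If `C₁ η ≤ δ` then
`sup ‖w x‖ ≤ ε` (`interp`). With `l x = Λ x ∘ inl`, `l r = Λ w - Λ (0, p, u)` has Hölder constant
`η + 4 Lam ε` (`IsJet.holC_low`, `H.holC_bil`), so `schauder` and `IsJet.holC` give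
`1 ≤ 2 ε + C₂ (η + 4 Lam ε + ε)`; choose `ε` small. -/
theorem apriori (hn : 0 < n) (h0 : 0 < β) (h1 : β < 1) {lam : ℝ} (hlam : 0 < lam) (Lam : ℝ) :
    ∃ C : ℝ, 0 < C ∧ ∀ Λ : H n β (J0 n →L[ℝ] ℝ), ‖Λ‖ ≤ Lam → (∀ x ∈ cB n, EllJ lam Lam (Λ x)) →
      ∀ w : X n β, ‖w‖ ≤ C * ‖opL Λ w‖ := by
  obtain ⟨C₁, hC₁, hmax⟩ := maxp hn hlam Lam
  obtain ⟨C₂, hC₂, hsch⟩ := schauder (n := n) h0 h1 hlam Lam
  obtain ⟨ε, hε, hεs⟩ : ∃ ε : ℝ, 0 < ε ∧ ε * (2 + C₂ * (4 * |Lam| + 1)) = 1 / 2 :=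
    ⟨1 / 2 / (2 + C₂ * (4 * |Lam| + 1)), by positivity, div_mul_cancel₀ _ (by positivity)⟩
  obtain ⟨δ, hδ, hint⟩ := interp (n := n) h0 hε
  refine ⟨C₁ / δ + 2 * C₂, by positivity, fun Λ hΛ hell => ?_⟩
  have hL0 : 0 ≤ Lam := (norm_nonneg _).trans hΛ
  rw [abs_of_nonneg hL0] at hεs
  have key : ∀ w : X n β, ‖w‖ = 1 → 1 ≤ (C₁ / δ + 2 * C₂) * ‖opL Λ w‖ := by
    intro w hw
    have hη := norm_nonneg (opL Λ w)
    have hw1 : ‖(w : H n β (J0 n))‖ = 1 := hw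
    have hj : IsJet (cB n) (w : H n β (J0 n)) := w.2.1
    have hb : Bd (w : H n β (J0 n)) := w.2.2
    have hop : HolC β ‖opL Λ w‖ fun x => Λ x ((w : H n β (J0 n)) x) := by
      simpa only [← opL_apply] using (opL Λ w).holC
    have h2 := hmax Λ _ _ (fun x hx => hell x (oB_subset hx)) hj hb
      fun x hx => hop.1 x (oB_subset hx)
    by_cases hc : C₁ * ‖opL Λ w‖ ≤ δ
    · have h3 := hint _ hj (hw1 ▸ (w : H n β (J0 n)).holC) fun x hx => (h2 x hx).trans hc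
      have h4 := bsch_rhs (Λ.holC.mono hΛ) hop.2 (hj.holC_low h0.le h1.le h3)
      have h5 := hsch _ _ (‖opL Λ w‖ + 2 * Lam * (2 * ε) + ε) (bsch_hol Λ hΛ)
        (fun z hz m hm => (hell z hz).1 m hm) hj hb (w : H n β (J0 n)).hol
        (fun z hz => (h3 z hz).trans (le_add_of_nonneg_left (by positivity)))
        (h4.mono (le_add_of_nonneg_right hε.le))
      have h6 := H.norm_le (hj.holC h0.le h1.le h3 (by positivity) h5)
      have h7 : 0 ≤ C₁ / δ * ‖opL Λ w‖ := by positivity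
      rw [hw1] at h6
      nlinarith
    · have h3 : 1 ≤ C₁ / δ * ‖opL Λ w‖ := by
        rw [div_mul_eq_mul_div, le_div_iff₀ hδ, one_mul]
        exact (not_le.1 hc).le
      have h4 : 0 ≤ 2 * C₂ * ‖opL Λ w‖ := by positivity
      linarith [add_mul (C₁ / δ) (2 * C₂) ‖opL Λ w‖]
  intro w
  rcases (norm_nonneg w).eq_or_lt with e | e
  · rw [← e]
    positivity
  · have h2 := key (‖w‖⁻¹ • w) (by rw [norm_smul, norm_inv, norm_norm, inv_mul_cancel₀ e.ne'])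
    rw [map_smul, norm_smul, norm_inv, norm_norm, mul_left_comm, le_inv_mul_iff₀ e, mul_one] at h2
    exact h2

end Pool.Agent.Mink.B
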