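import Pool.Agent.Lib.MP_88c759_an.Mink.BPoly
import Pool.Agent.Lib.MP_88c759_an.Mink.BSch

/-! The Laplacian is onto; the linear continuity method. -/

set_option maxSynthPendingDepth 3

namespace Pool.Agent.Mink.B

open scoped ContDiff Topology
open Set Filter MeasureTheory

variable {n : ℕ} {β : ℝ}

lemma bonto_avg {K : Set (E n)} (hK : IsCompact K) {k G : E n → ℝ} (hk : Continuous k)
    (hk0 : ∀ z ∈ K, 0 ≤ k z) {M : ℝ} (hM : 0 ≤ M) (hG : ∀ z, ‖G z‖ ≤ M) :
    ‖(∫ z in K, k z)⁻¹ * ∫ z in K, k z * G z‖ ≤ M := by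
  have h0 : 0 ≤ ∫ z in K, k z := setIntegral_nonneg hK.measurableSet hk0
  have h1 : ‖∫ z in K, k z * G z‖ ≤ ∫ z in K, k z * M :=
    norm_integral_le_of_norm_le ((hk.mul continuous_const).continuousOn.integrableOn_compact hK)
      (ae_restrict_of_forall_mem hK.measurableSet fun z hz => by
        rw [norm_mul, Real.norm_of_nonneg (hk0 z hz)]
        exact mul_le_mul_of_nonneg_left (hG z) (hk0 z hz))
  rw [integral_mul_const] at h1
  rw [norm_mul, Real.norm_of_nonneg (inv_nonneg.2 h0)]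
  refine (mul_le_mul_of_nonneg_left h1 (inv_nonneg.2 h0)).trans ?_
  rw [← mul_assoc]
  exact mul_le_of_le_one_left hM (inv_mul_le_one_of_le₀ le_rfl h0)

lemma bonto_ext (h0 : 0 < β) (h1 : β < 1) (f : H n β ℝ) :
    ∃ F : E n → ℝ, Continuous F ∧ (∀ x ∈ cB n, F x = f x) ∧ (∀ y, 2 ≤ ‖y‖ → F y = 0) ∧
      (∀ y, ‖F y‖ ≤ 4 * ‖f‖) ∧ ∀ x ∈ cB n, ∀ x' ∈ cB n, ∀ z,
        ‖F (x - z) - F (x' - z)‖ ≤ 4 * ‖f‖ * ‖x - x'‖ ^ β := by
  let χ : E n → ℝ := fun y => max 0 (min 1 (2 - ‖y‖))
  have c0 : ∀ y, 0 ≤ χ y := fun y => le_max_left _ _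
  have c1 : ∀ y, χ y ≤ 1 := fun y => max_le zero_le_one (min_le_left _ _)
  have cl : ∀ a b, |χ a - χ b| ≤ ‖a - b‖ := fun a b => by
    refine (abs_max_sub_max_le_max _ _ _ _).trans (max_le (by simp) ?_)
    refine (abs_min_sub_min_le_max _ _ _ _).trans (max_le (by simp) ?_)
    rw [sub_sub_sub_cancel_left, abs_sub_comm]
    exact abs_norm_sub_norm_le a b
  have f0 := norm_nonneg f
  refine ⟨fun y => f y * χ y, (f.continuous h0).mul (by fun_prop), fun x hx => ?_, fun y hy => ?_,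
    fun y => ?_, fun x hx x' hx' z => ?_⟩
  · have := mem_cB.1 hx
    simp only [χ]
    rw [min_eq_left (by linarith), max_eq_right zero_le_one, mul_one]
  · simp only [χ]
    rw [max_eq_left ((min_le_right _ _).trans (by linarith)), mul_zero]
  · rw [norm_mul, Real.norm_of_nonneg (c0 y)]
    linarith [mul_le_of_le_one_right (norm_nonneg (f y)) (c1 y), f.norm_apply_le y]
  · have e : f (x - z) * χ (x - z) - f (x' - z) * χ (x' - z) =
        (f (x - z) - f (x' - z)) * χ (x - z) + f (x' - z) * (χ (x - z) - χ (x' - z)) := by ring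
    have a1 := f.holC.2 _ (proj_mem (x - z)) _ (proj_mem (x' - z))
    have a2 := proj_lip (x - z) (x' - z)
    have a3 := cl (x - z) (x' - z)
    rw [sub_sub_sub_cancel_right] at a2 a3
    rw [f.apply_proj, f.apply_proj] at a1
    have a4 : ‖proj (x - z) - proj (x' - z)‖ ^ β ≤ 2 * ‖x - x'‖ ^ β := by
      refine (Real.rpow_le_rpow (norm_nonneg _) a2 h0.le).trans ?_
      rw [Real.mul_rpow zero_le_two (norm_nonneg _)]
      gcongr
      exact (Real.rpow_le_rpow_of_exponent_le one_le_two h1.le).trans_eq (Real.rpow_one 2)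
    have a5 := a3.trans (norm_sub_le_rpow h0.le h1.le hx hx')
    have a6 := mul_le_mul (f.norm_apply_le (x' - z)) a5 (abs_nonneg _) f0
    have a7 := mul_le_of_le_one_right (norm_nonneg (f (x - z) - f (x' - z))) (c1 (x - z))
    have a8 := mul_le_mul_of_nonneg_left a4 f0
    rw [e]
    refine (norm_add_le _ _).trans ?_
    rw [norm_mul, norm_mul, Real.norm_of_nonneg (c0 _), Real.norm_eq_abs (χ _ - _)]
    linarith

/-- Let `F y = f y * max 0 (min 1 (2 - ‖y‖))`: it equals `f` on the ball, vanishes for `2 ≤ ‖y‖`, is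
bounded by `‖f‖` and Hölder on the whole space (`proj_lip`, `H.apply_proj`). With
`k z = 1 - ‖z‖²/9`, `c m = (∫ z in closedBall 0 3, k z ^ m)⁻¹`, and `x ∈ cB n`, the integral equals
`∫ z in closedBall 0 3, k z ^ m * F (x - z)` (`setIntegral_eq_integral_of_forall_compl_eq_zero`,
`integral_sub_left_eq_self`). This gives the bounds, and the limit is
`tendsto_setIntegral_pow_smul_of_unique_maximum_of_isCompact_of_continuousOn`. -/
lemma conv_approx (h0 : 0 < β) (h1 : β < 1) (f : H n β ℝ) :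
    ∃ (F : E n → ℝ) (c : ℕ → ℝ) (C : ℝ), Continuous F ∧
      (∀ m, HolC β C fun x => c m *
        ∫ y in Metric.closedBall (0 : E n) 2, F y * (1 - ‖x - y‖ ^ 2 / 9) ^ m) ∧
      ∀ x ∈ cB n, Tendsto (fun m => c m *
        ∫ y in Metric.closedBall (0 : E n) 2, F y * (1 - ‖x - y‖ ^ 2 / 9) ^ m) atTop (𝓝 (f x)) := by
  obtain ⟨F, hF, e1, e2, e3, e4⟩ := bonto_ext h0 h1 f
  let k : E n → ℝ := fun z => 1 - ‖z‖ ^ 2 / 9
  have hk : Continuous k := by fun_prop
  have hK := isCompact_closedBall (0 : E n) 3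
  have hk0 : ∀ z ∈ Metric.closedBall (0 : E n) 3, 0 ≤ k z := fun z hz => by
    have := mem_closedBall_zero_iff.1 hz
    simp only [k]
    nlinarith [norm_nonneg z]
  have key : ∀ m, ∀ x ∈ cB n,
      ∫ y in Metric.closedBall (0 : E n) 2, F y * (1 - ‖x - y‖ ^ 2 / 9) ^ m =
        ∫ z in Metric.closedBall (0 : E n) 3, k z ^ m * F (x - z) := by
    intro m x hx
    rw [setIntegral_eq_integral_of_forall_compl_eq_zero fun y hy => by
        rw [e2 y (not_le.1 (mem_closedBall_zero_iff.not.1 hy)).le, zero_mul],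
      setIntegral_eq_integral_of_forall_compl_eq_zero fun z hz => by
        rw [e2 (x - z), mul_zero]
        linarith [not_le.1 (mem_closedBall_zero_iff.not.1 hz), mem_cB.1 hx, norm_sub_norm_le z x,
          norm_sub_rev z x],
      ← integral_sub_left_eq_self _ volume x]
    simp only [sub_sub_cancel, k, mul_comm]
  have hi : ∀ m (x : E n), IntegrableOn (fun z => k z ^ m * F (x - z))
      (Metric.closedBall (0 : E n) 3) := fun m x =>
    Continuous.continuousOn (by fun_prop) |>.integrableOn_compact hK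
  refine ⟨F, fun m => (∫ z in Metric.closedBall (0 : E n) 3, k z ^ m)⁻¹, 4 * ‖f‖, hF,
    fun m => ⟨fun x hx => ?_, fun x hx x' hx' => ?_⟩, fun x hx => ?_⟩
  · simp only [key m x hx]
    exact bonto_avg hK (hk.pow m) (fun z hz => pow_nonneg (hk0 z hz) m) (by positivity)
      fun z => e3 _
  · simp only [key m x hx, key m x' hx']
    rw [← mul_sub, ← integral_sub (hi m x) (hi m x')]
    simp only [← mul_sub]
    exact bonto_avg hK (hk.pow m) (fun z hz => pow_nonneg (hk0 z hz) m) (by positivity)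
      (e4 x hx x' hx')
  · simp only [key _ x hx]
    have := tendsto_setIntegral_pow_smul_of_unique_maximum_of_isCompact_of_continuousOn
      (μ := volume) (x₀ := 0) (g := fun z => F (x - z)) hK hk.continuousOn (fun y _ hy => by
        have := norm_pos_iff.2 hy
        simp only [k, norm_zero]
        nlinarith) hk0 (by simp [k])
      (subset_closure (mem_interior_iff_mem_nhds.2 (Metric.closedBall_mem_nhds _ (by norm_num))))
      (Continuous.continuousOn (by fun_prop))
    rwa [sub_zero, e1 x hx] at this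

/-- `k y = nem G (H.pair (H.const y, H.mk id _))` with `G (y, x) = (1 - ‖x - y‖²/9)^m` depends
continuously on `y` (`continuous_nem`) and lies in the range (`poly_onto`). The preimages `w y` are
continuous in `y` by the bound `hC`. Take `∫ y in closedBall 0 2, F y • w y` in the complete space
`X n β` and use `ContinuousLinearMap.integral_comp_comm` for `(H.ev x).comp (opL _)`. -/
lemma conv_mem (hn : 0 < n) (h0 : 0 < β) (h1 : β < 1) {C : ℝ}
    (hC : ∀ w : X n β, ‖w‖ ≤ C * ‖opL (H.const lap) w‖) {F : E n → ℝ} (hF : Continuous F) (m : ℕ) :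
    ∃ w : X n β, ∀ x ∈ cB n, lap ((w : H n β (J0 n)) x) =
      ∫ y in Metric.closedBall (0 : E n) 2, F y * (1 - ‖x - y‖ ^ 2 / 9) ^ m := by
  haveI := completeX (n := n) h0
  let G : E n × E n → ℝ := fun p => (1 - ‖p.2 - p.1‖ ^ 2 / 9) ^ m
  have hG : ContDiff ℝ 1 G :=
    (contDiff_const.sub (((contDiff_snd.sub contDiff_fst).norm_sq ℝ).div_const 9)).pow m
  let k : E n → H n β ℝ := fun y => nem G (H.pair (H.const y, H.mk _ (hol_id h0.le h1.le)))
  have hk : Continuous k := (continuous_nem hG).comp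
    (H.pair.continuous.comp (H.const.continuous.prodMk continuous_const))
  have ek : ∀ y, ∀ x ∈ cB n, k y x = (1 - ‖x - y‖ ^ 2 / 9) ^ m := fun y x hx => by
    simp only [k, nem_apply hG, H.pair_apply, H.const_apply, H.mk_apply _ hx, G]
  have hw : ∀ y, ∃ w : X n β, opL (H.const lap) w = k y := fun y => by
    obtain ⟨w, hw⟩ := poly_onto hn h0.le h1.le ((1 - MvPolynomial.C (1 / 9) *
      ∑ i, (MvPolynomial.X i - MvPolynomial.C (y i)) ^ 2) ^ m)
    refine ⟨w, H.ext fun x hx => ?_⟩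
    rw [opL_apply, H.const_apply, hw x hx, ek y x hx, EuclideanSpace.real_norm_sq_eq]
    simp [pev, div_eq_inv_mul]
  choose w hw using hw
  have wc : Continuous w := continuous_iff_continuousAt.2 fun y => by
    refine tendsto_iff_norm_sub_tendsto_zero.2 (squeeze_zero (g := fun z => C * ‖k z - k y‖)
      (fun _ => norm_nonneg _) (fun z => ?_) ?_)
    · rw [← hw, ← hw, ← map_sub]
      exact hC _
    · have hc : Continuous fun z => C * ‖k z - k y‖ := by fun_prop
      simpa using hc.tendsto y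
  refine ⟨∫ y in Metric.closedBall (0 : E n) 2, F y • w y, fun x hx => ?_⟩
  have := ((H.ev x).comp (opL (H.const lap))).integral_comp_comm
    ((hF.smul wc).continuousOn.integrableOn_compact (μ := volume)
      (isCompact_closedBall (0 : E n) 2))
  simp only [ContinuousLinearMap.comp_apply, map_smul, Pi.smul_apply', hw, H.ev_apply, ek _ x hx,
    smul_eq_mul] at this
  rw [this, opL_apply, H.const_apply]

/-- `apriori` for `H.const lap` (`ell_of_pos`, `posJ_lap`; enlarge `Lam` to bound the norm);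
`conv_approx`, `conv_mem`, then `jlim` along an ultrafilter below `atTop`. -/
theorem onto_lap (hn : 0 < n) (h0 : 0 < β) (h1 : β < 1) :
    Function.Surjective (opL (H.const lap) : X n β →L[ℝ] H n β ℝ) := by
  obtain ⟨lam, Lam, hlam, hE⟩ := ell_of_pos (Λ := fun _ : E n => (lap : J0 n →L[ℝ] ℝ))
    continuousOn_const fun _ _ => posJ_lap
  obtain ⟨C, hC0, hC⟩ := apriori hn h0 h1 hlam ‖(H.const lap : H n β (J0 n →L[ℝ] ℝ))‖
  have hC := hC _ le_rfl fun x hx => ⟨(hE x hx).1, H.norm_apply_le _ x, (hE x hx).2.2⟩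
  intro f
  obtain ⟨F, c, C', hF, h2, h3⟩ := conv_approx h0 h1 f
  choose w hw using conv_mem hn h0 h1 hC hF
  have e : ∀ m, ∀ x ∈ cB n, opL (H.const lap) (c m • w m) x = c m *
      ∫ y in Metric.closedBall (0 : E n) 2, F y * (1 - ‖x - y‖ ^ 2 / 9) ^ m := fun m x hx => by
    rw [map_smul, H.smul_apply, opL_apply, H.const_apply, hw m x hx, smul_eq_mul]
  have hb : ∀ m, ‖c m • w m‖ ≤ C * C' := fun m =>
    (hC _).trans (mul_le_mul_of_nonneg_left (H.norm_le ⟨fun x hx => by
      rw [e m x hx]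
      exact (h2 m).1 x hx, fun x hx y hy => by
      rw [e m x hx, e m y hy]
      exact (h2 m).2 x hx y hy⟩) hC0.le)
  obtain ⟨g, g1, g2, g3⟩ := jlim h0 (Ultrafilter.of (atTop : Filter ℕ))
    (F := fun m => ((c m • w m : X n β) : H n β (J0 n))) (C := C * C')
    (.of_forall fun m => ⟨(c m • w m).2.1, (H.holC _).mono (hb m)⟩)
  refine ⟨⟨H.mk g ⟨_, g2⟩, g1.congr fun x hx => H.mk_apply _ hx, fun x hx => ?_⟩,
    H.ext fun x hx => ?_⟩
  · rw [H.mk_apply _ (sB_subset hx)]
    refine tendsto_nhds_unique ((continuous_snd.snd.tendsto _).comp (g3 x (sB_subset hx))) ?_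
    exact tendsto_const_nhds.congr fun m => ((c m • w m).2.2 x hx).symm
  · rw [opL_apply, H.const_apply]
    simp only [H.mk_apply _ hx]
    refine tendsto_nhds_unique ((lap.continuous.tendsto _).comp (g3 x hx))
      (((h3 x hx).mono_left (Ultrafilter.of_le _)).congr fun m => ?_)
    rw [← e m x hx, opL_apply, H.const_apply]
    rfl

lemma bonto_step {Y Z : Type} [NormedAddCommGroup Y] [NormedSpace ℝ Y] [CompleteSpace Y]
    [NormedAddCommGroup Z] [NormedSpace ℝ Z] [CompleteSpace Z] {L L' : Y →L[ℝ] Z} {C : ℝ}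
    (hC : 0 ≤ C) (h : ∀ w, ‖w‖ ≤ C * ‖L w‖) (hs : Function.Surjective L)
    (hL : C * ‖L - L'‖ < 1) : L.IsInvertible ∧ Function.Surjective L' := by
  let e := ContinuousLinearEquiv.ofBijective L (LinearMap.ker_eq_bot'.2 fun w hw => by
    have := h w
    rwa [show L w = 0 from hw, norm_zero, mul_zero, norm_le_zero_iff] at this)
    (LinearMap.range_eq_top.2 hs)
  have he : ∀ z, L (e.symm z) = z := e.apply_symm_apply
  refine ⟨⟨e, ContinuousLinearEquiv.coe_ofBijective _ _ _⟩, fun z => ?_⟩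
  let T : Y →L[ℝ] Y := (e.symm : Z →L[ℝ] Y).comp (L - L')
  have hT : ‖T‖ < 1 := by
    refine lt_of_le_of_lt (T.opNorm_le_bound (by positivity) fun y => ?_) hL
    refine (h _).trans ?_
    rw [mul_assoc]
    refine mul_le_mul_of_nonneg_left ?_ hC
    exact (congrArg norm (he _)).le.trans ((L - L').le_opNorm y)
  let y : Y := ((Units.oneSub T hT)⁻¹ : (Y →L[ℝ] Y)ˣ).1 (e.symm z)
  have h1 : y - e.symm (L y - L' y) = e.symm z :=
    congrArg (fun A : Y →L[ℝ] Y => A (e.symm z)) (Units.oneSub T hT).mul_inv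
  have h2 := congrArg L h1
  rw [map_sub, he, he, sub_sub_cancel] at h2
  exact ⟨y, h2⟩

/-- If `L` is onto with `‖w‖ ≤ C ‖L w‖` and `C ‖L' - L‖ < 1` then `L'` is invertible
(`ContinuousLinearEquiv.ofBijective`, Neumann series `Units.oneSub` or
`NormedRing.inverse_one_sub`). Induction on the number of steps. -/
lemma cont_method {Y Z : Type} [NormedAddCommGroup Y] [NormedSpace ℝ Y] [CompleteSpace Y]
    [NormedAddCommGroup Z] [NormedSpace ℝ Z] [CompleteSpace Z] {L₀ L₁ : Y →L[ℝ] Z} {C : ℝ}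
    (h : ∀ s ∈ Icc (0 : ℝ) 1, ∀ w, ‖w‖ ≤ C * ‖((1 - s) • L₀ + s • L₁) w‖)
    (h₀ : Function.Surjective L₀) : L₁.IsInvertible := by
  have h' : ∀ s ∈ Icc (0 : ℝ) 1, ∀ w, ‖w‖ ≤ |C| * ‖((1 - s) • L₀ + s • L₁) w‖ := fun s hs w =>
    (h s hs w).trans (mul_le_mul_of_nonneg_right (le_abs_self C) (norm_nonneg _))
  obtain ⟨N, hN⟩ := exists_nat_gt (|C| * ‖L₀ - L₁‖)
  have N0 : (0 : ℝ) < N := lt_of_le_of_lt (by positivity) hN
  have key : ∀ i : ℕ, i ≤ N →
      Function.Surjective ((1 - (i : ℝ) / N) • L₀ + ((i : ℝ) / N) • L₁ : Y →L[ℝ] Z) := by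
    intro i hi
    induction i with
    | zero => simpa using h₀
    | succ i ih =>
      have hi' : i ≤ N := Nat.le_of_succ_le hi
      refine (bonto_step (abs_nonneg C) (h' _ ⟨by positivity,
        (div_le_one N0).2 (by exact_mod_cast hi')⟩) (ih hi') ?_).2
      have e : (1 - (i : ℝ) / N) • L₀ + ((i : ℝ) / N) • L₁ -
          ((1 - ((i + 1 : ℕ) : ℝ) / N) • L₀ + (((i + 1 : ℕ) : ℝ) / N) • L₁) =
          (N : ℝ)⁻¹ • (L₀ - L₁) := by
        push_cast
        rw [add_div, one_div]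
        module
      rw [e, norm_smul, Real.norm_of_nonneg (by positivity), mul_left_comm, inv_mul_lt_one₀ N0]
      exact hN
  have h1 := key N le_rfl
  rw [div_self N0.ne'] at h1
  simpa using (bonto_step (abs_nonneg C) (h' 1 ⟨zero_le_one, le_rfl⟩) h1
    (L' := (1 - (1 : ℝ)) • L₀ + (1 : ℝ) • L₁) (by simp)).1

/-- `cont_method` with `L₀ = opL (H.const lap)`; the coefficient fields
`(1 - s) • H.const lap + s • Λ` satisfy the hypotheses of `apriori` uniformly. -/
theorem lin_inv (hn : 0 < n) (h0 : 0 < β) (h1 : β < 1) {Λ : H n β (J0 n →L[ℝ] ℝ)}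
    (h : ∀ x ∈ cB n, PosJ (Λ x)) : (opL Λ).IsInvertible := by
  haveI := completeX (n := n) h0
  obtain ⟨l₀, L₀, p₀, E₀⟩ := ell_of_pos (Λ := fun _ : E n => (lap : J0 n →L[ℝ] ℝ))
    continuousOn_const fun _ _ => posJ_lap
  obtain ⟨l₁, L₁, p₁, E₁⟩ := ell_of_pos (Λ.continuous h0).continuousOn h
  obtain ⟨C, -, hC⟩ := apriori hn h0 h1 (lt_min p₀ p₁)
    (‖(H.const lap : H n β (J0 n →L[ℝ] ℝ))‖ + ‖Λ‖)
  refine cont_method (C := C) (fun s hs => ?_) (onto_lap hn h0 h1)
  have s0 := hs.1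
  have s1 := sub_nonneg.2 hs.2
  have hb : ‖(1 - s) • (H.const lap : H n β (J0 n →L[ℝ] ℝ)) + s • Λ‖ ≤
      ‖(H.const lap : H n β (J0 n →L[ℝ] ℝ))‖ + ‖Λ‖ := by
    refine (norm_add_le _ _).trans (add_le_add ?_ ?_) <;> rw [norm_smul] <;>
      refine mul_le_of_le_one_left (norm_nonneg _) ?_
    · rw [Real.norm_of_nonneg s1]
      linarith
    · rw [Real.norm_of_nonneg s0]
      exact hs.2
  have e : opL ((1 - s) • (H.const lap : H n β (J0 n →L[ℝ] ℝ)) + s • Λ) =
      (1 - s) • opL (H.const lap) + s • opL Λ := by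
    simp only [opL, map_add, map_smul, ContinuousLinearMap.add_comp, ContinuousLinearMap.smul_comp]
  rw [← e]
  refine hC _ hb fun x hx => ⟨fun m hm => ?_, (H.norm_apply_le _ x).trans hb, ?_⟩
  · have a₀ := (mul_le_mul_of_nonneg_right (min_le_left l₀ l₁) (norm_nonneg m)).trans
      ((E₀ x hx).1 m hm)
    have a₁ := (mul_le_mul_of_nonneg_right (min_le_right l₀ l₁) (norm_nonneg m)).trans
      ((E₁ x hx).1 m hm)
    simp only [H.add_apply, H.smul_apply, H.const_apply, ContinuousLinearMap.add_apply,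
      ContinuousLinearMap.smul_apply, smul_eq_mul]
    nlinarith [mul_le_mul_of_nonneg_left a₀ s1, mul_le_mul_of_nonneg_left a₁ s0]
  · simp only [H.add_apply, H.smul_apply, H.const_apply, ContinuousLinearMap.add_apply,
      ContinuousLinearMap.smul_apply, smul_eq_mul]
    exact add_nonpos (mul_nonpos_of_nonneg_of_nonpos s1 (E₀ x hx).2.2)
      (mul_nonpos_of_nonneg_of_nonpos s0 (E₁ x hx).2.2)

end Pool.Agent.Mink.B
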