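import Pool.Agent.Lib.MP_88c759_an.Mink.BOnto
import Pool.Agent.Lib.MP_88c759_an.Mink.BCut

/-! The implicit function theorem for equations with a parameter, and local uniqueness. -/

set_option maxSynthPendingDepth 3

namespace Pool.Agent.Mink.B

open scoped ContDiff Topology
open Set Filter

variable {n : ℕ} {β : ℝ} {P : Type} [NormedAddCommGroup P] [NormedSpace ℝ P] [FiniteDimensional ℝ P]

variable (P n) in
/-- the inclusion of jets -/
noncomputable def jin : J0 n →L[ℝ] P × J0 n × E n :=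
  (0 : J0 n →L[ℝ] P).prod ((ContinuousLinearMap.id ℝ (J0 n)).prod 0)

omit [FiniteDimensional ℝ P] in
lemma jin_apply (j : J0 n) : jin n P j = (0, j, 0) := rfl

omit [FiniteDimensional ℝ P] in
lemma hasFDerivAt_slice {G : P × J0 n × E n → ℝ} {h : P} {j : J0 n} {x : E n}
    (hG : DifferentiableAt ℝ G (h, j, x)) :
    HasFDerivAt (fun k => G (h, k, x)) ((fderiv ℝ G (h, j, x)).comp (jin n P)) j :=
  hG.hasFDerivAt.comp j ((hasFDerivAt_const h j).prodMk
    ((hasFDerivAt_id j).prodMk (hasFDerivAt_const x j)))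

omit [FiniteDimensional ℝ P] in
/-- Local uniqueness for a globally smooth `G`. `ell_of_pos`, `uniq0`; by uniform continuity of
`(h, j, x) ↦ fderiv ℝ (fun j => G (h, j, x)) j` on a compact set there is `δ`; the coefficients
`Λ x` come from `domain_mvt` on the segment from `f x` to `g x`. -/
theorem loc_uniq (hn : 0 < n) {G : P × J0 n × E n → ℝ} (hG : ContDiff ℝ ∞ G) {h₀ : P}
    {f₀ : E n → J0 n} (hf₀ : ContinuousOn f₀ (cB n))
    (hpos : ∀ x ∈ cB n, PosJ (fderiv ℝ (fun j => G (h₀, j, x)) (f₀ x))) :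
    ∃ δ : ℝ, 0 < δ ∧ ∀ (h : P) (f g : E n → J0 n), ‖h - h₀‖ ≤ δ → IsJet (cB n) f → IsJet (cB n) g →
      (∀ x ∈ sB n, (f x).2.2 = (g x).2.2) →
      (∀ x ∈ cB n, ‖f x - f₀ x‖ ≤ δ ∧ ‖g x - f₀ x‖ ≤ δ ∧ G (h, f x, x) = G (h, g x, x)) →
      ∀ x ∈ cB n, f x = g x := by
  have hd : Differentiable ℝ G := hG.differentiable (by simp)
  let D : P × J0 n × E n → J0 n →L[ℝ] ℝ := fun z => (fderiv ℝ G z).comp (jin n P)
  have hDc : Continuous D := (hG.continuous_fderiv (by simp)).clm_comp continuous_const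
  have hsl : ∀ h j x, HasFDerivAt (fun k => G (h, k, x)) (D (h, j, x)) j := fun h j x =>
    hasFDerivAt_slice (hd _)
  have hc0 : ContinuousOn (fun x => ((h₀, f₀ x, x) : P × J0 n × E n)) (cB n) :=
    continuousOn_const.prodMk (hf₀.prodMk continuousOn_id)
  obtain ⟨lam, Lam, hlam, hell⟩ := ell_of_pos (Λ := fun x => D (h₀, f₀ x, x))
    (hDc.comp_continuousOn hc0) fun x hx => by rw [← (hsl _ _ _).fderiv]; exact hpos x hx
  obtain ⟨ε, hε, hu⟩ := uniq0 hn hlam Lam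
  obtain ⟨δ, hδ, hD⟩ := Metric.mem_uniformity_dist.1
    ((isCompact_cB.image_of_continuousOn hc0).uniformContinuousAt_of_continuousAt D
      (fun _ _ => hDc.continuousAt) (Metric.dist_mem_uniformity hε))
  refine ⟨δ / 2, by positivity, fun h f g hh hf hg hb hc x hx => ?_⟩
  have key : ∀ x ∈ cB n, ∃ Λ : J0 n →L[ℝ] ℝ, ‖Λ - D (h₀, f₀ x, x)‖ ≤ ε ∧ Λ (f x - g x) = 0 := by
    intro x hx
    obtain ⟨h1, h2, h3⟩ := hc x hx
    obtain ⟨ξ, hξ, e⟩ := domain_mvt (f := fun k => G (h, k, x)) (f' := fun k => D (h, k, x))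
      (s := univ) (x := g x) (y := f x) (fun k _ => (hsl h k x).hasFDerivWithinAt) convex_univ
      trivial trivial
    have hξ' : ξ ∈ Metric.closedBall (f₀ x) (δ / 2) :=
      (convex_closedBall _ _).segment_subset (mem_closedBall_iff_norm.2 h2)
        (mem_closedBall_iff_norm.2 h1) hξ
    refine ⟨D (h, ξ, x), ?_, by rw [← e, h3, sub_self]⟩
    have : dist ((h₀, f₀ x, x) : P × J0 n × E n) (h, ξ, x) < δ := by
      rw [dist_comm, Prod.dist_eq, Prod.dist_eq, dist_self, dist_eq_norm]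
      exact max_lt (by linarith) (max_lt (by linarith [Metric.mem_closedBall.1 hξ']) hδ)
    have := hD this ⟨x, hx, rfl⟩
    rw [← dist_eq_norm, dist_comm]
    exact le_of_lt this
  choose! Λ hΛ using key
  exact sub_eq_zero.1 (hu _ Λ (fun x => f x - g x) hell (fun x hx => (hΛ x hx).1) (hf.sub hg)
    (fun x hx => sub_eq_zero.2 (hb x hx)) (fun x hx => (hΛ x hx).2) x hx)

/-- Existence for a globally smooth `G`. `Ψ (h, w) = nem G (pair (const h, pair (J h + w, mk id)))`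
on `P × X n β` is `ContDiffAt ℝ m` at `(h₀, 0)` (`contDiff_nem`); its derivative in `w` is
`opL Λ` with `Λ = H.map (precomposition with j ↦ (0, j, 0)) (nem (fderiv ℝ G) _)`
(`hasFDerivAt_nem`), invertible by `lin_inv`. Use `ContDiffAt.implicitFunction`
(`completeX` gives the instance). -/
theorem loc_exist (hn : 0 < n) (h0 : 0 < β) (h1 : β < 1) {G : P × J0 n × E n → ℝ}
    (hG : ContDiff ℝ ∞ G) {J : P → H n β (J0 n)} {h₀ : P} {m : ℕ} (hm : m ≠ 0)
    (hJ : ContDiffAt ℝ m J h₀) (heq : ∀ x ∈ cB n, G (h₀, J h₀ x, x) = 0)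
    (hpos : ∀ x ∈ cB n, PosJ (fderiv ℝ (fun j => G (h₀, j, x)) (J h₀ x))) :
    ∃ w : P → X n β, ContDiffAt ℝ m w h₀ ∧ w h₀ = 0 ∧
      ∀ᶠ h in 𝓝 h₀, ∀ x ∈ cB n, G (h, J h x + (w h : H n β (J0 n)) x, x) = 0 := by
  have := completeX (n := n) h0
  have := FiniteDimensional.complete ℝ P
  have hd : Differentiable ℝ G := hG.differentiable (by simp)
  let e : H n β (E n) := H.mk _ (hol_id h0.le h1.le)
  let Z : P × X n β → H n β (P × J0 n × E n) := fun z =>
    H.pair (H.const z.1, H.pair (J z.1 + (X n β).subtypeL z.2, e))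
  have hZa : ∀ z, ∀ x ∈ cB n, Z z x = (z.1, J z.1 x + (z.2 : H n β (J0 n)) x, x) := by
    intro z x hx
    simp only [Z, H.pair_apply, H.const_apply, H.add_apply, e, H.mk_apply _ hx]
    rfl
  have hZ : ContDiffAt ℝ m Z (h₀, 0) :=
    H.pair.contDiff.contDiffAt.comp _ ((H.const.contDiff.contDiffAt.comp _ contDiffAt_fst).prodMk
      (H.pair.contDiff.contDiffAt.comp _ (((ContDiffAt.comp (h₀, (0 : X n β)) hJ contDiffAt_fst).add
        ((X n β).subtypeL.contDiff.contDiffAt.comp _ contDiffAt_snd)).prodMk contDiffAt_const)))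
  have hG1 : ContDiff ℝ 1 G := hG.of_le (by simp)
  have hG2 : ContDiff ℝ 2 G := hG.of_le (by norm_cast)
  have hDG : ContDiff ℝ 1 (fderiv ℝ G) := hG2.fderiv_right (by norm_num)
  have hΨ : ContDiffAt ℝ m (fun z => nem G (Z z)) (h₀, 0) :=
    (contDiff_nem m (hG.of_le (by norm_cast; exact le_top))).contDiffAt.comp _ hZ
  let Λ : H n β (J0 n →L[ℝ] ℝ) :=
    H.map ((ContinuousLinearMap.compL ℝ (J0 n) (P × J0 n × E n) ℝ).flip (jin n P))
      (nem (fderiv ℝ G) (Z (h₀, 0)))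
  have hΛ : ∀ x ∈ cB n, Λ x = (fderiv ℝ G (h₀, J h₀ x, x)).comp (jin n P) := by
    intro x hx
    simp only [Λ, H.map_apply, nem_apply hDG, hZa _ x hx]
    simp
  have hm' : (m : WithTop ℕ∞) ≠ 0 := by exact_mod_cast hm
  have hder : (fderiv ℝ (fun z => nem G (Z z)) (h₀, 0)).comp (.inr ℝ P (X n β)) = opL Λ := by
    have a1 : HasFDerivAt (fun w : X n β => nem G (Z (h₀, w)))
        ((fderiv ℝ (fun z => nem G (Z z)) (h₀, 0)).comp (.inr ℝ P (X n β))) 0 :=
      (hΨ.differentiableAt hm').hasFDerivAt.comp (0 : X n β) (hasFDerivAt_prodMk_right h₀ 0)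
    have a2 : HasFDerivAt (fun w : X n β => Z (h₀, w))
        ((H.map (jin n P)).comp (X n β).subtypeL) 0 := by
      have : (fun w : X n β => Z (h₀, w)) =
          fun w => Z (h₀, 0) + ((H.map (jin n P)).comp (X n β).subtypeL) w := by
        funext w
        refine H.ext fun x hx => ?_
        rw [H.add_apply, hZa _ x hx, hZa _ x hx]
        simp [jin_apply]
      rw [this]
      exact (ContinuousLinearMap.hasFDerivAt _).const_add _
    have a3 := (hasFDerivAt_nem hG2 (Z (h₀, 0))).comp (f := fun w : X n β => Z (h₀, w)) 0 a2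
    rw [a1.unique a3]
    refine ContinuousLinearMap.ext fun w => H.ext fun x _ => ?_
    simp [Λ]
  have hinv : ((fderiv ℝ (fun z => nem G (Z z)) (h₀, 0)).comp (.inr ℝ P (X n β))).IsInvertible := by
    rw [hder]
    refine lin_inv hn h0 h1 fun x hx => ?_
    rw [hΛ x hx, ← (hasFDerivAt_slice (hd _)).fderiv]
    exact hpos x hx
  refine ⟨hΨ.implicitFunction hm' hinv, hΨ.contDiffAt_implicitFunction hm' hinv,
    hΨ.implicitFunction_apply_self hm' hinv, ?_⟩
  filter_upwards [hΨ.eventually_apply_implicitFunction hm' hinv] with h hh x hx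
  have := congrArg (fun k : H n β ℝ => k x) hh
  simp only [nem_apply hG1, hZa _ x hx] at this
  rw [this]
  simpa using heq x hx

/-- `exists_cutoff` around the compact set `{(h₀, J h₀ x, x) | x ∈ cB n}`, then `loc_exist`,
`loc_uniq` for the cutoff `G'`, and `W h = J h + w h`. -/
theorem pt (hn : 0 < n) (h0 : 0 < β) (h1 : β < 1) {U : Set (P × J0 n × E n)} (hU : IsOpen U)
    {G : P × J0 n × E n → ℝ} (hG : ContDiffOn ℝ ∞ G U) {J : P → H n β (J0 n)} {h₀ : P} {m : ℕ}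
    (hm : m ≠ 0) (hJ : ContDiffAt ℝ m J h₀) (hJj : ∀ᶠ h in 𝓝 h₀, IsJet (cB n) (J h))
    (hmem : ∀ x ∈ cB n, (h₀, J h₀ x, x) ∈ U) (heq : ∀ x ∈ cB n, G (h₀, J h₀ x, x) = 0)
    (hpos : ∀ x ∈ cB n, PosJ (fderiv ℝ (fun j => G (h₀, j, x)) (J h₀ x))) :
    ∃ W : P → H n β (J0 n), ContDiffAt ℝ m W h₀ ∧
      (∀ᶠ h in 𝓝 h₀, IsJet (cB n) (W h) ∧ (∀ x ∈ sB n, (W h x).2.2 = (J h x).2.2) ∧
        ∀ x ∈ cB n, (h, W h x, x) ∈ U ∧ G (h, W h x, x) = 0) ∧
      ∃ δ : ℝ, 0 < δ ∧ ∀ᶠ h in 𝓝 h₀, ∀ f : E n → J0 n, IsJet (cB n) f →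
        (∀ x ∈ sB n, (f x).2.2 = (J h x).2.2) →
        (∀ x ∈ cB n, ‖f x - J h₀ x‖ ≤ δ ∧ G (h, f x, x) = 0) → ∀ x ∈ cB n, f x = W h x := by
  have hc : Continuous (J h₀) := (J h₀).continuous h0
  have hc0 : Continuous fun x => ((h₀, J h₀ x, x) : P × J0 n × E n) :=
    continuous_const.prodMk (hc.prodMk continuous_id)
  obtain ⟨G', δ, hG', hδ, hcut⟩ := exists_cutoff hU hG (isCompact_cB.image hc0)
    (by rintro _ ⟨x, hx, rfl⟩; exact hmem x hx)
  have near : ∀ x ∈ cB n, ∀ (h : P) (j : J0 n), ‖h - h₀‖ < δ → ‖j - J h₀ x‖ < δ →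
      (h, j, x) ∈ U ∧ G' =ᶠ[𝓝 (h, j, x)] G := fun x hx h j a b =>
    hcut _ ⟨x, hx, rfl⟩ _ (by
      rw [Prod.norm_def, Prod.norm_def]
      exact max_lt a (max_lt b (by simpa using hδ)))
  have near0 : ∀ x ∈ cB n, G' =ᶠ[𝓝 (h₀, J h₀ x, x)] G := fun x hx =>
    (near x hx _ _ (by simpa using hδ) (by simpa using hδ)).2
  have hpos' : ∀ x ∈ cB n, PosJ (fderiv ℝ (fun j => G' (h₀, j, x)) (J h₀ x)) := by
    intro x hx
    have : (fun j => G' (h₀, j, x)) =ᶠ[𝓝 (J h₀ x)] fun j => G (h₀, j, x) :=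
      (Continuous.tendsto (f := fun j : J0 n => ((h₀, j, x) : P × J0 n × E n)) (by fun_prop)
        _).eventually (near0 x hx)
    rw [this.fderiv_eq]
    exact hpos x hx
  obtain ⟨w, hw, hw0, hwe⟩ := loc_exist hn h0 h1 hG' hm hJ
    (fun x hx => (near0 x hx).eq_of_nhds.trans (heq x hx)) hpos'
  obtain ⟨η, hη, hun⟩ := loc_uniq hn hG' hc.continuousOn hpos'
  let W : P → H n β (J0 n) := fun h => J h + (X n β).subtypeL (w h)
  have hW : ContDiffAt ℝ m W h₀ := hJ.add ((X n β).subtypeL.contDiff.contDiffAt.comp _ hw)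
  have hW0 : W h₀ = J h₀ := by simp [W, hw0]
  have hκ : 0 < min δ η := lt_min hδ hη
  have ev : ∀ᶠ h in 𝓝 h₀, ‖h - h₀‖ < min δ η ∧ (∀ x, ‖W h x - J h₀ x‖ < min δ η) ∧
      IsJet (cB n) (W h) ∧ (∀ x ∈ sB n, (W h x).2.2 = (J h x).2.2) ∧
      ∀ x ∈ cB n, G' (h, W h x, x) = 0 := by
    filter_upwards [Metric.ball_mem_nhds h₀ hκ,
      hW.continuousAt.eventually (Metric.ball_mem_nhds _ hκ), hJj, hwe] with h a b c d
    refine ⟨mem_ball_iff_norm.1 a, fun x => ?_, c.add (w h).2.1, fun x hx => ?_, d⟩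
    · rw [hW0, dist_eq_norm] at b
      exact ((W h - J h₀).norm_apply_le x).trans_lt b
    · have := (w h).2.2 x hx
      simp [W, this]
  refine ⟨W, hW, ?_, min δ η / 2, by positivity, ?_⟩
  · filter_upwards [ev] with h ⟨a, b, c, d, e⟩
    refine ⟨c, d, fun x hx => ?_⟩
    obtain ⟨u1, u2⟩ := near x hx h (W h x) (a.trans_le (min_le_left _ _))
      ((b x).trans_le (min_le_left _ _))
    exact ⟨u1, u2.eq_of_nhds.symm.trans (e x hx)⟩
  · filter_upwards [ev] with h ⟨a, b, c, d, e⟩ f hf hb hs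
    have hlt : ∀ x ∈ cB n, ‖f x - J h₀ x‖ < min δ η := fun x hx =>
      (hs x hx).1.trans_lt (half_lt_self hκ)
    refine hun h f (W h) (a.le.trans (min_le_right _ _)) hf c
      (fun x hx => (hb x hx).trans (d x hx).symm) fun x hx => ⟨(hlt x hx).le.trans
        (min_le_right _ _), (b x).le.trans (min_le_right _ _), ?_⟩
    rw [e x hx, (near x hx h (f x) (a.trans_le (min_le_left _ _))
      ((hlt x hx).trans_le (min_le_left _ _))).2.eq_of_nhds, (hs x hx).2]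

end Pool.Agent.Mink.B
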