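import Pool.Agent.Lib.MP_88c759_an.Mink.BMax
import Pool.Agent.Lib.MP_88c759_an.Mink.BNem

/-! The Dirichlet problem for the Laplacian with polynomial right hand side. -/

set_option maxSynthPendingDepth 3

namespace Pool.Agent.Mink.B

open scoped ContDiff Topology
open Set Filter MvPolynomial

variable {n : ℕ} {β : ℝ}

/-- the polynomial function of `q` -/
noncomputable def pev (q : MvPolynomial (Fin n) ℝ) (x : E n) : ℝ := eval (fun i => x i) q

/-- If the trace of a positive semidefinite `m` vanishes then `m e e = 0` for the basis vectors, so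
`m e v = 0` (the affine function `t ↦ m (v + t e) (v + t e)` is nonnegative). -/
lemma posJ_lap : PosJ (lap : J0 n →L[ℝ] ℝ) := by
  refine ⟨fun m hm h0 => ?_, by simp [lap_apply]⟩
  rw [lap_apply]
  by_contra hle
  have h1 : ∀ i ∈ (Finset.univ : Finset (Fin n)),
      m (EuclideanSpace.single i 1) (EuclideanSpace.single i 1) = 0 :=
    (Finset.sum_eq_zero_iff_of_nonneg fun i _ => hm.2 _).1
      (le_antisymm (not_lt.1 hle) (Finset.sum_nonneg fun i _ => hm.2 _))
  have h2 : ∀ e v : E n, m e e = 0 → m e v = 0 := by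
    intro e v he
    by_contra hb
    have h3 := hm.2 (v + (-(m v v + 1) / (2 * m e v)) • e)
    simp only [map_add, map_smul, add_apply, smul_apply,
      smul_eq_mul, he, hm.1 v e] at h3
    have h4 : -(m v v + 1) / (2 * m e v) * m e v = -(m v v + 1) / 2 := by field_simp
    rw [h4] at h3
    linarith
  refine h0 (ContinuousLinearMap.coe_injective
    ((EuclideanSpace.basisFun (Fin n) ℝ).toBasis.ext fun i => ?_))
  refine ContinuousLinearMap.ext fun v => ?_
  simpa using h2 _ v (h1 i (Finset.mem_univ i))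

/-- induction on `q` (`MvPolynomial.induction_on`) -/
lemma hasFDerivAt_pev (q : MvPolynomial (Fin n) ℝ) (x : E n) :
    HasFDerivAt (pev q) (∑ i, pev (pderiv i q) x • (EuclideanSpace.proj i : B1 n)) x := by
  classical
  induction q using MvPolynomial.induction_on with
  | C a =>
    have e : pev (C a : MvPolynomial (Fin n) ℝ) = fun _ => a := funext fun _ => by simp [pev]
    rw [e]
    simpa [pev] using hasFDerivAt_const a x
  | add p q hp hq =>
    have e : pev (p + q) = fun x => pev p x + pev q x := funext fun _ => by simp [pev]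
    rw [e]
    refine (hp.add hq).congr_fderiv ?_
    simp [pev, add_smul, Finset.sum_add_distrib]
  | mul_X p j hp =>
    have e : pev (p * MvPolynomial.X j) = fun x => pev p x * (EuclideanSpace.proj j : B1 n) x :=
      funext fun _ => by simp [pev]
    rw [e]
    refine (hp.mul (EuclideanSpace.proj j : B1 n).hasFDerivAt).congr_fderiv ?_
    have h : ∀ i, pev (pderiv i (p * MvPolynomial.X j)) x
        = (if i = j then pev p x else 0) + x j * pev (pderiv i p) x := by
      intro i
      by_cases hij : i = j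
      · subst hij
        simp [pev]
      · simp [pev, pderiv_X_of_ne (Ne.symm hij), hij]
    simp only [h]
    simp [add_smul, Finset.sum_add_distrib, Finset.smul_sum, mul_smul]

lemma contDiff_pev (q : MvPolynomial (Fin n) ℝ) : ContDiff ℝ ∞ (pev q) := by
  induction q using MvPolynomial.induction_on with
  | C a =>
    have e : pev (C a : MvPolynomial (Fin n) ℝ) = fun _ => a := funext fun _ => by simp [pev]
    rw [e]
    exact contDiff_const
  | add p q hp hq =>
    have e : pev (p + q) = fun x => pev p x + pev q x := funext fun _ => by simp [pev]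
    rw [e]
    exact hp.add hq
  | mul_X p j hp =>
    have e : pev (p * MvPolynomial.X j) = fun x => pev p x * (EuclideanSpace.proj j : B1 n) x :=
      funext fun _ => by simp [pev]
    rw [e]
    exact hp.mul (EuclideanSpace.proj j : B1 n).contDiff

lemma lap_gj_pev (q : MvPolynomial (Fin n) ℝ) (x : E n) :
    lap (gj (pev q) x) = pev (∑ i, pderiv i (pderiv i q)) x := by
  have e : fderiv ℝ (pev q) = fun x => ∑ i, pev (pderiv i q) x • (EuclideanSpace.proj i : B1 n) :=
    funext fun x => (hasFDerivAt_pev q x).fderiv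
  have h : HasFDerivAt (fun x => ∑ i, pev (pderiv i q) x • (EuclideanSpace.proj i : B1 n))
      (∑ i, (∑ k, pev (pderiv k (pderiv i q)) x • (EuclideanSpace.proj k : B1 n)).smulRight
        (EuclideanSpace.proj i : B1 n)) x :=
    HasFDerivAt.fun_sum fun i _ => (hasFDerivAt_pev (pderiv i q) x).smul_const _
  rw [lap_apply]
  simp only [gj, e, h.fderiv]
  simp [pev]

/-- `coeff_pderiv` -/
lemma totalDegree_pderiv (q : MvPolynomial (Fin n) ℝ) (i : Fin n) :
    (pderiv i q).totalDegree ≤ q.totalDegree - 1 := by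
  refine Finset.sup_le fun m hm => ?_
  have h1 : m + Finsupp.single i 1 ∈ q.support := by
    rw [mem_support_iff] at hm ⊢
    rw [coeff_pderiv] at hm
    exact left_ne_zero_of_mul hm
  have h2 := le_totalDegree h1
  rw [Finsupp.sum_add_index' (fun _ => rfl) (fun _ _ _ => rfl), Finsupp.sum_single_index rfl] at h2
  omega

lemma bpoly_bd (p : MvPolynomial (Fin n) ℝ) :
    Bd (gj (pev ((1 - ∑ j, MvPolynomial.X j ^ 2) * p))) := by
  intro x hx
  have h := EuclideanSpace.real_norm_sq_eq x
  rw [mem_sB.1 hx, one_pow] at h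
  simp [gj, pev, ← h]

lemma bpoly_inj (hn : 0 < n) (p : MvPolynomial (Fin n) ℝ)
    (hp : ∑ i, pderiv i (pderiv i ((1 - ∑ j, MvPolynomial.X j ^ 2) * p)) = 0) : p = 0 := by
  obtain ⟨lam, Lam, hlam, hE⟩ := ell_of_pos (Λ := fun _ : E n => (lap : J0 n →L[ℝ] ℝ))
    continuousOn_const fun _ _ => posJ_lap
  obtain ⟨C, -, hC⟩ := maxp hn hlam Lam
  have h1 := hC (fun _ => lap) (gj (pev ((1 - ∑ j, MvPolynomial.X j ^ 2) * p))) 0
    (fun x hx => hE x (oB_subset hx))
    (isJet_gj (contDiff_infty.1 (contDiff_pev _) 2) _) (bpoly_bd p)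
    (fun x _ => by rw [lap_gj_pev, hp]; simp [pev])
  have hn' : (1 : ℝ) ≤ n := by exact_mod_cast hn
  have h2 : (1 - ∑ j, MvPolynomial.X j ^ 2) * p = 0 := by
    refine funext_set (fun _ => Icc (0 : ℝ) (1 / n)) (fun _ => Icc_infinite (by positivity))
      fun x hx => ?_
    have h3 : WithLp.toLp 2 x ∈ cB n := by
      rw [mem_cB, ← sq_le_one_iff₀ (norm_nonneg _), EuclideanSpace.real_norm_sq_eq]
      have h4 : ∀ i ∈ (Finset.univ : Finset (Fin n)), x i ^ 2 ≤ 1 / (n : ℝ) := fun i _ => by
        obtain ⟨a, b⟩ := hx i (mem_univ i)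
        have c : 1 / (n : ℝ) ≤ 1 := (div_le_one (by positivity)).2 hn'
        nlinarith
      refine (Finset.sum_le_sum h4).trans_eq ?_
      rw [Finset.sum_const, Finset.card_univ, Fintype.card_fin, nsmul_eq_mul]
      field_simp
    have h5 := h1 _ h3
    rw [mul_zero, abs_nonpos_iff] at h5
    rw [map_zero]
    exact h5
  refine (mul_eq_zero.1 h2).resolve_left fun h => ?_
  have := congrArg (eval fun _ => (0 : ℝ)) h
  simp at this

/-- The linear map `T q = ∑ i, ∂ᵢ∂ᵢ ((1 - ∑ j, X j ^ 2) * q)` preserves `restrictTotalDegree _ _ d`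
(finite dimensional). It is injective: if `T q = 0` then `maxp` (with `ell_of_pos`, `posJ_lap`,
`M = 0`) shows that `P = (1 - ∑ X j ^ 2) * q` vanishes on the ball, hence on a cube, so `P = 0`
(`MvPolynomial.funext_set`) and `q = 0`. So it is onto
(`LinearMap.injective_iff_surjective`). -/
theorem poly_solve (hn : 0 < n) (q : MvPolynomial (Fin n) ℝ) : ∃ p : MvPolynomial (Fin n) ℝ,
    ∑ i, pderiv i (pderiv i ((1 - ∑ j, MvPolynomial.X j ^ 2) * p)) = q := by
  let T : MvPolynomial (Fin n) ℝ →ₗ[ℝ] MvPolynomial (Fin n) ℝ :=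
    ∑ i, (pderiv i).toLinearMap ∘ₗ (pderiv i).toLinearMap ∘ₗ
      LinearMap.mulLeft ℝ (1 - ∑ j, MvPolynomial.X j ^ 2)
  have hT : ∀ p, T p = ∑ i, pderiv i (pderiv i ((1 - ∑ j, MvPolynomial.X j ^ 2) * p)) :=
    fun p => LinearMap.sum_apply _ _ _
  have hw : (1 - ∑ j, MvPolynomial.X j ^ 2 : MvPolynomial (Fin n) ℝ).totalDegree ≤ 2 := by
    refine (totalDegree_sub _ _).trans (max_le (by simp) ?_)
    exact totalDegree_finsetSum_le fun j _ => (totalDegree_X_pow j 2).le
  have hmap : ∀ p ∈ restrictTotalDegree (Fin n) ℝ q.totalDegree,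
      T p ∈ restrictTotalDegree (Fin n) ℝ q.totalDegree := by
    intro p hp
    rw [hT]
    refine Submodule.sum_mem _ fun i _ => ?_
    rw [mem_restrictTotalDegree] at hp ⊢
    have h1 := totalDegree_pderiv (pderiv i ((1 - ∑ j, MvPolynomial.X j ^ 2) * p)) i
    have h2 := totalDegree_pderiv ((1 - ∑ j, MvPolynomial.X j ^ 2) * p) i
    have h3 := totalDegree_mul (1 - ∑ j, MvPolynomial.X j ^ 2) p
    omega
  have hinj : Function.Injective (T.restrict hmap) := by
    rw [injective_iff_map_eq_zero]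
    intro p hp
    exact Subtype.ext (bpoly_inj hn p.1 ((hT p.1).symm.trans (congrArg Subtype.val hp)))
  obtain ⟨p, hp⟩ := LinearMap.injective_iff_surjective.1 hinj
    ⟨q, (mem_restrictTotalDegree _ _ _).2 le_rfl⟩
  exact ⟨p.1, (hT p.1).symm.trans (congrArg Subtype.val hp)⟩

/-- `w = H.mk (gj (pev P))`, Hölder by `Hol.comp` and `hol_id` -/
theorem poly_onto (hn : 0 < n) (h0 : 0 ≤ β) (h1 : β ≤ 1) (q : MvPolynomial (Fin n) ℝ) :
    ∃ w : X n β, ∀ x ∈ cB n, lap ((w : H n β (J0 n)) x) = pev q x := by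
  obtain ⟨p, hp⟩ := poly_solve hn q
  have hc := contDiff_pev ((1 - ∑ j, MvPolynomial.X j ^ 2) * p)
  have hH : Hol β (gj (pev ((1 - ∑ j, MvPolynomial.X j ^ 2) * p))) :=
    (hol_id h0 h1).comp (contDiff_gj 1 (contDiff_infty.1 hc _))
  refine ⟨⟨H.mk _ hH, (isJet_gj (contDiff_infty.1 hc 2) _).congr fun x hx => H.mk_apply hH hx,
    fun x hx => ?_⟩, fun x hx => ?_⟩
  · rw [H.mk_apply hH (sB_subset hx)]
    exact bpoly_bd p x hx
  · change lap (H.mk _ hH x) = _
    rw [H.mk_apply hH hx, lap_gj_pev, hp]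

end Pool.Agent.Mink.B
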