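import Pool.Agent.Lib.MP_88c759_an.Mink.BCV

/-! Interior regularity and tangential regularity. -/

set_option maxSynthPendingDepth 3

namespace Pool.Agent.Mink.B

open scoped ContDiff Topology
open Set Filter

variable {n : ℕ} {β t : ℝ} {A : Set (ℝ × Jet n)} {F : ℝ × Jet n → ℝ} {f : E n → J0 n}

/-- For `x₀ ∈ oB n` take `χ : ContDiffBump x₀` with `‖x₀‖ + χ.rOut < 1`, `Φ (a, x) = x + χ x • a`,
`J a = H.mk f _`. Near `x₀` the map `Φ_a` is the translation by `a`, so `W a x₀ = f (x₀ + a)`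
(`pullL_id`). -/
theorem int_reg (hn : 0 < n) (h0 : 0 < β) (h1 : β < 1) (hF : Fam A F) (ht : t ∈ Icc (0 : ℝ) 1)
    (hs : BSol A F t β f) (m : ℕ) : ContDiffOn ℝ m f (oB n) := by
  intro x₀ hx₀
  have hx1 : ‖x₀‖ < 1 := mem_oB.1 hx₀
  have hr : 0 < 1 - ‖x₀‖ := sub_pos.2 hx1
  let χ : ContDiffBump x₀ := ⟨(1 - ‖x₀‖) / 4, (1 - ‖x₀‖) / 2, by positivity, by linarith⟩
  have hχ0 : ∀ x : E n, (1 - ‖x₀‖) / 2 ≤ ‖x - x₀‖ → χ x = 0 := fun x hx =>
    χ.zero_of_le_dist (by rwa [dist_eq_norm])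
  have hΦ : ContDiff ℝ ∞ fun z : E n × E n => z.2 + χ z.2 • z.1 :=
    contDiff_snd.add ((χ.contDiff.comp contDiff_snd).smul contDiff_fst)
  have hΦB : ∀ᶠ h in 𝓝 (0 : E n), MapsTo (fun x => x + χ x • h) (cB n) (cB n) := by
    filter_upwards [Metric.ball_mem_nhds (0 : E n) (half_pos hr)] with a ha x hx
    rw [mem_ball_zero_iff] at ha
    rcases le_or_gt ((1 - ‖x₀‖) / 2) ‖x - x₀‖ with h | h
    · show x + χ x • a ∈ cB n
      rw [hχ0 x h, zero_smul, add_zero]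
      exact hx
    · rw [mem_cB]
      have h2 : ‖x‖ ≤ ‖x - x₀‖ + ‖x₀‖ := norm_le_norm_sub_add x x₀
      have h3 : ‖χ x • a‖ ≤ ‖a‖ := by
        rw [norm_smul, Real.norm_of_nonneg χ.nonneg]
        exact mul_le_of_le_one_left (norm_nonneg _) χ.le_one
      linarith [norm_add_le x (χ x • a)]
  obtain ⟨W, hW, hWe⟩ := cv hn h0 h1 hF ht hs (Φ := fun z : E n × E n => z.2 + χ z.2 • z.1) hΦ
    (fun x => by simp) hΦB (J := fun _ => H.mk f hs.hol) (m := m + 1) (Nat.succ_ne_zero m)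
    contDiffAt_const (fun x hx => H.mk_apply _ hx)
    (Eventually.of_forall fun a => ⟨hs.jet.congr fun x hx => H.mk_apply _ hx, fun x hx => by
      have h2 : ‖x‖ ≤ ‖x - x₀‖ + ‖x₀‖ := norm_le_norm_sub_add x x₀
      rw [mem_sB.1 hx] at h2
      show (H.mk f hs.hol x).2.2 = (f (x + χ x • a)).2.2
      rw [hχ0 x (by linarith), zero_smul, add_zero, H.mk_apply _ (sB_subset hx)]⟩)
  have hp : ∀ a : E n, pull (fun y => y + χ y • a) f x₀ = f (x₀ + a) := by
    intro a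
    have e1 : (fun y => y + χ y • a) =ᶠ[𝓝 x₀] fun y => y + a := by
      filter_upwards [χ.eventuallyEq_one] with y hy
      rw [hy, Pi.one_apply, one_smul]
    have e2 : fderiv ℝ (fun y : E n => y + a) = fun _ => .id ℝ (E n) :=
      funext fun y => ((hasFDerivAt_id y).add_const a).fderiv
    have e3 := e1.fderiv (𝕜 := ℝ)
    rw [e2] at e3
    unfold pull
    rw [e3.fderiv_eq, e3.eq_of_nhds, fderiv_fun_const, Pi.zero_apply, pullL_id]
    exact congrArg f e1.eq_of_nhds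
  have hT : Tendsto (fun y : E n => y - x₀) (𝓝 x₀) (𝓝 0) := by
    have h2 : Continuous fun y : E n => y - x₀ := continuous_id.sub continuous_const
    simpa using h2.tendsto x₀
  have e4 : f =ᶠ[𝓝 x₀] fun y => H.ev x₀ (W (y - x₀)) := by
    filter_upwards [hT.eventually hWe] with y hy
    rw [H.ev_apply, hy x₀ (oB_subset hx₀)]
    refine Eq.trans ?_ (hp (y - x₀)).symm
    rw [add_sub_cancel]
  have hW' : ContDiffAt ℝ m W (x₀ - x₀) := by
    rw [sub_self]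
    exact hW.of_le (by exact_mod_cast Nat.le_succ m)
  have h5 : ContDiffAt ℝ m (fun y => H.ev x₀ (W (y - x₀))) x₀ :=
    (H.ev x₀).contDiff.contDiffAt.comp x₀
      (ContDiffAt.comp (f := fun y : E n => y - x₀) x₀ hW' (contDiffAt_id.sub contDiffAt_const))
  exact (h5.congr_of_eventuallyEq e4).contDiffWithinAt

/-- `Q h = NormedSpace.exp (h • S)` (`NormedSpace.exp_analytic`, `hasDerivAt_exp_smul_const'`);
`h ↦ ‖Q h x‖²` has derivative zero. -/
lemma exists_rot {S : E n →L[ℝ] E n} (hS : ∀ x, inner ℝ (S x) x = 0) :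
    ∃ Q : ℝ → E n →L[ℝ] E n, ContDiff ℝ ∞ Q ∧ Q 0 = .id ℝ _ ∧ HasDerivAt Q S 0 ∧
      ∀ h x, ‖Q h x‖ = ‖x‖ := by
  have hd : ∀ h : ℝ, HasDerivAt (fun u : ℝ => NormedSpace.exp (u • S))
      (S * NormedSpace.exp (h • S)) h := fun h => hasDerivAt_exp_smul_const' S h
  have hz : NormedSpace.exp ((0 : ℝ) • S) = 1 := by rw [zero_smul, NormedSpace.exp_zero]
  refine ⟨fun h => NormedSpace.exp (h • S), ?_, hz, ?_, fun h x => ?_⟩
  · have h1 : ContDiff ℝ ∞ (NormedSpace.exp : (E n →L[ℝ] E n) → E n →L[ℝ] E n) :=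
      contDiff_iff_contDiffAt.2 fun x => (NormedSpace.exp_analytic (𝕂 := ℝ) x).contDiffAt
    exact h1.comp (contDiff_id.smul contDiff_const)
  · have h1 := hd 0
    rwa [hz, mul_one] at h1
  · have h1 : ∀ u : ℝ, HasDerivAt (fun u : ℝ => ‖NormedSpace.exp (u • S) x‖ ^ 2) 0 u := by
      intro u
      have h2 : HasDerivAt (fun u : ℝ => NormedSpace.exp (u • S) x)
          (S (NormedSpace.exp (u • S) x)) u := by
        have h3 := (hd u).clm_apply (hasDerivAt_const u x)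
        rwa [map_zero, add_zero] at h3
      have h4 := h2.norm_sq
      rwa [real_inner_comm, hS, mul_zero] at h4
    have h5 := is_const_of_deriv_eq_zero (fun u => (h1 u).differentiableAt)
      (fun u => (h1 u).deriv) h 0
    rw [hz] at h5
    exact (pow_left_inj₀ (norm_nonneg _) (norm_nonneg _) two_ne_zero).1 h5

lemma breg_pull (Q : E n →L[ℝ] E n) (g : E n → J0 n) (x : E n) :
    pull Q g x = pullL Q 0 (g (Q x)) := by
  have e : fderiv ℝ Q = fun _ => Q := funext fun _ => Q.fderiv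
  unfold pull
  rw [e, fderiv_fun_const, Pi.zero_apply]

lemma breg_pullL_fst (Q : E n →L[ℝ] E n) (j : J0 n) (v w : E n) :
    (pullL Q 0 j).1 v w = j.1 (Q v) (Q w) := by
  rw [pullL_apply]
  simp

lemma breg_L (S : E n →L[ℝ] E n) :
    ∃ L : J0 n →L[ℝ] B2 n, ∀ j v w, L j v w = j.1 (S v) w + j.1 v (S w) :=
  ⟨((ContinuousLinearMap.compL ℝ (E n) (E n) (B1 n)).flip S +
    ContinuousLinearMap.compL ℝ (E n) (B1 n) (B1 n)
      ((ContinuousLinearMap.compL ℝ (E n) (E n) ℝ).flip S)).comp (.fst ℝ (B2 n) (B1 n × ℝ)),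
    fun _ _ _ => rfl⟩

lemma breg_N (h0 : 0 < β) (h1 : β < 1) {φ : E n → ℝ} (hφ : ContDiff ℝ 4 φ)
    {Q : ℝ → E n →L[ℝ] E n} (hQ : ContDiff ℝ ∞ Q) :
    ∃ N : ℝ → H n β (J0 n), ContDiff ℝ (1 : ℕ) N ∧
      ∀ h, ∀ x ∈ cB n, N h x = pull (Q h) (gj φ) x := by
  have hΦ : ContDiff ℝ ∞ fun z : ℝ × E n => Q z.1 z.2 :=
    (hQ.comp contDiff_fst).clm_apply contDiff_snd
  have hle : ((1 + 1 : ℕ) : WithTop ℕ∞) ≤ ∞ := ENat.LEInfty.out
  let Γ : ℝ × E n → J0 n := fun z => pullL (Q z.1) 0 (gj φ (Q z.1 z.2))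
  have hΓ : ContDiff ℝ (1 + 1 : ℕ) Γ := by
    have a0 : ContDiff ℝ ∞ fun z : ℝ × E n => (Q z.1, (0 : E n →L[ℝ] E n →L[ℝ] E n)) :=
      (hQ.comp contDiff_fst).prodMk contDiff_const
    have a1 : ContDiff ℝ ∞ fun z : ℝ × E n => pullL (Q z.1) 0 := by
      simpa only [Function.comp_def] using contDiff_pullL.comp a0
    exact (a1.of_le hle).clm_apply ((contDiff_gj 2 hφ).comp (hΦ.of_le hle))
  let N : ℝ → H n β (J0 n) := fun h =>
    nem Γ (H.pair (H.const h, H.mk (fun x => x) (hol_id h0.le h1.le)))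
  have hN : ContDiff ℝ (1 : ℕ) N :=
    (contDiff_nem 1 hΓ).comp (H.pair.contDiff.comp (H.const.contDiff.prodMk contDiff_const))
  have hNa : ∀ h, ∀ x ∈ cB n, N h x = pull (Q h) (gj φ) x := by
    intro h x hx
    rw [breg_pull]
    refine (nem_apply (hΓ.of_le (by norm_num)) _ x).trans ?_
    rw [H.pair_apply, H.const_apply, H.mk_apply _ hx]
  exact ⟨N, hN, hNa⟩

/-- `Φ (h, x) = Q h x`. With `Γ (h, x) = pullL (Q h) 0 (gj φ (Q h x)) = pull (Q h) (gj φ) x`, of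
class `C²`, put `J h = H.mk f _ + (N h - N 0)`, `N h = nem Γ (pair (const h, mk id))` (`C¹` by
`contDiff_nem 1`). For `x ∈ oB n` differentiate
`(W h x).1 = (f (Q h x)).1.bilinearComp (Q h) (Q h)` at `h = 0` (`int_reg`):
`T x = (W' x).1 - r x (S ·) · - r x · (S ·)` with `W' = deriv W 0`. -/
theorem rot_reg (hn : 0 < n) (h0 : 0 < β) (h1 : β < 1) (hF : Fam A F) (ht : t ∈ Icc (0 : ℝ) 1)
    (hs : BSol A F t β f) {φ : E n → ℝ} (hφ : ContDiff ℝ 4 φ) (hb : ∀ x ∈ sB n, (f x).2.2 = φ x)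
    {S : E n →L[ℝ] E n} (hS : ∀ x, inner ℝ (S x) x = 0) :
    ∃ T : E n → B2 n, Hol β T ∧ ∀ x ∈ oB n, fderiv ℝ (fun y => (f y).1) x (S x) = T x := by
  obtain ⟨Q, hQ, hQ0, hQd, hQn⟩ := exists_rot hS
  have hΦ : ContDiff ℝ ∞ fun z : ℝ × E n => Q z.1 z.2 :=
    (hQ.comp contDiff_fst).clm_apply contDiff_snd
  have hmap : ∀ h, MapsTo (fun x => Q h x) (cB n) (cB n) := fun h x hx => by
    rw [mem_cB, hQn]
    exact mem_cB.1 hx
  obtain ⟨N, hN, hNa⟩ := breg_N h0 h1 hφ hQ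
  have hNj : ∀ h, IsJet (cB n) (pull (Q h) (gj φ)) := fun h =>
    isJet_pull (Q h).contDiff (mapsTo_univ _ _) (isJet_gj (hφ.of_le (by norm_num)) univ)
  have hJa : ∀ h, ∀ x ∈ cB n, (H.mk f hs.hol + (N h - N 0)) x =
      f x + (pull (Q h) (gj φ) x - pull (Q 0) (gj φ) x) := by
    intro h x hx
    rw [H.add_apply, H.sub_apply, H.mk_apply _ hx, hNa h x hx, hNa 0 x hx]
  obtain ⟨W, hW, hWe⟩ := cv hn h0 h1 hF ht hs (Φ := fun z : ℝ × E n => Q z.1 z.2) hΦ
    (fun x => by simp [hQ0]) (Eventually.of_forall hmap)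
    (J := fun h => H.mk f hs.hol + (N h - N 0)) (m := 1) one_ne_zero
    (contDiffAt_const.add (hN.contDiffAt.sub contDiffAt_const))
    (fun x hx => by rw [hJa 0 x hx, sub_self, add_zero])
    (Eventually.of_forall fun h => ⟨(hs.jet.add ((hNj h).sub (hNj 0))).congr (hJa h),
      fun x hx => by
        have hx' : Q h x ∈ sB n := by
          rw [mem_sB, hQn]
          exact mem_sB.1 hx
        rw [hJa h x (sB_subset hx)]
        show (f x).2.2 + (φ (Q h x) - φ (Q 0 x)) = (f (Q h x)).2.2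
        rw [hb x hx, hb _ hx', hQ0, ContinuousLinearMap.id_apply]
        ring⟩)
  obtain ⟨W', hW'⟩ : ∃ W', HasDerivAt W W' 0 := ⟨_, (hW.differentiableAt (by simp)).hasDerivAt⟩
  obtain ⟨L, hL⟩ := breg_L S
  have hT1 : Hol β fun x => (W' x).1 := Hol.map (.fst ℝ (B2 n) (B1 n × ℝ)) W'.hol
  have hT2 : Hol β fun x => L (f x) := Hol.map L hs.hol
  refine ⟨fun x => (W' x).1 - L (f x), Hol.sub hT1 hT2, fun x hx => ?_⟩
  have hr : DifferentiableAt ℝ (fun y => (f y).1) x :=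
    (((int_reg hn h0 h1 hF ht hs 1).contDiffAt (isOpen_oB.mem_nhds hx)).differentiableAt
      (by simp)).fst
  have hQv : ∀ v, HasDerivAt (fun h => Q h v) (S v) 0 := by
    intro v
    have h3 := hQd.clm_apply (hasDerivAt_const (0 : ℝ) v)
    rwa [map_zero, add_zero] at h3
  have hQ0v : ∀ v, Q 0 v = v := fun v => by rw [hQ0, ContinuousLinearMap.id_apply]
  have d1 : HasDerivAt (fun h => (f (Q h x)).1) (fderiv ℝ (fun y => (f y).1) x (S x)) 0 := by
    have h3 : HasFDerivAt (fun y => (f y).1) (fderiv ℝ (fun y => (f y).1) x) (Q 0 x) := by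
      rw [hQ0v]
      exact hr.hasFDerivAt
    exact HasFDerivAt.comp_hasDerivAt (f := fun h => Q h x) (l := fun y => (f y).1) (0 : ℝ) h3
      (hQv x)
  ext v w
  have d2 := (d1.clm_apply (hQv v)).clm_apply (hQv w)
  have d3 : HasDerivAt (fun h => (W h x).1 v w) ((W' x).1 v w) 0 :=
    (((ContinuousLinearMap.apply ℝ ℝ w).comp ((ContinuousLinearMap.apply ℝ (B1 n) v).comp
      ((ContinuousLinearMap.fst ℝ (B2 n) (B1 n × ℝ)).comp (H.ev x)))).hasFDerivAt).comp_hasDerivAt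
      (0 : ℝ) hW'
  have e : (fun h => (W h x).1 v w) =ᶠ[𝓝 0] fun h => (f (Q h x)).1 (Q h v) (Q h w) := by
    filter_upwards [hWe] with h hh
    have h7 : W h x = pull (Q h) f x := hh x (oB_subset hx)
    rw [h7, breg_pull, breg_pullL_fst]
  have h6 := d3.unique (d2.congr_of_eventuallyEq e)
  simp only [hQ0v, _root_.add_apply] at h6
  show _ = (W' x).1 v w - L (f x) v w
  rw [h6, hL]
  ring

end Pool.Agent.Mink.B
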