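import Pool.Agent.Lib.MP_88c759_an.Mink.BBlow
import Pool.Agent.Lib.MP_88c759_an.Mink.BLiou2

/-! The boundary case of the blow-up argument. -/

set_option maxSynthPendingDepth 3

namespace Pool.Agent.Mink.B

open scoped ContDiff Topology
open Set Filter

variable {n : ℕ} {β : ℝ} {I : Type}

lemma bschb_mem {b z : E n} {ρ : ℝ} (hb : ‖b‖ = 1) (hρ : 0 < ρ) :
    z ∈ rB b ρ ↔ 2 * inner ℝ b z + ρ * ‖z‖ ^ 2 ≤ 0 := by
  rw [rB, mem_ofPred_eq, mem_cB, ← sq_le_one_iff₀ (norm_nonneg _), norm_add_sq_real, hb,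
    inner_smul_right, norm_smul, Real.norm_of_nonneg hρ.le, ← mul_le_mul_iff_right₀ hρ (c := 0)]
  constructor <;> intro h <;> nlinarith

lemma bschb_dl {u : Filter I} {ν h : E n} {F : I → E n → ℝ} {G : E n → ℝ} (hh : inner ℝ ν h = 0)
    (H : ∀ w, inner ℝ ν w = 0 → Tendsto (fun i => F i w) u (𝓝 (G w))) (w : E n)
    (hw : inner ℝ ν w = 0) : Tendsto (fun i => dl h (F i) w) u (𝓝 (dl h G w)) :=
  (H _ (by rw [inner_add_right, hw, hh, add_zero])).sub (H w hw)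

lemma bschb_est {p : B1 n} {r : B2 n} {b k : E n} {ρ θ ε c : ℝ} (hb : ‖b‖ = 1) (hp : ‖p‖ ≤ ε)
    (hr : ‖r‖ ≤ ε) (hρ : 0 < ρ) (hc : 0 ≤ c) (h1 : |θ| ≤ ρ * ‖k‖ ^ 2)
    (h2 : |θ - ρ * ‖k‖ ^ 2 / 2| ≤ ρ ^ 3 * ‖k‖ ^ 4) :
    |c * (0 - 0 - p (ρ • (k - θ • b)) - 1 / 2 * r (ρ • (k - θ • b)) (ρ • (k - θ • b))) -
      (-(c * ρ) * p k + -(c * ρ ^ 2 / 2) * (r k k - p b * ‖k‖ ^ 2))| ≤
      c * ρ ^ 3 * (ε * (ρ * ‖k‖ ^ 4 + ‖k‖ ^ 2 * (2 * ‖k‖ + ρ * ‖k‖ ^ 2))) := by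
  have hε := (norm_nonneg p).trans hp
  have e : c * (0 - 0 - p (ρ • (k - θ • b)) - 1 / 2 * r (ρ • (k - θ • b)) (ρ • (k - θ • b))) -
      (-(c * ρ) * p k + -(c * ρ ^ 2 / 2) * (r k k - p b * ‖k‖ ^ 2)) =
      c * (ρ * ((θ - ρ * ‖k‖ ^ 2 / 2) * p b) + ρ ^ 2 / 2 * (θ * (r k b + r b k - θ * r b b))) := by
    simp only [map_smul, map_sub, smul_apply, sub_apply, smul_eq_mul]
    ring
  have a1 : |p b| ≤ ε := (p.le_opNorm b).trans (by rw [hb, mul_one]; exact hp)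
  have a2 : |r k b| ≤ ε * ‖k‖ := (r.le_opNorm₂ k b).trans (by rw [hb, mul_one]; gcongr)
  have a3 : |r b k| ≤ ε * ‖k‖ := (r.le_opNorm₂ b k).trans (by rw [hb, mul_one]; gcongr)
  have a4 : |r b b| ≤ ε := (r.le_opNorm₂ b b).trans (by rw [hb, mul_one, mul_one]; exact hr)
  have a5 : |r k b + r b k - θ * r b b| ≤ ε * ‖k‖ + ε * ‖k‖ + ρ * ‖k‖ ^ 2 * ε := by
    refine (abs_sub _ _).trans (add_le_add ((abs_add_le _ _).trans (add_le_add a2 a3)) ?_)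
    rw [abs_mul]
    gcongr
  rw [e, abs_mul, abs_of_nonneg hc, mul_assoc c]
  refine mul_le_mul_of_nonneg_left ((abs_add_le _ _).trans ?_) hc
  rw [abs_mul, abs_mul, abs_mul, abs_mul θ, abs_of_pos hρ, abs_of_pos (by positivity : 0 < ρ ^ 2 / 2)]
  calc _ ≤ ρ * (ρ ^ 3 * ‖k‖ ^ 4 * ε) +
        ρ ^ 2 * (ρ * ‖k‖ ^ 2 * (ε * ‖k‖ + ε * ‖k‖ + ρ * ‖k‖ ^ 2 * ε)) := by
        gcongr
        linarith [sq_nonneg ρ]
    _ = _ := by ring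

/-- For `‖b‖ = 1`, `ρ > 0`: `z ∈ rB b ρ ↔ 2 ⟪b, z⟫ + ρ ‖z‖² ≤ 0`. For the reverse inclusion take
`zz i = z - θ i • b i`, `θ i = |⟪b i - ν, z⟫| + ρ i (‖z‖ + 1)²`. -/
lemma limSet_half {u : Filter I} [u.NeBot] {b : I → E n} {ρ : I → ℝ} {ν : E n}
    (hb : ∀ᶠ i in u, ‖b i‖ = 1) (hν : Tendsto b u (𝓝 ν)) (hρ : ∀ i, 0 < ρ i)
    (hρ0 : Tendsto ρ u (𝓝 0)) :
    (limSet u fun i => rB (b i) (ρ i)) = {z | 0 ≤ (-innerSL ℝ ν) z} := by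
  ext z
  change _ ↔ 0 ≤ -inner ℝ ν z
  constructor
  · rintro ⟨zz, h1, h2⟩
    have h3 := le_of_tendsto (((hν.inner (𝕜 := ℝ) h2).const_mul 2).add (hρ0.mul (h2.norm.pow 2)))
      ((hb.and h1).mono fun i hi => (bschb_mem hi.1 (hρ i)).1 hi.2)
    linarith
  · intro hz
    have hθ : Tendsto (fun i => |inner ℝ (b i - ν) z| + ρ i * (‖z‖ + 1) ^ 2) u (𝓝 0) := by
      simpa using ((hν.sub_const ν).inner (𝕜 := ℝ) (tendsto_const_nhds (x := z))).abs.add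
        (hρ0.mul_const ((‖z‖ + 1) ^ 2))
    refine ⟨fun i => z - (|inner ℝ (b i - ν) z| + ρ i * (‖z‖ + 1) ^ 2) • b i, ?_,
      by simpa using (hθ.smul hν).const_sub z⟩
    filter_upwards [hb, hθ.eventually (ge_mem_nhds one_pos)] with i h1 h2
    have h3 := hρ i
    set θ := |inner ℝ (b i - ν) z| + ρ i * (‖z‖ + 1) ^ 2 with hθ
    have h4 : ‖z - θ • b i‖ ≤ ‖z‖ + 1 := (norm_sub_le _ _).trans (by
      rw [norm_smul, h1, mul_one, Real.norm_of_nonneg (by positivity)]; linarith)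
    have h5 : ρ i * ‖z - θ • b i‖ ^ 2 ≤ ρ i * (‖z‖ + 1) ^ 2 := by gcongr
    have h6 := le_abs_self (inner ℝ (b i - ν) z)
    have h7 : 0 ≤ ρ i * (‖z‖ + 1) ^ 2 := by positivity
    rw [bschb_mem h1 h3, inner_sub_right, inner_smul_right, real_inner_self_eq_norm_sq, h1]
    rw [inner_sub_left] at h6 hθ
    linarith

/-- Points of the rescaled sphere over a tangential vector `h`. Put `k = h - ⟪b, h⟫ b` (linear in
`h`), `θ = (1 - √(1 - ρ²‖k‖²))/ρ = ρ‖k‖²/(1 + √(1 - ρ²‖k‖²))`, `zz = k - θ b`; then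
`‖b + ρ zz‖ = 1` once `ρ ‖k‖ ≤ 1`, and `0 ≤ θ ≤ ρ‖k‖²`, `|θ - ρ‖k‖²/2| ≤ ρ³‖k‖⁴`. -/
lemma sphere_pt {b k : E n} {ρ : ℝ} (hb : ‖b‖ = 1) (hk : inner ℝ b k = 0) (hρ : 0 < ρ)
    (h : ρ * ‖k‖ ≤ 1) : ∃ θ : ℝ, ‖b + ρ • (k - θ • b)‖ = 1 ∧ |θ| ≤ ρ * ‖k‖ ^ 2 ∧
      |θ - ρ * ‖k‖ ^ 2 / 2| ≤ ρ ^ 3 * ‖k‖ ^ 4 := by
  have h0 : 0 ≤ 1 - (ρ * ‖k‖) ^ 2 := by nlinarith [mul_nonneg hρ.le (norm_nonneg k)]
  obtain ⟨s, hs0, hs⟩ : ∃ s : ℝ, 0 ≤ s ∧ s ^ 2 = 1 - (ρ * ‖k‖) ^ 2 :=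
    ⟨_, Real.sqrt_nonneg _, Real.sq_sqrt h0⟩
  have hs1 : s ≤ 1 := by nlinarith [sq_nonneg (ρ * ‖k‖)]
  obtain ⟨θ, hθ⟩ : ∃ θ : ℝ, ρ * θ = 1 - s := ⟨(1 - s) / ρ, by field_simp⟩
  have h1 : 0 ≤ θ := le_of_mul_le_mul_left (by linarith) hρ
  have h2 : θ * (1 + s) = ρ * ‖k‖ ^ 2 := mul_left_cancel₀ hρ.ne' (by
    rw [← mul_assoc, hθ]; linarith)
  have h3 : θ ≤ ρ * ‖k‖ ^ 2 := by nlinarith
  refine ⟨θ, ?_, by rwa [abs_of_nonneg h1], ?_⟩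
  · have e : b + ρ • (k - θ • b) = s • b + ρ • k := by
      rw [smul_sub, smul_smul, hθ]; module
    rw [← sq_eq_sq₀ (norm_nonneg _) zero_le_one, e, norm_add_sq_real, inner_smul_left,
      inner_smul_right, hk, norm_smul, norm_smul, hb, Real.norm_of_nonneg hs0,
      Real.norm_of_nonneg hρ.le]
    linarith
  · have e : θ - ρ * ‖k‖ ^ 2 / 2 = ρ * θ ^ 2 / 2 := by
      rw [← h2, show s = 1 - ρ * θ by linarith]; ring
    rw [e, abs_of_nonneg (by positivity)]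
    calc ρ * θ ^ 2 / 2 ≤ ρ * θ ^ 2 := half_le_self (by positivity)
      _ ≤ ρ * (ρ * ‖k‖ ^ 2) ^ 2 := by gcongr
      _ = _ := by ring

/-- third differences of a quadratic polynomial vanish -/
lemma dl3_quad (A : B1 n) (B : B2 n) (z h₁ h₂ h₃ : E n) :
    dl h₁ (dl h₂ (dl h₃ fun h => A h + B h h)) z = 0 := by
  simp only [dl, map_add, add_apply]
  ring

/-- Since `u (b + ρ zz) = u b = 0`,
`(resc zz).2.2 = -ρ^{-(2+β)} (p (ρ zz) + r (ρ zz) (ρ zz) / 2)` with `p`, `r` taken at `b`. With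
`P = id - ⟪b, ·⟫ b` let `A i = -ρ^{-(1+β)} • p ∘ P`, and
`B i h h = -ρ^{-β} (r (P h) (P h) - p b ⟪P h, P h⟫) / 2`. For fixed tangential `h` the difference
`(resc zz).2.2 - (A i h + B i h h)` is `O(ρ^{1-β})` because `‖p‖, ‖r‖ ≤ ε` are bounded. -/
lemma bdry_quad (h1 : β < 1) {u : Filter I} {b : I → E n} {ρ ε : I → ℝ} {ν : E n}
    {f : I → E n → J0 n} {g : E n → J0 n} (hb : ∀ᶠ i in u, ‖b i‖ = 1) (hν : Tendsto b u (𝓝 ν))
    (hρ : ∀ i, 0 < ρ i) (hρ0 : Tendsto ρ u (𝓝 0)) (hε : Tendsto ε u (𝓝 0)) (hf : ∀ i, Bd (f i))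
    (hs : ∀ i, ∀ z ∈ cB n, ‖f i z‖ ≤ ε i)
    (hg : ∀ (zz : I → E n) (z : E n), (∀ᶠ i in u, zz i ∈ rB (b i) (ρ i)) → Tendsto zz u (𝓝 z) →
      Tendsto (fun i => resc β (f i) (b i) (ρ i) (zz i)) u (𝓝 (g z))) :
    ∃ (A : I → B1 n) (B : I → B2 n), ∀ h, inner ℝ ν h = 0 →
      Tendsto (fun i => A i h + B i h h) u (𝓝 (g h).2.2) := by
  let P : I → E n →L[ℝ] E n := fun i => .id ℝ _ - (innerSL ℝ (b i)).smulRight (b i)
  have hP : ∀ i h, P i h = h - inner ℝ (b i) h • b i := fun _ _ => rfl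
  refine ⟨fun i => -((ρ i ^ (2 + β))⁻¹ * ρ i) • (f i (b i)).2.1.comp (P i),
    fun i => -((ρ i ^ (2 + β))⁻¹ * ρ i ^ 2 / 2) • ((f i (b i)).1.bilinearComp (P i) (P i) -
      (f i (b i)).2.1 (b i) • (inn : B2 n).bilinearComp (P i) (P i)), fun h hh => ?_⟩
  have hk : Tendsto (fun i => P i h) u (𝓝 h) := by
    simpa [hP, hh] using ((hν.inner (𝕜 := ℝ) (tendsto_const_nhds (x := h))).smul hν).const_sub h
  have hex : ∀ i, ∃ θ : ℝ, ‖b i‖ = 1 → ρ i * ‖P i h‖ ≤ 1 → ‖b i + ρ i • (P i h - θ • b i)‖ = 1 ∧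
      |θ| ≤ ρ i * ‖P i h‖ ^ 2 ∧ |θ - ρ i * ‖P i h‖ ^ 2 / 2| ≤ ρ i ^ 3 * ‖P i h‖ ^ 4 := fun i => by
    by_cases h : ‖b i‖ = 1 ∧ ρ i * ‖P i h‖ ≤ 1
    · obtain ⟨θ, hθ⟩ := sphere_pt h.1 (by
        rw [hP, inner_sub_right, inner_smul_right, real_inner_self_eq_norm_sq, h.1]; ring) (hρ i) h.2
      exact ⟨θ, fun _ _ => hθ⟩
    · exact ⟨0, fun h1 h2 => absurd ⟨h1, h2⟩ h⟩
  choose θ hθ using hex
  have hev := (hb.and ((hρ0.mul hk.norm).eventually (ge_mem_nhds (by simp : _ < (1 : ℝ))))).mono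
    fun i hi => And.intro hi.1 (hθ i hi.1 hi.2)
  have hθ0 : Tendsto θ u (𝓝 0) := squeeze_zero_norm' (hev.mono fun i hi => hi.2.2.1)
    (by simpa using hρ0.mul (hk.norm.pow 2))
  have h2 := (continuous_snd.comp continuous_snd).continuousAt.tendsto.comp
    (hg (fun i => P i h - θ i • b i) h (hev.mono fun i hi => mem_cB.2 hi.2.1.le)
      (by simpa using hk.sub (hθ0.smul hν)))
  have h3 : Tendsto (fun i => (ρ i ^ (2 + β))⁻¹ * ρ i ^ 3) u (𝓝 0) := by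
    have := ((Real.continuous_rpow_const (by linarith : 0 ≤ 1 - β)).tendsto 0).comp hρ0
    rw [Real.zero_rpow (by linarith)] at this
    refine this.congr fun i => ?_
    rw [← Real.rpow_natCast, ← Real.rpow_neg (hρ i).le, ← Real.rpow_add (hρ i)]
    exact congrArg (fun t : ℝ => ρ i ^ t) (by push_cast; ring)
  have h4 := h3.mul (hε.mul ((hρ0.mul (hk.norm.pow 4)).add ((hk.norm.pow 2).mul
    ((hk.norm.const_mul 2).add (hρ0.mul (hk.norm.pow 2))))))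
  rw [zero_mul] at h4
  refine tendsto_of_tendsto_of_dist h2 (squeeze_zero' (.of_forall fun _ => dist_nonneg)
    (hev.mono fun i hi => ?_) h4)
  have h5 := hs i _ (mem_cB.2 hi.1.le)
  have h6 := bschb_est hi.1 ((norm_fst_le _).trans ((norm_snd_le _).trans h5))
    ((norm_fst_le _).trans h5) (hρ i) (inv_nonneg.2 (Real.rpow_nonneg (hρ i).le (2 + β)))
    hi.2.2.1 hi.2.2.2
  refine le_of_eq_of_le ?_ h6
  rw [Real.dist_eq, ← real_inner_self_eq_norm_sq]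
  simp only [Function.comp_apply, resc, hf i _ (mem_sB.2 hi.1), hf i _ (mem_sB.2 hi.2.1)]
  rfl

/-- Base points `b i = ‖x i‖⁻¹ • x i`; `‖x i‖ → 1`; `ν = lim b i` has norm one. `blow_common`,
`limSet_half`, `bdry_quad`, `dl3_quad` (pass to the limit), `liou4`. -/
theorem no_bad_bdry (h0 : 0 < β) (h1 : β < 1) {lam Lam : ℝ} (hlam : 0 < lam) (u : Ultrafilter I)
    {ε : I → ℝ} {l : I → E n → B2 n →L[ℝ] ℝ} {f : I → E n → J0 n} {x y : I → E n}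
    (hε : Tendsto ε u (𝓝 0)) (hb : ∀ i, Bad β lam Lam (ε i) (l i) (f i) (x i) (y i)) {R : ℝ}
    (hR : ∀ᶠ i in u, 1 - ‖x i‖ ≤ R * ‖x i - y i‖) : False := by
  have hρ : ∀ i, 0 < ‖x i - y i‖ := fun i => norm_pos_iff.2 (sub_ne_zero.2 (hb i).ne)
  have hρ0 := bad_rho h0 hε hb
  have hx : ∀ᶠ i in u, 0 < ‖x i‖ := by
    filter_upwards [hR, (hρ0.const_mul R).eventually (gt_mem_nhds (by simp : _ < (1 : ℝ)))]
      with i h1 h2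
    linarith
  have hb1 : ∀ᶠ i in u, ‖‖x i‖⁻¹ • x i‖ = 1 := hx.mono fun i hi =>
    norm_smul_inv_norm (norm_pos_iff.1 hi)
  obtain ⟨ν, hν⟩ := ulim u (hb1.mono fun i hi => hi.le)
  have hν1 : ‖ν‖ = 1 := tendsto_nhds_unique hν.norm (tendsto_const_nhds.congr' (hb1.mono
    fun i hi => hi.symm))
  obtain ⟨g, L, a, a', hL, hT, he, ha, ha', hne, hg⟩ := blow_common h0 hlam u hε hb
    (b := fun i => ‖x i‖⁻¹ • x i) (fun i => mem_cB.2 (by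
      rw [norm_smul, norm_inv, norm_norm]; exact inv_mul_le_one)) (R := R) (by
      filter_upwards [hR, hx, hb1] with i h1 h2 h4
      have h3 := mem_cB.1 (hb i).hx
      have e : x i - ‖x i‖⁻¹ • x i = (‖x i‖ - 1) • ‖x i‖⁻¹ • x i := by
        rw [sub_smul, one_smul, smul_inv_smul₀ h2.ne']
      rwa [e, norm_smul, h4, mul_one, Real.norm_eq_abs,
        abs_sub_comm, abs_of_nonneg (by linarith)])
    (limSet_half hb1 hν hρ hρ0).symm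
  obtain ⟨A, B, hAB⟩ := bdry_quad h1 hb1 hν hρ hρ0 hε (fun i => (hb i).bd) (fun i => (hb i).sup) hg
  have hk : ∀ w : E n, (-innerSL ℝ ν) w = 0 → inner ℝ ν w = 0 := fun w hw => neg_eq_zero.1 hw
  refine hne (liou4 h0 h1 hL (ξ := -innerSL ℝ ν) (fun h => ?_) (hT.isJet h0) hT.hs he
    (fun z h₁ h₂ h₃ k0 k1 k2 k3 => ?_) a a' ha ha')
  · have := hk ν (by rw [h]; rfl)
    rw [real_inner_self_eq_norm_sq, hν1] at this
    simp at this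
  · have := bschb_dl (hk _ k1) (bschb_dl (hk _ k2) (bschb_dl (hk _ k3) hAB)) z (hk _ k0)
    simp only [dl3_quad] at this
    exact tendsto_nhds_unique this tendsto_const_nhds

end Pool.Agent.Mink.B
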