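import Pool.Agent.Lib.MP_88c759_an.Mink.BD

/-! Jets: Taylor inequalities, symmetry, limits, completeness of `X`, comparison with `ContDiffOn`. -/

set_option maxSynthPendingDepth 3

namespace Pool.Agent.Mink.B

open scoped ContDiff Topology
open Set Filter

variable {n : ℕ} {β C : ℝ} {V : Type} [NormedAddCommGroup V] [NormedSpace ℝ V]
  {S : Set (E n)} {f g : E n → J0 n}

/-- mean value inequality, `Convex.norm_image_sub_le_of_norm_hasFDerivWithin_le` -/
lemma Der.lip (hS : Convex ℝ S) {a : E n → V} {a' : E n → E n →L[ℝ] V} (h : Der S a a') {M : ℝ}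
    (hM : ∀ x ∈ S, ‖a' x‖ ≤ M) {x y : E n} (hx : x ∈ S) (hy : y ∈ S) :
    ‖a y - a x‖ ≤ M * ‖y - x‖ := by
  exact hS.norm_image_sub_le_of_norm_hasFDerivWithin_le h hM hx hy

/-- `Convex.norm_image_sub_le_of_norm_hasFDerivWithin_le'` on the segment from `x` to `y` -/
lemma Der.tay0 (hS : Convex ℝ S) {a : E n → V} {a' : E n → E n →L[ℝ] V} (h : Der S a a') {M : ℝ}
    {x y : E n} (hx : x ∈ S) (hy : y ∈ S)
    (hM : ∀ z ∈ S, ‖z - x‖ ≤ ‖y - x‖ → ‖a' z - a' x‖ ≤ M) :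
    ‖a y - a x - a' x (y - x)‖ ≤ M * ‖y - x‖ := by
  exact Convex.norm_image_sub_le_of_norm_hasFDerivWithin_le' (s := S ∩ Metric.closedBall x ‖y - x‖)
    (fun z hz => (h z hz.1).mono inter_subset_left)
    (fun z hz => hM z hz.1 (mem_closedBall_iff_norm.1 hz.2)) (hS.inter (convex_closedBall _ _))
    ⟨hx, Metric.mem_closedBall_self (norm_nonneg _)⟩ ⟨hy, mem_closedBall_iff_norm.2 le_rfl⟩
omit [NormedSpace ℝ V] in
lemma bx_nonneg {a : E n → V} (hC : HS β C S a) {x y : E n} (hx : x ∈ S) (hy : y ∈ S)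
    (e : y ≠ x) : 0 ≤ C :=
  nonneg_of_mul_nonneg_left ((norm_nonneg _).trans (hC y hy x hx))
    (Real.rpow_pos_of_pos (norm_pos_iff.2 (sub_ne_zero.2 e)) β)

lemma bx_rpow (hβ : 0 < β) {d : ℝ} (hd : 0 ≤ d) : d ^ (1 + β) = d ^ β * d := by
  rw [add_comm, Real.rpow_add' hd (by positivity), Real.rpow_one]


/-- Hölder constants may be taken nonnegative when it matters: if `C < 0` then `S` has at most one
point. So no sign condition on `C`. -/
lemma Der.tay1 (hβ : 0 < β) (hS : Convex ℝ S) {a : E n → V} {a' : E n → E n →L[ℝ] V}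
    (h : Der S a a') (hC : HS β C S a') {x y : E n} (hx : x ∈ S) (hy : y ∈ S) :
    ‖a y - a x - a' x (y - x)‖ ≤ C * ‖y - x‖ ^ (1 + β) := by
  rcases eq_or_ne y x with e | e
  · rw [e, bx_rpow hβ (norm_nonneg _)]
    simp
  have hC0 := bx_nonneg hC hx hy e
  rw [bx_rpow hβ (norm_nonneg _), ← mul_assoc]
  exact h.tay0 hS hx hy fun z hz hzx => (hC z hz x hx).trans
    (mul_le_mul_of_nonneg_left (Real.rpow_le_rpow (norm_nonneg _) hzx hβ.le) hC0)

lemma der_of_tay {a : E n → V} {a' : E n → E n →L[ℝ] V} {e : E n → E n → ℝ}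
    (he : ∀ x ∈ S, Tendsto (e x) (𝓝[S] x) (𝓝 0))
    (h : ∀ x ∈ S, ∀ y ∈ S, ‖a y - a x - a' x (y - x)‖ ≤ e x y * ‖y - x‖) : Der S a a' := by
  intro x hx
  rw [hasFDerivWithinAt_iff_isLittleO]
  refine Asymptotics.IsLittleO.of_bound fun c hc => ?_
  filter_upwards [self_mem_nhdsWithin, (he x hx).eventually (gt_mem_nhds hc)] with y hy hyc
  exact (h x hx y hy).trans (mul_le_mul_of_nonneg_right hyc.le (norm_nonneg _))

lemma IsJet.tay (hβ : 0 < β) (hS : Convex ℝ S) (hf : IsJet S f) (hC : HS β C S fun x => (f x).1) :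
    Tay β C S f := by
  intro x hx y hy
  refine ⟨hC y hy x hx, hf.2.tay1 hβ hS hC hx hy, ?_⟩
  rcases eq_or_ne y x with e | e
  · rw [e]
    simp
  have hC0 := bx_nonneg hC hx hy e
  rw [sq, ← mul_assoc]
  refine hf.1.tay0 hS hx hy fun z hz hzx => ?_
  have h1 := hf.2.tay1 hβ hS hC hx hz
  have h2 : ‖(f x).1 (z - x)‖ ≤ ‖(f x).1‖ * ‖y - x‖ :=
    ((f x).1.le_opNorm _).trans (mul_le_mul_of_nonneg_left hzx (norm_nonneg _))
  have h3 : C * ‖z - x‖ ^ (1 + β) ≤ C * ‖y - x‖ ^ (1 + β) :=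
    mul_le_mul_of_nonneg_left (Real.rpow_le_rpow (norm_nonneg _) hzx (by positivity)) hC0
  have h4 := norm_add_le ((f z).2.1 - (f x).2.1 - (f x).1 (z - x)) ((f x).1 (z - x))
  rw [sub_add_cancel] at h4
  rw [bx_rpow hβ (norm_nonneg (y - x))] at h3
  linarith
lemma bx_tend (hβ : 0 < β) (C : ℝ) (x : E n) :
    Tendsto (fun y : E n => C * ‖y - x‖ ^ β) (𝓝 x) (𝓝 0) := by
  have : Continuous fun y : E n => C * ‖y - x‖ ^ β :=
    continuous_const.mul ((continuous_id.sub continuous_const).norm.rpow_const fun _ => Or.inr hβ.le)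
  simpa [hβ.ne'] using this.tendsto x


lemma Tay.isJet (hβ : 0 < β) (h : Tay β C S f) : IsJet S f := by
  constructor
  · refine der_of_tay (e := fun x y => (‖(f x).1‖ + C * ‖y - x‖ ^ β) * ‖y - x‖) (fun x _ => ?_)
      fun x hx y hy => ?_
    · have h1 : Tendsto (fun y : E n => ‖y - x‖) (𝓝 x) (𝓝 0) := tendsto_norm_sub_self x
      have h2 := ((bx_tend hβ C x).const_add ‖(f x).1‖).mul h1
      rw [mul_zero] at h2
      exact tendsto_nhdsWithin_of_tendsto_nhds h2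
    · rw [mul_assoc, ← sq]
      exact (h x hx y hy).2.2
  · refine der_of_tay (e := fun x y => C * ‖y - x‖ ^ β)
      (fun x _ => tendsto_nhdsWithin_of_tendsto_nhds (bx_tend hβ C x)) fun x hx y hy => ?_
    rw [mul_assoc, ← bx_rpow hβ (norm_nonneg _)]
    exact (h x hx y hy).2.1

lemma Tay.hs (h : Tay β C S f) : HS β C S fun x => (f x).1 := fun x hx y hy => (h y hy x hx).1

/-- `Convex.second_derivative_within_at_symmetric` -/
lemma IsJet.sym (hS : Convex ℝ S) (hne : (interior S).Nonempty) (hf : IsJet S f) {x : E n}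
    (hx : x ∈ S) : Sym (f x).1 := by
  exact fun v w => hS.second_derivative_within_at_symmetric hne
    (fun z hz => (hf.1 z (interior_subset hz)).hasFDerivAt (mem_interior_iff_mem_nhds.1 hz)) hx
    ((hf.2 x hx).mono interior_subset) v w

lemma IsJet.sym_cB (hf : IsJet (cB n) f) {x : E n} (hx : x ∈ cB n) : Sym (f x).1 :=
  hf.sym convex_cB ⟨0, by rw [interior_cB, mem_oB]; simp⟩ hx

/-- a jet is determined by its values -/
lemma IsJet.unique (hS : UniqueDiffOn ℝ S) (hf : IsJet S f) (hg : IsJet S g)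
    (e : ∀ x ∈ S, (f x).2.2 = (g x).2.2) {x : E n} (hx : x ∈ S) : f x = g x := by
  have h1 : ∀ y ∈ S, (f y).2.1 = (g y).2.1 := fun y hy =>
    (hS y hy).eq (hf.1 y hy) ((hg.1 y hy).congr e (e y hy))
  have h2 : (f x).1 = (g x).1 := (hS x hx).eq (hf.2 x hx) ((hg.2 x hx).congr h1 (h1 x hx))
  exact Prod.ext h2 (Prod.ext (h1 x hx) (e x hx))
lemma bx_fst {f : E n → J0 n} (h : HS β C S f) : HS β C S fun x => (f x).1 := fun x hx y hy =>
  (norm_fst_le (f x - f y)).trans (h x hx y hy)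


/-- Bounded pointwise limits along an ultrafilter (`ulim`, `IsJet.tay`, `Tay.isJet`,
`le_of_tendsto`). -/
theorem jlim (hβ : 0 < β) {I : Type} (u : Ultrafilter I) {F : I → E n → J0 n}
    (h : ∀ᶠ i in u, IsJet (cB n) (F i) ∧ HolC β C (F i)) :
    ∃ g : E n → J0 n, IsJet (cB n) g ∧ HolC β C g ∧
      ∀ x ∈ cB n, Tendsto (fun i => F i x) u (𝓝 (g x)) := by
  have h0 : ∀ x, ∃ v : J0 n, x ∈ cB n → Tendsto (fun i => F i x) u (𝓝 v) := fun x => by
    by_cases hx : x ∈ cB n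
    · obtain ⟨v, hv⟩ := ulim u (g := fun i => F i x) (h.mono fun i hi => hi.2.1 x hx)
      exact ⟨v, fun _ => hv⟩
    · exact ⟨0, fun h => absurd h hx⟩
  choose g hg using h0
  have hT := h.mono fun i hi => hi.1.tay hβ convex_cB (bx_fst hi.2.2)
  refine ⟨g, Tay.isJet (C := C) hβ fun x hx y hy => ?_,
    ⟨fun x hx => le_of_tendsto (hg x hx).norm (h.mono fun i hi => hi.2.1 x hx),
      fun x hx y hy => le_of_tendsto ((hg x hx).sub (hg y hy)).norm
        (h.mono fun i hi => hi.2.2 x hx y hy)⟩, hg⟩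
  have x1 := (hg x hx).fst_nhds
  have x2 := (hg x hx).snd_nhds.fst_nhds
  have x3 := (hg x hx).snd_nhds.snd_nhds
  have y1 := (hg y hy).fst_nhds
  have y2 := (hg y hy).snd_nhds.fst_nhds
  have y3 := (hg y hy).snd_nhds.snd_nhds
  have x4 := ((ContinuousLinearMap.apply ℝ (B1 n) (y - x)).continuous.tendsto _).comp x1
  have x5 := ((ContinuousLinearMap.apply ℝ ℝ (y - x)).continuous.tendsto _).comp x2
  exact ⟨le_of_tendsto (y1.sub x1).norm (hT.mono fun i hi => (hi x hx y hy).1),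
    le_of_tendsto ((y2.sub x2).sub x4).norm (hT.mono fun i hi => (hi x hx y hy).2.1),
    le_of_tendsto_of_tendsto ((y3.sub x3).sub x5).norm
      ((x1.norm.add_const _).mul_const _) (hT.mono fun i hi => (hi x hx y hy).2.2)⟩

/-- `X n β` is closed in `H`: by `jlim` or by passing to the limit in the Taylor inequalities. -/
theorem completeX (hβ : 0 < β) : CompleteSpace (X n β) := by
  have : IsClosed (X n β : Set (H n β (J0 n))) := by
    refine isClosed_of_closure_subset fun w hw => ?_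
    obtain ⟨u, hu, hw⟩ := mem_closure_iff_ultrafilter.1 hw
    have h1 : ∀ᶠ i : H n β (J0 n) in (u : Filter (H n β (J0 n))), ‖i‖ < ‖w‖ + 1 :=
      (continuous_norm.tendsto w).eventually (gt_mem_nhds (lt_add_one _)) |>.filter_mono hw
    have hu' : ∀ᶠ i : H n β (J0 n) in (u : Filter (H n β (J0 n))), i ∈ X n β := hu
    obtain ⟨g, hg, -, hl⟩ := jlim hβ u (F := fun i x => i x) (C := ‖w‖ + 1) (by
      filter_upwards [h1, hu'] with i hi hi'
      exact ⟨hi'.1, i.holC.mono hi.le⟩)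
    have h2 : ∀ x, Tendsto (fun i : H n β (J0 n) => i x) u (𝓝 (w x)) := fun x =>
      ((H.ev x).continuous.tendsto w).mono_left hw
    refine ⟨hg.congr fun x hx => tendsto_nhds_unique (h2 x) (hl x hx), fun x hx => ?_⟩
    exact tendsto_nhds_unique (h2 x).snd_nhds.snd_nhds
      (tendsto_const_nhds.congr' (hu'.mono fun i hi => (hi.2 x hx).symm))
  exact this.completeSpace_coe
lemma bx_low (h0 : 0 ≤ β) (h1 : β ≤ 1) (hf : IsJet (cB n) f) {M : ℝ}
    (hM : ∀ x ∈ cB n, ‖f x‖ ≤ M) : HS β (2 * M) (cB n) fun x => (f x).2 := by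
  intro x hx y hy
  have hM0 : 0 ≤ M := (norm_nonneg _).trans (hM x hx)
  have h2 : M * ‖x - y‖ ≤ 2 * M * ‖x - y‖ ^ β := by
    have := mul_le_mul_of_nonneg_left (norm_sub_le_rpow h0 h1 hx hy) hM0
    linarith
  exact norm_prod_le_iff.2
    ⟨(hf.2.lip convex_cB (fun z hz => (norm_fst_le (f z)).trans (hM z hz)) hy hx).trans h2,
      (hf.1.lip convex_cB (fun z hz => (norm_fst_le (f z).2).trans
        ((norm_snd_le (f z)).trans (hM z hz))) hy hx).trans h2⟩


/-- sup bound and Hölder bound of the top component give a Hölder bound of the jet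
(`Der.lip`, `norm_sub_le_rpow`) -/
lemma IsJet.holC (h0 : 0 ≤ β) (h1 : β ≤ 1) (hf : IsJet (cB n) f) {M : ℝ}
    (hM : ∀ x ∈ cB n, ‖f x‖ ≤ M) (hC0 : 0 ≤ C) (hC : HS β C (cB n) fun x => (f x).1) :
    HolC β (2 * M + C) f := by
  have hM0 : 0 ≤ M := (norm_nonneg _).trans (hM 0 zero_mem_cB)
  exact ⟨fun x hx => (hM x hx).trans (by linarith), fun x hx y hy => norm_prod_le_iff.2
    ⟨hC.mono (by linarith) x hx y hy, (bx_low h0 h1 hf hM).mono (by linarith) x hx y hy⟩⟩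

/-- the lower order part alone -/
lemma IsJet.holC_low (h0 : 0 ≤ β) (h1 : β ≤ 1) (hf : IsJet (cB n) f) {M : ℝ}
    (hM : ∀ x ∈ cB n, ‖f x‖ ≤ M) : HolC β (2 * M) fun x => ((0, (f x).2) : J0 n) := by
  have hM0 : 0 ≤ M := (norm_nonneg _).trans (hM 0 zero_mem_cB)
  refine ⟨fun x hx => norm_prod_le_iff.2 ⟨by rw [norm_zero]; positivity,
    ((norm_snd_le (f x)).trans (hM x hx)).trans (by linarith)⟩, fun x hx y hy =>
      norm_prod_le_iff.2 ⟨?_, bx_low h0 h1 hf hM x hx y hy⟩⟩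
  rw [Prod.fst_sub, sub_self, norm_zero]
  positivity
lemma bx_D1 {v : E n → ℝ} {m : ℕ} (hv : ContDiffOn ℝ (m + 1 : ℕ) v (cB n)) :
    ContDiffOn ℝ m (D1 (cB n) v) (cB n) :=
  hv.fderivWithin uniqueDiffOn_cB (by push_cast; exact le_rfl)

lemma bx_D2 {v : E n → ℝ} {m : ℕ} (hv : ContDiffOn ℝ (m + 2 : ℕ) v (cB n)) :
    ContDiffOn ℝ m (D2 (cB n) v) (cB n) :=
  (bx_D1 (m := m + 1) hv).fderivWithin uniqueDiffOn_cB (by push_cast; exact le_rfl)


lemma isJet_j0 {v : E n → ℝ} (hv : ContDiffOn ℝ 2 v (cB n)) : IsJet (cB n) (j0 v) := by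
  exact ⟨fun x hx => (hv.differentiableOn (by norm_num) x hx).hasFDerivWithinAt,
    fun x hx => ((bx_D1 (m := 1) hv).differentiableOn (by norm_num) x hx).hasFDerivWithinAt⟩

/-- `D2 v` is `C¹` on the compact convex ball, hence Lipschitz -/
lemma hol_j0 (h0 : 0 ≤ β) (h1 : β ≤ 1) {v : E n → ℝ} (hv : ContDiffOn ℝ 3 v (cB n)) :
    Hol β (j0 v) := by
  have hv2 : ContDiffOn ℝ 2 v (cB n) := hv.of_le (by norm_num)
  have hc : ContinuousOn (j0 v) (cB n) := (bx_D2 (m := 0) hv2).continuousOn.prodMk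
    ((bx_D1 (m := 1) hv2).continuousOn.prodMk hv.continuousOn)
  have h3 : ContinuousOn (D3 (cB n) v) (cB n) :=
    ((bx_D2 (m := 1) hv).fderivWithin (m := 0) uniqueDiffOn_cB (by norm_num)).continuousOn
  have hd : Der (cB n) (D2 (cB n) v) (D3 (cB n) v) := fun x hx =>
    ((bx_D2 (m := 1) hv).differentiableOn (by norm_num) x hx).hasFDerivWithinAt
  obtain ⟨M, hM⟩ := isCompact_cB.exists_bound_of_continuousOn hc
  obtain ⟨K, hK⟩ := isCompact_cB.exists_bound_of_continuousOn h3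
  have hK0 : 0 ≤ K := (norm_nonneg _).trans (hK 0 zero_mem_cB)
  refine ⟨_, (isJet_j0 hv2).holC (C := 2 * K) h0 h1 hM (by positivity) fun x hx y hy => ?_⟩
  have h4 := hd.lip convex_cB hK hy hx
  have h5 := mul_le_mul_of_nonneg_left (norm_sub_le_rpow h0 h1 hx hy) hK0
  exact h4.trans (h5.trans_eq (by ring))

/-- `HasFDerivWithinAt.fderivWithin`, `fderivWithin_congr` -/
lemma IsJet.j0_eq (hf : IsJet (cB n) f) {x : E n} (hx : x ∈ cB n) :
    j0 (fun y => (f y).2.2) x = f x := by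
  have h1 : ∀ y ∈ cB n, D1 (cB n) (fun y => (f y).2.2) y = (f y).2.1 := fun y hy =>
    (hf.1 y hy).fderivWithin (uniqueDiffOn_cB y hy)
  have h2 : D2 (cB n) (fun y => (f y).2.2) x = (f x).1 :=
    ((hf.2 x hx).congr h1 (h1 x hx)).fderivWithin (uniqueDiffOn_cB x hx)
  exact Prod.ext h2 (Prod.ext (h1 x hx) rfl)

/-- `contDiffOn_succ_iff_hasFDerivWithinAt_of_uniqueDiffOn` -/
lemma Der.contDiffOn {a : E n → V} {a' : E n → E n →L[ℝ] V} (h : Der (cB n) a a') (m : ℕ)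
    (h' : ContDiffOn ℝ m a' (cB n)) : ContDiffOn ℝ (m + 1 : ℕ) a (cB n) := by
  push_cast
  exact (contDiffOn_succ_iff_hasFDerivWithinAt_of_uniqueDiffOn uniqueDiffOn_cB).2
    ⟨fun e => absurd e (by simp), a', h', h⟩

lemma IsJet.contDiffOn (hf : IsJet (cB n) f) (hc : ContinuousOn (fun x => (f x).1) (cB n)) :
    ContDiffOn ℝ 2 (fun x => (f x).2.2) (cB n) := by
  exact hf.1.contDiffOn 1 (hf.2.contDiffOn 0 (contDiffOn_zero.2 hc))

lemma IsJet.c3a (hβ : 0 < β) (hf : IsJet (cB n) f) {s : E n → B3 n}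
    (hs : Der (cB n) (fun x => (f x).1) s) (hC : HS β C (cB n) s) :
    C3a (cB n) β fun x => (f x).2.2 := by
  have h2 : ∀ y ∈ cB n, D2 (cB n) (fun y => (f y).2.2) y = (f y).1 := fun y hy =>
    congrArg Prod.fst (hf.j0_eq hy)
  have h3 : ∀ y ∈ cB n, D3 (cB n) (fun y => (f y).2.2) y = s y := fun y hy =>
    ((hs y hy).congr h2 (h2 y hy)).fderivWithin (uniqueDiffOn_cB y hy)
  refine ⟨hf.1.contDiffOn 2 (hf.2.contDiffOn 1 (hs.contDiffOn 0
    (contDiffOn_zero.2 (hC.continuousOn hβ)))), C, fun x hx y hy => ?_⟩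
  rw [h3 x hx, h3 y hy]
  exact hC x hx y hy

lemma isJet_gj {v : E n → ℝ} (hv : ContDiff ℝ 2 v) (S : Set (E n)) : IsJet S (gj v) := by
  exact ⟨fun x _ => (hv.differentiable (by norm_num) x).hasFDerivAt.hasFDerivWithinAt,
    fun x _ => ((hv.fderiv_right (m := 1) (by norm_num)).differentiable (by norm_num)
      x).hasFDerivAt.hasFDerivWithinAt⟩

lemma contDiff_gj (m : ℕ) {v : E n → ℝ} (hv : ContDiff ℝ (m + 2 : ℕ) v) : ContDiff ℝ m (gj v) := by
  have h1 : ContDiff ℝ (m + 1 : ℕ) (fderiv ℝ v) := hv.fderiv_right (by push_cast; exact le_rfl)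
  have h2 : ContDiff ℝ m (fderiv ℝ (fderiv ℝ v)) := h1.fderiv_right (by push_cast; exact le_rfl)
  exact h2.prodMk ((h1.of_le (by exact_mod_cast Nat.le_succ m)).prodMk
    (hv.of_le (by exact_mod_cast Nat.le_add_right m 2)))

end Pool.Agent.Mink.B
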