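import Mathlib

/-!
Shared interface for the Dirichlet problem by the continuity method on the closed unit ball.
A second order jet is `(r, p, z, x)` = (second derivative, first derivative, value, point).
-/

set_option maxSynthPendingDepth 3

namespace Pool.Agent.Mink

open scoped ContDiff
open Set

abbrev E (n : ℕ) : Type := EuclideanSpace ℝ (Fin n)
abbrev B1 (n : ℕ) : Type := E n →L[ℝ] ℝ
abbrev B2 (n : ℕ) : Type := E n →L[ℝ] E n →L[ℝ] ℝ
abbrev B3 (n : ℕ) : Type := E n →L[ℝ] E n →L[ℝ] E n →L[ℝ] ℝ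
abbrev Jet (n : ℕ) : Type := B2 n × B1 n × ℝ × E n

/- shortcut instances (they only speed up instance search) -/
noncomputable instance instB1a (n : ℕ) : NormedAddCommGroup (B1 n) := inferInstance
noncomputable instance instB1b (n : ℕ) : NormedSpace ℝ (B1 n) := inferInstance
noncomputable instance instB2a (n : ℕ) : NormedAddCommGroup (B2 n) := inferInstance
noncomputable instance instB2b (n : ℕ) : NormedSpace ℝ (B2 n) := inferInstance
noncomputable instance instB3a (n : ℕ) : NormedAddCommGroup (B3 n) := inferInstance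
noncomputable instance instB3b (n : ℕ) : NormedSpace ℝ (B3 n) := inferInstance
noncomputable instance instJa (n : ℕ) : NormedAddCommGroup (Jet n) := inferInstance
noncomputable instance instJb (n : ℕ) : NormedSpace ℝ (Jet n) := inferInstance
noncomputable instance instPa (n : ℕ) : NormedAddCommGroup (ℝ × Jet n) := inferInstance
noncomputable instance instPb (n : ℕ) : NormedSpace ℝ (ℝ × Jet n) := inferInstance

/-- closed unit ball -/
def cB (n : ℕ) : Set (E n) := Metric.closedBall 0 1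
/-- open unit ball -/
def oB (n : ℕ) : Set (E n) := Metric.ball 0 1
/-- unit sphere -/
def sB (n : ℕ) : Set (E n) := Metric.sphere 0 1

variable {n : ℕ}

/-- first derivative within `S` -/
noncomputable def D1 (S : Set (E n)) (u : E n → ℝ) : E n → B1 n := fderivWithin ℝ u S
/-- second derivative within `S` -/
noncomputable def D2 (S : Set (E n)) (u : E n → ℝ) : E n → B2 n := fderivWithin ℝ (D1 S u) S
/-- third derivative within `S` -/
noncomputable def D3 (S : Set (E n)) (u : E n → ℝ) : E n → B3 n :=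
  fderivWithin ℝ (D2 S u) S

/-- the 2-jet of `u` at `x`, derivatives taken within `S` -/
noncomputable def jet (S : Set (E n)) (u : E n → ℝ) (x : E n) : Jet n :=
  (D2 S u x, D1 S u x, u x, x)

/-- `u ∈ C^{3,α}(S)` -/
def C3a (S : Set (E n)) (α : ℝ) (u : E n → ℝ) : Prop :=
  ContDiffOn ℝ 3 u S ∧ ∃ C : ℝ, ∀ x ∈ S, ∀ y ∈ S, ‖D3 S u x - D3 S u y‖ ≤ C * ‖x - y‖ ^ α

/-- symmetric bilinear form -/
def Sym (r : B2 n) : Prop := ∀ v w, r v w = r w v
/-- symmetric positive semidefinite bilinear form -/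
def Psd (m : B2 n) : Prop := Sym m ∧ ∀ v, 0 ≤ m v v
/-- uniformly elliptic coefficient functional (`l r` is `a^{ij} r_{ij}`) -/
def Ell (lam Lam : ℝ) (l : B2 n →L[ℝ] ℝ) : Prop :=
  (∀ m, Psd m → lam * ‖m‖ ≤ l m) ∧ ‖l‖ ≤ Lam

/-- A family (parameter `t ∈ [0,1]`) of concave elliptic equations `F (t, jet) = 0` on the closed
unit ball, defined on the open set `A` of admissible jets, nonincreasing in the value. -/
structure Fam (A : Set (ℝ × Jet n)) (F : ℝ × Jet n → ℝ) : Prop where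
  isOpen : IsOpen A
  smooth : ContDiffOn ℝ ∞ F A
  conc : ∀ t ∈ Icc (0:ℝ) 1, ∀ (p : B1 n) (z : ℝ), ∀ x ∈ cB n,
    ConcaveOn ℝ {r : B2 n | Sym r ∧ (t, r, p, z, x) ∈ A} (fun r => F (t, r, p, z, x))
  ell : ∀ t ∈ Icc (0:ℝ) 1, ∀ (r : B2 n) (p : B1 n) (z : ℝ), ∀ x ∈ cB n, Sym r →
    (t, r, p, z, x) ∈ A → ∀ m : B2 n, Psd m → m ≠ 0 →
      0 < fderiv ℝ F (t, r, p, z, x) (0, m, 0, 0, 0)
  mono : ∀ t ∈ Icc (0:ℝ) 1, ∀ (r : B2 n) (p : B1 n) (z : ℝ), ∀ x ∈ cB n, Sym r →
    (t, r, p, z, x) ∈ A → fderiv ℝ F (t, r, p, z, x) (0, 0, 0, 1, 0) ≤ 0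

/-- `v ∈ C²(closed ball) ∩ C⁴(open ball)` is an admissible solution at parameter `t` with
boundary values `φ`. -/
structure Sol (A : Set (ℝ × Jet n)) (F : ℝ × Jet n → ℝ) (t : ℝ) (φ v : E n → ℝ) : Prop where
  c2 : ContDiffOn ℝ 2 v (cB n)
  c4 : ContDiffOn ℝ 4 v (oB n)
  mem : ∀ x ∈ cB n, (t, jet (cB n) v x) ∈ A
  eq : ∀ x ∈ cB n, F (t, jet (cB n) v x) = 0
  bd : ∀ x ∈ sB n, v x = φ x

end Pool.Agent.Mink
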