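import Pool.Agent.Lib.MP_88c759_an.Mink.Base

/-! Definitions for part C (geometry of spacelike graphs). -/

set_option maxSynthPendingDepth 3

namespace Pool.Agent.Mink.C

open scoped ContDiff Topology RealInnerProductSpace
open Set Filter

/-- `f` is twice differentiable at `0` with value `a`, first derivative `b`, second derivative `c`. -/
def J2 {V : Type} [NormedAddCommGroup V] [NormedSpace ℝ V] (f : ℝ → V) (a b c : V) : Prop :=
  ∃ f' : ℝ → V, (∀ᶠ t in 𝓝 (0:ℝ), HasDerivAt f (f' t) t) ∧ HasDerivAt f' c 0 ∧ f 0 = a ∧ f' 0 = b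

section Sym
variable {ι : Type} [DecidableEq ι]

/-- elementary symmetric polynomial of degree `j` in the variables `x i`, `i ∈ s` -/
def es (s : Finset ι) (j : ℕ) (x : ι → ℝ) : ℝ := ∑ T ∈ s.powersetCard j, ∏ i ∈ T, x i

/-- the Gårding cone -/
def Gam (s : Finset ι) (k : ℕ) (x : ι → ℝ) : Prop := ∀ j, 1 ≤ j → j ≤ k → 0 < es s j x

/-- first derivative of `es s j` at `x` in direction `ξ` -/
def e1 (s : Finset ι) (j : ℕ) (x ξ : ι → ℝ) : ℝ :=
  if j = 0 then 0 else ∑ i ∈ s, ξ i * es (s.erase i) (j - 1) x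

/-- second derivative of `es s j` at `x` in direction `ξ` -/
def e2 (s : Finset ι) (j : ℕ) (x ξ : ι → ℝ) : ℝ :=
  if j < 2 then 0 else ∑ p ∈ s, ∑ q ∈ s.erase p, ξ p * ξ q * es ((s.erase p).erase q) (j - 2) x

/-- minus the second derivative of `log (es s j)` -/
noncomputable def Gq (s : Finset ι) (j : ℕ) (x ξ : ι → ℝ) : ℝ :=
  (e1 s j x ξ) ^ 2 / (es s j x) ^ 2 - e2 s j x ξ / es s j x

/-- the quotient `σ_k / σ_{k-1}` -/
noncomputable def qq (s : Finset ι) (k : ℕ) (x : ι → ℝ) : ℝ := es s k x / es s (k - 1) x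

/-- first derivative of the quotient -/
noncomputable def dq (s : Finset ι) (k : ℕ) (x ξ : ι → ℝ) : ℝ :=
  (e1 s k x ξ * es s (k - 1) x - es s k x * e1 s (k - 1) x ξ) / (es s (k - 1) x) ^ 2

/-- sum of the principal `j × j` minors -/
noncomputable def sM [Fintype ι] (j : ℕ) (M : Matrix ι ι ℝ) : ℝ :=
  ∑ T ∈ Finset.univ.powersetCard j,
    (M.submatrix (Subtype.val : T → ι) (Subtype.val : T → ι)).det

end Sym

variable {n : ℕ}

/-- standard basis vector -/
noncomputable def ee (i : Fin n) : E n := EuclideanSpace.single i 1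

/-- the vector representing a covector -/
noncomputable def shp (p : B1 n) : E n := (InnerProductSpace.toDual ℝ (E n)).symm p

/-- the tensor square of a covector, as a bilinear form -/
noncomputable def sq1 (p : B1 n) : B2 n := p.smulRight p

/-- induced metric of a graph with gradient `p` -/
noncomputable def gp (p : B1 n) (v w : E n) : ℝ := ⟪v, w⟫ - p v * p w

/-- the covector `gp p v ·` -/
noncomputable def gfl (p : B1 n) (v : E n) : B1 n := innerSL ℝ v - p v • p

/-- `W = 1 / sqrt (1 - |p|²)` -/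
noncomputable def Wp (p : B1 n) : ℝ := (Real.sqrt (1 - ‖p‖ ^ 2))⁻¹

/-- shape operator `g⁻¹ h` in the standard basis -/
noncomputable def shape (p : B1 n) (r : B2 n) : Matrix (Fin n) (Fin n) ℝ :=
  Matrix.of fun i j => Wp p * (r (ee i) (ee j) + Wp p ^ 2 * p (ee i) * r (shp p) (ee j))

/-- `σ_j` of the principal curvatures -/
noncomputable def SS (j : ℕ) (p : B1 n) (r : B2 n) : ℝ := sM j (shape p r)

/-- spacelike and `k`-admissible jet -/
def Adm (k : ℕ) (p : B1 n) (r : B2 n) : Prop := ‖p‖ < 1 ∧ ∀ j, 1 ≤ j → j ≤ k → 0 < SS j p r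

/-- `gp p`-orthonormal frame -/
def IsFrame (p : B1 n) (e : Fin n → E n) : Prop :=
  ∀ a b, gp p (e a) (e b) = if a = b then 1 else 0

/-- frame diagonalising the second fundamental form, with principal curvatures `κ` -/
def Diag (p : B1 n) (r : B2 n) (e : Fin n → E n) (κ : Fin n → ℝ) : Prop :=
  IsFrame p e ∧ ∀ a b, Wp p * r (e a) (e b) = if a = b then κ a else 0

/-- directional derivative -/
noncomputable def dd (v : E n) (f : E n → ℝ) : E n → ℝ := fun x => fderiv ℝ f x v

/-- Kronecker delta -/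
def dl (a b : Fin n) : ℝ := if a = b then 1 else 0

/-- covariant derivative of the second fundamental form in a diagonalising frame:
`w` = `Wp`, `b a` = `Du (e a)`, `V` = third derivatives of `u` -/
noncomputable def TT (w : ℝ) (κ b : Fin n → ℝ) (V : Fin n → Fin n → Fin n → ℝ) (i l a : Fin n) : ℝ :=
  w * V i l a +
    (dl i l * κ i * κ a * b a + dl a i * κ a * κ l * b l + dl a l * κ a * κ i * b i) / w

/-- second derivative of `Wp (Du)` along `e a` -/
noncomputable def W2 (w : ℝ) (κ b : Fin n → ℝ) (V : Fin n → Fin n → Fin n → ℝ) (a : Fin n) : ℝ :=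
  w * κ a ^ 2 + 2 * κ a ^ 2 * b a ^ 2 / w + w * ∑ j, b j * V j a a

/-- first derivative of the frame matrix of the shape operator along `e a` -/
noncomputable def M1 (w : ℝ) (κ b : Fin n → ℝ) (V : Fin n → Fin n → Fin n → ℝ) (i l a : Fin n) : ℝ :=
  TT w κ b V i l a + dl l a * κ a / w * b i * (κ a - κ i)

/-- second derivative of its diagonal entries; `z i a` = fourth derivative `u_{iiaa}` -/
noncomputable def M2 (w : ℝ) (κ b : Fin n → ℝ) (V : Fin n → Fin n → Fin n → ℝ)
    (z : Fin n → Fin n → ℝ) (i a : Fin n) : ℝ :=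
  w * z i a + 2 * κ a * b a * V i i a + W2 w κ b V a * κ i / w
    + 2 * κ a / w * (dl i a * (∑ m, b m * M1 w κ b V m i a) + b i * M1 w κ b V a i a)
    + (2 * V i a a * b i + 2 * κ a ^ 2 / w ^ 2 * dl i a) * κ i

/-- `σ_{k-1}(κ|i)` -/
def fk (k : ℕ) (κ : Fin n → ℝ) (i : Fin n) : ℝ := es (Finset.univ.erase i) (k - 1) κ

/-- `σ_{k-2}(κ|pq)` -/
def sk (k : ℕ) (κ : Fin n → ℝ) (p q : Fin n) : ℝ := es ((Finset.univ.erase p).erase q) (k - 2) κ

/-- first derivative of `σ_k[u]` along `e a` -/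
noncomputable def S1 (k : ℕ) (w : ℝ) (κ b : Fin n → ℝ) (V : Fin n → Fin n → Fin n → ℝ)
    (a : Fin n) : ℝ := ∑ i, fk k κ i * TT w κ b V i i a

/-- second derivative of `σ_k[u]` along `e a` -/
noncomputable def S2 (k : ℕ) (w : ℝ) (κ b : Fin n → ℝ) (V : Fin n → Fin n → Fin n → ℝ)
    (z : Fin n → Fin n → ℝ) (a : Fin n) : ℝ :=
  ∑ i, fk k κ i * M2 w κ b V z i a + ∑ p, ∑ q ∈ Finset.univ.erase p,
    sk k κ p q * (M1 w κ b V p p a * M1 w κ b V q q a - M1 w κ b V p q a * M1 w κ b V q p a)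

/-- second derivative along `e a` of the Rayleigh quotient at `e o` (parallel test field) -/
noncomputable def R2 (w : ℝ) (κ b : Fin n → ℝ) (V : Fin n → Fin n → Fin n → ℝ)
    (z : Fin n → Fin n → ℝ) (o a : Fin n) : ℝ :=
  w * z o a + 2 * κ a * b a * V o o a + W2 w κ b V a * κ o / w
    + κ o * (2 * V o a a * b o + 2 * κ a ^ 2 / w ^ 2 * dl o a)
    + 4 * TT w κ b V o o a * κ a / w * dl o a * b o
    + dl a o * ∑ p ∈ Finset.univ.erase o,
        (4 * κ o / w * b p * TT w κ b V o o p + 2 * κ o ^ 2 / w ^ 2 * b p ^ 2 * (κ o - κ p))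

end Pool.Agent.Mink.C
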