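import Pool.Agent.Lib.MP_88c759_an.Mink.CDef

/-! More definitions for part C. -/

set_option maxSynthPendingDepth 3

namespace Pool.Agent.Mink.C

open scoped ContDiff Topology RealInnerProductSpace
open Set Filter

variable {n : ℕ}

noncomputable def d1 (u : E n → ℝ) : E n → B1 n := fderiv ℝ u
noncomputable def d2 (u : E n → ℝ) : E n → B2 n := fderiv ℝ (d1 u)
noncomputable def d3 (u : E n → ℝ) : E n → B3 n := fderiv ℝ (d2 u)
noncomputable def d4 (u : E n → ℝ) : E n → (E n →L[ℝ] B3 n) := fderiv ℝ (d3 u)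

/-- third derivatives in a frame -/
noncomputable def V3 (u : E n → ℝ) (x : E n) (e : Fin n → E n) (i l m : Fin n) : ℝ :=
  d3 u x (e i) (e l) (e m)
/-- fourth derivatives `u_{iiaa}` in a frame -/
noncomputable def z4 (u : E n → ℝ) (x : E n) (e : Fin n → E n) (i a : Fin n) : ℝ :=
  d4 u x (e a) (e a) (e i) (e i)

/-- matrix of the shape operator of the jet `(p', r')` in a frame `e` of `gp p` -/
noncomputable def Mf (p : B1 n) (e : Fin n → E n) (p' : B1 n) (r' : B2 n) :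
    Matrix (Fin n) (Fin n) ℝ :=
  Matrix.of fun a b => Wp p' *
    gp p (e a) (shp (r'.flip (e b)) + (Wp p' ^ 2 * r' (shp p') (e b)) • shp p')

/-- A Killing field of Minkowski space based at `(x₀, z₀)`: translation `(av, al)`, rotation `S`,
boost `be`. -/
structure Kil (n : ℕ) where
  x₀ : E n
  z₀ : ℝ
  al : ℝ
  av : E n
  be : E n
  S : E n →L[ℝ] E n

/-- space part -/
noncomputable def Kil.v (K : Kil n) (x : E n) (z : ℝ) : E n :=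
  K.av + K.S (x - K.x₀) + (z - K.z₀) • K.be
/-- time part -/
noncomputable def Kil.t (K : Kil n) (x : E n) : ℝ := K.al + ⟪K.be, x - K.x₀⟫
/-- vertical component along a graph -/
noncomputable def Kil.L (K : Kil n) (x : E n) (z : ℝ) (p : B1 n) : ℝ := K.t x - p (K.v x z)
/-- tangential components -/
noncomputable def Kil.kk (K : Kil n) (x : E n) (z : ℝ) (p : B1 n) (v : E n) : ℝ :=
  ⟪K.v x z, v⟫ - K.t x * p v
noncomputable def Kil.mu (K : Kil n) (p : B1 n) (v : E n) : ℝ :=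
  ⟪K.be, v⟫ - p (K.S v) - p v * p K.be
def Kil.Skew (K : Kil n) : Prop := ∀ v w, ⟪K.S v, w⟫ = -⟪v, K.S w⟫
def Kil.Bd (K : Kil n) (C : ℝ) : Prop := |K.al| ≤ C ∧ ‖K.av‖ ≤ C ∧ ‖K.be‖ ≤ C ∧ ‖K.S‖ ≤ C

/-- bounded convex domain with smooth boundary and defining function `ρ` -/
structure Dom (Ω : Set (E n)) (ρ : E n → ℝ) : Prop where
  smooth : ContDiff ℝ ∞ ρ
  eq : Ω = {x | ρ x < 0}
  reg : ∀ x ∈ frontier Ω, d1 ρ x ≠ 0
  bdd : Bornology.IsBounded Ω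
  ne : Ω.Nonempty
  conv : Convex ℝ Ω

/-- inner unit normal -/
noncomputable def nin (ρ : E n → ℝ) (x : E n) : E n := -(‖d1 ρ x‖⁻¹ • shp (d1 ρ x))
/-- second fundamental form of the boundary (on tangent vectors) -/
noncomputable def Bf (ρ : E n → ℝ) (x v w : E n) : ℝ := d2 ρ x v w / ‖d1 ρ x‖
/-- orthogonal projection along a unit vector -/
noncomputable def pr (ν v : E n) : E n := v - ⟪ν, v⟫ • ν

/-- the boundary has `k-1` principal curvatures `≥ c` -/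
def Rk (k : ℕ) (Ω : Set (E n)) (ρ : E n → ℝ) (c : ℝ) : Prop :=
  ∀ x ∈ frontier Ω, ∃ T : Submodule ℝ (E n), Module.finrank ℝ T = k - 1 ∧
    ∀ v ∈ T, ⟪nin ρ x, v⟫ = 0 ∧ c * ‖v‖ ^ 2 ≤ Bf ρ x v v

/-- bounds on the right hand side -/
def PsiB (Ω : Set (E n)) (ψ : B1 n × ℝ × E n → ℝ) (M c₀ C₀ : ℝ) : Prop :=
  ∀ x ∈ closure Ω, ∀ z : ℝ, |z| ≤ M → ∀ p : B1 n, ‖p‖ ≤ 1 →
    ContDiffAt ℝ 2 ψ (p, z, x) ∧ c₀ ≤ ψ (p, z, x) ∧ ψ (p, z, x) ≤ C₀ ∧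
      ‖fderiv ℝ ψ (p, z, x)‖ ≤ C₀ ∧ ‖fderiv ℝ (fderiv ℝ ψ) (p, z, x)‖ ≤ C₀

/-- bounds on the boundary data -/
def PhiB (Ω : Set (E n)) (φ : E n → ℝ) (C₀ : ℝ) : Prop :=
  ContDiff ℝ 4 φ ∧ ∀ x ∈ closure Ω, |φ x| ≤ C₀ ∧ ‖d1 φ x‖ ≤ C₀ ∧ ‖d2 φ x‖ ≤ C₀ ∧ ‖d3 φ x‖ ≤ C₀ ∧
    ‖d4 φ x‖ ≤ C₀

/-- admissible solution in `C²(closure Ω) ∩ C⁴(Ω)` -/
structure SolO (k : ℕ) (Ω : Set (E n)) (ψ : B1 n × ℝ × E n → ℝ) (φ u : E n → ℝ) : Prop where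
  c2 : ContDiffOn ℝ 2 u (closure Ω)
  c4 : ContDiffOn ℝ 4 u Ω
  adm : ∀ x ∈ closure Ω, Adm k (D1 (closure Ω) u x) (D2 (closure Ω) u x)
  eq : ∀ x ∈ closure Ω, SS k (D1 (closure Ω) u x) (D2 (closure Ω) u x)
    = ψ (D1 (closure Ω) u x, u x, x)
  bd : ∀ x ∈ frontier Ω, u x = φ x

/-- `(1 - a ⊗ a)^{-1/2}` applied to `v` -/
noncomputable def gam (a v : E n) : E n :=
  v + (((Real.sqrt (1 - ‖a‖ ^ 2))⁻¹ ^ 2 / (1 + (Real.sqrt (1 - ‖a‖ ^ 2))⁻¹)) * ⟪a, v⟫) • a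

/-- tangential gradient of the boundary data -/
noncomputable def aT (ρ φ : E n → ℝ) (x : E n) : E n := pr (nin ρ x) (shp (d1 φ x))

/-- frame adapted to the hyperplane orthogonal to `ê o` -/
noncomputable def tfr (p : B1 n) (o : Fin n) (ê : Fin n → E n) (a : Fin n) : E n :=
  if a = o then (Real.sqrt (1 + Wp p ^ 2 * p (ê o) ^ 2))⁻¹ • (ê o + (Wp p ^ 2 * p (ê o)) • shp p)
  else gam (pr (ê o) (shp p)) (ê a)

end Pool.Agent.Mink.C
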