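import Pool.Agent.Lib.MP_88c759_an.Mink.CDef

set_option maxSynthPendingDepth 3

namespace Pool.Agent.Mink.C

open scoped ContDiff Topology RealInnerProductSpace
open Set Filter

variable {ι : Type} [DecidableEq ι]

theorem es_zero (s : Finset ι) (x : ι → ℝ) : es s 0 x = 1 := by
  simp [es]

theorem es_one (s : Finset ι) (x : ι → ℝ) : es s 1 x = ∑ i ∈ s, x i := by
  simp [es, Finset.powersetCard_one]

theorem es_of_card_lt {s : Finset ι} {j : ℕ} (h : s.card < j) (x : ι → ℝ) : es s j x = 0 := by
  rw [es, Finset.powersetCard_eq_empty.mpr h, Finset.sum_empty]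

theorem es_congr {s : Finset ι} (j : ℕ) {x y : ι → ℝ} (h : ∀ i ∈ s, x i = y i) :
    es s j x = es s j y := by
  refine Finset.sum_congr rfl (fun T hT => Finset.prod_congr rfl (fun i hi => ?_))
  exact h i ((Finset.mem_powersetCard.mp hT).1 hi)

theorem CE1_insert {s : Finset ι} {a : ι} (ha : a ∉ s) (j : ℕ) (x : ι → ℝ) :
    es (insert a s) (j + 1) x = x a * es s j x + es s (j + 1) x := by
  have hn : ∀ (m : ℕ) (T : Finset ι), T ∈ s.powersetCard m → a ∉ T :=
    fun m T hT h => ha ((Finset.mem_powersetCard.mp hT).1 h)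
  unfold es
  rw [Finset.powersetCard_succ_insert ha, Finset.sum_union, Finset.sum_image, Finset.mul_sum,
    add_comm]
  · congr 1
    exact Finset.sum_congr rfl (fun T hT => Finset.prod_insert (hn j T hT))
  · intro T hT T' hT' h
    rw [← Finset.erase_insert (hn j T hT), h, Finset.erase_insert (hn j T' hT')]
  · rw [Finset.disjoint_left]
    intro T hT hT'
    obtain ⟨T', -, rfl⟩ := Finset.mem_image.mp hT'
    exact hn _ _ hT (Finset.mem_insert_self a T')

theorem es_erase {s : Finset ι} {i : ι} (hi : i ∈ s) (j : ℕ) (x : ι → ℝ) :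
    es s (j + 1) x = x i * es (s.erase i) j x + es (s.erase i) (j + 1) x := by
  rw [← CE1_insert (Finset.notMem_erase i s), Finset.insert_erase hi]

theorem es_const (s : Finset ι) (j : ℕ) (c : ℝ) :
    es s j (fun _ => c) = (s.card.choose j : ℝ) * c ^ j := by
  unfold es
  rw [Finset.sum_congr rfl (g := fun _ => c ^ j) (fun T hT => by
    rw [Finset.prod_const, (Finset.mem_powersetCard.mp hT).2]), Finset.sum_const,
    Finset.card_powersetCard, nsmul_eq_mul]

theorem es_smul (s : Finset ι) (j : ℕ) (c : ℝ) (x : ι → ℝ) :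
    es s j (fun i => c * x i) = c ^ j * es s j x := by
  unfold es
  rw [Finset.mul_sum]
  refine Finset.sum_congr rfl (fun T hT => ?_)
  rw [Finset.prod_mul_distrib, Finset.prod_const, (Finset.mem_powersetCard.mp hT).2]

theorem sum_mul_es_erase (s : Finset ι) (j : ℕ) (x : ι → ℝ) :
    ∑ i ∈ s, x i * es (s.erase i) j x = (j + 1 : ℝ) * es s (j + 1) x := by
  induction s using Finset.induction_on generalizing j with
  | empty => simp [es_of_card_lt]
  | insert a s ha ih =>
    rcases j with _ | j
    · simp [es_zero, es_one]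
    · rw [Finset.sum_insert ha, Finset.erase_insert ha, CE1_insert ha]
      have h : ∀ i ∈ s, x i * es ((insert a s).erase i) (j + 1) x =
          x a * (x i * es (s.erase i) j x) + x i * es (s.erase i) (j + 1) x := by
        intro i hi
        have hai : a ≠ i := fun h => ha (h ▸ hi)
        rw [Finset.erase_insert_of_ne hai,
          CE1_insert (fun h => ha (Finset.mem_of_mem_erase h))]
        ring
      rw [Finset.sum_congr rfl h, Finset.sum_add_distrib, ← Finset.mul_sum, ih, ih]
      push_cast
      ring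

theorem sum_es_erase (s : Finset ι) (j : ℕ) (x : ι → ℝ) :
    ∑ i ∈ s, es (s.erase i) j x = ((s.card : ℝ) - j) * es s j x := by
  rcases j with _ | j
  · simp [es_zero]
  · have h : ∀ i ∈ s, es (s.erase i) (j + 1) x = es s (j + 1) x - x i * es (s.erase i) j x := by
      intro i hi
      rw [es_erase hi]
      ring
    rw [Finset.sum_congr rfl h, Finset.sum_sub_distrib, sum_mul_es_erase, Finset.sum_const,
      nsmul_eq_mul]
    push_cast
    ring

theorem es_nonneg {s : Finset ι} (j : ℕ) {x : ι → ℝ} (h : ∀ i ∈ s, 0 ≤ x i) : 0 ≤ es s j x := by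
  refine Finset.sum_nonneg (fun T hT => Finset.prod_nonneg (fun i hi => ?_))
  exact h i ((Finset.mem_powersetCard.mp hT).1 hi)

theorem es_pos {s : Finset ι} {j : ℕ} (hj : j ≤ s.card) {x : ι → ℝ} (h : ∀ i ∈ s, 0 < x i) :
    0 < es s j x := by
  refine Finset.sum_pos (fun T hT => Finset.prod_pos (fun i hi => ?_))
    (Finset.powersetCard_nonempty.mpr hj)
  exact h i ((Finset.mem_powersetCard.mp hT).1 hi)

theorem es_mono_set {s t : Finset ι} (hst : s ⊆ t) (j : ℕ) {x : ι → ℝ} (h : ∀ i ∈ t, 0 ≤ x i) :
    es s j x ≤ es t j x := by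
  refine Finset.sum_le_sum_of_subset_of_nonneg (Finset.powersetCard_mono hst)
    (fun T hT _ => Finset.prod_nonneg (fun i hi => ?_))
  exact h i ((Finset.mem_powersetCard.mp hT).1 hi)

theorem abs_es_le {s : Finset ι} (j : ℕ) {x : ι → ℝ} {L : ℝ} (hL : 0 ≤ L)
    (h : ∀ i ∈ s, |x i| ≤ L) : |es s j x| ≤ (s.card.choose j : ℝ) * L ^ j := by
  rw [← es_const]
  refine le_trans (Finset.abs_sum_le_sum_abs _ _) (Finset.sum_le_sum (fun T hT => ?_))
  rw [Finset.abs_prod]
  exact Finset.prod_le_prod (fun i _ => abs_nonneg _)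
    (fun i hi => h i ((Finset.mem_powersetCard.mp hT).1 hi))

theorem es_map {ι' : Type} [DecidableEq ι'] (f : ι ↪ ι') (s : Finset ι) (j : ℕ) (x : ι' → ℝ) :
    es (s.map f) j x = es s j (fun i => x (f i)) := by
  unfold es
  rw [Finset.powersetCard_map, Finset.sum_map]
  exact Finset.sum_congr rfl (fun T _ => Finset.prod_map T f x)

theorem es_perm [Fintype ι] (π : Equiv.Perm ι) (j : ℕ) (x : ι → ℝ) :
    es Finset.univ j (fun i => x (π i)) = es Finset.univ j x := by
  have h := es_map π.toEmbedding Finset.univ j x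
  rw [Finset.map_univ_equiv π] at h
  exact h.symm

theorem continuous_es (s : Finset ι) (j : ℕ) : Continuous fun x : ι → ℝ => es s j x := by
  unfold es
  fun_prop

/-- derivative of `es` under the shift of all variables -/
theorem hasDerivAt_es_shift (s : Finset ι) (j : ℕ) (x : ι → ℝ) (t : ℝ) :
    HasDerivAt (fun τ : ℝ => es s (j + 1) (fun i => x i + τ))
      (((s.card : ℝ) - j) * es s j (fun i => x i + t)) t := by
  induction s using Finset.induction_on generalizing j with
  | empty =>
    have h0 : (((∅ : Finset ι).card : ℝ) - j) * es ∅ j (fun i => x i + t) = 0 := by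
      rcases j with _ | j
      · simp
      · simp [es_of_card_lt]
    rw [h0]
    simpa [es_of_card_lt] using hasDerivAt_const t (0 : ℝ)
  | insert a s ha ih =>
    have h1 : HasDerivAt (fun τ : ℝ => x a + τ) 1 t := (hasDerivAt_id t).const_add (x a)
    simp only [CE1_insert ha, Finset.card_insert_of_notMem ha]
    rcases j with _ | j
    · have h2 := h1.add (ih 0)
      simp only [es_zero, mul_one] at h2 ⊢
      refine h2.congr_deriv ?_
      push_cast
      ring
    · refine ((h1.mul (ih j)).add (ih (j + 1))).congr_deriv ?_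
      rw [CE1_insert ha]
      push_cast
      ring

/-- the difference of two first derivatives -/
theorem es_erase_sub {s : Finset ι} {p q : ι} (hp : p ∈ s) (hq : q ∈ s) (hpq : p ≠ q) (j : ℕ)
    (x : ι → ℝ) :
    es (s.erase q) (j + 1) x - es (s.erase p) (j + 1) x
      = (x p - x q) * es ((s.erase p).erase q) j x := by
  rw [es_erase (Finset.mem_erase.mpr ⟨hpq, hp⟩), es_erase (Finset.mem_erase.mpr ⟨hpq.symm, hq⟩),
    Finset.erase_right_comm (a := q)]
  ring


end Pool.Agent.Mink.C
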