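import Pool.Agent.Lib.MP_88c759_an.Mink.CE1

set_option maxSynthPendingDepth 3

namespace Pool.Agent.Mink.C

open scoped ContDiff Topology RealInnerProductSpace
open Set Filter

variable {ι : Type} [DecidableEq ι]

open Polynomial in
theorem CE2_splits_derivative {p : ℝ[X]} (h : p.Splits) : (derivative p).Splits := by
  rw [splits_iff_card_roots] at h ⊢
  have h1 := card_roots_le_derivative p
  have h2 := natDegree_derivative_le p
  have h3 := card_roots' (derivative p)
  omega

open Polynomial in
theorem CE2_splits_iterate {p : ℝ[X]} (h : p.Splits) (m : ℕ) : (derivative^[m] p).Splits := by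
  induction m with
  | zero => exact h
  | succ m ih =>
    rw [Function.iterate_succ_apply']
    exact CE2_splits_derivative ih

open Polynomial in
theorem CE2_laguerre {p : ℝ[X]} (h : p.Splits) : 2 * p.coeff 0 * p.coeff 2 ≤ p.coeff 1 ^ 2 := by
  induction h using Submonoid.closure_induction with
  | mem q hq =>
    rcases hq with ⟨a, rfl⟩ | ⟨a, rfl⟩
    · simp [coeff_C]
    · simp [coeff_C, coeff_X]
  | one => simp [coeff_one]
  | mul a b _ _ ha hb =>
    have e0 : (a * b).coeff 0 = a.coeff 0 * b.coeff 0 := mul_coeff_zero a b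
    have e1 : (a * b).coeff 1 = a.coeff 0 * b.coeff 1 + a.coeff 1 * b.coeff 0 := by
      rw [coeff_mul, Finset.Nat.antidiagonal_succ]
      simp
    have e2 : (a * b).coeff 2 =
        a.coeff 0 * b.coeff 2 + (a.coeff 1 * b.coeff 1 + a.coeff 2 * b.coeff 0) := by
      rw [coeff_mul]
      simp [Finset.Nat.antidiagonal_succ]
    rw [e0, e1, e2]
    nlinarith [mul_le_mul_of_nonneg_left ha (sq_nonneg (b.coeff 0)),
      mul_le_mul_of_nonneg_left hb (sq_nonneg (a.coeff 0))]

/-- weak Newton inequality, for arbitrary real `x` -/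
theorem newton (s : Finset ι) (j : ℕ) (x : ι → ℝ) :
    es s j x * es s (j + 2) x ≤ es s (j + 1) x ^ 2 := by
  by_cases hj : s.card < j + 2
  · rw [es_of_card_lt hj, mul_zero]
    exact sq_nonneg _
  obtain ⟨m, hm⟩ : ∃ m, s.card = m + (j + 2) := ⟨s.card - (j + 2), by omega⟩
  have hs : (∏ i ∈ s, (Polynomial.X + Polynomial.C (x i))).Splits :=
    Polynomial.Splits.prod fun i _ => Polynomial.Splits.X_add_C _
  have h := CE2_laguerre (CE2_splits_iterate hs m)
  simp only [Polynomial.coeff_iterate_derivative] at h
  rw [Finset.prod_X_add_C_coeff s x (by omega), Finset.prod_X_add_C_coeff s x (by omega),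
    Finset.prod_X_add_C_coeff s x (by omega), show s.card - (0 + m) = j + 2 by omega,
    show s.card - (1 + m) = j + 1 by omega, show s.card - (2 + m) = j by omega] at h
  change 2 * ((0 + m).descFactorial m • es s (j + 2) x) * ((2 + m).descFactorial m • es s j x) ≤
    ((1 + m).descFactorial m • es s (j + 1) x) ^ 2 at h
  have f0 : (0 + m).descFactorial m = m.factorial := by rw [zero_add, Nat.descFactorial_self]
  have f1 : (1 + m).descFactorial m = (m + 1) * m.factorial := by
    have := Nat.factorial_mul_descFactorial (n := 1 + m) (k := m) (by omega)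
    rw [show 1 + m - m = 1 by omega, Nat.factorial_one, one_mul] at this
    rw [this, add_comm, Nat.factorial_succ]
  have f2 : 2 * (2 + m).descFactorial m = (m + 2) * ((m + 1) * m.factorial) := by
    have := Nat.factorial_mul_descFactorial (n := 2 + m) (k := m) (by omega)
    rw [show 2 + m - m = 2 by omega, Nat.factorial_two] at this
    rw [this, add_comm, Nat.factorial_succ, Nat.factorial_succ]
  have f2' : 2 * ((2 + m).descFactorial m : ℝ) = (m + 2) * ((m + 1) * m.factorial) := by
    exact_mod_cast f2
  rw [f0, f1] at h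
  simp only [nsmul_eq_mul] at h
  push_cast at h
  have hF : (0 : ℝ) < m.factorial := by exact_mod_cast Nat.factorial_pos m
  have hm0 : (0 : ℝ) ≤ m := Nat.cast_nonneg m
  have key : ((m + 1) * m.factorial ^ 2) * ((m + 2) * (es s j x * es s (j + 2) x)) ≤
      ((m + 1) * m.factorial ^ 2) * ((m + 1) * es s (j + 1) x ^ 2) := by
    calc _ = (m + 2) * ((m + 1) * m.factorial) * (m.factorial * (es s j x * es s (j + 2) x)) := by
          ring
      _ = 2 * (m.factorial * es s (j + 2) x) * ((2 + m).descFactorial m * es s j x) := by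
          rw [← f2']
          ring
      _ ≤ _ := h
      _ = _ := by ring
  have key2 := le_of_mul_le_mul_left key (by positivity)
  by_contra hcon
  have h1 : es s (j + 1) x ^ 2 < es s j x * es s (j + 2) x := not_le.mp hcon
  nlinarith [sq_nonneg (es s (j + 1) x)]

end Pool.Agent.Mink.C
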