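import Pool.Agent.Lib.MP_88c759_an.Mink.CDef

set_option maxSynthPendingDepth 3

namespace Pool.Agent.Mink.C

open scoped ContDiff Topology RealInnerProductSpace
open Set Filter

variable {V V' V'' : Type} [NormedAddCommGroup V] [NormedSpace ℝ V]
  [NormedAddCommGroup V'] [NormedSpace ℝ V'] [NormedAddCommGroup V''] [NormedSpace ℝ V'']

theorem J2.val {f : ℝ → V} {a b c : V} (h : J2 f a b c) : f 0 = a := by
  obtain ⟨_, _, _, h, _⟩ := h
  exact h

theorem J2.hasDerivAt {f : ℝ → V} {a b c : V} (h : J2 f a b c) : HasDerivAt f b 0 := by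
  obtain ⟨_, h, _, _, rfl⟩ := h
  exact h.self_of_nhds

theorem J2.continuousAt {f : ℝ → V} {a b c : V} (h : J2 f a b c) : ContinuousAt f 0 := by
  exact h.hasDerivAt.continuousAt

theorem CJ_deriv {f : ℝ → V} {a b c : V} (h : J2 f a b c) : HasDerivAt (deriv f) c 0 := by
  obtain ⟨f', h1, h2, -, -⟩ := h
  exact h2.congr_of_eventuallyEq (h1.mono fun t ht => ht.deriv)

theorem J2.unique {f : ℝ → V} {a b c a' b' c' : V} (h : J2 f a b c) (h' : J2 f a' b' c') :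
    a = a' ∧ b = b' ∧ c = c' := by
  exact ⟨h.val.symm.trans h'.val, h.hasDerivAt.unique h'.hasDerivAt,
    (CJ_deriv h).unique (CJ_deriv h')⟩

theorem J2.congr {f g : ℝ → V} {a b c : V} (h : J2 f a b c) (hfg : f =ᶠ[𝓝 0] g) : J2 g a b c := by
  obtain ⟨f', h1, h2, h3, h4⟩ := h
  refine ⟨f', ?_, h2, hfg.self_of_nhds.symm.trans h3, h4⟩
  filter_upwards [h1, hfg.eventuallyEq_nhds] with t ht ht'
  exact ht.congr_of_eventuallyEq ht'.symm

theorem J2.of_eq {f : ℝ → V} {a b c a' b' c' : V} (h : J2 f a b c) (ha : a = a') (hb : b = b')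
    (hc : c = c') : J2 f a' b' c' := by
  subst ha hb hc
  exact h

theorem J2.const (a : V) : J2 (fun _ => a) a 0 0 := by
  exact ⟨fun _ => 0, Eventually.of_forall fun t => hasDerivAt_const t a, hasDerivAt_const _ _,
    rfl, rfl⟩

theorem J2.line (a b : V) : J2 (fun t : ℝ => a + t • b) a b 0 := by
  refine ⟨fun _ => b, Eventually.of_forall fun t => ?_, hasDerivAt_const _ _, by simp, rfl⟩
  simpa using ((hasDerivAt_id' t).smul_const b).const_add a

theorem J2.poly (a b c : V) : J2 (fun t : ℝ => a + t • b + (t ^ 2 / 2) • c) a b c := by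
  refine ⟨fun t => b + t • c, Eventually.of_forall fun t => ?_, ?_, by simp, by simp⟩
  · have h := (((hasDerivAt_id' t).smul_const b).const_add a).fun_add
      (((hasDerivAt_pow 2 t).div_const 2).smul_const c)
    simpa using h
  · simpa using ((hasDerivAt_id' (0:ℝ)).smul_const c).const_add b

theorem J2.add {f g : ℝ → V} {a b c a' b' c' : V} (h : J2 f a b c) (h' : J2 g a' b' c') :
    J2 (fun t => f t + g t) (a + a') (b + b') (c + c') := by
  obtain ⟨f', h1, h2, rfl, rfl⟩ := h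
  obtain ⟨g', h3, h4, rfl, rfl⟩ := h'
  refine ⟨fun t => f' t + g' t, ?_, h2.fun_add h4, rfl, rfl⟩
  filter_upwards [h1, h3] with t ht ht' using ht.fun_add ht'

theorem J2.neg {f : ℝ → V} {a b c : V} (h : J2 f a b c) : J2 (fun t => -f t) (-a) (-b) (-c) := by
  obtain ⟨f', h1, h2, rfl, rfl⟩ := h
  exact ⟨fun t => -f' t, h1.mono fun t ht => ht.fun_neg, h2.fun_neg, rfl, rfl⟩

theorem J2.sub {f g : ℝ → V} {a b c a' b' c' : V} (h : J2 f a b c) (h' : J2 g a' b' c') :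
    J2 (fun t => f t - g t) (a - a') (b - b') (c - c') := by
  simpa only [sub_eq_add_neg] using h.add h'.neg

theorem J2.sum {ι : Type} (s : Finset ι) {f : ι → ℝ → V} {a b c : ι → V}
    (h : ∀ i ∈ s, J2 (f i) (a i) (b i) (c i)) :
    J2 (fun t => ∑ i ∈ s, f i t) (∑ i ∈ s, a i) (∑ i ∈ s, b i) (∑ i ∈ s, c i) := by
  classical
  induction s using Finset.induction_on with
  | empty => simpa using J2.const (0 : V)
  | insert i s hi ih =>
    simp only [Finset.sum_insert hi]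
    exact (h i (Finset.mem_insert_self _ _)).add
      (ih fun j hj => h j (Finset.mem_insert_of_mem hj))

theorem J2.clm (L : V →L[ℝ] V') {f : ℝ → V} {a b c : V} (h : J2 f a b c) :
    J2 (fun t => L (f t)) (L a) (L b) (L c) := by
  obtain ⟨f', h1, h2, rfl, rfl⟩ := h
  exact ⟨fun t => L (f' t), h1.mono fun t ht => L.hasFDerivAt.comp_hasDerivAt t ht,
    L.hasFDerivAt.comp_hasDerivAt 0 h2, rfl, rfl⟩

theorem J2.prodMk {f : ℝ → V} {g : ℝ → V'} {a b c : V} {a' b' c' : V'} (h : J2 f a b c)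
    (h' : J2 g a' b' c') : J2 (fun t => (f t, g t)) (a, a') (b, b') (c, c') := by
  obtain ⟨f', h1, h2, rfl, rfl⟩ := h
  obtain ⟨g', h3, h4, rfl, rfl⟩ := h'
  refine ⟨fun t => (f' t, g' t), ?_, h2.prodMk h4, rfl, rfl⟩
  filter_upwards [h1, h3] with t ht ht' using ht.prodMk ht'

theorem CJ_app {f : ℝ → V →L[ℝ] V'} {g : ℝ → V} {a b c : V →L[ℝ] V'} {a' b' c' : V}
    (h : J2 f a b c) (h' : J2 g a' b' c') :
    J2 (fun t => f t (g t)) (a a') (b a' + a b') (c a' + (2:ℝ) • b b' + a c') := by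
  obtain ⟨f', h1, h2, rfl, rfl⟩ := h
  obtain ⟨g', h3, h4, rfl, rfl⟩ := h'
  refine ⟨fun t => f' t (g t) + f t (g' t), ?_, ?_, rfl, rfl⟩
  · filter_upwards [h1, h3] with t ht ht' using ht.clm_apply ht'
  · convert (h2.clm_apply h3.self_of_nhds).fun_add (h1.self_of_nhds.clm_apply h4) using 1
    rw [two_smul]
    abel

theorem J2.bilin (B : V →L[ℝ] V' →L[ℝ] V'') {f : ℝ → V} {g : ℝ → V'} {a b c : V} {a' b' c' : V'}
    (h : J2 f a b c) (h' : J2 g a' b' c') :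
    J2 (fun t => B (f t) (g t)) (B a a') (B b a' + B a b') (B c a' + (2:ℝ) • B b b' + B a c') := by
  exact CJ_app (h.clm B) h'

theorem J2.app {f : ℝ → V →L[ℝ] V'} {g : ℝ → V} {a b c : V →L[ℝ] V'} {a' b' c' : V}
    (h : J2 f a b c) (h' : J2 g a' b' c') :
    J2 (fun t => f t (g t)) (a a') (b a' + a b') (c a' + (2:ℝ) • b b' + a c') := by
  exact CJ_app h h'

theorem J2.smul {f : ℝ → ℝ} {g : ℝ → V} {a b c : ℝ} {a' b' c' : V} (h : J2 f a b c)
    (h' : J2 g a' b' c') :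
    J2 (fun t => f t • g t) (a • a') (b • a' + a • b') (c • a' + (2 * b) • b' + a • c') := by
  refine (h.bilin (ContinuousLinearMap.lsmul ℝ ℝ) h').of_eq rfl rfl ?_
  simp [mul_smul]

theorem J2.mul {f g : ℝ → ℝ} {a b c a' b' c' : ℝ} (h : J2 f a b c) (h' : J2 g a' b' c') :
    J2 (fun t => f t * g t) (a * a') (b * a' + a * b') (c * a' + 2 * b * b' + a * c') := by
  exact h.smul h'

theorem J2.const_mul (r : ℝ) {f : ℝ → ℝ} {a b c : ℝ} (h : J2 f a b c) :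
    J2 (fun t => r * f t) (r * a) (r * b) (r * c) := by
  simpa using (J2.const r).mul h

theorem J2.inner {n : ℕ} {f g : ℝ → E n} {a b c a' b' c' : E n} (h : J2 f a b c)
    (h' : J2 g a' b' c') :
    J2 (fun t => ⟪f t, g t⟫) ⟪a, a'⟫ (⟪b, a'⟫ + ⟪a, b'⟫) (⟪c, a'⟫ + 2 * ⟪b, b'⟫ + ⟪a, c'⟫) := by
  exact h.bilin (innerSL ℝ) h'

theorem J2.scomp {φ φ' : ℝ → ℝ} {φ'' : ℝ} {f : ℝ → ℝ} {a b c : ℝ} (h : J2 f a b c)
    (h1 : ∀ᶠ s in 𝓝 a, HasDerivAt φ (φ' s) s) (h2 : HasDerivAt φ' φ'' a) :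
    J2 (fun t => φ (f t)) (φ a) (φ' a * b) (φ'' * b ^ 2 + φ' a * c) := by
  have hc := h.continuousAt
  obtain ⟨f', h3, h4, rfl, rfl⟩ := h
  refine ⟨fun t => φ' (f t) * f' t, ?_, ?_, rfl, rfl⟩
  · filter_upwards [h3, hc.eventually h1] with t ht ht' using ht'.comp t ht
  · refine ((h2.comp 0 h3.self_of_nhds).fun_mul h4).congr_deriv ?_
    simp only [Function.comp]
    ring

theorem J2.inv {f : ℝ → ℝ} {a b c : ℝ} (h : J2 f a b c) (ha : a ≠ 0) :
    J2 (fun t => (f t)⁻¹) a⁻¹ (-b / a ^ 2) (2 * b ^ 2 / a ^ 3 - c / a ^ 2) := by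
  refine (h.scomp (φ := fun s => s⁻¹) (φ' := fun s => -(s ^ 2)⁻¹) (φ'' := 2 / a ^ 3)
    ((eventually_ne_nhds ha).mono fun s hs => hasDerivAt_inv hs) ?_).of_eq rfl (by ring) (by ring)
  refine ((hasDerivAt_pow 2 a).fun_inv (pow_ne_zero 2 ha)).fun_neg.congr_deriv ?_
  field_simp
  norm_num [mul_comm]

theorem J2.div {f g : ℝ → ℝ} {a b c a' b' c' : ℝ} (h : J2 f a b c) (h' : J2 g a' b' c')
    (ha : a' ≠ 0) :
    J2 (fun t => f t / g t) (a / a') ((b * a' - a * b') / a' ^ 2)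
      (c / a' - 2 * b * b' / a' ^ 2 + 2 * a * b' ^ 2 / a' ^ 3 - a * c' / a' ^ 2) := by
  simp only [div_eq_mul_inv (f _)]
  refine (h.mul (h'.inv ha)).of_eq (div_eq_mul_inv _ _).symm ?_ ?_
  · field_simp
    ring
  · field_simp
    ring

theorem J2.log {f : ℝ → ℝ} {a b c : ℝ} (h : J2 f a b c) (ha : 0 < a) :
    J2 (fun t => Real.log (f t)) (Real.log a) (b / a) (c / a - b ^ 2 / a ^ 2) := by
  exact (h.scomp (φ' := fun s => s⁻¹)
    ((eventually_ne_nhds ha.ne').mono fun s hs => Real.hasDerivAt_log hs)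
    (hasDerivAt_inv ha.ne')).of_eq rfl (by ring) (by ring)

theorem J2.exp {f : ℝ → ℝ} {a b c : ℝ} (h : J2 f a b c) :
    J2 (fun t => Real.exp (f t)) (Real.exp a) (Real.exp a * b) (Real.exp a * (b ^ 2 + c)) := by
  exact (h.scomp (Eventually.of_forall Real.hasDerivAt_exp) (Real.hasDerivAt_exp a)).of_eq rfl rfl
    (by ring)

theorem J2.sqrt {f : ℝ → ℝ} {a b c : ℝ} (h : J2 f a b c) (ha : 0 < a) :
    J2 (fun t => Real.sqrt (f t)) (Real.sqrt a) (b / (2 * Real.sqrt a))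
      (c / (2 * Real.sqrt a) - b ^ 2 / (4 * Real.sqrt a ^ 3)) := by
  have hs : Real.sqrt a ≠ 0 := (Real.sqrt_pos.2 ha).ne'
  refine (h.scomp (φ' := fun s => 1 / (2 * Real.sqrt s)) (φ'' := -1 / (4 * Real.sqrt a ^ 3))
    ((eventually_ne_nhds ha.ne').mono fun s hs => Real.hasDerivAt_sqrt hs) ?_).of_eq rfl
    (by ring) (by ring)
  refine ((hasDerivAt_const a (1:ℝ)).fun_div ((Real.hasDerivAt_sqrt ha.ne').const_mul 2)
    (mul_ne_zero two_ne_zero hs)).congr_deriv ?_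
  field_simp
  ring

theorem J2.comp {ψ : V → V'} {γ : ℝ → V} {a b c : V} (hψ : ContDiffAt ℝ 2 ψ a)
    (h : J2 γ a b c) :
    J2 (fun t => ψ (γ t)) (ψ a) (fderiv ℝ ψ a b)
      (fderiv ℝ (fderiv ℝ ψ) a b b + fderiv ℝ ψ a c) := by
  have hc := h.continuousAt
  obtain ⟨γ', h3, h4, rfl, rfl⟩ := h
  have h1 : ∀ᶠ y in 𝓝 (γ 0), DifferentiableAt ℝ ψ y :=
    (hψ.eventually (by simp)).mono fun y hy => hy.differentiableAt (by simp)
  have h2 : DifferentiableAt ℝ (fderiv ℝ ψ) (γ 0) :=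
    (hψ.fderiv_right (m := 1) (by norm_num)).differentiableAt (by simp)
  refine ⟨fun t => fderiv ℝ ψ (γ t) (γ' t), ?_, ?_, rfl, rfl⟩
  · filter_upwards [h3, hc.eventually h1] with t ht ht' using
      ht'.hasFDerivAt.comp_hasDerivAt t ht
  · exact (h2.hasFDerivAt.comp_hasDerivAt 0 h3.self_of_nhds).clm_apply h4

theorem J2.of_contDiffAt {f : ℝ → V} (h : ContDiffAt ℝ 2 f 0) : ∃ b c, J2 f (f 0) b c := by
  have h1 := J2.line (0:ℝ) 1
  simp only [zero_add, smul_eq_mul, mul_one] at h1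
  exact ⟨_, _, J2.comp h h1⟩

theorem J2.of_isLocalMax {f : ℝ → ℝ} {a b c : ℝ} (h : J2 f a b c) (hm : IsLocalMax f 0) :
    b = 0 ∧ c ≤ 0 := by
  have hb : b = 0 := hm.hasDerivAt_eq_zero h.hasDerivAt
  refine ⟨hb, not_lt.1 fun hc => ?_⟩
  have h1 : IsLocalMin f 0 := isLocalMin_of_deriv_deriv_pos ((CJ_deriv h).deriv.symm ▸ hc)
    (h.hasDerivAt.deriv.trans hb) h.continuousAt
  have h2 : f =ᶠ[𝓝 0] fun _ => f 0 := by
    filter_upwards [hm, h1] with t ht ht' using le_antisymm ht ht'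
  exact hc.ne' ((h.congr h2).unique (J2.const _)).2.2

theorem J2.of_isLocalMin {f : ℝ → ℝ} {a b c : ℝ} (h : J2 f a b c) (hm : IsLocalMin f 0) :
    b = 0 ∧ 0 ≤ c := by
  have h1 := h.neg.of_isLocalMax hm.neg
  exact ⟨neg_eq_zero.1 h1.1, neg_nonpos.1 h1.2⟩

theorem CJ_shift {g : ℝ → ℝ} {t d : ℝ} (h : HasDerivAt (fun s => g (t + s)) d 0) :
    HasDerivAt g d t := by
  refine (HasDerivAt.comp_const_add (-t) t (by simpa using h)).congr_of_eventuallyEq
    (Eventually.of_forall fun x => ?_)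
  exact congrArg g (add_neg_cancel_left t x).symm

theorem concaveOn_of_J2 {f : ℝ → ℝ}
    (h : ∀ t ∈ Icc (0:ℝ) 1, ∃ b c, J2 (fun s => f (t + s)) (f t) b c ∧ c ≤ 0) :
    ConcaveOn ℝ (Icc (0:ℝ) 1) f := by
  choose! b c h1 h2 using h
  have h3 : ∀ t ∈ Icc (0:ℝ) 1, HasDerivAt f (deriv f t) t := fun t ht =>
    (CJ_shift (h1 t ht).hasDerivAt).differentiableAt.hasDerivAt
  have h4 : ∀ t ∈ Icc (0:ℝ) 1, HasDerivAt (deriv f) (c t) t := fun t ht => by
    refine CJ_shift ?_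
    simpa only [← deriv_comp_const_add] using CJ_deriv (h1 t ht)
  exact concaveOn_of_hasDerivWithinAt2_nonpos (convex_Icc 0 1)
    (fun t ht => (h3 t ht).continuousAt.continuousWithinAt)
    (fun t ht => (h3 t (interior_subset ht)).hasDerivWithinAt)
    (fun t ht => (h4 t (interior_subset ht)).hasDerivWithinAt) fun t ht => h2 t (interior_subset ht)


end Pool.Agent.Mink.C
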