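import Pool.Agent.Lib.MP_88c759_an.Mink.CE3
import Pool.Agent.Lib.MP_88c759_an.Mink.CJ

set_option maxSynthPendingDepth 3

namespace Pool.Agent.Mink.C

open scoped ContDiff Topology RealInnerProductSpace
open Set Filter

variable {ι : Type} [DecidableEq ι]

theorem CE4_es_insert {s : Finset ι} {i : ι} (hi : i ∉ s) (j : ℕ) (x : ι → ℝ) :
    es (insert i s) (j + 1) x = x i * es s j x + es s (j + 1) x := by
  rw [es_erase (Finset.mem_insert_self i s), Finset.erase_insert hi]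

theorem CE4_e1_insert {s : Finset ι} {i : ι} (hi : i ∉ s) (j : ℕ) (x b : ι → ℝ) :
    e1 (insert i s) (j + 1) x b = b i * es s j x + x i * e1 s j x b + e1 s (j + 1) x b := by
  have he : ∀ p ∈ s, (insert i s).erase p = insert i (s.erase p) := fun p hp =>
    Finset.erase_insert_of_ne (fun h => hi (h ▸ hp))
  unfold e1
  rw [if_neg (Nat.succ_ne_zero j), if_neg (Nat.succ_ne_zero j), Finset.sum_insert hi,
    Finset.erase_insert hi, Nat.add_sub_cancel]
  cases j with
  | zero => simp [es_zero]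
  | succ j =>
    rw [if_neg (Nat.succ_ne_zero j), Nat.add_sub_cancel, add_assoc, Finset.mul_sum,
      ← Finset.sum_add_distrib]
    congr 1
    refine Finset.sum_congr rfl fun p hp => ?_
    rw [he p hp, CE4_es_insert (fun h => hi (Finset.mem_of_mem_erase h))]
    ring

theorem CE4_hasDerivAt_es (s : Finset ι) (j : ℕ) {x : ℝ → ι → ℝ} {b : ι → ℝ} {t₀ : ℝ}
    (hx : ∀ i ∈ s, HasDerivAt (fun t => x t i) (b i) t₀) :
    HasDerivAt (fun t => es s j (x t)) (e1 s j (x t₀) b) t₀ := by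
  induction s using Finset.induction_on generalizing j with
  | empty =>
    cases j with
    | zero => simpa [es_zero, e1] using hasDerivAt_const t₀ (1 : ℝ)
    | succ j =>
      have : ∀ t, es (∅ : Finset ι) (j + 1) (x t) = 0 := fun t => es_of_card_lt (by simp) _
      simpa [this, e1] using hasDerivAt_const t₀ (0 : ℝ)
  | insert i s hi ih =>
    cases j with
    | zero => simpa [es_zero, e1] using hasDerivAt_const t₀ (1 : ℝ)
    | succ j =>
      have h' : ∀ p ∈ s, HasDerivAt (fun t => x t p) (b p) t₀ := fun p hp =>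
        hx p (Finset.mem_insert_of_mem hp)
      simp only [CE4_es_insert hi, CE4_e1_insert hi]
      exact ((hx i (Finset.mem_insert_self i s)).fun_mul (ih j h')).fun_add (ih (j + 1) h')

theorem CE4_e1_congr {s : Finset ι} (j : ℕ) {x y b b' : ι → ℝ} (h : ∀ i ∈ s, x i = y i)
    (h' : ∀ i ∈ s, b i = b' i) : e1 s j x b = e1 s j y b' := by
  unfold e1
  split_ifs
  · rfl
  · refine Finset.sum_congr rfl fun p hp => ?_
    rw [h' p hp, es_congr _ fun i hi => h i (Finset.mem_of_mem_erase hi)]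

theorem CE4_e2_eq (s : Finset ι) (j : ℕ) (a b : ι → ℝ) :
    e2 s (j + 1) a b = ∑ p ∈ s, b p * e1 (s.erase p) j a b := by
  unfold e2 e1
  cases j with
  | zero => simp
  | succ j =>
    rw [if_neg (by omega)]
    refine Finset.sum_congr rfl fun p _ => ?_
    rw [if_neg (Nat.succ_ne_zero j), Finset.mul_sum]
    refine Finset.sum_congr rfl fun q _ => ?_
    rw [mul_assoc]
    rfl

theorem CE4_alg {f g f1 g1 f2 g2 θ z Λ α β : ℝ} (hρ : 0 < f + g) (hz : z ^ 2 + (1 - z) ^ 2 * θ = z)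
    (H1 : (α * (g / (f + g))) ^ 2 * f2 + 4 * (α * (g / (f + g))) * (β * z) * f1
      - 2 * (β * z) ^ 2 * (Λ - f) ≤ 0)
    (H2 : (α * (f / (f + g))) ^ 2 * g2 + 4 * (α * (f / (f + g))) * (β * (1 - z)) * g1
      - 2 * (β * (1 - z)) ^ 2 * (θ * Λ - g) ≤ 0) :
    α ^ 2 * ((f2 * g + 2 * f1 * g1 + f * g2) / (f + g)
        - 2 * (f1 * g + f * g1) * (f1 + g1) / (f + g) ^ 2
        + 2 * (f * g) * (f1 + g1) ^ 2 / (f + g) ^ 3 - f * g * (f2 + g2) / (f + g) ^ 2)
      + 4 * α * β * (((f1 * g + f * g1) * (f + g) - f * g * (f1 + g1)) / (f + g) ^ 2)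
      - 2 * β ^ 2 * (z * Λ - f * g / (f + g)) ≤ 0 := by
  have hne := hρ.ne'
  have hsq : 0 ≤ 2 * (α * (g / (f + g) * f1 - f / (f + g) * g1)
      + β * (z - g / (f + g)) * (f + g)) ^ 2 / (f + g) := by positivity
  have key : α ^ 2 * ((f2 * g + 2 * f1 * g1 + f * g2) / (f + g)
        - 2 * (f1 * g + f * g1) * (f1 + g1) / (f + g) ^ 2
        + 2 * (f * g) * (f1 + g1) ^ 2 / (f + g) ^ 3 - f * g * (f2 + g2) / (f + g) ^ 2)
      + 4 * α * β * (((f1 * g + f * g1) * (f + g) - f * g * (f1 + g1)) / (f + g) ^ 2)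
      - 2 * β ^ 2 * ((z ^ 2 + (1 - z) ^ 2 * θ) * Λ - f * g / (f + g))
      + 2 * (α * (g / (f + g) * f1 - f / (f + g) * g1)
        + β * (z - g / (f + g)) * (f + g)) ^ 2 / (f + g) =
      ((α * (g / (f + g))) ^ 2 * f2 + 4 * (α * (g / (f + g))) * (β * z) * f1
        - 2 * (β * z) ^ 2 * (Λ - f)) +
      ((α * (f / (f + g))) ^ 2 * g2 + 4 * (α * (f / (f + g))) * (β * (1 - z)) * g1
        - 2 * (β * (1 - z)) ^ 2 * (θ * Λ - g)) := by
    field_simp
    ring
  rw [hz] at key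
  linarith

/-- The summand `f g / (f + g)` with `f = x i`, `g = q_k (s ∖ i)`. -/
theorem CE4_term {s : Finset ι} {k : ℕ} {y : ι → ℝ} (h : Gam s (k + 1) y) {i : ι} (hi : i ∈ s) :
    0 < y i + qq (s.erase i) (k + 1) y ∧
      y i * qq (s.erase i) (k + 1) y / (y i + qq (s.erase i) (k + 1) y) =
        y i * es (s.erase i) (k + 1) y / es s (k + 1) y := by
  have h1 : 0 < es s (k + 1) y := h.pos le_rfl
  have h2 : 0 < es (s.erase i) k y := (h.erase hi).pos (by omega)
  have e : y i + qq (s.erase i) (k + 1) y = es s (k + 1) y / es (s.erase i) k y := by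
    rw [es_erase hi, qq, Nat.add_sub_cancel]
    field_simp
  refine ⟨e ▸ div_pos h1 h2, ?_⟩
  rw [e, qq, Nat.add_sub_cancel]
  field_simp

theorem CE4_sum {s : Finset ι} {k : ℕ} {y : ι → ℝ} (h : Gam s (k + 1) y) :
    ((k : ℝ) + 2)⁻¹ * ∑ i ∈ s, y i * qq (s.erase i) (k + 1) y / (y i + qq (s.erase i) (k + 1) y) =
      qq s (k + 2) y := by
  rw [Finset.sum_congr rfl fun i hi => (CE4_term h hi).2, ← Finset.sum_div, sum_mul_es_erase, qq]
  have h1 : 0 < es s (k + 1) y := h.pos le_rfl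
  show _ = es s (k + 1 + 1) y / es s (k + 1) y
  push_cast
  field_simp
  ring

theorem J2_es (s : Finset ι) (j : ℕ) {x : ℝ → ι → ℝ} {a b c : ι → ℝ}
    (hx : ∀ i ∈ s, J2 (fun t => x t i) (a i) (b i) (c i)) :
    J2 (fun t => es s j (x t)) (es s j a) (e1 s j a b) (e2 s j a b + e1 s j a c) := by
  classical
  cases j with
  | zero =>
    simp only [es_zero]
    exact (J2.const (1 : ℝ)).of_eq rfl (by simp [e1]) (by simp [e1, e2])
  | succ j =>
    have hx' : ∀ i, ∃ f' : ℝ → ℝ, i ∈ s → (∀ᶠ t in 𝓝 (0:ℝ), HasDerivAt (fun t => x t i) (f' t) t) ∧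
        HasDerivAt f' (c i) 0 ∧ x 0 i = a i ∧ f' 0 = b i := fun i => by
      by_cases hi : i ∈ s
      · obtain ⟨f', h⟩ := hx i hi
        exact ⟨f', fun _ => h⟩
      · exact ⟨0, fun h => (hi h).elim⟩
    choose F hF using hx'
    have ha : ∀ i ∈ s, x 0 i = a i := fun i hi => (hF i hi).2.2.1
    have hb : ∀ i ∈ s, F i 0 = b i := fun i hi => (hF i hi).2.2.2
    have hev : ∀ᶠ t in 𝓝 (0:ℝ), ∀ i ∈ s, HasDerivAt (fun t => x t i) (F i t) t :=
      (Filter.eventually_all_finset s).2 fun i hi => (hF i hi).1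
    refine ⟨fun t => e1 s (j + 1) (x t) (fun i => F i t), ?_, ?_, es_congr _ ha,
      CE4_e1_congr _ ha hb⟩
    · filter_upwards [hev] with t ht
      exact CE4_hasDerivAt_es s (j + 1) ht
    · have h0 := hev.self_of_nhds
      have h1 : HasDerivAt (fun t => ∑ i ∈ s, F i t * es (s.erase i) j (x t))
          (∑ i ∈ s, (c i * es (s.erase i) j (x 0) +
            F i 0 * e1 (s.erase i) j (x 0) (fun p => F p 0))) 0 :=
        HasDerivAt.fun_sum fun i hi => (hF i hi).2.1.fun_mul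
          (CE4_hasDerivAt_es _ j fun p hp => h0 p (Finset.mem_of_mem_erase hp))
      have e : (∑ i ∈ s, (c i * es (s.erase i) j (x 0) +
            F i 0 * e1 (s.erase i) j (x 0) (fun p => F p 0))) =
          e2 s (j + 1) a b + e1 s (j + 1) a c := by
        rw [CE4_e2_eq, e1, if_neg (Nat.succ_ne_zero j), Nat.add_sub_cancel,
          ← Finset.sum_add_distrib]
        refine Finset.sum_congr rfl fun i hi => ?_
        rw [hb i hi, es_congr j fun p hp => ha p (Finset.mem_of_mem_erase hp),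
          CE4_e1_congr j (fun p hp => ha p (Finset.mem_of_mem_erase hp))
            (fun p hp => hb p (Finset.mem_of_mem_erase hp)), add_comm]
      rw [e] at h1
      simpa only [e1, if_neg (Nat.succ_ne_zero j), Nat.add_sub_cancel] using h1

/-- Inverse concavity of `σ_k/σ_{k-1}`. With `P = False` it is plain concavity along curves with
concave coordinates. -/
theorem qq_inv_concave (P : Prop) (Λ : ℝ) (k : ℕ) (hk : 1 ≤ k) (s : Finset ι) (hs : k ≤ s.card)
    {x : ℝ → ι → ℝ} {a b c : ι → ℝ} (hx : ∀ i ∈ s, J2 (fun t => x t i) (a i) (b i) (c i))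
    (ha : Gam s (k - 1) a)
    (hq : ∀ i ∈ s, ∀ α β : ℝ, (β = 0 ∨ P) →
      α ^ 2 * c i + 4 * α * β * b i - 2 * β ^ 2 * (Λ - a i) ≤ 0) :
    ∃ q2 : ℝ, J2 (fun t => qq s k (x t)) (qq s k a) (dq s k a b) q2 ∧ ∀ α β : ℝ, (β = 0 ∨ P) →
      α ^ 2 * q2 + 4 * α * β * dq s k a b
        - 2 * β ^ 2 * (((s.card : ℝ) - k + 1) / k * Λ - qq s k a) ≤ 0 := by
  obtain ⟨k, rfl⟩ : ∃ k', k = k' + 1 := ⟨k - 1, by omega⟩
  clear hk
  induction k generalizing s with
  | zero =>
    have e0 : ∀ y : ι → ℝ, qq s (0 + 1) y = ∑ i ∈ s, y i := fun y => by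
      simp [qq, es_zero, es_one]
    have e1' : dq s (0 + 1) a b = ∑ i ∈ s, b i := by
      simp [dq, e1, es_zero]
    refine ⟨∑ i ∈ s, c i, ?_, fun α β hβ => ?_⟩
    · simp only [e0, e1']
      exact J2.sum s hx
    · have := Finset.sum_nonpos fun i hi => hq i hi α β hβ
      rw [Finset.sum_sub_distrib, Finset.sum_add_distrib, ← Finset.mul_sum, ← Finset.mul_sum,
        ← Finset.mul_sum, Finset.sum_sub_distrib, Finset.sum_const, nsmul_eq_mul] at this
      rw [e0, e1', show ((s.card : ℝ) - ((0 + 1 : ℕ) : ℝ) + 1) / ((0 + 1 : ℕ) : ℝ) = s.card by simp]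
      exact this
  | succ k ih =>
    have ha' : Gam s (k + 1) a := ha
    have hm : (k : ℝ) + 2 ≤ s.card := by exact_mod_cast hs
    have hk0 : (0 : ℝ) ≤ k := Nat.cast_nonneg k
    have hIH : ∀ i, ∃ g2 : ℝ, i ∈ s →
        J2 (fun t => qq (s.erase i) (k + 1) (x t)) (qq (s.erase i) (k + 1) a)
          (dq (s.erase i) (k + 1) a b) g2 ∧ ∀ α β : ℝ, (β = 0 ∨ P) →
        α ^ 2 * g2 + 4 * α * β * dq (s.erase i) (k + 1) a b
          - 2 * β ^ 2 * (((s.card : ℝ) - k - 1) / (k + 1) * Λ - qq (s.erase i) (k + 1) a) ≤ 0 := by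
      intro i
      by_cases hi : i ∈ s
      · have hc : (s.erase i).card + 1 = s.card := Finset.card_erase_add_one hi
        obtain ⟨g2, h1, h2⟩ := ih (s.erase i)
          (fun p hp => hx p (Finset.mem_of_mem_erase hp))
          (fun p hp => hq p (Finset.mem_of_mem_erase hp)) (by omega) (ha'.erase hi)
        refine ⟨g2, fun _ => ⟨h1, fun α β hβ => ?_⟩⟩
        have hc' : ((s.erase i).card : ℝ) = s.card - 1 := by
          rw [← hc]; push_cast; ring
        have h3 := h2 α β hβ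
        rw [hc', show ((s.card : ℝ) - 1 - ((k + 1 : ℕ) : ℝ) + 1) / ((k + 1 : ℕ) : ℝ) =
          ((s.card : ℝ) - k - 1) / (k + 1) by push_cast; ring] at h3
        exact h3
      · exact ⟨0, fun h => (hi h).elim⟩
    choose g2 hg using hIH
    have hJ := (J2.sum s fun i hi => ((hx i hi).mul (hg i hi).1).div ((hx i hi).add (hg i hi).1)
      (CE4_term ha' hi).1.ne').const_mul ((k : ℝ) + 2)⁻¹
    have hG : ∀ᶠ t in 𝓝 (0:ℝ), Gam s (k + 1) (x t) :=
      Gam.eventually (ha'.congr fun i hi => (hx i hi).val.symm) fun i hi => (hx i hi).continuousAt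
    have hJ' := hJ.congr (g := fun t => qq s (k + 2) (x t))
      (by filter_upwards [hG] with t ht using CE4_sum ht)
    have hD := (J2_es s (k + 2) hx).div (J2_es s (k + 1) hx) (ha'.pos le_rfl).ne'
    obtain ⟨u0, u1, -⟩ := hJ'.unique hD
    have u0' : _ = qq s (k + 1 + 1) a := u0
    have u1' : _ = dq s (k + 1 + 1) a b := u1
    refine ⟨_, hJ'.of_eq u0' u1' rfl, fun α β hβ => ?_⟩
    have hz : (((s.card : ℝ) - k - 1) / s.card) ^ 2 +
        (1 - ((s.card : ℝ) - k - 1) / s.card) ^ 2 * (((s.card : ℝ) - k - 1) / (k + 1)) =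
        ((s.card : ℝ) - k - 1) / s.card := by
      have : (s.card : ℝ) ≠ 0 := (show (0 : ℝ) < s.card by linarith).ne'
      field_simp
      ring
    have hβ' : ∀ r : ℝ, β * r = 0 ∨ P := fun r => hβ.imp_left fun h => by rw [h, zero_mul]
    have hsum := Finset.sum_nonpos fun i hi => CE4_alg (CE4_term ha' hi).1 hz
      (hq i hi _ _ (hβ' _)) ((hg i hi).2 _ _ (hβ' _)) (α := α)
    rw [Finset.sum_sub_distrib, Finset.sum_add_distrib, ← Finset.mul_sum, ← Finset.mul_sum,
      ← Finset.mul_sum, Finset.sum_sub_distrib (f := fun _ => _ * Λ), Finset.sum_const,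
      nsmul_eq_mul] at hsum
    rw [← u0', ← u1']
    have hpos : (0 : ℝ) < ((k : ℝ) + 2)⁻¹ := by positivity
    have hfin := mul_nonpos_of_nonneg_of_nonpos hpos.le hsum
    have hc : (s.card : ℝ) ≠ 0 := (show (0 : ℝ) < s.card by linarith).ne'
    have ec : ((s.card : ℝ) - ((k + 1 + 1 : ℕ) : ℝ) + 1) / ((k + 1 + 1 : ℕ) : ℝ) * Λ =
        ((k : ℝ) + 2)⁻¹ * (s.card * (((s.card : ℝ) - k - 1) / s.card * Λ)) := by
      push_cast
      field_simp
      ring
    rw [ec]
    linarith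

end Pool.Agent.Mink.C
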