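import Pool.Agent.Lib.MP_88c759_an.Mink.CE4

set_option maxSynthPendingDepth 3

namespace Pool.Agent.Mink.C

open scoped ContDiff Topology RealInnerProductSpace
open Set Filter

variable {ι : Type} [DecidableEq ι]

theorem CE6_base (m : ℕ) : ∃ C : ℝ, 1 ≤ C ∧ ∀ (s : Finset ι) (x : ι → ℝ), s.card ≤ m →
    Gam s (0 + 1) x → ∃ (M : ℝ) (T : Finset ι), 0 < M ∧ T ⊆ s ∧ T.card = 0 ∧
      (∀ i ∈ T, M ≤ x i) ∧ (∀ i ∈ s, i ∉ T → |x i| ≤ C * M) ∧ (∃ i ∈ s, M ≤ x i) ∧
      M ^ 0 ≤ es s 0 x ∧ ∀ i, 0 ≤ i → i ≤ m → |es s i x| ≤ C * es s 0 x * M ^ (i - 0) := by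
  have hm0 : (0 : ℝ) ≤ m := Nat.cast_nonneg m
  have hp : (0 : ℝ) ≤ 2 ^ m * ((m : ℝ) + 1) ^ m := by positivity
  refine ⟨2 ^ m * ((m : ℝ) + 1) ^ m + (m + 1), by linarith, ?_⟩
  intro s x hs h
  have hne : s.Nonempty := Finset.card_pos.1 (lt_of_lt_of_le Nat.one_pos h.le_card)
  obtain ⟨o, ho, hmax⟩ := Finset.exists_max_image s x hne
  have hM : 0 < x o := Gam.max_pos le_rfl h hmax
  have hsm : (s.card : ℝ) ≤ m := by exact_mod_cast hs
  have habs : ∀ i ∈ s, |x i| ≤ ((m : ℝ) + 1) * x o := by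
    intro i hi
    have h1 := Gam.lower le_rfl h hmax hi
    have h2 := hmax i hi
    simp only [Nat.cast_one, one_mul] at h1
    rw [abs_le]
    constructor <;> nlinarith
  refine ⟨x o, ∅, hM, Finset.empty_subset _, rfl, by simp, ?_, ⟨o, ho, le_rfl⟩, ?_, ?_⟩
  · intro i hi _
    have := habs i hi
    nlinarith [mul_nonneg hp hM.le]
  · rw [pow_zero, es_zero]
  · intro i _ him
    rw [es_zero, mul_one, Nat.sub_zero]
    have h1 := abs_es_le i (by positivity) habs
    have h2 : (s.card.choose i : ℝ) ≤ 2 ^ m := by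
      have := (Nat.choose_le_two_pow s.card i).trans (Nat.pow_le_pow_right (by norm_num) hs)
      exact_mod_cast this
    have h3 : ((m : ℝ) + 1) ^ i ≤ ((m : ℝ) + 1) ^ m := pow_le_pow_right₀ (by linarith) him
    have h4 : (0 : ℝ) ≤ x o ^ i := by positivity
    calc |es s i x| ≤ (s.card.choose i : ℝ) * (((m : ℝ) + 1) * x o) ^ i := h1
      _ = (s.card.choose i : ℝ) * ((m : ℝ) + 1) ^ i * x o ^ i := by rw [mul_pow]; ring
      _ ≤ 2 ^ m * ((m : ℝ) + 1) ^ m * x o ^ i := by gcongr
      _ ≤ _ := by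
        apply mul_le_mul_of_nonneg_right _ h4
        linarith

/-- structure of a point of `Γ_{j+1}`: `M` is its `(j+1)`-st largest entry -/
theorem gam_structure (m j : ℕ) : ∃ C : ℝ, 1 ≤ C ∧ ∀ (s : Finset ι) (x : ι → ℝ), s.card ≤ m →
    Gam s (j + 1) x → ∃ (M : ℝ) (T : Finset ι), 0 < M ∧ T ⊆ s ∧ T.card = j ∧
      (∀ i ∈ T, M ≤ x i) ∧ (∀ i ∈ s, i ∉ T → |x i| ≤ C * M) ∧ (∃ i ∈ s, M ≤ x i) ∧
      M ^ j ≤ es s j x ∧ ∀ i, j ≤ i → i ≤ m → |es s i x| ≤ C * es s j x * M ^ (i - j) := by
  induction j with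
  | zero => exact CE6_base m
  | succ j ih =>
    obtain ⟨C, hC, ih⟩ := ih
    refine ⟨2 * C, by linarith, ?_⟩
    intro s x hs h
    have hne : s.Nonempty := Finset.card_pos.1 (lt_of_lt_of_le (Nat.succ_pos _) h.le_card)
    obtain ⟨o, ho, hmax⟩ := Finset.exists_max_image s x hne
    have h' : Gam (s.erase o) (j + 1) x := h.erase ho
    obtain ⟨M, T, hM, hT, hTc, hTM, hout, ⟨i₀, hi₀, hMi⟩, hpow, hes⟩ :=
      ih (s.erase o) x (Finset.card_erase_le.trans hs) h'
    have hMo : M ≤ x o := hMi.trans (hmax i₀ (Finset.mem_of_mem_erase hi₀))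
    have hoT : o ∉ T := fun h1 => Finset.notMem_erase o s (hT h1)
    have hj : 0 < es (s.erase o) j x := h'.pos (Nat.le_succ j)
    have hj1 : 0 < es (s.erase o) (j + 1) x := h'.pos le_rfl
    have hA : x o * es (s.erase o) j x ≤ es s (j + 1) x := by
      rw [es_erase ho]
      linarith
    refine ⟨M, insert o T, hM, Finset.insert_subset ho (hT.trans (Finset.erase_subset _ _)),
      by rw [Finset.card_insert_of_notMem hoT, hTc], ?_, ?_, ⟨o, ho, hMo⟩, ?_, ?_⟩
    · intro i hi
      rcases Finset.mem_insert.1 hi with e | hi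
      · rw [e]
        exact hMo
      · exact hTM i hi
    · intro i hi hiT
      rw [Finset.mem_insert, not_or] at hiT
      have := hout i (Finset.mem_erase.2 ⟨hiT.1, hi⟩) hiT.2
      nlinarith
    · calc M ^ (j + 1) = M * M ^ j := by ring
        _ ≤ x o * es (s.erase o) j x := mul_le_mul hMo hpow (by positivity) (hM.le.trans hMo)
        _ ≤ _ := hA
    · intro i hi him
      obtain ⟨d, rfl⟩ := Nat.exists_eq_add_of_le hi
      have e1 : j + 1 + d - (j + 1) = d := by omega
      have e2 : j + 1 + d = j + d + 1 := by omega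
      rw [e1, e2, es_erase ho]
      have b1 := hes (j + d) (by omega) (by omega)
      have b2 := hes (j + d + 1) (by omega) (by omega)
      rw [show j + d - j = d by omega] at b1
      rw [show j + d + 1 - j = d + 1 by omega] at b2
      have hxo : 0 < x o := hM.trans_le hMo
      have hMd : 0 ≤ C * M ^ d := by positivity
      have c1 : |x o * es (s.erase o) (j + d) x| ≤ C * M ^ d * es s (j + 1) x := by
        rw [abs_mul, abs_of_pos hxo]
        calc x o * |es (s.erase o) (j + d) x| ≤ x o * (C * es (s.erase o) j x * M ^ d) :=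
              mul_le_mul_of_nonneg_left b1 hxo.le
          _ = C * M ^ d * (x o * es (s.erase o) j x) := by ring
          _ ≤ _ := mul_le_mul_of_nonneg_left hA hMd
      have c2 : |es (s.erase o) (j + d + 1) x| ≤ C * M ^ d * es s (j + 1) x := by
        calc |es (s.erase o) (j + d + 1) x| ≤ C * es (s.erase o) j x * M ^ (d + 1) := b2
          _ = C * M ^ d * (M * es (s.erase o) j x) := by ring
          _ ≤ C * M ^ d * (x o * es (s.erase o) j x) :=
              mul_le_mul_of_nonneg_left (mul_le_mul_of_nonneg_right hMo hj.le) hMd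
          _ ≤ _ := mul_le_mul_of_nonneg_left hA hMd
      calc |x o * es (s.erase o) (j + d) x + es (s.erase o) (j + d + 1) x|
            ≤ |x o * es (s.erase o) (j + d) x| + |es (s.erase o) (j + d + 1) x| := abs_add_le _ _
        _ ≤ C * M ^ d * es s (j + 1) x + C * M ^ d * es s (j + 1) x := add_le_add c1 c2
        _ = _ := by ring

theorem CE6_insert {s : Finset ι} {a : ι} (ha : a ∉ s) (j : ℕ) (x : ι → ℝ) :
    es (insert a s) (j + 1) x = x a * es s j x + es s (j + 1) x := by
  rw [es_erase (Finset.mem_insert_self a s), Finset.erase_insert ha]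

/-- positive vectors with at most `j` large entries -/
theorem es_succ_le_of_few {s T : Finset ι} {j : ℕ} (hT : T.card ≤ j) {y : ι → ℝ} {L : ℝ}
    (hL : 0 ≤ L) (hy : ∀ i ∈ s, 0 ≤ y i) (hyL : ∀ i ∈ s, i ∉ T → y i ≤ L) :
    es s (j + 1) y ≤ (s.card : ℝ) * L * es s j y := by
  induction s using Finset.induction_on generalizing T j with
  | empty =>
    rw [es_of_card_lt (by simp)]
    simp
  | insert a s ha ih =>
    have hy' : ∀ i ∈ s, 0 ≤ y i := fun i hi => hy i (Finset.mem_insert_of_mem hi)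
    have hya : 0 ≤ y a := hy a (Finset.mem_insert_self _ _)
    have h1 := ih hT hy' (fun i hi => hyL i (Finset.mem_insert_of_mem hi))
    have h0 : 0 ≤ es (insert a s) j y := es_nonneg j hy
    rw [Finset.card_insert_of_notMem ha, CE6_insert ha]
    push_cast
    by_cases haT : a ∈ T
    · obtain ⟨j', rfl⟩ : ∃ j', j = j' + 1 :=
        ⟨j - 1, by have := Finset.card_pos.2 ⟨a, haT⟩; omega⟩
      have h2 := ih (T := T.erase a) (j := j') (by rw [Finset.card_erase_of_mem haT]; omega) hy'
        (fun i hi hiT => hyL i (Finset.mem_insert_of_mem hi) fun h3 =>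
          hiT (Finset.mem_erase.2 ⟨fun e => ha (e ▸ hi), h3⟩))
      have h3 := mul_le_mul_of_nonneg_left h2 hya
      have h4 := mul_nonneg hL h0
      rw [CE6_insert ha] at h4 ⊢
      nlinarith
    · have h2 := hyL a (Finset.mem_insert_self _ _) haT
      have h3 : es s j y ≤ es (insert a s) j y := es_mono_set (Finset.subset_insert _ _) j hy
      have h4 : 0 ≤ es s j y := es_nonneg j hy'
      have h5 : 0 ≤ ((s.card : ℝ) + 1) * L := by positivity
      have h6 := mul_le_mul_of_nonneg_left h3 h5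
      have h7 := mul_le_mul_of_nonneg_right h2 h4
      nlinarith

theorem CE6_e1_single {s : Finset ι} (j : ℕ) (x : ι → ℝ) {p : ι} (hp : p ∈ s) :
    e1 s j x (Pi.single p 1) = if j = 0 then 0 else es (s.erase p) (j - 1) x := by
  unfold e1
  split_ifs
  · rfl
  · rw [Finset.sum_eq_single p]
    · simp
    · intro q _ hq
      simp [Pi.single_eq_of_ne hq]
    · intro h
      exact absurd hp h

theorem CE6_e1_sum (s : Finset ι) (j : ℕ) (x ξ : ι → ℝ) :
    e1 s j x ξ = ∑ p ∈ s, ξ p * e1 s j x (Pi.single p 1) := by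
  rw [Finset.sum_congr rfl (fun p hp => by rw [CE6_e1_single j x hp])]
  unfold e1
  split_ifs
  · simp
  · rfl

theorem CE6_e1_self (s : Finset ι) (j : ℕ) (x : ι → ℝ) : e1 s j x x = j * es s j x := by
  unfold e1
  cases j with
  | zero => simp
  | succ j =>
    rw [if_neg (Nat.succ_ne_zero j), Nat.add_sub_cancel, sum_mul_es_erase]
    push_cast
    rfl

theorem dq_sum (s : Finset ι) (k : ℕ) (x ξ : ι → ℝ) :
    dq s k x ξ = ∑ p ∈ s, ξ p * dq s k x (Pi.single p 1) := by
  unfold dq
  rw [CE6_e1_sum s k x ξ, CE6_e1_sum s (k - 1) x ξ, Finset.sum_mul, Finset.mul_sum,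
    ← Finset.sum_sub_distrib, Finset.sum_div]
  refine Finset.sum_congr rfl fun p _ => ?_
  ring

theorem dq_single_nonneg {s : Finset ι} (k : ℕ) (x : ι → ℝ) {p : ι} (hp : p ∈ s) :
    0 ≤ dq s k x (Pi.single p 1) := by
  unfold dq
  refine div_nonneg ?_ (sq_nonneg _)
  rw [CE6_e1_single k x hp, CE6_e1_single (k - 1) x hp]
  rcases k with _ | _ | j
  · simp
  · simp [es_zero]
  · have h := newton (s.erase p) j x
    rw [if_neg (by omega), if_neg (by omega), show j + 1 + 1 - 1 = j + 1 from rfl,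
      show j + 1 - 1 = j from rfl, es_erase hp (j + 1), es_erase hp j]
    nlinarith

theorem dq_euler {s : Finset ι} {k : ℕ} (hk : 1 ≤ k) {x : ι → ℝ} (hx : es s (k - 1) x ≠ 0) :
    dq s k x x = qq s k x := by
  unfold dq qq
  rw [CE6_e1_self, CE6_e1_self, Nat.cast_sub hk]
  field_simp
  push_cast
  ring

theorem CE6_step {s : Finset ι} {k : ℕ} (hk : 1 ≤ k) {x y : ι → ℝ} (hx : Gam s (k - 1) x)
    {p : ι} (hp : p ∈ s) (hxy : x p ≤ y p) (he : ∀ i ∈ s.erase p, x i = y i) :
    qq s k x ≤ qq s k y := by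
  have hle : ∀ i ∈ s, x i ≤ y i := by
    intro i hi
    by_cases h : i = p
    · rw [h]
      exact hxy
    · exact (he i (Finset.mem_erase.2 ⟨h, hi⟩)).le
  have h1 : 0 < es s (k - 1) x := hx.pos le_rfl
  have h2 : 0 < es s (k - 1) y := (hx.of_le hle).1.pos le_rfl
  unfold qq
  rw [div_le_div_iff₀ h1 h2]
  obtain ⟨k, rfl⟩ := Nat.exists_eq_add_of_le' hk
  rw [Nat.add_sub_cancel]
  cases k with
  | zero =>
    rw [es_zero, es_zero, mul_one, mul_one, es_erase hp, es_erase hp, es_zero, es_zero,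
      es_congr _ he]
    linarith
  | succ j =>
    have h := newton (s.erase p) j y
    rw [es_erase hp (j + 1) x, es_erase hp j x, es_erase hp (j + 1) y, es_erase hp j y,
      es_congr j he, es_congr (j + 1) he, es_congr (j + 1 + 1) he]
    nlinarith [mul_nonneg (sub_nonneg.2 hxy) (sub_nonneg.2 h)]

/-- the quotient increases when all variables increase -/
theorem qq_mono {s : Finset ι} {k : ℕ} (hk : 1 ≤ k) {x y : ι → ℝ} (hx : Gam s (k - 1) x)
    (hxy : ∀ i ∈ s, x i ≤ y i) : qq s k x ≤ qq s k y := by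
  have key : ∀ U : Finset ι, U ⊆ s → qq s k x ≤ qq s k (fun i => if i ∈ U then y i else x i) := by
    intro U
    induction U using Finset.induction_on with
    | empty =>
      intro _
      simp
    | insert p U hpU ih =>
      intro hU
      have hp : p ∈ s := hU (Finset.mem_insert_self _ _)
      refine (ih ((Finset.subset_insert _ _).trans hU)).trans (CE6_step hk ?_ hp ?_ ?_)
      · refine (hx.of_le fun i hi => ?_).1
        split_ifs
        · exact hxy i hi
        · exact le_rfl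
      · simp only [hpU, if_false, Finset.mem_insert_self, if_true]
        exact hxy p hp
      · intro i hi
        simp only [Finset.mem_insert, (Finset.mem_erase.1 hi).1, false_or]
  have h := key s (Finset.Subset.refl s)
  have e : ∀ j, es s j (fun i => if i ∈ s then y i else x i) = es s j y := fun j =>
    es_congr j fun i hi => if_pos hi
  unfold qq at h ⊢
  rwa [e, e] at h

end Pool.Agent.Mink.C
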