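import Pool.Agent.Lib.MP_88c759_an.Mink.CE5
import Pool.Agent.Lib.MP_88c759_an.Mink.CE6

set_option maxSynthPendingDepth 3

namespace Pool.Agent.Mink.C

open scoped ContDiff Topology RealInnerProductSpace
open Set Filter

variable {ι : Type} [DecidableEq ι]

theorem CE7_d1 (s : Finset ι) (j : ℕ) (x ξ : ι → ℝ) (t : ℝ) :
    HasDerivAt (fun τ : ℝ => e1 s (j + 1) (fun i => x i + τ) ξ)
      (((s.card : ℝ) - j) * e1 s j (fun i => x i + t) ξ) t := by
  rcases j with _ | j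
  · simp only [e1, es_zero, zero_add, one_ne_zero, if_false, if_true, tsub_self, mul_zero]
    exact hasDerivAt_const _ _
  · simp only [e1, Nat.add_eq_zero_iff, one_ne_zero, and_false, if_false, Nat.add_sub_cancel]
    rw [Finset.mul_sum]
    refine HasDerivAt.fun_sum fun i hi => ?_
    refine ((hasDerivAt_es_shift (s.erase i) j x t).const_mul (ξ i)).congr_deriv ?_
    rw [Finset.cast_card_erase_of_mem hi]
    push_cast
    ring

theorem CE7_d2 (s : Finset ι) (j : ℕ) (x ξ : ι → ℝ) (t : ℝ) :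
    HasDerivAt (fun τ : ℝ => e2 s (j + 1) (fun i => x i + τ) ξ)
      (((s.card : ℝ) - j) * e2 s j (fun i => x i + t) ξ) t := by
  rcases j with _ | _ | j
  · simp only [e2, zero_add, Nat.one_lt_ofNat, Nat.ofNat_pos, if_true, mul_zero]
    exact hasDerivAt_const _ _
  · simp only [e2, zero_add, Nat.one_lt_ofNat, Nat.reduceAdd, lt_self_iff_false, if_false, if_true,
      tsub_self, es_zero, mul_zero]
    exact hasDerivAt_const _ _
  · have h1 : ¬(j + 1 + 1 + 1 < 2) := by omega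
    have h2 : ¬(j + 1 + 1 < 2) := by omega
    have h3 : j + 1 + 1 + 1 - 2 = j + 1 := by omega
    have h4 : j + 1 + 1 - 2 = j := by omega
    simp only [e2, h1, h2, h3, h4, if_false]
    rw [Finset.mul_sum]
    refine HasDerivAt.fun_sum fun p hp => ?_
    rw [Finset.mul_sum]
    refine HasDerivAt.fun_sum fun q hq => ?_
    refine ((hasDerivAt_es_shift ((s.erase p).erase q) j x t).const_mul (ξ p * ξ q)).congr_deriv ?_
    rw [Finset.cast_card_erase_of_mem hq, Finset.cast_card_erase_of_mem hp]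
    push_cast
    ring

theorem CE7_e1_zero (s : Finset ι) (j : ℕ) (x : ι → ℝ) : e1 s j x (fun _ => 0) = 0 := by
  simp [e1]

theorem CE7_line (s : Finset ι) (y ξ : ι → ℝ) :
    ∀ i ∈ s, J2 (fun t : ℝ => (fun (t : ℝ) (i : ι) => y i + t • ξ i) t i) (y i) (ξ i)
      ((fun _ => (0 : ℝ)) i) := fun i _ => J2.line (y i) (ξ i)

theorem CE7_deriv {s : Finset ι} {j : ℕ} {x : ι → ℝ} (ξ : ι → ℝ) {t : ℝ}
    (hy : Gam s (j + 1) (fun i => x i + t)) :
    ∃ d, HasDerivAt (fun τ : ℝ => Gq s (j + 1) (fun i => x i + τ) ξ) d t ∧ d ≤ 0 := by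
  have hA := hy.pos le_rfl
  have ha := hy.pos (Nat.le_succ j)
  have hc : (0 : ℝ) ≤ (s.card : ℝ) - j := by
    have : j ≤ s.card := (Nat.le_succ j).trans hy.le_card
    exact sub_nonneg.2 (by exact_mod_cast this)
  have d0 := hasDerivAt_es_shift s j x t
  have d1 := CE7_d1 s j x ξ t
  have d2 := CE7_d2 s j x ξ t
  refine ⟨_, ((d1.fun_pow 2).fun_div (d0.fun_pow 2) (pow_ne_zero 2 hA.ne')).fun_sub
    (d2.fun_div d0 hA.ne'), ?_⟩
  obtain ⟨q2, h1, h2⟩ := qq_inv_concave False 0 (j + 1) (by omega) s hy.le_card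
    (CE7_line s (fun i => x i + t) ξ) (hy.mono (by omega)) (fun i _ α β hβ => by
      rcases hβ with rfl | h
      · simp
      · exact h.elim)
  have h3 : q2 ≤ 0 := by simpa using h2 1 0 (Or.inl rfl)
  have h4 := (J2_es s (j + 1) (CE7_line s (fun i => x i + t) ξ)).div
    (J2_es s j (CE7_line s (fun i => x i + t) ξ)) ha.ne'
  have h5 := (h1.unique h4).2.2
  rw [CE7_e1_zero, CE7_e1_zero, add_zero, add_zero] at h5
  generalize es s (j + 1) (fun i => x i + t) = A at *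
  generalize es s j (fun i => x i + t) = a at *
  generalize e1 s (j + 1) (fun i => x i + t) ξ = B at *
  generalize e1 s j (fun i => x i + t) ξ = b at *
  generalize e2 s (j + 1) (fun i => x i + t) ξ = C at *
  generalize e2 s j (fun i => x i + t) ξ = c at *
  generalize (s.card : ℝ) - j = N at *
  have h6 : 0 ≤ N * (-q2 * a ^ 2 / A ^ 2 + 2 * (B * a - A * b) ^ 2 / (a * A ^ 3)) := by
    have : 0 ≤ -q2 := by linarith
    positivity
  refine le_of_eq_of_le ?_ (neg_nonpos.2 h6)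
  rw [h5]
  simp only [Nat.cast_ofNat, Nat.add_one_sub_one, pow_one]
  field_simp
  ring

theorem CE7_log {s : Finset ι} {k : ℕ} {x : ℝ → ι → ℝ} {a b c : ι → ℝ}
    (hx : ∀ i ∈ s, J2 (fun t => x t i) (a i) (b i) (c i)) (ha : 0 < es s k a) :
    J2 (fun t => Real.log (es s k (x t))) (Real.log (es s k a)) (e1 s k a b / es s k a)
      (e1 s k a c / es s k a - Gq s k a b) := by
  refine ((J2_es s k hx).log ha).of_eq rfl rfl ?_
  unfold Gq
  ring

theorem CE7_fac {s : Finset ι} {j : ℕ} {y : ι → ℝ} (hy : Gam s (j + 1) y) {o : ι} (ho : o ∈ s) :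
    0 < es (s.erase o) j y ∧ 0 < y o + qq (s.erase o) (j + 1) y ∧
      es s (j + 1) y = es (s.erase o) j y * (y o + qq (s.erase o) (j + 1) y) := by
  have h1 : 0 < es (s.erase o) j y := (hy.erase ho).pos le_rfl
  have h2 : es s (j + 1) y = es (s.erase o) j y * (y o + qq (s.erase o) (j + 1) y) := by
    rw [es_erase ho, qq, Nat.add_sub_cancel]
    field_simp
  refine ⟨h1, ?_, h2⟩
  have h3 := hy.pos le_rfl
  rw [h2] at h3
  exact (mul_pos_iff_of_pos_left h1).1 h3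

theorem CE7_split {s : Finset ι} {j : ℕ} {x : ℝ → ι → ℝ} {a b c : ι → ℝ}
    (hx : ∀ i ∈ s, J2 (fun t => x t i) (a i) (b i) (c i)) (ha : Gam s (j + 1) a) {o : ι}
    (ho : o ∈ s) {q2 : ℝ}
    (hq : J2 (fun t => qq (s.erase o) (j + 1) (x t)) (qq (s.erase o) (j + 1) a)
      (dq (s.erase o) (j + 1) a b) q2) :
    e1 s (j + 1) a c / es s (j + 1) a - Gq s (j + 1) a b =
      (e1 (s.erase o) j a c / es (s.erase o) j a - Gq (s.erase o) j a b) +
        ((c o + q2) / (a o + qq (s.erase o) (j + 1) a) -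
          (b o + dq (s.erase o) (j + 1) a b) ^ 2 / (a o + qq (s.erase o) (j + 1) a) ^ 2) := by
  obtain ⟨h1, h2, -⟩ := CE7_fac ha ho
  have k1 := CE7_log hx (ha.pos le_rfl)
  have k2 := (CE7_log (fun i hi => hx i (Finset.mem_of_mem_erase hi)) h1).add
    (((hx o ho).add hq).log h2)
  have h0 : Gam s (j + 1) (x 0) := ha.congr fun i hi => (hx i hi).val.symm
  have he := h0.eventually fun i hi => (hx i hi).continuousAt
  refine (k1.unique (k2.congr ?_)).2.2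
  filter_upwards [he] with t ht
  obtain ⟨g1, g2, g3⟩ := CE7_fac ht ho
  rw [g3, Real.log_mul g1.ne' g2.ne']

theorem CE7_alg {κ ρ q2 s1 D ξ L S : ℝ} (hκ : 0 < κ) (hρ : 0 < ρ) (hL : L ≤ 0)
    (hq : ∀ β : ℝ, q2 + 4 * β * s1 - 2 * β ^ 2 * D ≤ 0) (hD : D + 2 * ρ ≤ 2 * κ)
    (hS : -S = L + (q2 / ρ - (ξ + s1) ^ 2 / ρ ^ 2)) : ξ ^ 2 ≤ κ * (ρ * S) := by
  obtain ⟨β, hβ⟩ : ∃ β : ℝ, ξ = -(2 * κ * β) := ⟨-ξ / (2 * κ), by field_simp⟩
  obtain ⟨w, hw⟩ : ∃ w : ℝ, ξ + s1 = ρ * w := ⟨(ξ + s1) / ρ, by field_simp⟩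
  have h1 : ρ * S = -(ρ * L) - q2 + ρ * w ^ 2 := by
    have : S = -(L + (q2 / ρ - (ξ + s1) ^ 2 / ρ ^ 2)) := by linarith
    rw [this, hw]
    field_simp
    ring
  have h2 : 0 ≤ ρ * (w + 2 * β) ^ 2 := by positivity
  have h3 : ρ * L ≤ 0 := mul_nonpos_of_nonneg_of_nonpos hρ.le hL
  have h4 : β ^ 2 * (D + 2 * ρ) ≤ β ^ 2 * (2 * κ) := mul_le_mul_of_nonneg_left hD (sq_nonneg β)
  have h5 := hq β
  have h6 : s1 = ρ * w + 2 * κ * β := by linarith
  have h7 : 4 * κ * β ^ 2 ≤ ρ * S := by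
    rw [h6] at h5
    nlinarith
  rw [hβ]
  nlinarith

/-- the Hessian of `-log σ_k` decreases under a shift of all variables -/
theorem Gq_shift {s : Finset ι} {k : ℕ} {x : ι → ℝ} (hx : Gam s k x) (ξ : ι → ℝ) {τ : ℝ}
    (hτ : 0 ≤ τ) : Gq s k (fun i => x i + τ) ξ ≤ Gq s k x ξ := by
  rcases k with _ | j
  · simp [Gq, e1, e2]
  have hd : ∀ t ∈ Ici (0 : ℝ), ∃ d,
      HasDerivAt (fun τ : ℝ => Gq s (j + 1) (fun i => x i + τ) ξ) d t ∧ d ≤ 0 := fun t ht =>
    CE7_deriv ξ (hx.of_le fun i _ => le_add_of_nonneg_right ht).1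
  have ha : AntitoneOn (fun τ : ℝ => Gq s (j + 1) (fun i => x i + τ) ξ) (Ici 0) := by
    refine antitoneOn_of_deriv_nonpos (convex_Ici 0) (fun t ht => ?_) (fun t ht => ?_)
      fun t ht => ?_
    · obtain ⟨d, h, -⟩ := hd t ht
      exact h.continuousAt.continuousWithinAt
    · obtain ⟨d, h, -⟩ := hd t (interior_subset ht)
      exact h.differentiableAt.differentiableWithinAt
    · obtain ⟨d, h, h'⟩ := hd t (interior_subset ht)
      rw [h.deriv]
      exact h'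
  simpa using ha (mem_Ici.2 le_rfl) (mem_Ici.2 hτ) hτ

/-- splitting off one variable: `σ_k = σ_{k-1}(x|o) (x_o + q_k(x|o))` -/
theorem Gq_split {s : Finset ι} {k : ℕ} (hk : 1 ≤ k) (hks : k + 1 ≤ s.card) {y : ι → ℝ}
    (hy : Gam s k y) {o : ι} (ho : o ∈ s) (ξ : ι → ℝ) :
    0 < y o + qq (s.erase o) k y ∧
      (ξ o + dq (s.erase o) k y ξ) ^ 2 / (y o + qq (s.erase o) k y) ^ 2 ≤ Gq s k y ξ := by
  obtain ⟨j, rfl⟩ : ∃ j, k = j + 1 := ⟨k - 1, by omega⟩
  obtain ⟨h1, h2, -⟩ := CE7_fac hy ho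
  refine ⟨h2, ?_⟩
  have hc : j + 1 ≤ (s.erase o).card := by
    rw [Finset.card_erase_of_mem ho]
    omega
  obtain ⟨q2, k1, k2⟩ := qq_inv_concave False 0 (j + 1) hk (s.erase o) hc
    (CE7_line (s.erase o) y ξ) (hy.erase ho) (fun i _ α β hβ => by
      rcases hβ with rfl | h
      · simp
      · exact h.elim)
  have h3 : q2 ≤ 0 := by simpa using k2 1 0 (Or.inl rfl)
  have h4 := CE7_split (CE7_line s y ξ) hy ho k1
  rw [CE7_e1_zero, CE7_e1_zero, zero_div, zero_div, zero_add] at h4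
  have h5 : 0 ≤ Gq (s.erase o) j y ξ := Gq_nonneg (hy.erase ho) ξ
  have h6 : q2 / (y o + qq (s.erase o) (j + 1) y) ≤ 0 := div_nonpos_of_nonpos_of_nonneg h3 h2.le
  linarith

/-- regime A of the curvature estimate -/
theorem regimeA {s : Finset ι} {k : ℕ} (hk : 1 ≤ k) (hks : k + 1 ≤ s.card) {κ ξ η : ι → ℝ}
    (hκ : Gam s k κ) {o : ι} (ho : o ∈ s) (hmax : ∀ i ∈ s, κ i ≤ κ o)
    (hη : ∀ p ∈ s.erase o, 0 ≤ η p ∧ ξ p ^ 2 ≤ η p * (κ o - κ p))
    (hA : (k : ℝ) * es s k κ ≤ (2 * k - (s.card : ℝ)) * κ o * es (s.erase o) (k - 1) κ) :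
    es (s.erase o) (k - 1) κ * ξ o ^ 2 ≤ κ o * (es s k κ * Gq s k κ ξ
      + 2 * ∑ p ∈ s.erase o, es (s.erase p) (k - 1) κ * η p) := by
  obtain ⟨j, rfl⟩ : ∃ j, k = j + 1 := ⟨k - 1, by omega⟩
  obtain ⟨h1, h2, h3⟩ := CE7_fac hκ ho
  have hpos : 0 < κ o := hκ.max_pos hk hmax
  have hσ := hκ.pos le_rfl
  have hc : j + 1 ≤ (s.erase o).card := by
    rw [Finset.card_erase_of_mem ho]
    omega
  obtain ⟨c, hco, hcp⟩ : ∃ c : ι → ℝ, c o = 0 ∧ ∀ p ∈ s.erase o, c p = -(2 * η p) :=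
    ⟨fun i => if i = o then 0 else -(2 * η i), if_pos rfl,
      fun p hp => if_neg (Finset.ne_of_mem_erase hp)⟩
  have hx : ∀ i ∈ s, J2 (fun t : ℝ => (fun (t : ℝ) (i : ι) =>
      κ i + t • ξ i + (t ^ 2 / 2) • c i) t i) (κ i) (ξ i) (c i) :=
    fun i _ => J2.poly (κ i) (ξ i) (c i)
  obtain ⟨q2, k1, k2⟩ := qq_inv_concave True (κ o) (j + 1) hk (s.erase o) hc
    (fun i hi => hx i (Finset.mem_of_mem_erase hi)) (hκ.erase ho) (fun i hi α β _ => by
      obtain ⟨g1, g2⟩ := hη i hi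
      have g3 : 0 ≤ κ o - κ i := sub_nonneg.2 (hmax i (Finset.mem_of_mem_erase hi))
      rw [hcp i hi]
      rcases g1.eq_or_lt with g4 | g4
      · rw [← g4, zero_mul] at g2
        have g5 : ξ i = 0 := pow_eq_zero_iff two_ne_zero |>.1 (le_antisymm g2 (sq_nonneg _))
        rw [← g4, g5]
        nlinarith [mul_nonneg (sq_nonneg β) g3]
      · refine le_of_mul_le_mul_left ?_ g4
        nlinarith [sq_nonneg (η i * α - β * ξ i), mul_le_mul_of_nonneg_left g2 (sq_nonneg β)])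
  have h4 := CE7_split hx hκ ho k1
  have h5 : e1 (s.erase o) j κ c / es (s.erase o) j κ - Gq (s.erase o) j κ ξ ≤ 0 :=
    log_es_second (hκ.erase ho) fun i hi => by
      rw [hcp i hi]
      linarith [(hη i hi).1]
  have h6 : e1 s (j + 1) κ c = -(2 * ∑ p ∈ s.erase o, es (s.erase p) j κ * η p) := by
    simp only [e1, Nat.add_eq_zero_iff, one_ne_zero, and_false, if_false, Nat.add_sub_cancel]
    rw [← Finset.add_sum_erase s _ ho, hco, zero_mul, zero_add, Finset.mul_sum,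
      ← Finset.sum_neg_distrib]
    refine Finset.sum_congr rfl fun p hp => ?_
    rw [hcp p hp]
    ring
  rw [hco, zero_add, h6] at h4
  rw [Nat.add_sub_cancel] at hA ⊢
  rw [Finset.cast_card_erase_of_mem ho] at k2
  have hk0 : (0 : ℝ) < ((j + 1 : ℕ) : ℝ) := by positivity
  have h7 := CE7_alg (S := Gq s (j + 1) κ ξ +
      2 * (∑ p ∈ s.erase o, es (s.erase p) j κ * η p) / es s (j + 1) κ) hpos h2 h5
    (fun β => by simpa using k2 1 β (Or.inr trivial))
    (D := ((s.card : ℝ) - 1 - ((j + 1 : ℕ) : ℝ) + 1) / ((j + 1 : ℕ) : ℝ) * κ o -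
      qq (s.erase o) (j + 1) κ) (by
      rw [h3] at hA
      have g1 : ((j + 1 : ℕ) : ℝ) * (κ o + qq (s.erase o) (j + 1) κ) ≤
          (2 * ((j + 1 : ℕ) : ℝ) - s.card) * κ o := by
        refine le_of_mul_le_mul_right ?_ h1
        linarith
      have g2 : ((s.card : ℝ) - 1 - ((j + 1 : ℕ) : ℝ) + 1) / ((j + 1 : ℕ) : ℝ) * κ o ≤
          -qq (s.erase o) (j + 1) κ := by
        rw [div_mul_eq_mul_div, div_le_iff₀ hk0]
        linarith
      linarith) (by rw [← h4]; ring)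
  have h8 : κ o * (es s (j + 1) κ * Gq s (j + 1) κ ξ +
      2 * ∑ p ∈ s.erase o, es (s.erase p) j κ * η p) =
      es (s.erase o) j κ * (κ o * ((κ o + qq (s.erase o) (j + 1) κ) * (Gq s (j + 1) κ ξ +
        2 * (∑ p ∈ s.erase o, es (s.erase p) j κ * η p) / es s (j + 1) κ))) := by
    have g1 : es (s.erase o) j κ * (κ o * ((κ o + qq (s.erase o) (j + 1) κ) * (Gq s (j + 1) κ ξ +
        2 * (∑ p ∈ s.erase o, es (s.erase p) j κ * η p) / es s (j + 1) κ))) =
        κ o * ((es (s.erase o) j κ * (κ o + qq (s.erase o) (j + 1) κ)) * (Gq s (j + 1) κ ξ +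
        2 * (∑ p ∈ s.erase o, es (s.erase p) j κ * η p) / es s (j + 1) κ)) := by ring
    rw [g1, ← h3]
    field_simp
  rw [h8]
  exact mul_le_mul_of_nonneg_left h7 h1.le

end Pool.Agent.Mink.C
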