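import Pool.Agent.Lib.MP_88c759_an.Mink.CE7

set_option maxSynthPendingDepth 3

namespace Pool.Agent.Mink.C

open scoped ContDiff Topology RealInnerProductSpace
open Set Filter

variable {ι : Type} [DecidableEq ι]

theorem CE8_fin {δ t K f σ G W x R A N : ℝ} (hδ : 0 < δ) (hδ1 : δ ≤ 1) (ht : t = δ / 15)
    (hK : 0 < K) (hσ : 0 < σ) (hG : 0 ≤ G) (hW : 0 ≤ W) (h1 : K * f ≤ (1 + t) * σ)
    (hA0 : 0 < A) (hA : A ≤ (1 + t) * K) (h2 : (x + R) ^ 2 / A ^ 2 ≤ G) (h3 : σ * R ^ 2 ≤ N * W)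
    (h4 : (1 + t) * (1 + 1 / t) * N ≤ K) : (1 - δ) * (f * x ^ 2) ≤ K * (σ * G) + W := by
  have ht0 : 0 < t := by rw [ht]; positivity
  have ht1 : t ≤ 1 := by rw [ht]; linarith
  have h5 : (x + R) ^ 2 ≤ ((1 + t) * K) ^ 2 * G := by
    rw [div_le_iff₀ (by positivity)] at h2
    have := mul_le_mul_of_nonneg_left (pow_le_pow_left₀ hA0.le hA 2) hG
    linarith
  have h6 : x ^ 2 ≤ (1 + t) * (x + R) ^ 2 + (1 + 1 / t) * R ^ 2 := by
    have e : (1 + t) * (x + R) ^ 2 + (1 + 1 / t) * R ^ 2 - x ^ 2 = (t * (x + R) + R) ^ 2 / t := by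
      field_simp
      ring
    have : 0 ≤ (t * (x + R) + R) ^ 2 / t := by positivity
    linarith
  have h7 : σ * x ^ 2 ≤ (1 + t) * (((1 + t) * K) ^ 2 * G) * σ + (1 + 1 / t) * (N * W) := by
    have a1 := mul_le_mul_of_nonneg_left h6 hσ.le
    have a2 := mul_le_mul_of_nonneg_left h5 (by positivity : 0 ≤ (1 + t) * σ)
    have a3 := mul_le_mul_of_nonneg_left h3 (by positivity : 0 ≤ 1 + 1 / t)
    linarith
  have h8 : K * (f * x ^ 2) ≤ K * ((1 + t) ^ 4 * (K * (σ * G)) + W) := by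
    have a1 := mul_le_mul_of_nonneg_right h1 (sq_nonneg x)
    have a2 := mul_le_mul_of_nonneg_left h7 (by positivity : 0 ≤ 1 + t)
    have a3 := mul_le_mul_of_nonneg_right h4 hW
    linarith
  have h9 := le_of_mul_le_mul_left h8 hK
  have h10 : (1 + t) ^ 4 ≤ 1 + δ := by
    have a1 : t ^ 2 ≤ t := by nlinarith
    have a2 : t ^ 3 ≤ t := by nlinarith
    have a3 : t ^ 4 ≤ t := by nlinarith
    have e : δ = 15 * t := by rw [ht]; ring
    nlinarith
  have h11 : 0 ≤ K * (σ * G) := by positivity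
  have h12 := mul_le_mul_of_nonneg_right h10 h11
  have h13 := mul_le_mul_of_nonneg_left (h9.trans (add_le_add_left h12 W)) (sub_nonneg.2 hδ1)
  nlinarith [mul_nonneg (sq_nonneg δ) h11, mul_nonneg hδ.le hW]

theorem CE8_term {σ f y L r x K η : ℝ} (hf : 0 ≤ f) (hL : 0 ≤ L) (hy : 1 / 2 ≤ y) (hr : 0 ≤ r)
    (h1 : y * r ≤ L) (h2 : σ ≤ f * (y + L)) (hσ : 0 < σ) (h3 : x ^ 2 ≤ 2 * K * η) :
    (x * r) ^ 2 ≤ 2 * K * (f * η) * ((2 * L ^ 2 + 4 * L ^ 3) / σ) := by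
  have h4 : r ≤ 2 * L := by nlinarith
  have h5 : r ^ 2 * (y + L) ≤ 2 * L ^ 2 + 4 * L ^ 3 := by
    have a1 : r * (y * r) ≤ 2 * L * L := mul_le_mul h4 h1 (by positivity) (by positivity)
    have a2 : r ^ 2 * L ≤ (2 * L) ^ 2 * L :=
      mul_le_mul_of_nonneg_right (pow_le_pow_left₀ hr h4 2) hL
    linarith
  have h6 : r ^ 2 * σ ≤ f * (2 * L ^ 2 + 4 * L ^ 3) := by
    have a1 := mul_le_mul_of_nonneg_left h2 (sq_nonneg r)
    have a2 := mul_le_mul_of_nonneg_left h5 hf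
    linarith
  rw [← mul_div_assoc, le_div_iff₀ hσ]
  have h7 := mul_le_mul h3 h6 (by positivity) ((sq_nonneg x).trans h3)
  linarith

/-- regime C of the curvature estimate -/
theorem regimeC (m k : ℕ) (hk : 2 ≤ k) (δ c₀ C₀ : ℝ) (hδ : 0 < δ) (hc : 0 < c₀) :
    ∃ μ B : ℝ, 0 < μ ∧ ∀ (s : Finset ι) (κ ξ η : ι → ℝ) (o : ι), s.card = m → k + 1 ≤ m →
      m ≤ 2 * k → Gam s k κ → o ∈ s → (∀ i ∈ s, κ i ≤ κ o) → c₀ ≤ es s k κ → es s k κ ≤ C₀ →
      B ≤ κ o → (∀ p ∈ s.erase o, 0 ≤ η p ∧ ξ p ^ 2 ≤ η p * (κ o - κ p)) →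
      es s (k - 1) κ ≤ μ * κ o →
      (1 - δ) * (es (s.erase o) (k - 1) κ * ξ o ^ 2) ≤ κ o * (es s k κ * Gq s k κ ξ
        + 2 * ∑ p ∈ s.erase o, es (s.erase p) (k - 1) κ * η p) := by
  obtain ⟨j, rfl⟩ : ∃ j, k = j + 2 := ⟨k - 2, by omega⟩
  have e1 : j + 2 - 1 = j + 1 := rfl
  rw [e1]
  by_cases hδ1 : 1 < δ
  · refine ⟨1, 1, one_pos, fun s κ ξ η o _ _ _ hκ ho _ h1 _ hB hη _ => ?_⟩
    have h2 : 0 < es (s.erase o) (j + 1) κ := (hκ.erase ho).pos le_rfl
    have h3 : 0 ≤ ∑ p ∈ s.erase o, es (s.erase p) (j + 1) κ * η p :=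
      Finset.sum_nonneg fun p hp =>
        mul_nonneg ((hκ.erase (Finset.mem_of_mem_erase hp)).pos le_rfl).le (hη p hp).1
    have h4 := mul_nonneg (hc.le.trans h1) (Gq_nonneg hκ ξ)
    refine le_trans (mul_nonpos_of_nonpos_of_nonneg (by linarith) (by positivity)) ?_
    exact mul_nonneg (by linarith) (by linarith)
  obtain ⟨C, hC, hS⟩ := gam_structure (ι := ι) m j
  obtain ⟨t, ht⟩ : ∃ t, t = δ / 15 := ⟨_, rfl⟩
  have ht0 : 0 < t := by rw [ht]; positivity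
  obtain ⟨L, hL⟩ : ∃ L : ℝ, L = m * (3 / 2) := ⟨_, rfl⟩
  have hL0 : 0 ≤ L := by rw [hL]; positivity
  obtain ⟨N, hN⟩ : ∃ N : ℝ, N = m * (2 * L ^ 2 + 4 * L ^ 3) := ⟨_, rfl⟩
  refine ⟨min ((1 / (2 * C)) ^ j / 2) (t * c₀ / C),
    max 1 (max ((1 + L) / t) ((1 + t) * (1 + 1 / t) * N)), by positivity,
    fun s κ ξ η o hm hk1 _ hκ ho _ h1 _ hB hη hμ => ?_⟩
  set μ := min ((1 / (2 * C)) ^ j / 2) (t * c₀ / C) with hμd
  have hK1 : 1 ≤ κ o := (le_max_left _ _).trans hB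
  have hK2 : (1 + L) / t ≤ κ o := ((le_max_left _ _).trans (le_max_right _ _)).trans hB
  have hK3 : (1 + t) * (1 + 1 / t) * N ≤ κ o :=
    ((le_max_right _ _).trans (le_max_right _ _)).trans hB
  have hσ : 0 < es s (j + 2) κ := hc.trans_le h1
  have hE : ∀ p ∈ s, Gam (s.erase p) (j + 1) κ := fun p hp => hκ.erase hp
  have hf : ∀ p ∈ s, 0 < es (s.erase p) (j + 1) κ := fun p hp => (hE p hp).pos le_rfl
  have hcard : ∀ p, (s.erase p).card ≤ m := fun p => hm ▸ Finset.card_erase_le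
  have h2 : es (s.erase o) j κ ≤ μ := by
    rw [es_erase ho] at hμ
    have := hf o ho
    refine le_of_mul_le_mul_left (a := κ o) (by linarith) (by linarith)
  obtain ⟨M, T, hM, hT, hTc, hT1, hT2, -, hMj, hb⟩ := hS _ κ (hcard o) (hE o ho)
  have h3 : M ≤ 1 / (2 * C) := by
    by_contra h
    have a1 := pow_le_pow_left₀ (by positivity) (not_le.1 h).le j
    have a2 : μ ≤ (1 / (2 * C)) ^ j / 2 := min_le_left _ _
    have a3 : 0 < (1 / (2 * C)) ^ j := by positivity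
    linarith
  have h4 : C * M ≤ 1 / 2 := by
    rw [le_div_iff₀ (by positivity)] at h3
    linarith
  have h5 : κ o * es (s.erase o) (j + 1) κ ≤ (1 + t) * es s (j + 2) κ := by
    have a1 := hb (j + 2) (by omega) (by omega)
    rw [Nat.add_sub_cancel_left] at a1
    have a2 : M ^ 2 ≤ 1 := pow_le_one₀ hM.le (by nlinarith)
    have a3 : 0 < es (s.erase o) j κ := (hE o ho).pos (Nat.le_succ j)
    have a4 : C * es (s.erase o) j κ * M ^ 2 ≤ C * μ * 1 :=
      mul_le_mul (mul_le_mul_of_nonneg_left h2 (by linarith)) a2 (by positivity)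
        (mul_nonneg (by linarith) (a3.le.trans h2))
    have a5 : μ ≤ t * c₀ / C := min_le_right _ _
    rw [le_div_iff₀ (by linarith)] at a5
    have a6 := es_erase ho (j + 1) κ
    have a7 := mul_le_mul_of_nonneg_left h1 ht0.le
    have a8 := neg_abs_le (es (s.erase o) (j + 2) κ)
    linarith
  set y : ι → ℝ := fun i => κ i + 1 with hy
  have hlow : ∀ i ∈ s, -(1 / 2) ≤ κ i := by
    intro i hi
    by_cases e : i = o
    · rw [e]
      linarith
    · by_cases e' : i ∈ T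
      · linarith [hT1 i e']
      · linarith [neg_abs_le (κ i), hT2 i (Finset.mem_erase.2 ⟨e, hi⟩) e']
  have hy1 : ∀ i ∈ s, 1 / 2 ≤ y i := fun i hi => by
    have := hlow i hi
    simp only [hy]
    linarith
  have hky : ∀ i, κ i ≤ y i := fun i => by
    simp only [hy]
    linarith
  have hq : ∀ p ∈ s, qq (s.erase p) (j + 2) y ≤ L := by
    intro p hp
    have a1 : 0 < es (s.erase p) (j + 1) y :=
      ((hE p hp).of_le fun i _ => hky i).1.pos le_rfl
    have a2 := es_succ_le_of_few (s := s.erase p) (T := insert o T) (j := j + 1) (y := y)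
      (L := 3 / 2) ((Finset.card_insert_le _ _).trans (by omega)) (by norm_num)
      (fun i hi => by linarith [hy1 i (Finset.mem_of_mem_erase hi)])
      (fun i hi hi' => by
        rw [Finset.mem_insert, not_or] at hi'
        have := hT2 i (Finset.mem_erase.2 ⟨hi'.1, Finset.mem_of_mem_erase hi⟩) hi'.2
        simp only [hy]
        linarith [le_abs_self (κ i)])
    have a3 : ((s.erase p).card : ℝ) ≤ m := by exact_mod_cast hcard p
    rw [qq, e1, div_le_iff₀ a1, hL]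
    exact a2.trans (mul_le_mul_of_nonneg_right (by linarith) a1.le)
  have h6 : ∀ p ∈ s, es s (j + 2) κ ≤ es (s.erase p) (j + 1) κ * (y p + L) := by
    intro p hp
    have a1 := (qq_mono (k := j + 2) (by omega) (hE p hp) fun i _ => hky i).trans (hq p hp)
    rw [qq, e1, div_le_iff₀ (hf p hp)] at a1
    have a2 := es_erase hp (j + 1) κ
    have a3 := mul_le_mul_of_nonneg_right (hky p) (hf p hp).le
    linarith
  have hyG : Gam s (j + 2) y := (hκ.of_le fun i _ => hky i).1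
  have hr : ∀ p ∈ s.erase o, 0 ≤ dq (s.erase o) (j + 2) y (Pi.single p 1) := fun p hp =>
    dq_single_nonneg _ _ hp
  have h7 : ∀ p ∈ s.erase o, y p * dq (s.erase o) (j + 2) y (Pi.single p 1) ≤ L := by
    intro p hp
    refine le_trans ?_ (hq o ho)
    rw [← dq_euler (by omega) ((hyG.erase ho).pos le_rfl).ne', dq_sum _ _ y y]
    exact Finset.single_le_sum (f := fun p => y p * dq (s.erase o) (j + 2) y (Pi.single p 1))
      (fun i hi => mul_nonneg (by linarith [hy1 i (Finset.mem_of_mem_erase hi)]) (hr i hi)) hp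
  obtain ⟨h8, h9⟩ := Gq_split (by omega) (hm ▸ hk1) hyG ho ξ
  have h10 := h9.trans (Gq_shift hκ ξ zero_le_one)
  have hW : ∀ p ∈ s.erase o, 0 ≤ 2 * κ o * (es (s.erase p) (j + 1) κ * η p) := fun p hp =>
    mul_nonneg (by linarith) (mul_nonneg (hf p (Finset.mem_of_mem_erase hp)).le (hη p hp).1)
  have h11 : es s (j + 2) κ * dq (s.erase o) (j + 2) y ξ ^ 2 ≤
      N * ∑ p ∈ s.erase o, 2 * κ o * (es (s.erase p) (j + 1) κ * η p) := by
    have a1 := Finset.sum_sq_le_sum_mul_sum_of_sq_le_mul (s.erase o)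
      (r := fun p => ξ p * dq (s.erase o) (j + 2) y (Pi.single p 1))
      (g := fun _ => (2 * L ^ 2 + 4 * L ^ 3) / es s (j + 2) κ) hW (fun _ _ => by positivity)
      (fun p hp => by
        have hp' := Finset.mem_of_mem_erase hp
        refine CE8_term (hf p hp').le hL0 (hy1 p hp') (hr p hp) (h7 p hp) (h6 p hp') hσ ?_
        have b1 := mul_le_mul_of_nonneg_left (by linarith [hlow p hp'] : κ o - κ p ≤ 2 * κ o)
          (hη p hp).1
        linarith [(hη p hp).2])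
    rw [← dq_sum, Finset.sum_const, nsmul_eq_mul, ← mul_div_assoc, ← mul_div_assoc,
      le_div_iff₀ hσ] at a1
    have a3 : ((s.erase o).card : ℝ) ≤ m := by exact_mod_cast hcard o
    have a4 : ((s.erase o).card : ℝ) * (2 * L ^ 2 + 4 * L ^ 3) ≤ N :=
      hN ▸ mul_le_mul_of_nonneg_right a3 (by positivity)
    have a5 := mul_le_mul_of_nonneg_left a4 (Finset.sum_nonneg hW)
    linarith
  have h12 : y o + qq (s.erase o) (j + 2) y ≤ (1 + t) * κ o := by
    rw [div_le_iff₀ ht0] at hK2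
    have := hq o ho
    simp only [hy] at this ⊢
    linarith
  have h13 := CE8_fin hδ (not_lt.1 hδ1) ht (by linarith) hσ (Gq_nonneg hκ ξ)
    (Finset.sum_nonneg hW) h5 h8 h12 h10 h11 hK3
  rw [← Finset.mul_sum] at h13
  linarith

/-- the algebraic inequality behind the curvature estimate for `2k > n` -/
theorem key {n : ℕ} (k : ℕ) (hk : 2 ≤ k) (hkn : k + 1 ≤ n) (h2 : n < 2 * k) (δ c₀ C₀ : ℝ)
    (hδ : 0 < δ) (hc : 0 < c₀) :
    ∃ μ B : ℝ, 0 < μ ∧ ∀ (κ ξ η : Fin n → ℝ) (o : Fin n), Gam Finset.univ k κ →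
      (∀ i, κ i ≤ κ o) → c₀ ≤ es Finset.univ k κ → es Finset.univ k κ ≤ C₀ → B ≤ κ o →
      (∀ p, p ≠ o → 0 ≤ η p ∧ ξ p ^ 2 ≤ η p * (κ o - κ p)) →
      (1 - δ) * (fk k κ o * ξ o ^ 2) ≤ κ o * (es Finset.univ k κ * Gq Finset.univ k κ ξ
          + 2 * ∑ p ∈ Finset.univ.erase o, fk k κ p * η p) ∨
        (μ * κ o ≤ es Finset.univ (k - 1) κ ∧ κ o * fk k κ o ≤ k * es Finset.univ k κ) := by
  obtain ⟨μ, B, hμ, H⟩ := regimeC (ι := Fin n) n k hk δ c₀ C₀ hδ hc
  refine ⟨μ, B, hμ, fun κ ξ η o hκ hmax h3 h4 hB hη => ?_⟩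
  have hcard : (Finset.univ : Finset (Fin n)).card = n := by simp
  have hη' : ∀ p ∈ Finset.univ.erase o, 0 ≤ η p ∧ ξ p ^ 2 ≤ η p * (κ o - κ p) :=
    fun p hp => hη p (Finset.mem_erase.1 hp).1
  have hf : 0 < fk k κ o := (hκ.erase (Finset.mem_univ o)).pos le_rfl
  have hK : 0 < κ o := hκ.max_pos (by omega) fun i _ => hmax i
  by_cases hA : (k : ℝ) * es Finset.univ k κ ≤ (2 * k - (n : ℝ)) * κ o * fk k κ o
  · left
    have h5 := regimeA (by omega) (by rw [hcard]; exact hkn) hκ (Finset.mem_univ o)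
      (fun i _ => hmax i) hη' (by rw [hcard]; exact hA)
    refine le_trans ?_ h5
    have h6 : 0 ≤ δ * (fk k κ o * ξ o ^ 2) := by positivity
    have h7 : fk k κ o = es (Finset.univ.erase o) (k - 1) κ := rfl
    rw [← h7]
    linarith
  · by_cases hC : es Finset.univ (k - 1) κ ≤ μ * κ o
    · exact Or.inl (H _ κ ξ η o hcard hkn h2.le hκ (Finset.mem_univ o) (fun i _ => hmax i) h3 h4
        hB hη' hC)
    · refine Or.inr ⟨(not_le.1 hC).le, ?_⟩
      have h5 : (n : ℝ) + 1 ≤ 2 * k := by exact_mod_cast h2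
      have h6 := mul_le_mul_of_nonneg_right (by linarith : (1 : ℝ) ≤ 2 * k - n)
        (mul_pos hK hf).le
      linarith [not_le.1 hA]

end Pool.Agent.Mink.C
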