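import Pool.Agent.Lib.MP_88c759_an.Mink.CDef2

set_option maxSynthPendingDepth 3

namespace Pool.Agent.Mink.C

open scoped ContDiff Topology RealInnerProductSpace
open Set Filter

variable {n : ℕ}

theorem inner_shp (p : B1 n) (v : E n) : ⟪shp p, v⟫ = p v :=
  InnerProductSpace.toDual_symm_apply

theorem norm_shp (p : B1 n) : ‖shp p‖ = ‖p‖ := by
  simp [shp]

theorem apply_shp (p : B1 n) : p (shp p) = ‖p‖ ^ 2 := by
  rw [← inner_shp, real_inner_self_eq_norm_sq, norm_shp]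

theorem shp_innerSL (v : E n) : shp (innerSL ℝ v) = v := by
  refine ext_inner_right ℝ fun w => ?_
  rw [inner_shp]; rfl

theorem exists_shpL : ∃ L : B1 n →L[ℝ] E n, ∀ p, L p = shp p := by
  refine ⟨LinearMap.toContinuousLinearMap
    { toFun := shp, map_add' := fun p q => ?_, map_smul' := fun c p => ?_ }, fun p => rfl⟩
  · refine ext_inner_right ℝ fun w => ?_
    simp [inner_add_left, inner_shp]
  · refine ext_inner_right ℝ fun w => ?_
    simp [inner_smul_left, inner_shp]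

theorem contDiff_shp : ContDiff ℝ ∞ (shp : B1 n → E n) := by
  obtain ⟨L, hL⟩ := exists_shpL (n := n)
  have : (shp : B1 n → E n) = L := funext fun p => (hL p).symm
  rw [this]; exact L.contDiff

theorem contDiff_normsq : ContDiff ℝ ∞ fun p : B1 n => ‖p‖ ^ 2 := by
  have : (fun p : B1 n => ‖p‖ ^ 2) = fun p => ‖shp p‖ ^ 2 := funext fun p => by rw [norm_shp]
  rw [this]; exact contDiff_shp.norm_sq ℝ

theorem sq1_apply (p : B1 n) (v w : E n) : sq1 p v w = p v * p w := by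
  simp [sq1]

theorem psd_sq1 (p : B1 n) : Psd (sq1 p) :=
  ⟨fun v w => by rw [sq1_apply, sq1_apply, mul_comm],
    fun v => by rw [sq1_apply]; exact mul_self_nonneg _⟩

theorem CF1_pos {p : B1 n} (hp : ‖p‖ < 1) : 0 < 1 - ‖p‖ ^ 2 := by
  nlinarith [norm_nonneg p]

theorem Wp_pos {p : B1 n} (hp : ‖p‖ < 1) : 0 < Wp p :=
  inv_pos.mpr (Real.sqrt_pos.mpr (CF1_pos hp))

theorem one_le_Wp {p : B1 n} (hp : ‖p‖ < 1) : 1 ≤ Wp p := by
  refine (one_le_inv₀ (Real.sqrt_pos.mpr (CF1_pos hp))).mpr ?_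
  exact Real.sqrt_le_one.mpr (by nlinarith [sq_nonneg ‖p‖])

theorem Wp_sq {p : B1 n} (hp : ‖p‖ < 1) : Wp p ^ 2 * (1 - ‖p‖ ^ 2) = 1 := by
  have := CF1_pos hp
  rw [Wp, inv_pow, Real.sq_sqrt this.le, inv_mul_cancel₀ this.ne']

theorem Wp_le_of_norm_le {p : B1 n} {θ : ℝ} (h0 : 0 < θ) (h1 : θ ≤ 1) (hp : ‖p‖ ≤ 1 - θ) :
    Wp p ≤ (Real.sqrt θ)⁻¹ := by
  refine inv_anti₀ (Real.sqrt_pos.mpr h0) (Real.sqrt_le_sqrt ?_)
  nlinarith [norm_nonneg p]

theorem norm_le_of_Wp_le {p : B1 n} (hp : ‖p‖ < 1) {W : ℝ} (h : Wp p ≤ W) :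
    ‖p‖ ^ 2 ≤ 1 - (W ^ 2)⁻¹ ∧ ‖p‖ ≤ 1 - (2 * W ^ 2)⁻¹ := by
  have h1 := one_le_Wp hp
  have h2 := Wp_sq hp
  have h3 := CF1_pos hp
  have hW : 1 ≤ W := h1.trans h
  have h4 : Wp p ^ 2 ≤ W ^ 2 := pow_le_pow_left₀ (by linarith) h 2
  have h5 : (W ^ 2)⁻¹ ≤ 1 - ‖p‖ ^ 2 := by
    rw [inv_le_iff_one_le_mul₀' (by positivity)]
    nlinarith
  refine ⟨by linarith, ?_⟩
  have h6 : (2 * W ^ 2)⁻¹ = (W ^ 2)⁻¹ / 2 := by field_simp
  rw [h6]
  have h7 : (W ^ 2)⁻¹ ≤ 1 := inv_le_one_of_one_le₀ (one_le_pow₀ hW)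
  refine le_of_sq_le_sq (le_trans (by linarith : ‖p‖ ^ 2 ≤ 1 - (W ^ 2)⁻¹) ?_) (by linarith)
  nlinarith [sq_nonneg ((W ^ 2)⁻¹)]

theorem contDiffAt_Wp {p : B1 n} (hp : ‖p‖ < 1) : ContDiffAt ℝ ∞ (Wp : B1 n → ℝ) p := by
  have h := CF1_pos hp
  exact ((contDiffAt_const.sub contDiff_normsq.contDiffAt).sqrt h.ne').inv
    (Real.sqrt_pos.mpr h).ne'

theorem gp_comm (p : B1 n) (v w : E n) : gp p v w = gp p w v := by
  rw [gp, gp, real_inner_comm, mul_comm]

theorem gfl_apply (p : B1 n) (v w : E n) : gfl p v w = gp p v w := by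
  simp [gfl, gp]

theorem gp_self_le (p : B1 n) (v : E n) : gp p v v ≤ ‖v‖ ^ 2 := by
  rw [gp, real_inner_self_eq_norm_sq]; nlinarith [mul_self_nonneg (p v)]

theorem gp_self_ge (p : B1 n) (v : E n) : (1 - ‖p‖ ^ 2) * ‖v‖ ^ 2 ≤ gp p v v := by
  rw [gp, real_inner_self_eq_norm_sq]
  have h1 : |p v| ≤ ‖p‖ * ‖v‖ := p.le_opNorm v
  have h2 := pow_le_pow_left₀ (abs_nonneg _) h1 2
  rw [sq_abs] at h2
  nlinarith

theorem CF1_coef {p : B1 n} {e : Fin n → E n} (h : IsFrame p e) (c : Fin n → ℝ) (a : Fin n) :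
    gp p (e a) (∑ b, c b • e b) = c a := by
  rw [← gfl_apply]
  simp only [map_sum, map_smul, smul_eq_mul, gfl_apply, h a]
  simp

theorem CF1_li {p : B1 n} {e : Fin n → E n} (h : IsFrame p e) : LinearIndependent ℝ e := by
  refine Fintype.linearIndependent_iff.mpr fun c hc a => ?_
  rw [← CF1_coef h c a, hc, ← gfl_apply, map_zero]

theorem IsFrame.expand {p : B1 n} {e : Fin n → E n} (h : IsFrame p e) (v : E n) :
    v = ∑ a, gp p (e a) v • e a := by
  have hli := CF1_li h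
  have hsp : ⊤ ≤ Submodule.span ℝ (range e) :=
    (hli.span_eq_top_of_card_eq_finrank' (by simp)).ge
  obtain ⟨c, rfl⟩ := (Submodule.mem_span_range_iff_exists_fun ℝ).mp (hsp (Submodule.mem_top (x := v)))
  simp only [CF1_coef h]

theorem IsFrame.linearIndependent {p : B1 n} {e : Fin n → E n} (h : IsFrame p e) :
    LinearIndependent ℝ e :=
  CF1_li h

theorem IsFrame.gp_eq_sum {p : B1 n} {e : Fin n → E n} (h : IsFrame p e) (v w : E n) :
    gp p v w = ∑ a, gp p (e a) v * gp p (e a) w := by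
  conv_lhs => rw [gp_comm, ← gfl_apply, h.expand v]
  simp only [map_sum, map_smul, smul_eq_mul, gfl_apply]
  exact Finset.sum_congr rfl fun a _ => by rw [gp_comm p w]

theorem IsFrame.covec {p : B1 n} {e : Fin n → E n} (h : IsFrame p e) (l : B1 n) :
    l = ∑ a, l (e a) • gfl p (e a) := by
  ext v
  conv_lhs => rw [h.expand v]
  simp only [map_sum, map_smul, smul_eq_mul, ContinuousLinearMap.sum_apply,
    ContinuousLinearMap.smul_apply, gfl_apply]
  exact Finset.sum_congr rfl fun a _ => mul_comm _ _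

theorem IsFrame.sum_b_smul {p : B1 n} {e : Fin n → E n} (h : IsFrame p e) (hp : ‖p‖ < 1) :
    ∑ a, p (e a) • e a = Wp p ^ 2 • shp p := by
  rw [h.expand (Wp p ^ 2 • shp p)]
  refine Finset.sum_congr rfl fun a _ => ?_
  congr 1
  rw [gp, inner_smul_right, real_inner_comm, inner_shp, map_smul, apply_shp, smul_eq_mul]
  linear_combination (-p (e a)) * Wp_sq hp

theorem IsFrame.sum_b_sq {p : B1 n} {e : Fin n → E n} (h : IsFrame p e) (hp : ‖p‖ < 1) :
    Wp p ^ 2 = 1 + ∑ a, p (e a) ^ 2 := by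
  have h1 := congrArg p (h.sum_b_smul hp)
  simp only [map_sum, map_smul, smul_eq_mul, apply_shp] at h1
  simp only [sq (p _)]
  linear_combination Wp_sq hp - h1

theorem IsFrame.inner_eq {p : B1 n} {e : Fin n → E n} (h : IsFrame p e) (a b : Fin n) :
    ⟪e a, e b⟫ = dl a b + p (e a) * p (e b) := by
  have := h a b
  rw [gp] at this
  rw [dl, ← this]; ring

theorem IsFrame.norm_sq {p : B1 n} {e : Fin n → E n} (h : IsFrame p e) (a : Fin n) :
    ‖e a‖ ^ 2 = 1 + p (e a) ^ 2 := by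
  rw [← real_inner_self_eq_norm_sq, h.inner_eq, dl, if_pos rfl, sq]

theorem IsFrame.norm_le {p : B1 n} {e : Fin n → E n} (h : IsFrame p e) (hp : ‖p‖ < 1)
    (a : Fin n) : ‖e a‖ ≤ Wp p ∧ |p (e a)| ≤ Wp p := by
  have h1 := h.sum_b_sq hp
  have h2 : p (e a) ^ 2 ≤ ∑ a, p (e a) ^ 2 :=
    Finset.single_le_sum (f := fun a => p (e a) ^ 2) (fun _ _ => sq_nonneg _) (Finset.mem_univ a)
  have h3 := h.norm_sq a
  have h4 := (Wp_pos hp).le
  exact ⟨le_of_sq_le_sq (by linarith) h4, le_of_sq_le_sq (by rw [sq_abs]; linarith) h4⟩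

theorem IsFrame.sum_inner_sq {p : B1 n} {e : Fin n → E n} (h : IsFrame p e) (hp : ‖p‖ < 1)
    (v : E n) : ∑ a, ⟪v, e a⟫ ^ 2 = ‖v‖ ^ 2 + Wp p ^ 2 * p v ^ 2 := by
  have key : ∀ x, gp p x (v + (Wp p ^ 2 * p v) • shp p) = ⟪v, x⟫ := by
    intro x
    rw [gp, inner_add_right, inner_smul_right, real_inner_comm (shp p) x, inner_shp, map_add, map_smul,
      apply_shp, smul_eq_mul, real_inner_comm]
    linear_combination (p x * p v) * Wp_sq hp
  have h1 := h.gp_eq_sum (v + (Wp p ^ 2 * p v) • shp p) (v + (Wp p ^ 2 * p v) • shp p)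
  simp only [key] at h1
  rw [inner_add_right, inner_smul_right, real_inner_comm (shp p) v, inner_shp,
    real_inner_self_eq_norm_sq] at h1
  simp only [sq ⟪v, _⟫]
  linear_combination -h1

theorem IsFrame.norm_gfl_le {p : B1 n} {e : Fin n → E n} (h : IsFrame p e) (hp : ‖p‖ < 1)
    (a : Fin n) : ‖gfl p (e a)‖ ≤ 1 := by
  have h1 : gfl p (e a) = innerSL ℝ (e a - p (e a) • shp p) := by
    ext v
    simp [gfl, inner_sub_left, inner_smul_left, inner_shp]
  rw [h1, innerSL_apply_norm]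
  refine le_of_sq_le_sq ?_ zero_le_one
  rw [norm_sub_sq_real, inner_smul_right, real_inner_comm, inner_shp, norm_smul, mul_pow, norm_shp,
    Real.norm_eq_abs, sq_abs, h.norm_sq]
  nlinarith [mul_nonneg (sq_nonneg (p (e a))) (CF1_pos hp).le]

theorem Diag.apply {p : B1 n} {r : B2 n} {e : Fin n → E n} {κ : Fin n → ℝ} (h : Diag p r e κ)
    (v w : E n) : Wp p * r v w = ∑ a, κ a * gp p (e a) v * gp p (e a) w := by
  conv_lhs => rw [h.1.expand v, h.1.expand w]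
  simp only [map_sum, map_smul, smul_eq_mul, ContinuousLinearMap.sum_apply,
    ContinuousLinearMap.smul_apply, Finset.mul_sum]
  refine Finset.sum_congr rfl fun b _ => ?_
  rw [Finset.sum_eq_single b]
  · have := h.2 b b
    rw [if_pos rfl] at this
    linear_combination (gp p (e b) v * gp p (e b) w) * this
  · intro a _ hab
    have := h.2 a b
    rw [if_neg hab] at this
    linear_combination (gp p (e a) v * gp p (e b) w) * this
  · simp

theorem Diag.r_eq {p : B1 n} {r : B2 n} {e : Fin n → E n} {κ : Fin n → ℝ} (h : Diag p r e κ)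
    (hp : ‖p‖ < 1) (a : Fin n) : r (e a) = (κ a / Wp p) • gfl p (e a) := by
  have hw := (Wp_pos hp).ne'
  ext w
  have h1 := h.apply (e a) w
  rw [Finset.sum_eq_single a, h.1 a a, if_pos rfl] at h1
  · rw [ContinuousLinearMap.smul_apply, gfl_apply, smul_eq_mul]
    field_simp
    linear_combination h1
  · intro b _ hb
    rw [h.1 b a, if_neg hb]; ring
  · simp

theorem Diag.norm_le {p : B1 n} {r : B2 n} {e : Fin n → E n} {κ : Fin n → ℝ} (h : Diag p r e κ)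
    (hp : ‖p‖ < 1) {L : ℝ} (hL0 : 0 ≤ L) (hL : ∀ a, |κ a| ≤ L) : ‖r‖ ≤ n * L := by
  refine ContinuousLinearMap.opNorm_le_bound₂ _ (by positivity) fun v w => ?_
  have hb : ∀ a x, |gp p (e a) x| ≤ ‖x‖ := by
    intro a x
    have h1 : |gfl p (e a) x| ≤ ‖gfl p (e a)‖ * ‖x‖ := (gfl p (e a)).le_opNorm x
    rw [gfl_apply] at h1
    exact h1.trans (mul_le_of_le_one_left (norm_nonneg _) (h.1.norm_gfl_le hp a))
  have h1 : |Wp p * r v w| ≤ n * L * ‖v‖ * ‖w‖ := by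
    rw [h.apply]
    refine (Finset.abs_sum_le_sum_abs _ _).trans ?_
    refine (Finset.sum_le_card_nsmul _ _ (L * ‖v‖ * ‖w‖) fun a _ => ?_).trans (le_of_eq ?_)
    · rw [abs_mul, abs_mul]
      gcongr
      · exact hL a
      · exact hb a v
      · exact hb a w
    · simp; ring
  rw [abs_mul, abs_of_pos (Wp_pos hp)] at h1
  rw [Real.norm_eq_abs]
  exact (le_mul_of_one_le_left (abs_nonneg _) (one_le_Wp hp)).trans h1

theorem Diag.abs_le {p : B1 n} {r : B2 n} {e : Fin n → E n} {κ : Fin n → ℝ} (h : Diag p r e κ)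
    (hp : ‖p‖ < 1) (a : Fin n) : |κ a| ≤ Wp p ^ 3 * ‖r‖ := by
  have h1 := h.2 a a
  rw [if_pos rfl] at h1
  have h2 : |r (e a) (e a)| ≤ ‖r‖ * ‖e a‖ * ‖e a‖ := r.le_opNorm₂ _ _
  have h3 := (h.1.norm_le hp a).1
  have h4 := Wp_pos hp
  rw [← h1, abs_mul, abs_of_pos h4]
  calc Wp p * |r (e a) (e a)| ≤ Wp p * (‖r‖ * Wp p * Wp p) := by
        gcongr
        exact h2.trans (by gcongr)
    _ = _ := by ring

theorem Diag.rayleigh {p : B1 n} {r : B2 n} {e : Fin n → E n} {κ : Fin n → ℝ} (h : Diag p r e κ)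
    {Λ : ℝ} (hΛ : ∀ a, κ a ≤ Λ) (v : E n) : Wp p * r v v ≤ Λ * gp p v v := by
  rw [h.apply, h.1.gp_eq_sum v v, Finset.mul_sum]
  refine Finset.sum_le_sum fun a _ => ?_
  rw [mul_assoc]
  exact mul_le_mul_of_nonneg_right (hΛ a) (mul_self_nonneg _)


end Pool.Agent.Mink.C
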