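import Pool.Agent.Lib.MP_88c759_an.Mink.CF1
import Pool.Agent.Lib.MP_88c759_an.Mink.CX2
import Pool.Agent.Lib.MP_88c759_an.Mink.CE5
import Pool.Agent.Lib.MP_88c759_an.Mink.ATG

set_option maxSynthPendingDepth 3

namespace Pool.Agent.Mink.C

open scoped ContDiff Topology RealInnerProductSpace
open Set Filter

variable {n : ℕ}

theorem exists_diag {p : B1 n} {r : B2 n} (hp : ‖p‖ < 1) (hr : Sym r) :
    ∃ e κ, Diag p r e κ := G.exists_diag hp hr

theorem CF2_gp_right (p : B1 n) (v y : E n) : gp p v y = ∑ i, gp p v (ee i) * y i := by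
  conv_lhs => rw [← G.sum_ee y, G.gp_symm, G.gp_sum_left]
  exact Finset.sum_congr rfl fun i _ => by rw [G.gp_symm, mul_comm]

theorem CF2_swap (q l : B1 n) : q (shp l) = l (shp q) := by
  rw [← G.inner_shp, ← G.inner_shp l, real_inner_comm]

theorem SS_eq_Mf {p : B1 n} {e : Fin n → E n} (h : IsFrame p e) (j : ℕ) (p' : B1 n) (r' : B2 n) :
    SS j p' r' = sM j (Mf p e p' r') := by
  have h1 : G.fm e * ((G.fm e).transpose * G.gm p) = 1 := by
    rw [← Matrix.mul_assoc]; exact G.frame_mat' h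
  rw [SS, ← sM_conj h1 (shape p' r') j]
  congr 1
  ext a b
  have hQ : ∀ i, ((G.fm e).transpose * G.gm p) a i = gp p (e a) (ee i) := fun i => by
    rw [G.gp_expand, Matrix.mul_apply]
    refine Finset.sum_congr rfl fun l _ => ?_
    simp [G.fm, ee]
  have hS : ∀ i, (shape p' r' * G.fm e) i b =
      Wp p' * (r' (ee i) (e b) + Wp p' ^ 2 * r' (shp p') (e b) * p' (ee i)) := fun i => by
    rw [Matrix.mul_apply, G.lin_expand (r' (ee i)) (e b), G.lin_expand (r' (shp p')) (e b)]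
    simp only [shape, G.fm, Matrix.of_apply, Finset.mul_sum, Finset.sum_mul,
      ← Finset.sum_add_distrib]
    exact Finset.sum_congr rfl fun l _ => by ring
  rw [Matrix.mul_assoc, Matrix.mul_apply, Mf, Matrix.of_apply, CF2_gp_right, Finset.mul_sum]
  refine Finset.sum_congr rfl fun i _ => ?_
  rw [hQ, hS, PiLp.add_apply, PiLp.smul_apply, G.shp_coord, G.shp_coord,
    ContinuousLinearMap.flip_apply, smul_eq_mul]
  ring

theorem gram_mul_Mf {p : B1 n} {e : Fin n → E n} (h : IsFrame p e) {p' : B1 n} (hp' : ‖p'‖ < 1)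
    (r' : B2 n) (a b : Fin n) :
    ∑ c, gp p' (e a) (e c) * Mf p e p' r' c b = Wp p' * r' (e a) (e b) := by
  set y := shp (r'.flip (e b)) + (Wp p' ^ 2 * r' (shp p') (e b)) • shp p' with hy
  have h1 : gp p' y (e a) = ∑ c, gp p (e c) y * gp p' (e c) (e a) := by
    conv_lhs => rw [← G.frame_expand h y, G.gp_sum_left]
  have h2 : gp p' y (e a) = r' (e a) (e b) := by
    have h3 := G.Wp_sq hp'
    rw [gp, hy, inner_add_left, real_inner_smul_left, G.inner_shp, G.inner_shp, map_add, map_smul,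
      G.p_shp, CF2_swap p', ContinuousLinearMap.flip_apply, ContinuousLinearMap.flip_apply,
      smul_eq_mul]
    linear_combination (r' (shp p') (e b) * p' (e a)) * h3
  rw [← h2, h1, Finset.mul_sum]
  refine Finset.sum_congr rfl fun c _ => ?_
  rw [Mf, Matrix.of_apply, ← hy, G.gp_symm p' (e a)]
  ring

theorem contDiffAt_Mf (p : B1 n) (e : Fin n → E n) {p' : B1 n} (hp' : ‖p'‖ < 1) (r' : B2 n)
    (a b : Fin n) : ContDiffAt ℝ ∞ (fun q : B1 n × B2 n => Mf p e q.1 q.2 a b) (p', r') := by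
  have hf : (fun q : B1 n × B2 n => Mf p e q.1 q.2 a b) = fun q : B1 n × B2 n =>
      Wp q.1 * (q.2 (shp (gfl p (e a))) (e b) +
        Wp q.1 ^ 2 * q.2 (shp q.1) (e b) * q.1 (shp (gfl p (e a)))) := by
    funext q
    rw [Mf, Matrix.of_apply, ← gfl_apply, map_add, map_smul, CF2_swap, CF2_swap (gfl p (e a)),
      ContinuousLinearMap.flip_apply, smul_eq_mul]
  have hW : ContDiffAt ℝ ∞ (fun q : B1 n × B2 n => Wp q.1) (p', r') :=
    ContDiffAt.comp (g := Wp) (p', r') (contDiffAt_Wp hp') contDiffAt_fst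
  have h1 : ContDiff ℝ ∞ fun q : B1 n × B2 n => q.2 (shp (gfl p (e a))) (e b) :=
    (contDiff_snd.clm_apply contDiff_const).clm_apply contDiff_const
  have h2 : ContDiff ℝ ∞ fun q : B1 n × B2 n => q.2 (shp q.1) (e b) :=
    (contDiff_snd.clm_apply (contDiff_shp.comp contDiff_fst)).clm_apply contDiff_const
  have h3 : ContDiff ℝ ∞ fun q : B1 n × B2 n => q.1 (shp (gfl p (e a))) :=
    contDiff_fst.clm_apply contDiff_const
  rw [hf]
  exact hW.mul (h1.contDiffAt.add (((hW.pow 2).mul h2.contDiffAt).mul h3.contDiffAt))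

theorem SS_frame {p : B1 n} {e : Fin n → E n} (h : IsFrame p e) (hp : ‖p‖ < 1) (j : ℕ) (r : B2 n) :
    SS j p r = sM j (Matrix.of fun a b => Wp p * r (e a) (e b)) := G.SS_frame hp h j r
theorem Diag.SS_eq {p : B1 n} {r : B2 n} {e : Fin n → E n} {κ : Fin n → ℝ} (h : Diag p r e κ)
    (hp : ‖p‖ < 1) (j : ℕ) : SS j p r = es Finset.univ j κ := G.SS_diag hp h j
theorem Diag.adm_iff {p : B1 n} {r : B2 n} {e : Fin n → E n} {κ : Fin n → ℝ} (h : Diag p r e κ)
    (hp : ‖p‖ < 1) (k : ℕ) : Adm k p r ↔ Gam Finset.univ k κ := G.adm_iff_gam hp h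
theorem Diag.charpoly {p : B1 n} {r : B2 n} {e : Fin n → E n} {κ : Fin n → ℝ} (h : Diag p r e κ)
    (hp : ‖p‖ < 1) : (shape p r).charpoly = ∏ i, (Polynomial.X - Polynomial.C (κ i)) := by
  rw [G.charpoly_frame hp h.1, G.diag_mat h, Matrix.charpoly_diagonal]
/-- the diagonal entries in any frame lie in the cone -/
theorem Adm.frame_diag {k : ℕ} {p : B1 n} {r : B2 n} (h : Adm k p r) (hr : Sym r)
    {e : Fin n → E n} (he : IsFrame p e) :
    Gam Finset.univ k (fun a => Wp p * r (e a) (e a)) ∧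
      SS k p r ≤ es Finset.univ k (fun a => Wp p * r (e a) (e a)) := atg_schur hr h he

theorem CF2_open : IsOpen {q : B1 n × B2 n | ‖q.1‖ < 1} :=
  isOpen_lt continuous_fst.norm continuous_const

theorem contDiffAt_SS (j : ℕ) {p : B1 n} (hp : ‖p‖ < 1) (r : B2 n) :
    ContDiffAt ℝ ∞ (fun q : B1 n × B2 n => SS j q.1 q.2) (p, r) :=
  (contDiffOn_SS j).contDiffAt (CF2_open.mem_nhds hp)
theorem isOpen_adm (k : ℕ) : IsOpen {q : B1 n × B2 n | Adm k q.1 q.2} := by
  rw [isOpen_iff_mem_nhds]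
  rintro ⟨p, r⟩ h
  have h1 : ∀ᶠ q : B1 n × B2 n in 𝓝 (p, r), ∀ j ∈ Finset.Icc 1 k, 0 < SS j q.1 q.2 :=
    (Finset.eventually_all _).2 fun j hj =>
      continuousAt_const.eventually_lt (contDiffAt_SS j h.1 r).continuousAt
        (h.2 j (Finset.mem_Icc.1 hj).1 (Finset.mem_Icc.1 hj).2)
  filter_upwards [h1, CF2_open.mem_nhds h.1] with q a1 a2
  exact ⟨a2, fun j b1 b2 => a1 j (Finset.mem_Icc.2 ⟨b1, b2⟩)⟩

end Pool.Agent.Mink.C
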