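import Pool.Agent.Lib.MP_88c759_an.Mink.CP1

set_option maxSynthPendingDepth 3

namespace Pool.Agent.Mink.C

open scoped ContDiff Topology RealInnerProductSpace
open Set Filter

variable {n : ℕ}

variable {Ω : Set (E n)} {ρ : E n → ℝ}

theorem Dom.isOpen (h : Dom Ω ρ) : IsOpen Ω := by
  rw [h.eq]
  exact isOpen_lt h.smooth.continuous continuous_const

theorem Dom.isCompact (h : Dom Ω ρ) : IsCompact (closure Ω) := by
  exact h.bdd.isCompact_closure

theorem Dom.isCompact_frontier (h : Dom Ω ρ) : IsCompact (frontier Ω) := by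
  exact h.isCompact.of_isClosed_subset isClosed_frontier frontier_subset_closure

theorem Dom.convex_closure (h : Dom Ω ρ) : Convex ℝ (closure Ω) := by
  exact h.conv.closure

theorem CG2_nhds (h : Dom Ω ρ) {x : E n} (hx : x ∈ Ω) : closure Ω ∈ 𝓝 x :=
  mem_of_superset (h.isOpen.mem_nhds hx) subset_closure

theorem CG2_int (h : Dom Ω ρ) : Ω ⊆ interior (closure Ω) :=
  fun _ hx => mem_interior_iff_mem_nhds.2 (CG2_nhds h hx)

theorem Dom.uniqueDiffOn (h : Dom Ω ρ) : UniqueDiffOn ℝ (closure Ω) := by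
  exact uniqueDiffOn_convex h.convex_closure (h.ne.mono (CG2_int h))

theorem Dom.mem_or (h : Dom Ω ρ) {x : E n} (hx : x ∈ closure Ω) : x ∈ Ω ∨ x ∈ frontier Ω := by
  by_cases h1 : x ∈ Ω
  · exact Or.inl h1
  · exact Or.inr ⟨hx, by rwa [h.isOpen.interior_eq]⟩

theorem Dom.frontier_sub (h : Dom Ω ρ) : frontier Ω ⊆ closure Ω := by
  have _ := h
  exact frontier_subset_closure

theorem CG2_le (h : Dom Ω ρ) {x : E n} (hx : x ∈ closure Ω) : ρ x ≤ 0 := by
  refine closure_minimal (t := {x | ρ x ≤ 0}) (fun y hy => ?_)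
    (isClosed_le h.smooth.continuous continuous_const) hx
  rw [h.eq] at hy
  exact le_of_lt (show ρ y < 0 from hy)

theorem Dom.rho_frontier (h : Dom Ω ρ) {x : E n} (hx : x ∈ frontier Ω) : ρ x = 0 := by
  rw [h.isOpen.frontier_eq] at hx
  refine le_antisymm (CG2_le h hx.1) (not_lt.1 fun h1 => hx.2 ?_)
  rw [h.eq]
  exact h1

theorem Dom.rho_closure (h : Dom Ω ρ) {x : E n} (hx : x ∈ closure Ω) : ρ x ≤ 0 := by
  exact CG2_le h hx

theorem Dom.frontier_nonempty (h : Dom Ω ρ) (hn : 0 < n) : (frontier Ω).Nonempty := by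
  have : Nontrivial (E n) := Module.nontrivial_of_finrank_pos (R := ℝ) (by simpa using hn)
  refine nonempty_frontier_iff.2 ⟨h.ne, fun h1 => ?_⟩
  have h2 := h.bdd
  rw [h1] at h2
  exact NormedSpace.unbounded_univ ℝ (E n) h2

theorem Dom.exists_bound (h : Dom Ω ρ) : ∃ D : ℝ, 0 < D ∧ ∀ x ∈ closure Ω, ‖x‖ ≤ D := by
  exact h.bdd.closure.exists_pos_norm_le

theorem Dom.D1_eq (h : Dom Ω ρ) (u : E n → ℝ) {x : E n} (hx : x ∈ Ω) :
    D1 (closure Ω) u x = d1 u x := by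
  exact fderivWithin_of_mem_nhds (CG2_nhds h hx)

theorem Dom.D2_eq (h : Dom Ω ρ) (u : E n → ℝ) {x : E n} (hx : x ∈ Ω) :
    D2 (closure Ω) u x = d2 u x := by
  refine (fderivWithin_of_mem_nhds (CG2_nhds h hx)).trans (Filter.EventuallyEq.fderiv_eq ?_)
  filter_upwards [h.isOpen.mem_nhds hx] with y hy using h.D1_eq u hy

theorem Dom.D1_of_contDiff (h : Dom Ω ρ) {u : E n → ℝ} (hu : ContDiff ℝ 2 u) {x : E n}
    (hx : x ∈ closure Ω) : D1 (closure Ω) u x = d1 u x ∧ D2 (closure Ω) u x = d2 u x := by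
  have h1 : ∀ y ∈ closure Ω, D1 (closure Ω) u y = d1 u y := fun y hy =>
    (hu.differentiable (by norm_num) y).fderivWithin (h.uniqueDiffOn y hy)
  have h2 : ContDiff ℝ 1 (d1 u) := hu.fderiv_right (by norm_num)
  exact ⟨h1 x hx, (fderivWithin_congr' h1 hx).trans
    ((h2.differentiable one_ne_zero x).fderivWithin (h.uniqueDiffOn x hx))⟩

theorem CG2_c1 (h : Dom Ω ρ) {u : E n → ℝ} (hu : ContDiffOn ℝ 2 u (closure Ω)) :
    ContDiffOn ℝ 1 (D1 (closure Ω) u) (closure Ω) :=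
  hu.fderivWithin h.uniqueDiffOn (by norm_num)

theorem Dom.contOn_D1 (h : Dom Ω ρ) {u : E n → ℝ} (hu : ContDiffOn ℝ 2 u (closure Ω)) :
    ContinuousOn (D1 (closure Ω) u) (closure Ω) := by
  exact (CG2_c1 h hu).continuousOn

theorem Dom.contOn_D2 (h : Dom Ω ρ) {u : E n → ℝ} (hu : ContDiffOn ℝ 2 u (closure Ω)) :
    ContinuousOn (D2 (closure Ω) u) (closure Ω) := by
  exact (CG2_c1 h hu).continuousOn_fderivWithin h.uniqueDiffOn le_rfl

theorem Dom.hasD1 (h : Dom Ω ρ) {u : E n → ℝ} (hu : ContDiffOn ℝ 2 u (closure Ω)) {x : E n}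
    (hx : x ∈ closure Ω) : HasFDerivWithinAt u (D1 (closure Ω) u x) (closure Ω) x := by
  have _ := h
  exact (hu.differentiableOn (by norm_num) x hx).hasFDerivWithinAt

theorem Dom.hasD2 (h : Dom Ω ρ) {u : E n → ℝ} (hu : ContDiffOn ℝ 2 u (closure Ω)) {x : E n}
    (hx : x ∈ closure Ω) :
    HasFDerivWithinAt (D1 (closure Ω) u) (D2 (closure Ω) u x) (closure Ω) x := by
  exact ((CG2_c1 h hu).differentiableOn one_ne_zero x hx).hasFDerivWithinAt

theorem Dom.sym_D2 (h : Dom Ω ρ) {u : E n → ℝ} (hu : ContDiffOn ℝ 2 u (closure Ω)) {x : E n}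
    (hx : x ∈ closure Ω) : Sym (D2 (closure Ω) u x) := by
  exact fun v w => (hu x hx).isSymmSndFDerivWithinAt (by simp) h.uniqueDiffOn
    (closure_mono (CG2_int h) hx) hx v w

theorem Dom.lip (h : Dom Ω ρ) {u : E n → ℝ} (hu : ContDiffOn ℝ 2 u (closure Ω)) {L : ℝ}
    (hL : ∀ x ∈ closure Ω, ‖D1 (closure Ω) u x‖ ≤ L) {x y : E n} (hx : x ∈ closure Ω)
    (hy : y ∈ closure Ω) : |u y - u x| ≤ L * ‖y - x‖ := by
  exact h.convex_closure.norm_image_sub_le_of_norm_hasFDerivWithin_le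
    (fun z hz => h.hasD1 hu hz) hL hx hy

/-- linear combinations -/
theorem Dom.D_comb (h : Dom Ω ρ) {u v : E n → ℝ} (hu : ContDiffOn ℝ 2 u (closure Ω))
    (hv : ContDiffOn ℝ 2 v (closure Ω)) (a b : ℝ) {x : E n} (hx : x ∈ closure Ω) :
    D1 (closure Ω) (fun y => a * u y + b * v y) x
        = a • D1 (closure Ω) u x + b • D1 (closure Ω) v x ∧
      D2 (closure Ω) (fun y => a * u y + b * v y) x
        = a • D2 (closure Ω) u x + b • D2 (closure Ω) v x := by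
  have h1 : ∀ y ∈ closure Ω, D1 (closure Ω) (fun y => a * u y + b * v y) y
      = a • D1 (closure Ω) u y + b • D1 (closure Ω) v y := fun y hy =>
    (((h.hasD1 hu hy).const_mul a).fun_add ((h.hasD1 hv hy).const_mul b)).fderivWithin
      (h.uniqueDiffOn y hy)
  exact ⟨h1 x hx, (fderivWithin_congr' h1 hx).trans
    ((((h.hasD2 hu hx).fun_const_smul a).fun_add ((h.hasD2 hv hx).fun_const_smul b)).fderivWithin
      (h.uniqueDiffOn x hx))⟩

/-- two-jet along a curve that stays in the closure -/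
theorem Dom.J2_curve (h : Dom Ω ρ) {u : E n → ℝ} (hu : ContDiffOn ℝ 2 u (closure Ω))
    {c : ℝ → E n} {x τ γ : E n} (hc : J2 c x τ γ) (hcm : ∀ᶠ t in 𝓝 (0:ℝ), c t ∈ closure Ω) :
    J2 (fun t => u (c t)) (u x) (D1 (closure Ω) u x τ)
      (D2 (closure Ω) u x τ τ + D1 (closure Ω) u x γ) := by
  obtain ⟨c', h1, h2, rfl, rfl⟩ := hc
  refine ⟨fun t => D1 (closure Ω) u (c t) (c' t), ?_, ?_, rfl, rfl⟩
  · filter_upwards [h1, hcm.eventually_nhds] with t ht ht'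
    exact (h.hasD1 hu ht'.self_of_nhds).comp_hasDerivAt t ht ht'
  · exact ((h.hasD2 hu hcm.self_of_nhds).comp_hasDerivAt 0 h1.self_of_nhds hcm).clm_apply h2

theorem CG2_taylor {W V : Type} [NormedAddCommGroup W] [NormedSpace ℝ W] [NormedAddCommGroup V]
    [NormedSpace ℝ V] {J : W → V} (hJ : ContDiff ℝ 2 J) {S : Set W} (hS : Convex ℝ S) {M : ℝ}
    (h2 : ∀ x ∈ S, ‖fderiv ℝ (fderiv ℝ J) x‖ ≤ M) {x y : W} (hx : x ∈ S) (hy : y ∈ S) :
    ‖J y - J x - fderiv ℝ J x (y - x)‖ ≤ M * ‖y - x‖ ^ 2 := by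
  have hM : 0 ≤ M := (norm_nonneg _).trans (h2 x hx)
  have h1 : ContDiff ℝ 1 (fderiv ℝ J) := hJ.fderiv_right (by norm_num)
  have h3 : ∀ z ∈ S ∩ Metric.closedBall x ‖y - x‖,
      ‖fderiv ℝ J z - fderiv ℝ J x‖ ≤ M * ‖y - x‖ := by
    intro z hz
    refine (hS.norm_image_sub_le_of_norm_fderiv_le
      (fun w _ => h1.differentiable one_ne_zero w) h2 hx hz.1).trans ?_
    exact mul_le_mul_of_nonneg_left (mem_closedBall_iff_norm.1 hz.2) hM
  have h4 := (hS.inter (convex_closedBall x ‖y - x‖)).norm_image_sub_le_of_norm_fderiv_le'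
    (fun w _ => hJ.differentiable (by norm_num) w) h3
    ⟨hx, Metric.mem_closedBall_self (norm_nonneg _)⟩ ⟨hy, mem_closedBall_iff_norm.2 le_rfl⟩
  rw [sq, ← mul_assoc]
  exact h4

/-- Taylor estimates for a `C²` map on a convex set -/
theorem taylor_convex {V : Type} [NormedAddCommGroup V] [NormedSpace ℝ V] {J : E n → V}
    (hJ : ContDiff ℝ 2 J) {S : Set (E n)} (hS : Convex ℝ S) {M : ℝ}
    (h1 : ∀ x ∈ S, ‖fderiv ℝ J x‖ ≤ M) (h2 : ∀ x ∈ S, ‖fderiv ℝ (fderiv ℝ J) x‖ ≤ M)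
    {x y : E n} (hx : x ∈ S) (hy : y ∈ S) :
    ‖J y - J x‖ ≤ M * ‖y - x‖ ∧ ‖J y - J x - fderiv ℝ J x (y - x)‖ ≤ M * ‖y - x‖ ^ 2 := by
  exact ⟨hS.norm_image_sub_le_of_norm_fderiv_le (fun w _ => hJ.differentiable (by norm_num) w)
    h1 hx hy, CG2_taylor hJ hS h2 hx hy⟩

/-- uniform Taylor estimate for a fixed `C²` function on bounded sets -/
theorem taylor_unif {V : Type} [NormedAddCommGroup V] [NormedSpace ℝ V] [FiniteDimensional ℝ V]
    {Ψ : V → ℝ} (hΨ : ContDiff ℝ 2 Ψ) (R : ℝ) : ∃ C : ℝ, 0 ≤ C ∧ ∀ y y' : V, ‖y‖ ≤ R → ‖y'‖ ≤ R →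
      ‖fderiv ℝ Ψ y‖ ≤ C ∧ |Ψ y' - Ψ y - fderiv ℝ Ψ y (y' - y)| ≤ C * ‖y' - y‖ ^ 2 := by
  have := FiniteDimensional.proper_real V
  have h1 : ContDiff ℝ 1 (fderiv ℝ Ψ) := hΨ.fderiv_right (by norm_num)
  obtain ⟨C₁, hC₁⟩ := (isCompact_closedBall (0 : V) R).exists_bound_of_continuousOn
    h1.continuous.continuousOn
  obtain ⟨C₂, hC₂⟩ := (isCompact_closedBall (0 : V) R).exists_bound_of_continuousOn
    (h1.continuous_fderiv one_ne_zero).continuousOn
  refine ⟨max (max C₁ C₂) 0, le_max_right _ _, fun y y' hy hy' => ⟨?_, ?_⟩⟩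
  · exact (hC₁ y (mem_closedBall_zero_iff.2 hy)).trans ((le_max_left _ _).trans (le_max_left _ _))
  · exact CG2_taylor hΨ (convex_closedBall 0 R)
      (fun z hz => (hC₂ z hz).trans ((le_max_right _ _).trans (le_max_left _ _)))
      (mem_closedBall_zero_iff.2 hy) (mem_closedBall_zero_iff.2 hy')

/-- smooth truncation from below -/
theorem exists_trunc {ε : ℝ} (hε : 0 < ε) : ∃ m : ℝ → ℝ, ContDiff ℝ ∞ m ∧ (∀ s, ε / 2 ≤ m s) ∧
    ∀ s, ε ≤ s → m s = s := by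
  have h2 : 0 < ε / 2 := half_pos hε
  refine ⟨fun s => ε / 2 + (s - ε / 2) * Real.smoothTransition ((s - ε / 2) / (ε / 2)), ?_,
    fun s => le_add_of_nonneg_right ?_, fun s hs => ?_⟩
  · have h3 : ContDiff ℝ ∞ fun s : ℝ => s - ε / 2 := contDiff_id.sub contDiff_const
    exact contDiff_const.add (h3.mul (Real.smoothTransition.contDiff.comp (h3.div_const _)))
  · rcases le_total s (ε / 2) with h | h
    · rw [Real.smoothTransition.zero_of_nonpos
        (div_nonpos_of_nonpos_of_nonneg (sub_nonpos.2 h) h2.le), mul_zero]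
    · exact mul_nonneg (sub_nonneg.2 h) (Real.smoothTransition.nonneg _)
  · change ε / 2 + (s - ε / 2) * Real.smoothTransition ((s - ε / 2) / (ε / 2)) = s
    rw [Real.smoothTransition.one_of_one_le ((one_le_div h2).2 (by linarith)), mul_one,
      add_sub_cancel]


end Pool.Agent.Mink.C
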