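import Pool.Agent.Lib.MP_88c759_an.Mink.CG2

set_option maxSynthPendingDepth 3

namespace Pool.Agent.Mink.C

open scoped ContDiff Topology RealInnerProductSpace
open Set Filter

variable {n : ℕ}

variable {Ω : Set (E n)} {ρ : E n → ℝ}

theorem CG3_deriv_le {φ : ℝ → ℝ} {a r : ℝ} (hr : 0 < r) (h : HasDerivWithinAt φ a (Icc 0 r) 0)
    (hle : ∀ t, 0 < t → t ≤ r → φ t ≤ φ 0) : a ≤ 0 := by
  have h1 : HasDerivWithinAt φ a (Ioi 0) 0 :=
    h.mono_of_mem_nhdsWithin (Icc_mem_nhdsGT hr)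
  have h2 := (hasDerivWithinAt_iff_tendsto_slope' (show (0:ℝ) ∉ Ioi (0:ℝ) by simp)).1 h1
  refine le_of_tendsto h2 ?_
  filter_upwards [Ioc_mem_nhdsGT hr] with t ht
  rw [slope_def_field, sub_zero]
  exact div_nonpos_of_nonpos_of_nonneg (sub_nonpos.2 (hle t ht.1 ht.2)) ht.1.le

theorem CG3_c1 (h : Dom Ω ρ) : ContDiff ℝ ∞ (d1 ρ) :=
  h.smooth.fderiv_right (m := ∞) (by simp)

theorem CG3_c2 (h : Dom Ω ρ) : ContDiff ℝ ∞ (d2 ρ) :=
  (CG3_c1 h).fderiv_right (m := ∞) (by simp)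

theorem CG3_c3 (h : Dom Ω ρ) : ContDiff ℝ ∞ (d3 ρ) :=
  (CG3_c2 h).fderiv_right (m := ∞) (by simp)

theorem CG3_c4 (h : Dom Ω ρ) : ContDiff ℝ ∞ (d4 ρ) :=
  (CG3_c3 h).fderiv_right (m := ∞) (by simp)

theorem CG3_two : (2 : WithTop ℕ∞) ≤ ∞ := by
  exact WithTop.coe_le_coe.2 (le_top : (2 : ℕ∞) ≤ ⊤)

theorem CG3_line (h : Dom Ω ρ) (x v : E n) (t : ℝ) :
    HasDerivAt (fun s : ℝ => ρ (x + s • v)) (d1 ρ (x + t • v) v) t := by
  have h1 : HasDerivAt (fun s : ℝ => x + s • v) v t := by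
    simpa using ((hasDerivAt_id' t).smul_const v).const_add x
  exact ((h.smooth.differentiable (by simp)) (x + t • v)).hasFDerivAt.comp_hasDerivAt t h1

theorem Dom.norm_nin (h : Dom Ω ρ) {x : E n} (hx : x ∈ frontier Ω) : ‖nin ρ x‖ = 1 := by
  have h0 : ‖d1 ρ x‖ ≠ 0 := norm_ne_zero_iff.2 (h.reg x hx)
  rw [nin, norm_neg, norm_smul, norm_shp, norm_inv, norm_norm, inv_mul_cancel₀ h0]

theorem Dom.d1_rho (h : Dom Ω ρ) {x : E n} (hx : x ∈ frontier Ω) (v : E n) :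
    d1 ρ x v = -(‖d1 ρ x‖ * ⟪nin ρ x, v⟫) := by
  have h0 : ‖d1 ρ x‖ ≠ 0 := norm_ne_zero_iff.2 (h.reg x hx)
  rw [nin, inner_neg_left, real_inner_smul_left, inner_shp]
  field_simp

theorem Dom.support (h : Dom Ω ρ) {x : E n} (hx : x ∈ frontier Ω) {y : E n} (hy : y ∈ closure Ω) :
    0 ≤ ⟪nin ρ x, y - x⟫ := by
  have h0 : 0 < ‖d1 ρ x‖ := norm_pos_iff.2 (h.reg x hx)
  have h1 := CG3_deriv_le one_pos (CG3_line h x (y - x) 0).hasDerivWithinAt fun t ht ht1 => by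
    simp only [zero_smul, add_zero]
    rw [h.rho_frontier hx]
    exact h.rho_closure (h.convex_closure.add_smul_sub_mem (h.frontier_sub hx) hy ⟨ht.le, ht1⟩)
  simp only [zero_smul, add_zero] at h1
  rw [h.d1_rho hx] at h1
  exact nonneg_of_mul_nonneg_right (neg_nonpos.1 h1) h0

theorem Dom.Bf_nonneg (h : Dom Ω ρ) {x : E n} (hx : x ∈ frontier Ω) {v : E n}
    (hv : ⟪nin ρ x, v⟫ = 0) : 0 ≤ Bf ρ x v v := by
  have h1 : ∀ t : ℝ, 0 ≤ ρ (x + t • v) := fun t => by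
    by_contra hc
    have hm : x + t • v ∈ Ω := by
      rw [h.eq]
      exact not_le.1 hc
    obtain ⟨ε, hε, hb⟩ := Metric.isOpen_iff.1 h.isOpen _ hm
    have hm2 : x + t • v - (ε / 2) • nin ρ x ∈ Ω := hb (by
      rw [Metric.mem_ball, dist_eq_norm, sub_sub_cancel_left, norm_neg, norm_smul, h.norm_nin hx,
        Real.norm_eq_abs, abs_of_pos (half_pos hε)]
      linarith)
    have h2 := h.support hx (subset_closure hm2)
    have h3 : x + t • v - (ε / 2) • nin ρ x - x = t • v - (ε / 2) • nin ρ x := by abel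
    rw [h3, inner_sub_right, real_inner_smul_right, real_inner_smul_right, hv,
      real_inner_self_eq_norm_sq, h.norm_nin hx] at h2
    linarith
  have h2 := (J2_u ((h.smooth.of_le CG3_two).contDiffAt (x := x)) v).of_isLocalMin
    (Eventually.of_forall fun t => by
      simp only [zero_smul, add_zero]
      rw [h.rho_frontier hx]
      exact h1 t)
  exact div_nonneg h2.2 (norm_nonneg _)

theorem Dom.Bf_comm (h : Dom Ω ρ) (x v w : E n) : Bf ρ x v w = Bf ρ x w v := by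
  rw [Bf, Bf, sym_d2 ((h.smooth.of_le CG3_two).contDiffAt (x := x)) v w]

theorem Dom.contOn_nin (h : Dom Ω ρ) : ContinuousOn (nin ρ) (frontier Ω) := by
  have h1 := (CG3_c1 h).continuous
  refine ContinuousOn.neg (ContinuousOn.smul (h1.norm.continuousOn.inv₀ fun x hx =>
    norm_ne_zero_iff.2 (h.reg x hx)) (contDiff_shp.continuous.comp h1).continuousOn)

theorem CG3_bound (h : Dom Ω ρ) (R : ℝ) : ∃ M : ℝ, 0 < M ∧ ∀ y ∈ Metric.closedBall (0 : E n) R,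
    ‖d1 ρ y‖ ≤ M ∧ ‖d2 ρ y‖ ≤ M ∧ ‖d3 ρ y‖ ≤ M ∧ ‖d4 ρ y‖ ≤ M := by
  have hK := isCompact_closedBall (0 : E n) R
  obtain ⟨a, ha⟩ := hK.exists_bound_of_continuousOn (CG3_c1 h).continuous.continuousOn
  obtain ⟨b, hb⟩ := hK.exists_bound_of_continuousOn (CG3_c2 h).continuous.continuousOn
  obtain ⟨c, hc⟩ := hK.exists_bound_of_continuousOn (CG3_c3 h).continuous.continuousOn
  obtain ⟨d, hd⟩ := hK.exists_bound_of_continuousOn (CG3_c4 h).continuous.continuousOn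
  refine ⟨|a| + |b| + |c| + |d| + 1, by positivity, fun y hy => ?_⟩
  have h1 := (ha y hy).trans (le_abs_self a)
  have h2 := (hb y hy).trans (le_abs_self b)
  have h3 := (hc y hy).trans (le_abs_self c)
  have h4 := (hd y hy).trans (le_abs_self d)
  have := abs_nonneg a
  have := abs_nonneg b
  have := abs_nonneg c
  have := abs_nonneg d
  refine ⟨by linarith, by linarith, by linarith, by linarith⟩

theorem CG3_min (h : Dom Ω ρ) : ∃ m : ℝ, 0 < m ∧ ∀ x ∈ frontier Ω, m ≤ ‖d1 ρ x‖ := by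
  rcases (frontier Ω).eq_empty_or_nonempty with h0 | h0
  · exact ⟨1, one_pos, fun x hx => by simp [h0] at hx⟩
  · obtain ⟨x, hx, hm⟩ := h.isCompact_frontier.exists_isMinOn h0
      (CG3_c1 h).continuous.norm.continuousOn
    exact ⟨_, norm_pos_iff.2 (h.reg x hx), fun y hy => hm hy⟩

theorem CG3_taylor3 (h : Dom Ω ρ) {S : Set (E n)} (hS : Convex ℝ S) {M : ℝ} (hM : 0 < M)
    (h2 : ∀ x ∈ S, ‖d2 ρ x‖ ≤ M) (h3 : ∀ x ∈ S, ‖d3 ρ x‖ ≤ M) {x y : E n} (hx : x ∈ S)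
    (hy : y ∈ S) :
    |ρ y - ρ x - d1 ρ x (y - x) - d2 ρ x (y - x) (y - x) / 2| ≤ M * ‖y - x‖ ^ 3 := by
  set v := y - x with hv
  have hd : ∀ t ∈ Icc (0:ℝ) 1, HasDerivWithinAt
      (fun s : ℝ => ρ (x + s • v) - s * d1 ρ x v - s ^ 2 / 2 * d2 ρ x v v)
      (d1 ρ (x + t • v) v - d1 ρ x v - t * d2 ρ x v v) (Icc 0 1) t := fun t _ => by
    have a1 := CG3_line h x v t
    have a2 := (hasDerivAt_id' t).mul_const (d1 ρ x v)
    have a3 := ((hasDerivAt_pow 2 t).div_const 2).mul_const (d2 ρ x v v)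
    refine (((a1.fun_sub a2).fun_sub a3).congr_deriv ?_).hasDerivWithinAt
    simp
  have hb : ∀ t ∈ Ico (0:ℝ) 1, ‖d1 ρ (x + t • v) v - d1 ρ x v - t * d2 ρ x v v‖
      ≤ M * ‖v‖ ^ 3 := fun t ht => by
    have hm : x + t • v ∈ S := hS.add_smul_sub_mem hx hy ⟨ht.1, ht.2.le⟩
    have a1 := (taylor_convex ((CG3_c1 h).of_le CG3_two) hS h2 h3 hx hm).2
    have a2 : d1 ρ (x + t • v) v - d1 ρ x v - t * d2 ρ x v v =
        (d1 ρ (x + t • v) - d1 ρ x - fderiv ℝ (d1 ρ) x (x + t • v - x)) v := by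
      simp [d2]
    rw [a2]
    refine (ContinuousLinearMap.le_opNorm _ _).trans ?_
    have a3 : ‖x + t • v - x‖ ≤ ‖v‖ := by
      rw [add_sub_cancel_left, norm_smul, Real.norm_eq_abs, abs_of_nonneg ht.1]
      exact mul_le_of_le_one_left (norm_nonneg _) ht.2.le
    have a4 : M * ‖x + t • v - x‖ ^ 2 ≤ M * ‖v‖ ^ 2 := by gcongr
    calc _ ≤ M * ‖v‖ ^ 2 * ‖v‖ := mul_le_mul_of_nonneg_right (a1.trans a4) (norm_nonneg _)
      _ = M * ‖v‖ ^ 3 := by ring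
  have h4 := norm_image_sub_le_of_norm_deriv_le_segment_01' hd hb
  have h5 : x + v = y := by rw [hv]; abel
  simp only [one_smul, zero_smul, add_zero, h5, Real.norm_eq_abs] at h4
  refine le_of_eq_of_le ?_ h4
  congr 1
  ring

theorem CG3_normalize (a b : E n) (ha : a ≠ 0) (hb : b ≠ 0) :
    ‖‖a‖⁻¹ • a - ‖b‖⁻¹ • b‖ ≤ 2 * ‖a - b‖ / ‖a‖ := by
  have ha' : 0 < ‖a‖ := norm_pos_iff.2 ha
  have hb' : 0 < ‖b‖ := norm_pos_iff.2 hb
  have h1 : ‖a‖⁻¹ • a - ‖b‖⁻¹ • b = ‖a‖⁻¹ • (a - b) + (‖a‖⁻¹ - ‖b‖⁻¹) • b := by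
    rw [smul_sub, sub_smul]
    abel
  have h2 : ‖(‖a‖⁻¹ - ‖b‖⁻¹) • b‖ ≤ ‖a - b‖ / ‖a‖ := by
    have h3 : ‖a‖⁻¹ - ‖b‖⁻¹ = (‖b‖ - ‖a‖) / (‖a‖ * ‖b‖) := by field_simp
    rw [norm_smul, h3, Real.norm_eq_abs, abs_div, abs_of_pos (mul_pos ha' hb')]
    have h4 : |‖b‖ - ‖a‖| ≤ ‖a - b‖ := by
      rw [abs_sub_comm]
      exact abs_norm_sub_norm_le a b
    calc |‖b‖ - ‖a‖| / (‖a‖ * ‖b‖) * ‖b‖ = |‖b‖ - ‖a‖| / ‖a‖ := by field_simp
      _ ≤ _ := by gcongr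
  rw [h1]
  refine (norm_add_le _ _).trans ?_
  rw [norm_smul, norm_inv, norm_norm]
  have h5 : 2 * ‖a - b‖ / ‖a‖ = ‖a‖⁻¹ * ‖a - b‖ + ‖a - b‖ / ‖a‖ := by
    field_simp
    ring
  rw [h5]
  linarith

theorem CG3_shp_sub (p q : B1 n) : shp p - shp q = shp (p - q) := by
  simp [shp]

theorem CG3_pr (ν v : E n) (hν : ‖ν‖ = 1) : ‖pr ν v‖ ≤ ‖v‖ := by
  have h1 : ‖pr ν v‖ ^ 2 = ‖v‖ ^ 2 - ⟪ν, v⟫ ^ 2 := by
    rw [pr, norm_sub_sq_real, real_inner_smul_right, norm_smul, hν, real_inner_comm ν v,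
      Real.norm_eq_abs, mul_one, sq_abs]
    ring
  refine (pow_le_pow_iff_left₀ (norm_nonneg _) (norm_nonneg _) two_ne_zero).1 ?_
  rw [h1]
  linarith [sq_nonneg ⟪ν, v⟫]

theorem CG3_Bf_expand (h : Dom Ω ρ) (x p ν : E n) (a : ℝ) :
    Bf ρ x (p + a • ν) (p + a • ν) = Bf ρ x p p + 2 * a * Bf ρ x p ν + a ^ 2 * Bf ρ x ν ν := by
  have h1 := sym_d2 ((h.smooth.of_le CG3_two).contDiffAt (x := x)) ν p
  simp only [Bf, map_add, map_smul, add_apply, smul_apply,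
    smul_eq_mul, h1]
  ring

/-- uniform boundary constants -/
theorem Dom.consts (h : Dom Ω ρ) : ∃ m C r : ℝ, 0 < m ∧ 0 < C ∧ 0 < r ∧
    (∀ y ∈ closure Ω, ‖d1 ρ y‖ ≤ C ∧ ‖d2 ρ y‖ ≤ C ∧ ‖d3 ρ y‖ ≤ C ∧ ‖d4 ρ y‖ ≤ C) ∧
    ∀ x ∈ frontier Ω, m ≤ ‖d1 ρ x‖ ∧ (∀ v w, |Bf ρ x v w| ≤ C * ‖v‖ * ‖w‖) ∧
      (∀ s : ℝ, 0 < s → s ≤ r → x + s • nin ρ x ∈ Ω) ∧
      (∀ y ∈ frontier Ω, ⟪nin ρ x, y - x⟫ ≤ C * ‖y - x‖ ^ 2 ∧
        ‖nin ρ y - nin ρ x‖ ≤ C * ‖y - x‖) ∧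
      ∀ y ∈ closure Ω, Bf ρ x (pr (nin ρ x) (y - x)) (pr (nin ρ x) (y - x)) / 2
        - C * ‖y - x‖ * ⟪nin ρ x, y - x⟫ - C * ‖y - x‖ ^ 3 ≤ ⟪nin ρ x, y - x⟫ := by
  obtain ⟨D, hD, hDb⟩ := h.exists_bound
  obtain ⟨M, hM, hMb⟩ := CG3_bound h (D + 1)
  obtain ⟨m, hm, hmb⟩ := CG3_min h
  have hK : ∀ y ∈ closure Ω, y ∈ Metric.closedBall (0 : E n) (D + 1) := fun y hy => by
    rw [mem_closedBall_zero_iff]
    linarith [hDb y hy]
  have hS := convex_closedBall (0 : E n) (D + 1)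
  have hq : 0 < M / m := div_pos hM hm
  have hT : ∀ x ∈ Metric.closedBall (0 : E n) (D + 1), ∀ y ∈ Metric.closedBall (0 : E n) (D + 1),
      |ρ y - ρ x - d1 ρ x (y - x)| ≤ M * ‖y - x‖ ^ 2 := fun x hx y hy =>
    (taylor_convex (h.smooth.of_le CG3_two) hS (fun z hz => (hMb z hz).1)
      (fun z hz => (hMb z hz).2.1) hx hy).2
  refine ⟨m, M + 2 * (M / m), min 1 (m / (2 * M)), hm, by positivity, by positivity,
    fun y hy => ?_, fun x hx => ?_⟩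
  · obtain ⟨a1, a2, a3, a4⟩ := hMb y (hK y hy)
    exact ⟨by linarith, by linarith, by linarith, by linarith⟩
  have hxK := hK x (h.frontier_sub hx)
  have hd := hmb x hx
  have hd0 : 0 < ‖d1 ρ x‖ := hm.trans_le hd
  have hn := h.norm_nin hx
  have hB : ∀ v w, |Bf ρ x v w| ≤ M / m * ‖v‖ * ‖w‖ := fun v w => by
    have a1 : |d2 ρ x v w| ≤ M * ‖v‖ * ‖w‖ := by
      have := (d2 ρ x).le_opNorm₂ v w
      rw [Real.norm_eq_abs] at this
      refine this.trans ?_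
      gcongr
      exact (hMb x hxK).2.1
    rw [Bf, abs_div, abs_of_pos hd0]
    calc |d2 ρ x v w| / ‖d1 ρ x‖ ≤ M * ‖v‖ * ‖w‖ / m := by gcongr
      _ = _ := by ring
  refine ⟨hd, fun v w => (hB v w).trans ?_, fun s hs hsr => ?_, fun y hy => ⟨?_, ?_⟩,
    fun y hy => ?_⟩
  · gcongr
    linarith
  · have hs1 : s ≤ 1 := hsr.trans (min_le_left _ _)
    have hs2 : s ≤ m / (2 * M) := hsr.trans (min_le_right _ _)
    have a0 : ‖s • nin ρ x‖ = s := by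
      rw [norm_smul, hn, Real.norm_eq_abs, abs_of_pos hs, mul_one]
    have hy : x + s • nin ρ x ∈ Metric.closedBall (0 : E n) (D + 1) := by
      rw [mem_closedBall_zero_iff]
      refine (norm_add_le _ _).trans ?_
      rw [a0]
      linarith [hDb x (h.frontier_sub hx)]
    have a1 := (abs_le.1 (hT x hxK _ hy)).2
    rw [add_sub_cancel_left, a0, h.rho_frontier hx, h.d1_rho hx, real_inner_smul_right,
      real_inner_self_eq_norm_sq, hn] at a1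
    rw [h.eq]
    change ρ _ < 0
    have a2 : s * (2 * M) ≤ m := (le_div_iff₀ (by positivity)).1 hs2
    nlinarith [mul_le_mul_of_nonneg_left hd hs.le, mul_le_mul_of_nonneg_left a2 hs.le,
      mul_pos hs hm]
  · have a1 := (abs_le.1 (hT x hxK y (hK y (h.frontier_sub hy)))).2
    rw [h.rho_frontier hx, h.rho_frontier hy, h.d1_rho hx] at a1
    have a2 := h.support hx (h.frontier_sub hy)
    have a3 : m * ⟪nin ρ x, y - x⟫ ≤ M * ‖y - x‖ ^ 2 := by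
      nlinarith [mul_le_mul_of_nonneg_right hd a2]
    have a4 : ⟪nin ρ x, y - x⟫ ≤ M / m * ‖y - x‖ ^ 2 := by
      rw [div_mul_eq_mul_div, le_div_iff₀ hm]
      linarith
    refine a4.trans ?_
    gcongr
    linarith
  · have a1 := (taylor_convex ((CG3_c1 h).of_le CG3_two) hS (fun z hz => (hMb z hz).2.1)
      (fun z hz => (hMb z hz).2.2.1) hxK (hK y (h.frontier_sub hy))).1
    have b1 : shp (d1 ρ x) ≠ 0 := by
      rw [← norm_ne_zero_iff, norm_shp]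
      exact hd0.ne'
    have b2 : shp (d1 ρ y) ≠ 0 := by
      rw [← norm_ne_zero_iff, norm_shp]
      exact (hm.trans_le (hmb y hy)).ne'
    have a2 := CG3_normalize _ _ b1 b2
    rw [CG3_shp_sub, norm_shp, norm_shp, norm_shp, norm_sub_rev (d1 ρ x)] at a2
    have a3 : nin ρ y - nin ρ x =
        ‖d1 ρ x‖⁻¹ • shp (d1 ρ x) - ‖d1 ρ y‖⁻¹ • shp (d1 ρ y) := by
      rw [nin, nin]
      abel
    rw [a3]
    refine a2.trans ?_
    calc 2 * ‖d1 ρ y - d1 ρ x‖ / ‖d1 ρ x‖ ≤ 2 * (M * ‖y - x‖) / m := by gcongr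
      _ = 2 * (M / m) * ‖y - x‖ := by ring
      _ ≤ _ := by
        gcongr
        linarith
  · have a1 := (abs_le.1 (CG3_taylor3 h hS hM (fun z hz => (hMb z hz).2.1)
      (fun z hz => (hMb z hz).2.2.1) hxK (hK y hy))).1
    have a2 := h.support hx hy
    have a3 := h.rho_closure hy
    rw [h.rho_frontier hx, h.d1_rho hx] at a1
    set v := y - x with hv
    set a := ⟪nin ρ x, v⟫ with ha
    have a4 : a ≤ ‖v‖ := by
      have := real_inner_le_norm (nin ρ x) v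
      rwa [hn, one_mul] at this
    have a5 : Bf ρ x v v / 2 - M / m * ‖v‖ ^ 3 ≤ a := by
      have c1 : d2 ρ x v v / 2 - M * ‖v‖ ^ 3 ≤ ‖d1 ρ x‖ * a := by linarith
      have c2 : M * ‖v‖ ^ 3 / ‖d1 ρ x‖ ≤ M * ‖v‖ ^ 3 / m := by gcongr
      have c3 : (d2 ρ x v v / 2 - M * ‖v‖ ^ 3) / ‖d1 ρ x‖ ≤ a := by
        rw [div_le_iff₀ hd0]
        linarith
      have c4 : (d2 ρ x v v / 2 - M * ‖v‖ ^ 3) / ‖d1 ρ x‖ =
          Bf ρ x v v / 2 - M * ‖v‖ ^ 3 / ‖d1 ρ x‖ := by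
        rw [Bf]
        ring
      have c5 : M * ‖v‖ ^ 3 / m = M / m * ‖v‖ ^ 3 := by ring
      linarith
    have a6 : v = pr (nin ρ x) v + a • nin ρ x := by
      rw [pr, ha]
      abel
    have a7 := CG3_Bf_expand h x (pr (nin ρ x) v) (nin ρ x) a
    rw [← a6] at a7
    have a8 := (abs_le.1 (hB (pr (nin ρ x) v) (nin ρ x))).1
    have a9 := (abs_le.1 (hB (nin ρ x) (nin ρ x))).1
    rw [hn] at a8 a9
    have b1 : M / m * ‖pr (nin ρ x) v‖ ≤ M / m * ‖v‖ :=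
      mul_le_mul_of_nonneg_left (CG3_pr _ v hn) hq.le
    have b2 : -(a * (M / m * ‖v‖)) ≤ a * Bf ρ x (pr (nin ρ x) v) (nin ρ x) := by
      nlinarith [mul_le_mul_of_nonneg_left (show -(M / m * ‖v‖) ≤
        Bf ρ x (pr (nin ρ x) v) (nin ρ x) by linarith) a2]
    have b3 : -(a * (M / m * ‖v‖)) ≤ a ^ 2 * Bf ρ x (nin ρ x) (nin ρ x) := by
      have c1 : a ^ 2 * -(M / m) ≤ a ^ 2 * Bf ρ x (nin ρ x) (nin ρ x) :=
        mul_le_mul_of_nonneg_left (by linarith) (sq_nonneg a)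
      have c2 : a * (M / m) * a ≤ a * (M / m) * ‖v‖ :=
        mul_le_mul_of_nonneg_left a4 (mul_nonneg a2 hq.le)
      nlinarith
    have b4 : 0 ≤ a * ‖v‖ := mul_nonneg a2 (norm_nonneg _)
    have b5 : 0 ≤ ‖v‖ ^ 3 := by positivity
    nlinarith [mul_nonneg hM.le b4, mul_nonneg hM.le b5, mul_nonneg hq.le b4, mul_nonneg hq.le b5]

/-- comparison of inner normal derivatives -/
theorem Dom.normal_le (h : Dom Ω ρ) {x : E n} (hx : x ∈ frontier Ω) {f g : E n → ℝ} {f' g' : B1 n}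
    (hf : HasFDerivWithinAt f f' (closure Ω) x) (hg : HasFDerivWithinAt g g' (closure Ω) x)
    (h0 : f x = g x) {r : ℝ} (hr : 0 < r) (hle : ∀ y ∈ closure Ω, ‖y - x‖ ≤ r → f y ≤ g y) :
    f' (nin ρ x) ≤ g' (nin ρ x) := by
  obtain ⟨m, C, r', -, -, hr', -, hc⟩ := h.consts
  have hin := (hc x hx).2.2.1
  have hmem : ∀ s ∈ Icc (0:ℝ) (min r r'), x + s • nin ρ x ∈ closure Ω := fun s hs => by
    rcases hs.1.eq_or_lt with h1 | h1
    · rw [← h1, zero_smul, add_zero]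
      exact h.frontier_sub hx
    · exact subset_closure (hin s h1 (hs.2.trans (min_le_right _ _)))
  have h1 : HasDerivWithinAt (fun s : ℝ => x + s • nin ρ x) (nin ρ x) (Icc 0 (min r r')) 0 := by
    simpa using (((hasDerivAt_id' (0:ℝ)).smul_const (nin ρ x)).const_add x).hasDerivWithinAt
  have h2 : HasFDerivWithinAt (fun y => f y - g y) (f' - g') (closure Ω)
      (x + (0:ℝ) • nin ρ x) := by
    rw [zero_smul, add_zero]
    exact hf.sub hg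
  have h3 := h2.comp_hasDerivWithinAt (0:ℝ) h1 hmem
  have h4 := CG3_deriv_le (lt_min hr hr') h3 fun t ht htr => by
    simp only [Function.comp_apply, zero_smul, add_zero, h0, sub_self, sub_nonpos]
    refine hle _ (hmem t ⟨ht.le, htr⟩) ?_
    rw [add_sub_cancel_left, norm_smul, h.norm_nin hx, Real.norm_eq_abs, abs_of_pos ht, mul_one]
    exact htr.trans (min_le_left _ _)
  simpa using h4

end Pool.Agent.Mink.C
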