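import Pool.Agent.Lib.MP_88c759_an.Mink.CG4

set_option maxSynthPendingDepth 3

namespace Pool.Agent.Mink.C

open scoped ContDiff Topology RealInnerProductSpace
open Set Filter

variable {n : ℕ}

variable {Ω : Set (E n)} {ρ : E n → ℝ}

/-- the radial profile of the upper barrier -/
noncomputable def prof (δ M r : ℝ) : ℝ := r - δ / M * Real.exp (M * r)

theorem CG5_tan (u v : ℝ) : Real.exp u * (1 + (v - u)) ≤ Real.exp v := by
  have h1 := Real.add_one_le_exp (v - u)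
  have h2 : Real.exp v = Real.exp u * Real.exp (v - u) := by
    rw [← Real.exp_add]
    ring_nf
  rw [h2]
  exact mul_le_mul_of_nonneg_left (by linarith) (Real.exp_pos u).le

theorem CG5_prof {δ M : ℝ} (hδ : 0 < δ) (hM : 0 < M) (R ε : ℝ) :
    (R - ε) * (1 - δ * Real.exp (M * R)) ≤ prof δ M R - prof δ M ε := by
  have h1 := mul_le_mul_of_nonneg_left (CG5_tan (M * R) (M * ε)) (div_pos hδ hM).le
  have h2 : δ / M * (Real.exp (M * R) * (1 + (M * ε - M * R))) =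
      δ / M * Real.exp (M * R) - (R - ε) * (δ * Real.exp (M * R)) := by
    field_simp
    ring
  unfold prof
  linarith

theorem CG5_quad {δ M R ε : ℝ} (hδ : 0 < δ) (hR : M * (δ * Real.exp (M * R)) ≤ 1)
    (hε : M * (δ * Real.exp (M * ε)) ≤ 1) :
    (R - ε) * (1 - δ * Real.exp (M * ε)) - (R - ε) ^ 2 ≤ (R - ε) * (1 - δ * Real.exp (M * R)) := by
  rcases le_total ε R with h | h
  · have h1 := mul_le_mul_of_nonneg_left (CG5_tan (M * R) (M * ε)) hδ.le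
    have h2 := mul_le_mul_of_nonneg_left hR (sub_nonneg.2 h)
    have h3 : δ * Real.exp (M * R) - δ * Real.exp (M * ε) ≤ R - ε := by nlinarith
    nlinarith [mul_le_mul_of_nonneg_left h3 (sub_nonneg.2 h)]
  · have h1 := mul_le_mul_of_nonneg_left (CG5_tan (M * ε) (M * R)) hδ.le
    have h2 := mul_le_mul_of_nonneg_left hε (sub_nonneg.2 h)
    have h3 : δ * Real.exp (M * ε) - δ * Real.exp (M * R) ≤ ε - R := by nlinarith
    nlinarith [mul_le_mul_of_nonneg_left h3 (sub_nonneg.2 h)]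

/-- The gain of the cone over its tangent plane, `d = ‖h‖`, `t = ⟪η, h⟫`. -/
theorem CG5_gain {θ ε K d t R : ℝ} (h0 : 0 < θ) (h1 : θ < 1) (hε : 0 < ε)
    (hK : ε * (80 * K) = θ ^ 2) (hn : θ * d ≤ 4 * ε) (ht : |t| ≤ (1 - θ / 4) * d)
    (hR : R ^ 2 = d ^ 2 + 2 * ε * t + ε ^ 2) (hR1 : ε + t ≤ R) (hR2 : R ≤ d + ε) :
    2 * K * d ^ 2 ≤ R - ε - t := by
  have a1 : t ^ 2 ≤ ((1 - θ / 4) * d) ^ 2 := by
    rw [← sq_abs t]
    exact pow_le_pow_left₀ (abs_nonneg _) ht 2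
  have a2 : θ / 4 * d ^ 2 ≤ d ^ 2 - t ^ 2 := by
    have : 0 ≤ θ * (4 - θ) * d ^ 2 := by
      have : 0 ≤ 4 - θ := by linarith
      positivity
    nlinarith
  have a3 : d ^ 2 - t ^ 2 ≤ (R - ε - t) * (2 * R) := by nlinarith [sq_nonneg (R - ε - t)]
  have a4 : θ * R ≤ 5 * ε := by nlinarith
  have a5 : (R - ε - t) * (θ * R) ≤ (R - ε - t) * (5 * ε) :=
    mul_le_mul_of_nonneg_left a4 (by linarith)
  have a6 := mul_le_mul_of_nonneg_left (a2.trans a3) h0.le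
  have a7 : ε * (2 * K * d ^ 2) ≤ ε * (R - ε - t) := by
    have : ε * (2 * K * d ^ 2) = θ ^ 2 / 40 * d ^ 2 := by
      rw [← hK]
      ring
    nlinarith
  exact le_of_mul_le_mul_left a7 hε

/-- The direction of the barrier. -/
theorem CG5_eta {ν a : E n} (hν : ‖ν‖ = 1) (ha : ⟪ν, a⟫ = 0) {θ w : ℝ} (h0 : 0 < θ) (h1 : θ < 1)
    (haθ : ‖a‖ ≤ 1 - θ) (hw : 1 - θ / 2 ≤ w) : ∃ (b : E n) (s : ℝ), w • b = a ∧ ⟪ν, b⟫ = 0 ∧
      ‖b‖ ≤ 1 - θ / 2 ∧ θ / 2 ≤ s ∧ s ≤ 1 ∧ ‖b + s • ν‖ = 1 := by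
  have hw0 : 0 < w := by linarith
  have hb : ‖w⁻¹ • a‖ ≤ 1 - θ / 2 := by
    rw [norm_smul, norm_inv, Real.norm_of_nonneg hw0.le, inv_mul_le_iff₀ hw0]
    nlinarith [mul_le_mul_of_nonneg_right hw (show 0 ≤ 1 - θ / 2 by linarith)]
  have hb0 : ⟪ν, w⁻¹ • a⟫ = 0 := by rw [real_inner_smul_right, ha, mul_zero]
  have hb2 : ‖w⁻¹ • a‖ ^ 2 ≤ (1 - θ / 2) ^ 2 := pow_le_pow_left₀ (norm_nonneg _) hb 2
  have hb3 : (θ / 2) ^ 2 ≤ 1 - ‖w⁻¹ • a‖ ^ 2 := by nlinarith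
  refine ⟨w⁻¹ • a, Real.sqrt (1 - ‖w⁻¹ • a‖ ^ 2), smul_inv_smul₀ hw0.ne' a, hb0, hb,
    Real.le_sqrt_of_sq_le hb3, Real.sqrt_le_one.2 (by nlinarith [sq_nonneg ‖w⁻¹ • a‖]), ?_⟩
  rw [← sq_eq_sq₀ (norm_nonneg _) zero_le_one, norm_add_sq_real, real_inner_smul_right,
    real_inner_comm, hb0, norm_smul _ ν, hν, mul_one, Real.norm_eq_abs, sq_abs,
    Real.sq_sqrt ((sq_nonneg _).trans hb3)]
  ring

/-- the radial barrier dominates the boundary data -/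
theorem upper_bdry (h : Dom Ω ρ) (θ C₀ : ℝ) (h0 : 0 < θ) (h1 : θ < 1) :
    ∃ δ M ε ε' : ℝ, 0 < δ ∧ 0 < M ∧ 0 < ε ∧ 0 < ε' ∧ 2 * (n : ℝ) ≤ M * ε' ∧
      ∀ φ : E n → ℝ, PhiB Ω φ C₀ →
        (∀ x ∈ frontier Ω, ∀ y ∈ frontier Ω, |φ y - φ x| ≤ (1 - θ) * ‖y - x‖) →
        ∀ x ∈ frontier Ω, ‖aT ρ φ x‖ ≤ 1 - θ → ∃ η : E n, ‖η‖ = 1 ∧ 0 ≤ ⟪nin ρ x, η⟫ ∧
          (1 - δ * Real.exp (M * ε)) • pr (nin ρ x) η = aT ρ φ x ∧
          (∀ y ∈ closure Ω, ε' ≤ ‖y - x + ε • η‖ ∧ δ * Real.exp (M * ‖y - x + ε • η‖) ≤ 1 / 2) ∧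
          ∀ y ∈ frontier Ω, φ y - φ x ≤ prof δ M ‖y - x + ε • η‖ - prof δ M ε := by
  obtain ⟨D, hD, hDb⟩ := h.exists_bound
  obtain ⟨m, C, r, -, hC, -, -, hCb⟩ := h.consts
  obtain ⟨K, hK⟩ : ∃ K : ℝ, K = |C₀| * (1 + C) + 1 + C := ⟨_, rfl⟩
  have hK1 : 0 ≤ |C₀| * (1 + C) := by positivity
  have hK0 : 0 < K := by linarith
  obtain ⟨ε, hε⟩ : ∃ ε : ℝ, ε = θ ^ 2 / (80 * K) := ⟨_, rfl⟩
  have hε0 : 0 < ε := by rw [hε]; positivity
  have hεK : ε * (80 * K) = θ ^ 2 := by rw [hε]; field_simp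
  have hε1 : ε ≤ 1 := by nlinarith
  obtain ⟨M, hM⟩ : ∃ M : ℝ, M = 2 * (n + 1) / (ε * (θ / 2)) := ⟨_, rfl⟩
  have hM0 : 0 < M := by rw [hM]; positivity
  have hMε : M * (ε * (θ / 2)) = 2 * (n + 1) := by rw [hM]; field_simp
  obtain ⟨δ, hδ⟩ : ∃ δ : ℝ, δ = min (θ / 2) M⁻¹ / Real.exp (M * (2 * D + 1)) := ⟨_, rfl⟩
  have hmin : 0 < min (θ / 2) M⁻¹ := lt_min (by positivity) (by positivity)
  have hδ0 : 0 < δ := by rw [hδ]; positivity
  have hδr : ∀ r ≤ 2 * D + 1, δ * Real.exp (M * r) ≤ θ / 2 ∧ M * (δ * Real.exp (M * r)) ≤ 1 := by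
    intro r hr
    have e1 : δ * Real.exp (M * r) ≤ min (θ / 2) M⁻¹ := by
      rw [hδ, div_mul_eq_mul_div, div_le_iff₀ (Real.exp_pos _)]
      exact mul_le_mul_of_nonneg_left
        (Real.exp_le_exp.2 (mul_le_mul_of_nonneg_left hr hM0.le)) hmin.le
    refine ⟨e1.trans (min_le_left _ _), ?_⟩
    exact (mul_le_mul_of_nonneg_left (e1.trans (min_le_right _ _)) hM0.le).trans_eq
      (mul_inv_cancel₀ hM0.ne')
  refine ⟨δ, M, ε, ε * (θ / 2), hδ0, hM0, hε0, by positivity, by linarith, ?_⟩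
  intro φ hφ hlip x hx ha
  have hν := h.norm_nin hx
  have hx' := h.frontier_sub hx
  have hνa : ⟪nin ρ x, aT ρ φ x⟫ = 0 := by
    rw [aT, pr, inner_sub_right, real_inner_smul_right, real_inner_self_eq_norm_sq, hν]
    ring
  have hδε := hδr ε (by linarith)
  obtain ⟨b, s, hb1, hb2, hb3, hs1, hs2, hη⟩ :=
    CG5_eta (w := 1 - δ * Real.exp (M * ε)) hν hνa h0 h1 ha (by linarith [hδε.1])
  have hνη : ⟪nin ρ x, b + s • nin ρ x⟫ = s := by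
    rw [inner_add_right, hb2, real_inner_smul_right, real_inner_self_eq_norm_sq, hν]
    ring
  have hεη : ‖ε • (b + s • nin ρ x)‖ = ε := by
    rw [norm_smul, hη, mul_one, Real.norm_of_nonneg hε0.le]
  have hup : ∀ y, ‖y - x + ε • (b + s • nin ρ x)‖ ≤ ‖y - x‖ + ε := fun y =>
    (norm_add_le _ _).trans_eq (by rw [hεη])
  have hδy : ∀ y ∈ closure Ω, ‖y - x + ε • (b + s • nin ρ x)‖ ≤ 2 * D + 1 := fun y hy => by
    linarith [hup y, norm_sub_le y x, hDb y hy, hDb x hx']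
  refine ⟨b + s • nin ρ x, hη, by rw [hνη]; linarith, ?_, fun y hy => ⟨?_, ?_⟩, fun y hy => ?_⟩
  · rw [pr, hνη, add_sub_cancel_right, hb1]
  · have e1 := real_inner_le_norm (nin ρ x) (y - x + ε • (b + s • nin ρ x))
    rw [hν, one_mul, inner_add_right, real_inner_smul_right, hνη] at e1
    linarith [h.support hx hy, mul_le_mul_of_nonneg_left hs1 hε0.le]
  · linarith [(hδr _ (hδy y hy)).1]
  have hy' := h.frontier_sub hy
  have hδR := hδr _ (hδy y hy')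
  have hR2 := hup y
  have hd := norm_nonneg (y - x)
  refine le_trans ?_ (CG5_prof hδ0 hM0 _ _)
  have hlow : ‖y - x‖ - ε ≤ ‖y - x + ε • (b + s • nin ρ x)‖ := by
    have e1 := norm_sub_le (y - x + ε • (b + s • nin ρ x)) (ε • (b + s • nin ρ x))
    rw [add_sub_cancel_right, hεη] at e1
    linarith
  have hlow' : ε - ‖y - x‖ ≤ ‖y - x + ε • (b + s • nin ρ x)‖ := by
    have e1 := norm_sub_le (y - x + ε • (b + s • nin ρ x)) (y - x)
    rw [add_sub_cancel_left, hεη] at e1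
    linarith
  have hRsq : ‖y - x + ε • (b + s • nin ρ x)‖ ^ 2 =
      ‖y - x‖ ^ 2 + 2 * ε * ⟪b + s • nin ρ x, y - x⟫ + ε ^ 2 := by
    rw [norm_add_sq_real, hεη, real_inner_smul_right, real_inner_comm]
    ring
  have hR1 : ε + ⟪b + s • nin ρ x, y - x⟫ ≤ ‖y - x + ε • (b + s • nin ρ x)‖ := by
    have e1 := real_inner_le_norm (b + s • nin ρ x) (y - x + ε • (b + s • nin ρ x))
    rw [hη, one_mul, inner_add_right, real_inner_smul_right, real_inner_self_eq_norm_sq, hη] at e1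
    linarith
  have ht : ⟪b + s • nin ρ x, y - x⟫ = ⟪b, y - x⟫ + s * ⟪nin ρ x, y - x⟫ := by
    rw [inner_add_left, real_inner_smul_left]
  generalize ‖y - x + ε • (b + s • nin ρ x)‖ = R at *
  generalize ⟪b + s • nin ρ x, y - x⟫ = t at *
  rcases le_total (4 * ε) (θ * ‖y - x‖) with hf | hf
  · have e1 := (le_abs_self _).trans (hlip x hx y hy)
    have e2 : (1 - θ / 2) * ‖y - x‖ ≤ R - ε := by linarith
    have e3 : (1 - θ / 2) * ‖y - x‖ * (1 - θ / 2) ≤ (R - ε) * (1 - δ * Real.exp (M * R)) :=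
      mul_le_mul e2 (by linarith [hδR.1]) (by linarith)
        (le_trans (mul_nonneg (by linarith) hd) e2)
    have e4 : (1 - θ / 2) * ‖y - x‖ * (1 - θ / 2) = (1 - θ) * ‖y - x‖ + θ ^ 2 * ‖y - x‖ / 4 := by
      ring
    linarith only [e1, e3, e4, mul_nonneg (sq_nonneg θ) hd]
  have n0 := h.support hx hy'
  have n1 := ((hCb x hx).2.2.2.1 y hy).1
  have hCd : C * ‖y - x‖ ≤ θ / 4 := by
    have e1 : θ * (C * ‖y - x‖) ≤ θ * (θ / 4) := by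
      have e2 := mul_le_mul_of_nonneg_left hf hC.le
      have e3 : ε * C ≤ ε * K := mul_le_mul_of_nonneg_left (by linarith) hε0.le
      linarith only [e2, e3, hεK, mul_pos hε0 hK0]
    exact le_of_mul_le_mul_left e1 h0
  have n2 : s * ⟪nin ρ x, y - x⟫ ≤ θ / 4 * ‖y - x‖ := by
    have e1 := mul_le_mul_of_nonneg_right hs2 n0
    have e2 := mul_le_mul_of_nonneg_right hCd hd
    linarith only [e1, e2, n1]
  have n3 : 0 ≤ s * ⟪nin ρ x, y - x⟫ := mul_nonneg (by linarith) n0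
  have n4 := abs_le.1 ((abs_real_inner_le_norm b (y - x)).trans
    (mul_le_mul_of_nonneg_right hb3 hd))
  have n5 : |t| ≤ (1 - θ / 4) * ‖y - x‖ := by
    rw [abs_le]
    constructor <;> linarith only [n4.1, n4.2, mul_nonneg h0.le hd, n2, n3, ht]
  have g := CG5_gain h0 h1 hε0 hεK hf n5 hRsq hR1 hR2
  have q := CG5_quad hδ0 hδR.2 hδε.2
  have q2 : (R - ε) ^ 2 ≤ ‖y - x‖ ^ 2 := sq_le_sq' (by linarith) (by linarith)
  have tay := (taylor_convex (hφ.1.of_le (by norm_num)) h.convex_closure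
    (fun z hz => (hφ.2 z hz).2.1.trans (le_abs_self C₀))
    (fun z hz => (hφ.2 z hz).2.2.1.trans (le_abs_self C₀)) hx' hy').2
  have p1 : fderiv ℝ φ x (y - x) = ⟪aT ρ φ x, y - x⟫ +
      ⟪nin ρ x, shp (d1 φ x)⟫ * ⟪nin ρ x, y - x⟫ := by
    rw [aT, pr, inner_sub_left, real_inner_smul_left, inner_shp, sub_add_cancel]
    rfl
  have p2 : ⟪nin ρ x, shp (d1 φ x)⟫ ≤ |C₀| := by
    have e1 := real_inner_le_norm (nin ρ x) (shp (d1 φ x))
    rw [hν, one_mul, norm_shp] at e1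
    exact e1.trans ((hφ.2 x hx').2.1.trans (le_abs_self C₀))
  have p3 : ⟪nin ρ x, shp (d1 φ x)⟫ * ⟪nin ρ x, y - x⟫ ≤ |C₀| * (C * ‖y - x‖ ^ 2) :=
    mul_le_mul p2 n1 n0 (abs_nonneg _)
  have p4 : ⟪aT ρ φ x, y - x⟫ = (1 - δ * Real.exp (M * ε)) * ⟪b, y - x⟫ := by
    rw [← hb1, real_inner_smul_left]
  have p5 := (le_abs_self _).trans tay
  have hw : 1 / 2 ≤ 1 - δ * Real.exp (M * ε) := by linarith [hδε.1]
  have p6 : 1 / 2 * (2 * K * ‖y - x‖ ^ 2) ≤ (1 - δ * Real.exp (M * ε)) * (R - ε - t) :=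
    mul_le_mul hw g (by positivity) (by linarith)
  have p7 : 0 ≤ (1 - δ * Real.exp (M * ε)) * (s * ⟪nin ρ x, y - x⟫) :=
    mul_nonneg (by linarith) n3
  have p8 : (R - ε) * (1 - δ * Real.exp (M * ε)) = (1 - δ * Real.exp (M * ε)) * (R - ε - t) +
      (1 - δ * Real.exp (M * ε)) * ⟪b, y - x⟫ +
        (1 - δ * Real.exp (M * ε)) * (s * ⟪nin ρ x, y - x⟫) := by
    rw [ht]
    ring
  have p9 : K * ‖y - x‖ ^ 2 = |C₀| * ‖y - x‖ ^ 2 + |C₀| * (C * ‖y - x‖ ^ 2) + ‖y - x‖ ^ 2 +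
      C * ‖y - x‖ ^ 2 := by
    rw [hK]
    ring
  have p10 : 0 ≤ C * ‖y - x‖ ^ 2 := by positivity
  linarith

end Pool.Agent.Mink.C
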