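import Pool.Agent.Lib.MP_88c759_an.Mink.CP1
import Pool.Agent.Lib.MP_88c759_an.Mink.CF2

set_option maxSynthPendingDepth 3

namespace Pool.Agent.Mink.C

open scoped ContDiff Topology RealInnerProductSpace
open Set Filter

variable {n : ℕ}

theorem CP2_sum (i : Fin n) (f : Fin n → ℝ) : ∑ c, dl i c * f c = f i := by
  simp [dl]

theorem CP2_sum' (l : Fin n) (f κ : Fin n → ℝ) :
    ∑ c, f c * (if c = l then κ c else 0) = f l * κ l := by
  simp

theorem CP2_alg {w W : ℝ} {κ b : Fin n → ℝ} {V : Fin n → Fin n → Fin n → ℝ}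
    {z : Fin n → Fin n → ℝ} {a : Fin n} {M0 A B H2 : Fin n → Fin n → ℝ}
    (hV : ∀ i l m, V i l m = V l i m ∧ V i l m = V i m l) (hW : W = W2 w κ b V a)
    (hH : ∀ i, H2 i i = z i a)
    (h0 : ∀ i l, ∑ c, dl i c * M0 c l = if i = l then κ i else 0)
    (h1 : ∀ i l, ∑ c, (-(κ a / w * dl a i * b c + b i * (κ a / w * dl a c)) * M0 c l
      + dl i c * A c l) = κ a * b a * (κ i / w * dl i l) + w * V a i l)
    (h2 : ∀ i l, ∑ c, (-(V a a i * b c + 2 * (κ a / w * dl a i) * (κ a / w * dl a c)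
      + b i * V a a c) * M0 c l
      + 2 * -(κ a / w * dl a i * b c + b i * (κ a / w * dl a c)) * A c l + dl i c * B c l)
      = W * (κ i / w * dl i l) + 2 * (κ a * b a) * V a i l + w * H2 i l) :
    (∀ i l, M0 i l = if i = l then κ i else 0) ∧ (∀ i l, A i l = M1 w κ b V i l a) ∧
      ∀ i, B i i = M2 w κ b V z i a := by
  have e0 : ∀ i l, M0 i l = if i = l then κ i else 0 := fun i l => by
    rw [← h0 i l, CP2_sum i fun c => M0 c l]
  have e1 : ∀ i l, A i l = M1 w κ b V i l a := by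
    intro i l
    have h := h1 i l
    simp only [e0] at h
    rw [Finset.sum_add_distrib, CP2_sum', CP2_sum i fun c => A c l] at h
    have hv : V a i l = V i l a := by rw [(hV a i l).1, (hV i a l).2]
    have hk : dl a l * κ l = dl a l * κ a := by
      unfold dl
      split_ifs with h
      · rw [h]
      · simp
    have hd : dl l a = dl a l := by simp [dl, eq_comm]
    rw [M1, TT, hd, ← hv]
    linear_combination h + b i * κ a / w * hk
  refine ⟨e0, e1, fun i => ?_⟩
  have h := h2 i i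
  simp only [e0] at h
  rw [Finset.sum_add_distrib, Finset.sum_add_distrib, CP2_sum', CP2_sum i fun c => B c i] at h
  have e2 : ∑ c, 2 * -(κ a / w * dl a i * b c + b i * (κ a / w * dl a c)) * A c i =
      -(2 * κ a / w * (dl a i * (∑ m, b m * A m i) + b i * A a i)) := by
    rw [← CP2_sum a fun c => A c i, Finset.mul_sum, Finset.mul_sum, ← Finset.sum_add_distrib,
      Finset.mul_sum, ← Finset.sum_neg_distrib]
    exact Finset.sum_congr rfl fun c _ => by ring
  have hd : dl i a = dl a i := by simp [dl, eq_comm]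
  have hdd : dl a i * dl a i = dl a i := by
    unfold dl
    split_ifs <;> simp
  have hi : dl i i = 1 := by simp [dl]
  have hv1 : V a i i = V i i a := by rw [(hV a i i).1, (hV i a i).2]
  have hv2 : V a a i = V i a a := by rw [(hV a a i).2, (hV a i a).1]
  rw [e2, hi, hH, hv1, hv2, hW] at h
  simp only [e1] at h
  rw [M2, hd]
  linear_combination h + 2 * κ a ^ 2 / w ^ 2 * κ i * hdd

theorem J2_SS (k : ℕ) (hk : 2 ≤ k) {u : E n → ℝ} {x : E n} (hu : ContDiffAt ℝ 4 u x)
    (hp : ‖d1 u x‖ < 1) {e : Fin n → E n} {κ : Fin n → ℝ} (hd : Diag (d1 u x) (d2 u x) e κ)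
    (a : Fin n) :
    J2 (fun t : ℝ => SS k (d1 u (x + t • e a)) (d2 u (x + t • e a))) (es Finset.univ k κ)
      (S1 k (Wp (d1 u x)) κ (fun i => d1 u x (e i)) (V3 u x e) a)
      (S2 k (Wp (d1 u x)) κ (fun i => d1 u x (e i)) (V3 u x e) (z4 u x e) a) := by
  have hu3 : ContDiffAt ℝ 3 u x := hu.of_le (by norm_cast)
  have hP := J2_d1 hu3 (e a)
  have hR := J2_d2 hu (e a)
  have hW := J2_W hu3 hp hd a
  have hw : Wp (d1 u x) ≠ 0 := (Wp_pos hp).ne'
  have hr : ∀ i l, d2 u x (e i) (e l) = κ i / Wp (d1 u x) * dl i l := by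
    intro i l
    have := hd.2 i l
    unfold dl
    split_ifs at this ⊢
    · rw [← this]
      field_simp
    · rw [mul_zero]
      exact (mul_eq_zero.1 this).resolve_left hw
  have hPi : ∀ i, J2 (fun t : ℝ => d1 u (x + t • e a) (e i)) (d1 u x (e i))
      (κ a / Wp (d1 u x) * dl a i) (V3 u x e a a i) := fun i =>
    (hP.clm (ContinuousLinearMap.apply ℝ ℝ (e i))).of_eq rfl (hr a i) rfl
  have hG : ∀ i c, J2 (fun t : ℝ => gp (d1 u (x + t • e a)) (e i) (e c)) (dl i c)
      (-(κ a / Wp (d1 u x) * dl a i * d1 u x (e c) + d1 u x (e i) * (κ a / Wp (d1 u x) * dl a c)))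
      (-(V3 u x e a a i * d1 u x (e c) + 2 * (κ a / Wp (d1 u x) * dl a i) *
        (κ a / Wp (d1 u x) * dl a c) + d1 u x (e i) * V3 u x e a a c)) := fun i c =>
    ((J2.const ⟪e i, e c⟫).sub ((hPi i).mul (hPi c))).of_eq (hd.1 i c) (zero_sub _) (zero_sub _)
  have hRi : ∀ i l, J2 (fun t : ℝ => d2 u (x + t • e a) (e i) (e l))
      (κ i / Wp (d1 u x) * dl i l) (V3 u x e a i l) (d4 u x (e a) (e a) (e i) (e l)) := fun i l =>
    ((hR.clm (ContinuousLinearMap.apply ℝ (B1 n) (e i))).clm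
      (ContinuousLinearMap.apply ℝ ℝ (e l))).of_eq (hr i l) rfl rfl
  have hM : ∀ i l, ∃ A B, J2 (fun t : ℝ =>
      Mf (d1 u x) e (d1 u (x + t • e a)) (d2 u (x + t • e a)) i l)
      (Mf (d1 u x) e (d1 u x) (d2 u x) i l) A B := by
    intro i l
    have h1 : ContDiffAt ℝ 2 (fun q : B1 n × B2 n => Mf (d1 u x) e q.1 q.2 i l) (d1 u x, d2 u x) :=
      (contDiffAt_Mf (d1 u x) e hp (d2 u x) i l).of_le (by norm_cast)
    have h2 := J2.comp h1 (hP.prodMk hR)
    exact ⟨_, _, h2⟩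
  choose A B hM using hM
  have hev : ∀ᶠ t : ℝ in 𝓝 0, ‖d1 u (x + t • e a)‖ < 1 :=
    hP.continuousAt.norm.eventually_lt continuousAt_const (by simpa using hp)
  have hev2 : ∀ i l, (fun t : ℝ => ∑ c, gp (d1 u (x + t • e a)) (e i) (e c) *
      Mf (d1 u x) e (d1 u (x + t • e a)) (d2 u (x + t • e a)) c l) =ᶠ[𝓝 0]
      fun t : ℝ => Wp (d1 u (x + t • e a)) * d2 u (x + t • e a) (e i) (e l) := fun i l =>
    hev.mono fun t ht => gram_mul_Mf hd.1 ht _ i l
  have hS := fun i l => J2.sum Finset.univ fun c _ => (hG i c).mul (hM c l)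
  have hu' := fun i l => ((hS i l).congr (hev2 i l)).unique (hW.mul (hRi i l))
  obtain ⟨e0, e1, e2⟩ := CP2_alg (z := z4 u x e) (b := fun i => d1 u x (e i))
    (H2 := fun i l => d4 u x (e a) (e a) (e i) (e l)) (V3_sym hu3 e) rfl (fun _ => rfl)
    (fun i l => (hu' i l).1.trans (by rw [← hr, hd.2])) (fun i l => (hu' i l).2.1)
    fun i l => (hu' i l).2.2
  have h := J2_sM k hk
    (M := fun t : ℝ => Mf (d1 u x) e (d1 u (x + t • e a)) (d2 u (x + t • e a)))
    fun i l => (hM i l).of_eq (e0 i l) (e1 i l) rfl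
  simp only [e2] at h
  refine (h.congr (Eventually.of_forall fun t => (SS_eq_Mf hd.1 k _ _).symm)).of_eq rfl ?_ rfl
  refine Finset.sum_congr rfl fun i _ => ?_
  rw [M1]
  unfold dl
  split_ifs with hi
  · rw [hi, sub_self, mul_zero, add_zero]
  · simp

end Pool.Agent.Mink.C
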