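import Pool.Agent.Lib.MP_88c759_an.Mink.CE1
import Pool.Agent.Lib.MP_88c759_an.Mink.CDef2

set_option maxSynthPendingDepth 3

namespace Pool.Agent.Mink.C

open scoped ContDiff Topology RealInnerProductSpace
open Set Filter

variable {n : ℕ}

theorem TT_sym (w : ℝ) (κ b : Fin n → ℝ) {V : Fin n → Fin n → Fin n → ℝ}
    (hV : ∀ i l m, V i l m = V l i m ∧ V i l m = V i m l) (i l a : Fin n) :
    TT w κ b V i l a = TT w κ b V l i a ∧ TT w κ b V i l a = TT w κ b V i a l := by
  have hd : ∀ a b : Fin n, dl a b = dl b a := fun a b => by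
    unfold dl
    by_cases h : a = b
    · simp [h]
    · simp [h, Ne.symm h]
  have hk : ∀ a b : Fin n, dl a b * κ a = dl a b * κ b := fun a b => by
    unfold dl
    by_cases h : a = b
    · simp [h]
    · simp [h]
  unfold TT
  constructor
  · rw [(hV i l a).1, hd l i]
    congr 2
    linear_combination (κ a * b a) * hk i l
  · rw [(hV i l a).2, hd a i, hd l i, hd l a]
    congr 2
    linear_combination (κ a * b a) * hk i l - (κ l * b l) * hk i a + (κ i * b i) * hk a l

theorem sum_fk_mul (k : ℕ) (hk : 1 ≤ k) (κ : Fin n → ℝ) :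
    ∑ a, fk k κ a * κ a = k * es Finset.univ k κ := by
  obtain ⟨j, rfl⟩ : ∃ j, k = j + 1 := ⟨k - 1, by omega⟩
  have h := sum_mul_es_erase (Finset.univ : Finset (Fin n)) j κ
  unfold fk
  rw [Nat.add_sub_cancel]
  push_cast
  rw [← h]
  exact Finset.sum_congr rfl fun a _ => mul_comm _ _

theorem sum_fk (k : ℕ) (hk : 1 ≤ k) (κ : Fin n → ℝ) :
    ∑ a, fk k κ a = ((n : ℝ) - k + 1) * es Finset.univ (k - 1) κ := by
  obtain ⟨j, rfl⟩ : ∃ j, k = j + 1 := ⟨k - 1, by omega⟩
  have h := sum_es_erase (Finset.univ : Finset (Fin n)) j κ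
  unfold fk
  rw [Nat.add_sub_cancel, h, Finset.card_univ, Fintype.card_fin]
  push_cast
  ring

theorem fk_sub (k : ℕ) (hk : 2 ≤ k) (κ : Fin n → ℝ) {p q : Fin n} (hpq : p ≠ q) :
    fk k κ q - fk k κ p = (κ p - κ q) * sk k κ p q := by
  obtain ⟨j, rfl⟩ : ∃ j, k = j + 2 := ⟨k - 2, by omega⟩
  have h := es_erase_sub (Finset.mem_univ p) (Finset.mem_univ q) hpq j κ
  unfold fk sk
  rw [Nat.add_sub_cancel, show j + 2 - 1 = j + 1 from rfl]
  exact h

theorem sk_comm (k : ℕ) (κ : Fin n → ℝ) (p q : Fin n) : sk k κ p q = sk k κ q p := by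
  unfold sk
  rw [Finset.erase_right_comm]

theorem CP5_Y (w : ℝ) (κ b : Fin n → ℝ) {V : Fin n → Fin n → Fin n → ℝ}
    (hV : ∀ i l m, V i l m = V l i m ∧ V i l m = V i m l) (a : Fin n) :
    ∑ l, b l * TT w κ b V a a l
      = W2 w κ b V a - w * κ a ^ 2 + κ a / w * ∑ l, b l * (κ l * b l) := by
  have h : ∀ l, b l * TT w κ b V a a l = w * (b l * V l a a) + κ a / w * (b l * (κ l * b l))
      + if l = a then 2 * κ a ^ 2 * b a ^ 2 / w else 0 := fun l => by
    unfold TT dl
    rw [(hV a a l).2, (hV a l a).1]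
    by_cases h : l = a
    · subst h
      simp only [if_true]
      ring
    · simp only [if_true, if_neg h]
      ring
  simp only [h, Finset.sum_add_distrib, ← Finset.mul_sum, Finset.sum_ite_eq', Finset.mem_univ,
    if_true]
  unfold W2
  ring

theorem w_identity (k : ℕ) (hk : 1 ≤ k) {w : ℝ} (hw : 0 < w) (κ b : Fin n → ℝ)
    {V : Fin n → Fin n → Fin n → ℝ} (hV : ∀ i l m, V i l m = V l i m ∧ V i l m = V i m l) :
    ∑ a, fk k κ a * W2 w κ b V a + k * es Finset.univ k κ / w * ∑ l, b l * (κ l * b l)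
      = w * ∑ a, fk k κ a * κ a ^ 2 + ∑ l, b l * S1 k w κ b V l := by
  rw [← sum_fk_mul k hk κ]
  have h1 : ∑ l, b l * S1 k w κ b V l = ∑ a, fk k κ a * ∑ l, b l * TT w κ b V a a l := by
    unfold S1
    simp only [Finset.mul_sum]
    rw [Finset.sum_comm]
    exact Finset.sum_congr rfl fun a _ => Finset.sum_congr rfl fun l _ => by ring
  rw [h1, Finset.sum_div, Finset.sum_mul, Finset.mul_sum, ← Finset.sum_add_distrib,
    ← Finset.sum_add_distrib]
  refine Finset.sum_congr rfl fun a _ => ?_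
  rw [CP5_Y w κ b hV a]
  ring

theorem CP5_quad (k : ℕ) (hk : 2 ≤ k) (w : ℝ) (κ b : Fin n → ℝ)
    {V : Fin n → Fin n → Fin n → ℝ} (hV : ∀ i l m, V i l m = V l i m ∧ V i l m = V i m l)
    (o : Fin n) :
    ∑ p, ∑ q ∈ Finset.univ.erase p, sk k κ p q *
        (M1 w κ b V p p o * M1 w κ b V q q o - M1 w κ b V p q o * M1 w κ b V q p o)
      = ∑ p, ∑ q ∈ Finset.univ.erase p,
            sk k κ p q * (TT w κ b V p p o * TT w κ b V q q o - TT w κ b V p q o ^ 2)
        - 2 * κ o / w * (∑ p, fk k κ p * (b p * TT w κ b V o o p)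
          - fk k κ o * ∑ p, b p * TT w κ b V o o p) := by
  have hs := TT_sym w κ b hV
  set g : Fin n → ℝ := fun p => κ o / w * ((fk k κ p - fk k κ o) * (b p * TT w κ b V o o p))
    with hg
  have hg0 : g o = 0 := by simp [hg]
  have hd : ∀ p, M1 w κ b V p p o = TT w κ b V p p o := fun p => by
    unfold M1 dl
    by_cases h : p = o
    · simp [h]
    · simp [h]
  have hpq : ∀ p, ∀ q ∈ Finset.univ.erase p, sk k κ p q *
        (M1 w κ b V p p o * M1 w κ b V q q o - M1 w κ b V p q o * M1 w κ b V q p o)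
      = sk k κ p q * (TT w κ b V p p o * TT w κ b V q q o - TT w κ b V p q o ^ 2)
        - ((if q = o then g p else 0) + if p = o then g q else 0) := fun p q hq => by
    have hne : q ≠ p := Finset.ne_of_mem_erase hq
    rw [hd, hd]
    unfold M1 dl
    rw [← (hs p q o).1]
    by_cases h1 : q = o
    · subst h1
      simp only [if_true, if_neg hne.symm, hg]
      rw [fk_sub k hk κ hne, sk_comm k κ q p, (hs p q q).1, ← (hs q q p).2]
      ring
    · by_cases h2 : p = o
      · subst h2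
        simp only [if_true, if_neg hne, hg]
        rw [fk_sub k hk κ hne.symm, ← (hs p p q).2]
        ring
      · simp only [if_neg h1, if_neg h2]
        ring
  have hA : ∀ p, ∑ q ∈ Finset.univ.erase p, (if q = o then g p else 0) = g p := fun p => by
    rw [Finset.sum_ite_eq']
    by_cases h : p = o
    · simp [h, hg0]
    · simp [Ne.symm h]
  have hB : ∑ p, ∑ q ∈ Finset.univ.erase p, (if p = o then g q else 0) = ∑ q, g q := by
    rw [← Finset.add_sum_erase _ g (Finset.mem_univ o), hg0, zero_add,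
      Finset.sum_eq_single o]
    · simp
    · intro p _ hp
      simp [hp]
    · simp
  rw [Finset.sum_congr rfl fun p _ => Finset.sum_congr rfl (hpq p)]
  simp only [Finset.sum_sub_distrib, Finset.sum_add_distrib, hA]
  rw [hB]
  have hC : ∑ p, g p = κ o / w * (∑ p, fk k κ p * (b p * TT w κ b V o o p)
          - fk k κ o * ∑ p, b p * TT w κ b V o o p) := by
    rw [Finset.mul_sum, ← Finset.sum_sub_distrib, Finset.mul_sum]
    exact Finset.sum_congr rfl fun p _ => by simp only [hg]; ring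
  rw [hC]
  ring

theorem CP5_term {w : ℝ} (hw : 0 < w) (κ b : Fin n → ℝ)
    {V : Fin n → Fin n → Fin n → ℝ}
    (hV : ∀ i l m, V i l m = V l i m ∧ V i l m = V i m l) {z : Fin n → Fin n → ℝ}
    (hz : ∀ i a, z i a = z a i) (o a : Fin n) :
    R2 w κ b V z o a + κ a / w * ∑ l, b l * TT w κ b V o o l
      = M2 w κ b V z a o - 2 * κ o / w * (b a * TT w κ b V o o a
          - dl a o * ∑ p, b p * TT w κ b V o o p)
        + κ o / w * ∑ l, b l * TT w κ b V a a l + κ o * κ a ^ 2 - κ o ^ 2 * κ a := by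
  have hs := TT_sym w κ b hV
  by_cases h : a = o
  · subst h
    have h1 : ∑ m, b m * M1 w κ b V m a a
        = ∑ p, b p * TT w κ b V a a p + κ a / w * ∑ p, b p ^ 2 * (κ a - κ p) := by
      rw [Finset.mul_sum, ← Finset.sum_add_distrib]
      refine Finset.sum_congr rfl fun m _ => ?_
      unfold M1 dl
      rw [(hs m a a).1, ← (hs a a m).2, if_pos rfl]
      ring
    have h2 : ∑ p ∈ Finset.univ.erase a,
        (4 * κ a / w * b p * TT w κ b V a a p + 2 * κ a ^ 2 / w ^ 2 * b p ^ 2 * (κ a - κ p))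
        = 4 * κ a / w * ∑ p, b p * TT w κ b V a a p
          + 2 * κ a ^ 2 / w ^ 2 * ∑ p, b p ^ 2 * (κ a - κ p)
          - 4 * κ a / w * b a * TT w κ b V a a a := by
      rw [Finset.sum_erase_eq_sub (Finset.mem_univ a), Finset.mul_sum, Finset.mul_sum,
        ← Finset.sum_add_distrib]
      congr 1
      · exact Finset.sum_congr rfl fun p _ => by ring
      · ring
    have h3 : M1 w κ b V a a a = TT w κ b V a a a := by
      unfold M1
      ring
    have h4 : dl a a = 1 := if_pos rfl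
    unfold R2 M2
    rw [h1, h2, h3, h4]
    ring
  · have h3 : M1 w κ b V o a o = TT w κ b V o o a := by
      unfold M1
      rw [← (hs o o a).2]
      ring
    have h4 : dl a o = 0 := if_neg h
    have h5 : dl o a = 0 := if_neg (Ne.symm h)
    unfold R2 M2
    rw [h3, h4, h5, CP5_Y w κ b hV o, CP5_Y w κ b hV a, hz o a, (hV o o a).2, (hV o a o).1,
      (hV o a a).1, ← (hV a a o).2]
    field_simp
    ring

/-- the Simons type identity -/
theorem simons (k : ℕ) (hk : 2 ≤ k) {w : ℝ} (hw : 0 < w) (κ b : Fin n → ℝ)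
    (hb : w ^ 2 = 1 + ∑ a, b a ^ 2) {V : Fin n → Fin n → Fin n → ℝ}
    (hV : ∀ i l m, V i l m = V l i m ∧ V i l m = V i m l) {z : Fin n → Fin n → ℝ}
    (hz : ∀ i a, z i a = z a i) (o : Fin n) :
    ∑ a, fk k κ a * R2 w κ b V z o a + k * es Finset.univ k κ / w * ∑ l, b l * TT w κ b V o o l
      = S2 k w κ b V z o + κ o / w * ∑ l, b l * S1 k w κ b V l
        - ∑ p, ∑ q ∈ Finset.univ.erase p,
            sk k κ p q * (TT w κ b V p p o * TT w κ b V q q o - TT w κ b V p q o ^ 2)
        + κ o * ∑ a, fk k κ a * κ a ^ 2 - κ o ^ 2 * (k * es Finset.univ k κ) := by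
  have hs := TT_sym w κ b hV
  have h1 : ∑ l, b l * S1 k w κ b V l = ∑ a, fk k κ a * ∑ l, b l * TT w κ b V a a l := by
    unfold S1
    simp only [Finset.mul_sum]
    rw [Finset.sum_comm]
    exact Finset.sum_congr rfl fun a _ => Finset.sum_congr rfl fun l _ => by ring
  have h2 := CP5_quad k hk w κ b hV o
  have h3 : fk k κ o * ∑ p, b p * TT w κ b V o o p
      = ∑ a, fk k κ a * (dl a o * ∑ p, b p * TT w κ b V o o p) := by
    unfold dl
    simp
  have h4 : ∑ a, fk k κ a * R2 w κ b V z o a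
        + (∑ a, fk k κ a * κ a) / w * ∑ l, b l * TT w κ b V o o l
      = ∑ i, fk k κ i * M2 w κ b V z i o
        - 2 * κ o / w * (∑ p, fk k κ p * (b p * TT w κ b V o o p)
          - ∑ a, fk k κ a * (dl a o * ∑ p, b p * TT w κ b V o o p))
        + κ o / w * ∑ a, fk k κ a * ∑ l, b l * TT w κ b V a a l
        + κ o * ∑ a, fk k κ a * κ a ^ 2 - κ o ^ 2 * ∑ a, fk k κ a * κ a := by
    rw [Finset.sum_div, Finset.sum_mul, ← Finset.sum_sub_distrib, Finset.mul_sum, Finset.mul_sum,
      Finset.mul_sum, Finset.mul_sum, ← Finset.sum_add_distrib, ← Finset.sum_sub_distrib,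
      ← Finset.sum_add_distrib, ← Finset.sum_add_distrib, ← Finset.sum_sub_distrib]
    refine Finset.sum_congr rfl fun a _ => ?_
    linear_combination fk k κ a * CP5_term hw κ b hV hz o a
  rw [← sum_fk_mul k (by omega) κ, h1, h4, ← h3]
  unfold S2
  linear_combination -h2

end Pool.Agent.Mink.C
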