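import Pool.Agent.Lib.MP_88c759_an.Mink.CG2
import Pool.Agent.Lib.MP_88c759_an.Mink.CP2
import Pool.Agent.Lib.MP_88c759_an.Mink.CP5
import Pool.Agent.Lib.MP_88c759_an.Mink.CF3

set_option maxSynthPendingDepth 3

namespace Pool.Agent.Mink.C

open scoped ContDiff Topology RealInnerProductSpace
open Set Filter

variable {n : ℕ}

variable {Ω : Set (E n)} {ρ : E n → ℝ}

/-- the once and twice differentiated equation at an interior point -/
theorem SolO.diff_eq (h : Dom Ω ρ) {k : ℕ} (hk : 2 ≤ k) {ψ : B1 n × ℝ × E n → ℝ} {φ u : E n → ℝ}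
    (hu : SolO k Ω ψ φ u) {x : E n} (hx : x ∈ Ω) (hψ : ContDiffAt ℝ 2 ψ (d1 u x, u x, x))
    {e : Fin n → E n} {κ : Fin n → ℝ} (hd : Diag (d1 u x) (d2 u x) e κ) :
    ‖d1 u x‖ < 1 ∧ ContDiffAt ℝ 4 u x ∧ Gam Finset.univ k κ ∧
    es Finset.univ k κ = ψ (d1 u x, u x, x) ∧ ∀ a,
      S1 k (Wp (d1 u x)) κ (fun i => d1 u x (e i)) (V3 u x e) a
        = fderiv ℝ ψ (d1 u x, u x, x) (0, d1 u x (e a), e a)
          + κ a / Wp (d1 u x) * fderiv ℝ ψ (d1 u x, u x, x) (gfl (d1 u x) (e a), 0, 0) ∧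
      S2 k (Wp (d1 u x)) κ (fun i => d1 u x (e i)) (V3 u x e) (z4 u x e) a
        = fderiv ℝ (fderiv ℝ ψ) (d1 u x, u x, x)
            ((κ a / Wp (d1 u x)) • gfl (d1 u x) (e a), d1 u x (e a), e a)
            ((κ a / Wp (d1 u x)) • gfl (d1 u x) (e a), d1 u x (e a), e a)
          + κ a / Wp (d1 u x) * fderiv ℝ ψ (d1 u x, u x, x) (0, 1, 0)
          + ∑ m, V3 u x e a a m * fderiv ℝ ψ (d1 u x, u x, x) (gfl (d1 u x) (e m), 0, 0) := by
  have hxc : x ∈ closure Ω := subset_closure hx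
  have hadm := hu.adm x hxc
  have heq := hu.eq x hxc
  rw [h.D1_eq u hx, h.D2_eq u hx] at hadm heq
  have hp : ‖d1 u x‖ < 1 := hadm.1
  have h4 : ContDiffAt ℝ 4 u x := hu.c4.contDiffAt (h.isOpen.mem_nhds hx)
  have h3 : ContDiffAt ℝ 3 u x := h4.of_le (by norm_num)
  refine ⟨hp, h4, (hd.adm_iff hp k).1 hadm, (hd.SS_eq hp k).symm.trans heq, fun a => ?_⟩
  have hev : ∀ᶠ t in 𝓝 (0:ℝ), x + t • e a ∈ Ω := by
    have hc : ContinuousAt (fun t : ℝ => x + t • e a) 0 := by fun_prop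
    exact hc.eventually (h.isOpen.mem_nhds (by simpa using hx))
  have hJ := (J2_SS k hk h4 hp hd a).congr (g := fun t : ℝ =>
      ψ (d1 u (x + t • e a), u (x + t • e a), x + t • e a)) (by
    filter_upwards [hev] with t ht
    have := hu.eq _ (subset_closure ht)
    rwa [h.D1_eq u ht, h.D2_eq u ht] at this)
  exact (hJ.unique (J2_psi h3 hp hd hψ a)).2

theorem CG7_alg (k : ℕ) (hk : 1 ≤ k) {w N : ℝ} (hw : 0 < w) (κ b : Fin n → ℝ)
    {V : Fin n → Fin n → Fin n → ℝ} (hV : ∀ i l m, V i l m = V l i m ∧ V i l m = V i m l)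
    (hb : w ^ 2 = 1 + ∑ a, b a ^ 2) (hf : ∀ a, 0 ≤ fk k κ a)
    (h1 : ∀ a, κ a * b a = -(N * w * b a))
    (h2 : ∀ a, W2 w κ b V a / w - (κ a * b a) ^ 2 / w ^ 2 + N * (κ a / w) ≤ 0) :
    N * (k * es Finset.univ k κ) * w ^ 2 ≤ -∑ a, b a * S1 k w κ b V a := by
  have hid := w_identity k hk hw κ b hV
  have hsum := sum_fk_mul k hk κ
  have hb2 : ∀ a, b a ^ 2 ≤ w ^ 2 := fun a => by
    have := Finset.single_le_sum (f := fun a => b a ^ 2) (fun i _ => sq_nonneg (b i))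
      (Finset.mem_univ a)
    linarith
  have h3 : ∀ a, fk k κ a * W2 w κ b V a + N * (fk k κ a * κ a)
      ≤ w * (fk k κ a * κ a ^ 2) := fun a => by
    have e1 : W2 w κ b V a + N * κ a ≤ w * κ a ^ 2 := by
      have e2 : (κ a * b a) ^ 2 / w ^ 2 ≤ κ a ^ 2 := by
        rw [div_le_iff₀ (by positivity), mul_pow]
        exact mul_le_mul_of_nonneg_left (hb2 a) (sq_nonneg _)
      have e3 : (W2 w κ b V a + N * κ a) / w ≤ κ a ^ 2 := by
        have := h2 a
        rw [add_div, mul_div_assoc]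
        linarith
      rw [div_le_iff₀ hw] at e3
      linarith
    have := mul_le_mul_of_nonneg_left e1 (hf a)
    linarith
  have h4 := Finset.sum_le_sum fun a (_ : a ∈ Finset.univ) => h3 a
  rw [Finset.sum_add_distrib, ← Finset.mul_sum, ← Finset.mul_sum, hsum] at h4
  have h5 : ∑ l, b l * (κ l * b l) = -(N * w * (w ^ 2 - 1)) := by
    rw [show w ^ 2 - 1 = ∑ a, b a ^ 2 by linarith, Finset.mul_sum, ← Finset.sum_neg_distrib]
    refine Finset.sum_congr rfl fun a _ => ?_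
    rw [h1 a]
    ring
  rw [h5] at hid
  have h6 : k * es Finset.univ k κ / w * -(N * w * (w ^ 2 - 1))
      = -(N * (k * es Finset.univ k κ) * (w ^ 2 - 1)) := by
    field_simp
  rw [h6] at hid
  nlinarith

theorem CG7_lin {p : B1 n} {e : Fin n → E n} (he : IsFrame p e) (hp : ‖p‖ < 1)
    (L : (B1 n × ℝ × E n) →L[ℝ] ℝ) {C N : ℝ} (hL : ‖L‖ ≤ C) (hN : 0 ≤ N) (κ : Fin n → ℝ)
    (h1 : ∀ a, κ a * p (e a) = -(N * Wp p * p (e a))) :
    -∑ a, p (e a) * (L (0, p (e a), e a) + κ a / Wp p * L (gfl p (e a), 0, 0))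
      ≤ C * Wp p ^ 2 + N * C := by
  have hw := Wp_pos hp
  have hw1 := one_le_Wp hp
  have hC : 0 ≤ C := (norm_nonneg L).trans hL
  have e1 : ∑ a, p (e a) * L (0, p (e a), e a) = L (0, Wp p ^ 2 - 1, Wp p ^ 2 • shp p) := by
    have : ((0 : B1 n), Wp p ^ 2 - 1, Wp p ^ 2 • shp p)
        = ∑ a, p (e a) • ((0 : B1 n), p (e a), e a) := by
      rw [← he.sum_b_smul hp, he.sum_b_sq hp]
      refine Prod.ext ?_ (Prod.ext ?_ ?_)
      · simp [Prod.fst_sum]
      · simp [Prod.fst_sum, Prod.snd_sum, sq]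
      · simp [Prod.snd_sum]
    rw [this, map_sum]
    exact Finset.sum_congr rfl fun a _ => by rw [map_smul, smul_eq_mul]
  have e2 : ∑ a, p (e a) * L (gfl p (e a), 0, 0) = L (p, 0, 0) := by
    have : (p, (0 : ℝ), (0 : E n)) = ∑ a, p (e a) • (gfl p (e a), (0 : ℝ), (0 : E n)) := by
      refine Prod.ext ?_ (Prod.ext ?_ ?_)
      · simpa [Prod.fst_sum] using he.covec p
      · simp [Prod.fst_sum, Prod.snd_sum]
      · simp [Prod.snd_sum]
    rw [this, map_sum]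
    exact Finset.sum_congr rfl fun a _ => by rw [map_smul, smul_eq_mul]
  have e3 : ∑ a, p (e a) * (L (0, p (e a), e a) + κ a / Wp p * L (gfl p (e a), 0, 0))
      = L (0, Wp p ^ 2 - 1, Wp p ^ 2 • shp p) - N * L (p, 0, 0) := by
    rw [← e1, ← e2, Finset.mul_sum, ← Finset.sum_sub_distrib]
    refine Finset.sum_congr rfl fun a _ => ?_
    have : p (e a) * (κ a / Wp p) = -(N * p (e a)) := by
      rw [mul_div_assoc', mul_comm, h1 a]
      field_simp
    rw [mul_add, ← mul_assoc, this]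
    ring
  have n1 : ‖((0 : B1 n), Wp p ^ 2 - 1, Wp p ^ 2 • shp p)‖ ≤ Wp p ^ 2 := by
    have hw2 : 1 ≤ Wp p ^ 2 := one_le_pow₀ hw1
    simp only [Prod.norm_def, norm_zero, max_le_iff, Real.norm_eq_abs, norm_smul, norm_shp]
    refine ⟨by positivity, abs_le.2 ⟨by linarith, by linarith⟩, ?_⟩
    rw [abs_of_nonneg (by positivity)]
    exact mul_le_of_le_one_right (by positivity) hp.le
  have n2 : ‖(p, (0 : ℝ), (0 : E n))‖ ≤ 1 := by
    simp only [Prod.norm_def, norm_zero, max_le_iff]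
    exact ⟨hp.le, by simp⟩
  have b1 : |L (0, Wp p ^ 2 - 1, Wp p ^ 2 • shp p)| ≤ C * Wp p ^ 2 :=
    (L.le_opNorm _).trans (mul_le_mul hL n1 (norm_nonneg _) hC)
  have b2 : |L (p, 0, 0)| ≤ C * 1 := (L.le_opNorm _).trans (mul_le_mul hL n2 (norm_nonneg _) hC)
  rw [e3]
  have := mul_le_mul_of_nonneg_left (abs_le.1 b2).2 hN
  have := (abs_le.1 b1).1
  linarith

/-- interior gradient estimate -/
theorem grad_int (h : Dom Ω ρ) (k : ℕ) (hk : 2 ≤ k) (M c₀ C₀ W₀ : ℝ) (hc : 0 < c₀) :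
    ∃ W : ℝ, 1 ≤ W ∧ ∀ (ψ : B1 n × ℝ × E n → ℝ) (φ u : E n → ℝ), PsiB Ω ψ M c₀ C₀ →
      SolO k Ω ψ φ u → (∀ x ∈ closure Ω, |u x| ≤ M) →
      (∀ x ∈ frontier Ω, Wp (D1 (closure Ω) u x) ≤ W₀) →
      ∀ x ∈ closure Ω, Wp (D1 (closure Ω) u x) ≤ W := by
  obtain ⟨C, hC⟩ : ∃ C : ℝ, C = max C₀ 1 := ⟨_, rfl⟩
  have hC0 : 0 < C := hC ▸ lt_of_lt_of_le one_pos (le_max_right _ _)
  have hC1 : C₀ ≤ C := hC ▸ le_max_left _ _
  have hk0 : (0 : ℝ) < k := by exact_mod_cast (by omega : 0 < k)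
  obtain ⟨N, hN⟩ : ∃ N : ℝ, N = 2 * C / (k * c₀) := ⟨_, rfl⟩
  have hN0 : 0 < N := hN ▸ by positivity
  have hNk : N * (k * c₀) = 2 * C := by rw [hN]; field_simp
  obtain ⟨B, hB⟩ : ∃ B : ℝ, B = max (max N W₀) 1 := ⟨_, rfl⟩
  have hB1 : 1 ≤ B := hB ▸ le_max_right _ _
  have hBN : N ≤ B := hB ▸ (le_max_left _ _).trans (le_max_left _ _)
  have hBW : W₀ ≤ B := hB ▸ (le_max_right _ _).trans (le_max_left _ _)
  refine ⟨B * Real.exp (N * (2 * |M|)),
    one_le_mul_of_one_le_of_one_le hB1 (Real.one_le_exp (by positivity)), ?_⟩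
  intro ψ φ u hψ hu hM hW x hx
  have hcont : ContinuousOn (fun y => Real.log (Wp (D1 (closure Ω) u y)) + N * u y)
      (closure Ω) := by
    refine ContinuousOn.add (ContinuousOn.log (fun y hy => ?_) fun y hy =>
      (Wp_pos (hu.adm y hy).1).ne') (continuousOn_const.mul hu.c2.continuousOn)
    exact ContinuousAt.comp_continuousWithinAt (f := D1 (closure Ω) u)
      (contDiffAt_Wp (hu.adm y hy).1).continuousAt (h.contOn_D1 hu.c2 y hy)
  obtain ⟨y, hy, hmax⟩ := h.isCompact.exists_isMaxOn ⟨x, hx⟩ hcont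
  have key : Wp (D1 (closure Ω) u y) ≤ B := by
    rcases h.mem_or hy with hyo | hyf
    · have hadm := hu.adm y hy
      have hsym := h.sym_D2 hu.c2 hy
      rw [h.D1_eq u hyo, h.D2_eq u hyo] at hadm
      rw [h.D2_eq u hyo] at hsym
      rw [h.D1_eq u hyo]
      obtain ⟨e, κ, hd⟩ := exists_diag hadm.1 hsym
      obtain ⟨hψ2, hψc, -, hψ1, -⟩ := hψ y hy (u y) (hM y hy) (d1 u y) hadm.1.le
      obtain ⟨hp, h4, hg, hes, hS⟩ := hu.diff_eq h hk hyo hψ2 hd
      have h3 : ContDiffAt ℝ 3 u y := h4.of_le (by norm_num)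
      have h2 : ContDiffAt ℝ 2 u y := h4.of_le (by norm_num)
      have hw := Wp_pos hp
      have hw1 := one_le_Wp hp
      have hJ : ∀ a, κ a * d1 u y (e a) / Wp (d1 u y) + N * d1 u y (e a) = 0 ∧
          W2 (Wp (d1 u y)) κ (fun i => d1 u y (e i)) (V3 u y e) a / Wp (d1 u y)
            - (κ a * d1 u y (e a)) ^ 2 / Wp (d1 u y) ^ 2 + N * d2 u y (e a) (e a) ≤ 0 := by
        intro a
        refine (((J2_W h3 hp hd a).log hw).add ((J2_u h2 (e a)).const_mul N)).of_isLocalMax ?_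
        have hev : ∀ᶠ t in 𝓝 (0:ℝ), y + t • e a ∈ Ω := by
          have hc : ContinuousAt (fun t : ℝ => y + t • e a) 0 := by fun_prop
          exact hc.eventually (h.isOpen.mem_nhds (by simpa using hyo))
        filter_upwards [hev] with t ht
        have := hmax (subset_closure ht)
        simp only [mem_ofPred_eq] at this
        rw [h.D1_eq u ht, h.D1_eq u hyo] at this
        simpa using this
      have h1 : ∀ a, κ a * d1 u y (e a) = -(N * Wp (d1 u y) * d1 u y (e a)) := fun a => by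
        have := (hJ a).1
        field_simp at this
        linarith
      have hr : ∀ a, d2 u y (e a) (e a) = κ a / Wp (d1 u y) := fun a => by
        have := hd.2 a a
        rw [if_pos rfl] at this
        rw [← this]
        field_simp
      have hal := CG7_alg k (by omega) hw κ (fun i => d1 u y (e i)) (V3_sym h3 e)
        (hd.1.sum_b_sq hp) (fun a => ((hg.erase (Finset.mem_univ a)).pos le_rfl).le) h1
        (fun a => by rw [← hr a]; exact (hJ a).2)
      have hli := CG7_lin hd.1 hp (fderiv ℝ ψ (d1 u y, u y, y)) (hψ1.trans hC1) hN0.le κ h1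
      simp only [fun a => (hS a).1] at hal
      have h7 : 2 * C * Wp (d1 u y) ^ 2 ≤ N * (k * es Finset.univ k κ) * Wp (d1 u y) ^ 2 := by
        rw [← hNk, hes]
        gcongr
      have h8 : C * Wp (d1 u y) ^ 2 ≤ C * N := by linarith
      have h9 : Wp (d1 u y) ^ 2 ≤ N := le_of_mul_le_mul_left h8 hC0
      nlinarith
    · exact (hW y hyf).trans hBW
  have hwx := Wp_pos (hu.adm x hx).1
  have hwy := Wp_pos (hu.adm y hy).1
  have hle := hmax hx
  simp only [mem_ofPred_eq] at hle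
  have hlog : Real.log (Wp (D1 (closure Ω) u y)) ≤ Real.log B := Real.log_le_log hwy key
  have hux := abs_le.1 ((hM x hx).trans (le_abs_self M))
  have huy := abs_le.1 ((hM y hy).trans (le_abs_self M))
  have hN2 : N * u y - N * u x ≤ N * (2 * |M|) := by
    rw [← mul_sub]
    exact mul_le_mul_of_nonneg_left (by linarith) hN0.le
  calc Wp (D1 (closure Ω) u x) = Real.exp (Real.log (Wp (D1 (closure Ω) u x))) :=
        (Real.exp_log hwx).symm
    _ ≤ Real.exp (Real.log B + N * (2 * |M|)) := Real.exp_le_exp.2 (by linarith)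
    _ = B * Real.exp (N * (2 * |M|)) := by rw [Real.exp_add, Real.exp_log (by linarith)]

end Pool.Agent.Mink.C
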