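import Pool.Agent.Lib.MP_88c759_an.Mink.CG3
import Pool.Agent.Lib.MP_88c759_an.Mink.CF3
import Pool.Agent.Lib.MP_88c759_an.Mink.CP5

set_option maxSynthPendingDepth 3

namespace Pool.Agent.Mink.C

open scoped ContDiff Topology RealInnerProductSpace
open Set Filter

variable {n : ℕ}

variable {Ω : Set (E n)} {ρ : E n → ℝ}

theorem CG8_form (ρ : E n → ℝ) (x ν : E n) (A B : ℝ) : ∃ Q : B2 n, ∀ v w,
    Q v w = Bf ρ x (pr ν v) (pr ν w) + A * (⟪ν, v⟫ * ⟪ν, w⟫) - B * ⟪v, w⟫ := by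
  let P : E n →L[ℝ] E n := ContinuousLinearMap.id ℝ (E n) - (innerSL ℝ ν).smulRight ν
  have hP : ∀ v, P v = pr ν v := fun v => by simp [P, pr]
  let I : B2 n := innerSL ℝ
  have hI : ∀ v w, I v w = ⟪v, w⟫ := fun v w => rfl
  refine ⟨‖d1 ρ x‖⁻¹ • (d2 ρ x).bilinearComp P P + A • sq1 (innerSL ℝ ν) - B • I, fun v w => ?_⟩
  simp only [ContinuousLinearMap.sub_apply, ContinuousLinearMap.add_apply,
    ContinuousLinearMap.smul_apply, ContinuousLinearMap.bilinearComp_apply, hP, hI, sq1_apply,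
    innerSL_apply_apply, smul_eq_mul, Bf]
  ring

theorem CG8_inner_pr {ν : E n} (hν : ‖ν‖ = 1) (v : E n) : ⟪ν, pr ν v⟫ = 0 := by
  simp [pr, inner_sub_right, inner_smul_right, hν]

theorem CG8_norm_pr {ν : E n} (hν : ‖ν‖ = 1) (v : E n) : ‖pr ν v‖ ≤ ‖v‖ := by
  have h : ‖pr ν v‖ ^ 2 = ‖v‖ ^ 2 - ⟪ν, v⟫ ^ 2 := by
    rw [pr, norm_sub_sq_real, inner_smul_right, norm_smul, hν, real_inner_comm ν v, mul_one,
      Real.norm_eq_abs, sq_abs]
    ring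
  exact (abs_le_of_sq_le_sq' (by nlinarith [sq_nonneg ⟪ν, v⟫]) (norm_nonneg _)).2

theorem CG8_abs_inner {ν : E n} (hν : ‖ν‖ = 1) (v : E n) : |⟪ν, v⟫| ≤ ‖v‖ := by
  simpa [hν] using abs_real_inner_le_norm ν v

theorem CG8_gam (h : Dom Ω ρ) (k : ℕ) (hk : 2 ≤ k) {c₁ : ℝ} (hc₁ : 0 < c₁) (hR : Rk k Ω ρ c₁)
    (W : ℝ) : ∃ ε₀ : ℝ, 0 < ε₀ ∧ ∀ x ∈ frontier Ω, ∀ (p : B1 n) (e : Fin n → E n), ‖p‖ < 1 →
      Wp p ≤ W → IsFrame p e → Gam Finset.univ k (fun a =>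
        Bf ρ x (pr (nin ρ x) (e a)) (pr (nin ρ x) (e a)) + ⟪nin ρ x, e a⟫ ^ 2
          - 3 * ε₀ * ‖e a‖ ^ 2) := by
  obtain ⟨c, hc, hc1, hc2⟩ : ∃ c : ℝ, 0 < c ∧ c ≤ c₁ ∧ c ≤ 1 :=
    ⟨min c₁ 1, lt_min hc₁ one_pos, min_le_left _ _, min_le_right _ _⟩
  have hc' : 0 < c / (n + 1) / 2 := by positivity
  obtain ⟨δ, hδ, hg⟩ := gam_of_many (ι := Fin n) n k (c / (n + 1) / 2) hc'
  obtain ⟨m, hm, hm1, hm2⟩ : ∃ m : ℝ, 0 < m ∧ m ≤ δ ∧ m ≤ c / (n + 1) / 2 :=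
    ⟨min δ _, lt_min hδ hc', min_le_left _ _, min_le_right _ _⟩
  refine ⟨m / (3 * (W ^ 2 + 1)), by positivity, fun x hx p e hp hW he => ?_⟩
  have hν := h.norm_nin hx
  set ν := nin ρ x with hνd
  obtain ⟨T, hT, hT'⟩ := hR x hx
  obtain ⟨Y, hY⟩ := CG8_form ρ x ν 1 0
  have hY' : ∀ v, Y v v = Bf ρ x (pr ν v) (pr ν v) + ⟪ν, v⟫ ^ 2 := fun v => by rw [hY]; ring
  have hY0 : ∀ v, 0 ≤ Y v v := fun v => by
    rw [hY']
    exact add_nonneg (h.Bf_nonneg hx (CG8_inner_pr hν v)) (sq_nonneg _)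
  have hνT : ν ∉ T := fun hh => by
    have := (hT' ν hh).1
    rw [real_inner_self_eq_norm_sq, hν] at this
    norm_num at this
  have hrk : Module.finrank ℝ (T ⊔ Submodule.span ℝ {ν} : Submodule ℝ (E n)) = k := by
    rw [Submodule.finrank_sup_span_singleton hνT, hT]
    omega
  obtain ⟨t, -, ht, ht'⟩ := many_diag (s := Finset.univ) (e := e) hp (fun a _ b _ => he a b)
    (Y := Y) (fun v w => by
      rw [hY, hY, h.Bf_comm x, real_inner_comm v w]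
      ring) (fun v _ => hY0 v) (T := T ⊔ Submodule.span ℝ {ν}) (fun v _ => by
      rw [he.expand v]
      exact Submodule.sum_mem _ fun a _ => Submodule.smul_mem _ _
        (Submodule.subset_span ⟨a, by simp, rfl⟩)) hc (fun v hv => by
      obtain ⟨t, ht, z, hz, rfl⟩ := Submodule.mem_sup.1 hv
      obtain ⟨a, rfl⟩ := Submodule.mem_span_singleton.1 hz
      obtain ⟨h1, h2⟩ := hT' t ht
      have e1 : ⟪ν, t + a • ν⟫ = a := by
        rw [inner_add_right, inner_smul_right, h1, real_inner_self_eq_norm_sq, hν]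
        ring
      have e2 : pr ν (t + a • ν) = t := by rw [pr, e1, add_sub_cancel_right]
      have e3 : ‖t + a • ν‖ ^ 2 = ‖t‖ ^ 2 + a ^ 2 := by
        rw [norm_add_sq_real, inner_smul_right, real_inner_comm ν t, h1, norm_smul, hν, mul_one,
          Real.norm_eq_abs, sq_abs]
        ring
      rw [hY', e1, e2, e3]
      nlinarith [mul_le_mul_of_nonneg_right hc1 (sq_nonneg ‖t‖),
        mul_le_mul_of_nonneg_right hc2 (sq_nonneg a)])
  have hb : ∀ a, 3 * (m / (3 * (W ^ 2 + 1))) * ‖e a‖ ^ 2 ≤ m := fun a => by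
    have h1 : ‖e a‖ ^ 2 ≤ W ^ 2 :=
      pow_le_pow_left₀ (norm_nonneg _) ((he.norm_le hp a).1.trans hW) 2
    have h2 : 3 * (m / (3 * (W ^ 2 + 1))) * (W ^ 2 + 1) = m := by field_simp
    have h3 : 0 ≤ 3 * (m / (3 * (W ^ 2 + 1))) := by positivity
    nlinarith
  refine hg Finset.univ t _ (by simp) (Finset.subset_univ _) (ht.trans hrk) (fun a ha => ?_)
    fun a _ => ?_
  · have := ht' a ha
    rw [hY'] at this
    linarith [hb a]
  · have := hY0 (e a)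
    rw [hY'] at this
    linarith [hb a]

theorem CG8_alg (k : ℕ) (hk : 2 ≤ k) (hkn : k ≤ n) (c₀ N' ε₀ : ℝ) (hc : 0 < c₀) (hε : 0 < ε₀) :
    ∃ N : ℝ, 0 < N ∧ ∀ κ y a b : Fin n → ℝ, Gam Finset.univ k κ → c₀ ≤ es Finset.univ k κ →
      Gam Finset.univ k y → (∀ i, 1 ≤ a i) → (∀ i, 0 ≤ b i) → 1 ≤ ∑ i, b i →
      N' ≤ ∑ i, fk k κ i * (y i + ε₀ * a i + (2 * N - 1) * b i) := by
  obtain ⟨L, hL, hL'⟩ := gam_bound_entries (ι := Fin n) n k hk c₀ (N' / ε₀) hc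
  have hn : (0 : ℝ) < n := by exact_mod_cast (by omega : 0 < n)
  obtain ⟨μ, hμ, hμ'⟩ : ∃ μ : ℝ, 0 < μ ∧ n * L * μ = c₀ :=
    ⟨c₀ / (n * L), by positivity, by field_simp⟩
  refine ⟨(|N'| / μ + 1) / 2, by positivity, fun κ y a b hκ hκ' hy ha hb hb' => ?_⟩
  have hf : ∀ i, 0 < fk k κ i := fun i => (hκ.erase (Finset.mem_univ i)).pos le_rfl
  have g0 : 0 < ∑ i, fk k κ i * y i := garding_pos (by omega) hκ hy
  have g1 : ∑ i, fk k κ i ≤ ∑ i, fk k κ i * a i :=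
    Finset.sum_le_sum fun i _ => le_mul_of_one_le_right (hf i).le (ha i)
  have g2 : 0 ≤ ∑ i, fk k κ i * b i := Finset.sum_nonneg fun i _ => mul_nonneg (hf i).le (hb i)
  have g3 : 0 ≤ ∑ i, fk k κ i := Finset.sum_nonneg fun i _ => (hf i).le
  have e : ∑ i, fk k κ i * (y i + ε₀ * a i + (2 * ((|N'| / μ + 1) / 2) - 1) * b i) =
      ∑ i, fk k κ i * y i + ε₀ * ∑ i, fk k κ i * a i + |N'| / μ * ∑ i, fk k κ i * b i := by
    rw [Finset.mul_sum, Finset.mul_sum, ← Finset.sum_add_distrib, ← Finset.sum_add_distrib]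
    exact Finset.sum_congr rfl fun i _ => by ring
  rw [e]
  have g4 : 0 ≤ |N'| / μ := by positivity
  have g5 := mul_le_mul_of_nonneg_left g1 hε.le
  by_cases hN : N' ≤ ε₀ * ∑ i, fk k κ i
  · nlinarith [mul_nonneg g4 g2]
  · have g6 : es Finset.univ (k - 1) κ ≤ N' / ε₀ := by
      rw [le_div_iff₀ hε]
      rw [sum_fk k (by omega)] at hN
      have h1 : (k : ℝ) ≤ n := by exact_mod_cast hkn
      have h2 := hκ.pos (Nat.sub_le k 1)
      nlinarith [mul_nonneg (mul_nonneg hε.le (sub_nonneg.2 h1)) h2.le]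
    have g7 := hL' Finset.univ κ (by simp) hκ hκ' g6
    have g8 : ∀ i, μ ≤ fk k κ i := fun i => by
      have h1 := hκ.part_lower (by omega) g7 (Finset.mem_univ i)
      rw [Finset.card_univ, Fintype.card_fin] at h1
      have h2 : (1 : ℝ) ≤ k := by exact_mod_cast (by omega : 1 ≤ k)
      refine le_of_mul_le_mul_left ?_ (mul_pos hn hL)
      rw [hμ']
      change _ ≤ _ * fk k κ i at h1
      nlinarith
    have g9 : μ ≤ ∑ i, fk k κ i * b i :=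
      calc μ ≤ μ * ∑ i, b i := le_mul_of_one_le_right hμ.le hb'
        _ ≤ _ := by
          rw [Finset.mul_sum]
          exact Finset.sum_le_sum fun i _ => mul_le_mul_of_nonneg_right (g8 i) (hb i)
    have g10 := mul_le_mul_of_nonneg_left g9 g4
    rw [div_mul_cancel₀ _ hμ.ne'] at g10
    nlinarith [le_abs_self N', mul_nonneg hε.le g3]

/-- the quadratic barrier `2⟪ν, h⟫ - Q h h / 2` at a boundary point -/
theorem barrier (h : Dom Ω ρ) (k : ℕ) (hk : 2 ≤ k) (hkn : k ≤ n) {c₁ : ℝ} (hc₁ : 0 < c₁)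
    (hR : Rk k Ω ρ c₁) (W c₀ N' r₀ : ℝ) (hc : 0 < c₀) (hr₀ : 0 < r₀) :
    ∃ ε r : ℝ, 0 < ε ∧ 0 < r ∧ r ≤ r₀ ∧ ∀ x ∈ frontier Ω, ∃ Q : B2 n, Sym Q ∧ ‖Q‖ * r ≤ 1 ∧
      (∀ y ∈ closure Ω, ‖y - x‖ ≤ r →
        ε * ‖y - x‖ ^ 2 ≤ 2 * ⟪nin ρ x, y - x⟫ - Q (y - x) (y - x) / 2) ∧
      ∀ (p : B1 n) (e : Fin n → E n) (κ : Fin n → ℝ), ‖p‖ < 1 → Wp p ≤ W → IsFrame p e →
        Gam Finset.univ k κ → c₀ ≤ es Finset.univ k κ → N' ≤ ∑ a, fk k κ a * Q (e a) (e a) := by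
  obtain ⟨ε₀, hε, hg⟩ := CG8_gam h k hk hc₁ hR W
  obtain ⟨N, hN, ha⟩ := CG8_alg k hk hkn c₀ N' ε₀ hc hε
  obtain ⟨m, C, r₁, -, hC, -, -, hcs⟩ := h.consts
  obtain ⟨r, hr, hr1, hr2, hr3⟩ : ∃ r : ℝ, 0 < r ∧ r ≤ r₀ ∧ (C + 2 * N + 2 * ε₀) * r ≤ 1 ∧
      2 * C * r ≤ ε₀ := by
    refine ⟨min r₀ (min (C + 2 * N + 2 * ε₀)⁻¹ (ε₀ / (2 * C))), by positivity, min_le_left _ _,
      ?_, ?_⟩
    · rw [← le_div_iff₀' (by positivity), one_div]
      exact (min_le_right _ _).trans (min_le_left _ _)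
    · rw [← le_div_iff₀' (by positivity)]
      exact (min_le_right _ _).trans (min_le_right _ _)
  refine ⟨ε₀ / 2, r, by positivity, hr, hr1, fun x hx => ?_⟩
  have hν := h.norm_nin hx
  obtain ⟨-, hB, -, -, hT⟩ := hcs x hx
  obtain ⟨Q, hQ⟩ := CG8_form ρ x (nin ρ x) (2 * N) (2 * ε₀)
  refine ⟨Q, fun v w => ?_, le_trans (mul_le_mul_of_nonneg_right ?_ hr.le) hr2,
    fun y hy hyr => ?_, fun p e κ hp hW he hκ hκ' => ?_⟩
  · rw [hQ, hQ, h.Bf_comm x, real_inner_comm v w]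
    ring
  · refine ContinuousLinearMap.opNorm_le_bound₂ _ (by positivity) fun v w => ?_
    have h1 := hB (pr (nin ρ x) v) (pr (nin ρ x) w)
    have h2 : C * ‖pr (nin ρ x) v‖ * ‖pr (nin ρ x) w‖ ≤ C * ‖v‖ * ‖w‖ := by
      gcongr <;> exact CG8_norm_pr hν _
    have h3 : |⟪nin ρ x, v⟫ * ⟪nin ρ x, w⟫| ≤ ‖v‖ * ‖w‖ := by
      rw [abs_mul]
      exact mul_le_mul (CG8_abs_inner hν v) (CG8_abs_inner hν w) (abs_nonneg _) (norm_nonneg _)
    have h4 := abs_real_inner_le_norm v w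
    rw [Real.norm_eq_abs, hQ]
    rw [abs_le] at h1 h3 h4 ⊢
    constructor <;> nlinarith [h1.1, h1.2, mul_le_mul_of_nonneg_left h3.1 hN.le,
      mul_le_mul_of_nonneg_left h3.2 hN.le, mul_le_mul_of_nonneg_left h4.1 hε.le,
      mul_le_mul_of_nonneg_left h4.2 hε.le]
  · have h1 := hT y hy
    have h2 := h.support hx hy
    have h3 := (abs_le.1 (CG8_abs_inner hν (y - x))).2
    rw [hQ, real_inner_self_eq_norm_sq]
    generalize ⟪nin ρ x, y - x⟫ = s at *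
    have h0 := norm_nonneg (y - x)
    generalize ‖y - x‖ = t at *
    have h4 : C * t * s ≤ C * r * s := by gcongr
    have h5 : N * s * s ≤ N * r * s := by gcongr; exact h3.trans hyr
    have h6 : C * t * t ^ 2 ≤ C * r * t ^ 2 := by gcongr
    have h7 := mul_le_mul_of_nonneg_right hr2 h2
    have h8 := mul_le_mul_of_nonneg_right hr3 (sq_nonneg t)
    nlinarith [mul_nonneg (mul_nonneg hN.le hr.le) h2, mul_nonneg (mul_nonneg hε.le hr.le) h2]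
  · refine (ha κ _ (fun a => ‖e a‖ ^ 2) (fun a => ⟪nin ρ x, e a⟫ ^ 2) hκ hκ' (hg x hx p e hp hW he)
      (fun a => ?_) (fun a => sq_nonneg _) ?_).trans_eq (Finset.sum_congr rfl fun a _ => ?_)
    · rw [he.norm_sq]
      exact le_add_of_nonneg_right (sq_nonneg _)
    · rw [he.sum_inner_sq hp, hν]
      nlinarith [mul_nonneg (sq_nonneg (Wp p)) (sq_nonneg (p (nin ρ x)))]
    · rw [hQ, real_inner_self_eq_norm_sq]
      ring

end Pool.Agent.Mink.C
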