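import Pool.Agent.Lib.MP_88c759_an.Mink.CP1

set_option maxSynthPendingDepth 3

namespace Pool.Agent.Mink.C

open scoped ContDiff Topology RealInnerProductSpace
open Set Filter

variable {n : ℕ}

/-- two-jet of the normal component of a Killing field -/
theorem J2_kil {u : E n → ℝ} {x : E n} (hu : ContDiffAt ℝ 3 u x) (hp : ‖d1 u x‖ < 1)
    {e : Fin n → E n} {κ : Fin n → ℝ} (hd : Diag (d1 u x) (d2 u x) e κ) (K : Kil n) (hK : K.Skew)
    (a : Fin n) :
    J2 (fun t : ℝ => Wp (d1 u (x + t • e a))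
        * K.L (x + t • e a) (u (x + t • e a)) (d1 u (x + t • e a)))
      (Wp (d1 u x) * K.L x (u x) (d1 u x))
      (-(κ a * K.kk x (u x) (d1 u x) (e a)) + Wp (d1 u x) * K.mu (d1 u x) (e a))
      (κ a ^ 2 * (Wp (d1 u x) * K.L x (u x) (d1 u x))
        - ∑ m, TT (Wp (d1 u x)) κ (fun i => d1 u x (e i)) (V3 u x e) a a m
            * K.kk x (u x) (d1 u x) (e m)
        - κ a / Wp (d1 u x) * ∑ l, d1 u x (e l) *
            (-(κ l * K.kk x (u x) (d1 u x) (e l)) + Wp (d1 u x) * K.mu (d1 u x) (e l))) := by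
  have hu2 : ContDiffAt ℝ 2 u x := hu.of_le (by norm_num)
  have hw := Wp_pos hp
  have hv : J2 (fun t : ℝ => K.v (x + t • e a) (u (x + t • e a))) (K.v x (u x))
      (K.S (e a) + d1 u x (e a) • K.be) (d2 u x (e a) (e a) • K.be) := by
    refine (((J2.const K.av).add (((J2.line x (e a)).sub (J2.const K.x₀)).clm K.S)).add
      (((J2_u hu2 (e a)).sub (J2.const K.z₀)).smul (J2.const K.be))).of_eq rfl ?_ ?_ <;> simp
  have ht : J2 (fun t : ℝ => K.t (x + t • e a)) (K.t x) ⟪K.be, e a⟫ 0 := by
    refine ((J2.const K.al).add ((J2.const K.be).inner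
      ((J2.line x (e a)).sub (J2.const K.x₀)))).of_eq rfl ?_ ?_ <;> simp
  have hL := (J2_W hu hp hd a).mul (ht.sub ((J2_d1 hu (e a)).app hv))
  have haa : d2 u x (e a) (e a) = κ a / Wp (d1 u x) := by
    have := hd.2 a a
    rw [if_pos rfl] at this
    rw [← this]; field_simp
  have hS : ∀ v : E n, ⟪v, K.S v⟫ = 0 := fun v => by
    have := hK v v
    rw [real_inner_comm] at this
    linarith
  set p := d1 u x with hpd
  set w := Wp p with hwd
  set v := K.v x (u x) with hvd
  have hkk : ∀ m, K.kk x (u x) p (e m) = gp p (e m) v - p (e m) * K.L x (u x) p := fun m => by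
    simp only [Kil.kk, Kil.L, gp, ← hvd, real_inner_comm v]; ring
  have h3 : d3 u x (e a) (e a) v = ∑ m, gp p (e m) v * V3 u x e a a m := by
    conv_lhs => rw [hd.1.expand v]
    simp [V3]
  have hb := hd.1.sum_b_smul hp
  have hmu : ∑ l, p (e l) * K.mu p (e l) = p K.be := by
    have e1 : ∑ l, p (e l) * ⟪K.be, e l⟫ = w ^ 2 * p K.be := by
      have := congrArg (fun z => ⟪K.be, z⟫) hb
      simpa only [inner_sum, real_inner_smul_right, real_inner_comm (shp p), inner_shp] using this
    have e2 : ∑ l, p (e l) * p (K.S (e l)) = 0 := by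
      have := congrArg (fun z => p (K.S z)) hb
      simp only [map_sum, map_smul, smul_eq_mul] at this
      rw [this, ← inner_shp, hS, mul_zero]
    have e3 := hd.1.sum_b_sq hp
    simp only [Kil.mu, mul_sub, Finset.sum_sub_distrib, e1, e2, ← mul_assoc, ← sq,
      ← Finset.sum_mul]
    rw [← hwd] at e3
    rw [e3]; ring
  refine hL.of_eq rfl ?_ ?_
  · rw [hkk, hd.r_eq hp]
    simp only [Kil.mu, Kil.L, ← hvd, ← hwd, map_add, map_smul, smul_eq_mul,
      smul_apply, gfl_apply]
    field_simp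
    ring
  · have e1 : ∑ m, TT w κ (fun i => p (e i)) (V3 u x e) a a m * K.kk x (u x) p (e m) =
        w * (∑ m, gp p (e m) v * V3 u x e a a m) -
          w * K.L x (u x) p * (∑ j, p (e j) * V3 u x e j a a) +
          κ a / w * (∑ m, p (e m) * (κ m * K.kk x (u x) p (e m))) +
          2 * κ a ^ 2 * p (e a) * K.kk x (u x) p (e a) / w := by
      have : 2 * κ a ^ 2 * p (e a) * K.kk x (u x) p (e a) / w =
          ∑ m, dl m a * (2 * κ m * κ a * p (e a) * K.kk x (u x) p (e m) / w) := by
        simp only [dl, ite_mul, one_mul, zero_mul, Finset.sum_ite_eq', Finset.mem_univ, if_true]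
        ring
      rw [this]
      simp only [Finset.mul_sum, ← Finset.sum_sub_distrib, ← Finset.sum_add_distrib]
      refine Finset.sum_congr rfl fun m _ => ?_
      have hV : V3 u x e m a a = V3 u x e a a m := by
        rw [(V3_sym hu e m a a).1, (V3_sym hu e a m a).2]
      have hdl : dl a a = 1 := if_pos rfl
      rw [TT, hV, hdl]
      nth_rewrite 1 [hkk]
      nth_rewrite 1 [hkk, hkk]
      ring
    have e2 : ∑ l, p (e l) * (-(κ l * K.kk x (u x) p (e l)) + w * K.mu p (e l)) =
        -(∑ m, p (e m) * (κ m * K.kk x (u x) p (e m))) + w * p K.be := by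
      rw [← hmu, Finset.mul_sum, ← Finset.sum_neg_distrib, ← Finset.sum_add_distrib]
      exact Finset.sum_congr rfl fun _ _ => by ring
    rw [e1, e2, h3, haa, hkk a, hd.r_eq hp, W2]
    simp only [Kil.L, ← hvd, ← hwd, map_add, map_smul, smul_eq_mul,
      smul_apply, gfl_apply, gp, hS,
      real_inner_comm K.be]
    field_simp
    ring

end Pool.Agent.Mink.C
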