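import Pool.Agent.Lib.MP_88c759_an.Mink.CG7
import Pool.Agent.Lib.MP_88c759_an.Mink.CG8
import Pool.Agent.Lib.MP_88c759_an.Mink.CP4

set_option maxSynthPendingDepth 3

namespace Pool.Agent.Mink.C

open scoped ContDiff Topology RealInnerProductSpace
open Set Filter

variable {n : ℕ}

variable {Ω : Set (E n)} {ρ : E n → ℝ}

theorem CG9_alg {f κ b kk μ Φ q P g : Fin n → ℝ} {T : Fin n → Fin n → ℝ} {F A w kS : ℝ}
    (hw : w ≠ 0) (hf : ∀ a, 0 ≤ f a) (hF : F ≤ 0)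
    (h1 : ∀ a, -(κ a * kk a) + w * μ a + A * Φ a = 0)
    (h2 : ∀ a, 0 ≤ κ a ^ 2 * F - ∑ m, T a m * kk m
      - κ a / w * ∑ l, b l * (-(κ l * kk l) + w * μ l) + A * (-q a))
    (hS : ∀ m, ∑ a, f a * T a m = P m + κ m / w * g m) (hk : ∑ a, f a * κ a = kS) :
    A * ∑ a, f a * q a ≤ -(∑ m, (P m * kk m + g m * μ m)) - A * ∑ m, g m * Φ m / w
      + A * (kS / w * ∑ l, b l * Φ l) := by
  have e1 : ∑ l, b l * (-(κ l * kk l) + w * μ l) = -(A * ∑ l, b l * Φ l) := by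
    rw [Finset.mul_sum, ← Finset.sum_neg_distrib]
    refine Finset.sum_congr rfl fun l _ => ?_
    have : -(κ l * kk l) + w * μ l = -(A * Φ l) := by linarith [h1 l]
    rw [this]; ring
  have e2 : ∑ a, f a * ∑ m, T a m * kk m
      = ∑ m, (P m * kk m + g m * μ m) + A * ∑ m, g m * Φ m / w := by
    simp only [Finset.mul_sum]
    rw [Finset.sum_comm, ← Finset.sum_add_distrib]
    refine Finset.sum_congr rfl fun m _ => ?_
    have e3 : ∑ a, f a * (T a m * kk m) = (∑ a, f a * T a m) * kk m := by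
      rw [Finset.sum_mul]; exact Finset.sum_congr rfl fun a _ => by ring
    have e4 : κ m * kk m = w * μ m + A * Φ m := by linarith [h1 m]
    rw [e3, hS m]
    calc (P m + κ m / w * g m) * kk m = P m * kk m + g m / w * (κ m * kk m) := by ring
      _ = _ := by rw [e4]; field_simp; ring
  have e5 : 0 ≤ ∑ a, f a * (κ a ^ 2 * F - ∑ m, T a m * kk m
      - κ a / w * ∑ l, b l * (-(κ l * kk l) + w * μ l) + A * (-q a)) :=
    Finset.sum_nonneg fun a _ => mul_nonneg (hf a) (h2 a)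
  have e6 : ∑ a, f a * (κ a ^ 2 * F - ∑ m, T a m * kk m
      - κ a / w * ∑ l, b l * (-(κ l * kk l) + w * μ l) + A * (-q a))
      = ∑ a, f a * κ a ^ 2 * F - ∑ a, f a * ∑ m, T a m * kk m
        + (∑ a, f a * κ a) * (A / w * ∑ l, b l * Φ l) - A * ∑ a, f a * q a := by
    rw [e1, Finset.sum_mul, Finset.mul_sum _ (fun a => f a * q a) A, ← Finset.sum_sub_distrib,
      ← Finset.sum_add_distrib, ← Finset.sum_sub_distrib]
    exact Finset.sum_congr rfl fun a _ => by ring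
  have e7 : ∑ a, f a * κ a ^ 2 * F ≤ 0 := Finset.sum_nonpos fun a _ =>
    mul_nonpos_of_nonneg_of_nonpos (mul_nonneg (hf a) (sq_nonneg _)) hF
  rw [e6, e2, hk] at e5
  have e8 : kS * (A / w * ∑ l, b l * Φ l) = A * (kS / w * ∑ l, b l * Φ l) := by ring
  linarith

theorem CG9_vt {K : Kil n} {CK : ℝ} (hK : K.Bd CK) {y : E n} {z : ℝ} (hy : ‖y - K.x₀‖ ≤ 1)
    (hz : |z - K.z₀| ≤ 1) : ‖K.v y z‖ ≤ 3 * CK ∧ |K.t y| ≤ 2 * CK := by
  obtain ⟨h1, h2, h3, h4⟩ := hK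
  have h0 : 0 ≤ CK := (abs_nonneg _).trans h1
  constructor
  · have a1 : ‖K.S (y - K.x₀)‖ ≤ CK * 1 := (K.S.le_opNorm _).trans (by gcongr)
    have a2 : ‖(z - K.z₀) • K.be‖ ≤ 1 * CK := by
      rw [norm_smul, Real.norm_eq_abs]; gcongr
    have a3 := norm_add₃_le (a := K.av) (b := K.S (y - K.x₀)) (c := (z - K.z₀) • K.be)
    rw [Kil.v]; linarith
  · have a1 : |⟪K.be, y - K.x₀⟫| ≤ CK * 1 := (abs_real_inner_le_norm _ _).trans (by gcongr)
    have a2 := abs_add_le K.al ⟪K.be, y - K.x₀⟫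
    rw [Kil.t]; linarith

theorem CG9_app {p : B1 n} (hp : ‖p‖ ≤ 1) (v : E n) : |p v| ≤ ‖v‖ :=
  (p.le_opNorm v).trans (mul_le_of_le_one_left (norm_nonneg _) hp)

theorem CG9_L {K : Kil n} {CK : ℝ} (hK : K.Bd CK) {y : E n} {z : ℝ} (hy : ‖y - K.x₀‖ ≤ 1)
    (hz : |z - K.z₀| ≤ 1) {p : B1 n} (hp : ‖p‖ ≤ 1) : |K.L y z p| ≤ 5 * CK := by
  obtain ⟨h1, h2⟩ := CG9_vt hK hy hz
  have a1 := CG9_app hp (K.v y z)
  have a2 := abs_sub (K.t y) (p (K.v y z))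
  rw [Kil.L]; linarith

theorem CG9_kk {K : Kil n} {CK W : ℝ} (hK : K.Bd CK) {y : E n} {z : ℝ} (hy : ‖y - K.x₀‖ ≤ 1)
    (hz : |z - K.z₀| ≤ 1) {p : B1 n} (hp : ‖p‖ ≤ 1) {v : E n} (hv : ‖v‖ ≤ W) :
    |K.kk y z p v| ≤ 5 * CK * W ∧ |K.mu p v| ≤ 3 * CK * W := by
  obtain ⟨h1, h2⟩ := CG9_vt hK hy hz
  obtain ⟨k1, k2, k3, k4⟩ := hK
  have h0 : 0 ≤ CK := (abs_nonneg _).trans k1
  have hW : 0 ≤ W := (norm_nonneg _).trans hv
  have b1 : |p v| ≤ W := (CG9_app hp v).trans hv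
  constructor
  · have a1 : |⟪K.v y z, v⟫| ≤ 3 * CK * W := (abs_real_inner_le_norm _ _).trans (by gcongr)
    have a2 : |K.t y * p v| ≤ 2 * CK * W := by rw [abs_mul]; gcongr
    have a3 := abs_sub ⟪K.v y z, v⟫ (K.t y * p v)
    rw [Kil.kk]; linarith
  · have a1 : |⟪K.be, v⟫| ≤ CK * W := (abs_real_inner_le_norm _ _).trans (by gcongr)
    have a2 : |p (K.S v)| ≤ CK * W :=
      (CG9_app hp _).trans ((K.S.le_opNorm _).trans (by gcongr))
    have a3 : |p v * p K.be| ≤ W * CK := by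
      rw [abs_mul]; exact mul_le_mul b1 ((CG9_app hp _).trans k3) (abs_nonneg _) hW
    have a4 := abs_sub (⟪K.be, v⟫ - p (K.S v)) (p v * p K.be)
    have a5 := abs_sub ⟪K.be, v⟫ (p (K.S v))
    rw [Kil.mu]; linarith

theorem CG9_J2Phi (ν x₀ y v : E n) {Q : B2 n} (hQ : Sym Q) :
    J2 (fun t : ℝ => 2 * ⟪ν, y + t • v - x₀⟫ - Q (y + t • v - x₀) (y + t • v - x₀) / 2)
      (2 * ⟪ν, y - x₀⟫ - Q (y - x₀) (y - x₀) / 2) (2 * ⟪ν, v⟫ - Q (y - x₀) v) (-Q v v) := by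
  have hl : J2 (fun t : ℝ => y + t • v - x₀) (y - x₀) v 0 :=
    (J2.line (y - x₀) v).congr (Eventually.of_forall fun t => by
      show y - x₀ + t • v = y + t • v - x₀
      abel)
  have h1 := (((J2.const ν).inner hl).const_mul 2).sub ((J2.bilin Q hl hl).const_mul (1 / 2))
  refine (h1.congr (Eventually.of_forall fun t => ?_)).of_eq (by ring) ?_ ?_
  · show _ = 2 * ⟪ν, y + t • v - x₀⟫ - Q (y + t • v - x₀) (y + t • v - x₀) / 2
    ring
  · rw [hQ v (y - x₀)]; simp; ring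
  · simp

theorem CG9_min (h : Dom Ω ρ) {k : ℕ} (hk : 2 ≤ k) {W M c₀ C₀ CK : ℝ}
    {ψ : B1 n × ℝ × E n → ℝ} {φ u : E n → ℝ} (hψ : PsiB Ω ψ M c₀ C₀) (hu : SolO k Ω ψ φ u)
    {K : Kil n} (hs : K.Skew) (hK : K.Bd CK) {ν : E n} (hν : ‖ν‖ = 1) {Q : B2 n} (hQ : Sym Q)
    {y : E n} (hy : y ∈ Ω) (hM : |u y| ≤ M) (hW : Wp (d1 u y) ≤ W) (hy1 : ‖y - K.x₀‖ ≤ 1)
    (hz1 : |u y - K.z₀| ≤ 1) (hQy : ‖Q‖ * ‖y - K.x₀‖ ≤ 1) {A : ℝ} (hA : 0 ≤ A)
    (hmin : IsLocalMin (fun y => Wp (d1 u y) * K.L y (u y) (d1 u y)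
      + A * (2 * ⟪ν, y - K.x₀⟫ - Q (y - K.x₀) (y - K.x₀) / 2)) y)
    (hneg : Wp (d1 u y) * K.L y (u y) (d1 u y) ≤ 0)
    (hN : ∀ (p : B1 n) (e : Fin n → E n) (κ : Fin n → ℝ), ‖p‖ < 1 → Wp p ≤ W → IsFrame p e →
      Gam Finset.univ k κ → c₀ ≤ es Finset.univ k κ →
        3 * (n + k) * C₀ * W + 1 ≤ ∑ a, fk k κ a * Q (e a) (e a)) :
    A ≤ n * (8 * C₀ * CK * W ^ 2) := by
  have hyc : y ∈ closure Ω := subset_closure hy
  have hp : ‖d1 u y‖ < 1 := by rw [← h.D1_eq u hy]; exact (hu.adm y hyc).1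
  have hsym : Sym (d2 u y) := by rw [← h.D2_eq u hy]; exact h.sym_D2 hu.c2 hyc
  obtain ⟨e, κ, hd⟩ := exists_diag hp hsym
  obtain ⟨s1, s2, s3, s4, -⟩ := hψ y hyc (u y) hM (d1 u y) hp.le
  obtain ⟨-, hu4, hg, hes, hS1⟩ := hu.diff_eq h hk hy s1 hd
  have hu3 : ContDiffAt ℝ 3 u y := hu4.of_le (by norm_num)
  have hw1 := one_le_Wp hp
  have hw0 : 0 < Wp (d1 u y) := by linarith
  have hC0 : 0 ≤ C₀ := (norm_nonneg _).trans s4
  have hCK : 0 ≤ CK := (abs_nonneg _).trans hK.1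
  have hW1 : 1 ≤ W := hw1.trans hW
  have hj := fun a => ((J2_kil hu3 hp hd K hs a).add
    ((CG9_J2Phi ν K.x₀ y (e a) hQ).const_mul A)).of_isLocalMin (by
      have hc : ContinuousAt (fun t : ℝ => y + t • e a) 0 := by fun_prop
      exact IsLocalMin.comp_continuous (g := fun t : ℝ => y + t • e a) (b := 0)
        (f := fun y => Wp (d1 u y) * K.L y (u y) (d1 u y)
          + A * (2 * ⟪ν, y - K.x₀⟫ - Q (y - K.x₀) (y - K.x₀) / 2))
        (by rw [zero_smul, add_zero]; exact hmin) hc)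
  have hf : ∀ a, 0 ≤ fk k κ a := fun a => ((hg.erase (Finset.mem_univ a)).pos le_rfl).le
  have key := CG9_alg (q := fun a => Q (e a) (e a)) hw0.ne' hf hneg (fun a => (hj a).1)
    (fun a => (hj a).2) (fun m => (hS1 m).1) (sum_fk_mul k (by omega) κ)
  have hN' := hN _ e κ hp hW hd.1 hg (hes ▸ s2)
  have hew : ∀ a, ‖e a‖ ≤ Wp (d1 u y) := fun a => (hd.1.norm_le hp a).1
  have heW : ∀ a, ‖e a‖ ≤ W := fun a => (hew a).trans hW
  have hΦ : ∀ v : E n, |2 * ⟪ν, v⟫ - Q (y - K.x₀) v| ≤ 3 * ‖v‖ := fun v => by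
    have a1 : |⟪ν, v⟫| ≤ ‖v‖ := (abs_real_inner_le_norm _ _).trans (by rw [hν, one_mul])
    have a2 : |Q (y - K.x₀) v| ≤ 1 * ‖v‖ := (Q.le_opNorm₂ _ _).trans (by gcongr)
    have a3 := abs_sub (2 * ⟪ν, v⟫) (Q (y - K.x₀) v)
    rw [abs_mul, abs_two] at a3
    linarith
  have hP : ∀ m, |fderiv ℝ ψ (d1 u y, u y, y) (0, d1 u y (e m), e m)| ≤ C₀ * W := fun m => by
    refine ((fderiv ℝ ψ (d1 u y, u y, y)).le_opNorm _).trans (mul_le_mul s4 ?_ (norm_nonneg _) hC0)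
    refine norm_prod_le_iff.2 ⟨by simp; linarith, norm_prod_le_iff.2 ⟨?_, heW m⟩⟩
    exact (hd.1.norm_le hp m).2.trans hW
  have hG : ∀ m, |fderiv ℝ ψ (d1 u y, u y, y) (gfl (d1 u y) (e m), 0, 0)| ≤ C₀ * 1 := fun m => by
    refine ((fderiv ℝ ψ (d1 u y, u y, y)).le_opNorm _).trans (mul_le_mul s4 ?_ (norm_nonneg _) hC0)
    exact norm_prod_le_iff.2 ⟨hd.1.norm_gfl_le hp m, norm_prod_le_iff.2 ⟨by simp, by simp⟩⟩
  have b1 : -(∑ m, (fderiv ℝ ψ (d1 u y, u y, y) (0, d1 u y (e m), e m) *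
      K.kk y (u y) (d1 u y) (e m) + fderiv ℝ ψ (d1 u y, u y, y) (gfl (d1 u y) (e m), 0, 0) *
        K.mu (d1 u y) (e m))) ≤ n * (8 * C₀ * CK * W ^ 2) := by
    rw [← Finset.sum_neg_distrib]
    refine (Finset.sum_le_card_nsmul _ _ (8 * C₀ * CK * W ^ 2) fun m _ => ?_).trans (by simp)
    obtain ⟨c1, c2⟩ := CG9_kk hK hy1 hz1 hp.le (heW m)
    have c3 := mul_le_mul (hP m) c1 (abs_nonneg _) (by positivity)
    have c4 := mul_le_mul (hG m) c2 (abs_nonneg _) (by positivity)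
    rw [← abs_mul] at c3 c4
    have c5 : C₀ * CK * W * 1 ≤ C₀ * CK * W * W := by gcongr
    nlinarith [neg_abs_le (fderiv ℝ ψ (d1 u y, u y, y) (0, d1 u y (e m), e m) *
      K.kk y (u y) (d1 u y) (e m)), neg_abs_le (fderiv ℝ ψ (d1 u y, u y, y)
        (gfl (d1 u y) (e m), 0, 0) * K.mu (d1 u y) (e m))]
  have b2 : -(∑ m, fderiv ℝ ψ (d1 u y, u y, y) (gfl (d1 u y) (e m), 0, 0) *
      (2 * ⟪ν, e m⟫ - Q (y - K.x₀) (e m)) / Wp (d1 u y)) ≤ n * (3 * C₀ * W) := by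
    rw [← Finset.sum_neg_distrib]
    refine (Finset.sum_le_card_nsmul _ _ (3 * C₀ * W) fun m _ => ?_).trans (by simp)
    have c2 : |2 * ⟪ν, e m⟫ - Q (y - K.x₀) (e m)| ≤ 3 * Wp (d1 u y) :=
      (hΦ _).trans (by linarith [hew m])
    have c4 := mul_le_mul (hG m) c2 (abs_nonneg _) (by positivity)
    rw [← abs_mul] at c4
    have c5 : C₀ * Wp (d1 u y) * 1 ≤ C₀ * Wp (d1 u y) * W := by gcongr
    rw [← neg_div, div_le_iff₀ hw0]
    nlinarith [neg_abs_le (fderiv ℝ ψ (d1 u y, u y, y) (gfl (d1 u y) (e m), 0, 0) *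
      (2 * ⟪ν, e m⟫ - Q (y - K.x₀) (e m)))]
  have b3 : k * es Finset.univ k κ / Wp (d1 u y) *
      ∑ l, d1 u y (e l) * (2 * ⟪ν, e l⟫ - Q (y - K.x₀) (e l)) ≤ k * (3 * C₀ * W) := by
    have c1 : ∑ l, d1 u y (e l) * (2 * ⟪ν, e l⟫ - Q (y - K.x₀) (e l))
        = 2 * ⟪ν, ∑ l, d1 u y (e l) • e l⟫ - Q (y - K.x₀) (∑ l, d1 u y (e l) • e l) := by
      rw [inner_sum, map_sum, Finset.mul_sum, ← Finset.sum_sub_distrib]
      refine Finset.sum_congr rfl fun l _ => ?_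
      rw [real_inner_smul_right, map_smul, smul_eq_mul]; ring
    have c2 := (le_abs_self _).trans (hΦ (∑ l, d1 u y (e l) • e l))
    rw [← c1, hd.1.sum_b_smul hp, norm_smul, norm_shp, Real.norm_of_nonneg (sq_nonneg _)] at c2
    have c3 : Wp (d1 u y) ^ 2 * ‖d1 u y‖ ≤ Wp (d1 u y) * W := by
      rw [sq, mul_assoc]
      exact mul_le_mul_of_nonneg_left ((mul_le_of_le_one_right hw0.le hp.le).trans hW) hw0.le
    have c4 : 0 ≤ es Finset.univ k κ := (hg.pos le_rfl).le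
    have c5 : es Finset.univ k κ ≤ C₀ := hes ▸ s3
    calc _ ≤ k * es Finset.univ k κ / Wp (d1 u y) * (3 * (Wp (d1 u y) * W)) :=
          mul_le_mul_of_nonneg_left (by linarith) (by positivity)
      _ = k * (3 * es Finset.univ k κ * W) := by field_simp
      _ ≤ _ := by gcongr
  have b4 := mul_le_mul_of_nonneg_left hN' hA
  have b5 := mul_le_mul_of_nonneg_left b2 hA
  have b6 := mul_le_mul_of_nonneg_left b3 hA
  nlinarith

theorem CG9_contL (K : Kil n) {S : Set (E n)} {u : E n → ℝ} {p : E n → B1 n}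
    (hu : ContinuousOn u S) (hp : ContinuousOn p S) :
    ContinuousOn (fun y => K.L y (u y) (p y)) S := by
  have h1 : Continuous fun y : E n => K.al + ⟪K.be, y - K.x₀⟫ := by fun_prop
  have h2 : Continuous fun y : E n => K.av + K.S (y - K.x₀) := by fun_prop
  exact h1.continuousOn.sub (hp.clm_apply (h2.continuousOn.add
    ((hu.sub continuousOn_const).smul continuousOn_const)))

theorem CG9_hasL (h : Dom Ω ρ) {u : E n → ℝ} (hu : ContDiffOn ℝ 2 u (closure Ω)) (K : Kil n)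
    (hx : K.x₀ ∈ closure Ω) (hz : K.z₀ = u K.x₀) :
    ∃ l : B1 n, HasFDerivWithinAt (fun y => K.L y (u y) (D1 (closure Ω) u y)) l (closure Ω) K.x₀ ∧
      ∀ v, l v = K.mu (D1 (closure Ω) u K.x₀) v - D2 (closure Ω) u K.x₀ v K.av := by
  have h0 : HasFDerivWithinAt (fun y : E n => y - K.x₀) (ContinuousLinearMap.id ℝ (E n))
      (closure Ω) K.x₀ := (hasFDerivWithinAt_id _ _).sub_const _
  have h1 := ((innerSL ℝ K.be).hasFDerivAt.comp_hasFDerivWithinAt K.x₀ h0).const_add K.al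
  have h2 := ((K.S.hasFDerivAt.comp_hasFDerivWithinAt K.x₀ h0).const_add K.av).add
    (((h.hasD1 hu hx).sub_const K.z₀).smul_const K.be)
  have h3 := h1.sub ((h.hasD2 hu hx).clm_apply h2)
  refine ⟨_, h3, fun v => ?_⟩
  simp [Kil.mu, hz]
  ring

/-- barrier estimate for the normal component of a Killing field -/
theorem kil_barrier (h : Dom Ω ρ) (k : ℕ) (hk : 2 ≤ k) (hkn : k ≤ n) {c₁ : ℝ} (hc₁ : 0 < c₁)
    (hR : Rk k Ω ρ c₁) (W M c₀ C₀ CK C₁ r₀ : ℝ) (hc : 0 < c₀) (hr₀ : 0 < r₀) :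
    ∃ A : ℝ, ∀ (ψ : B1 n × ℝ × E n → ℝ) (φ u : E n → ℝ), PsiB Ω ψ M c₀ C₀ → SolO k Ω ψ φ u →
      (∀ x ∈ closure Ω, |u x| ≤ M) → (∀ x ∈ closure Ω, Wp (D1 (closure Ω) u x) ≤ W) →
      ∀ K : Kil n, K.Skew → K.Bd CK → K.x₀ ∈ frontier Ω → K.z₀ = u K.x₀ →
        K.al = D1 (closure Ω) u K.x₀ K.av →
        (∀ y ∈ frontier Ω, ‖y - K.x₀‖ ≤ r₀ →
          -(C₁ * ‖y - K.x₀‖ ^ 2) ≤ K.L y (u y) (D1 (closure Ω) u y)) →
        D2 (closure Ω) u K.x₀ (nin ρ K.x₀) K.av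
          ≤ K.mu (D1 (closure Ω) u K.x₀) (nin ρ K.x₀) + A := by
  obtain ⟨ε, r, hε, hr, hrr, hbar⟩ := barrier h k hk hkn hc₁ hR W c₀ (3 * (n + k) * C₀ * W + 1)
    (min r₀ 1) hc (lt_min hr₀ one_pos)
  obtain ⟨A, hA⟩ : ∃ A : ℝ, A = |5 * CK * W| / (ε * r ^ 2) + |W * C₁| / ε
    + |n * (8 * C₀ * CK * W ^ 2)| + 1 := ⟨_, rfl⟩
  have p1 : 0 ≤ |5 * CK * W| / (ε * r ^ 2) := by positivity
  have p2 : 0 ≤ |W * C₁| / ε := by positivity
  have p3 := abs_nonneg (n * (8 * C₀ * CK * W ^ 2))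
  have hA0 : 0 ≤ A := by linarith
  have hA1 : |5 * CK * W| ≤ A * (ε * r ^ 2) := (div_le_iff₀ (by positivity)).1 (by linarith)
  have hA2 : |W * C₁| ≤ A * ε := (div_le_iff₀ hε).1 (by linarith)
  have hA3 : n * (8 * C₀ * CK * W ^ 2) < A := by linarith [le_abs_self (n * (8 * C₀ * CK * W ^ 2))]
  have hr1 : r ≤ 1 := hrr.trans (min_le_right _ _)
  have hr0 : r ≤ r₀ := hrr.trans (min_le_left _ _)
  refine ⟨2 * A, fun ψ φ u hψ hu hM hW K hs hK hx hz hal hL => ?_⟩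
  obtain ⟨Q, hQ, hQr, hΦ, hN⟩ := hbar K.x₀ hx
  have hxc : K.x₀ ∈ closure Ω := h.frontier_sub hx
  have hp : ∀ y ∈ closure Ω, ‖D1 (closure Ω) u y‖ < 1 := fun y hy => (hu.adm y hy).1
  have hz1 : ∀ y ∈ closure Ω, ‖y - K.x₀‖ ≤ r → |u y - K.z₀| ≤ 1 := fun y hy hyr => by
    have := h.lip hu.c2 (fun y hy => (hp y hy).le) hxc hy
    rw [hz]; linarith
  have hcL := CG9_contL K hu.c2.continuousOn (h.contOn_D1 hu.c2)
  have hcW : ContinuousOn (fun y => Wp (D1 (closure Ω) u y)) (closure Ω) := fun y hy =>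
    ContinuousAt.comp_continuousWithinAt (g := Wp) (f := D1 (closure Ω) u)
      (contDiffAt_Wp (hp y hy)).continuousAt (h.contOn_D1 hu.c2 y hy)
  have hcΦ : Continuous fun y : E n =>
      A * (2 * ⟪nin ρ K.x₀, y - K.x₀⟫ - Q (y - K.x₀) (y - K.x₀) / 2) := by fun_prop
  have hcZ : ContinuousOn (fun y => Wp (D1 (closure Ω) u y) * K.L y (u y) (D1 (closure Ω) u y)
      + A * (2 * ⟪nin ρ K.x₀, y - K.x₀⟫ - Q (y - K.x₀) (y - K.x₀) / 2))
      (closure Ω ∩ Metric.closedBall K.x₀ r) :=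
    ((hcW.mul hcL).add hcΦ.continuousOn).mono inter_subset_left
  obtain ⟨y, ⟨hy, hyr⟩, hmin⟩ := (h.isCompact.inter_right
    (Metric.isClosed_closedBall (x := K.x₀) (ε := r))).exists_isMinOn
    ⟨K.x₀, hxc, Metric.mem_closedBall_self hr.le⟩ hcZ
  rw [mem_closedBall_iff_norm] at hyr
  have hZ : 0 ≤ Wp (D1 (closure Ω) u y) * K.L y (u y) (D1 (closure Ω) u y)
      + A * (2 * ⟪nin ρ K.x₀, y - K.x₀⟫ - Q (y - K.x₀) (y - K.x₀) / 2) := by
    have w1 := one_le_Wp (hp y hy)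
    have w2 := hW y hy
    have f1 := mul_le_mul_of_nonneg_left (hΦ y hy hyr) hA0
    by_contra hneg
    push Not at hneg
    rcases h.mem_or hy with hyΩ | hyf
    · rcases hyr.eq_or_lt with he | hlt
      · have a1 := CG9_L hK (hyr.trans hr1) (hz1 y hy hyr) (hp y hy).le
        have a2 : |Wp (D1 (closure Ω) u y) * K.L y (u y) (D1 (closure Ω) u y)| ≤ W * (5 * CK) := by
          rw [abs_mul, abs_of_nonneg (by linarith)]
          exact mul_le_mul w2 a1 (abs_nonneg _) (by linarith)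
        rw [he] at f1
        linarith [neg_abs_le (Wp (D1 (closure Ω) u y) * K.L y (u y) (D1 (closure Ω) u y)),
          le_abs_self (5 * CK * W)]
      · have hn : closure Ω ∩ Metric.closedBall K.x₀ r ∈ 𝓝 y :=
          inter_mem (mem_of_superset (h.isOpen.mem_nhds hyΩ) subset_closure)
            (Metric.closedBall_mem_nhds_of_mem (mem_ball_iff_norm.2 hlt))
        have hloc : IsLocalMin (fun y => Wp (d1 u y) * K.L y (u y) (d1 u y)
            + A * (2 * ⟪nin ρ K.x₀, y - K.x₀⟫ - Q (y - K.x₀) (y - K.x₀) / 2)) y := by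
          refine (hmin.isLocalMin hn).congr ?_
          filter_upwards [h.isOpen.mem_nhds hyΩ] with y' hy'
          rw [← h.D1_eq u hy']
        have f2 : 0 ≤ A * (ε * ‖y - K.x₀‖ ^ 2) := by positivity
        have := CG9_min h hk hψ hu hs hK (h.norm_nin hx) hQ hyΩ (hM y hy)
          (h.D1_eq u hyΩ ▸ w2) (hyr.trans hr1) (hz1 y hy hyr)
          ((mul_le_mul_of_nonneg_left hyr (norm_nonneg _)).trans hQr) hA0 hloc
          (by rw [← h.D1_eq u hyΩ]; linarith) hN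
        linarith
    · have a1 := mul_le_mul_of_nonneg_left (hL y hyf (hyr.trans hr0)) (zero_le_one.trans w1)
      have a2 : Wp (D1 (closure Ω) u y) * C₁ ≤ |W * C₁| := by
        refine (le_abs_self _).trans ?_
        rw [abs_mul, abs_mul, abs_of_nonneg (zero_le_one.trans w1)]
        exact mul_le_mul_of_nonneg_right (w2.trans (le_abs_self _)) (abs_nonneg _)
      have a3 := mul_le_mul_of_nonneg_right (a2.trans hA2) (sq_nonneg ‖y - K.x₀‖)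
      nlinarith
  obtain ⟨l, hl, hlv⟩ := CG9_hasL h hu.c2 K hxc hz
  have h0 : HasFDerivAt (fun y : E n => y - K.x₀) (ContinuousLinearMap.id ℝ (E n)) K.x₀ :=
    (hasFDerivAt_id _).sub_const _
  have h1 := (((((innerSL ℝ (nin ρ K.x₀)).hasFDerivAt.comp K.x₀ h0).const_mul 2).sub
    (((Q.hasFDerivAt.comp K.x₀ h0).clm_apply h0).mul_const (2⁻¹ : ℝ))).const_mul (-A))
  have h2 := h.normal_le hx h1.hasFDerivWithinAt hl (by simp [Kil.L, Kil.t, Kil.v, hz, hal]) hr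
    fun y' hy' hy'r => by
      have a1 : _ ≤ Wp (D1 (closure Ω) u y') * K.L y' (u y') (D1 (closure Ω) u y')
        + A * (2 * ⟪nin ρ K.x₀, y' - K.x₀⟫ - Q (y' - K.x₀) (y' - K.x₀) / 2) :=
        hmin ⟨hy', mem_closedBall_iff_norm.2 hy'r⟩
      have a2 := hZ.trans a1
      have w1 := one_le_Wp (hp y' hy')
      have f1 := mul_le_mul_of_nonneg_left (hΦ y' hy' hy'r) hA0
      have f2 : 0 ≤ A * (ε * ‖y' - K.x₀‖ ^ 2) := by positivity
      show -A * (2 * ⟪nin ρ K.x₀, y' - K.x₀⟫ - Q (y' - K.x₀) (y' - K.x₀) * 2⁻¹) ≤ _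
      rw [← div_eq_mul_inv]
      rcases le_total 0 (K.L y' (u y') (D1 (closure Ω) u y')) with hs' | hs'
      · linarith
      · nlinarith
  rw [hlv] at h2
  simp [h.norm_nin hx] at h2
  linarith

end Pool.Agent.Mink.C
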