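import Pool.Agent.Lib.MP_88c759_an.Mink.CE8
import Pool.Agent.Lib.MP_88c759_an.Mink.CP5

set_option maxSynthPendingDepth 3

namespace Pool.Agent.Mink.C

open scoped ContDiff Topology RealInnerProductSpace
open Set Filter

variable {n : ℕ}

/-- third order terms -/
theorem third_order (k : ℕ) (hk : 2 ≤ k) (hkn : n ≤ 2 * k) {κ : Fin n → ℝ}
    (hκ : Gam Finset.univ k κ) (o : Fin n) (hmax : ∀ i, κ i ≤ κ o)
    {T : Fin n → Fin n → Fin n → ℝ} (hT : ∀ i l m, T i l m = T l i m ∧ T i l m = T i m l)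
    (hT0 : ∀ p a, p ≠ o → κ p = κ o → T o p a = 0) :
    κ o * (es Finset.univ k κ * Gq Finset.univ k κ (fun p => T p p o)
        + 2 * ∑ p ∈ Finset.univ.erase o, fk k κ p * (T p p o ^ 2 / (κ o - κ p)))
      - fk k κ o * T o o o ^ 2 - κ o * (∑ i, fk k κ i * T i i o) ^ 2 / es Finset.univ k κ
    ≤ κ o * (∑ a, fk k κ a * ∑ p ∈ Finset.univ.erase o, 2 * (T o p a ^ 2 / (κ o - κ p))
        - ∑ p, ∑ q ∈ Finset.univ.erase p, sk k κ p q * (T p p o * T q q o - T p q o ^ 2))
      - ∑ a, fk k κ a * T o o a ^ 2 := by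
  have hS : 0 < es Finset.univ k κ := hκ.pos le_rfl
  have hK : 0 < κ o := hκ.max_pos (by omega) fun i _ => hmax i
  have hf : ∀ a, 0 ≤ fk k κ a := fun a => ((hκ.erase (Finset.mem_univ a)).pos le_rfl).le
  have hs : ∀ p q, q ∈ Finset.univ.erase p → 0 ≤ sk k κ p q := fun p q hq =>
    (((hκ.erase (Finset.mem_univ p)).erase hq).pos (by omega)).le
  have hl : ∀ p, κ o - κ p ≤ 2 * κ o := fun p => by
    have h1 := hκ.lower (by omega) (fun i _ => hmax i) (Finset.mem_univ p)
    rw [Finset.card_univ, Fintype.card_fin] at h1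
    have h2 : (n : ℝ) ≤ 2 * k := by exact_mod_cast hkn
    have h3 : (2 : ℝ) ≤ k := by exact_mod_cast hk
    nlinarith
  have hd : ∀ p a, 0 ≤ T o p a ^ 2 / (κ o - κ p) := fun p a =>
    div_nonneg (sq_nonneg _) (sub_nonneg.2 (hmax p))
  have e1 : es Finset.univ k κ * Gq Finset.univ k κ (fun p => T p p o) =
      (∑ i, fk k κ i * T i i o) ^ 2 / es Finset.univ k κ -
        ∑ p, ∑ q ∈ Finset.univ.erase p, sk k κ p q * (T p p o * T q q o) := by
    have a1 : e1 Finset.univ k κ (fun p => T p p o) = ∑ i, fk k κ i * T i i o := by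
      rw [e1, if_neg (by omega)]
      exact Finset.sum_congr rfl fun i _ => mul_comm _ _
    have a2 : e2 Finset.univ k κ (fun p => T p p o) =
        ∑ p, ∑ q ∈ Finset.univ.erase p, sk k κ p q * (T p p o * T q q o) := by
      rw [e2, if_neg (by omega)]
      exact Finset.sum_congr rfl fun i _ => Finset.sum_congr rfl fun j _ => mul_comm _ _
    rw [Gq, a1, a2]
    field_simp
  have e2 : ∑ p, ∑ q ∈ Finset.univ.erase p, sk k κ p q * (T p p o * T q q o - T p q o ^ 2) =
      ∑ p, ∑ q ∈ Finset.univ.erase p, sk k κ p q * (T p p o * T q q o) -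
        ∑ p, ∑ q ∈ Finset.univ.erase p, sk k κ p q * T p q o ^ 2 := by
    simp only [mul_sub, Finset.sum_sub_distrib]
  have e3 : ∑ a, fk k κ a * T o o a ^ 2 =
      fk k κ o * T o o o ^ 2 + ∑ p ∈ Finset.univ.erase o, fk k κ p * T o p o ^ 2 := by
    rw [← Finset.add_sum_erase _ _ (Finset.mem_univ o)]
    exact congrArg _ (Finset.sum_congr rfl fun p _ => by rw [(hT o o p).2])
  have h1 : ∑ p ∈ Finset.univ.erase o, (2 * (fk k κ p * (T p p o ^ 2 / (κ o - κ p))) +
      fk k κ o * (2 * (T o p o ^ 2 / (κ o - κ p)))) ≤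
      ∑ a, fk k κ a * ∑ p ∈ Finset.univ.erase o, 2 * (T o p a ^ 2 / (κ o - κ p)) := by
    simp only [Finset.mul_sum]
    rw [Finset.sum_comm]
    refine Finset.sum_le_sum fun p hp => ?_
    have a1 := Finset.sum_le_sum_of_subset_of_nonneg (Finset.subset_univ {p, o})
      (f := fun a => fk k κ a * (2 * (T o p a ^ 2 / (κ o - κ p))))
      fun a _ _ => mul_nonneg (hf a) (mul_nonneg zero_le_two (hd p a))
    rw [Finset.sum_pair (Finset.ne_of_mem_erase hp), (hT o p p).1, (hT p o p).2] at a1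
    linarith
  have h2 : ∑ p ∈ Finset.univ.erase o, 2 * (sk k κ o p * T o p o ^ 2) ≤
      ∑ p, ∑ q ∈ Finset.univ.erase p, sk k κ p q * T p q o ^ 2 := by
    rw [← Finset.add_sum_erase _ _ (Finset.mem_univ o)]
    simp only [two_mul, Finset.sum_add_distrib]
    refine add_le_add le_rfl (Finset.sum_le_sum fun p hp => ?_)
    rw [sk_comm, (hT o p o).1]
    exact Finset.single_le_sum (f := fun q => sk k κ p q * T p q o ^ 2)
      (fun q hq => mul_nonneg (hs p q hq) (sq_nonneg _))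
      (Finset.mem_erase.2 ⟨(Finset.ne_of_mem_erase hp).symm, Finset.mem_univ _⟩)
  have h3 : ∑ p ∈ Finset.univ.erase o, fk k κ p * T o p o ^ 2 ≤
      κ o * ∑ p ∈ Finset.univ.erase o,
        (fk k κ o * (2 * (T o p o ^ 2 / (κ o - κ p))) + 2 * (sk k κ o p * T o p o ^ 2)) := by
    rw [Finset.mul_sum]
    refine Finset.sum_le_sum fun p hp => ?_
    have hpo := Finset.ne_of_mem_erase hp
    rcases (hmax p).eq_or_lt with h | h
    · simp [hT0 p o hpo h]
    have a0 : 0 < κ o - κ p := sub_pos.2 h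
    have a1 := fk_sub k hk κ hpo.symm
    have a2 : T o p o ^ 2 = (κ o - κ p) * (T o p o ^ 2 / (κ o - κ p)) := by field_simp
    have a3 := hd p o
    generalize T o p o ^ 2 / (κ o - κ p) = D at a2 a3
    rw [a2]
    have a4 : κ o * (fk k κ o * (2 * D) + 2 * (sk k κ o p * ((κ o - κ p) * D))) =
        fk k κ p * (2 * κ o * D) := by
      rw [show fk k κ p = fk k κ o + (κ o - κ p) * sk k κ o p by linarith]; ring
    rw [a4]
    exact mul_le_mul_of_nonneg_left (mul_le_mul_of_nonneg_right (hl p) a3) (hf p)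
  rw [Finset.sum_add_distrib, ← Finset.mul_sum] at h1
  rw [Finset.sum_add_distrib] at h3
  rw [e1, e2, e3, mul_div_assoc]
  nlinarith [mul_le_mul_of_nonneg_left h1 hK.le, mul_le_mul_of_nonneg_left h2 hK.le]

end Pool.Agent.Mink.C
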