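import Pool.Agent.Lib.MP_88c759_an.Mink.CK0

set_option maxSynthPendingDepth 3

namespace Pool.Agent.Mink.C

open scoped ContDiff Topology RealInnerProductSpace
open Set Filter

variable {n : ℕ}

theorem CK1_fk_pos {k : ℕ} {κ : Fin n → ℝ} (hκ : Gam Finset.univ k κ) (a : Fin n) :
    0 < fk k κ a := (hκ.erase (Finset.mem_univ a)).pos le_rfl

theorem CK1_abs_sum {x y : Fin n → ℝ} {p q : ℝ} (hx : ∀ a, |x a| ≤ p) (hy : ∀ a, |y a| ≤ q) :
    |∑ a, x a * y a| ≤ n * (p * q) := by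
  refine (Finset.abs_sum_le_sum_abs _ _).trans ?_
  have : ∀ a ∈ (Finset.univ : Finset (Fin n)), |x a * y a| ≤ p * q := fun a _ => by
    rw [abs_mul]
    exact mul_le_mul (hx a) (hy a) (abs_nonneg _) ((abs_nonneg _).trans (hx a))
  refine (Finset.sum_le_sum this).trans ?_
  simp

theorem CK1_T0 {κ : Fin n → ℝ} {o q : Fin n} (hq : q ≠ o) (hκ : κ q = κ o) (hL : 0 < κ o)
    {t : Fin n → ℝ} {R Z : ℝ}
    (h : ∀ c : Fin n → ℝ, (R + ∑ p ∈ Finset.univ.erase o,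
      (4 * c p * t p - 2 * c p ^ 2 * (κ o - κ p))) / κ o + Z ≤ 0) : t q = 0 := by
  by_contra h0
  have key : ∀ s : ℝ, (R + 4 * s * t q) / κ o + Z ≤ 0 := fun s => by
    have h1 := h (fun p => if p = q then s else 0)
    have h2 : ∑ p ∈ Finset.univ.erase o, (4 * (if p = q then s else 0) * t p
        - 2 * (if p = q then s else 0) ^ 2 * (κ o - κ p)) = 4 * s * t q := by
      rw [Finset.sum_eq_single q]
      · simp [hκ]
      · intro p _ hp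
        simp [hp]
      · intro h3
        exact absurd (Finset.mem_erase.2 ⟨hq, Finset.mem_univ _⟩) h3
    rwa [h2] at h1
  have h1 := key ((κ o * (1 - Z) - R) / (4 * t q))
  have h2 : (R + 4 * ((κ o * (1 - Z) - R) / (4 * t q)) * t q) / κ o + Z = 1 := by
    field_simp
    ring
  linarith

theorem CK1_opt (t D : ℝ) : 4 * (t / D) * t - 2 * (t / D) ^ 2 * D = 2 * (t ^ 2 / D) := by
  by_cases hD : D = 0
  · simp [hD]
  · field_simp
    ring

theorem CK1_Vg {w : ℝ} (hw : 0 < w) (κ b g : Fin n → ℝ) (V : Fin n → Fin n → Fin n → ℝ)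
    (o : Fin n) :
    ∑ m, V o o m * g m = (∑ m, TT w κ b V o o m * g m
      - κ o / w * ∑ m, κ m * b m * g m - 2 * κ o ^ 2 * b o * g o / w) / w := by
  have h1 : ∀ m, TT w κ b V o o m * g m = w * (V o o m * g m) + κ o / w * (κ m * b m * g m)
      + (if m = o then 2 * κ o ^ 2 * b o * g o / w else 0) := fun m => by
    unfold TT dl
    by_cases hm : m = o
    · subst hm
      simp only [if_true]
      field_simp
      ring
    · simp only [if_true, if_neg hm]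
      field_simp
      ring
  simp only [h1, Finset.sum_add_distrib, ← Finset.mul_sum, Finset.sum_ite_eq', Finset.mem_univ,
    if_true]
  field_simp
  ring

/-- the summed second order condition -/
theorem CK1_sum (k : ℕ) (hk : 2 ≤ k) (h2 : n ≤ 2 * k) {N A w : ℝ} {κ b X g P : Fin n → ℝ}
    {V : Fin n → Fin n → Fin n → ℝ} {z : Fin n → Fin n → ℝ} {o : Fin n} {P2 : ℝ} (hw : 0 < w)
    (hb : w ^ 2 = 1 + ∑ a, b a ^ 2) (hV : ∀ i l m, V i l m = V l i m ∧ V i l m = V i m l)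
    (hz : ∀ i a, z i a = z a i) (hκ : Gam Finset.univ k κ) (hmax : ∀ i, κ i ≤ κ o)
    (hS1 : ∀ a, S1 k w κ b V a = P a + κ a / w * g a)
    (hS2 : S2 k w κ b V z o = P2 + ∑ m, V o o m * g m)
    (h1 : ∀ a, TT w κ b V o o a / κ o + N * (κ a * b a) + A * X a = 0)
    (hc2 : ∀ a, ∀ c : Fin n → ℝ, (R2 w κ b V z o a + ∑ q ∈ Finset.univ.erase o,
            (4 * c q * TT w κ b V o q a - 2 * c q ^ 2 * (κ o - κ q))) / κ o
          - TT w κ b V o o a ^ 2 / κ o ^ 2 + N * W2 w κ b V a + A * (1 + b a ^ 2) ≤ 0) :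
    (∀ p a, p ≠ o → κ p = κ o → TT w κ b V o p a = 0) ∧
    κ o * (es Finset.univ k κ * Gq Finset.univ k κ (fun p => TT w κ b V p p o)
        + 2 * ∑ p ∈ Finset.univ.erase o, fk k κ p * (TT w κ b V p p o ^ 2 / (κ o - κ p)))
      - fk k κ o * TT w κ b V o o o ^ 2 + κ o ^ 2 * (1 + N * w) * ∑ a, fk k κ a * κ a ^ 2
      + κ o ^ 2 * A * ∑ a, fk k κ a * (1 + b a ^ 2)
    ≤ κ o * (S1 k w κ b V o) ^ 2 / es Finset.univ k κ - κ o * P2
      + κ o ^ 2 * A * ((∑ m, X m * g m) / w) + 2 * κ o ^ 3 * (b o * g o / w ^ 2)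
      - κ o ^ 2 * ((∑ l, b l * P l) / w) + κ o ^ 3 * (k * es Finset.univ k κ)
      - κ o ^ 2 * A * (k * es Finset.univ k κ) * ((∑ l, b l * X l) / w)
      - κ o ^ 2 * N * ∑ l, b l * P l := by
  have hL : 0 < κ o := hκ.max_pos (by omega) fun i _ => hmax i
  have hT0 : ∀ p a, p ≠ o → κ p = κ o → TT w κ b V o p a = 0 := fun p a hp hpo =>
    CK1_T0 (t := fun q => TT w κ b V o q a) (R := R2 w κ b V z o a)
      (Z := -(TT w κ b V o o a ^ 2 / κ o ^ 2) + N * W2 w κ b V a + A * (1 + b a ^ 2)) hp hpo hL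
      fun c => by linarith [hc2 a c]
  refine ⟨hT0, ?_⟩
  have h3 := third_order k hk h2 hκ o hmax (TT_sym w κ b hV) hT0
  have hs := simons k hk hw κ b hb hV hz o
  have hwi := w_identity k (by omega) hw κ b hV
  have hTa : ∀ a, TT w κ b V o o a = -(κ o * (N * (κ a * b a) + A * X a)) := fun a => by
    have := h1 a
    field_simp at this
    linarith
  have hTb : ∑ l, b l * TT w κ b V o o l
      = -(κ o * (N * ∑ l, b l * (κ l * b l) + A * ∑ l, b l * X l)) := by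
    simp only [hTa, Finset.mul_sum, ← Finset.sum_add_distrib, ← Finset.sum_neg_distrib]
    exact Finset.sum_congr rfl fun l _ => by ring
  have hTg : ∑ m, TT w κ b V o o m * g m
      = -(κ o * (N * ∑ m, κ m * b m * g m + A * ∑ m, X m * g m)) := by
    simp only [hTa, Finset.mul_sum, ← Finset.sum_add_distrib, ← Finset.sum_neg_distrib]
    exact Finset.sum_congr rfl fun l _ => by ring
  have hSb : ∑ l, b l * S1 k w κ b V l = ∑ l, b l * P l + (∑ m, κ m * b m * g m) / w := by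
    simp only [hS1, Finset.sum_div, ← Finset.sum_add_distrib]
    exact Finset.sum_congr rfl fun l _ => by ring
  have ha : ∀ a ∈ (Finset.univ : Finset (Fin n)), κ o * (fk k κ a * R2 w κ b V z o a)
      + κ o * (fk k κ a * ∑ p ∈ Finset.univ.erase o, 2 * (TT w κ b V o p a ^ 2 / (κ o - κ p)))
      - fk k κ a * TT w κ b V o o a ^ 2 + κ o ^ 2 * N * (fk k κ a * W2 w κ b V a)
      + κ o ^ 2 * A * (fk k κ a * (1 + b a ^ 2)) ≤ 0 := fun a _ => by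
    have h4 := hc2 a fun q => TT w κ b V o q a / (κ o - κ q)
    simp only [CK1_opt] at h4
    have h5 := mul_nonpos_of_nonneg_of_nonpos
      (mul_nonneg (sq_nonneg (κ o)) (CK1_fk_pos hκ a).le) h4
    refine le_of_eq_of_le ?_ h5
    field_simp
  have hsum := Finset.sum_nonpos ha
  simp only [Finset.sum_add_distrib, Finset.sum_sub_distrib, ← Finset.mul_sum] at hsum
  have hS1o : ∑ i, fk k κ i * TT w κ b V i i o = S1 k w κ b V o := rfl
  rw [hS1o] at h3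
  rw [hTb, hS2, CK1_Vg hw, hTg, hSb] at hs
  rw [hSb] at hwi
  have e1 : ∑ a, fk k κ a * R2 w κ b V z o a = _ := eq_sub_of_add_eq hs
  have e2 : ∑ a, fk k κ a * W2 w κ b V a = _ := eq_sub_of_add_eq hwi
  rw [e1, e2] at hsum
  simp only [← Finset.mul_sum] at h3
  generalize (∑ a, fk k κ a * (2 * ∑ p ∈ Finset.univ.erase o,
    TT w κ b V o p a ^ 2 / (κ o - κ p))) = U1 at h3 hsum
  generalize (∑ p, ∑ q ∈ Finset.univ.erase p, sk k κ p q *
    (TT w κ b V p p o * TT w κ b V q q o - TT w κ b V p q o ^ 2)) = U2 at h3 hsum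
  generalize (∑ a, fk k κ a * κ a ^ 2) = U3 at h3 hsum ⊢
  generalize (∑ a, fk k κ a * (1 + b a ^ 2)) = U4 at h3 hsum ⊢
  generalize (∑ m, X m * g m) = U5 at h3 hsum ⊢
  generalize (∑ l, b l * P l) = U6 at h3 hsum ⊢
  generalize (∑ l, b l * X l) = U7 at h3 hsum ⊢
  generalize (∑ m, κ m * b m * g m) = U8 at h3 hsum ⊢
  generalize (∑ l, b l * (κ l * b l)) = U9 at h3 hsum ⊢
  generalize (∑ a, fk k κ a * TT w κ b V o o a ^ 2) = U10 at h3 hsum ⊢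
  generalize (∑ p ∈ Finset.univ.erase o, fk k κ p * (TT w κ b V p p o ^ 2 / (κ o - κ p))) = U11
    at h3 hsum ⊢
  generalize Gq Finset.univ k κ (fun p => TT w κ b V p p o) = U12 at h3 hsum ⊢
  generalize S1 k w κ b V o = U13 at h3 hsum ⊢
  refine le_of_sub_nonpos (le_trans ?_ (add_nonpos (sub_nonpos.2 h3) hsum))
  apply le_of_eq
  field_simp
  ring

theorem CK1_final {c₀ C₀ W k m C₁ N μ A C₂ w L S S' P2 X g P b Xg Pb Xb ξ s f Fκ F E : ℝ}
    (hc : 0 < c₀) (hC : 0 < C₀) (hW : 1 ≤ W) (hk0 : 0 < k) (hn0 : 0 < m)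
    (hC₁ : C₁ = 4 * C₀ + k * C₀ + 4 * C₀ ^ 2 / c₀) (hN : N = 4 * m * (C₁ + 1) / (k * c₀))
    (hμ : 0 < μ) (hA : A = (C₁ + 2 * k * C₀ * N ^ 2 * W ^ 2 + 1) / μ)
    (hC₂ : C₂ = A * (m * C₀ ^ 2) * (1 + k) + m * C₀ + N * (m * (W * C₀)))
    (hw1 : 1 ≤ w) (hwW : w ≤ W) (hL1 : 1 < L) (hLA : 2 * A * C₀ / N < L)
    (hLC : C₂ + 2 * k * C₀ ^ 3 * A ^ 2 < L) (hS0 : c₀ ≤ S) (hS1 : S ≤ C₀)
    (hP2 : |P2| ≤ C₀ * (1 + L ^ 2)) (hX : |X| ≤ C₀) (hg : |g| ≤ C₀) (hP : |P| ≤ C₀) (hb : |b| ≤ w)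
    (hXg : |Xg| ≤ m * (C₀ * C₀)) (hPb : |Pb| ≤ m * (w * C₀)) (hXb : |Xb| ≤ m * (w * C₀))
    (hξ : ξ = -(L * (N * (L * b) + A * X))) (hs : s = P + L / w * g) (hf : 0 < f)
    (hfo : k * c₀ ≤ m * (L * f)) (hFκ : f * L ^ 2 ≤ Fκ) (hF : S' ≤ F) (hF0 : 0 ≤ F) (hE0 : 0 ≤ E)
    (hsum : L * E - f * ξ ^ 2 + L ^ 2 * (1 + N * w) * Fκ + L ^ 2 * A * F
      ≤ L * s ^ 2 / S - L * P2 + L ^ 2 * A * (Xg / w) + 2 * L ^ 3 * (b * g / w ^ 2)
        - L ^ 2 * (Pb / w) + L ^ 3 * (k * S) - L ^ 2 * A * (k * S) * (Xb / w) - L ^ 2 * N * Pb)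
    (hk2 : (1 - 1 / (4 * N * W ^ 2)) * (f * ξ ^ 2) ≤ L * E ∨ (μ * L ≤ S' ∧ L * f ≤ k * S)) :
    False := by
  have hw : 0 < w := one_pos.trans_le hw1
  have hL : 0 < L := one_pos.trans hL1
  have hS : 0 < S := hc.trans_le hS0
  have hC₁0 : 0 < C₁ := by rw [hC₁]; positivity
  have hN0 : 0 < N := by rw [hN]; positivity
  have hA0 : 0 < A := by rw [hA]; positivity
  have hC₂0 : 0 < C₂ := by rw [hC₂]; positivity
  have hdiv : ∀ {y c : ℝ}, |y| ≤ c * w → |y / w| ≤ c := fun {y c} h => by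
    rw [abs_div, abs_of_pos hw, div_le_iff₀ hw]; exact h
  have b1 : L * s ^ 2 / S ≤ L ^ 3 * (4 * C₀ ^ 2 / c₀) := by
    have h1 : |s| ≤ 2 * C₀ * L := by
      have h2 : |L / w * g| ≤ L * C₀ := by
        rw [abs_mul, abs_of_pos (div_pos hL hw)]
        exact mul_le_mul (div_le_self hL.le hw1) hg (abs_nonneg _) hL.le
      have h3 := abs_add_le P (L / w * g)
      have h4 : C₀ ≤ C₀ * L := le_mul_of_one_le_right hC.le hL1.le
      rw [hs]
      linarith only [h2, h3, h4, hP]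
    have h2 : s ^ 2 ≤ (2 * C₀ * L) ^ 2 := sq_le_sq' (abs_le.1 h1).1 (abs_le.1 h1).2
    calc L * s ^ 2 / S ≤ L * (2 * C₀ * L) ^ 2 / c₀ := by gcongr
      _ = _ := by ring
  have b2 : -(L * P2) ≤ L ^ 3 * (2 * C₀) := by
    have h1 : -P2 ≤ C₀ * (2 * L ^ 2) := by
      have h2 := (abs_le.1 hP2).1
      have h3 : 1 ≤ L ^ 2 := one_le_pow₀ hL1.le
      have h4 := mul_le_mul_of_nonneg_left h3 hC.le
      linarith only [h2, h4]
    have h2 := mul_le_mul_of_nonneg_left h1 hL.le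
    linarith only [h2]
  have b3 : L ^ 2 * A * (Xg / w) ≤ L ^ 2 * A * (m * C₀ ^ 2) := by
    have h1 : |Xg / w| ≤ m * C₀ ^ 2 := hdiv (by
      have h0 : m * C₀ ^ 2 ≤ m * C₀ ^ 2 * w := le_mul_of_one_le_right (by positivity) hw1
      linarith only [h0, hXg])
    exact mul_le_mul_of_nonneg_left (abs_le.1 h1).2 (by positivity)
  have b4 : 2 * L ^ 3 * (b * g / w ^ 2) ≤ 2 * L ^ 3 * C₀ := by
    have h1 : b * g / w ^ 2 ≤ C₀ := by
      rw [div_le_iff₀ (by positivity)]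
      have h2 : |b * g| ≤ w * C₀ := by
        rw [abs_mul]; exact mul_le_mul hb hg (abs_nonneg _) hw.le
      have h3 : w * C₀ ≤ w * C₀ * w := le_mul_of_one_le_right (by positivity) hw1
      linarith only [(abs_le.1 h2).2, h3]
    exact mul_le_mul_of_nonneg_left h1 (by positivity)
  have b5 : -(L ^ 2 * (Pb / w)) ≤ L ^ 2 * (m * C₀) := by
    have h1 : |Pb / w| ≤ m * C₀ := hdiv (by linarith only [hPb])
    have h2 := mul_le_mul_of_nonneg_left (abs_le.1 h1).1 (sq_nonneg L)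
    linarith only [h2]
  have b6 : L ^ 3 * (k * S) ≤ L ^ 3 * (k * C₀) := by gcongr
  have b7 : -(L ^ 2 * A * (k * S) * (Xb / w)) ≤ L ^ 2 * A * (k * C₀) * (m * C₀) := by
    have h1 : |Xb / w| ≤ m * C₀ := hdiv (by linarith only [hXb])
    have h2 : L ^ 2 * A * (k * S) * -(Xb / w) ≤ L ^ 2 * A * (k * S) * (m * C₀) :=
      mul_le_mul_of_nonneg_left (by linarith only [(abs_le.1 h1).1]) (by positivity)
    have h3 : L ^ 2 * A * (k * S) * (m * C₀) ≤ L ^ 2 * A * (k * C₀) * (m * C₀) := by gcongr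
    linarith only [h2, h3]
  have b8 : -(L ^ 2 * N * Pb) ≤ L ^ 2 * N * (m * (W * C₀)) := by
    have h1 : m * (w * C₀) ≤ m * (W * C₀) := by gcongr
    have h2 : L ^ 2 * N * -Pb ≤ L ^ 2 * N * (m * (W * C₀)) :=
      mul_le_mul_of_nonneg_left (by linarith only [(abs_le.1 hPb).1, h1]) (by positivity)
    linarith only [h2]
  have hmain : L * E - f * ξ ^ 2 + L ^ 2 * (1 + N * w) * Fκ + L ^ 2 * A * F
      ≤ C₁ * L ^ 3 + C₂ * L ^ 2 := by
    rw [hC₁, hC₂]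
    linarith only [hsum, b1, b2, b3, b4, b5, b6, b7, b8]
  have hξ2 : ξ ^ 2 ≤ 2 * L ^ 2 * (N ^ 2 * W ^ 2 * L ^ 2 + A ^ 2 * C₀ ^ 2) := by
    have h1 : b ^ 2 ≤ W ^ 2 := sq_le_sq' (by linarith only [(abs_le.1 hb).1, hwW])
      (by linarith only [(abs_le.1 hb).2, hwW])
    have h2 : X ^ 2 ≤ C₀ ^ 2 := sq_le_sq' (abs_le.1 hX).1 (abs_le.1 hX).2
    have h3 : (N * (L * b) + A * X) ^ 2 ≤ 2 * (N ^ 2 * L ^ 2 * b ^ 2 + A ^ 2 * X ^ 2) := by
      linarith only [sq_nonneg (N * (L * b) - A * X)]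
    have h4 : N ^ 2 * L ^ 2 * b ^ 2 ≤ N ^ 2 * L ^ 2 * W ^ 2 := by gcongr
    have h5 : A ^ 2 * X ^ 2 ≤ A ^ 2 * C₀ ^ 2 := by gcongr
    have h6 : ξ ^ 2 = L ^ 2 * (N * (L * b) + A * X) ^ 2 := by rw [hξ]; ring
    have h7 : (N * (L * b) + A * X) ^ 2 ≤ 2 * (N ^ 2 * W ^ 2 * L ^ 2 + A ^ 2 * C₀ ^ 2) := by
      linarith only [h3, h4, h5]
    have h8 := mul_le_mul_of_nonneg_left h7 (sq_nonneg L)
    rw [h6]
    linarith only [h8]
  have hFκ' : L ^ 2 * N * (f * L ^ 2) ≤ L ^ 2 * (1 + N * w) * Fκ := by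
    have h1 : N ≤ 1 + N * w := by
      have h0 : N ≤ N * w := le_mul_of_one_le_right hN0.le hw1
      linarith only [h0]
    gcongr
  rcases hk2 with hl | ⟨hr1, hr2⟩
  · have h1 : 1 / (4 * N * W ^ 2) * (f * ξ ^ 2) ≤ f * L ^ 2 * (3 / 4 * N * L ^ 2) := by
      have h2 : 2 * A * C₀ ≤ N * L := by
        rw [div_lt_iff₀ hN0] at hLA
        linarith only [hLA]
      have h3 : (2 * A * C₀) ^ 2 ≤ (N * L) ^ 2 := by gcongr
      have h4 : (N * L) ^ 2 ≤ (N * L) ^ 2 * W ^ 2 :=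
        le_mul_of_one_le_right (sq_nonneg _) (one_le_pow₀ hW)
      have h5 : ξ ^ 2 ≤ L ^ 2 * (3 * N ^ 2 * W ^ 2 * L ^ 2) := by
        have h6 : 2 * (N ^ 2 * W ^ 2 * L ^ 2 + A ^ 2 * C₀ ^ 2) ≤ 3 * N ^ 2 * W ^ 2 * L ^ 2 := by
          have h8 : 0 ≤ (N * L) ^ 2 * W ^ 2 := by positivity
          linarith only [h3, h4, h8]
        have h7 := mul_le_mul_of_nonneg_left h6 (sq_nonneg L)
        linarith only [h7, hξ2]
      calc 1 / (4 * N * W ^ 2) * (f * ξ ^ 2)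
          ≤ 1 / (4 * N * W ^ 2) * (f * (L ^ 2 * (3 * N ^ 2 * W ^ 2 * L ^ 2))) := by gcongr
        _ = _ := by field_simp
    have h2 : (C₁ + 1) * L ^ 3 ≤ N / 4 * (L * f) * L ^ 3 := by
      have h3 : C₁ + 1 ≤ N / 4 * (L * f) := by
        rw [hN]
        have : 4 * m * (C₁ + 1) / (k * c₀) / 4 * (L * f) = (C₁ + 1) * (m * (L * f) / (k * c₀)) := by
          field_simp
        rw [this]
        exact le_mul_of_one_le_right (by linarith only [hC₁0]) ((one_le_div (by positivity)).2 hfo)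
      gcongr
    have h3 : 0 ≤ L ^ 2 * A * F := by positivity
    have h4 : L ^ 3 ≤ C₂ * L ^ 2 := by linarith only [hl, h1, h2, h3, hmain, hFκ']
    have h5 : 0 ≤ 2 * k * C₀ ^ 3 * A ^ 2 := by positivity
    have h6 := mul_lt_mul_of_pos_right (show C₂ < L by linarith only [hLC, h5]) (sq_pos_of_pos hL)
    linarith only [h4, h6]
  · have h1 : f * ξ ^ 2 ≤ 2 * (k * C₀) * L * (N ^ 2 * W ^ 2 * L ^ 2 + A ^ 2 * C₀ ^ 2) := by
      have h2 : L * f ≤ k * C₀ := hr2.trans (by gcongr)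
      calc f * ξ ^ 2 ≤ f * (2 * L ^ 2 * (N ^ 2 * W ^ 2 * L ^ 2 + A ^ 2 * C₀ ^ 2)) := by gcongr
        _ = 2 * (L * f) * L * (N ^ 2 * W ^ 2 * L ^ 2 + A ^ 2 * C₀ ^ 2) := by ring
        _ ≤ _ := by gcongr
    have h2 : (C₁ + 2 * k * C₀ * N ^ 2 * W ^ 2 + 1) * L ^ 3 ≤ L ^ 2 * A * F := by
      have h3 : L ^ 2 * A * (μ * L) ≤ L ^ 2 * A * F := by gcongr; exact hr1.trans hF
      refine le_of_eq_of_le ?_ h3
      rw [hA]
      field_simp
    have h3 : 0 ≤ L ^ 2 * N * (f * L ^ 2) := by positivity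
    have h4 : 0 ≤ L * E := by positivity
    have h5 : 2 * k * C₀ ^ 3 * A ^ 2 * L ≤ 2 * k * C₀ ^ 3 * A ^ 2 * L ^ 2 := by
      have : L ≤ L ^ 2 := le_self_pow₀ hL1.le two_ne_zero
      gcongr
    have h6 : L ^ 3 ≤ (C₂ + 2 * k * C₀ ^ 3 * A ^ 2) * L ^ 2 := by
      linarith only [h1, h2, h3, h4, h5, hmain, hFκ']
    have h7 := mul_lt_mul_of_pos_right hLC (sq_pos_of_pos hL)
    linarith only [h6, h7]

/-- the pointwise inequality at an interior maximum of `log κ_max + N W + A |x|² / 2` -/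
theorem curv_alg (k : ℕ) (hk : 2 ≤ k) (hkn : k + 1 ≤ n) (h2 : n < 2 * k) (W c₀ C₀ : ℝ)
    (hc : 0 < c₀) : ∃ N A B : ℝ, 0 ≤ N ∧ 0 ≤ A ∧
    ∀ (w : ℝ) (κ b X g P : Fin n → ℝ) (V : Fin n → Fin n → Fin n → ℝ) (z : Fin n → Fin n → ℝ)
      (o : Fin n) (P2 : ℝ), 1 ≤ w → w ≤ W → w ^ 2 = 1 + ∑ a, b a ^ 2 →
      (∀ i l m, V i l m = V l i m ∧ V i l m = V i m l) → (∀ i a, z i a = z a i) →
      Gam Finset.univ k κ → (∀ i, κ i ≤ κ o) → c₀ ≤ es Finset.univ k κ →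
      es Finset.univ k κ ≤ C₀ → (∀ a, |X a| ≤ C₀ ∧ |g a| ≤ C₀ ∧ |P a| ≤ C₀) →
      |P2| ≤ C₀ * (1 + κ o ^ 2) →
      (∀ a, S1 k w κ b V a = P a + κ a / w * g a) →
      S2 k w κ b V z o = P2 + ∑ m, V o o m * g m →
      (∀ a, TT w κ b V o o a / κ o + N * (κ a * b a) + A * X a = 0) →
      (∀ a, ∀ c : Fin n → ℝ, (R2 w κ b V z o a + ∑ q ∈ Finset.univ.erase o,
            (4 * c q * TT w κ b V o q a - 2 * c q ^ 2 * (κ o - κ q))) / κ o
          - TT w κ b V o o a ^ 2 / κ o ^ 2 + N * W2 w κ b V a + A * (1 + b a ^ 2) ≤ 0) →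
      κ o ≤ B := by
  by_cases hC : 0 < C₀
  swap
  · exact ⟨0, 0, 0, le_rfl, le_rfl, fun w κ b X g P V z o P2 _ _ _ _ _ _ _ h1 h2 =>
      absurd (hc.trans_le (h1.trans h2)) hC⟩
  by_cases hW : 1 ≤ W
  swap
  · exact ⟨0, 0, 0, le_rfl, le_rfl, fun w κ b X g P V z o P2 h1 h2 => absurd (h1.trans h2) hW⟩
  have hk0 : (0 : ℝ) < k := by exact_mod_cast (by omega : 0 < k)
  have hn0 : (0 : ℝ) < n := by exact_mod_cast (by omega : 0 < n)
  have hkn' : (k : ℝ) + 1 ≤ n := by exact_mod_cast hkn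
  obtain ⟨C₁, hC₁⟩ : ∃ C₁ : ℝ, C₁ = 4 * C₀ + k * C₀ + 4 * C₀ ^ 2 / c₀ := ⟨_, rfl⟩
  have hC₁0 : 0 < C₁ := by rw [hC₁]; positivity
  obtain ⟨N, hN⟩ : ∃ N : ℝ, N = 4 * n * (C₁ + 1) / (k * c₀) := ⟨_, rfl⟩
  have hN0 : 0 < N := by rw [hN]; positivity
  obtain ⟨μ, B, hμ, hkey⟩ := key k hk hkn h2 (1 / (4 * N * W ^ 2)) c₀ C₀ (by positivity) hc
  obtain ⟨A, hA⟩ : ∃ A : ℝ, A = (C₁ + 2 * k * C₀ * N ^ 2 * W ^ 2 + 1) / μ := ⟨_, rfl⟩
  have hA0 : 0 < A := by rw [hA]; positivity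
  obtain ⟨C₂, hC₂⟩ : ∃ C₂ : ℝ,
    C₂ = A * (n * C₀ ^ 2) * (1 + k) + n * C₀ + N * (n * (W * C₀)) := ⟨_, rfl⟩
  have hC₂0 : 0 < C₂ := by rw [hC₂]; positivity
  refine ⟨N, A, max (max 1 B) (max (2 * A * C₀ / N) (C₂ + 2 * k * C₀ ^ 3 * A ^ 2)), hN0.le, hA0.le,
    fun w κ b X g P V z o P2 hw1 hwW hb hV hz hκ hmax hS0 hS1' hbd hP2 hS1 hS2 h1 hc2 => ?_⟩
  by_contra hcon
  have hcon' := not_le.1 hcon
  simp only [max_lt_iff] at hcon'
  obtain ⟨⟨hL1, hLB⟩, hLA, hLC⟩ := hcon'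
  have hw : 0 < w := by linarith
  obtain ⟨hT0, hsum⟩ := CK1_sum k hk h2.le hw hb hV hz hκ hmax hS1 hS2 h1 hc2
  have hTs := TT_sym w κ b hV
  have hη : ∀ p, p ≠ o → 0 ≤ TT w κ b V p p o ^ 2 / (κ o - κ p) ∧
      TT w κ b V p p o ^ 2 ≤ TT w κ b V p p o ^ 2 / (κ o - κ p) * (κ o - κ p) := fun p hp => by
    refine ⟨div_nonneg (sq_nonneg _) (sub_nonneg.2 (hmax p)), ?_⟩
    by_cases h0 : κ o - κ p = 0
    · have h3 : TT w κ b V p p o = 0 := by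
        rw [(hTs p p o).2, (hTs p o p).1]
        exact hT0 p p hp (by linarith)
      simp [h3]
    · rw [div_mul_cancel₀ _ h0]
  have hk2 := hkey κ (fun p => TT w κ b V p p o) (fun p => TT w κ b V p p o ^ 2 / (κ o - κ p)) o
    hκ hmax hS0 hS1' hLB.le hη
  have hf := CK1_fk_pos hκ
  have hSpos : 0 < es Finset.univ k κ := hc.trans_le hS0
  have hE0 : 0 ≤ es Finset.univ k κ * Gq Finset.univ k κ (fun p => TT w κ b V p p o)
      + 2 * ∑ p ∈ Finset.univ.erase o, fk k κ p * (TT w κ b V p p o ^ 2 / (κ o - κ p)) :=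
    add_nonneg (mul_nonneg hSpos.le (Gq_nonneg hκ _)) (mul_nonneg zero_le_two
      (Finset.sum_nonneg fun p hp => mul_nonneg (hf p).le (hη p (Finset.mem_erase.1 hp).1).1))
  have hbw : ∀ a, |b a| ≤ w := fun a => by
    refine abs_le_of_sq_le_sq' ?_ hw.le |> abs_le.2
    have := Finset.single_le_sum (f := fun a => b a ^ 2) (fun i _ => sq_nonneg (b i))
      (Finset.mem_univ a)
    linarith
  have hFκ : fk k κ o * κ o ^ 2 ≤ ∑ a, fk k κ a * κ a ^ 2 :=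
    Finset.single_le_sum (f := fun a => fk k κ a * κ a ^ 2)
      (fun i _ => mul_nonneg (hf i).le (sq_nonneg _)) (Finset.mem_univ o)
  have hF : es Finset.univ (k - 1) κ ≤ ∑ a, fk k κ a * (1 + b a ^ 2) := by
    have h3 : ∑ a, fk k κ a ≤ ∑ a, fk k κ a * (1 + b a ^ 2) :=
      Finset.sum_le_sum fun a _ => le_mul_of_one_le_right (hf a).le
        (le_add_of_nonneg_right (sq_nonneg (b a)))
    rw [sum_fk k (by omega)] at h3
    have h4 := hκ.pos (j := k - 1) (by omega)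
    nlinarith only [h3, h4, hkn']
  have hF0 : 0 ≤ ∑ a, fk k κ a * (1 + b a ^ 2) := (hκ.pos (j := k - 1) (by omega)).le.trans hF
  have hfo : k * c₀ ≤ n * (κ o * fk k κ o) := by
    have h3 := hκ.part_lower (by omega) (fun i _ => hmax i) (Finset.mem_univ o)
    simp only [Finset.card_univ, Fintype.card_fin] at h3
    have h4 : (k : ℝ) * c₀ ≤ k * es Finset.univ k κ := mul_le_mul_of_nonneg_left hS0 hk0.le
    unfold fk
    linarith
  have hXg : |∑ m, X m * g m| ≤ n * (C₀ * C₀) :=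
    CK1_abs_sum (fun a => (hbd a).1) fun a => (hbd a).2.1
  have hbP : |∑ l, b l * P l| ≤ n * (w * C₀) := CK1_abs_sum hbw fun a => (hbd a).2.2
  have hbX : |∑ l, b l * X l| ≤ n * (w * C₀) := CK1_abs_sum hbw fun a => (hbd a).1
  have hξ : TT w κ b V o o o = -(κ o * (N * (κ o * b o) + A * X o)) := by
    have := h1 o
    have hL : κ o ≠ 0 := by linarith
    field_simp at this
    linarith
  have hS1o := hS1 o
  obtain ⟨hXo, hgo, hPo⟩ := hbd o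
  have hbo := hbw o
  generalize es Finset.univ k κ * Gq Finset.univ k κ (fun p => TT w κ b V p p o)
      + 2 * ∑ p ∈ Finset.univ.erase o, fk k κ p * (TT w κ b V p p o ^ 2 / (κ o - κ p)) = E
    at hsum hk2 hE0
  generalize TT w κ b V o o o = ξ at hsum hk2 hξ
  generalize ∑ a, fk k κ a * κ a ^ 2 = Fκ at hsum hFκ
  generalize ∑ a, fk k κ a * (1 + b a ^ 2) = F at hsum hF hF0
  generalize ∑ m, X m * g m = Xg at hsum hXg
  generalize ∑ l, b l * P l = Pb at hsum hbP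
  generalize ∑ l, b l * X l = Xb at hsum hbX
  generalize S1 k w κ b V o = s at hsum hS1o
  have hfo0 := hf o
  generalize fk k κ o = f at hsum hk2 hFκ hfo hfo0
  generalize es Finset.univ (k - 1) κ = S' at hk2 hF
  generalize es Finset.univ k κ = S at hsum hk2 hS0 hS1' hSpos
  generalize κ o = L at *
  exact CK1_final hc hC hW hk0 hn0 hC₁ hN hμ hA hC₂ hw1 hwW hL1 hLA hLC hS0 hS1' hP2 hXo hgo hPo hbo
    hXg hbP hbX hξ hS1o hfo0 hfo hFκ hF hF0 hE0 hsum hk2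

end Pool.Agent.Mink.C
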