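import Pool.Agent.Lib.MP_88c759_an.Mink.CP1

set_option maxSynthPendingDepth 3

namespace Pool.Agent.Mink.C

open scoped ContDiff Topology RealInnerProductSpace
open Set Filter

variable {n : ℕ}

theorem CP3_alg {w : ℝ} (hw : w ≠ 0) (κ b c c' : Fin n → ℝ) (V : Fin n → Fin n → Fin n → ℝ)
    (o a : Fin n) (hV : ∀ q, V o q o = V o o q) (hc : ∀ q, c' q = c q + dl a o * κ o / w * b q) :
    4 * w * ∑ q ∈ Finset.univ.erase o, c' q * V o q a
      + 2 * w * ∑ q ∈ Finset.univ.erase o, c' q * (c' q * (κ q / w))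
      - 2 * κ o * ∑ q ∈ Finset.univ.erase o, c' q * c' q
      + 4 * κ o * b o * ∑ q ∈ Finset.univ.erase o, c' q * (dl a q * κ a / w)
      + 4 * κ o * (dl a o * κ a / w) * ∑ q ∈ Finset.univ.erase o, c' q * b q =
    dl a o * ∑ p ∈ Finset.univ.erase o,
        (4 * κ o / w * b p * TT w κ b V o o p + 2 * κ o ^ 2 / w ^ 2 * b p ^ 2 * (κ o - κ p))
      + ∑ q ∈ Finset.univ.erase o,
          (4 * c q * TT w κ b V o q a - 2 * c q ^ 2 * (κ o - κ q)) := by
  simp only [Finset.mul_sum, ← Finset.sum_add_distrib, ← Finset.sum_sub_distrib]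
  refine Finset.sum_congr rfl fun q hq => ?_
  have h1 : q ≠ o := Finset.ne_of_mem_erase hq
  rw [hc q]
  by_cases h : a = o
  · subst h
    simp only [TT, dl, if_true, h1, h1.symm, if_false, hV]
    field_simp
    ring
  · simp only [TT, dl, h, h1.symm, if_false]
    field_simp
    ring

theorem CP3_ite {s : Finset (Fin n)} (f g : Fin n → ℝ) {q : Fin n} (hq : q ∈ s) :
    ∑ l ∈ s, f l * (dl q l * g q) = f q * g q := by
  rw [Finset.sum_eq_single_of_mem q hq fun l _ hl => by simp [dl, hl.symm]]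
  simp [dl]

theorem CP3_zero (f : Fin n → ℝ) (o : Fin n) (g : ℝ) :
    ∑ l ∈ Finset.univ.erase o, f l * (dl o l * g) = 0 :=
  Finset.sum_eq_zero fun l hl => by simp [dl, (Finset.ne_of_mem_erase hl).symm]

/-- two-jet of the Rayleigh quotient along `e a`, with test field `e o + t ξ'` -/
theorem J2_ray {u : E n → ℝ} {x : E n} (hu : ContDiffAt ℝ 4 u x) (hp : ‖d1 u x‖ < 1)
    {e : Fin n → E n} {κ : Fin n → ℝ} (hd : Diag (d1 u x) (d2 u x) e κ) (o a : Fin n)
    (c : Fin n → ℝ) (ξ' : E n)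
    (hξ : ξ' = ∑ q ∈ Finset.univ.erase o,
      (c q + dl a o * κ o / Wp (d1 u x) * d1 u x (e q)) • e q) :
    J2 (fun t : ℝ => Wp (d1 u (x + t • e a)) * d2 u (x + t • e a) (e o + t • ξ') (e o + t • ξ')
        / gp (d1 u (x + t • e a)) (e o + t • ξ') (e o + t • ξ')) (κ o)
      (TT (Wp (d1 u x)) κ (fun i => d1 u x (e i)) (V3 u x e) o o a)
      (R2 (Wp (d1 u x)) κ (fun i => d1 u x (e i)) (V3 u x e) (z4 u x e) o a
        + ∑ q ∈ Finset.univ.erase o,
          (4 * c q * TT (Wp (d1 u x)) κ (fun i => d1 u x (e i)) (V3 u x e) o q a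
            - 2 * c q ^ 2 * (κ o - κ q))) := by
  have hu3 : ContDiffAt ℝ 3 u x := hu.of_le (by norm_num)
  have hu2 : ContDiffAt ℝ 2 u x := hu.of_le (by norm_num)
  have hw := (Wp_pos hp).ne'
  obtain ⟨c', hc⟩ : ∃ c' : Fin n → ℝ,
      ∀ q, c' q = c q + dl a o * κ o / Wp (d1 u x) * d1 u x (e q) := ⟨_, fun _ => rfl⟩
  simp only [← hc] at hξ
  have lin : ∀ L : E n →L[ℝ] ℝ, L ξ' = ∑ q ∈ Finset.univ.erase o, c' q * L (e q) := fun L => by
    rw [hξ, map_sum]
    simp only [map_smul, smul_eq_mul]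
  have hr : ∀ i j, d2 u x (e i) (e j) = dl i j * (κ i / Wp (d1 u x)) := fun i j => by
    have h := hd.2 i j
    rw [dl, ite_mul, one_mul, zero_mul]
    split_ifs at h ⊢
    · rw [← h]
      field_simp
    · exact (mul_eq_zero.1 h).resolve_left hw
  have hg : ∀ i j, gfl (d1 u x) (e i) (e j) = dl i j * 1 := fun i j => by
    rw [gfl_apply, hd.1 i j, dl, mul_one]
  have hA : d3 u x (e a) (e o) ξ' = ∑ q ∈ Finset.univ.erase o, c' q * V3 u x e o q a := by
    rw [lin]
    refine Finset.sum_congr rfl fun q _ => ?_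
    rw [V3, (sym_d3 hu3 _ _ _).1, (sym_d3 hu3 _ _ _).2]
  have hB : d3 u x (e a) ξ' (e o) = d3 u x (e a) (e o) ξ' := (sym_d3 hu3 _ _ _).2
  have hC : d2 u x ξ' ξ' = ∑ q ∈ Finset.univ.erase o, c' q * (c' q * (κ q / Wp (d1 u x))) := by
    rw [lin]
    refine Finset.sum_congr rfl fun q hq => ?_
    rw [sym_d2 hu2, lin]
    simp only [hr]
    rw [CP3_ite c' (fun i => κ i / Wp (d1 u x)) hq]
  have hD : d2 u x (e a) ξ' =
      ∑ q ∈ Finset.univ.erase o, c' q * (dl a q * κ a / Wp (d1 u x)) := by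
    rw [lin]
    simp only [hr, mul_div_assoc]
  have hE := lin (d1 u x)
  have hF : ⟪ξ', ξ'⟫ = ∑ q ∈ Finset.univ.erase o, c' q * c' q + d1 u x ξ' * d1 u x ξ' := by
    have h : gfl (d1 u x) ξ' ξ' = ∑ q ∈ Finset.univ.erase o, c' q * c' q := by
      rw [lin]
      refine Finset.sum_congr rfl fun q hq => ?_
      rw [gfl_apply, gp_comm, ← gfl_apply, lin]
      simp only [hg]
      rw [CP3_ite c' (fun _ => 1) hq, mul_one]
    rw [gfl_apply, gp] at h
    linarith
  have hG : d2 u x (e o) ξ' = 0 := by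
    rw [lin]
    simp only [hr]
    exact CP3_zero _ _ _
  have hG' : d2 u x ξ' (e o) = 0 := by rw [sym_d2 hu2, hG]
  have hH : ⟪e o, ξ'⟫ = d1 u x (e o) * d1 u x ξ' := by
    have h : gfl (d1 u x) (e o) ξ' = 0 := by
      rw [lin]
      simp only [hg]
      exact CP3_zero _ _ _
    rw [gfl_apply, gp] at h
    linarith
  have hH' : ⟪ξ', e o⟫ = d1 u x (e o) * d1 u x ξ' := by rw [real_inner_comm, hH]
  have hI : ⟪e o, e o⟫ - d1 u x (e o) * d1 u x (e o) = 1 := by
    have h := hd.1 o o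
    rwa [if_pos rfl] at h
  have hV1 : d3 u x (e a) (e o) (e o) = V3 u x e o o a := by
    rw [V3, (sym_d3 hu3 _ _ _).1, (sym_d3 hu3 _ _ _).2]
  have hV2 : d3 u x (e a) (e a) (e o) = V3 u x e o a a := by
    rw [V3, (sym_d3 hu3 _ _ _).2, (sym_d3 hu3 _ _ _).1]
  have hz : d4 u x (e a) (e a) (e o) (e o) = z4 u x e o a := rfl
  have hoo : dl o o = 1 := if_pos rfl
  have hoa : dl o a = dl a o := by simp only [dl, eq_comm]
  have hdd : dl a o * dl a o = dl a o := by
    rw [dl]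
    split_ifs <;> simp
  have key := CP3_alg hw κ (fun i => d1 u x (e i)) c c' (V3 u x e) o a
    (fun q => (V3_sym hu3 e o q o).2) hc
  have L := J2.line (e o) ξ'
  have P := (J2_d1 hu3 (e a)).app L
  have N := (J2_W hu3 hp hd a).mul (((J2_d2 hu (e a)).app L).app L)
  have D := (L.inner L).sub (P.mul P)
  rw [hI] at D
  have Q := N.div D one_ne_zero
  simp only [_root_.add_apply, _root_.smul_apply, smul_eq_mul, map_zero, _root_.zero_apply,
    inner_zero_left, inner_zero_right, hB, hF, hG, hG', hH, hH', hV1, hV2, hz, hr, hoo] at Q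
  rw [← hA, ← hC, ← hD, ← hE] at key
  refine Q.of_eq ?_ ?_ ?_
  · field_simp
  · simp only [TT, hoo]
    field_simp
    ring
  · rw [R2, add_assoc _ (dl a o * _), ← key]
    simp only [TT, hoo, hoa]
    field_simp
    linear_combination (2 * κ o * κ a ^ 2) * hdd

end Pool.Agent.Mink.C
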