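import Pool.Agent.Lib.MP_88c759_an.Mink.CK1
import Pool.Agent.Lib.MP_88c759_an.Mink.CG7
import Pool.Agent.Lib.MP_88c759_an.Mink.CP3

set_option maxSynthPendingDepth 3

namespace Pool.Agent.Mink.C

open scoped ContDiff Topology RealInnerProductSpace
open Set Filter

variable {n : ℕ}

variable {Ω : Set (E n)} {ρ : E n → ℝ}

/-- the Rayleigh quotient -/
noncomputable def CK2_ray (p : B1 n) (r : B2 n) (ξ : E n) : ℝ := Wp p * r ξ ξ / gp p ξ ξ

/-- the logarithm of the weight -/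
noncomputable def CK2_wt (N A : ℝ) (p : B1 n) (x : E n) : ℝ := N * Wp p + A / 2 * ⟪x, x⟫

theorem CK2_gp_pos {p : B1 n} (hp : ‖p‖ < 1) {ξ : E n} (hξ : ξ ≠ 0) : 0 < gp p ξ ξ := by
  refine lt_of_lt_of_le (mul_pos ?_ (pow_pos (norm_pos_iff.2 hξ) 2)) (gp_self_ge p ξ)
  nlinarith [norm_nonneg p]

theorem CK2_ray_smul (p : B1 n) (r : B2 n) (ξ : E n) {c : ℝ} (hc : c ≠ 0) :
    CK2_ray p r (c • ξ) = CK2_ray p r ξ := by
  have h1 : gp p (c • ξ) (c • ξ) = c * c * gp p ξ ξ := by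
    simp only [gp, map_smul, real_inner_smul_left, real_inner_smul_right, smul_eq_mul]
    ring
  have h2 : Wp p * r (c • ξ) (c • ξ) = c * c * (Wp p * r ξ ξ) := by
    simp only [map_smul, smul_apply, smul_eq_mul]
    ring
  rw [CK2_ray, h1, h2, mul_div_mul_left _ _ (mul_ne_zero hc hc), CK2_ray]

theorem CK2_ray_le {p : B1 n} {r : B2 n} {e : Fin n → E n} {κ : Fin n → ℝ} (h : Diag p r e κ)
    (hp : ‖p‖ < 1) {Λ : ℝ} (hΛ : ∀ a, κ a ≤ Λ) {ξ : E n} (hξ : ξ ≠ 0) : CK2_ray p r ξ ≤ Λ :=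
  (div_le_iff₀ (CK2_gp_pos hp hξ)).2 (h.rayleigh hΛ ξ)

theorem CK2_ray_eq {p : B1 n} {r : B2 n} {e : Fin n → E n} {κ : Fin n → ℝ} (h : Diag p r e κ)
    (a : Fin n) : CK2_ray p r (e a) = κ a := by
  rw [CK2_ray, h.1 a a, h.2 a a, if_pos rfl, if_pos rfl, div_one]

theorem CK2_max (h : Dom Ω ρ) (hn : 0 < n) {u : E n → ℝ} (hu : ContDiffOn ℝ 2 u (closure Ω))
    (hp : ∀ x ∈ closure Ω, ‖D1 (closure Ω) u x‖ < 1) (N A : ℝ) :
    ∃ x₀ ∈ closure Ω, ∃ ξ₀ : E n, ξ₀ ≠ 0 ∧ ∀ x ∈ closure Ω, ∀ ξ : E n, ξ ≠ 0 →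
      CK2_ray (D1 (closure Ω) u x) (D2 (closure Ω) u x) ξ *
          Real.exp (CK2_wt N A (D1 (closure Ω) u x) x) ≤
        CK2_ray (D1 (closure Ω) u x₀) (D2 (closure Ω) u x₀) ξ₀ *
          Real.exp (CK2_wt N A (D1 (closure Ω) u x₀) x₀) := by
  have hne : ∀ ξ ∈ Metric.sphere (0 : E n) 1, ξ ≠ 0 := fun ξ hξ =>
    Metric.ne_of_mem_sphere hξ one_ne_zero
  have c1 : ContinuousOn (fun q : E n × E n => D1 (closure Ω) u q.1)
      (closure Ω ×ˢ Metric.sphere 0 1) := (h.contOn_D1 hu).comp continuousOn_fst fun q hq => hq.1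
  have c2 : ContinuousOn (fun q : E n × E n => D2 (closure Ω) u q.1)
      (closure Ω ×ˢ Metric.sphere 0 1) := (h.contOn_D2 hu).comp continuousOn_fst fun q hq => hq.1
  have c3 : ContinuousOn (fun q : E n × E n => Wp (D1 (closure Ω) u q.1))
      (closure Ω ×ˢ Metric.sphere 0 1) := fun q hq =>
    (contDiffAt_Wp (hp _ hq.1)).continuousAt.comp_continuousWithinAt
      (f := fun q : E n × E n => D1 (closure Ω) u q.1) (c1 q hq)
  have c4 : ContinuousOn (fun q : E n × E n => gp (D1 (closure Ω) u q.1) q.2 q.2)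
      (closure Ω ×ˢ Metric.sphere 0 1) :=
    (continuousOn_snd.inner continuousOn_snd).sub
      ((c1.clm_apply continuousOn_snd).mul (c1.clm_apply continuousOn_snd))
  have c5 : ContinuousOn (fun q : E n × E n =>
      CK2_ray (D1 (closure Ω) u q.1) (D2 (closure Ω) u q.1) q.2 *
        Real.exp (CK2_wt N A (D1 (closure Ω) u q.1) q.1)) (closure Ω ×ˢ Metric.sphere 0 1) :=
    ((c3.mul ((c2.clm_apply continuousOn_snd).clm_apply continuousOn_snd)).div c4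
      fun q hq => (CK2_gp_pos (hp _ hq.1) (hne _ hq.2)).ne').mul
      ((continuousOn_const.mul c3).add
        (continuousOn_const.mul (continuousOn_fst.inner continuousOn_fst))).rexp
  have h1 : (Metric.sphere (0 : E n) 1).Nonempty :=
    ⟨EuclideanSpace.single ⟨0, hn⟩ 1, by simp⟩
  obtain ⟨q, hq, hm⟩ := (h.isCompact.prod (isCompact_sphere (0 : E n) 1)).exists_isMaxOn
    (h.ne.closure.prod h1) c5
  refine ⟨q.1, hq.1, q.2, hne _ hq.2, fun x hx ξ hξ => ?_⟩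
  rw [← CK2_ray_smul _ _ ξ (inv_ne_zero (norm_ne_zero_iff.2 hξ))]
  exact hm (a := (x, ‖ξ‖⁻¹ • ξ)) ⟨hx, mem_sphere_zero_iff_norm.2 (norm_smul_inv_norm hξ)⟩

/-- first and second order conditions at an interior maximum -/
theorem CK2_cond (h : Dom Ω ρ) {u : E n → ℝ} {x : E n} (hx : x ∈ Ω) (hu : ContDiffAt ℝ 4 u x)
    (hp : ‖d1 u x‖ < 1) {e : Fin n → E n} {κ : Fin n → ℝ} (hd : Diag (d1 u x) (d2 u x) e κ)
    (o : Fin n) (ho : 0 < κ o) {N A : ℝ}
    (hm : ∀ y ∈ Ω, ∀ ξ : E n, ξ ≠ 0 → CK2_ray (d1 u y) (d2 u y) ξ *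
      Real.exp (CK2_wt N A (d1 u y) y) ≤ κ o * Real.exp (CK2_wt N A (d1 u x) x))
    (a : Fin n) (c : Fin n → ℝ) :
    TT (Wp (d1 u x)) κ (fun i => d1 u x (e i)) (V3 u x e) o o a / κ o +
        N * (κ a * d1 u x (e a)) + A * ⟪x, e a⟫ = 0 ∧
      (R2 (Wp (d1 u x)) κ (fun i => d1 u x (e i)) (V3 u x e) (z4 u x e) o a +
        ∑ q ∈ Finset.univ.erase o,
          (4 * c q * TT (Wp (d1 u x)) κ (fun i => d1 u x (e i)) (V3 u x e) o q a
            - 2 * c q ^ 2 * (κ o - κ q))) / κ o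
        - TT (Wp (d1 u x)) κ (fun i => d1 u x (e i)) (V3 u x e) o o a ^ 2 / κ o ^ 2 +
        N * W2 (Wp (d1 u x)) κ (fun i => d1 u x (e i)) (V3 u x e) a +
        A * (1 + d1 u x (e a) ^ 2) ≤ 0 := by
  have j1 := J2_ray hu hp hd o a c _ rfl
  set ξ' := ∑ q ∈ Finset.univ.erase o,
    (c q + dl a o * κ o / Wp (d1 u x) * d1 u x (e q)) • e q with hξ'
  have j2 := (J2_W (hu.of_le (by norm_num)) hp hd a).const_mul N
  have j3 := ((J2.line x (e a)).inner (J2.line x (e a))).const_mul (A / 2)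
  have j := (j1.log ho).add (j2.add j3)
  have e1 : ∀ᶠ t in 𝓝 (0 : ℝ), x + t • e a ∈ Ω :=
    (J2.line x (e a)).continuousAt.eventually (by simpa using h.isOpen.mem_nhds hx)
  have e2 : ∀ᶠ t in 𝓝 (0 : ℝ), e o + t • ξ' ≠ 0 :=
    (J2.line (e o) ξ').continuousAt.eventually_ne
      (by simpa using hd.1.linearIndependent.ne_zero o)
  have e3 := j1.continuousAt.eventually (lt_mem_nhds (j1.val.symm ▸ ho))
  obtain ⟨k1, k2⟩ := j.of_isLocalMax (by
    unfold IsLocalMax IsMaxFilter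
    filter_upwards [e1, e2, e3] with t h1 h2 h3
    have h4 := Real.log_le_log (mul_pos h3 (Real.exp_pos _)) (hm _ h1 _ h2)
    rw [Real.log_mul h3.ne' (Real.exp_pos _).ne', Real.log_mul ho.ne' (Real.exp_pos _).ne',
      Real.log_exp, Real.log_exp] at h4
    exact le_of_le_of_eq h4 j.val.symm)
  rw [real_inner_comm] at k1
  rw [inner_zero_left, inner_zero_right, real_inner_self_eq_norm_sq, hd.1.norm_sq] at k2
  exact ⟨by linarith, by linarith⟩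

theorem CK2_norm {p : B1 n} {z : ℝ} {x : E n} {M : ℝ} (h1 : ‖p‖ ≤ M) (h2 : |z| ≤ M)
    (h3 : ‖x‖ ≤ M) : ‖((p, z, x) : B1 n × ℝ × E n)‖ ≤ M :=
  norm_prod_le_iff.2 ⟨h1, norm_prod_le_iff.2 ⟨h2, h3⟩⟩

theorem CK2_P2 {V : Type} [NormedAddCommGroup V] [NormedSpace ℝ V] (F1 : V →L[ℝ] ℝ)
    (F2 : V →L[ℝ] V →L[ℝ] ℝ) (v v' : V) {C W w κ : ℝ} (h1 : ‖F1‖ ≤ C) (h2 : ‖F2‖ ≤ C)
    (hw : 1 ≤ w) (hW : 1 ≤ W) (hκ : 0 < κ) (hv : ‖v‖ ≤ max κ W) (hv' : ‖v'‖ ≤ 1) :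
    |F2 v v + κ / w * F1 v'| ≤ (C * W ^ 2 + C) * (1 + κ ^ 2) := by
  have hC : 0 ≤ C := (norm_nonneg _).trans h1
  have a1 : |F2 v v| ≤ C * max κ W * max κ W := (F2.le_opNorm₂ v v).trans (by gcongr)
  have a2 : |F1 v'| ≤ C := (F1.le_of_opNorm_le_of_le h1 hv').trans (mul_one C).le
  have a3 : max κ W * max κ W ≤ W ^ 2 * (1 + κ ^ 2) := by
    have : 1 ≤ W ^ 2 := one_le_pow₀ hW
    rcases le_total κ W with h | h
    · rw [max_eq_right h]
      nlinarith [sq_nonneg κ]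
    · rw [max_eq_left h]
      nlinarith [sq_nonneg κ]
  have a4 : κ / w ≤ 1 + κ ^ 2 := (div_le_self hκ.le hw).trans (by nlinarith)
  have a5 : 0 ≤ κ / w := by positivity
  refine (abs_add_le _ _).trans ?_
  rw [abs_mul, abs_of_nonneg a5]
  nlinarith [mul_le_mul_of_nonneg_left a3 hC, mul_le_mul a4 a2 (abs_nonneg _) (by positivity)]

/-- global curvature estimate for `2k > n` -/
theorem c2_int (h : Dom Ω ρ) (k : ℕ) (hk : 2 ≤ k) (hkn : k + 1 ≤ n) (h2 : n < 2 * k)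
    (W M c₀ C₀ L₀ : ℝ) (hc : 0 < c₀) :
    ∃ L : ℝ, ∀ (ψ : B1 n × ℝ × E n → ℝ) (φ u : E n → ℝ), PsiB Ω ψ M c₀ C₀ → SolO k Ω ψ φ u →
      (∀ x ∈ closure Ω, |u x| ≤ M) → (∀ x ∈ closure Ω, Wp (D1 (closure Ω) u x) ≤ W) →
      (∀ x ∈ frontier Ω, ‖D2 (closure Ω) u x‖ ≤ L₀) →
      ∀ x ∈ closure Ω, ‖D2 (closure Ω) u x‖ ≤ L := by
  obtain ⟨D, hD, hDx⟩ := h.exists_bound
  obtain ⟨N, A, B, hN, hA, H⟩ := curv_alg k hk hkn h2 W c₀ (C₀ * W ^ 2 + C₀ * W + C₀ + D * W) hc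
  refine ⟨n * (n * (max (max B (W ^ 3 * L₀)) 0 * Real.exp (N * W + A / 2 * D ^ 2))),
    fun ψ φ u hψ hu hM hW hL => ?_⟩
  have hp : ∀ x ∈ closure Ω, ‖D1 (closure Ω) u x‖ < 1 := fun x hx => (hu.adm x hx).1
  obtain ⟨x₀, hx₀, ξ₀, hξ₀, hm⟩ := CK2_max h (by omega) hu.c2 hp N A
  have hW1 : 1 ≤ W := (one_le_Wp (hp _ hx₀)).trans (hW _ hx₀)
  have hW0 : 0 ≤ W := zero_le_one.trans hW1
  have key : CK2_ray (D1 (closure Ω) u x₀) (D2 (closure Ω) u x₀) ξ₀ ≤ max B (W ^ 3 * L₀) := by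
    obtain ⟨e, κ, hd⟩ := exists_diag (hp _ hx₀) (h.sym_D2 hu.c2 hx₀)
    rcases h.mem_or hx₀ with hx | hx
    · have : Nonempty (Fin n) := ⟨⟨0, by omega⟩⟩
      obtain ⟨o, ho⟩ := Finite.exists_max κ
      have hle := CK2_ray_le hd (hp _ hx₀) ho hξ₀
      refine hle.trans (le_max_of_le_left ?_)
      have hw := hW _ hx₀
      have hm' := fun y hy ξ hξ => (hm y (subset_closure hy) ξ hξ).trans
        (mul_le_mul_of_nonneg_right hle (Real.exp_pos _).le)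
      rw [h.D1_eq u hx, h.D2_eq u hx] at hd
      rw [h.D1_eq u hx] at hw hm'
      have hp0 : ‖d1 u x₀‖ < 1 := h.D1_eq u hx ▸ hp _ hx₀
      obtain ⟨s1, s2, s3, s4, s5⟩ := hψ x₀ hx₀ (u x₀) (hM _ hx₀) (d1 u x₀) hp0.le
      obtain ⟨-, t2, t3, t4, t5⟩ := hu.diff_eq h hk hx s1 hd
      have hκ : 0 < κ o := t3.max_pos (by omega) fun i _ => ho i
      have hC : 0 ≤ C₀ := (norm_nonneg _).trans s4
      have hc1 : 0 ≤ C₀ * W ^ 2 := by positivity
      have hc2 : 0 ≤ C₀ * W := by positivity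
      have hc3 : 0 ≤ D * W := by positivity
      have cond := CK2_cond h hx t2 hp0 hd o hκ (N := N) (A := A) fun y hy ξ hξ => by
        rw [← h.D1_eq u hy, ← h.D2_eq u hy]
        exact hm' y hy ξ hξ
      have hw1 := one_le_Wp hp0
      refine H _ κ (fun i => d1 u x₀ (e i)) (fun a => ⟪x₀, e a⟫)
        (fun a => fderiv ℝ ψ (d1 u x₀, u x₀, x₀) (gfl (d1 u x₀) (e a), 0, 0))
        (fun a => fderiv ℝ ψ (d1 u x₀, u x₀, x₀) (0, d1 u x₀ (e a), e a)) (V3 u x₀ e) (z4 u x₀ e) o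
        _ hw1 hw ?_ (V3_sym (t2.of_le (by norm_num)) e) (z4_sym t2 e) t3 ho (t4 ▸ s2)
        (by linarith) (fun a => ⟨?_, ?_, ?_⟩) ?_ (fun a => (t5 a).1) (t5 o).2
        (fun a => (cond a 0).1) (fun a c => (cond a c).2)
      · exact hd.1.sum_b_sq hp0
      · have := (abs_real_inner_le_norm x₀ (e a)).trans
          (mul_le_mul (hDx _ hx₀) ((hd.1.norm_le hp0 a).1.trans hw) (norm_nonneg _) hD.le)
        linarith
      · have := (fderiv ℝ ψ (d1 u x₀, u x₀, x₀)).le_of_opNorm_le_of_le s4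
          (CK2_norm (z := 0) (x := 0) (hd.1.norm_gfl_le hp0 a) (by simp) (by simp))
        rw [Real.norm_eq_abs] at this
        linarith
      · have := (fderiv ℝ ψ (d1 u x₀, u x₀, x₀)).le_of_opNorm_le_of_le s4
          (CK2_norm (p := 0) (by simpa using hW0) ((hd.1.norm_le hp0 a).2.trans hw)
            ((hd.1.norm_le hp0 a).1.trans hw))
        rw [Real.norm_eq_abs] at this
        linarith
      · refine (CK2_P2 _ _ _ _ s4 s5 hw1 hW1 hκ (CK2_norm ?_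
          (le_max_of_le_right ((hd.1.norm_le hp0 o).2.trans hw))
          (le_max_of_le_right ((hd.1.norm_le hp0 o).1.trans hw)))
          (CK2_norm (by simp) (by simp) (by simp))).trans
          (mul_le_mul_of_nonneg_right (by linarith) (by positivity))
        rw [norm_smul, Real.norm_of_nonneg (by positivity)]
        exact le_max_of_le_left ((mul_le_of_le_one_right (by positivity)
          (hd.1.norm_gfl_le hp0 o)).trans (div_le_self hκ.le hw1))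
    · refine le_max_of_le_right (CK2_ray_le hd (hp _ hx₀) (fun a => ?_) hξ₀)
      refine (le_abs_self _).trans ((hd.abs_le (hp _ hx₀) a).trans ?_)
      exact mul_le_mul (pow_le_pow_left₀ (Wp_pos (hp _ hx₀)).le (hW _ hx₀) 3) (hL _ hx)
        (norm_nonneg _) (by positivity)
  set Λ := max (max B (W ^ 3 * L₀)) 0 * Real.exp (N * W + A / 2 * D ^ 2) with hΛ
  have hΛ0 : 0 ≤ Λ := mul_nonneg (le_max_right _ _) (Real.exp_pos _).le
  have hmΛ : CK2_ray (D1 (closure Ω) u x₀) (D2 (closure Ω) u x₀) ξ₀ *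
      Real.exp (CK2_wt N A (D1 (closure Ω) u x₀) x₀) ≤ Λ := by
    refine (mul_le_mul_of_nonneg_right (le_max_of_le_left key) (Real.exp_pos _).le).trans
      (mul_le_mul_of_nonneg_left (Real.exp_le_exp.2 ?_) (le_max_right _ _))
    rw [CK2_wt, real_inner_self_eq_norm_sq]
    exact add_le_add (mul_le_mul_of_nonneg_left (hW _ hx₀) hN) (mul_le_mul_of_nonneg_left
      (pow_le_pow_left₀ (norm_nonneg _) (hDx _ hx₀) 2) (by positivity))
  intro x hx
  obtain ⟨e, κ, hd⟩ := exists_diag (hp _ hx) (h.sym_D2 hu.c2 hx)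
  have hκ : ∀ a, κ a ≤ Λ := fun a => by
    rcases le_total (κ a) 0 with h0 | h0
    · exact h0.trans hΛ0
    · have h1 := (hm x hx (e a) (hd.1.linearIndependent.ne_zero a)).trans hmΛ
      rw [CK2_ray_eq hd] at h1
      refine le_trans (le_mul_of_one_le_right h0 (Real.one_le_exp ?_)) h1
      exact add_nonneg (mul_nonneg hN (Wp_pos (hp _ hx)).le)
        (mul_nonneg (by positivity) real_inner_self_nonneg)
  refine hd.norm_le (hp _ hx) (by positivity) fun a => ?_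
  have h1 := ((hd.adm_iff (hp _ hx) k).1 (hu.adm x hx)).lower (by omega) (fun i _ => hκ i)
    (Finset.mem_univ a)
  rw [Finset.card_univ, Fintype.card_fin] at h1
  have h3 : (2 : ℝ) ≤ k := by exact_mod_cast hk
  have h4 : (k : ℝ) + 1 ≤ n := by exact_mod_cast hkn
  refine abs_le.2 ⟨?_, (hκ a).trans (le_mul_of_one_le_left hΛ0 (by linarith))⟩
  rcases le_total (κ a) 0 with h0 | h0
  · nlinarith
  · nlinarith

end Pool.Agent.Mink.C
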