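import Pool.Agent.Lib.MP_88c759_an.Mink.CN1a

set_option maxSynthPendingDepth 3

namespace Pool.Agent.Mink.C

open scoped ContDiff Topology RealInnerProductSpace
open Set Filter

variable {n : ℕ}

theorem CN1_mul {x y X Y : ℝ} (hx : |x| ≤ X) (hy : |y| ≤ Y) : |x * y| ≤ X * Y := by
  rw [abs_mul]
  exact mul_le_mul hx hy (abs_nonneg _) ((abs_nonneg _).trans hx)

theorem CN1_tfr_ne (p : B1 n) {o a : Fin n} (ê : Fin n → E n) (h : a ≠ o) :
    tfr p o ê a = gam (pr (ê o) (shp p)) (ê a) := if_neg h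

theorem CN1_pr {ν : E n} (hν : ‖ν‖ = 1) (v : E n) : ⟪ν, pr ν v⟫ = 0 := by
  rw [pr, inner_sub_right, real_inner_smul_right, real_inner_self_eq_norm_sq, hν]
  ring

/-- the last frame vector in terms of the normal and the tangential gradient -/
theorem CN1_tfr_o {p : B1 n} (hp : ‖p‖ < 1) (o : Fin n) {ê : Fin n → E n} (hν : ‖ê o‖ = 1) :
    ∃ u t : ℝ, 1 ≤ u ^ 2 ∧ u ^ 2 ≤ 1 + Wp p ^ 2 ∧ |u| ≤ 1 + Wp p ^ 2 ∧ |t| ≤ 1 + Wp p ^ 2 ∧
      tfr p o ê o = u • ê o + t • pr (ê o) (shp p) := by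
  have hb : |p (ê o)| ≤ 1 := by
    have := p.le_opNorm (ê o)
    rw [hν, mul_one, Real.norm_eq_abs] at this
    linarith
  have hb2 : p (ê o) ^ 2 ≤ 1 := by rwa [sq_le_one_iff_abs_le_one]
  obtain ⟨q, hq⟩ : ∃ q, q = 1 + Wp p ^ 2 * p (ê o) ^ 2 := ⟨_, rfl⟩
  have hq1 : 1 ≤ q := by
    rw [hq]
    exact le_add_of_nonneg_right (by positivity)
  have hq2 : q ≤ 1 + Wp p ^ 2 := by
    rw [hq]
    exact add_le_add_right (mul_le_of_le_one_right (sq_nonneg _) hb2) 1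
  have hs1 : 1 ≤ Real.sqrt q := Real.one_le_sqrt.2 hq1
  have hs0 : Real.sqrt q ≠ 0 := (zero_lt_one.trans_le hs1).ne'
  have hsq : Real.sqrt q ^ 2 = q := Real.sq_sqrt (by linarith)
  refine ⟨Real.sqrt q, (Real.sqrt q)⁻¹ * (Wp p ^ 2 * p (ê o)), by rwa [hsq], by rwa [hsq], ?_,
    ?_, ?_⟩
  · rw [abs_of_nonneg (Real.sqrt_nonneg q)]
    nlinarith
  · have h1 : |(Real.sqrt q)⁻¹| ≤ 1 := by
      rw [abs_of_nonneg (inv_nonneg.2 (Real.sqrt_nonneg q))]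
      exact inv_le_one_of_one_le₀ hs1
    have h2 := CN1_mul h1 (CN1_mul (le_of_eq (abs_of_nonneg (sq_nonneg (Wp p)))) hb)
    linarith
  · have h1 : Real.sqrt q = (Real.sqrt q)⁻¹ * (1 + Wp p ^ 2 * p (ê o) * p (ê o)) := by
      rw [mul_assoc, ← sq, ← hq, eq_inv_mul_iff_mul_eq₀ hs0, ← sq, hsq]
    rw [tfr, if_pos rfl, ← hq, pr, real_inner_comm, inner_shp]
    conv_rhs => rw [h1]
    rw [← h1]
    have h2 : Real.sqrt q • ê o =
        ((Real.sqrt q)⁻¹ * (1 + Wp p ^ 2 * p (ê o) * p (ê o))) • ê o := by rw [← h1]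
    rw [h2]
    module

/-- bounds for the matrix of the second fundamental form in the adapted frame -/
theorem CN1_bounds (W C : ℝ) : ∃ K : ℝ, 1 ≤ K ∧ ∀ (p : B1 n) (r : B2 n) (o : Fin n)
    (ê : Fin n → E n), ‖p‖ < 1 → Sym r → Wp p ≤ W → Orthonormal ℝ ê →
    (∀ τ, ⟪ê o, τ⟫ = 0 → |r (ê o) τ| ≤ C * ‖τ‖ ∧
      ∀ τ', ⟪ê o, τ'⟫ = 0 → |r τ τ'| ≤ C * ‖τ‖ * ‖τ'‖) →
    Wp p ≤ K ∧ (∀ a, a ≠ o → |Wp p * r (tfr p o ê a) (tfr p o ê a)| ≤ K ∧
      |Wp p * r (tfr p o ê a) (tfr p o ê o)| ≤ K) ∧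
    ∃ g : ℝ, 1 ≤ g ∧ g ≤ K ∧
      |Wp p * r (tfr p o ê o) (tfr p o ê o) - g * r (ê o) (ê o)| ≤ K := by
  obtain ⟨L, hL⟩ : ∃ L, L = 1 + W ^ 2 := ⟨_, rfl⟩
  have hL1 : 1 ≤ L := by
    rw [hL]
    exact le_add_of_nonneg_right (sq_nonneg W)
  have hA : 0 ≤ |C| := abs_nonneg C
  have hAL : 0 ≤ L * (L * (|C| * L)) := by positivity
  have hLL : L ≤ L * L := le_mul_of_one_le_left (by linarith) hL1
  refine ⟨3 * (L * (L * (|C| * L))) + L * L, by linarith, fun p r o ê hp hr hW hê H => ?_⟩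
  have hν : ‖ê o‖ = 1 := hê.1 o
  have hw1 := one_le_Wp hp
  have hw2 : Wp p ^ 2 ≤ W ^ 2 := pow_le_pow_left₀ (by linarith) hW 2
  have hwL : Wp p ≤ L := by nlinarith
  have hw : |Wp p| ≤ L := by rwa [abs_of_nonneg (by linarith)]
  obtain ⟨u, t, hu1, hu2, hu, ht, he⟩ := CN1_tfr_o hp o hν
  replace hu : |u| ≤ L := by linarith
  replace ht : |t| ≤ L := by linarith
  have ha0 := CN1_pr hν (shp p)
  have ha : ‖pr (ê o) (shp p)‖ ≤ 1 := by
    have h1 := norm_sq_split p hν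
    have h2 : ‖p‖ ^ 2 ≤ 1 := pow_le_one₀ (norm_nonneg p) hp.le
    have h3 : ‖pr (ê o) (shp p)‖ ^ 2 ≤ 1 := by nlinarith [sq_nonneg (p (ê o))]
    exact (pow_le_one_iff_of_nonneg (norm_nonneg _) two_ne_zero).1 h3
  have H1 : ∀ τ (X : ℝ), ⟪ê o, τ⟫ = 0 → ‖τ‖ ≤ X → |r (ê o) τ| ≤ |C| * X := fun τ X h0 hX =>
    (H τ h0).1.trans (mul_le_mul (le_abs_self C) hX (norm_nonneg _) hA)
  have H2 : ∀ τ τ' (X Y : ℝ), ⟪ê o, τ⟫ = 0 → ⟪ê o, τ'⟫ = 0 → ‖τ‖ ≤ X → ‖τ'‖ ≤ Y →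
      |r τ τ'| ≤ |C| * X * Y := fun τ τ' X Y h0 h0' hX hY =>
    ((H τ h0).2 τ' h0').trans (mul_le_mul (mul_le_mul (le_abs_self C) hX (norm_nonneg _) hA) hY
      (norm_nonneg _) (mul_nonneg hA ((norm_nonneg _).trans hX)))
  refine ⟨by linarith, fun a hao => ?_, Wp p * u ^ 2, by nlinarith, ?_, ?_⟩
  · have h0 : ⟪ê o, tfr p o ê a⟫ = 0 := by
      rw [CN1_tfr_ne p ê hao]
      exact gam_tangent ha0 (hê.2 (Ne.symm hao))
    have hn : ‖tfr p o ê a‖ ≤ L := ((tfr_isFrame hp o hê).norm_le hp a).1.trans hwL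
    constructor
    · have h1 := CN1_mul hw (H2 _ _ _ _ h0 h0 hn hn)
      nlinarith
    · rw [he, map_add, map_smul, map_smul, smul_eq_mul, smul_eq_mul, hr _ (ê o), mul_add]
      have h1 := CN1_mul hw (CN1_mul hu (H1 _ _ h0 hn))
      have h2 := CN1_mul hw (CN1_mul ht (H2 _ _ _ _ h0 ha0 hn ha))
      rw [mul_one] at h2
      have h3 := abs_add_le (Wp p * (u * r (ê o) (tfr p o ê a)))
        (Wp p * (t * r (tfr p o ê a) (pr (ê o) (shp p))))
      linarith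
  · have h1 : Wp p * u ^ 2 ≤ L * L := mul_le_mul hwL (by linarith) (sq_nonneg u) (by linarith)
    linarith
  · have h0 : Wp p * r (tfr p o ê o) (tfr p o ê o) - Wp p * u ^ 2 * r (ê o) (ê o) =
        2 * (Wp p * (u * (r (ê o) (pr (ê o) (shp p)) * t))) +
          Wp p * (t * (r (pr (ê o) (shp p)) (pr (ê o) (shp p)) * t)) := by
      rw [he]
      simp only [map_add, map_smul, add_apply, smul_apply,
        smul_eq_mul, hr (pr (ê o) (shp p)) (ê o)]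
      ring
    have h1 := CN1_mul hw (CN1_mul hu (CN1_mul (H1 _ _ ha0 ha) ht))
    have h2 := CN1_mul hw (CN1_mul ht (CN1_mul (H2 _ _ _ _ ha0 ha0 ha ha) ht))
    simp only [mul_one] at h1 h2
    rw [h0]
    refine (abs_add_le _ _).trans ?_
    rw [abs_mul 2, abs_two]
    linarith

theorem CN1_es_scale (p : B1 n) (r : B2 n) (o : Fin n) (ê : Fin n → E n) (j : ℕ) :
    es (Finset.univ.erase o) j (fun a => Wp p * r (tfr p o ê a) (tfr p o ê a)) =
      Wp p ^ j * es (Finset.univ.erase o) j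
        fun a => r (gam (pr (ê o) (shp p)) (ê a)) (gam (pr (ê o) (shp p)) (ê a)) := by
  rw [← es_smul]
  exact es_congr j fun a ha => by rw [CN1_tfr_ne p ê (Finset.ne_of_mem_erase ha)]

theorem CN1_abs_es {s : Finset (Fin n)} (j : ℕ) {x : Fin n → ℝ} {K : ℝ} (hK : 0 ≤ K)
    (h : ∀ i ∈ s, |x i| ≤ K) : |es s j x| ≤ 2 ^ n * K ^ j := by
  refine (abs_es_le j hK h).trans (mul_le_mul_of_nonneg_right ?_ (pow_nonneg hK j))
  have h1 : s.card ≤ n := (Finset.card_le_univ s).trans (Fintype.card_fin n).le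
  exact_mod_cast (Nat.choose_le_two_pow s.card j).trans (Nat.pow_le_pow_right two_pos h1)

theorem CN1_sum_le {s : Finset (Fin n)} {x : Fin n → ℝ} {K : ℝ} (hK : 0 ≤ K)
    (h : ∀ i ∈ s, x i ≤ K) : ∑ i ∈ s, x i ≤ n * K := by
  refine (Finset.sum_le_card_nsmul s x K h).trans ?_
  rw [nsmul_eq_mul]
  have h1 : s.card ≤ n := (Finset.card_le_univ s).trans (Fintype.card_fin n).le
  exact mul_le_mul_of_nonneg_right (by exact_mod_cast h1) hK

/-- `gam a` as a continuous linear map -/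
theorem CN1_gamL (a : E n) : ∃ G : E n →L[ℝ] E n, ∀ v, G v = gam a v :=
  ⟨ContinuousLinearMap.id ℝ (E n) +
    (((Real.sqrt (1 - ‖a‖ ^ 2))⁻¹ ^ 2 / (1 + (Real.sqrt (1 - ‖a‖ ^ 2))⁻¹)) •
      innerSL ℝ a).smulRight a, fun _ => rfl⟩

theorem CN1_tan_gam {k : ℕ} {p : B1 n} {r : B2 n} (h : Adm k p r) (hr : Sym r) (o : Fin n)
    {ê : Fin n → E n} (hê : Orthonormal ℝ ê) :
    Gam (Finset.univ.erase o) (k - 1)
      fun a => r (gam (pr (ê o) (shp p)) (ê a)) (gam (pr (ê o) (shp p)) (ê a)) := by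
  have hw := Wp_pos h.1
  refine (((h.frame_diag hr (tfr_isFrame h.1 o hê)).1.erase (Finset.mem_univ o)).smul
    (inv_pos.2 hw)).congr fun a ha => ?_
  rw [CN1_tfr_ne p ê (Finset.ne_of_mem_erase ha), inv_mul_cancel_left₀ hw.ne']

/-- the double normal derivative is controlled by `σ_{k-1}` of the tangential part -/
theorem nn_of_tan (k : ℕ) (hk : 2 ≤ k) (W C C₀ m : ℝ) (hm : 0 < m) : ∃ C' : ℝ,
    ∀ (p : B1 n) (r : B2 n) (ν : E n) (o : Fin n), Adm k p r → Sym r → Wp p ≤ W → SS k p r ≤ C₀ →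
      ‖ν‖ = 1 → (∀ τ, ⟪ν, τ⟫ = 0 → |r ν τ| ≤ C * ‖τ‖ ∧
        ∀ τ', ⟪ν, τ'⟫ = 0 → |r τ τ'| ≤ C * ‖τ‖ * ‖τ'‖) →
      (∀ ê : Fin n → E n, Orthonormal ℝ ê → ê o = ν → m ≤ es (Finset.univ.erase o) (k - 1)
        fun a => r (gam (pr ν (shp p)) (ê a)) (gam (pr ν (shp p)) (ê a))) →
      |r ν ν| ≤ C' := by
  obtain ⟨K, hK1, hK⟩ := CN1_bounds (n := n) W C
  have hK0 : 0 ≤ K := by linarith
  refine ⟨|C₀ + n * (K * K * (2 ^ n * K ^ (k - 2))) + 2 ^ n * K ^ k| / m + n * K + K,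
    fun p r ν o hA hr hW hS hν H hσ => ?_⟩
  have hp := hA.1
  obtain ⟨G, hG⟩ := CN1_gamL (pr ν (shp p))
  obtain ⟨ê, hê, rfl, hd⟩ := exists_tan_diag hν o (Y := r.bilinearComp G G) fun v w => hr _ _
  obtain ⟨-, hb, g, hg1, -, hg⟩ := hK p r o ê hp hr hW hê H
  have hF := tfr_isFrame hp o hê
  obtain ⟨d, hdd⟩ : ∃ d : Fin n → ℝ, d = fun a => Wp p * r (tfr p o ê a) (tfr p o ê a) := ⟨_, rfl⟩
  have hdK : ∀ a ∈ Finset.univ.erase o, |d a| ≤ K := fun a ha => by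
    rw [hdd]
    exact (hb a (Finset.ne_of_mem_erase ha)).1
  have hid : SS k p r = es Finset.univ k d - ∑ a ∈ Finset.univ.erase o,
      (Wp p * r (tfr p o ê a) (tfr p o ê o)) ^ 2 * sk k d o a := by
    rw [SS_frame hF hp, hdd]
    refine sM_arrow k hk o _ (fun a b => ?_) fun a b hab ha hb' => ?_
    · rw [Matrix.of_apply, Matrix.of_apply, hr]
    · rw [Matrix.of_apply, CN1_tfr_ne p ê ha, CN1_tfr_ne p ê hb', ← hG, ← hG]
      exact mul_eq_zero_of_right _ (hd a b hab ha hb')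
  have hes : es Finset.univ k d =
      d o * es (Finset.univ.erase o) (k - 1) d + es (Finset.univ.erase o) k d := by
    have h1 := es_erase (Finset.mem_univ o) (k - 1) d
    rwa [Nat.sub_add_cancel (by omega)] at h1
  have hsum : ∑ a ∈ Finset.univ.erase o,
      (Wp p * r (tfr p o ê a) (tfr p o ê o)) ^ 2 * sk k d o a ≤
        n * (K * K * (2 ^ n * K ^ (k - 2))) := by
    refine CN1_sum_le (by positivity) fun a ha => (le_abs_self _).trans ?_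
    have h1 := (hb a (Finset.ne_of_mem_erase ha)).2
    rw [sq]
    exact CN1_mul (CN1_mul h1 h1)
      (CN1_abs_es _ hK0 fun i hi => hdK i (Finset.mem_of_mem_erase hi))
  have hk' := (abs_le.1 (CN1_abs_es k hK0 hdK)).1
  have hmσ : m ≤ es (Finset.univ.erase o) (k - 1) d := by
    rw [hdd, CN1_es_scale]
    have h1 := hσ ê hê rfl
    exact h1.trans (le_mul_of_one_le_left (hm.le.trans h1) (one_le_pow₀ (one_le_Wp hp)))
  obtain ⟨B, hB⟩ : ∃ B, B = C₀ + n * (K * K * (2 ^ n * K ^ (k - 2))) + 2 ^ n * K ^ k := ⟨_, rfl⟩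
  rw [← hB]
  have hB0 : 0 ≤ |B| / m := div_nonneg (abs_nonneg B) hm.le
  have hnK : 0 ≤ (n : ℝ) * K := by positivity
  have hup : d o ≤ |B| / m := by
    rcases le_total (d o) 0 with h0 | h0
    · linarith
    · rw [le_div_iff₀ hm]
      have h1 := mul_le_mul_of_nonneg_left hmσ h0
      have h2 := le_abs_self B
      linarith
  have hlo : -(n * K) ≤ d o := by
    have h1 : 0 < es Finset.univ 1 d := by
      rw [hdd]
      exact (hA.frame_diag hr hF).1 1 le_rfl (by omega)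
    rw [es_one, ← Finset.add_sum_erase _ _ (Finset.mem_univ o)] at h1
    have h2 := CN1_sum_le hK0 fun a ha => (le_abs_self _).trans (hdK a ha)
    linarith
  have hdo : d o = Wp p * r (tfr p o ê o) (tfr p o ê o) := by rw [hdd]
  rw [← hdo, abs_le] at hg
  have h3 : |g * r (ê o) (ê o)| ≤ |B| / m + n * K + K := abs_le.2 ⟨by linarith, by linarith⟩
  rw [abs_mul, abs_of_nonneg (by linarith : 0 ≤ g)] at h3
  exact (le_mul_of_one_le_left (abs_nonneg _) hg1).trans h3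
/-- conversely an upper bound for the double normal derivative bounds `σ_{k-1}` from below -/
theorem tan_of_nn (k : ℕ) (hk : 2 ≤ k) (W C c₀ : ℝ) (hc : 0 < c₀) : ∃ m : ℝ, 0 < m ∧
    ∀ (p : B1 n) (r : B2 n) (o : Fin n) (ê : Fin n → E n), Adm k p r → Sym r → Wp p ≤ W →
      c₀ ≤ SS k p r → Orthonormal ℝ ê → (∀ τ, ⟪ê o, τ⟫ = 0 → |r (ê o) τ| ≤ C * ‖τ‖ ∧
        ∀ τ', ⟪ê o, τ'⟫ = 0 → |r τ τ'| ≤ C * ‖τ‖ * ‖τ'‖) → r (ê o) (ê o) ≤ C →
      m ≤ es (Finset.univ.erase o) (k - 1)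
        fun a => r (gam (pr (ê o) (shp p)) (ê a)) (gam (pr (ê o) (shp p)) (ê a)) := by
  obtain ⟨K, hK1, hK⟩ := CN1_bounds (n := n) W C
  have hK0 : 0 < K := by linarith
  have hΛ : 0 < K * |C| + K := by positivity
  refine ⟨c₀ / ((n + 1) * (K * |C| + K) * K ^ (k - 1)), by positivity,
    fun p r o ê hA hr hW hS hê H hνν => ?_⟩
  have hp := hA.1
  obtain ⟨hwK, hb, g, hg1, hgK, hg⟩ := hK p r o ê hp hr hW hê H
  obtain ⟨hG, hle⟩ := hA.frame_diag hr (tfr_isFrame hp o hê)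
  have hup : ∀ a ∈ (Finset.univ : Finset (Fin n)),
      Wp p * r (tfr p o ê a) (tfr p o ê a) ≤ K * |C| + K := by
    intro a _
    by_cases ha : a = o
    · subst ha
      have h1 := (abs_le.1 hg).2
      have h2 : g * r (ê a) (ê a) ≤ K * |C| :=
        (mul_le_mul_of_nonneg_left (hνν.trans (le_abs_self C)) (by linarith)).trans
          (mul_le_mul_of_nonneg_right hgK (abs_nonneg C))
      linarith
    · exact ((le_abs_self _).trans (hb a ha).1).trans (le_add_of_nonneg_left (by positivity))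
  have h1 := hG.part_lower (by omega) hup (Finset.mem_univ o)
  rw [CN1_es_scale, Finset.card_univ, Fintype.card_fin] at h1
  have hσ := (CN1_tan_gam hA hr o hê).pos le_rfl
  rw [div_le_iff₀ (by positivity)]
  have h2 : c₀ ≤ (k : ℝ) * es Finset.univ k fun a => Wp p * r (tfr p o ê a) (tfr p o ê a) :=
    (hS.trans hle).trans (le_mul_of_one_le_left (hc.le.trans (hS.trans hle))
      (by exact_mod_cast (by omega : 1 ≤ k)))
  refine (h2.trans h1).trans ?_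
  rw [mul_comm (es _ _ _), mul_assoc ((n + 1 : ℝ) * _)]
  have h3 : Wp p ^ (k - 1) ≤ K ^ (k - 1) := pow_le_pow_left₀ (Wp_pos hp).le hwK _
  have h4 := pow_pos (Wp_pos hp) (k - 1)
  gcongr
  linarith
theorem tan_gam {k : ℕ} {p : B1 n} {r : B2 n} (h : Adm k p r) (hr : Sym r) (o : Fin n)
    {ê : Fin n → E n} (hê : Orthonormal ℝ ê) :
    Gam (Finset.univ.erase o) (k - 1)
      fun a => r (gam (pr (ê o) (shp p)) (ê a)) (gam (pr (ê o) (shp p)) (ê a)) := by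
  exact CN1_tan_gam h hr o hê

end Pool.Agent.Mink.C
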