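import Pool.Agent.Lib.MP_88c759_an.Mink.CF3
import Pool.Agent.Lib.MP_88c759_an.Mink.CG4

set_option maxSynthPendingDepth 3

namespace Pool.Agent.Mink.C

open scoped ContDiff Topology RealInnerProductSpace
open Set Filter

variable {n : ℕ}

theorem CN1a_consts {a : E n} (ha : ‖a‖ < 1) : ∃ W c : ℝ, 0 < W ∧ W ^ 2 * (1 - ‖a‖ ^ 2) = 1 ∧
    1 + c * ‖a‖ ^ 2 = W ∧ c * (1 + W) = W ^ 2 ∧ ∀ v, gam a v = v + (c * ⟪a, v⟫) • a := by
  have h0 : 0 < 1 - ‖a‖ ^ 2 := sub_pos.2 ((sq_lt_one_iff₀ (norm_nonneg a)).2 ha)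
  have h1 : 0 < (Real.sqrt (1 - ‖a‖ ^ 2))⁻¹ := inv_pos.2 (Real.sqrt_pos.2 h0)
  have h2 : (Real.sqrt (1 - ‖a‖ ^ 2))⁻¹ ^ 2 * (1 - ‖a‖ ^ 2) = 1 := by
    rw [inv_pow, Real.sq_sqrt h0.le, inv_mul_cancel₀ h0.ne']
  refine ⟨_, _, h1, h2, ?_, div_mul_cancel₀ _ (by positivity), fun _ => rfl⟩
  generalize (Real.sqrt (1 - ‖a‖ ^ 2))⁻¹ = W at h1 h2
  field_simp
  linear_combination (-1 : ℝ) * h2

theorem gam_tangent {ν a v : E n} (ha : ⟪ν, a⟫ = 0) (hv : ⟪ν, v⟫ = 0) : ⟪ν, gam a v⟫ = 0 := by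
  rw [gam, inner_add_right, inner_smul_right, ha, hv, mul_zero, add_zero]
theorem gam_isom {a : E n} (ha : ‖a‖ < 1) (v w : E n) :
    ⟪gam a v, gam a w⟫ - ⟪a, gam a v⟫ * ⟪a, gam a w⟫ = ⟪v, w⟫ := by
  obtain ⟨W, c, h0, h1, h2, h3, hg⟩ := CN1a_consts ha
  simp only [hg, inner_add_left, inner_add_right, real_inner_smul_left, real_inner_smul_right,
    real_inner_self_eq_norm_sq, real_inner_comm a v]
  have h4 : 2 * c + c * (c * ‖a‖ ^ 2) - (1 + c * ‖a‖ ^ 2) ^ 2 = 0 := by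
    rw [h2, ← h3]; nlinarith
  linear_combination (⟪a, v⟫ * ⟪a, w⟫) * h4
theorem norm_gam_le {a : E n} {W : ℝ} (hW : 1 ≤ W) (ha : ‖a‖ ^ 2 ≤ 1 - (W ^ 2)⁻¹) (v : E n) :
    ‖gam a v‖ ≤ W * ‖v‖ := by
  have hW2 : 0 < (W ^ 2)⁻¹ := by positivity
  have ha' : ‖a‖ < 1 := (sq_lt_one_iff₀ (norm_nonneg a)).1 (by linarith)
  have h := gam_isom ha' v v
  obtain ⟨w, c, h0, h1, h2, h3, hg⟩ := CN1a_consts ha'
  have h4 : ⟪a, gam a v⟫ = w * ⟪a, v⟫ := by
    rw [hg, inner_add_right, real_inner_smul_right, real_inner_self_eq_norm_sq]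
    linear_combination ⟪a, v⟫ * h2
  rw [h4, real_inner_self_eq_norm_sq, real_inner_self_eq_norm_sq] at h
  have h5 : ⟪a, v⟫ ^ 2 ≤ ‖a‖ ^ 2 * ‖v‖ ^ 2 := by
    rw [← mul_pow, ← sq_abs]
    exact pow_le_pow_left₀ (abs_nonneg _) (abs_real_inner_le_norm a v) 2
  have h6 : w ^ 2 ≤ W ^ 2 := by
    have h7 : w ^ 2 * (W ^ 2)⁻¹ ≤ 1 := by
      rw [← h1]
      exact mul_le_mul_of_nonneg_left (by linarith) (sq_nonneg w)
    rwa [mul_inv_le_iff₀ (by positivity), one_mul] at h7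
  refine (pow_le_pow_iff_left₀ (norm_nonneg _) (by positivity) two_ne_zero).1 ?_
  have h8 := mul_le_mul_of_nonneg_left h5 (sq_nonneg w)
  have h9 := mul_le_mul_of_nonneg_right h6 (sq_nonneg ‖v‖)
  have h10 : w ^ 2 * (‖a‖ ^ 2 * ‖v‖ ^ 2) = (w ^ 2 - 1) * ‖v‖ ^ 2 := by
    linear_combination (-‖v‖ ^ 2) * h1
  nlinarith
theorem tfr_isFrame {p : B1 n} (hp : ‖p‖ < 1) (o : Fin n) {ê : Fin n → E n}
    (hê : Orthonormal ℝ ê) : IsFrame p (tfr p o ê) := by
  have hi := orthonormal_iff_ite.1 hê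
  have hoo : ⟪ê o, ê o⟫ = 1 := by rw [hi, if_pos rfl]
  have ha : ⟪ê o, pr (ê o) (shp p)⟫ = 0 := by
    rw [pr, inner_sub_right, real_inner_smul_right, hoo, mul_one, sub_self]
  have ha1 : ‖pr (ê o) (shp p)‖ < 1 := by
    have h1 := norm_sq_split p (hê.1 o)
    have h2 := (sq_lt_one_iff₀ (norm_nonneg p)).2 hp
    exact (sq_lt_one_iff₀ (norm_nonneg _)).1 (by nlinarith [sq_nonneg (p (ê o))])
  have htan : ∀ b, b ≠ o → ⟪ê o, gam (pr (ê o) (shp p)) (ê b)⟫ = 0 := fun b hb =>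
    gam_tangent ha (by rw [hi, if_neg hb.symm])
  have hpa : ∀ v, ⟪ê o, v⟫ = 0 → p v = ⟪pr (ê o) (shp p), v⟫ := fun v hv => by
    rw [pr, inner_sub_left, real_inner_smul_left, hv, mul_zero, sub_zero, inner_shp]
  have ho : ∀ v, gp p (tfr p o ê o) v =
      (Real.sqrt (1 + Wp p ^ 2 * p (ê o) ^ 2))⁻¹ * ⟪ê o, v⟫ := fun v => by
    simp only [gp, tfr, if_pos, inner_add_left, real_inner_smul_left, map_smul, map_add,
      smul_eq_mul, inner_shp, apply_shp]
    linear_combination ((Real.sqrt (1 + Wp p ^ 2 * p (ê o) ^ 2))⁻¹ * p (ê o) * p v) * Wp_sq hp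
  have hob : ∀ b, b ≠ o → gp p (tfr p o ê o) (tfr p o ê b) = 0 := fun b hb => by
    rw [ho, tfr, if_neg hb, htan b hb, mul_zero]
  intro a b
  by_cases h1 : a = o
  · by_cases h2 : b = o
    · rw [h1, h2, if_pos rfl, ho, tfr, if_pos rfl, real_inner_smul_right, inner_add_right,
        real_inner_smul_right, hoo, real_inner_comm, inner_shp, ← mul_assoc, ← mul_inv,
        Real.mul_self_sqrt (by positivity), mul_assoc, ← pow_two]
      exact inv_mul_cancel₀ (by positivity)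
    · rw [h1, hob b h2, if_neg (Ne.symm h2)]
  · by_cases h2 : b = o
    · rw [h2, gp_comm, hob a h1, if_neg h1]
    · rw [tfr, tfr, if_neg h1, if_neg h2, gp, hpa _ (htan a h1), hpa _ (htan b h2), gam_isom ha1, hi]
/-- the tangential frame vectors span the tangent space -/
theorem span_gam {a : E n} (ha : ‖a‖ < 1) (o : Fin n) {ê : Fin n → E n} (hê : Orthonormal ℝ ê)
    (hao : ⟪ê o, a⟫ = 0) (v : E n) :
    v ∈ Submodule.span ℝ ((fun i => gam a (ê i)) '' (Finset.univ.erase o : Finset (Fin n)))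
      ↔ ⟪ê o, v⟫ = 0 := by
  have hi := orthonormal_iff_ite.1 hê
  constructor
  · intro hv
    refine Submodule.span_induction (p := fun v _ => ⟪ê o, v⟫ = 0) ?_ (inner_zero_right _) ?_ ?_ hv
    · rintro _ ⟨i, hi', rfl⟩
      exact gam_tangent hao (by rw [hi, if_neg (Finset.mem_erase.1 hi').1.symm])
    · intro x y _ _ hx hy
      rw [inner_add_right, hx, hy, add_zero]
    · intro t x _ hx
      rw [real_inner_smul_right, hx, mul_zero]
  · intro hv
    obtain ⟨W, c, h0, h1, h2, h3, hg⟩ := CN1a_consts ha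
    let L : E n →L[ℝ] E n := ContinuousLinearMap.id ℝ _ + c • (innerSL ℝ a).smulRight a
    have hL : ∀ u, L u = gam a u := fun u => by
      rw [hg, mul_smul]; rfl
    obtain ⟨u, hu⟩ : ∃ u, u = v - (c / W * ⟪a, v⟫) • a := ⟨_, rfl⟩
    have hu1 : gam a u = v := by
      rw [hg, hu, inner_sub_right, real_inner_smul_right, real_inner_self_eq_norm_sq, sub_add,
        ← sub_smul]
      have : c / W * ⟪a, v⟫ - c * (⟪a, v⟫ - c / W * ⟪a, v⟫ * ‖a‖ ^ 2) = 0 := by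
        field_simp
        linear_combination (c * ⟪a, v⟫) * h2
      rw [this, zero_smul, sub_zero]
    have hu2 : ⟪ê o, u⟫ = 0 := by
      rw [hu, inner_sub_right, real_inner_smul_right, hao, hv, mul_zero, sub_zero]
    have hf : IsFrame (0 : B1 n) ê := fun i j => by simp [gp, hi]
    rw [← hu1, ← hL, hf.expand u, map_sum]
    refine Submodule.sum_mem _ fun i _ => ?_
    by_cases h : i = o
    · simp [h, gp, hu2]
    · rw [map_smul, hL]
      exact Submodule.smul_mem _ _ (Submodule.subset_span ⟨i, by simp [h], rfl⟩)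
/-- an orthonormal basis containing `ν` which diagonalises `Y` on the orthogonal complement -/
theorem exists_tan_diag {ν : E n} (hν : ‖ν‖ = 1) (o : Fin n) {Y : B2 n} (hY : Sym Y) :
    ∃ ê : Fin n → E n, Orthonormal ℝ ê ∧ ê o = ν ∧
      ∀ a b, a ≠ b → a ≠ o → b ≠ o → Y (ê a) (ê b) = 0 := by
  have hν0 : ν ≠ 0 := fun h => by simp [h] at hν
  obtain ⟨L, hL⟩ := exists_shpL (n := n)
  let K : Submodule ℝ (E n) := (ℝ ∙ ν)ᗮ
  let T : K →L[ℝ] K := K.orthogonalProjectionOnto ∘L L ∘L Y ∘L K.subtypeL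
  have hT : ∀ v w : K, ⟪T v, w⟫ = Y v w := fun v w => by
    change ⟪K.orthogonalProjectionOnto (L (Y v)), w⟫ = _
    rw [Submodule.inner_orthogonalProjectionOnto_eq_of_mem_right, hL, inner_shp]
  have hS : (T : K →ₗ[ℝ] K).IsSymmetric := fun v w => by
    change ⟪T v, w⟫ = ⟪v, T w⟫
    rw [real_inner_comm (T w) v, hT, hT, hY]
  have hK : Module.finrank ℝ K = Fintype.card {i : Fin n // i ≠ o} := by
    have h1 := Submodule.finrank_add_finrank_orthogonal (ℝ ∙ ν)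
    rw [finrank_span_singleton hν0, finrank_euclideanSpace_fin] at h1
    have h2 : Fintype.card {i : Fin n // i ≠ o} = n - 1 := by simp
    change Module.finrank ℝ (ℝ ∙ ν)ᗮ = _
    omega
  let e := Fintype.equivFin {i : Fin n // i ≠ o}
  let b := hS.eigenvectorBasis hK
  have hb : ∀ i j : {i : Fin n // i ≠ o},
      ⟪(b (e i) : E n), (b (e j) : E n)⟫ = if i = j then 1 else 0 := fun i j => by
    have := orthonormal_iff_ite.1 b.orthonormal (e i) (e j)
    simpa only [Submodule.coe_inner, EmbeddingLike.apply_eq_iff_eq] using this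
  have hbν : ∀ i, ⟪ν, (b i : E n)⟫ = 0 := fun i =>
    Submodule.mem_orthogonal_singleton_iff_inner_right.1 (b i).2
  refine ⟨fun a => if h : a = o then ν else b (e ⟨a, h⟩), orthonormal_iff_ite.2 fun i j => ?_,
    dif_pos rfl, fun i j hij hi hj => ?_⟩
  · by_cases hi : i = o
    · by_cases hj : j = o
      · rw [dif_pos hi, dif_pos hj, if_pos (hi.trans hj.symm), real_inner_self_eq_norm_sq, hν,
          one_pow]
      · rw [dif_pos hi, dif_neg hj, hbν, if_neg fun h : i = j => hj (h ▸ hi)]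
    · by_cases hj : j = o
      · rw [dif_neg hi, dif_pos hj, real_inner_comm, hbν, if_neg fun h : i = j => hi (h ▸ hj)]
      · rw [dif_neg hi, dif_neg hj, hb]
        simp only [Subtype.mk.injEq]
  · simp only [dif_neg hi, dif_neg hj]
    have h1 : T (b (e ⟨i, hi⟩)) = _ := hS.apply_eigenvectorBasis hK (e ⟨i, hi⟩)
    rw [← hT, h1, real_inner_smul_left, Submodule.coe_inner, hb,
      if_neg fun h => hij (congrArg Subtype.val h), mul_zero]
/-- rotating an orthonormal basis from `ν₀` to `ν` -/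
theorem orthonormal_rot {ê : Fin n → E n} (hê : Orthonormal ℝ ê) (o : Fin n) {ν : E n}
    (hν : ‖ν‖ = 1) (hpos : 0 < 1 + ⟪ê o, ν⟫) :
    Orthonormal ℝ fun a => if a = o then ν
      else ê a - (⟪ν, ê a⟫ / (1 + ⟪ê o, ν⟫)) • (ê o + ν) := by
  have hi := orthonormal_iff_ite.1 hê
  have hoo : ⟪ê o, ê o⟫ = 1 := by rw [hi, if_pos rfl]
  have hνν : ⟪ν, ν⟫ = 1 := by rw [real_inner_self_eq_norm_sq, hν, one_pow]
  have h1 : ∀ a, ⟪ν, ê a - (⟪ν, ê a⟫ / (1 + ⟪ê o, ν⟫)) • (ê o + ν)⟫ = 0 := fun a => by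
    rw [inner_sub_right, real_inner_smul_right, inner_add_right, hνν, real_inner_comm (ê o) ν,
      add_comm _ (1 : ℝ), div_mul_cancel₀ _ hpos.ne', sub_self]
  refine orthonormal_iff_ite.2 fun a b => ?_
  by_cases ha : a = o
  · by_cases hb : b = o
    · rw [if_pos ha, if_pos hb, if_pos (ha.trans hb.symm), hνν]
    · rw [if_pos ha, if_neg hb, h1, if_neg fun h : a = b => hb (h ▸ ha)]
  · by_cases hb : b = o
    · rw [if_neg ha, if_pos hb, real_inner_comm, h1, if_neg fun h : a = b => ha (h ▸ hb)]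
    · have h2 : ⟪ê a, ê o⟫ = 0 := by rw [hi, if_neg ha]
      have h3 : ⟪ê o, ê b⟫ = 0 := by rw [hi, if_neg (Ne.symm hb)]
      rw [if_neg ha, if_neg hb, ← hi]
      simp only [inner_sub_left, inner_sub_right, inner_add_left, inner_add_right,
        real_inner_smul_left, real_inner_smul_right, h2, h3, hoo, hνν, real_inner_comm ν (ê a),
        real_inner_comm (ê o) ν]
      field_simp
      ring

end Pool.Agent.Mink.C
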