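import Pool.Agent.Lib.MP_88c759_an.Mink.CN2a

set_option maxSynthPendingDepth 3

namespace Pool.Agent.Mink.C

open scoped ContDiff Topology RealInnerProductSpace
open Set Filter

variable {n : ℕ}

variable {Ω : Set (E n)} {ρ : E n → ℝ}

/-- truncated inverse norm -/
noncomputable def CN2_i (m1 : ℝ → ℝ) (q : B1 n) : ℝ := (Real.sqrt (m1 (‖q‖ ^ 2)))⁻¹
/-- truncated inner normal -/
noncomputable def CN2_nu (m1 : ℝ → ℝ) (q : B1 n) : E n := -(CN2_i m1 q • shp q)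
/-- truncated rotation -/
noncomputable def CN2_u (m2 : ℝ → ℝ) (ν eo ei : E n) : E n :=
  ei - (⟪ν, ei⟫ / m2 (1 + ⟪eo, ν⟫)) • (eo + ν)
/-- truncated boost -/
noncomputable def CN2_g (m3 : ℝ → ℝ) (a v : E n) : E n :=
  v + (((Real.sqrt (m3 (1 - ‖a‖ ^ 2)))⁻¹ ^ 2 / (1 + (Real.sqrt (m3 (1 - ‖a‖ ^ 2)))⁻¹)) * ⟪a, v⟫) • a
/-- truncated frame -/
noncomputable def CN2_v (m1 m2 m3 : ℝ → ℝ) (q p : B1 n) (eo ei : E n) : E n :=
  CN2_g m3 (pr (CN2_nu m1 q) (shp p)) (CN2_u m2 (CN2_nu m1 q) eo ei)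
/-- the parameter space -/
abbrev CN2_V (n : ℕ) : Type := (Fin n → E n) × (Fin n → ℝ) × ℝ × B1 n × B2 n × B1 n × B2 n
/-- truncated quotient -/
noncomputable def CN2_Q (m1 m2 m3 m4 : ℝ → ℝ) (o : Fin n) (ê : Fin n → E n) (lam : Fin n → ℝ)
    (m : ℝ) (q : B1 n) (B : B2 n) (p : B1 n) (A : B2 n) : ℝ :=
  (∑ i ∈ Finset.univ.erase o,
      lam i * A (CN2_v m1 m2 m3 q p (ê o) (ê i)) (CN2_v m1 m2 m3 q p (ê o) (ê i)) - m) /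
    m4 (∑ i ∈ Finset.univ.erase o, lam i *
      (B (CN2_v m1 m2 m3 q p (ê o) (ê i)) (CN2_v m1 m2 m3 q p (ê o) (ê i)) * CN2_i m1 q))

theorem CN2_le : (2 : WithTop ℕ∞) ≤ ∞ := by
  have h : ((2 : ℕ∞) : WithTop ℕ∞) ≤ ((⊤ : ℕ∞) : WithTop ℕ∞) := WithTop.coe_le_coe.2 le_top
  exact h

section smooth

variable {X : Type} [NormedAddCommGroup X] [NormedSpace ℝ X]

theorem CN2_isq {μ : ℝ → ℝ} (hμ : ContDiff ℝ 2 μ) (h0 : ∀ s, 0 < μ s) {f : X → ℝ}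
    (hf : ContDiff ℝ 2 f) : ContDiff ℝ 2 fun z => (Real.sqrt (μ (f z)))⁻¹ :=
  ((hμ.comp hf).sqrt fun _ => (h0 _).ne').inv fun _ => (Real.sqrt_pos.2 (h0 _)).ne'

theorem CN2_shp {f : X → B1 n} (hf : ContDiff ℝ 2 f) : ContDiff ℝ 2 fun z => shp (f z) :=
  (contDiff_shp.of_le CN2_le).comp hf

theorem CN2_i_smooth {m1 : ℝ → ℝ} (h1 : ContDiff ℝ 2 m1) (p1 : ∀ s, 0 < m1 s) {q : X → B1 n}
    (hq : ContDiff ℝ 2 q) : ContDiff ℝ 2 fun z => CN2_i m1 (q z) :=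
  CN2_isq h1 p1 ((contDiff_normsq.of_le CN2_le).comp hq)

theorem CN2_nu_smooth {m1 : ℝ → ℝ} (h1 : ContDiff ℝ 2 m1) (p1 : ∀ s, 0 < m1 s) {q : X → B1 n}
    (hq : ContDiff ℝ 2 q) : ContDiff ℝ 2 fun z => CN2_nu m1 (q z) :=
  ((CN2_i_smooth h1 p1 hq).smul (CN2_shp hq)).neg

theorem CN2_u_smooth {m2 : ℝ → ℝ} (h2 : ContDiff ℝ 2 m2) (p2 : ∀ s, 0 < m2 s)
    {ν eo ei : X → E n} (hν : ContDiff ℝ 2 ν) (ho : ContDiff ℝ 2 eo) (hi : ContDiff ℝ 2 ei) :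
    ContDiff ℝ 2 fun z => CN2_u m2 (ν z) (eo z) (ei z) :=
  hi.sub (((hν.inner ℝ hi).div (h2.comp (contDiff_const.add (ho.inner ℝ hν)))
    fun _ => (p2 _).ne').smul (ho.add hν))

theorem CN2_g_smooth {m3 : ℝ → ℝ} (h3 : ContDiff ℝ 2 m3) (p3 : ∀ s, 0 < m3 s)
    {a v : X → E n} (ha : ContDiff ℝ 2 a) (hv : ContDiff ℝ 2 v) :
    ContDiff ℝ 2 fun z => CN2_g m3 (a z) (v z) := by
  have h : ContDiff ℝ 2 fun z => (Real.sqrt (m3 (1 - ‖a z‖ ^ 2)))⁻¹ :=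
    CN2_isq h3 p3 (contDiff_const.sub (ha.norm_sq ℝ))
  refine hv.add ((((h.pow 2).div (contDiff_const.add h) fun z => ?_).mul (ha.inner ℝ hv)).smul ha)
  have : 0 < (Real.sqrt (m3 (1 - ‖a z‖ ^ 2)))⁻¹ := inv_pos.2 (Real.sqrt_pos.2 (p3 _))
  positivity

theorem CN2_v_smooth {m1 m2 m3 : ℝ → ℝ} (h1 : ContDiff ℝ 2 m1) (p1 : ∀ s, 0 < m1 s)
    (h2 : ContDiff ℝ 2 m2) (p2 : ∀ s, 0 < m2 s) (h3 : ContDiff ℝ 2 m3) (p3 : ∀ s, 0 < m3 s)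
    {q p : X → B1 n} (hq : ContDiff ℝ 2 q) (hp : ContDiff ℝ 2 p) {eo ei : X → E n}
    (ho : ContDiff ℝ 2 eo) (hi : ContDiff ℝ 2 ei) :
    ContDiff ℝ 2 fun z => CN2_v m1 m2 m3 (q z) (p z) (eo z) (ei z) := by
  have hν := CN2_nu_smooth h1 p1 hq
  have hs := CN2_shp hp
  exact CN2_g_smooth h3 p3 (a := fun z => pr (CN2_nu m1 (q z)) (shp (p z)))
    (hs.sub ((hν.inner ℝ hs).smul hν)) (CN2_u_smooth h2 p2 hν ho hi)

theorem CN2_Q_smooth {m1 m2 m3 m4 : ℝ → ℝ} (h1 : ContDiff ℝ 2 m1) (p1 : ∀ s, 0 < m1 s)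
    (h2 : ContDiff ℝ 2 m2) (p2 : ∀ s, 0 < m2 s) (h3 : ContDiff ℝ 2 m3) (p3 : ∀ s, 0 < m3 s)
    (h4 : ContDiff ℝ 2 m4) (p4 : ∀ s, 0 < m4 s) (o : Fin n) {ê : X → Fin n → E n}
    (hê : ∀ i, ContDiff ℝ 2 fun z => ê z i) {lam : X → Fin n → ℝ}
    (hl : ∀ i, ContDiff ℝ 2 fun z => lam z i) {m : X → ℝ} (hm : ContDiff ℝ 2 m)
    {q p : X → B1 n} (hq : ContDiff ℝ 2 q) (hp : ContDiff ℝ 2 p) {B A : X → B2 n}
    (hB : ContDiff ℝ 2 B) (hA : ContDiff ℝ 2 A) :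
    ContDiff ℝ 2 fun z => CN2_Q m1 m2 m3 m4 o (ê z) (lam z) (m z) (q z) (B z) (p z) (A z) := by
  have hv : ∀ i, ContDiff ℝ 2 fun z => CN2_v m1 m2 m3 (q z) (p z) (ê z o) (ê z i) :=
    fun i => CN2_v_smooth h1 p1 h2 p2 h3 p3 hq hp (hê o) (hê i)
  refine ((ContDiff.sum fun i _ => (hl i).mul ((hA.clm_apply (hv i)).clm_apply (hv i))).sub hm).div
    (h4.comp (ContDiff.sum fun i _ => (hl i).mul
      (((hB.clm_apply (hv i)).clm_apply (hv i)).mul (CN2_i_smooth h1 p1 hq)))) fun _ => (p4 _).ne'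

end smooth

theorem CN2_Psi_smooth {m1 m2 m3 m4 : ℝ → ℝ} (h1 : ContDiff ℝ 2 m1) (p1 : ∀ s, 0 < m1 s)
    (h2 : ContDiff ℝ 2 m2) (p2 : ∀ s, 0 < m2 s) (h3 : ContDiff ℝ 2 m3) (p3 : ∀ s, 0 < m3 s)
    (h4 : ContDiff ℝ 2 m4) (p4 : ∀ s, 0 < m4 s) (o : Fin n) :
    ContDiff ℝ 2 fun z : CN2_V n => CN2_Q m1 m2 m3 m4 o z.1 z.2.1 z.2.2.1 z.2.2.2.1 z.2.2.2.2.1
      z.2.2.2.2.2.1 z.2.2.2.2.2.2 :=
  CN2_Q_smooth h1 p1 h2 p2 h3 p3 h4 p4 o (fun i => (contDiff_apply ℝ (E n) i).comp contDiff_fst)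
    (fun i => (contDiff_apply ℝ ℝ i).comp contDiff_snd.fst) contDiff_snd.snd.fst
    contDiff_snd.snd.snd.fst contDiff_snd.snd.snd.snd.snd.fst contDiff_snd.snd.snd.snd.fst
    contDiff_snd.snd.snd.snd.snd.snd

theorem CN2_le4 : (4 : WithTop ℕ∞) ≤ ∞ := by
  have h : ((4 : ℕ∞) : WithTop ℕ∞) ≤ ((⊤ : ℕ∞) : WithTop ℕ∞) := WithTop.coe_le_coe.2 le_top
  exact h

theorem CN2_norm_le {M : ℝ} (_hM : 0 ≤ M) {a : Fin n → E n} {b : Fin n → ℝ} {c : ℝ} {q p : B1 n}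
    {B A : B2 n} (ha : ‖a‖ ≤ M) (hb : ‖b‖ ≤ M) (hc : ‖c‖ ≤ M) (hq : ‖q‖ ≤ M) (hB : ‖B‖ ≤ M)
    (hp : ‖p‖ ≤ M) (hA : ‖A‖ ≤ M) : ‖((a, b, c, q, B, p, A) : CN2_V n)‖ ≤ M := by
  simp only [Prod.norm_mk, max_le_iff]
  exact ⟨ha, hb, hc, hq, hB, hp, hA⟩

theorem CN2_taylor {f : E n → ℝ} (hf : ContDiff ℝ 4 f) {S : Set (E n)} (hS : Convex ℝ S) {M : ℝ}
    (hb : ∀ w ∈ S, ‖d2 f w‖ ≤ M ∧ ‖d3 f w‖ ≤ M ∧ ‖d4 f w‖ ≤ M) {x y : E n} (hx : x ∈ S)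
    (hy : y ∈ S) :
    ‖d1 f y - d1 f x‖ ≤ M * ‖y - x‖ ∧ ‖d1 f y - d1 f x - d2 f x (y - x)‖ ≤ M * ‖y - x‖ ^ 2 ∧
      ‖d2 f y - d2 f x‖ ≤ M * ‖y - x‖ ∧ ‖d2 f y - d2 f x - d3 f x (y - x)‖ ≤ M * ‖y - x‖ ^ 2 := by
  have h3 : ContDiff ℝ 3 (d1 f) := hf.fderiv_right (m := 3) (by norm_num)
  have h2 : ContDiff ℝ 2 (d2 f) := h3.fderiv_right (m := 2) (by norm_num)
  have a := taylor_convex (h3.of_le (by norm_num)) hS (fun w hw => (hb w hw).1)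
    (fun w hw => (hb w hw).2.1) hx hy
  have b := taylor_convex h2 hS (fun w hw => (hb w hw).2.1) (fun w hw => (hb w hw).2.2) hx hy
  exact ⟨a.1, a.2, b.1, b.2⟩

/-- First order expansion, with quadratic error, of the quotient
`(∑ λ_i D²φ (v_i, v_i) - m) / ∑ λ_i B (v_i, v_i)` along the boundary, for the rotated frames. -/
theorem quot_taylor (h : Dom Ω ρ) (W C₀ ε : ℝ) (hW : 1 ≤ W) (hε : 0 < ε) :
    ∃ C r : ℝ, 0 ≤ C ∧ 0 < r ∧ ∀ φ : E n → ℝ, PhiB Ω φ C₀ →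
      (∀ y ∈ frontier Ω, ‖aT ρ φ y‖ ^ 2 ≤ 1 - (W ^ 2)⁻¹) →
      ∀ x ∈ frontier Ω, ∀ (o : Fin n) (ê : Fin n → E n) (lam : Fin n → ℝ) (m : ℝ),
        Orthonormal ℝ ê → ê o = nin ρ x → (∀ i, |lam i| ≤ 1) → |m| ≤ C₀ →
        ∃ l : B1 n, ‖l‖ ≤ C ∧ ∀ y ∈ frontier Ω, ‖y - x‖ ≤ r → 0 < 1 + ⟪ê o, nin ρ y⟫ ∧
          ∀ v : Fin n → E n, (∀ i, v i = gam (aT ρ φ y)
              (ê i - (⟪nin ρ y, ê i⟫ / (1 + ⟪ê o, nin ρ y⟫)) • (ê o + nin ρ y))) →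
            ε ≤ ∑ i ∈ Finset.univ.erase o, lam i * Bf ρ y (v i) (v i) →
            ε ≤ ∑ i ∈ Finset.univ.erase o,
              lam i * Bf ρ x (gam (aT ρ φ x) (ê i)) (gam (aT ρ φ x) (ê i)) →
            (∑ i ∈ Finset.univ.erase o, lam i * d2 φ y (v i) (v i) - m)
                / (∑ i ∈ Finset.univ.erase o, lam i * Bf ρ y (v i) (v i))
              ≤ (∑ i ∈ Finset.univ.erase o,
                    lam i * d2 φ x (gam (aT ρ φ x) (ê i)) (gam (aT ρ φ x) (ê i)) - m)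
                  / (∑ i ∈ Finset.univ.erase o,
                    lam i * Bf ρ x (gam (aT ρ φ x) (ê i)) (gam (aT ρ φ x) (ê i)))
                + l (y - x) + C * ‖y - x‖ ^ 2 := by
  classical
  obtain ⟨mρ, Cρ, rρ, hm0, hC0, -, hρb, hfr⟩ := h.consts
  obtain ⟨m1, h1, p1, e1⟩ := exists_trunc (ε := mρ ^ 2) (by positivity)
  obtain ⟨m2, h2, p2, e2⟩ := exists_trunc (ε := 1) one_pos
  have hW0 : 0 < (W ^ 2)⁻¹ := by positivity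
  obtain ⟨m3, h3, p3, e3⟩ := exists_trunc hW0
  obtain ⟨m4, h4, p4, e4⟩ := exists_trunc hε
  have q1 : ∀ s, 0 < m1 s := fun s => lt_of_lt_of_le (by positivity) (p1 s)
  have q2 : ∀ s, 0 < m2 s := fun s => lt_of_lt_of_le (by positivity) (p2 s)
  have q3 : ∀ s, 0 < m3 s := fun s => lt_of_lt_of_le (by positivity) (p3 s)
  have q4 : ∀ s, 0 < m4 s := fun s => lt_of_lt_of_le (by positivity) (p4 s)
  set M : ℝ := max (max Cρ C₀) 1 with hM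
  have hM1 : 1 ≤ M := le_max_right _ _
  have hMρ : Cρ ≤ M := (le_max_left _ _).trans (le_max_left _ _)
  have hMφ : C₀ ≤ M := (le_max_right _ _).trans (le_max_left _ _)
  have hM0 : 0 ≤ M := zero_le_one.trans hM1
  choose T hT0 hT using fun o : Fin n => taylor_unif (CN2_Psi_smooth (h1.of_le CN2_le) q1
    (h2.of_le CN2_le) q2 (h3.of_le CN2_le) q3 (h4.of_le CN2_le) q4 o) M
  set T' : ℝ := ∑ o, T o with hT'
  have hT'0 : 0 ≤ T' := Finset.sum_nonneg fun o _ => hT0 o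
  have hTle : ∀ o, T o ≤ T' := fun o =>
    Finset.single_le_sum (f := T) (fun o _ => hT0 o) (Finset.mem_univ o)
  refine ⟨T' * M + T' * M ^ 2, Cρ⁻¹, by positivity, by positivity, ?_⟩
  intro φ hφ haT x hx o ê lam m hê ho hlam hm
  set Ψ : CN2_V n → ℝ := fun z => CN2_Q m1 m2 m3 m4 o z.1 z.2.1 z.2.2.1 z.2.2.2.1 z.2.2.2.2.1
    z.2.2.2.2.2.1 z.2.2.2.2.2.2 with hΨ
  set z : E n → CN2_V n := fun y => (ê, lam, m, d1 ρ y, d2 ρ y, d1 φ y, d2 φ y) with hz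
  set L : E n →L[ℝ] CN2_V n := (0 : E n →L[ℝ] (Fin n → E n)).prod
    ((0 : E n →L[ℝ] (Fin n → ℝ)).prod ((0 : E n →L[ℝ] ℝ).prod
      ((d2 ρ x).prod ((d3 ρ x).prod ((d2 φ x).prod (d3 φ x)))))) with hL
  have hLa : ∀ v, L v = (0, 0, 0, d2 ρ x v, d3 ρ x v, d2 φ x v, d3 φ x v) := fun _ => rfl
  have hxc := h.frontier_sub hx
  have hzb : ∀ y ∈ closure Ω, ‖z y‖ ≤ M := by
    intro y hy
    obtain ⟨a1, a2, -, -⟩ := hρb y hy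
    obtain ⟨-, b1, b2, -, -⟩ := hφ.2 y hy
    refine CN2_norm_le hM0 ?_ ?_ ?_ (a1.trans hMρ) (a2.trans hMρ) (b1.trans hMφ) (b2.trans hMφ)
    · exact (pi_norm_le_iff_of_nonneg hM0).2 fun i => (hê.1 i).le.trans hM1
    · exact (pi_norm_le_iff_of_nonneg hM0).2 fun i => (hlam i).trans hM1
    · exact hm.trans hMφ
  have hρ4 : ContDiff ℝ 4 ρ := h.smooth.of_le CN2_le4
  have hLb : ∀ v, ‖L v‖ ≤ M * ‖v‖ := by
    intro v
    obtain ⟨-, a2, a3, -⟩ := hρb x hxc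
    obtain ⟨-, -, b2, b3, -⟩ := hφ.2 x hxc
    have h0 : 0 ≤ M * ‖v‖ := by positivity
    rw [hLa]
    exact CN2_norm_le h0 (by simpa using h0) (by simpa using h0) (by simpa using h0)
      ((d2 ρ x).le_of_opNorm_le (a2.trans hMρ) v) ((d3 ρ x).le_of_opNorm_le (a3.trans hMρ) v)
      ((d2 φ x).le_of_opNorm_le (b2.trans hMφ) v) ((d3 φ x).le_of_opNorm_le (b3.trans hMφ) v)
  have hzt : ∀ y ∈ closure Ω, ‖z y - z x‖ ≤ M * ‖y - x‖ ∧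
      ‖z y - z x - L (y - x)‖ ≤ M * ‖y - x‖ ^ 2 := by
    intro y hy
    obtain ⟨a1, a2, a3, a4⟩ := CN2_taylor hρ4 h.convex_closure (M := M)
      (fun w hw => ⟨(hρb w hw).2.1.trans hMρ, (hρb w hw).2.2.1.trans hMρ,
        (hρb w hw).2.2.2.trans hMρ⟩) hxc hy
    obtain ⟨b1, b2, b3, b4⟩ := CN2_taylor hφ.1 h.convex_closure (M := M)
      (fun w hw => ⟨(hφ.2 w hw).2.2.1.trans hMφ, (hφ.2 w hw).2.2.2.1.trans hMφ,
        (hφ.2 w hw).2.2.2.2.trans hMφ⟩) hxc hy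
    have h0 : 0 ≤ M * ‖y - x‖ := by positivity
    have h0' : 0 ≤ M * ‖y - x‖ ^ 2 := by positivity
    constructor
    · have e : z y - z x = (0, 0, 0, d1 ρ y - d1 ρ x, d2 ρ y - d2 ρ x, d1 φ y - d1 φ x,
          d2 φ y - d2 φ x) := by
        simp only [hz, Prod.mk_sub_mk, sub_self]
      rw [e]
      exact CN2_norm_le h0 (by simpa using h0) (by simpa using h0) (by simpa using h0) a1 a3 b1 b3
    · have e : z y - z x - L (y - x) = (0, 0, 0, d1 ρ y - d1 ρ x - d2 ρ x (y - x),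
          d2 ρ y - d2 ρ x - d3 ρ x (y - x), d1 φ y - d1 φ x - d2 φ x (y - x),
          d2 φ y - d2 φ x - d3 φ x (y - x)) := by
        simp only [hz, hLa, Prod.mk_sub_mk, sub_self]
      rw [e]
      exact CN2_norm_le h0' (by simpa using h0') (by simpa using h0') (by simpa using h0')
        a2 a4 b2 b4
  have hD : ‖fderiv ℝ Ψ (z x)‖ ≤ T' := ((hT o _ _ (hzb x hxc) (hzb x hxc)).1).trans (hTle o)
  -- the truncations are not seen at boundary points near `x`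
  have hval : ∀ y ∈ frontier Ω, 0 ≤ ⟪ê o, nin ρ y⟫ → ∀ v : Fin n → E n,
      (∀ i, i ≠ o → v i = gam (aT ρ φ y)
        (ê i - (⟪nin ρ y, ê i⟫ / (1 + ⟪ê o, nin ρ y⟫)) • (ê o + nin ρ y))) →
      ε ≤ ∑ i ∈ Finset.univ.erase o, lam i * Bf ρ y (v i) (v i) →
      Ψ (z y) = (∑ i ∈ Finset.univ.erase o, lam i * d2 φ y (v i) (v i) - m)
        / (∑ i ∈ Finset.univ.erase o, lam i * Bf ρ y (v i) (v i)) := by
    intro y hy hpos v hv hden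
    have hi : CN2_i m1 (d1 ρ y) = ‖d1 ρ y‖⁻¹ := by
      rw [CN2_i, e1 _ (pow_le_pow_left₀ hm0.le (hfr y hy).1 2), Real.sqrt_sq (norm_nonneg _)]
    have hnu : CN2_nu m1 (d1 ρ y) = nin ρ y := by rw [CN2_nu, hi, nin]
    have hvv : ∀ i ∈ Finset.univ.erase o,
        CN2_v m1 m2 m3 (d1 ρ y) (d1 φ y) (ê o) (ê i) = v i := by
      intro i hi'
      rw [hv i (Finset.ne_of_mem_erase hi'), CN2_v, hnu, CN2_u, e2 _ (by linarith), CN2_g]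
      have : pr (nin ρ y) (shp (d1 φ y)) = aT ρ φ y := rfl
      rw [this, e3 _ (by linarith [haT y hy]), gam]
    have hden' : ∑ i ∈ Finset.univ.erase o, lam i *
        (d2 ρ y (CN2_v m1 m2 m3 (d1 ρ y) (d1 φ y) (ê o) (ê i))
          (CN2_v m1 m2 m3 (d1 ρ y) (d1 φ y) (ê o) (ê i)) * CN2_i m1 (d1 ρ y))
        = ∑ i ∈ Finset.univ.erase o, lam i * Bf ρ y (v i) (v i) :=
      Finset.sum_congr rfl fun i hi' => by rw [hvv i hi', hi, Bf, div_eq_mul_inv]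
    have hnum : ∑ i ∈ Finset.univ.erase o, lam i *
        d2 φ y (CN2_v m1 m2 m3 (d1 ρ y) (d1 φ y) (ê o) (ê i))
          (CN2_v m1 m2 m3 (d1 ρ y) (d1 φ y) (ê o) (ê i))
        = ∑ i ∈ Finset.univ.erase o, lam i * d2 φ y (v i) (v i) :=
      Finset.sum_congr rfl fun i hi' => by rw [hvv i hi']
    change CN2_Q m1 m2 m3 m4 o ê lam m (d1 ρ y) (d2 ρ y) (d1 φ y) (d2 φ y) = _
    rw [CN2_Q, hden', hnum, e4 _ hden]
  refine ⟨(fderiv ℝ Ψ (z x)).comp L, ?_, ?_⟩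
  · refine ContinuousLinearMap.opNorm_le_bound _ (by positivity) fun v => ?_
    have h5 := (fderiv ℝ Ψ (z x)).le_of_opNorm_le_of_le hD (hLb v)
    have h6 : 0 ≤ T' * M ^ 2 * ‖v‖ := by positivity
    rw [ContinuousLinearMap.comp_apply]
    nlinarith
  intro y hy hyx
  have hyc := h.frontier_sub hy
  have hpos : 0 ≤ ⟪ê o, nin ρ y⟫ := by
    have h5 := ((hfr x hx).2.2.2.1 y hy).2
    have h6 : Cρ * ‖y - x‖ ≤ 1 := by
      have := mul_le_mul_of_nonneg_left hyx hC0.le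
      rwa [mul_inv_cancel₀ hC0.ne'] at this
    have h7 : ‖nin ρ y - nin ρ x‖ ^ 2 ≤ 1 := pow_le_one₀ (norm_nonneg _) (h5.trans h6)
    rw [norm_sub_sq_real, h.norm_nin hy, h.norm_nin hx] at h7
    rw [ho, real_inner_comm]
    linarith
  refine ⟨by linarith, fun v hv hdy hdx => ?_⟩
  have hxx : ⟪ê o, nin ρ x⟫ = 1 := by
    rw [ho, real_inner_self_eq_norm_sq, h.norm_nin hx, one_pow]
  rw [← hval y hy hpos v (fun i _ => hv i) hdy,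
    ← hval x hx (by rw [hxx]; exact zero_le_one) (fun i => gam (aT ρ φ x) (ê i)) (fun i hi => by
      rw [← ho, hê.2 hi.symm, zero_div, zero_smul, sub_zero]) hdx]
  obtain ⟨t1, t2⟩ := hzt y hyc
  have h5 := (hT o _ _ (hzb x hxc) (hzb y hyc)).2
  have h6 := (fderiv ℝ Ψ (z x)).le_of_opNorm_le_of_le hD t2
  rw [map_sub (fderiv ℝ Ψ (z x)) (z y - z x), Real.norm_eq_abs] at h6
  have h7 : T o * ‖z y - z x‖ ^ 2 ≤ T' * (M * ‖y - x‖) ^ 2 :=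
    mul_le_mul (hTle o) (pow_le_pow_left₀ (norm_nonneg _) t1 2) (by positivity) hT'0
  have h8 := (abs_le.1 h5).2
  have h9 := (abs_le.1 h6).2
  rw [ContinuousLinearMap.comp_apply]
  change Ψ (z y) - Ψ (z x) - fderiv ℝ Ψ (z x) (z y - z x) ≤ T o * ‖z y - z x‖ ^ 2 at h8
  nlinarith


end Pool.Agent.Mink.C
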