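import Pool.Agent.Lib.MP_88c759_an.Mink.CN1

set_option maxSynthPendingDepth 3

namespace Pool.Agent.Mink.C

open scoped ContDiff Topology RealInnerProductSpace
open Set Filter

variable {n : ℕ}

variable {Ω : Set (E n)} {ρ : E n → ℝ}

/-- the boundary form is uniformly positive against the weights `σ_{k-2}(y|a)` -/
theorem eta_lower (h : Dom Ω ρ) (k : ℕ) (hk : 2 ≤ k) {c₁ : ℝ} (hc₁ : 0 < c₁) (hR : Rk k Ω ρ c₁) :
    ∃ ε : ℝ, 0 < ε ∧ ∀ x ∈ frontier Ω, ∀ (a : E n) (o : Fin n) (ê : Fin n → E n) (y : Fin n → ℝ),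
      ‖a‖ < 1 → ⟪nin ρ x, a⟫ = 0 → Orthonormal ℝ ê → ê o = nin ρ x →
      Gam (Finset.univ.erase o) (k - 1) y →
      ε * ∑ i ∈ Finset.univ.erase o, es ((Finset.univ.erase o).erase i) (k - 2) y
        ≤ ∑ i ∈ Finset.univ.erase o, es ((Finset.univ.erase o).erase i) (k - 2) y
            * Bf ρ x (gam a (ê i)) (gam a (ê i)) := by
  have hc : 0 < c₁ / ((n : ℝ) + 1) := by positivity
  obtain ⟨δ, hδ, hG⟩ := gam_of_many (ι := Fin n) n (k - 1) (c₁ / ((n : ℝ) + 1) / 2) (by positivity)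
  refine ⟨min δ (c₁ / ((n : ℝ) + 1) / 2), by positivity, fun x hx a o ê y ha hna hê ho hy => ?_⟩
  have e1 : min δ (c₁ / ((n : ℝ) + 1) / 2) ≤ δ := min_le_left _ _
  have e2 : min δ (c₁ / ((n : ℝ) + 1) / 2) ≤ c₁ / ((n : ℝ) + 1) / 2 := min_le_right _ _
  generalize min δ (c₁ / ((n : ℝ) + 1) / 2) = ε at e1 e2
  obtain ⟨T, hT1, hT2⟩ := hR x hx
  have hY : ∀ v w, (‖d1 ρ x‖⁻¹ • d2 ρ x : B2 n) v w = Bf ρ x v w := fun v w => by
    rw [Bf, div_eq_inv_mul]
    rfl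
  have hsp := fun v => span_gam ha o hê (by rw [ho]; exact hna) v
  rw [ho] at hsp
  obtain ⟨t, hts, htc, ht⟩ := many_diag (s := Finset.univ.erase o) (e := fun i => gam a (ê i))
    (p := innerSL ℝ a) (by rwa [innerSL_apply_norm])
    (fun i _ j _ => (gam_isom ha (ê i) (ê j)).trans (orthonormal_iff_ite.mp hê i j))
    (Y := ‖d1 ρ x‖⁻¹ • d2 ρ x) (fun v w => by rw [hY, hY, h.Bf_comm])
    (fun v hv => by rw [hY]; exact h.Bf_nonneg hx ((hsp v).mp hv))
    (T := T) (fun v hv => (hsp v).mpr (hT2 v hv).1) hc₁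
    (fun v hv => by rw [hY]; exact (hT2 v hv).2)
  have hz : Gam (Finset.univ.erase o) (k - 1)
      fun i => Bf ρ x (gam a (ê i)) (gam a (ê i)) - ε := by
    refine hG _ t _ (by simp) hts
      (htc.trans hT1) (fun i hi => ?_) fun i hi => ?_
    · have := ht i hi
      rw [hY] at this
      linarith
    · have := h.Bf_nonneg hx ((hsp (gam a (ê i))).mp (Submodule.subset_span ⟨i, hi, rfl⟩))
      linarith
  have h1 := garding_pos (by omega) hy hz
  rw [show k - 1 - 1 = k - 2 by omega] at h1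
  simp only [mul_sub, Finset.sum_sub_distrib] at h1
  rw [← Finset.sum_mul] at h1
  linarith

end Pool.Agent.Mink.C
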