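import Pool.Agent.Lib.MP_88c759_an.Mink.CF1
import Pool.Agent.Lib.MP_88c759_an.Mink.CJ

set_option maxSynthPendingDepth 3

namespace Pool.Agent.Mink.C

open scoped ContDiff Topology RealInnerProductSpace
open Set Filter

variable {n : ℕ}

theorem J2_line {V : Type} [NormedAddCommGroup V] [NormedSpace ℝ V] {f : E n → V} {x : E n}
    (hf : ContDiffAt ℝ 2 f x) (v : E n) :
    J2 (fun t : ℝ => f (x + t • v)) (f x) (fderiv ℝ f x v) (fderiv ℝ (fderiv ℝ f) x v v) := by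
  have h := J2.comp (ψ := f) (γ := fun t : ℝ => x + t • v) hf (J2.line x v)
  exact h.of_eq rfl rfl (by simp)

theorem J2_u {u : E n → ℝ} {x : E n} (hu : ContDiffAt ℝ 2 u x) (v : E n) :
    J2 (fun t : ℝ => u (x + t • v)) (u x) (d1 u x v) (d2 u x v v) := by
  exact J2_line hu v

theorem J2_d1 {u : E n → ℝ} {x : E n} (hu : ContDiffAt ℝ 3 u x) (v : E n) :
    J2 (fun t : ℝ => d1 u (x + t • v)) (d1 u x) (d2 u x v) (d3 u x v v) := by
  exact J2_line (f := d1 u) (hu.fderiv_right (m := 2) (by norm_num)) v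

theorem J2_d2 {u : E n → ℝ} {x : E n} (hu : ContDiffAt ℝ 4 u x) (v : E n) :
    J2 (fun t : ℝ => d2 u (x + t • v)) (d2 u x) (d3 u x v) (d4 u x v v) := by
  have h1 : ContDiffAt ℝ 3 (d1 u) x := hu.fderiv_right (m := 3) (by norm_num)
  exact J2_line (f := d2 u) (h1.fderiv_right (m := 2) (by norm_num)) v


theorem CP1_aux1 {V W : Type} [NormedAddCommGroup V] [NormedSpace ℝ V] [NormedAddCommGroup W]
    [NormedSpace ℝ W] {F : E n → W} {x : E n} (hF : DifferentiableAt ℝ F x) (L L' : W →L[ℝ] V)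
    (h : ∀ᶠ y in 𝓝 x, L (F y) = L' (F y)) (a : E n) :
    L (fderiv ℝ F x a) = L' (fderiv ℝ F x a) := by
  have h1 : HasFDerivAt (fun y => L (F y)) (L.comp (fderiv ℝ F x)) x :=
    L.hasFDerivAt.comp x hF.hasFDerivAt
  have h2 : HasFDerivAt (fun y => L' (F y)) (L'.comp (fderiv ℝ F x)) x :=
    L'.hasFDerivAt.comp x hF.hasFDerivAt
  have h3 := h1.unique (h2.congr_of_eventuallyEq h)
  exact congrArg (fun M => M a) h3

theorem CP1_aux2 {V : Type} [NormedAddCommGroup V] [NormedSpace ℝ V] {f : E n → V} {x : E n}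
    (hf : ContDiffAt ℝ 2 f x) (v w : E n) :
    fderiv ℝ (fderiv ℝ f) x v w = fderiv ℝ (fderiv ℝ f) x w v :=
  (hf.isSymmSndFDerivAt (by simp)).eq v w

theorem sym_d2 {u : E n → ℝ} {x : E n} (hu : ContDiffAt ℝ 2 u x) : Sym (d2 u x) := by
  intro v w
  exact CP1_aux2 hu v w

theorem sym_d3 {u : E n → ℝ} {x : E n} (hu : ContDiffAt ℝ 3 u x) (a b c : E n) :
    d3 u x a b c = d3 u x b a c ∧ d3 u x a b c = d3 u x a c b := by
  have h1 : ContDiffAt ℝ 2 (d1 u) x := hu.fderiv_right (m := 2) (by norm_num)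
  have h2 : DifferentiableAt ℝ (d2 u) x :=
    (h1.fderiv_right (m := 1) (by norm_num)).differentiableAt (by simp)
  refine ⟨congrArg (fun M : B1 n => M c) (CP1_aux2 h1 a b), ?_⟩
  have h3 : ∀ᶠ y in 𝓝 x, ContDiffAt ℝ 2 u y := (hu.of_le (by norm_num)).eventually (by simp)
  exact CP1_aux1 h2
    ((ContinuousLinearMap.apply ℝ ℝ c).comp (ContinuousLinearMap.apply ℝ (B1 n) b))
    ((ContinuousLinearMap.apply ℝ ℝ b).comp (ContinuousLinearMap.apply ℝ (B1 n) c))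
    (h3.mono fun y hy => sym_d2 hy b c) a

theorem sym_d4 {u : E n → ℝ} {x : E n} (hu : ContDiffAt ℝ 4 u x) (a b c d : E n) :
    d4 u x a b c d = d4 u x b a c d ∧ d4 u x a b c d = d4 u x a c b d ∧
      d4 u x a b c d = d4 u x a b d c := by
  have h0 : ContDiffAt ℝ 3 (d1 u) x := hu.fderiv_right (m := 3) (by norm_num)
  have h1 : ContDiffAt ℝ 2 (d2 u) x := h0.fderiv_right (m := 2) (by norm_num)
  have h2 : DifferentiableAt ℝ (d3 u) x :=
    (h1.fderiv_right (m := 1) (by norm_num)).differentiableAt (by simp)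
  have h3 : ∀ᶠ y in 𝓝 x, ContDiffAt ℝ 3 u y := (hu.of_le (by norm_num)).eventually (by simp)
  refine ⟨congrArg (fun M : B2 n => M c d) (CP1_aux2 h1 a b), ?_, ?_⟩
  · exact CP1_aux1 h2
      ((ContinuousLinearMap.apply ℝ ℝ d).comp ((ContinuousLinearMap.apply ℝ (B1 n) c).comp
        (ContinuousLinearMap.apply ℝ (B2 n) b)))
      ((ContinuousLinearMap.apply ℝ ℝ d).comp ((ContinuousLinearMap.apply ℝ (B1 n) b).comp
        (ContinuousLinearMap.apply ℝ (B2 n) c)))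
      (h3.mono fun y hy => (sym_d3 hy b c d).1) a
  · exact CP1_aux1 h2
      ((ContinuousLinearMap.apply ℝ ℝ d).comp ((ContinuousLinearMap.apply ℝ (B1 n) c).comp
        (ContinuousLinearMap.apply ℝ (B2 n) b)))
      ((ContinuousLinearMap.apply ℝ ℝ c).comp ((ContinuousLinearMap.apply ℝ (B1 n) d).comp
        (ContinuousLinearMap.apply ℝ (B2 n) b)))
      (h3.mono fun y hy => (sym_d3 hy b c d).2) a

theorem V3_sym {u : E n → ℝ} {x : E n} (hu : ContDiffAt ℝ 3 u x) (e : Fin n → E n)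
    (i l m : Fin n) : V3 u x e i l m = V3 u x e l i m ∧ V3 u x e i l m = V3 u x e i m l := by
  exact sym_d3 hu (e i) (e l) (e m)

theorem z4_sym {u : E n → ℝ} {x : E n} (hu : ContDiffAt ℝ 4 u x) (e : Fin n → E n)
    (i a : Fin n) : z4 u x e i a = z4 u x e a i := by
  unfold z4
  rw [(sym_d4 hu (e a) (e a) (e i) (e i)).2.1, (sym_d4 hu (e a) (e i) (e a) (e i)).1,
    (sym_d4 hu (e i) (e a) (e a) (e i)).2.2, (sym_d4 hu (e i) (e a) (e i) (e a)).2.1]

/-- second order conditions at an interior maximum -/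
theorem max_cond {f : E n → ℝ} {x : E n} (hf : ContDiffAt ℝ 2 f x) (hm : IsLocalMax f x) :
    d1 f x = 0 ∧ Psd (-d2 f x) := by
  refine ⟨hm.fderiv_eq_zero, fun v w => ?_, fun v => ?_⟩
  · simp only [neg_apply, sym_d2 hf v w]
  · have hc : ContinuousAt (fun t : ℝ => x + t • v) 0 := by fun_prop
    have hm' : IsLocalMax f ((fun t : ℝ => x + t • v) 0) := by simpa using hm
    have h := ((J2_u hf v).of_isLocalMax (IsLocalMax.comp_continuous (g := fun t : ℝ => x + t • v) hm' hc)).2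
    simpa using h

theorem J2_W {u : E n → ℝ} {x : E n} (hu : ContDiffAt ℝ 3 u x) (hp : ‖d1 u x‖ < 1)
    {e : Fin n → E n} {κ : Fin n → ℝ} (hd : Diag (d1 u x) (d2 u x) e κ) (a : Fin n) :
    J2 (fun t : ℝ => Wp (d1 u (x + t • e a))) (Wp (d1 u x)) (κ a * d1 u x (e a))
      (W2 (Wp (d1 u x)) κ (fun i => d1 u x (e i)) (V3 u x e) a) := by
  obtain ⟨L, hL⟩ := exists_shpL (n := n)
  set p := d1 u x with hpdef
  set w := Wp p with hw
  have hw0 : 0 < w := Wp_pos hp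
  have hws : w ^ 2 * (1 - ‖p‖ ^ 2) = 1 := Wp_sq hp
  have hA : 0 < 1 - ‖p‖ ^ 2 := by
    have := norm_nonneg p
    nlinarith
  have hnorm : ∀ q : B1 n, ⟪L q, L q⟫ = ‖q‖ ^ 2 := fun q => by
    rw [hL, real_inner_self_eq_norm_sq, norm_shp]
  have h1 := (J2_d1 hu (e a)).clm L
  have h2 := (J2.const (1:ℝ)).sub (h1.inner h1)
  simp only [hnorm] at h2
  have h3 := (h2.sqrt hA).inv (Real.sqrt_pos.2 hA).ne'
  have hσ : Real.sqrt (1 - ‖p‖ ^ 2) = w⁻¹ := by
    rw [hw, Wp, inv_inv]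
  have hA' : 1 - ‖p‖ ^ 2 = (w ^ 2)⁻¹ := by
    field_simp
    linarith
  have hq : d2 u x (e a) = (κ a / w) • gfl p (e a) := hd.r_eq hp a
  have hg1 : gfl p (e a) (shp p) = p (e a) / w ^ 2 := by
    rw [gfl_apply, gp, real_inner_comm, inner_shp, apply_shp, div_eq_mul_inv, ← hA']
    ring
  have hα : ⟪L (d2 u x (e a)), L p⟫ = κ a * p (e a) / w ^ 3 := by
    rw [hL, hL, inner_shp, hq, smul_apply, hg1, smul_eq_mul]
    field_simp
  have hα' : ⟪L p, L (d2 u x (e a))⟫ = κ a * p (e a) / w ^ 3 := by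
    rw [real_inner_comm, hα]
  have hsg : L (gfl p (e a)) = e a - p (e a) • shp p := by
    rw [gfl, map_sub, map_smul, hL, hL, shp_innerSL]
  have hγ : ‖d2 u x (e a)‖ ^ 2 = (κ a / w) ^ 2 * (1 - p (e a) ^ 2 / w ^ 2) := by
    have h5 : ‖gfl p (e a)‖ ^ 2 = 1 - p (e a) ^ 2 / w ^ 2 := by
      rw [← apply_shp, ← hL, hsg, map_sub, map_smul, hg1, gfl_apply, hd.1 a a, if_pos rfl,
        smul_eq_mul]
      ring
    rw [hq, norm_smul, mul_pow, h5, Real.norm_eq_abs, sq_abs]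
  have hβ : ⟪L (d3 u x (e a) (e a)), L p⟫ = (∑ j, p (e j) * V3 u x e j a a) / w ^ 2 := by
    have h5 := congrArg (d3 u x (e a) (e a)) (hd.1.sum_b_smul hp)
    rw [map_sum, map_smul, smul_eq_mul] at h5
    rw [hL, hL, inner_shp, eq_div_iff (by positivity), mul_comm, ← h5]
    refine Finset.sum_congr rfl fun j _ => ?_
    rw [map_smul, smul_eq_mul, (V3_sym hu e j a a).1, (V3_sym hu e a j a).2]
    rfl
  have hβ' : ⟪L p, L (d3 u x (e a) (e a))⟫ = (∑ j, p (e j) * V3 u x e j a a) / w ^ 2 := by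
    rw [real_inner_comm, hβ]
  refine h3.of_eq rfl ?_ ?_
  · rw [hσ, hα, hα']
    field_simp
    ring
  · rw [hσ, hα, hα', hβ, hβ', hγ, W2]
    field_simp
    ring

theorem J2_psi {u : E n → ℝ} {x : E n} (hu : ContDiffAt ℝ 3 u x) (hp : ‖d1 u x‖ < 1)
    {e : Fin n → E n} {κ : Fin n → ℝ} (hd : Diag (d1 u x) (d2 u x) e κ)
    {ψ : B1 n × ℝ × E n → ℝ} (hψ : ContDiffAt ℝ 2 ψ (d1 u x, u x, x)) (a : Fin n) :
    J2 (fun t : ℝ => ψ (d1 u (x + t • e a), u (x + t • e a), x + t • e a)) (ψ (d1 u x, u x, x))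
      (fderiv ℝ ψ (d1 u x, u x, x) (0, d1 u x (e a), e a)
        + κ a / Wp (d1 u x) * fderiv ℝ ψ (d1 u x, u x, x) (gfl (d1 u x) (e a), 0, 0))
      (fderiv ℝ (fderiv ℝ ψ) (d1 u x, u x, x)
          ((κ a / Wp (d1 u x)) • gfl (d1 u x) (e a), d1 u x (e a), e a)
          ((κ a / Wp (d1 u x)) • gfl (d1 u x) (e a), d1 u x (e a), e a)
        + κ a / Wp (d1 u x) * fderiv ℝ ψ (d1 u x, u x, x) (0, 1, 0)
        + ∑ m, V3 u x e a a m * fderiv ℝ ψ (d1 u x, u x, x) (gfl (d1 u x) (e m), 0, 0)) := by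
  have h1 := (J2_d1 hu (e a)).prodMk ((J2_u (hu.of_le (by norm_num)) (e a)).prodMk
    (J2.line x (e a)))
  have h2 := J2.comp hψ h1
  have hw0 : 0 < Wp (d1 u x) := Wp_pos hp
  have hq : d2 u x (e a) = (κ a / Wp (d1 u x)) • gfl (d1 u x) (e a) := hd.r_eq hp a
  have hr : d2 u x (e a) (e a) = κ a / Wp (d1 u x) := by
    have h3 := hd.2 a a
    rw [if_pos rfl] at h3
    rw [eq_div_iff hw0.ne', mul_comm, h3]
  refine h2.of_eq rfl ?_ ?_
  · have h3 : ((d2 u x (e a), d1 u x (e a), e a) : B1 n × ℝ × E n)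
        = (0, d1 u x (e a), e a) + (κ a / Wp (d1 u x)) • (gfl (d1 u x) (e a), 0, 0) := by
      rw [hq]
      simp
    rw [h3, map_add, map_smul, smul_eq_mul]
  · have h4 := hd.1.covec (d3 u x (e a) (e a))
    have h3 : ((d3 u x (e a) (e a), d2 u x (e a) (e a), 0) : B1 n × ℝ × E n)
        = (κ a / Wp (d1 u x)) • (0, 1, 0)
          + ∑ m, V3 u x e a a m • ((gfl (d1 u x) (e m), 0, 0) : B1 n × ℝ × E n) := by
      rw [hr]
      refine Prod.ext ?_ (Prod.ext ?_ ?_)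
      · simp only [Prod.fst_add, Prod.fst_sum, Prod.smul_mk, smul_zero, zero_add]
        exact h4
      · simp [Prod.snd_sum]
      · simp [Prod.snd_sum]
    rw [h3, hq, map_add, map_smul, map_sum, smul_eq_mul, add_assoc]
    simp only [map_smul, smul_eq_mul]


end Pool.Agent.Mink.C
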