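import Pool.Agent.Lib.MP_88c759_an.Mink.CE1
import Pool.Agent.Lib.MP_88c759_an.Mink.CJ

set_option maxSynthPendingDepth 3

namespace Pool.Agent.Mink.C

open scoped ContDiff Topology RealInnerProductSpace
open Set Filter

variable {ι : Type} [DecidableEq ι] [Fintype ι]

theorem CX1_of_lt {j : ℕ} (h : Fintype.card ι < j) (M : Matrix ι ι ℝ) : sM j M = 0 := by
  unfold sM
  rw [Finset.powersetCard_eq_empty.2 (by simpa using h), Finset.sum_empty]

theorem CX1_coeff {j : ℕ} (h : j ≤ Fintype.card ι) (M : Matrix ι ι ℝ) :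
    M.charpoly.coeff (Fintype.card ι - j) = (-1) ^ j * sM j M :=
  Matrix.charpoly_coeff_eq_sum_minors M j h

theorem CX1_det_add {R : Type} [CommRing R] (d : ι → R) (Y : Matrix ι ι R) :
    (Matrix.diagonal d + Y).det = ∑ S : Finset ι, (∏ i ∈ Sᶜ, d i) *
      (Y.submatrix (Subtype.val : S → ι) (Subtype.val : S → ι)).det := by
  let D := (Matrix.detRowAlternating : (ι → R) [⋀^ι]→ₗ[R] R)
  have h1 : (Matrix.diagonal d + Y).det
      = D ((fun i => Y i) + fun i => Matrix.diagonal d i) := by
    rw [add_comm]; rfl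
  rw [h1, D.map_add_univ]
  refine Finset.sum_congr rfl fun S _ => ?_
  have h2 : S.piecewise (fun i => Y i) (fun i => Matrix.diagonal d i)
      = fun i => (if i ∈ S then (1 : R) else d i) •
          S.piecewise (fun i => Y i) (fun i => (1 : Matrix ι ι R) i) i := by
    funext i j
    by_cases hi : i ∈ S
    · simp [Finset.piecewise, hi]
    · simp [Finset.piecewise, hi, Matrix.diagonal_apply, Matrix.one_apply]
  rw [h2, D.map_smul_univ, smul_eq_mul]
  congr 1
  · rw [Finset.prod_ite, Finset.prod_const_one, one_mul]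
    refine Finset.prod_congr ?_ fun _ _ => rfl
    ext i; simp
  · exact Matrix.det_piecewise_one_eq_submatrix_det Y S

omit [DecidableEq ι] [Fintype ι] in
theorem CX1_coeff_prod (s : Finset ι) (m : ℕ) (κ : ι → ℝ) :
    (∏ i ∈ s, (1 + Polynomial.X * Polynomial.C (κ i))).coeff m = es s m κ := by
  rw [Finset.prod_one_add, Polynomial.finsetSum_coeff]
  have h : ∀ t : Finset ι, (∏ i ∈ t, (Polynomial.X * Polynomial.C (κ i))).coeff m
      = if t.card = m then ∏ i ∈ t, κ i else 0 := by
    intro t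
    rw [Finset.prod_mul_distrib, Finset.prod_const, ← map_prod, mul_comm,
      Polynomial.C_mul_X_pow_eq_monomial, Polynomial.coeff_monomial]
  simp_rw [h]
  rw [← Finset.sum_filter, es, Finset.powersetCard_eq_filter]

theorem sM_zero (M : Matrix ι ι ℝ) : sM 0 M = 1 := by
  unfold sM
  rw [Finset.powersetCard_zero, Finset.sum_singleton]
  exact Matrix.det_isEmpty
theorem sM_diagonal (j : ℕ) (κ : ι → ℝ) : sM j (Matrix.diagonal κ) = es Finset.univ j κ := by
  unfold sM es
  refine Finset.sum_congr rfl fun T _ => ?_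
  rw [Matrix.submatrix_diagonal _ _ Subtype.val_injective, Matrix.det_diagonal]
  exact Finset.prod_coe_sort T κ
theorem sM_eq_of_charpoly {M N : Matrix ι ι ℝ} (h : M.charpoly = N.charpoly) (j : ℕ) :
    sM j M = sM j N := by
  rcases le_or_gt j (Fintype.card ι) with hj | hj
  · have h1 := CX1_coeff hj M
    rw [h, CX1_coeff hj N] at h1
    exact (mul_left_cancel₀ (pow_ne_zero _ (by norm_num)) h1).symm
  · rw [CX1_of_lt hj, CX1_of_lt hj]
theorem sM_conj {P Q : Matrix ι ι ℝ} (h : P * Q = 1) (M : Matrix ι ι ℝ) (j : ℕ) :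
    sM j (Q * M * P) = sM j M := by
  refine sM_eq_of_charpoly ?_ j
  rw [Matrix.charpoly_mul_comm, ← Matrix.mul_assoc, h, Matrix.one_mul]
theorem sM_of_charpoly_prod {M : Matrix ι ι ℝ} {κ : ι → ℝ}
    (h : M.charpoly = ∏ i, (Polynomial.X - Polynomial.C (κ i))) (j : ℕ) :
    sM j M = es Finset.univ j κ := by
  rw [← sM_diagonal]
  exact sM_eq_of_charpoly (by rw [h, Matrix.charpoly_diagonal]) j
theorem sM_of_charpoly_X_mul {ι' : Type} [DecidableEq ι'] [Fintype ι'] {M : Matrix ι ι ℝ}
    {κ : ι' → ℝ} (h : M.charpoly = Polynomial.X * ∏ i, (Polynomial.X - Polynomial.C (κ i)))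
    (j : ℕ) : sM j M = es Finset.univ j κ := by
  rw [← Matrix.charpoly_diagonal] at h
  have hc : Fintype.card ι = Fintype.card ι' + 1 := by
    have h1 := congrArg Polynomial.natDegree h
    rw [Matrix.charpoly_natDegree_eq_dim, Polynomial.natDegree_X_mul
      (Matrix.charpoly_monic _).ne_zero, Matrix.charpoly_natDegree_eq_dim] at h1
    exact h1
  rw [← sM_diagonal]
  rcases lt_trichotomy j (Fintype.card ι) with hj | hj | hj
  · have h1 := CX1_coeff hj.le M
    have h2 : Fintype.card ι - j = (Fintype.card ι' - j) + 1 := by omega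
    rw [h, h2, Polynomial.coeff_X_mul, CX1_coeff (by omega)] at h1
    exact (mul_left_cancel₀ (pow_ne_zero _ (by norm_num)) h1).symm
  · have h1 := CX1_coeff hj.le M
    have h2 : Fintype.card ι - j = 0 := by omega
    rw [h, h2, Polynomial.coeff_X_mul_zero] at h1
    rw [CX1_of_lt (ι := ι') (by omega)]
    exact (mul_eq_zero.1 h1.symm).resolve_left (pow_ne_zero _ (by norm_num))
  · rw [CX1_of_lt hj, CX1_of_lt (ι := ι') (by omega)]
theorem contDiff_sM (j : ℕ) : ContDiff ℝ ∞ fun M : ι → ι → ℝ => sM j (Matrix.of M) := by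
  unfold sM
  refine ContDiff.sum fun T _ => ?_
  simp only [Matrix.det_apply', Matrix.submatrix_apply, Matrix.of_apply]
  refine ContDiff.sum fun σ _ => contDiff_const.mul (contDiff_prod fun i _ => ?_)
  exact contDiff_apply_apply ℝ ℝ _ _
theorem abs_sM_le (j : ℕ) {M : Matrix ι ι ℝ} {L : ℝ} (hL : 0 ≤ L) (h : ∀ a b, |M a b| ≤ L) :
    |sM j M| ≤ 2 ^ Fintype.card ι * (Nat.factorial j : ℝ) * L ^ j := by
  unfold sM
  refine (Finset.abs_sum_le_sum_abs _ _).trans ?_
  have h1 : ∀ T ∈ (Finset.univ : Finset ι).powersetCard j,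
      |(M.submatrix (Subtype.val : T → ι) (Subtype.val : T → ι)).det|
        ≤ (Nat.factorial j : ℝ) * L ^ j := by
    intro T hT
    have h2 := Matrix.det_le (A := M.submatrix (Subtype.val : T → ι) (Subtype.val : T → ι))
      (abv := AbsoluteValue.abs) (x := L) fun a b => h _ _
    rw [Fintype.card_coe, (Finset.mem_powersetCard.1 hT).2, nsmul_eq_mul] at h2
    exact h2
  refine (Finset.sum_le_card_nsmul _ _ _ h1).trans ?_
  rw [nsmul_eq_mul, mul_assoc]
  refine mul_le_mul_of_nonneg_right ?_ (by positivity)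
  rw [Finset.card_powersetCard, Finset.card_univ]
  exact_mod_cast Nat.choose_le_two_pow _ _
/-- expansion at a diagonal matrix -/
theorem sM_diagonal_add (j : ℕ) (κ : ι → ℝ) (X : Matrix ι ι ℝ) :
    sM j (Matrix.diagonal κ + X) = ∑ S ∈ Finset.univ.filter (fun S : Finset ι => S.card ≤ j),
      es Sᶜ (j - S.card) κ * (X.submatrix (Subtype.val : S → ι) (Subtype.val : S → ι)).det := by
  unfold sM
  rw [← Matrix.coeff_det_one_add_X_smul_eq_sum_minors]
  have h1 : (1 + (Polynomial.X : Polynomial ℝ) • (Matrix.diagonal κ + X).map Polynomial.C)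
      = Matrix.diagonal (fun i => 1 + Polynomial.X * Polynomial.C (κ i))
        + (Polynomial.X : Polynomial ℝ) • X.map Polynomial.C := by
    ext a b : 2
    by_cases hab : a = b
    · subst hab
      simp [mul_add, add_assoc]
    · simp [hab]
  rw [h1, CX1_det_add, Polynomial.finsetSum_coeff, Finset.sum_filter]
  refine Finset.sum_congr rfl fun S _ => ?_
  have h2 : (((Polynomial.X : Polynomial ℝ) • X.map Polynomial.C).submatrix
      (Subtype.val : S → ι) (Subtype.val : S → ι)).det = Polynomial.X ^ S.card *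
        Polynomial.C (X.submatrix (Subtype.val : S → ι) (Subtype.val : S → ι)).det := by
    rw [RingHom.map_det, ← Fintype.card_coe S, ← Matrix.det_smul]
    rfl
  rw [h2, ← mul_assoc, Polynomial.coeff_mul_C, Polynomial.coeff_mul_X_pow']
  split_ifs with hS
  · rw [CX1_coeff_prod]
  · rw [zero_mul]

end Pool.Agent.Mink.C
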