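import Mathlib

/-! Coefficients for the Seeley extension. -/

namespace Pool.Agent.Mink.S

open Filter Topology Finset

/-- weights `a`, dilations `b ≥ 1`, with all moments equal to one -/
structure Coef {ι : Type} (a b : ι → ℝ) : Prop where
  one : ∀ i, 1 ≤ b i
  summ : ∀ j : ℕ, Summable fun i => |a i| * b i ^ j
  tot : ∀ j : ℕ, ∑' i, a i * (-b i) ^ j = 1

theorem exists_nu (n : ℕ) : ∃ ν : Fin (n + 1) → ℝ, ∀ j : Fin (n + 1),
    ∑ k, ν k * (-((k : ℝ) + 1)) ^ (j : ℕ) = if j = Fin.last n then 1 else 0 := by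
  set x : Fin (n + 1) → ℝ := fun k => -((k : ℝ) + 1) with hx
  have hinj : Function.Injective x := fun k l h => by
    simp only [hx, neg_inj, add_left_inj, Nat.cast_inj] at h
    exact Fin.ext h
  have hdet : IsUnit (Matrix.vandermonde x).det :=
    (Matrix.det_vandermonde_ne_zero_iff.2 hinj).isUnit
  refine ⟨Matrix.vecMul (Pi.single (Fin.last n) 1) (Matrix.vandermonde x)⁻¹, fun j => ?_⟩
  have h := congrFun (Matrix.vecMul_vecMul (Pi.single (Fin.last n) (1:ℝ))
    (Matrix.vandermonde x)⁻¹ (Matrix.vandermonde x)) j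
  rw [Matrix.nonsing_inv_mul _ hdet, Matrix.vecMul_one, Pi.single_apply] at h
  rw [← h]
  rfl

theorem exists_block (n : ℕ) (d : ℝ) : ∃ a b : Fin (n + 1) → ℝ, (∀ k, 1 ≤ b k) ∧
    (∀ j < n, ∑ k, a k * (-b k) ^ j = 0) ∧ ∑ k, a k * (-b k) ^ n = d ∧
    ∀ j < n, ∑ k, |a k| * b k ^ j ≤ (1 / 2) ^ n := by
  obtain ⟨ν, hν⟩ := exists_nu n
  set C : ℝ := ∑ k, |d * ν k| * ((k : ℝ) + 1) ^ n with hC
  have hC0 : 0 ≤ C := Finset.sum_nonneg fun k _ => by positivity
  set l : ℝ := 1 + C * 2 ^ n with hl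
  have hl1 : 1 ≤ l := by rw [hl]; nlinarith [mul_nonneg hC0 (by positivity : (0:ℝ) ≤ 2 ^ n)]
  have hl0 : 0 < l := by linarith
  have hk : ∀ k : Fin (n + 1), (1:ℝ) ≤ (k : ℝ) + 1 := fun k => by
    have := (Nat.cast_nonneg (k : ℕ) : (0:ℝ) ≤ k)
    linarith
  have hm : ∀ j : ℕ, ∑ k, d * ν k / l ^ n * (-(l * ((k : ℝ) + 1))) ^ j =
      d * l ^ j / l ^ n * ∑ k : Fin (n + 1), ν k * (-((k : ℝ) + 1)) ^ j := fun j => by
    rw [Finset.mul_sum]
    refine Finset.sum_congr rfl fun k _ => ?_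
    rw [← mul_neg, mul_pow]
    ring
  refine ⟨fun k => d * ν k / l ^ n, fun k => l * ((k : ℝ) + 1),
    fun k => one_le_mul_of_one_le_of_one_le hl1 (hk k), fun j hj => ?_, ?_, fun j hj => ?_⟩
  · have := hν ⟨j, by omega⟩
    rw [if_neg (fun h => by simp [Fin.ext_iff] at h; omega)] at this
    rw [hm, this, mul_zero]
  · have := hν (Fin.last n)
    rw [if_pos rfl, Fin.val_last] at this
    rw [hm, this]
    field_simp
  · have h1 : ∀ k : Fin (n + 1), |d * ν k / l ^ n| * (l * ((k : ℝ) + 1)) ^ j ≤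
        |d * ν k| * ((k : ℝ) + 1) ^ n / l := fun k => by
      rw [abs_div, abs_of_pos (pow_pos hl0 n), mul_pow, div_mul_eq_mul_div,
        div_le_div_iff₀ (pow_pos hl0 n) hl0]
      have h2 : l ^ j * l ≤ l ^ n := by
        rw [← pow_succ]; exact pow_le_pow_right₀ hl1 hj
      have h3 : ((k : ℝ) + 1) ^ j ≤ ((k : ℝ) + 1) ^ n := pow_le_pow_right₀ (hk k) hj.le
      calc |d * ν k| * (l ^ j * ((k : ℝ) + 1) ^ j) * l
          = |d * ν k| * (((k : ℝ) + 1) ^ j * (l ^ j * l)) := by ring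
        _ ≤ |d * ν k| * (((k : ℝ) + 1) ^ n * l ^ n) := by gcongr
        _ = _ := by ring
    refine (Finset.sum_le_sum fun k _ => h1 k).trans ?_
    rw [← Finset.sum_div, ← hC, div_le_iff₀ hl0, hl, one_div, inv_pow]
    have : (0:ℝ) < 2 ^ n := by positivity
    field_simp
    linarith

theorem exists_coef : ∃ a b : (Σ n : ℕ, Fin (n + 1)) → ℝ, Coef a b := by
  choose A B h1 h2 h3 h4 using exists_block
  let s : ℕ → ℕ → ℝ := fun n => Nat.rec (fun _ => 0)
    (fun n s j => s j + ∑ k, A n (1 - s n) k * (-B n (1 - s n) k) ^ j) n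
  have hs : ∀ n j, s n j = ∑ i ∈ range n, ∑ k, A i (1 - s i i) k * (-B i (1 - s i i) k) ^ j := by
    intro n j
    induction n with
    | zero => rfl
    | succ n ih => rw [Finset.sum_range_succ, ← ih]
  have hsum : ∀ j : ℕ, Summable fun i : (Σ n : ℕ, Fin (n + 1)) =>
      |A i.1 (1 - s i.1 i.1) i.2| * B i.1 (1 - s i.1 i.1) i.2 ^ j := fun j => by
    have hnn : ∀ n k, 0 ≤ |A n (1 - s n n) k| * B n (1 - s n n) k ^ j := fun n k =>
      mul_nonneg (abs_nonneg _) (pow_nonneg (zero_le_one.trans (h1 _ _ _)) _)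
    rw [summable_sigma_of_nonneg fun i : (Σ n : ℕ, Fin (n + 1)) => hnn i.1 i.2]
    refine ⟨fun n => (hasSum_fintype _).summable, ?_⟩
    refine Summable.of_norm_bounded_eventually_nat summable_geometric_two ?_
    filter_upwards [eventually_gt_atTop j] with n hn
    rw [tsum_fintype, Real.norm_of_nonneg (Finset.sum_nonneg fun k _ => hnn n k)]
    exact h4 n _ j hn
  refine ⟨fun i => A i.1 (1 - s i.1 i.1) i.2, fun i => B i.1 (1 - s i.1 i.1) i.2,
    fun i => h1 _ _ _, hsum, fun j => ?_⟩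
  have hs2 : Summable fun i : (Σ n : ℕ, Fin (n + 1)) =>
      A i.1 (1 - s i.1 i.1) i.2 * (-B i.1 (1 - s i.1 i.1) i.2) ^ j := by
    refine Summable.of_norm_bounded (hsum j) fun i => ?_
    rw [Real.norm_eq_abs, abs_mul, abs_pow, abs_neg, abs_of_nonneg (zero_le_one.trans (h1 _ _ _))]
  rw [hs2.tsum_sigma' fun n => (hasSum_fintype _).summable,
    tsum_eq_sum (s := range (j + 1)) fun n hn => by
      rw [tsum_fintype]; exact h2 n (1 - s n n) j (by simpa using hn)]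
  simp only [tsum_fintype]
  rw [Finset.sum_range_succ, ← hs, h3]
  ring

end Pool.Agent.Mink.S
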