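import Pool.Agent.Lib.MP_88c759_an.Mink.SCoef

/-! The Seeley extension across a hyperplane. -/

namespace Pool.Agent.Mink.S

open scoped ContDiff Topology
open Set Filter

variable {ι : Type} {a b : ι → ℝ} {V : Type} [NormedAddCommGroup V] [NormedSpace ℝ V]

/-- dilation of the first coordinate -/
noncomputable def rf (V : Type) [NormedAddCommGroup V] [NormedSpace ℝ V] (c : ℝ) :
    ℝ × V →L[ℝ] ℝ × V :=
  (c • ContinuousLinearMap.fst ℝ ℝ V).prod (ContinuousLinearMap.snd ℝ ℝ V)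

/-- projection on the first factor -/
noncomputable def pa (V : Type) [NormedAddCommGroup V] [NormedSpace ℝ V] : ℝ × V →L[ℝ] ℝ × V :=
  (ContinuousLinearMap.inl ℝ ℝ V).comp (ContinuousLinearMap.fst ℝ ℝ V)

/-- projection on the second factor -/
noncomputable def pb (V : Type) [NormedAddCommGroup V] [NormedSpace ℝ V] : ℝ × V →L[ℝ] ℝ × V :=
  (ContinuousLinearMap.inr ℝ ℝ V).comp (ContinuousLinearMap.snd ℝ ℝ V)

lemma rf_apply (c : ℝ) (q : ℝ × V) : rf V c q = (c * q.1, q.2) := rfl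

lemma rf_eq (c : ℝ) : rf V c = c • pa V + pb V := by
  ext <;> simp [rf, pa, pb]

lemma pa_add_pb : pa V + pb V = ContinuousLinearMap.id ℝ (ℝ × V) := by
  ext <;> simp [pa, pb]

/-- compact convex set with interior -/
structure Body (S : Set V) : Prop where
  cpt : IsCompact S
  conv : Convex ℝ S
  int : (interior S).Nonempty

lemma Body.ud {S : Set V} (h : Body S) {I : Set ℝ} (hI : UniqueDiffOn ℝ I) :
    UniqueDiffOn ℝ (I ×ˢ S) := hI.prod (uniqueDiffOn_convex h.conv h.int)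

section W

variable {W : Type} [NormedAddCommGroup W] [NormedSpace ℝ W]

/-- the reflected series -/
noncomputable def T (a b : ι → ℝ) (j : ℕ) (g : ℝ × V → W) (q : ℝ × V) : W :=
  ∑' i, (a i * (-b i) ^ j) • g (rf V (-b i) q)

/-- the extension -/
noncomputable def Ex (a b : ι → ℝ) (j : ℕ) (g : ℝ × V → W) (q : ℝ × V) : W :=
  if 0 ≤ q.1 then g q else T a b j g q

/-- smooth on the half cylinder and zero far out -/
def Good (S : Set V) (g : ℝ × V → W) : Prop :=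
  ContDiffOn ℝ ∞ g (Ici 0 ×ˢ S) ∧ ∃ T₀ : ℝ, ∀ q ∈ Ici (0:ℝ) ×ˢ S, T₀ ≤ q.1 → g q = 0

variable {S : Set V} {g : ℝ × V → W}

lemma Good.bdd (hS : Body S) (hg : Good S g) : ∃ C, ∀ q ∈ Ici (0:ℝ) ×ˢ S, ‖g q‖ ≤ C := by
  obtain ⟨T₀, hT⟩ := hg.2
  obtain ⟨C, hC⟩ := (isCompact_Icc.prod hS.cpt).exists_bound_of_continuousOn
    (hg.1.continuousOn.mono (prod_mono (Icc_subset_Ici_self : Icc (0:ℝ) T₀ ⊆ Ici 0) Subset.rfl))
  refine ⟨max C 0, fun q hq => ?_⟩
  rcases le_total q.1 T₀ with h | h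
  · exact (hC q ⟨⟨hq.1, h⟩, hq.2⟩).trans (le_max_left _ _)
  · rw [hT q hq h, norm_zero]; exact le_max_right _ _

lemma Good.der (hS : Body S) (hg : Good S g) (P : ℝ × V →L[ℝ] ℝ × V) :
    Good S fun q => (fderivWithin ℝ g (Ici 0 ×ˢ S) q).comp P := by
  obtain ⟨T₀, hT⟩ := hg.2
  refine ⟨(hg.1.fderivWithin (hS.ud (uniqueDiffOn_Ici 0)) (by simp)).clm_comp contDiffOn_const,
    T₀ + 1, fun q hq h => ?_⟩
  have h1 : g =ᶠ[𝓝[Ici 0 ×ˢ S] q] fun _ => 0 := by
    have h2 : ∀ᶠ y : ℝ × V in 𝓝 q, T₀ < y.1 :=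
      continuousAt_const.eventually_lt continuous_fst.continuousAt (by linarith)
    filter_upwards [self_mem_nhdsWithin, nhdsWithin_le_nhds h2] with y h3 h4 using hT y h3 h4.le
  simp only
  rw [h1.fderivWithin_eq (hT q hq (by linarith))]
  simp

lemma Coef.maps (h : Coef a b) (i : ι) {q : ℝ × V} (hq : q ∈ Iic (0:ℝ) ×ˢ S) :
    rf V (-b i) q ∈ Ici (0:ℝ) ×ˢ S :=
  ⟨mul_nonneg_of_nonpos_of_nonpos (a := -b i) (b := q.1) (by linarith [h.one i]) hq.1, hq.2⟩

lemma Coef.norm_le (h : Coef a b) (j : ℕ) (i : ι) {w : W} {C : ℝ} (hw : ‖w‖ ≤ C) :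
    ‖(a i * (-b i) ^ j) • w‖ ≤ |a i| * b i ^ j * C := by
  have hb : 0 ≤ b i := zero_le_one.trans (h.one i)
  rw [norm_smul, Real.norm_eq_abs, abs_mul, abs_pow, abs_neg, abs_of_nonneg hb]
  exact mul_le_mul_of_nonneg_left hw (by positivity)

variable [CompleteSpace W]

lemma T_summable (h : Coef a b) (hS : Body S) (hg : Good S g) (j : ℕ) {q : ℝ × V}
    (hq : q ∈ Iic (0:ℝ) ×ˢ S) : Summable fun i => (a i * (-b i) ^ j) • g (rf V (-b i) q) := by
  obtain ⟨C, hC⟩ := hg.bdd hS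
  exact Summable.of_norm_bounded ((h.summ j).mul_right C) fun i => h.norm_le j i (hC _ (h.maps i hq))

lemma T_cont (h : Coef a b) (hS : Body S) (hg : Good S g) (j : ℕ) :
    ContinuousOn (T a b j g) (Iic 0 ×ˢ S) := by
  obtain ⟨C, hC⟩ := hg.bdd hS
  exact continuousOn_tsum (fun i => (hg.1.continuousOn.comp (rf V (-b i)).continuous.continuousOn
    fun _ hq => h.maps i hq).const_smul _) ((h.summ j).mul_right C)
    fun i q hq => h.norm_le j i (hC _ (h.maps i hq))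

omit [CompleteSpace W] in
lemma Ex_neg (h : Coef a b) (j : ℕ) {q : ℝ × V} (hq : q.1 ≤ 0) : Ex a b j g q = T a b j g q := by
  rw [Ex]
  split_ifs with h0
  · have h1 : q.1 = 0 := le_antisymm hq h0
    have h2 : ∀ i, rf V (-b i) q = q := fun i => by rw [rf_apply, h1, mul_zero, ← h1]
    have h3 : Summable fun i => a i * (-b i) ^ j :=
      Summable.of_norm_bounded ((h.summ j).mul_right 1) fun i => by
        simpa using h.norm_le j i (w := (1:ℝ)) (C := 1) (by simp)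
    simp only [T, h2]
    rw [h3.tsum_smul_const, h.tot, one_smul]
  · rfl

omit [CompleteSpace W] in
lemma Ex_pos (j : ℕ) {q : ℝ × V} (hq : 0 ≤ q.1) : Ex a b j g q = g q := if_pos hq

omit [NormedAddCommGroup V] [NormedSpace ℝ V] in
lemma univ_prod_eq : (univ : Set ℝ) ×ˢ S = Iic 0 ×ˢ S ∪ Ici 0 ×ˢ S := by
  rw [← union_prod, Iic_union_Ici]

lemma Ex_cont (h : Coef a b) (hS : Body S) (hg : Good S g) (j : ℕ) :
    ContinuousOn (Ex a b j g) (univ ×ˢ S) := by
  rw [univ_prod_eq]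
  exact ContinuousOn.union_of_isClosed ((T_cont h hS hg j).congr fun q hq => Ex_neg h j hq.1)
    (hg.1.continuousOn.congr fun q hq => Ex_pos j hq.1) (isClosed_Iic.prod hS.cpt.isClosed)
    (isClosed_Ici.prod hS.cpt.isClosed)

lemma T_hasFDerivAt (h : Coef a b) (hS : Body S) (hg : Good S g) (j : ℕ) {q : ℝ × V}
    (hq : q ∈ Iio (0:ℝ) ×ˢ interior S) :
    HasFDerivAt (T a b j g)
      (T a b (j + 1) (fun y => (fderivWithin ℝ g (Ici 0 ×ˢ S) y).comp (pa V)) q +
        T a b j (fun y => (fderivWithin ℝ g (Ici 0 ×ˢ S) y).comp (pb V)) q) q := by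
  have hsub : Iio (0:ℝ) ×ˢ interior S ⊆ Iic 0 ×ˢ S := prod_mono Iio_subset_Iic_self interior_subset
  have g1 := hg.der hS (pa V)
  have g2 := hg.der hS (pb V)
  obtain ⟨C1, hC1⟩ := g1.bdd hS
  obtain ⟨C2, hC2⟩ := g2.bdd hS
  rw [T, T, ← (T_summable h hS g1 (j + 1) (hsub hq)).tsum_add (T_summable h hS g2 j (hsub hq))]
  refine hasFDerivAt_tsum_of_isPreconnected
    (f' := fun i y => (a i * (-b i) ^ (j + 1)) •
      (fderivWithin ℝ g (Ici 0 ×ˢ S) (rf V (-b i) y)).comp (pa V) +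
      (a i * (-b i) ^ j) • (fderivWithin ℝ g (Ici 0 ×ˢ S) (rf V (-b i) y)).comp (pb V))
    (((h.summ (j + 1)).mul_right C1).add ((h.summ j).mul_right C2))
    (isOpen_Iio.prod isOpen_interior) ((convex_Iio 0).prod hS.conv.interior).isPreconnected
    (fun i y hy => ?_) (fun i y hy => ?_) hq (T_summable h hS hg j (hsub hq)) hq
  · have hm : Ici (0:ℝ) ×ˢ S ∈ 𝓝 (rf V (-b i) y) :=
      prod_mem_nhds (Ici_mem_nhds (mul_pos_of_neg_of_neg (by linarith [h.one i]) hy.1))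
        (mem_interior_iff_mem_nhds.1 hy.2)
    have h1 := ((hg.1.differentiableOn (by simp) _ (h.maps i (hsub hy))).hasFDerivWithinAt
      |>.hasFDerivAt hm).comp y (rf V (-b i)).hasFDerivAt
    refine (h1.const_smul (a i * (-b i) ^ j)).congr_fderiv ?_
    generalize fderivWithin ℝ g (Ici 0 ×ˢ S) (rf V (-b i) y) = D
    rw [rf_eq, ContinuousLinearMap.comp_add, ContinuousLinearMap.comp_smul, smul_add, smul_smul,
      pow_succ, mul_assoc]
  · exact (norm_add_le _ _).trans (add_le_add (h.norm_le _ i (hC1 _ (h.maps i (hsub hy))))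
      (h.norm_le _ i (hC2 _ (h.maps i (hsub hy)))))

lemma T_hasFDerivWithinAt (h : Coef a b) (hS : Body S) (hg : Good S g) (j : ℕ) {q : ℝ × V}
    (hq : q ∈ Iic (0:ℝ) ×ˢ S) :
    HasFDerivWithinAt (T a b j g)
      (T a b (j + 1) (fun y => (fderivWithin ℝ g (Ici 0 ×ˢ S) y).comp (pa V)) q +
        T a b j (fun y => (fderivWithin ℝ g (Ici 0 ×ˢ S) y).comp (pb V)) q) (Iic 0 ×ˢ S) q := by
  have hsub : Iio (0:ℝ) ×ˢ interior S ⊆ Iic 0 ×ˢ S := prod_mono Iio_subset_Iic_self interior_subset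
  have hcl : closure (Iio (0:ℝ) ×ˢ interior S) = Iic 0 ×ˢ S := by
    rw [closure_prod_eq, closure_Iio,
      hS.conv.closure_interior_eq_closure_of_nonempty_interior hS.int, hS.cpt.isClosed.closure_eq]
  rw [← hcl]
  refine hasFDerivWithinAt_closure_of_tendsto_fderiv
    (fun y hy => (T_hasFDerivAt h hS hg j hy).differentiableAt.differentiableWithinAt)
    ((convex_Iio 0).prod hS.conv.interior) (isOpen_Iio.prod isOpen_interior)
    (fun y hy => (T_cont h hS hg j y (hcl ▸ hy)).mono hsub) ?_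
  have hc := (((T_cont h hS (hg.der hS (pa V)) (j + 1)).add
    (T_cont h hS (hg.der hS (pb V)) j)) q hq).mono hsub
  refine hc.tendsto.congr' ?_
  filter_upwards [self_mem_nhdsWithin] with y hy using (T_hasFDerivAt h hS hg j hy).fderiv.symm

lemma Ex_hasFDerivWithinAt (h : Coef a b) (hS : Body S) (hg : Good S g) (j : ℕ) {q : ℝ × V}
    (hq : q ∈ (univ : Set ℝ) ×ˢ S) :
    HasFDerivWithinAt (Ex a b j g)
      (Ex a b (j + 1) (fun y => (fderivWithin ℝ g (Ici 0 ×ˢ S) y).comp (pa V)) q +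
        Ex a b j (fun y => (fderivWithin ℝ g (Ici 0 ×ˢ S) y).comp (pb V)) q) (univ ×ˢ S) q := by
  rw [univ_prod_eq]
  refine HasFDerivWithinAt.union ?_ ?_
  · by_cases h0 : q.1 ≤ 0
    · rw [Ex_neg h _ h0, Ex_neg h _ h0]
      exact (T_hasFDerivWithinAt h hS hg j ⟨h0, hq.2⟩).congr (fun y hy => Ex_neg h j hy.1)
        (Ex_neg h j h0)
    · refine HasFDerivWithinAt.of_notMem_closure fun hc => h0 ?_
      rw [(isClosed_Iic.prod hS.cpt.isClosed).closure_eq] at hc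
      exact hc.1
  · by_cases h0 : 0 ≤ q.1
    · rw [Ex_pos _ h0, Ex_pos _ h0, ← ContinuousLinearMap.comp_add, pa_add_pb,
        ContinuousLinearMap.comp_id]
      exact (hg.1.differentiableOn (by simp) q ⟨h0, hq.2⟩).hasFDerivWithinAt.congr
        (fun y hy => Ex_pos j hy.1) (Ex_pos j h0)
    · refine HasFDerivWithinAt.of_notMem_closure fun hc => h0 ?_
      rw [(isClosed_Ici.prod hS.cpt.isClosed).closure_eq] at hc
      exact hc.1

end W

theorem Ex_contDiffOn_nat (h : Coef a b) {S : Set V} (hS : Body S) (m : ℕ) :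
    ∀ (W : Type) [NormedAddCommGroup W] [NormedSpace ℝ W] [CompleteSpace W] (g : ℝ × V → W),
      Good S g → ∀ j, ContDiffOn ℝ m (Ex a b j g) (univ ×ˢ S) := by
  induction m with
  | zero => intro W _ _ _ g hg j; exact contDiffOn_zero.2 (Ex_cont h hS hg j)
  | succ m ih =>
    intro W _ _ _ g hg j
    rw [Nat.cast_succ,
      contDiffOn_succ_iff_hasFDerivWithinAt_of_uniqueDiffOn (hS.ud uniqueDiffOn_univ)]
    exact ⟨by simp, _, (ih _ _ (hg.der hS (pa V)) (j + 1)).add (ih _ _ (hg.der hS (pb V)) j),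
      fun q hq => Ex_hasFDerivWithinAt h hS hg j hq⟩

theorem Ex_contDiffOn (h : Coef a b) {S : Set V} (hS : Body S) {W : Type} [NormedAddCommGroup W]
    [NormedSpace ℝ W] [CompleteSpace W] {g : ℝ × V → W} (hg : Good S g) :
    ContDiffOn ℝ ∞ (Ex a b 0 g) (univ ×ˢ S) :=
  contDiffOn_infty.2 fun m => Ex_contDiffOn_nat h hS m W g hg 0

end Pool.Agent.Mink.S
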