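import Mathlib

/-!
Definitions used in the final statement (Dirichlet problem for spacelike graphs of prescribed
`k`-curvature in Minkowski space).  All derivatives of functions on `closure Ω` are taken within
`closure Ω`.
-/

namespace Pool.Agent.Mink.Q

open scoped ContDiff
open Set Polynomial

/-- Euclidean space `ℝ^n`. -/
abbrev Rn (n : ℕ) : Type := EuclideanSpace ℝ (Fin n)

/-- The elementary symmetric function `σ_j(κ)`. -/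
noncomputable def sigma {m : ℕ} (j : ℕ) (κ : Fin m → ℝ) : ℝ :=
  ∑ s ∈ Finset.univ.powersetCard j, ∏ i ∈ s, κ i

/-- `κ ∈ Γ_k`. -/
def InGamma {m : ℕ} (k : ℕ) (κ : Fin m → ℝ) : Prop :=
  ∀ j, 1 ≤ j → j ≤ k → 0 < sigma j κ

variable {n : ℕ}

/-- `ρ` is a smooth local defining function of `Ω` at `x₀`. -/
def IsDefining (Ω : Set (Rn n)) (x₀ : Rn n) (ρ : Rn n → ℝ) : Prop :=
  ∃ U : Set (Rn n), IsOpen U ∧ x₀ ∈ U ∧ ContDiffOn ℝ ∞ ρ U ∧ fderiv ℝ ρ x₀ ≠ 0 ∧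
    ∀ x ∈ U, (x ∈ Ω ↔ ρ x < 0)

/-- `Ω` is a bounded domain with smooth boundary. -/
def IsSmoothDomain (Ω : Set (Rn n)) : Prop :=
  IsOpen Ω ∧ IsConnected Ω ∧ Bornology.IsBounded Ω ∧
    ∀ x₀ ∈ frontier Ω, ∃ ρ, IsDefining Ω x₀ ρ

/-- `κ` lists the principal curvatures of `∂Ω` at `x₀` for the inner normal: the second
fundamental form `D²ρ / |Dρ|` on the tangent space `ker Dρ` is `diag κ` in an orthonormal basis. -/
def IsBdryCurv (Ω : Set (Rn n)) (x₀ : Rn n) (κ : Fin (n - 1) → ℝ) : Prop :=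
  ∃ ρ, IsDefining Ω x₀ ρ ∧ ∃ e : Fin (n - 1) → Rn n, Orthonormal ℝ e ∧
    (∀ i, fderiv ℝ ρ x₀ (e i) = 0) ∧
    ∀ i j, iteratedFDeriv ℝ 2 ρ x₀ ![e i, e j] / ‖fderiv ℝ ρ x₀‖ = if i = j then κ i else 0

/-- The gradient `Du`. -/
noncomputable def grad (Ω : Set (Rn n)) (u : Rn n → ℝ) (x : Rn n) : Rn n :=
  gradientWithin u (closure Ω) x

/-- The Hessian matrix `(u_ij)`. -/
noncomputable def hess (Ω : Set (Rn n)) (u : Rn n → ℝ) (x : Rn n) : Matrix (Fin n) (Fin n) ℝ :=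
  Matrix.of fun i j => iteratedFDerivWithin ℝ 2 u (closure Ω) x
    ![EuclideanSpace.single i 1, EuclideanSpace.single j 1]

/-- The induced metric `g_ij = δ_ij - u_i u_j`. -/
noncomputable def metric (Ω : Set (Rn n)) (u : Rn n → ℝ) (x : Rn n) : Matrix (Fin n) (Fin n) ℝ :=
  Matrix.of fun i j => (if i = j then 1 else 0) - grad Ω u x i * grad Ω u x j

/-- The second fundamental form `h_ij = u_ij / √(1 - |Du|²)`. -/
noncomputable def sff (Ω : Set (Rn n)) (u : Rn n → ℝ) (x : Rn n) : Matrix (Fin n) (Fin n) ℝ :=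
  Matrix.of fun i j => hess Ω u x i j / √(1 - ‖grad Ω u x‖ ^ 2)

/-- `κ` lists the principal curvatures of the graph at `x`: the eigenvalues of `g⁻¹ h` with
multiplicity. -/
def IsCurv (Ω : Set (Rn n)) (u : Rn n → ℝ) (x : Rn n) (κ : Fin n → ℝ) : Prop :=
  ((metric Ω u x)⁻¹ * sff Ω u x).charpoly = ∏ i, (X - C (κ i))

/-- `u ∈ C²(closure Ω)` and `sup |Du| < 1`. -/
def Spacelike (Ω : Set (Rn n)) (u : Rn n → ℝ) : Prop :=
  ContDiffOn ℝ 2 u (closure Ω) ∧ ∃ θ < 1, ∀ x ∈ closure Ω, ‖grad Ω u x‖ ≤ θ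

/-- A `k`-admissible subsolution (admissibility is only asked in `Ω`). -/
def IsSub (k : ℕ) (Ω : Set (Rn n)) (ψ : Rn n × ℝ × Rn n → ℝ) (φ u : Rn n → ℝ) : Prop :=
  Spacelike Ω u ∧
    (∀ x ∈ Ω, ∃ κ, IsCurv Ω u x κ ∧ InGamma k κ ∧ ψ (x, u x, grad Ω u x) ≤ sigma k κ) ∧
    ∀ x ∈ frontier Ω, u x = φ x

/-- A `k`-admissible solution (admissibility is only asked in `Ω`). -/
def IsSol (k : ℕ) (Ω : Set (Rn n)) (ψ : Rn n × ℝ × Rn n → ℝ) (φ u : Rn n → ℝ) : Prop :=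
  Spacelike Ω u ∧
    (∀ x ∈ Ω, ∃ κ, IsCurv Ω u x κ ∧ InGamma k κ ∧ sigma k κ = ψ (x, u x, grad Ω u x)) ∧
    ∀ x ∈ frontier Ω, u x = φ x

/-- `u ∈ C^{3,α}(closure Ω)`. -/
def HolderC3 (Ω : Set (Rn n)) (α : ℝ) (u : Rn n → ℝ) : Prop :=
  ContDiffOn ℝ 3 u (closure Ω) ∧ ∃ C : ℝ, ∀ x ∈ closure Ω, ∀ y ∈ closure Ω,
    ‖iteratedFDerivWithin ℝ 3 u (closure Ω) x - iteratedFDerivWithin ℝ 3 u (closure Ω) y‖ ≤
      C * ‖x - y‖ ^ α

end Pool.Agent.Mink.Q
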