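import Pool.Agent.Lib.MP_88c759_an.Mink.TDefs

/-! Calculus of `D1`, `D2`, `D3`, `jet` within a set. -/

set_option maxSynthPendingDepth 3

namespace Pool.Agent.Mink.T

open scoped ContDiff Topology
open Set Filter

variable {n : ℕ} {S : Set (E n)} {u v : E n → ℝ} {x : E n}

theorem cd_D1 {m : ℕ} (hS : UniqueDiffOn ℝ S) (hu : ContDiffOn ℝ (m + 1 : ℕ) u S) :
    ContDiffOn ℝ m (D1 S u) S :=
  hu.fderivWithin hS (by push_cast; exact le_rfl)

theorem cd_D2 {m : ℕ} (hS : UniqueDiffOn ℝ S) (hu : ContDiffOn ℝ (m + 2 : ℕ) u S) :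
    ContDiffOn ℝ m (D2 S u) S :=
  (cd_D1 (m := m + 1) hS hu).fderivWithin hS (by push_cast; exact le_rfl)

theorem hasD1 (hu : ContDiffOn ℝ 2 u S) (hx : x ∈ S) :
    HasFDerivWithinAt u (D1 S u x) S x :=
  (hu.differentiableOn (by norm_num) x hx).hasFDerivWithinAt

theorem hasD2 (hS : UniqueDiffOn ℝ S) (hu : ContDiffOn ℝ 2 u S) (hx : x ∈ S) :
    HasFDerivWithinAt (D1 S u) (D2 S u x) S x :=
  ((cd_D1 (m := 1) hS hu).differentiableOn (by norm_num) x hx).hasFDerivWithinAt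

theorem hasD3 (hS : UniqueDiffOn ℝ S) (hu : ContDiffOn ℝ 3 u S) (hx : x ∈ S) :
    HasFDerivWithinAt (D2 S u) (D3 S u x) S x :=
  ((cd_D2 (m := 1) hS hu).differentiableOn (by norm_num) x hx).hasFDerivWithinAt

theorem cont_D1 (hS : UniqueDiffOn ℝ S) (hu : ContDiffOn ℝ 2 u S) : ContinuousOn (D1 S u) S :=
  (cd_D1 (m := 1) hS hu).continuousOn

theorem cont_D2 (hS : UniqueDiffOn ℝ S) (hu : ContDiffOn ℝ 2 u S) : ContinuousOn (D2 S u) S :=
  (cd_D2 (m := 0) hS hu).continuousOn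

theorem cont_D3 (hS : UniqueDiffOn ℝ S) (hu : ContDiffOn ℝ 3 u S) : ContinuousOn (D3 S u) S :=
  ((cd_D2 (m := 1) hS hu).fderivWithin (m := 0) hS (by norm_num)).continuousOn

theorem cont_jet (hS : UniqueDiffOn ℝ S) (hu : ContDiffOn ℝ 2 u S) :
    ContinuousOn (jet S u) S :=
  (cont_D2 hS hu).prodMk ((cont_D1 hS hu).prodMk (hu.continuousOn.prodMk continuousOn_id))

theorem sym_D2 (hS : UniqueDiffOn ℝ S) (hu : ContDiffOn ℝ 2 u S) (hx : x ∈ S)
    (hx' : x ∈ closure (interior S)) : Sym (D2 S u x) := fun a b =>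
  ((hu x hx).isSymmSndFDerivWithinAt (by simp) hS hx' hx).eq a b

theorem D1_int (hx : S ∈ 𝓝 x) : D1 S u x = fderiv ℝ u x := fderivWithin_of_mem_nhds hx

theorem D1_ev (hx : S ∈ 𝓝 x) : D1 S u =ᶠ[𝓝 x] fderiv ℝ u := by
  filter_upwards [eventually_mem_nhds_iff.2 hx] with y hy using D1_int hy

theorem D2_int (hx : S ∈ 𝓝 x) : D2 S u x = fderiv ℝ (fderiv ℝ u) x := by
  rw [D2, fderivWithin_of_mem_nhds hx, (D1_ev hx).fderiv_eq]

theorem D1_congr (h : EqOn u v S) (hx : x ∈ S) : D1 S u x = D1 S v x :=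
  fderivWithin_congr h (h hx)

theorem D2_congr (h : EqOn u v S) (hx : x ∈ S) : D2 S u x = D2 S v x :=
  fderivWithin_congr (fun _ hy => D1_congr h hy) (D1_congr h hx)

theorem D3_congr (h : EqOn u v S) (hx : x ∈ S) : D3 S u x = D3 S v x :=
  fderivWithin_congr (fun _ hy => D2_congr h hy) (D2_congr h hx)

theorem jet_congr (h : EqOn u v S) (hx : x ∈ S) : jet S u x = jet S v x := by
  simp only [jet, D1_congr h hx, D2_congr h hx, h hx]

theorem D1_at (hS : UniqueDiffOn ℝ S) (hx : x ∈ S) (hu : ContDiffAt ℝ 2 u x) :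
    D1 S u x = fderiv ℝ u x :=
  (hu.differentiableAt (by norm_num)).fderivWithin (hS x hx)

theorem D2_at (hS : UniqueDiffOn ℝ S) (hx : x ∈ S) (hu : ∀ y ∈ S, ContDiffAt ℝ 2 u y) :
    D2 S u x = fderiv ℝ (fderiv ℝ u) x := by
  have h1 : D2 S u x = fderivWithin ℝ (fderiv ℝ u) S x :=
    fderivWithin_congr (fun y hy => D1_at hS hy (hu y hy)) (D1_at hS hx (hu x hx))
  rw [h1]
  exact (((hu x hx).fderiv_right (m := 1) (by norm_num)).differentiableAt
    (by norm_num)).fderivWithin (hS x hx)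

theorem D1_glob (hS : UniqueDiffOn ℝ S) (hx : x ∈ S) (hu : ContDiff ℝ 2 u) :
    D1 S u x = fderiv ℝ u x := D1_at hS hx hu.contDiffAt

theorem D2_glob (hS : UniqueDiffOn ℝ S) (hx : x ∈ S) (hu : ContDiff ℝ 2 u) :
    D2 S u x = fderiv ℝ (fderiv ℝ u) x := D2_at hS hx fun _ _ => hu.contDiffAt

theorem cd_mix {m : WithTop ℕ∞} (t : ℝ) (hu : ContDiffOn ℝ m u S) (hv : ContDiffOn ℝ m v S) :
    ContDiffOn ℝ m (mix t u v) S :=
  (contDiffOn_const.mul hu).add (contDiffOn_const.mul hv)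

theorem D1_mix (hS : UniqueDiffOn ℝ S) (t : ℝ) (hu : ContDiffOn ℝ 2 u S) (hv : ContDiffOn ℝ 2 v S)
    (hx : x ∈ S) : D1 S (mix t u v) x = (1 - t) • D1 S u x + t • D1 S v x :=
  (((hasD1 hu hx).const_mul (1 - t)).add ((hasD1 hv hx).const_mul t)).fderivWithin (hS x hx)

theorem D2_mix (hS : UniqueDiffOn ℝ S) (t : ℝ) (hu : ContDiffOn ℝ 2 u S) (hv : ContDiffOn ℝ 2 v S)
    (hx : x ∈ S) : D2 S (mix t u v) x = (1 - t) • D2 S u x + t • D2 S v x := by
  have h1 : D2 S (mix t u v) x =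
      fderivWithin ℝ (fun y => (1 - t) • D1 S u y + t • D1 S v y) S x :=
    fderivWithin_congr (fun y hy => D1_mix hS t hu hv hy) (D1_mix hS t hu hv hx)
  rw [h1]
  exact (((hasD2 hS hu hx).const_smul (1 - t)).add
    ((hasD2 hS hv hx).const_smul t)).fderivWithin (hS x hx)

theorem jet_mix (hS : UniqueDiffOn ℝ S) (t : ℝ) (hu : ContDiffOn ℝ 2 u S)
    (hv : ContDiffOn ℝ 2 v S) (hx : x ∈ S) :
    jet S (mix t u v) x = (1 - t) • jet S u x + t • jet S v x := by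
  simp only [jet, D1_mix hS t hu hv hx, D2_mix hS t hu hv hx, Prod.smul_mk, Prod.mk_add_mk, mix,
    smul_eq_mul]
  congr 3
  rw [← add_smul]; simp

end Pool.Agent.Mink.T
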