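import Pool.Agent.Lib.MP_88c759_an.Mink.TMoll
import Pool.Agent.Lib.MP_88c759_an.Mink.TCalc

/-! Smooth approximation of jets on the closure of a convex domain. -/

set_option maxSynthPendingDepth 3

namespace Pool.Agent.Mink.T

open scoped ContDiff Topology
open Set Filter

variable {n : ℕ}

lemma tapx_has {V W : Type} [NormedAddCommGroup V] [NormedSpace ℝ V] [NormedAddCommGroup W]
    [NormedSpace ℝ W] {g : V → W} {g' : V →L[ℝ] W} {c y : V} {s : ℝ}
    (h : HasFDerivAt g g' (c + s • (y - c))) :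
    HasFDerivAt (fun y => g (c + s • (y - c))) (s • g') y := by
  have h1 : HasFDerivAt (fun y : V => c + s • (y - c)) (s • ContinuousLinearMap.id ℝ V) y :=
    (((hasFDerivAt_id y).sub_const c).const_smul s).const_add c
  have h2 := h.comp y h1
  rwa [ContinuousLinearMap.comp_smul, ContinuousLinearMap.comp_id] at h2

lemma tapx_combo (c y : E n) (s : ℝ) : c + s • (y - c) = s • y + (1 - s) • c := by
  module

lemma tapx_near {Ω : Set (E n)} (hΩ : Nice Ω) {u : E n → ℝ} (hu : ContDiffOn ℝ 2 u (closure Ω))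
    {c : E n} (hc : c ∈ Ω) {ε : ℝ} (hε : 0 < ε) : ∃ s ∈ Ioo (0 : ℝ) 1, ∀ y ∈ closure Ω,
      ‖((s • s • D2 (closure Ω) u (c + s • (y - c)), s • D1 (closure Ω) u (c + s • (y - c)),
        u (c + s • (y - c)), y) : Jet n) - jet (closure Ω) u y‖ < ε := by
  let G : ℝ × E n → Jet n := fun z =>
    (z.1 • z.1 • D2 (closure Ω) u (c + z.1 • (z.2 - c)),
      z.1 • D1 (closure Ω) u (c + z.1 • (z.2 - c)), u (c + z.1 • (z.2 - c)), z.2) -
      jet (closure Ω) u z.2
  have hT : ContinuousOn (fun z : ℝ × E n => c + z.1 • (z.2 - c)) (Icc 0 1 ×ˢ closure Ω) := by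
    fun_prop
  have hM : MapsTo (fun z : ℝ × E n => c + z.1 • (z.2 - c)) (Icc 0 1 ×ˢ closure Ω) (closure Ω) :=
    fun z hz => hΩ.convex_cl.add_smul_sub_mem (subset_closure hc) hz.2 hz.1
  have hG : ContinuousOn G (Icc 0 1 ×ˢ closure Ω) :=
    ((continuousOn_fst.smul (continuousOn_fst.smul ((cont_D2 hΩ.ud hu).comp hT hM))).prodMk
      ((continuousOn_fst.smul ((cont_D1 hΩ.ud hu).comp hT hM)).prodMk
        ((hu.continuousOn.comp hT hM).prodMk continuousOn_snd))).sub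
      ((cont_jet hΩ.ud hu).comp continuousOn_snd fun z hz => hz.2)
  have h1 : ∀ᶠ s in 𝓝 (1 : ℝ), ∀ y ∈ closure Ω,
      (s, y) ∈ Icc (0 : ℝ) 1 ×ˢ closure Ω → ‖G (s, y)‖ < ε := by
    refine hΩ.compact.eventually_forall_of_forall_eventually fun y hy => ?_
    have h2 := (hG (1, y) ⟨⟨zero_le_one, le_rfl⟩, hy⟩).norm
    have h3 : ‖G (1, y)‖ < ε := by simpa [G, jet] using hε
    exact eventually_nhdsWithin_iff.1 (h2.eventually (gt_mem_nhds h3))
  obtain ⟨s, hs, hs'⟩ := ((h1.filter_mono (nhdsWithin_le_nhds (s := Iio 1))).and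
    (Ioo_mem_nhdsLT zero_lt_one)).exists
  exact ⟨s, hs', fun y hy => hs y hy ⟨Ioo_subset_Icc_self hs', hy⟩⟩

/-- Fix `c ∈ Ω`, `T y = c + s • (y - c)` with `s < 1` close to `1`.  `T` maps `closure Ω` into `Ω`
(`Convex.combo_closure_interior_mem_interior`-type lemma), `O = T ⁻¹' Ω` is open, `f = u ∘ T` is
`C²` on `O` with `fderiv f y = s • D1 u (T y)`, `fderiv (fderiv f) y = s ^ 2 • D2 u (T y)` on `O`.
Uniform continuity and boundedness of `u`, `D1 u`, `D2 u` on the compact set `closure Ω` make these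
close to the jet of `u` at `y`.  Then `approx_on_compact`, `D1_glob`, `D2_glob`; the norm on `Jet n`
is the maximum of the norms (`Prod.norm_def`, `norm_prod_le_iff`). -/
theorem exists_smooth_approx {Ω : Set (E n)} (hΩ : Nice Ω) {u : E n → ℝ}
    (hu : ContDiffOn ℝ 2 u (closure Ω)) {ε : ℝ} (hε : 0 < ε) :
    ∃ v : E n → ℝ, ContDiff ℝ ∞ v ∧
      ∀ x ∈ closure Ω, ‖jet (closure Ω) v x - jet (closure Ω) u x‖ ≤ ε := by
  obtain ⟨c, hc⟩ := hΩ.ne
  obtain ⟨s, hs, hnear⟩ := tapx_near hΩ hu hc (half_pos hε)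
  have hT : ContDiff ℝ 2 fun y : E n => c + s • (y - c) := by fun_prop
  have hO : IsOpen {y | c + s • (y - c) ∈ Ω} := hΩ.op.preimage hT.continuous
  have hKO : closure Ω ⊆ {y | c + s • (y - c) ∈ Ω} := fun y hy => by
    have := hΩ.conv.combo_closure_interior_mem_interior hy (hΩ.op.interior_eq.symm ▸ hc)
      hs.1.le (sub_pos.2 hs.2) (add_sub_cancel _ _)
    rwa [hΩ.op.interior_eq, ← tapx_combo] at this
  have hf : ContDiffOn ℝ 2 (fun y => u (c + s • (y - c))) {y | c + s • (y - c) ∈ Ω} :=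
    hu.comp hT.contDiffOn fun y hy => subset_closure hy
  have d1 : ∀ y ∈ {y | c + s • (y - c) ∈ Ω}, fderiv ℝ (fun y => u (c + s • (y - c))) y =
      s • D1 (closure Ω) u (c + s • (y - c)) := fun y hy =>
    (tapx_has ((hasD1 hu (subset_closure hy)).hasFDerivAt (hΩ.nhds hy))).fderiv
  have d2 : ∀ y ∈ {y | c + s • (y - c) ∈ Ω},
      fderiv ℝ (fderiv ℝ fun y => u (c + s • (y - c))) y =
        s • s • D2 (closure Ω) u (c + s • (y - c)) := fun y hy => by
    rw [Filter.EventuallyEq.fderiv_eq (eventually_of_mem (hO.mem_nhds hy) d1)]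
    exact ((tapx_has ((hasD2 hΩ.ud hu (subset_closure hy)).hasFDerivAt
      (hΩ.nhds hy))).const_smul s).fderiv
  obtain ⟨v, hv, h⟩ := approx_on_compact hΩ.compact hO hKO hf (half_pos hε)
  refine ⟨v, hv, fun x hx => ?_⟩
  obtain ⟨h0, h1, h2⟩ := h x hx
  rw [d1 x (hKO hx)] at h1
  rw [d2 x (hKO hx)] at h2
  have hv2 : ContDiff ℝ 2 v := hv.of_le (by norm_cast)
  refine (norm_sub_le_norm_sub_add_norm_sub _ _ _).trans
    ((add_le_add ?_ (hnear x hx).le).trans (add_halves ε).le)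
  rw [jet, D1_glob hΩ.ud hx hv2, D2_glob hΩ.ud hx hv2]
  simp only [Prod.mk_sub_mk, norm_prod_le_iff, sub_self, norm_zero]
  exact ⟨h2, h1, h0, (half_pos hε).le⟩

end Pool.Agent.Mink.T
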