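import Pool.Agent.Lib.MP_88c759_an.Mink.TCalc

/-! Uniform bounds along the path. -/

set_option maxSynthPendingDepth 3

namespace Pool.Agent.Mink.T

open scoped ContDiff Topology
open Set Filter

variable {n : ℕ}

variable {k : ℕ} {Ω : Set (E n)} {V : Set (B1 n × ℝ × E n)} {χ : ℝ × B1 n × ℝ × E n → ℝ}

section aux

variable {Y : Type} [NormedAddCommGroup Y] [NormedSpace ℝ Y]

lemma tbnd_d1 {F : ℝ × Y → ℝ} {t : ℝ} {q : Y} (h : DifferentiableAt ℝ F (t, q)) :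
    fderiv ℝ (fun q' => F (t, q')) q =
      (fderiv ℝ F (t, q)).comp (ContinuousLinearMap.inr ℝ ℝ Y) :=
  (h.hasFDerivAt.comp q (hasFDerivAt_prodMk_right t q)).fderiv

lemma tbnd_slice {F : ℝ × Y → ℝ} {t : ℝ} {q : Y} (h : ContDiffAt ℝ 2 F (t, q)) :
    ContDiffAt ℝ 2 (fun q' => F (t, q')) q ∧
      (∀ a, fderiv ℝ (fun q' => F (t, q')) q a = fderiv ℝ F (t, q) (0, a)) ∧
      ‖fderiv ℝ (fun q' => F (t, q')) q‖ ≤ ‖fderiv ℝ F (t, q)‖ ∧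
      ‖fderiv ℝ (fderiv ℝ (fun q' => F (t, q'))) q‖ ≤ ‖fderiv ℝ (fderiv ℝ F) (t, q)‖ := by
  have hn : ∀ a : Y, ‖((0 : ℝ), a)‖ = ‖a‖ := fun a => by simp
  have h1 : ∀ a, fderiv ℝ (fun q' => F (t, q')) q a = fderiv ℝ F (t, q) (0, a) := fun a => by
    rw [tbnd_d1 (h.differentiableAt (by norm_num))]
    rfl
  refine ⟨h.comp q (contDiffAt_const.prodMk contDiffAt_id), h1, ?_, ?_⟩
  · refine ContinuousLinearMap.opNorm_le_bound _ (norm_nonneg _) fun a => ?_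
    rw [h1, ← hn a]
    exact ContinuousLinearMap.le_opNorm _ _
  · have hc : ContinuousAt (fun q' : Y => (t, q')) q := by fun_prop
    have e : fderiv ℝ (fun q' => F (t, q')) =ᶠ[𝓝 q] fun q' =>
        (fderiv ℝ F (t, q')).comp (ContinuousLinearMap.inr ℝ ℝ Y) := by
      filter_upwards [hc.eventually (h.eventually (by simp))] with q' hq'
      exact tbnd_d1 (hq'.differentiableAt (by norm_num))
    have h2 : HasFDerivAt (fderiv ℝ F) (fderiv ℝ (fderiv ℝ F) (t, q)) (t, q) :=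
      ((h.fderiv_right (m := 1) (by norm_num)).differentiableAt (by norm_num)).hasFDerivAt
    have h3 := ((h2.comp q (hasFDerivAt_prodMk_right t q)).clm_comp
      (hasFDerivAt_const (ContinuousLinearMap.inr ℝ ℝ Y) q)).fderiv
    rw [e.fderiv_eq]
    refine ContinuousLinearMap.opNorm_le_bound₂ _ (norm_nonneg _) fun a b => ?_
    have h4 : fderiv ℝ (fun q' => (fderiv ℝ F (t, q')).comp (ContinuousLinearMap.inr ℝ ℝ Y)) q a b =
        fderiv ℝ (fderiv ℝ F) (t, q) (0, a) (0, b) := by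
      erw [h3]
      simp
    rw [h4, ← hn a, ← hn b]
    exact ContinuousLinearMap.le_opNorm₂ _ _ _

lemma tbnd_bounds {F : ℝ × Y → ℝ} {O K : Set (ℝ × Y)} (hO : IsOpen O) (hK : IsCompact K)
    (hKO : K ⊆ O) (hF : ContDiffOn ℝ 2 F O) : ∃ M, ∀ z ∈ K, F z ≤ M ∧ ‖fderiv ℝ F z‖ ≤ M ∧
      ‖fderiv ℝ (fderiv ℝ F) z‖ ≤ M := by
  have h1 : ContDiffOn ℝ 1 (fderiv ℝ F) O := hF.fderiv_of_isOpen hO (by norm_num)
  have h2 : ContDiffOn ℝ 0 (fderiv ℝ (fderiv ℝ F)) O := h1.fderiv_of_isOpen hO (by norm_num)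
  obtain ⟨a, ha⟩ := hK.exists_bound_of_continuousOn (hF.continuousOn.mono hKO)
  obtain ⟨b, hb⟩ := hK.exists_bound_of_continuousOn (h1.continuousOn.mono hKO)
  obtain ⟨c, hc⟩ := hK.exists_bound_of_continuousOn (h2.continuousOn.mono hKO)
  exact ⟨max a (max b c), fun z hz => ⟨((le_abs_self _).trans (ha z hz)).trans (le_max_left _ _),
    (hb z hz).trans ((le_max_left _ _).trans (le_max_right _ _)),
    (hc z hz).trans ((le_max_right _ _).trans (le_max_right _ _))⟩⟩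

lemma tbnd_comb {t M : ℝ} (ht : t ∈ Icc (0:ℝ) 1) {a b : Y} (ha : ‖a‖ ≤ M) (hb : ‖b‖ ≤ M) :
    ‖(1 - t) • a + t • b‖ ≤ M := by
  refine (norm_add_le _ _).trans ?_
  rw [norm_smul, norm_smul, Real.norm_of_nonneg ht.1, Real.norm_of_nonneg (sub_nonneg.2 ht.2)]
  have h1 := mul_le_mul_of_nonneg_left ha (sub_nonneg.2 ht.2)
  have h2 := mul_le_mul_of_nonneg_left hb ht.1
  linarith

end aux

lemma tbnd_compact (hΩ : Nice Ω) (R : ℝ) : IsCompact (W Ω R) := by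
  have : ProperSpace (B1 n) := FiniteDimensional.proper_real (B1 n)
  have e : W Ω R = Metric.closedBall 0 1 ×ˢ Metric.closedBall 0 R ×ˢ closure Ω := by
    ext q
    simp only [W, mem_ofPred_eq, mem_prod, mem_closedBall_zero_iff, Real.norm_eq_abs]
  rw [e]
  exact (isCompact_closedBall _ _).prod ((isCompact_closedBall _ _).prod hΩ.compact)

/-- Bounds for `ψ_t = fun q => χ (t, q)` on `W Ω R`, uniform in `t`: `Icc 0 1 ×ˢ W Ω R` is compact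
and inside the open set `univ ×ˢ V`.  With `ι = ContinuousLinearMap.inr ℝ ℝ _` (norm `≤ 1`):
`fderiv ψ_t q = (fderiv χ (t, q)).comp ι` on `V`, and the second derivative is
`(fderiv (fderiv χ) (t, q)).bilinearComp ι ι`. -/
theorem rhs_bounds (hΩ : Nice Ω) (h : RHS Ω V χ) (R : ℝ) :
    ∃ M δ : ℝ, 0 < δ ∧ ∀ t ∈ Icc (0:ℝ) 1, ∀ q ∈ W Ω R,
      ContDiffAt ℝ 2 (fun q' => χ (t, q')) q ∧ δ ≤ χ (t, q) ∧ χ (t, q) ≤ M ∧
      ‖fderiv ℝ (fun q' => χ (t, q')) q‖ ≤ M ∧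
      ‖fderiv ℝ (fderiv ℝ (fun q' => χ (t, q'))) q‖ ≤ M ∧
      0 ≤ fderiv ℝ (fun q' => χ (t, q')) q (0, 1, 0) := by
  have hK : IsCompact (Icc (0:ℝ) 1 ×ˢ W Ω R) := isCompact_Icc.prod (tbnd_compact hΩ R)
  have hO : IsOpen ((univ : Set ℝ) ×ˢ V) := isOpen_univ.prod h.op
  have hKO : Icc (0:ℝ) 1 ×ˢ W Ω R ⊆ univ ×ˢ V := fun z hz =>
    ⟨mem_univ _, h.sub _ hz.2.1 hz.2.2.2⟩
  have h2 : ContDiffOn ℝ 2 χ (univ ×ˢ V) := contDiffOn_infty.1 h.smooth 2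
  obtain ⟨M, hM⟩ := tbnd_bounds hO hK hKO h2
  obtain ⟨δ, hδ, hd⟩ := hK.exists_forall_le' (h2.continuousOn.mono hKO) (a := 0) fun z hz =>
    h.pos z.1 hz.1 z.2 hz.2.1 hz.2.2.2
  refine ⟨M, δ, hδ, fun t ht q hq => ?_⟩
  have hz : (t, q) ∈ Icc (0:ℝ) 1 ×ˢ W Ω R := ⟨ht, hq⟩
  obtain ⟨k1, k2, k3, k4⟩ := tbnd_slice (h2.contDiffAt (hO.mem_nhds (hKO hz)))
  obtain ⟨m1, m2, m3⟩ := hM _ hz
  refine ⟨k1, hd _ hz, m1, k3.trans m2, k4.trans m3, ?_⟩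
  rw [k2]
  exact h.mono t ht q hq.1 hq.2.2

/-- `iteratedFDeriv` of `mix t f g` is the same combination (`iteratedFDeriv_add_apply`,
`iteratedFDeriv_const_smul_apply`), continuity on the compact set. -/
theorem phi_bounds (hΩ : Nice Ω) {f g : E n → ℝ} (hf : ContDiff ℝ 4 f) (hg : ContDiff ℝ 4 g) :
    ∃ M : ℝ, ∀ t ∈ Icc (0:ℝ) 1, ∀ i ≤ 4, ∀ x ∈ closure Ω,
      ‖iteratedFDeriv ℝ i (mix t f g) x‖ ≤ M := by
  have key : ∀ u : E n → ℝ, ContDiff ℝ 4 u → ∃ M : ℝ, ∀ i ≤ 4, ∀ x ∈ closure Ω,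
      ‖iteratedFDeriv ℝ i u x‖ ≤ M := by
    intro u hu
    have h1 : ∀ i : Fin 5, ∃ M : ℝ, ∀ x ∈ closure Ω, ‖iteratedFDeriv ℝ i u x‖ ≤ M := fun i =>
      hΩ.compact.exists_bound_of_continuousOn (hu.continuous_iteratedFDeriv
        (by exact_mod_cast Nat.lt_succ_iff.1 i.2)).continuousOn
    choose M hM using h1
    obtain ⟨B, hB⟩ := (Set.finite_range M).bddAbove
    exact ⟨B, fun i hi x hx => (hM ⟨i, Nat.lt_succ_of_le hi⟩ x hx).trans (hB ⟨_, rfl⟩)⟩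
  obtain ⟨a, ha⟩ := key f hf
  obtain ⟨b, hb⟩ := key g hg
  refine ⟨max a b, fun t ht i hi x hx => ?_⟩
  have hf' : ContDiffAt ℝ i f x := (hf.of_le (by exact_mod_cast hi)).contDiffAt
  have hg' : ContDiffAt ℝ i g x := (hg.of_le (by exact_mod_cast hi)).contDiffAt
  have e : mix t f g = (1 - t) • f + t • g := rfl
  rw [e, iteratedFDeriv_add_apply (f := (1 - t) • f) (g := t • g) (hf'.const_smul (1 - t))
    (hg'.const_smul t),
    iteratedFDeriv_const_smul_apply hf', iteratedFDeriv_const_smul_apply hg']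
  exact tbnd_comb ht ((ha i hi x hx).trans (le_max_left _ _))
    ((hb i hi x hx).trans (le_max_right _ _))

/-- `D1_mix`, `D2_mix`; `‖D1 v₀‖, ‖D1 ub‖ < 1` on the compact set (from `adm` at `t = 0, 1`). -/
theorem ub_bounds (hΩ : Nice Ω) {v₀ ub : E n → ℝ} (hp : Path k Ω χ v₀ ub) :
    ∃ R δ : ℝ, 0 < δ ∧ ∀ t ∈ Icc (0:ℝ) 1, ∀ x ∈ closure Ω, |mix t v₀ ub x| ≤ R ∧
      ‖D1 (closure Ω) (mix t v₀ ub) x‖ ≤ 1 - δ ∧ ‖D2 (closure Ω) (mix t v₀ ub) x‖ ≤ R := by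
  have hv : ContDiffOn ℝ 2 v₀ (closure Ω) := (contDiff_infty.1 hp.v0 2).contDiffOn
  have key : ∀ u : E n → ℝ, ContDiffOn ℝ 2 u (closure Ω) →
      (∀ x ∈ closure Ω, ‖D1 (closure Ω) u x‖ < 1) → ∃ R δ : ℝ, 0 < δ ∧ ∀ x ∈ closure Ω,
      ‖u x‖ ≤ R ∧ ‖D1 (closure Ω) u x‖ ≤ 1 - δ ∧ ‖D2 (closure Ω) u x‖ ≤ R := by
    intro u hu h1
    obtain ⟨a, ha⟩ := hΩ.compact.exists_bound_of_continuousOn hu.continuousOn
    obtain ⟨b, hb⟩ := hΩ.compact.exists_bound_of_continuousOn (cont_D2 hΩ.ud hu)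
    obtain ⟨δ, hδ, hd⟩ := hΩ.compact.exists_forall_le' (a := 0)
      (f := fun x => 1 - ‖D1 (closure Ω) u x‖) (continuousOn_const.sub (cont_D1 hΩ.ud hu).norm)
      fun x hx => sub_pos.2 (h1 x hx)
    exact ⟨max a b, δ, hδ, fun x hx => ⟨(ha x hx).trans (le_max_left _ _),
      by linarith [hd x hx], (hb x hx).trans (le_max_right _ _)⟩⟩
  have e0 : mix 0 v₀ ub = v₀ := by funext x; simp [mix]
  have e1 : mix 1 v₀ ub = ub := by funext x; simp [mix]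
  obtain ⟨a, δ, hδ, ha⟩ := key v₀ hv fun x hx => by
    have := (hp.adm 0 ⟨le_rfl, zero_le_one⟩ x hx).1
    rwa [e0] at this
  obtain ⟨b, η, hη, hb⟩ := key ub hp.ubc fun x hx => by
    have := (hp.adm 1 ⟨zero_le_one, le_rfl⟩ x hx).1
    rwa [e1] at this
  refine ⟨max a b, min δ η, lt_min hδ hη, fun t ht x hx => ⟨?_, ?_, ?_⟩⟩
  · exact tbnd_comb (Y := ℝ) ht ((ha x hx).1.trans (le_max_left _ _))
      ((hb x hx).1.trans (le_max_right _ _))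
  · rw [D1_mix hΩ.ud t hv hp.ubc hx]
    exact tbnd_comb ht ((ha x hx).2.1.trans (by linarith [min_le_left δ η]))
      ((hb x hx).2.1.trans (by linarith [min_le_right δ η]))
  · rw [D2_mix hΩ.ud t hv hp.ubc hx]
    exact tbnd_comb ht ((ha x hx).2.2.trans (le_max_left _ _))
      ((hb x hx).2.2.trans (le_max_right _ _))

end Pool.Agent.Mink.T
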