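import Pool.Agent.Lib.MP_88c759_an.Mink.TCalc
import Pool.Agent.Lib.MP_88c759_an.Mink.ATG
import Pool.Agent.Lib.MP_88c759_an.Mink.CX1

/-! Bridge between the definitions of the statement and the working definitions. -/

set_option maxSynthPendingDepth 3

namespace Pool.Agent.Mink.T

open scoped ContDiff Topology
open Set Filter

variable {n : ℕ}

variable {Ω : Set (E n)} {u : E n → ℝ} {x : E n}

theorem grad_eq (Ω : Set (E n)) (u : E n → ℝ) (x : E n) :
    Q.grad Ω u x = C.shp (D1 (closure Ω) u x) := by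
  rfl

theorem norm_shp (p : B1 n) : ‖C.shp p‖ = ‖p‖ := by
  exact LinearIsometryEquiv.norm_map _ p

theorem shp_apply (p : B1 n) (i : Fin n) : C.shp p i = p (C.ee i) := by
  have h : (inner ℝ (C.shp p) (C.ee i) : ℝ) = p (C.ee i) :=
    InnerProductSpace.toDual_symm_apply
  rw [← h, C.ee, EuclideanSpace.inner_single_right]
  simp

theorem contDiff_shp : ContDiff ℝ ∞ (C.shp : B1 n → E n) := by
  exact (InnerProductSpace.toDual ℝ (E n)).symm.toContinuousLinearEquiv.contDiff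

/-- `iteratedFDerivWithin_two_apply` -/
theorem hess_eq (hΩ : Nice Ω) (hx : x ∈ closure Ω) (i j : Fin n) :
    Q.hess Ω u x i j = D2 (closure Ω) u x (C.ee i) (C.ee j) := by
  change iteratedFDerivWithin ℝ 2 u (closure Ω) x _ = _
  rw [iteratedFDerivWithin_two_apply _ hΩ.ud hx]
  rfl

/-- The inverse of `δ_ij - p_i p_j` is `δ_ij + p_i p_j / (1 - |p|²)` (`Matrix.inv_eq_right_inv`,
`∑ p_i² = ‖p‖²`), `Wp p ^ 2 = (1 - ‖p‖²)⁻¹`, and `shp p = ∑ l, p (ee l) • ee l`. -/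
theorem shape_eq (hΩ : Nice Ω) (hx : x ∈ closure Ω) (hp : ‖D1 (closure Ω) u x‖ < 1) :
    (Q.metric Ω u x)⁻¹ * Q.sff Ω u x = C.shape (D1 (closure Ω) u x) (D2 (closure Ω) u x) := by
  set p := D1 (closure Ω) u x with hpdef
  set r := D2 (closure Ω) u x with hr
  have hpos : 0 < 1 - ‖p‖ ^ 2 := by
    have := norm_nonneg p
    nlinarith
  have hW : C.Wp p ^ 2 * (1 - ‖p‖ ^ 2) = 1 := by
    rw [C.Wp, inv_pow, Real.sq_sqrt hpos.le, inv_mul_cancel₀ hpos.ne']
  have hg : ∀ i, Q.grad Ω u x i = p (C.ee i) := fun i => by rw [grad_eq, shp_apply]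
  have hsum : ∑ l, p (C.ee l) * p (C.ee l) = ‖p‖ ^ 2 := by
    rw [← norm_shp, EuclideanSpace.real_norm_sq_eq]
    exact Finset.sum_congr rfl fun l _ => by rw [shp_apply, sq]
  have hinv : (Q.metric Ω u x)⁻¹ = Matrix.of fun i j =>
      (if i = j then 1 else 0) + C.Wp p ^ 2 * (p (C.ee i) * p (C.ee j)) := by
    apply Matrix.inv_eq_right_inv
    ext i j
    have e : ∀ l, ((if i = l then 1 else 0) - p (C.ee i) * p (C.ee l)) *
        ((if l = j then 1 else 0) + C.Wp p ^ 2 * (p (C.ee l) * p (C.ee j))) =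
        (if i = l then (if l = j then 1 else 0) + C.Wp p ^ 2 * (p (C.ee l) * p (C.ee j)) else 0)
          - (if l = j then p (C.ee i) * p (C.ee l) else 0)
          - C.Wp p ^ 2 * (p (C.ee i) * p (C.ee j)) * (p (C.ee l) * p (C.ee l)) := by
      intro l
      split_ifs <;> ring
    simp only [Matrix.mul_apply, Q.metric, Matrix.of_apply, hg, e, Finset.sum_sub_distrib,
      Finset.sum_ite_eq, Finset.sum_ite_eq', Finset.mem_univ, if_true, ← Finset.mul_sum, hsum,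
      Matrix.one_apply]
    linear_combination p (C.ee i) * p (C.ee j) * hW
  have hshp : C.shp p = ∑ l, p (C.ee l) • C.ee l := by
    ext i
    rw [shp_apply]
    simp [C.ee, Pi.single_apply]
  rw [hinv]
  ext i j
  have e : ∀ l, ((if i = l then 1 else 0) + C.Wp p ^ 2 * (p (C.ee i) * p (C.ee l))) *
      (r (C.ee l) (C.ee j) / √(1 - ‖p‖ ^ 2)) =
      (if i = l then C.Wp p * r (C.ee l) (C.ee j) else 0) +
        C.Wp p * (C.Wp p ^ 2 * p (C.ee i)) * (p (C.ee l) * r (C.ee l) (C.ee j)) := by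
    intro l
    rw [div_eq_mul_inv, ← C.Wp]
    split_ifs <;> ring
  have e2 : r (C.shp p) (C.ee j) = ∑ l, p (C.ee l) * r (C.ee l) (C.ee j) := by
    rw [hshp, map_sum, sum_apply]
    exact Finset.sum_congr rfl fun l _ => by rw [map_smul]; rfl
  simp only [Matrix.mul_apply, Q.sff, C.shape, Matrix.of_apply, hess_eq hΩ hx, grad_eq, norm_shp,
    ← hpdef, ← hr, e, e2, Finset.sum_add_distrib, Finset.sum_ite_eq, Finset.mem_univ, if_true,
    ← Finset.mul_sum]
  ring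

/-- `shape_eq` and `C.sM_of_charpoly_prod`; `Q.sigma j κ = C.es Finset.univ j κ` by `rfl`. -/
theorem SS_of_isCurv (hΩ : Nice Ω) (hx : x ∈ closure Ω) (hp : ‖D1 (closure Ω) u x‖ < 1)
    {κ : Fin n → ℝ} (h : Q.IsCurv Ω u x κ) (j : ℕ) :
    C.SS j (D1 (closure Ω) u x) (D2 (closure Ω) u x) = Q.sigma j κ := by
  rw [Q.IsCurv, shape_eq hΩ hx hp] at h
  exact C.sM_of_charpoly_prod h j

/-- `exists_eigen`, `sym_D2`, `shape_eq` -/
theorem exists_isCurv (hΩ : Nice Ω) (hu : ContDiffOn ℝ 2 u (closure Ω)) (hx : x ∈ closure Ω)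
    (hp : ‖D1 (closure Ω) u x‖ < 1) : ∃ κ, Q.IsCurv Ω u x κ := by
  obtain ⟨κ, hκ⟩ := exists_eigen (sym_D2 hΩ.ud hu hx (hΩ.cl_int hx)) hp
  exact ⟨κ, by rw [Q.IsCurv, shape_eq hΩ hx hp]; exact hκ⟩

end Pool.Agent.Mink.T
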