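import Pool.Agent.Lib.MP_88c759_an.Mink.TCalc
import Pool.Agent.Lib.MP_88c759_an.Mink.ATG

/-! Third derivatives and admissibility on the closure. -/

set_option maxSynthPendingDepth 3

namespace Pool.Agent.Mink.T

open scoped ContDiff Topology
open Set Filter

variable {n : ℕ}

variable {Ω : Set (E n)} {u : E n → ℝ} {x : E n}

lemma tbr2_three {S : Set (E n)} (hS : UniqueDiffOn ℝ S) (u : E n → ℝ) (hx : x ∈ S)
    (m : Fin 3 → E n) : iteratedFDerivWithin ℝ 3 u S x m = D3 S u x (m 0) (m 1) (m 2) := by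
  rw [iteratedFDerivWithin_succ_apply_right hS hx, iteratedFDerivWithin_two_apply _ hS hx]
  rfl

lemma tbr2_norm {S : Set (E n)} (hS : UniqueDiffOn ℝ S) (u : E n → ℝ) {y : E n} (hx : x ∈ S)
    (hy : y ∈ S) : ‖iteratedFDerivWithin ℝ 3 u S x - iteratedFDerivWithin ℝ 3 u S y‖ ≤
      ‖D3 S u x - D3 S u y‖ := by
  refine ContinuousMultilinearMap.opNorm_le_bound (norm_nonneg _) fun m => ?_
  have e : (iteratedFDerivWithin ℝ 3 u S x - iteratedFDerivWithin ℝ 3 u S y) m =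
      (D3 S u x - D3 S u y) (m 0) (m 1) (m 2) := by
    rw [sub_apply, tbr2_three hS u hx, tbr2_three hS u hy]
    rfl
  rw [e, Fin.prod_univ_three, ← mul_assoc, ← mul_assoc]
  exact (((D3 S u x - D3 S u y) (m 0)).le_opNorm₂ (m 1) (m 2)).trans
    (mul_le_mul_of_nonneg_right (mul_le_mul_of_nonneg_right
      ((D3 S u x - D3 S u y).le_opNorm (m 0)) (norm_nonneg _)) (norm_nonneg _))

lemma tbr2_cont (hΩ : Nice Ω) (hu : ContDiffOn ℝ 2 u (closure Ω))
    (hp : ∀ x ∈ closure Ω, ‖D1 (closure Ω) u x‖ < 1) (j : ℕ) :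
    ContinuousOn (fun x => C.SS j (D1 (closure Ω) u x) (D2 (closure Ω) u x)) (closure Ω) :=
  (contDiffOn_SS (n := n) j).continuousOn.comp
    (f := fun x => (D1 (closure Ω) u x, D2 (closure Ω) u x))
    ((cont_D1 hΩ.ud hu).prodMk (cont_D2 hΩ.ud hu)) hp

/-- `iteratedFDerivWithin ℝ 3 u S x m = D3 S u x (m 0) (m 1) (m 2)` on `S` (use
`iteratedFDerivWithin_succ_apply_left`, `iteratedFDerivWithin_two_apply`, `fderivWithin_congr` and
the derivative of an evaluation), then `ContinuousMultilinearMap.opNorm_le_bound`. -/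
theorem holderC3_of_c3a (hΩ : Nice Ω) {α : ℝ} (h : C3a (closure Ω) α u) : Q.HolderC3 Ω α u := by
  obtain ⟨h1, C, hC⟩ := h
  exact ⟨h1, C, fun x hx y hy => (tbr2_norm hΩ.ud u hx hy).trans (hC x hx y hy)⟩

/-- Pass to the closure: the jets are continuous on `closure Ω` (`cont_D1`, `cont_D2`), `C.SS j` is
continuous where `‖p‖ < 1` (`contDiffOn_SS`), so `0 ≤ C.SS j` and `f ≤ C.SS k` on the closure
(`ContinuousWithinAt.closure_le`); then `adm_of_nonneg`. -/
theorem adm_closure {k : ℕ} (hkn : k ≤ n) (hΩ : Nice Ω) (hu : ContDiffOn ℝ 2 u (closure Ω))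
    (hp : ∀ x ∈ closure Ω, ‖D1 (closure Ω) u x‖ < 1) {f : E n → ℝ}
    (hf : ContinuousOn f (closure Ω)) (hf0 : ∀ x ∈ closure Ω, 0 < f x)
    (h : ∀ x ∈ Ω, C.Adm k (D1 (closure Ω) u x) (D2 (closure Ω) u x) ∧
      f x ≤ C.SS k (D1 (closure Ω) u x) (D2 (closure Ω) u x)) :
    ∀ x ∈ closure Ω, C.Adm k (D1 (closure Ω) u x) (D2 (closure Ω) u x) ∧
      f x ≤ C.SS k (D1 (closure Ω) u x) (D2 (closure Ω) u x) := by
  intro x hx
  have h1 : f x ≤ C.SS k (D1 (closure Ω) u x) (D2 (closure Ω) u x) :=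
    ContinuousWithinAt.closure_le hx ((hf x hx).mono subset_closure)
      ((tbr2_cont hΩ hu hp k x hx).mono subset_closure) fun y hy => (h y hy).2
  refine ⟨adm_of_nonneg hkn (sym_D2 hΩ.ud hu hx (hΩ.cl_int hx)) (hp x hx) (fun j hj hjk => ?_)
    ((hf0 x hx).trans_le h1), h1⟩
  exact ContinuousWithinAt.closure_le (f := fun _ => (0 : ℝ))
    (g := fun x => C.SS j (D1 (closure Ω) u x) (D2 (closure Ω) u x)) hx continuousWithinAt_const
    ((tbr2_cont hΩ hu hp j x hx).mono subset_closure) fun y hy => ((h y hy).1.2 j hj hjk).le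

end Pool.Agent.Mink.T
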