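import Pool.Agent.Lib.MP_88c759_an.Mink.TJet

/-! Hoelder continuity of third derivatives under a change of variables. -/

set_option maxSynthPendingDepth 3

namespace Pool.Agent.Mink.T

open scoped ContDiff Topology
open Set Filter

variable {n : ℕ}

variable {Φ Ψ : E n → E n} {S S' : Set (E n)} {v : E n → ℝ}

/-- A map that is `C¹` on a finite dimensional space preserves Hoelder continuity of bounded maps
(it is Lipschitz on a closed ball: `Convex.norm_image_sub_le_of_norm_fderiv_le`). -/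
theorem holder_comp {V V' : Type} [NormedAddCommGroup V] [NormedSpace ℝ V]
    [FiniteDimensional ℝ V] [NormedAddCommGroup V'] [NormedSpace ℝ V'] {H : V → V'}
    (hH : ContDiff ℝ 1 H) {f : E n → V} {R C α : ℝ} (hR : ∀ x ∈ S, ‖f x‖ ≤ R)
    (hf : ∀ x ∈ S, ∀ y ∈ S, ‖f x - f y‖ ≤ C * ‖x - y‖ ^ α) :
    ∃ C' : ℝ, ∀ x ∈ S, ∀ y ∈ S, ‖H (f x) - H (f y)‖ ≤ C' * ‖x - y‖ ^ α := by
  obtain ⟨K, hK⟩ := (isCompact_closedBall (0 : V) R).exists_bound_of_continuousOn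
    (hH.continuous_fderiv one_ne_zero).continuousOn
  refine ⟨max K 0 * C, fun x hx y hy => ?_⟩
  have h1 : ‖H (f x) - H (f y)‖ ≤ max K 0 * ‖f x - f y‖ :=
    (convex_closedBall (0 : V) R).norm_image_sub_le_of_norm_fderiv_le
      (fun z _ => hH.differentiable one_ne_zero z) (fun z hz => (hK z hz).trans (le_max_left _ _))
      (mem_closedBall_zero_iff.2 (hR y hy)) (mem_closedBall_zero_iff.2 (hR x hx))
  rw [mul_assoc]
  exact h1.trans (mul_le_mul_of_nonneg_left (hf x hx y hy) (le_max_right _ _))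

section tc3

variable {U V W : Type} [NormedAddCommGroup U] [NormedAddCommGroup V] [NormedAddCommGroup W]
  {α : ℝ}

/-- bounded and Hoelder continuous on `S` -/
def tc3BH (S : Set (E n)) (α : ℝ) (f : E n → V) : Prop :=
  ∃ R C : ℝ, 0 ≤ R ∧ 0 ≤ C ∧ (∀ x ∈ S, ‖f x‖ ≤ R) ∧
    ∀ x ∈ S, ∀ y ∈ S, ‖f x - f y‖ ≤ C * ‖x - y‖ ^ α

theorem tc3_mk {f : E n → V} {R C : ℝ} (hR : ∀ x ∈ S, ‖f x‖ ≤ R)
    (hf : ∀ x ∈ S, ∀ y ∈ S, ‖f x - f y‖ ≤ C * ‖x - y‖ ^ α) : tc3BH S α f :=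
  ⟨max R 0, max C 0, le_max_right _ _, le_max_right _ _,
    fun x hx => (hR x hx).trans (le_max_left _ _), fun x hx y hy => (hf x hx y hy).trans
      (mul_le_mul_of_nonneg_right (le_max_left _ _) (by positivity))⟩

theorem tc3_prodMk {f : E n → V} {g : E n → W} (hf : tc3BH S α f) (hg : tc3BH S α g) :
    tc3BH S α fun x => (f x, g x) := by
  obtain ⟨R, C, -, -, h1, h2⟩ := hf
  obtain ⟨R', C', -, -, h1', h2'⟩ := hg
  refine tc3_mk (R := max R R') (C := max C C')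
    (fun x hx => max_le_max (h1 x hx) (h1' x hx)) fun x hx y hy => ?_
  rw [max_mul_of_nonneg _ _ (by positivity)]
  exact max_le_max (h2 x hx y hy) (h2' x hx y hy)

theorem tc3_pre {f : E n → V} (hf : tc3BH S' α f) (h0 : 0 < α) (hm : MapsTo Ψ S S') {K : ℝ}
    (hK0 : 0 ≤ K) (hK : ∀ x ∈ S, ∀ y ∈ S, ‖Ψ x - Ψ y‖ ≤ K * ‖x - y‖) :
    tc3BH S α fun x => f (Ψ x) := by
  obtain ⟨R, C, -, hC, h1, h2⟩ := hf
  refine tc3_mk (C := C * K ^ α) (fun x hx => h1 _ (hm hx)) fun x hx y hy => ?_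
  refine (h2 _ (hm hx) _ (hm hy)).trans ?_
  rw [mul_assoc, ← Real.mul_rpow hK0 (norm_nonneg _)]
  exact mul_le_mul_of_nonneg_left (Real.rpow_le_rpow (norm_nonneg _) (hK x hx y hy) h0.le) hC

theorem tc3_lip (hc : IsCompact S) (h0 : 0 < α) (h1 : α < 1) {f : E n → V}
    (hf : ContinuousOn f S) {K : ℝ} (hK : ∀ x ∈ S, ∀ y ∈ S, ‖f x - f y‖ ≤ K * ‖x - y‖) :
    tc3BH S α f := by
  obtain ⟨R, hR⟩ := hc.exists_bound_of_continuousOn hf
  obtain ⟨D, hD⟩ := Metric.isBounded_iff.1 hc.isBounded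
  refine tc3_mk hR (C := max K 0 * max D 1) fun x hx y hy => ?_
  have h2 : ‖x - y‖ ≤ max D 1 * ‖x - y‖ ^ α := by
    rcases le_total ‖x - y‖ 1 with h | h
    · exact (Real.self_le_rpow_of_le_one (norm_nonneg _) h h1.le).trans
        (le_mul_of_one_le_left (by positivity) (le_max_right _ _))
    · have h3 : ‖x - y‖ ≤ max D 1 := by
        rw [← dist_eq_norm]
        exact (hD hx hy).trans (le_max_left _ _)
      exact h3.trans (le_mul_of_one_le_right (by positivity) (Real.one_le_rpow h h0.le))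
  rw [mul_assoc]
  exact (hK x hx y hy).trans (mul_le_mul (le_max_left _ _) h2 (norm_nonneg _) (le_max_right _ _))

variable [NormedSpace ℝ U] [NormedSpace ℝ V] [NormedSpace ℝ W]

theorem tc3_comp [FiniteDimensional ℝ V] {H : V → W} (hH : ContDiff ℝ 1 H) {f : E n → V}
    (hf : tc3BH S α f) : tc3BH S α fun x => H (f x) := by
  obtain ⟨R, C, -, -, h1, h2⟩ := hf
  obtain ⟨C', h3⟩ := holder_comp hH h1 h2
  obtain ⟨K, hK⟩ := (isCompact_closedBall (0 : V) R).exists_bound_of_continuousOn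
    hH.continuous.continuousOn
  exact tc3_mk (fun x hx => hK _ (mem_closedBall_zero_iff.2 (h1 x hx))) h3

theorem tc3_clm_comp {f : E n → V →L[ℝ] W} {g : E n → U →L[ℝ] V} (hf : tc3BH S α f)
    (hg : tc3BH S α g) : tc3BH S α fun x => (f x).comp (g x) := by
  obtain ⟨R, C, hR, hC, h1, h2⟩ := hf
  obtain ⟨R', C', hR', hC', h1', h2'⟩ := hg
  refine tc3_mk (R := R * R') (C := C * R' + R * C') (fun x hx => ?_) fun x hx y hy => ?_
  · exact ((f x).opNorm_comp_le _).trans (mul_le_mul (h1 x hx) (h1' x hx) (norm_nonneg _) hR)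
  · have e : (f x).comp (g x) - (f y).comp (g y) =
        (f x - f y).comp (g x) + (f y).comp (g x - g y) := by
      rw [ContinuousLinearMap.sub_comp, ContinuousLinearMap.comp_sub, sub_add_sub_cancel]
    have k1 : ‖(f x - f y).comp (g x)‖ ≤ C * ‖x - y‖ ^ α * R' :=
      ((f x - f y).opNorm_comp_le _).trans
        (mul_le_mul (h2 x hx y hy) (h1' x hx) (norm_nonneg _) (by positivity))
    have k2 : ‖(f y).comp (g x - g y)‖ ≤ R * (C' * ‖x - y‖ ^ α) :=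
      ((f y).opNorm_comp_le _).trans (mul_le_mul (h1 y hy) (h2' x hx y hy) (norm_nonneg _) hR)
    rw [e]
    refine (norm_add_le _ _).trans ((add_le_add k1 k2).trans (le_of_eq ?_))
    ring

theorem tc3_clm_prod {f : E n → U →L[ℝ] V} {g : E n → U →L[ℝ] W} (hf : tc3BH S α f)
    (hg : tc3BH S α g) : tc3BH S α fun x => (f x).prod (g x) := by
  obtain ⟨R, C, -, -, h1, h2⟩ := tc3_prodMk hf hg
  refine tc3_mk (R := R) (C := C) (fun x hx => ?_) fun x hx y hy => ?_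
  · rw [ContinuousLinearMap.opNorm_prod]
    exact h1 x hx
  · have e : (f x).prod (g x) - (f y).prod (g y) = (f x - f y).prod (g x - g y) := by
      ext <;> simp
    rw [e, ContinuousLinearMap.opNorm_prod]
    exact h2 x hx y hy

omit [NormedSpace ℝ V] in
theorem tc3_const (c : V) : tc3BH S α fun _ => c :=
  tc3_mk (R := ‖c‖) (C := 0) (fun _ _ => le_rfl) fun _ _ _ _ => by simp

theorem tc3_cvx (hc : IsCompact S) (hx : Convex ℝ S) (h0 : 0 < α) (h1 : α < 1) {f : E n → V}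
    {f' : E n → E n →L[ℝ] V} (hf : ∀ x ∈ S, HasFDerivWithinAt f (f' x) S x)
    (hf' : ContinuousOn f' S) : tc3BH S α f := by
  obtain ⟨K, hK⟩ := hc.exists_bound_of_continuousOn hf'
  exact tc3_lip hc h0 h1 (fun x hx => (hf x hx).continuousWithinAt)
    fun x hx' y hy => hx.norm_image_sub_le_of_norm_hasFDerivWithin_le hf hK hy hx'

theorem tc3_chain [FiniteDimensional ℝ V] (hS : UniqueDiffOn ℝ S) {G : V → W}
    (hG : ContDiff ℝ 2 G) {g : E n → V} {g' : E n → E n →L[ℝ] V}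
    (hg : ∀ x ∈ S, HasFDerivWithinAt g (g' x) S x) (h1 : tc3BH S α g) (h2 : tc3BH S α g')
    {u : E n → W} (hu : ∀ x ∈ S, u x = G (g x)) :
    ∃ C : ℝ, ∀ x ∈ S, ∀ y ∈ S,
      ‖fderivWithin ℝ u S x - fderivWithin ℝ u S y‖ ≤ C * ‖x - y‖ ^ α := by
  have e : ∀ x ∈ S, fderivWithin ℝ u S x = (fderiv ℝ G (g x)).comp (g' x) := fun x hx =>
    ((((hG.differentiable two_ne_zero (g x)).hasFDerivAt).comp_hasFDerivWithinAt x
      (hg x hx)).congr hu (hu x hx)).fderivWithin (hS x hx)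
  obtain ⟨R, C, -, -, -, h3⟩ :=
    tc3_clm_comp (tc3_comp (hG.fderiv_right (m := 1) (by norm_num)) h1) h2
  refine ⟨C, fun x hx y hy => ?_⟩
  rw [e x hx, e y hy]
  exact h3 x hx y hy

end tc3

theorem tc3_G (hΨ : ContDiff ℝ ∞ Ψ) : ContDiff ℝ 2 fun q : E n × B2 n × B1 n =>
    pull (fderiv ℝ Ψ q.1) q.2.1 + post q.2.2 (fderiv ℝ (fderiv ℝ Ψ) q.1) := by
  have h1 : ContDiff ℝ ∞ (fderiv ℝ Ψ) := hΨ.fderiv_right (by simp)
  have h2 : ContDiff ℝ ∞ (fderiv ℝ (fderiv ℝ Ψ)) := h1.fderiv_right (by simp)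
  have k3 : ContDiff ℝ ∞ fun q : E n × B2 n × B1 n => (fderiv ℝ Ψ q.1, q.2.1) :=
    (h1.comp contDiff_fst).prodMk contDiff_snd.fst
  have k4 : ContDiff ℝ ∞ fun q : E n × B2 n × B1 n => (q.2.2, fderiv ℝ (fderiv ℝ Ψ) q.1) :=
    contDiff_snd.snd.prodMk (h2.comp contDiff_fst)
  have h3 := contDiff_pull.comp k3
  have h4 := contDiff_post.comp k4
  simp only [Function.comp_def] at h3 h4
  exact (h3.add h4).of_le (by norm_cast)

/-- With `G (y, r, p) = pull (fderiv Ψ y) r + post p (fderiv (fderiv Ψ) y)` (smooth) we have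
`D2 S (v ∘ Ψ) y = G (y, D2 S' v (Ψ y), D1 S' v (Ψ y))` on `S`, so
`D3 S (v ∘ Ψ) y = H (y, D3 S' v (Ψ y), D2 S' v (Ψ y), D1 S' v (Ψ y))` where
`H (y, q, r, p) = (fderiv G (y, r, p)).comp ((id).prod ((q.comp (fderiv Ψ y)).prod (r.comp (fderiv Ψ y))))`
is smooth.  The argument of `H` is bounded and Hoelder on `S`: `Ψ` is Lipschitz on `S`
(`holder_comp` with `α = 1`), `D2 S' v` and `D1 S' v` are Lipschitz on the compact convex set `S'`
(`Convex.norm_image_sub_le_of_norm_hasFDerivWithin_le`), and Lipschitz maps on a bounded set are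
Hoelder (`d ≤ (diam + 1) * d ^ α`).  Then `holder_comp`. -/
theorem c3a_comp (hS : UniqueDiffOn ℝ S) (hS' : UniqueDiffOn ℝ S') (hc : IsCompact S)
    (hc' : IsCompact S') (hx' : Convex ℝ S') (hΨ : ContDiff ℝ ∞ Ψ) (hm : MapsTo Ψ S S')
    {α : ℝ} (h0 : 0 < α) (h1 : α < 1) (hv : C3a S' α v) : C3a S α (v ∘ Ψ) := by
  obtain ⟨hv3, Cv, hCv⟩ := hv
  have hv2 : ContDiffOn ℝ 2 v S' := hv3.of_le (by norm_num)
  refine ⟨hv3.comp (hΨ.of_le (by norm_cast)).contDiffOn hm, ?_⟩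
  have hΨ1 : ContDiff ℝ 1 Ψ := hΨ.of_le (by norm_cast)
  have hΨ2 : ContDiff ℝ 1 (fderiv ℝ Ψ) := hΨ.fderiv_right (by norm_cast)
  have bid : tc3BH S α fun x : E n => x :=
    tc3_lip hc h0 h1 continuousOn_id (K := 1) fun x _ y _ => (one_mul _).ge
  obtain ⟨K, hK0, hK⟩ : ∃ K : ℝ, 0 ≤ K ∧ ∀ x ∈ S, ∀ y ∈ S, ‖Ψ x - Ψ y‖ ≤ K * ‖x - y‖ := by
    obtain ⟨R, hR⟩ := hc.exists_bound_of_continuousOn (f := fun x : E n => x) continuousOn_id
    obtain ⟨-, K, -, hK0, -, hK⟩ := tc3_comp hΨ1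
      (tc3_mk (α := 1) (C := 1) hR fun x _ y _ => by simp)
    exact ⟨K, hK0, fun x hx y hy => by simpa using hK x hx y hy⟩
  have b1 : tc3BH S α fun x => D1 S' v (Ψ x) :=
    tc3_pre (tc3_cvx hc' hx' h0 h1 (fun x hx => hasD2 hS' hv2 hx) (cont_D2 hS' hv2)) h0 hm hK0 hK
  have b2 : tc3BH S α fun x => D2 S' v (Ψ x) :=
    tc3_pre (tc3_cvx hc' hx' h0 h1 (fun x hx => hasD3 hS' hv3 hx) (cont_D3 hS' hv3)) h0 hm hK0 hK
  have b3 : tc3BH S α fun x => D3 S' v (Ψ x) := by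
    obtain ⟨R, hR⟩ := hc'.exists_bound_of_continuousOn (cont_D3 hS' hv3)
    exact tc3_pre (tc3_mk hR hCv) h0 hm hK0 hK
  have b4 : tc3BH S α fun x => fderiv ℝ Ψ x := tc3_comp hΨ2 bid
  have hd : ∀ x, HasFDerivWithinAt Ψ (fderiv ℝ Ψ x) S x := fun x =>
    (hΨ1.differentiable one_ne_zero x).hasFDerivAt.hasFDerivWithinAt
  exact tc3_chain hS (tc3_G hΨ) (g := fun x => (x, D2 S' v (Ψ x), D1 S' v (Ψ x)))
    (fun x hx => (hasFDerivWithinAt_id x S).prodMk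
      (((hasD3 hS' hv3 (hm hx)).comp x (hd x) hm).prodMk
        ((hasD2 hS' hv2 (hm hx)).comp x (hd x) hm)))
    (tc3_prodMk bid (tc3_prodMk b2 b1))
    (tc3_clm_prod (tc3_const _) (tc3_clm_prod (tc3_clm_comp b3 b4) (tc3_clm_comp b2 b4)))
    fun x hx => D2_comp hS hS' hΨ hm hv2 hx

end Pool.Agent.Mink.T
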