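import Pool.Agent.Lib.MP_88c759_an.Mink.TDefs

/-! A global radial diffeomorphism. -/

set_option maxSynthPendingDepth 3

namespace Pool.Agent.Mink.T

open scoped ContDiff Topology
open Set Filter

variable {n : ℕ}

/-- A smooth bijection with injective derivatives has a smooth inverse: the derivatives are
equivalences (finite dimension), the map is open (`HasStrictFDerivAt.map_nhds_eq_of_equiv`), so a
homeomorphism (`Equiv.toHomeomorphOfContinuousOpen`), and `Homeomorph.contDiff_symm` applies. -/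
theorem exists_smooth_inverse {Ψ : E n → E n} (hΨ : ContDiff ℝ ∞ Ψ) (hb : Function.Bijective Ψ)
    (hi : ∀ y, Function.Injective (fderiv ℝ Ψ y)) :
    ∃ Φ : E n → E n, ContDiff ℝ ∞ Φ ∧ (∀ x, Ψ (Φ x) = x) ∧ ∀ y, Φ (Ψ y) = y := by
  let L : E n → E n ≃L[ℝ] E n := fun y =>
    (LinearEquiv.ofInjectiveEndo (fderiv ℝ Ψ y).toLinearMap (hi y)).toContinuousLinearEquiv
  have hL : ∀ y, (L y : E n →L[ℝ] E n) = fderiv ℝ Ψ y := fun y =>
    ContinuousLinearMap.ext (fun _ => rfl)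
  have hS : ∀ y, HasStrictFDerivAt Ψ (L y : E n →L[ℝ] E n) y := by
    intro y
    rw [hL]
    exact hΨ.contDiffAt.hasStrictFDerivAt (by simp)
  let H : E n ≃ₜ E n := (Equiv.ofBijective Ψ hb).toHomeomorphOfContinuousOpen hΨ.continuous
    (isOpenMap_of_hasStrictFDerivAt_equiv hS)
  exact ⟨H.symm, H.contDiff_symm (fun y => (hS y).hasFDerivAt) hΨ, H.apply_symm_apply,
    H.symm_apply_apply⟩

theorem tdiffeo_bounds {g : E n → ℝ} (hc : Continuous g)
    (hh : ∀ s : ℝ, 0 ≤ s → ∀ y, g (s • y) = s * g y) (hp : ∀ y, y ≠ 0 → 0 < g y) :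
    ∃ a b : ℝ, 0 < a ∧ 0 < b ∧ ∀ y, a * ‖y‖ ≤ g y ∧ g y ≤ b * ‖y‖ := by
  have h0 : g 0 = 0 := by
    have := hh 0 le_rfl 0
    rwa [zero_smul, zero_mul] at this
  have key : ∃ a b : ℝ, 0 < a ∧ 0 < b ∧ ∀ θ ∈ Metric.sphere (0 : E n) 1, a ≤ g θ ∧ g θ ≤ b := by
    rcases (Metric.sphere (0 : E n) 1).eq_empty_or_nonempty with h | h
    · refine ⟨1, 1, one_pos, one_pos, fun θ hθ => ?_⟩
      rw [h] at hθ
      exact absurd hθ (notMem_empty θ)
    · have hne : ∀ θ ∈ Metric.sphere (0 : E n) 1, θ ≠ 0 := by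
        intro θ hθ h1
        rw [h1] at hθ
        simp at hθ
      obtain ⟨x, hx, hx'⟩ := (isCompact_sphere (0 : E n) 1).exists_isMinOn h hc.continuousOn
      obtain ⟨z, hz, hz'⟩ := (isCompact_sphere (0 : E n) 1).exists_isMaxOn h hc.continuousOn
      exact ⟨g x, g z, hp x (hne x hx), hp z (hne z hz), fun θ hθ => ⟨hx' hθ, hz' hθ⟩⟩
  obtain ⟨a, b, ha, hb, hab⟩ := key
  refine ⟨a, b, ha, hb, fun y => ?_⟩
  by_cases hy : y = 0
  · rw [hy, h0, norm_zero, mul_zero, mul_zero]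
    exact ⟨le_rfl, le_rfl⟩
  · have hn : 0 < ‖y‖ := norm_pos_iff.2 hy
    have h1 : ‖y‖⁻¹ • y ∈ Metric.sphere (0 : E n) 1 := by
      rw [mem_sphere_zero_iff_norm, norm_smul, norm_inv, norm_norm, inv_mul_cancel₀ hn.ne']
    have h2 := hab _ h1
    have h3 : g y = g (‖y‖⁻¹ • y) * ‖y‖ := by
      rw [hh _ (inv_nonneg.2 hn.le)]
      field_simp
    rw [h3]
    exact ⟨mul_le_mul_of_nonneg_right h2.1 hn.le, mul_le_mul_of_nonneg_right h2.2 hn.le⟩

/-- a positive smooth factor that is monotone along rays gives a diffeomorphism -/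
theorem tdiffeo_radial {μ : E n → ℝ} {a : ℝ} (ha : 0 < a) (hμ : ContDiff ℝ ∞ μ)
    (hl : ∀ y, a ≤ μ y) (hm : ∀ (y : E n) (s t : ℝ), 0 < s → s ≤ t → μ (s • y) ≤ μ (t • y)) :
    ∃ Φ : E n → E n, ContDiff ℝ ∞ Φ ∧ (∀ x, μ (Φ x) • Φ x = x) ∧ ∀ y, Φ (μ y • y) = y := by
  have hpos : ∀ y, 0 < μ y := fun y => ha.trans_le (hl y)
  refine exists_smooth_inverse (Ψ := fun y => μ y • y) (hμ.smul contDiff_id) ⟨?_, ?_⟩ ?_
  · intro y y' h
    have h1 : μ y • y = μ y' • y' := h
    have hc : 0 < μ y / μ y' := div_pos (hpos y) (hpos y')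
    have h2 : y' = (μ y / μ y') • y := by
      rw [div_eq_inv_mul, mul_smul, h1, smul_smul, inv_mul_cancel₀ (hpos y').ne', one_smul]
    have h3 : μ y = μ y' := by
      rcases le_total (μ y) (μ y') with h4 | h4
      · have h5 := hm y _ 1 hc ((div_le_one (hpos y')).2 h4)
        rw [← h2, one_smul] at h5
        exact le_antisymm h4 h5
      · have h5 := hm y 1 _ one_pos ((one_le_div (hpos y')).2 h4)
        rw [← h2, one_smul] at h5
        exact le_antisymm h5 h4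
    rw [h2, h3, div_self (hpos y').ne', one_smul]
  · intro x
    have hcont : Continuous fun s : ℝ => μ (s • x) * s :=
      (hμ.continuous.comp (continuous_id.smul continuous_const)).mul continuous_id
    have h1 : (1 : ℝ) ∈ Icc (μ ((0 : ℝ) • x) * 0) (μ (a⁻¹ • x) * a⁻¹) := by
      refine ⟨by simp, ?_⟩
      rw [← div_eq_mul_inv, one_le_div ha]
      exact hl _
    obtain ⟨s, -, hs⟩ := intermediate_value_Icc (inv_nonneg.2 ha.le) hcont.continuousOn h1
    refine ⟨s • x, ?_⟩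
    have hs' : μ (s • x) * s = 1 := hs
    show μ (s • x) • s • x = x
    rw [smul_smul, hs', one_smul]
  · intro y
    have hd : HasFDerivAt μ (fderiv ℝ μ y) y := (hμ.differentiable (by simp) y).hasFDerivAt
    have hD : fderiv ℝ (fun y => μ y • y) y =
        μ y • ContinuousLinearMap.id ℝ (E n) + (fderiv ℝ μ y).smulRight y :=
      (hd.smul (hasFDerivAt_id y)).fderiv
    have hnn : 0 ≤ fderiv ℝ μ y y := by
      have h1 : HasDerivAt (fun s : ℝ => Real.exp s • y) (Real.exp 0 • y) 0 :=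
        (Real.hasDerivAt_exp 0).smul_const y
      have h2 : HasFDerivAt μ (fderiv ℝ μ y) (Real.exp 0 • y) := by
        rwa [Real.exp_zero, one_smul]
      have h3 := h2.comp_hasDerivAt (0 : ℝ) h1
      rw [Real.exp_zero, one_smul] at h3
      exact h3.nonneg_of_monotone
        (fun s t hst => hm y _ _ (Real.exp_pos s) (Real.exp_le_exp.2 hst))
    rw [injective_iff_map_eq_zero]
    intro v hv
    rw [hD] at hv
    have h4 : μ y • v + fderiv ℝ μ y v • y = 0 := hv
    have h5 := congrArg (fderiv ℝ μ y) h4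
    rw [map_add, map_smul, map_smul, map_zero, smul_eq_mul, smul_eq_mul] at h5
    have h6 : fderiv ℝ μ y v * (μ y + fderiv ℝ μ y y) = 0 := by linarith
    have h7 : fderiv ℝ μ y v = 0 :=
      (mul_eq_zero.1 h6).resolve_right (add_pos_of_pos_of_nonneg (hpos y) hnn).ne'
    rw [h7, zero_smul, add_zero] at h4
    exact (smul_eq_zero.1 h4).resolve_left (hpos y).ne'

/-- Take `0 < a ≤ g θ ≤ b` on the unit sphere (if `E n` is trivial take the identity), so
`a ‖y‖ ≤ g y ≤ b ‖y‖`, and `δ > 0` with `2 δ b < 1`.  Let `χ s = Real.smoothTransition (s / δ - 1)`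
(monotone, `0` for `s ≤ δ`, `1` for `s ≥ 2 δ`), `μ y = a + χ ‖y‖ * (g y / ‖y‖ - a)` (smooth: equal to
`a` near `0`), `Ψ y = μ y • y`.  On a ray `y = s • θ` the norm of `Ψ y` is
`m s = s * (a + χ s * (g θ - a))`, continuous, strictly increasing, unbounded, so `Ψ` is bijective.
If `fderiv Ψ y v = μ y • v + (fderiv μ y v) • y = 0` then `v = c • y` and
`c * (μ y + fderiv μ y y) • y = 0`; here `fderiv μ y y` is the derivative at `s = 1` of the monotone
function `s ↦ μ (s • y)`, so it is `≥ 0`.  Finally `‖Ψ y‖ = g y` for `‖y‖ ≥ 2 δ` and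
`‖Ψ y‖ ≤ g y < 1` for `‖y‖ < 2 δ`. -/
theorem exists_radial {g : E n → ℝ} (hc : Continuous g) (hs : ContDiffOn ℝ ∞ g {0}ᶜ)
    (hh : ∀ s : ℝ, 0 ≤ s → ∀ y, g (s • y) = s * g y) (hp : ∀ y, y ≠ 0 → 0 < g y) :
    ∃ Φ Ψ : E n → E n, ContDiff ℝ ∞ Φ ∧ ContDiff ℝ ∞ Ψ ∧ (∀ x, Ψ (Φ x) = x) ∧
      (∀ y, Φ (Ψ y) = y) ∧ (∀ y, ‖Ψ y‖ < 1 ↔ g y < 1) ∧ (∀ y, ‖Ψ y‖ ≤ 1 ↔ g y ≤ 1) := by
  obtain ⟨a, b, ha, hb, hab⟩ := tdiffeo_bounds hc hh hp
  let χ : E n → ℝ := fun y => Real.smoothTransition (2 * b * ‖y‖ - 1)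
  let μ : E n → ℝ := fun y => a + χ y * (g y / ‖y‖ - a)
  have χ0 : χ 0 = 0 := Real.smoothTransition.zero_of_nonpos (by simp)
  have hq : ∀ y, y ≠ 0 → 0 ≤ g y / ‖y‖ - a := by
    intro y hy
    rw [sub_nonneg, le_div_iff₀ (norm_pos_iff.2 hy)]
    exact (hab y).1
  have hl : ∀ y, a ≤ μ y := by
    intro y
    by_cases hy : y = 0
    · show a ≤ a + χ y * (g y / ‖y‖ - a)
      rw [hy, χ0, zero_mul, add_zero]
    · exact le_add_of_nonneg_right (mul_nonneg (Real.smoothTransition.nonneg _) (hq y hy))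
  have hμ : ContDiff ℝ ∞ μ := by
    rw [contDiff_iff_contDiffAt]
    intro y
    by_cases hy : y = 0
    · have h1 : ∀ᶠ z in 𝓝 y, 2 * b * ‖z‖ - 1 < 0 := by
        have h2 : Continuous fun z : E n => 2 * b * ‖z‖ - 1 := by fun_prop
        refine h2.continuousAt.eventually_lt continuousAt_const ?_
        rw [hy]
        simp
      refine (contDiffAt_const (c := a)).congr_of_eventuallyEq ?_
      filter_upwards [h1] with z hz
      show a + Real.smoothTransition (2 * b * ‖z‖ - 1) * (g z / ‖z‖ - a) = a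
      rw [Real.smoothTransition.zero_of_nonpos hz.le, zero_mul, add_zero]
    · have h1 : ContDiffAt ℝ ∞ (fun z : E n => ‖z‖) y := contDiffAt_norm ℝ hy
      have h2 : ContDiffAt ℝ ∞ g y := hs.contDiffAt (isOpen_compl_singleton.mem_nhds hy)
      have h3 : ContDiffAt ℝ ∞ χ y :=
        Real.smoothTransition.contDiffAt.comp y ((contDiffAt_const.mul h1).sub contDiffAt_const)
      exact contDiffAt_const.add
        (h3.mul ((h2.div h1 (norm_ne_zero_iff.2 hy)).sub contDiffAt_const))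
  have hm : ∀ (y : E n) (s t : ℝ), 0 < s → s ≤ t → μ (s • y) ≤ μ (t • y) := by
    intro y s t hs0 hst
    by_cases hy : y = 0
    · rw [hy, smul_zero, smul_zero]
    · have hn : 0 < ‖y‖ := norm_pos_iff.2 hy
      have e : ∀ r : ℝ, 0 < r →
          μ (r • y) = a + Real.smoothTransition (2 * b * (r * ‖y‖) - 1) * (g y / ‖y‖ - a) := by
        intro r hr
        show a + Real.smoothTransition (2 * b * ‖r • y‖ - 1) * (g (r • y) / ‖r • y‖ - a) = _
        rw [hh r hr.le, norm_smul, Real.norm_of_nonneg hr.le, mul_div_mul_left _ _ hr.ne']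
      rw [e s hs0, e t (hs0.trans_le hst)]
      refine add_le_add_right (mul_le_mul_of_nonneg_right
        (Real.smoothTransition.monotone ?_) (hq y hy)) a
      gcongr
  obtain ⟨Φ, h1, h2, h3⟩ := tdiffeo_radial ha hμ hl hm
  have hn : ∀ y, ‖μ y • y‖ = a * ‖y‖ + χ y * (g y - a * ‖y‖) := by
    intro y
    rw [norm_smul, Real.norm_of_nonneg (ha.le.trans (hl y))]
    by_cases hy : y = 0
    · rw [hy, χ0, norm_zero]
      ring
    · have h4 : ‖y‖ ≠ 0 := norm_ne_zero_iff.2 hy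
      show (a + χ y * (g y / ‖y‖ - a)) * ‖y‖ = _
      field_simp
  have hcase : ∀ y, ‖μ y • y‖ = g y ∨ (‖μ y • y‖ < 1 ∧ g y < 1) := by
    intro y
    rcases le_or_gt 1 (b * ‖y‖) with h4 | h4
    · left
      have h5 : χ y = 1 := Real.smoothTransition.one_of_one_le (by linarith)
      rw [hn, h5]
      ring
    · right
      have h5 : g y < 1 := (hab y).2.trans_lt h4
      have h6 : χ y * (g y - a * ‖y‖) ≤ 1 * (g y - a * ‖y‖) :=
        mul_le_mul_of_nonneg_right (Real.smoothTransition.le_one _) (sub_nonneg.2 (hab y).1)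
      rw [hn]
      exact ⟨by linarith, h5⟩
  refine ⟨Φ, fun y => μ y • y, h1, hμ.smul contDiff_id, h2, h3, fun y => ?_, fun y => ?_⟩
  · rcases hcase y with h4 | h4
    · rw [h4]
    · exact iff_of_true h4.1 h4.2
  · rcases hcase y with h4 | h4
    · rw [h4]
    · exact iff_of_true h4.1.le h4.2.le

end Pool.Agent.Mink.T
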