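import Pool.Agent.Lib.MP_88c759_an.Mink.TGauge
import Pool.Agent.Lib.MP_88c759_an.Mink.TDiffeo

/-! The chart and the extension of the boundary values. -/

set_option maxSynthPendingDepth 3

namespace Pool.Agent.Mink.T

open scoped ContDiff Topology
open Set Filter

variable {n : ℕ}

/-- `exists_gauge`, `exists_radial` and the translation by `c`; `frontier Ω = closure Ω \ Ω`. -/
theorem exists_chart {Ω : Set (E n)} (hΩ : Nice Ω)
    (hs : ∀ x₀ ∈ frontier Ω, ∃ ρ, Q.IsDefining Ω x₀ ρ) : ∃ Φ Ψ, Chart Ω Φ Ψ := by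
  obtain ⟨c, hc⟩ := hΩ.ne
  obtain ⟨g, g1, g2, g3, g4, g5, g6⟩ := exists_gauge hΩ hs hc
  obtain ⟨Φ, Ψ, hΦ, hΨ, li, ri, h1, h2⟩ := exists_radial g1 g2 g3 g4
  have hop : ∀ y, y ∈ Ω ↔ Ψ (y - c) ∈ oB n := by
    intro y
    rw [oB, mem_ball_zero_iff, h1, ← g5, add_sub_cancel]
  have hcl : ∀ y, y ∈ closure Ω ↔ Ψ (y - c) ∈ cB n := by
    intro y
    rw [cB, mem_closedBall_zero_iff, h2, ← g6, add_sub_cancel]
  refine ⟨fun x => c + Φ x, fun y => Ψ (y - c), contDiff_const.add hΦ,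
    hΨ.comp (contDiff_id.sub contDiff_const), fun x => ?_, fun y => ?_, hop, hcl, fun y => ?_⟩
  · simp only [add_sub_cancel_left, li]
  · simp only [ri, add_sub_cancel]
  · rw [hΩ.op.frontier_eq, mem_diff, hop, hcl, oB, cB, sB, mem_ball_zero_iff,
      mem_closedBall_zero_iff, mem_sphere_zero_iff_norm, not_lt]
    exact ⟨fun h => le_antisymm h.1 h.2, fun h => ⟨h.le, h.ge⟩⟩

/-- Only the boundary values matter: with `β = Real.smoothTransition (4 * ‖x‖ ^ 2 - 1)`-like cutoff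
(`0` near `0`, `1` on the unit sphere) take `φ₁ y = β (Ψ y) * φ (Φ (‖Ψ y‖⁻¹ • Ψ y))`.  On
`{y | Ψ y ≠ 0}` (open) the second factor is `ContDiffOn 4` by `ContDiffOn.comp` (the inner map is
smooth there and has values in `closure Ω`); near `Φ 0` the function vanishes. -/
theorem exists_phi {Ω : Set (E n)} {Φ Ψ : E n → E n} (h : Chart Ω Φ Ψ) {φ : E n → ℝ}
    (hφ : ContDiffOn ℝ 4 φ (closure Ω)) :
    ∃ φ₁ : E n → ℝ, ContDiff ℝ 4 φ₁ ∧ ∀ x ∈ frontier Ω, φ₁ x = φ x := by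
  have h4 : (4 : WithTop ℕ∞) ≤ ∞ := by norm_cast
  have hΨ : ContDiff ℝ 4 Ψ := h.sG.of_le h4
  have hΦ : ContDiff ℝ 4 Φ := h.sF.of_le h4
  have hq : ContDiff ℝ 4 (fun y => 2 * ‖Ψ y‖ ^ 2 - 1) :=
    (contDiff_const.mul (hΨ.norm_sq ℝ)).sub contDiff_const
  have hβ : ContDiff ℝ 4 (fun y => Real.smoothTransition (2 * ‖Ψ y‖ ^ 2 - 1)) :=
    Real.smoothTransition.contDiff.comp hq
  have hO : IsOpen {y | Ψ y ≠ 0} := isOpen_ne_fun hΨ.continuous continuous_const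
  have hm : ContDiffOn ℝ 4 (fun y => Φ (‖Ψ y‖⁻¹ • Ψ y)) {y | Ψ y ≠ 0} := by
    intro y hy
    refine ContDiffAt.contDiffWithinAt (hΦ.contDiffAt.comp y ?_)
    exact ((hΨ.contDiffAt.norm ℝ hy).inv (norm_ne_zero_iff.2 hy)).smul hΨ.contDiffAt
  have hmaps : MapsTo (fun y => Φ (‖Ψ y‖⁻¹ • Ψ y)) {y | Ψ y ≠ 0} (closure Ω) := by
    intro y hy
    rw [h.cl, h.li, cB, mem_closedBall_zero_iff, norm_smul, norm_inv, norm_norm,
      inv_mul_cancel₀ (norm_ne_zero_iff.2 hy)]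
  have hc := hφ.comp hm hmaps
  refine ⟨fun y => Real.smoothTransition (2 * ‖Ψ y‖ ^ 2 - 1) * φ (Φ (‖Ψ y‖⁻¹ • Ψ y)),
    contDiff_iff_contDiffAt.2 fun y => ?_, fun x hx => ?_⟩
  · by_cases hy : Ψ y = 0
    · have h0 : ∀ᶠ z in 𝓝 y, 2 * ‖Ψ z‖ ^ 2 - 1 < 0 :=
        hq.continuous.continuousAt.eventually_lt continuousAt_const (by simp [hy])
      refine (contDiffAt_const (c := (0 : ℝ))).congr_of_eventuallyEq ?_
      filter_upwards [h0] with z hz
      rw [Real.smoothTransition.zero_of_nonpos hz.le, zero_mul]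
    · exact hβ.contDiffAt.mul (hc.contDiffAt (hO.mem_nhds hy))
  · have h1 : ‖Ψ x‖ = 1 := by
      have h2 := (h.fr x).1 hx
      rwa [sB, mem_sphere_zero_iff_norm] at h2
    simp only [h1, inv_one, one_smul, h.ri]
    rw [Real.smoothTransition.one_of_one_le (by norm_num), one_mul]

end Pool.Agent.Mink.T
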