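import Pool.Agent.Lib.MP_88c759_an.Mink.TMax

/-! The comparison principle. -/

set_option maxSynthPendingDepth 3

namespace Pool.Agent.Mink.T

open scoped ContDiff Topology
open Set Filter

variable {n : ℕ}

/-- tangent line inequality for a concave function -/
lemma tcmp_tangent {V : Type} [NormedAddCommGroup V] [NormedSpace ℝ V] {C : Set V} {f : V → ℝ}
    (hf : ConcaveOn ℝ C f) {a b : V} (ha : a ∈ C) (hb : b ∈ C) {l : V →L[ℝ] ℝ}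
    (hl : HasFDerivAt f l a) : f b - f a ≤ l (b - a) := by
  have h1 : ConcaveOn ℝ (AffineMap.lineMap a b ⁻¹' C) (f ∘ AffineMap.lineMap a b) :=
    hf.comp_affineMap (AffineMap.lineMap a b)
  have h2 : HasDerivAt (AffineMap.lineMap a b : ℝ → V) (b - a) 0 :=
    AffineMap.hasDerivAt_lineMap
  have h3 : HasDerivAt (f ∘ AffineMap.lineMap a b) (l (b - a)) (0 : ℝ) := by
    refine HasFDerivAt.comp_hasDerivAt (0 : ℝ) ?_ h2
    simpa using hl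
  have h4 := h1.slope_le_of_hasDerivAt (x := (0 : ℝ)) (y := 1) (by simpa using ha)
    (by simpa using hb) zero_lt_one h3
  simpa [slope_def_field] using h4

/-- the derivative in the second order slot -/
lemma tcmp_hasF {F : ℝ × Jet n → ℝ} {t : ℝ} {r : B2 n} {p : B1 n} {z : ℝ} {y : E n}
    (h : DifferentiableAt ℝ F (t, r, p, z, y)) :
    HasFDerivAt (fun r' : B2 n => F (t, r', p, z, y)) (A.lin F (t, r, p, z, y)) r := by
  have h1 : HasFDerivAt (fun r' : B2 n => ((t, r', p, z, y) : ℝ × Jet n)) (A.ins n) r := by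
    have h2 : (fun r' : B2 n => ((t, r', p, z, y) : ℝ × Jet n)) =
        fun r' : B2 n => A.ins n r' + ((t, 0, p, z, y) : ℝ × Jet n) := by
      funext r'
      rw [A.ins_apply]
      simp
    rw [h2]
    exact (A.ins n).hasFDerivAt.add_const _
  exact h.hasFDerivAt.comp r h1

/-- the derivative in the value slot -/
lemma tcmp_hasZ {F : ℝ × Jet n → ℝ} {t : ℝ} {r : B2 n} {p : B1 n} {z : ℝ} {y : E n}
    (h : DifferentiableAt ℝ F (t, r, p, z, y)) :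
    HasDerivAt (fun z' : ℝ => F (t, r, p, z', y))
      (fderiv ℝ F (t, r, p, z, y) (0, 0, 0, 1, 0)) z := by
  have h1 : HasDerivAt (fun z' : ℝ => ((t, r, p, z', y) : ℝ × Jet n))
      ((0, 0, 0, 1, 0) : ℝ × Jet n) z :=
    (hasDerivAt_const z t).prodMk ((hasDerivAt_const z r).prodMk
      ((hasDerivAt_const z p).prodMk ((hasDerivAt_id z).prodMk (hasDerivAt_const z y))))
  exact h.hasFDerivAt.comp_hasDerivAt z h1

lemma tcmp_norm (t : ℝ) (r : B2 n) (p p' : B1 n) (z : ℝ) (y : E n) :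
    dist ((t, r, p, z, y) : ℝ × Jet n) (t, r, p', z, y) = ‖p - p'‖ := by
  rw [dist_eq_norm]
  simp [Prod.norm_def]

/-- Suppose `w = w₁ - w₂` is positive at `x₁`.  At an interior maximum `x₀` the gradients agree and
`w₁ x₀ > w₂ x₀`.  For `y` near `x₀` write `(r_i, p_i, z_i, y)` for the jets.  Then
`0 ≤ F (r₁,p₁,z₁) - F (r₂,p₂,z₂)` and
`F (r₁,p₁,z₁) - F (r₂,p₁,z₁) ≤ A.lin F (t,r₂,p₁,z₁,y) (r₁ - r₂)` (tangent line of the concave function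
`s ↦ F (r₂ + s (r₁ - r₂), p₁, z₁)`; `(t,r₂,p₁,z₂,y) ∈ A` for `y` near `x₀` since `A` is open, then `hz`),
`F (r₂,p₁,z₁) ≤ F (r₂,p₁,z₂)` (`mono`, `hz`, `antitone_of_deriv_nonpos`),
`F (r₂,p₁,z₂) - F (r₂,p₂,z₂) ≤ C ‖p₁ - p₂‖` (`F` is Lipschitz near the jet of `w₂` at `x₀`,
`ContDiffAt.exists_lipschitzOnWith`).  Use `ell_near` at `(t,r₂,p₁,z₁,x₀)` and `no_interior_max`. -/
theorem comparison (hn : 0 < n) {Ω : Set (E n)} (hΩ : Nice Ω) {A₀ : Set (ℝ × Jet n)}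
    {F : ℝ × Jet n → ℝ} (hF : FamOn (closure Ω) A₀ F) {t : ℝ} (ht : t ∈ Icc (0:ℝ) 1)
    (hz : ∀ (r : B2 n) (p : B1 n) (z z' : ℝ), ∀ x ∈ closure Ω,
      (t, r, p, z, x) ∈ A₀ → (t, r, p, z', x) ∈ A₀)
    {w₁ w₂ : E n → ℝ} (h₁ : ContDiffOn ℝ 2 w₁ (closure Ω)) (h₂ : ContDiffOn ℝ 2 w₂ (closure Ω))
    (hs₁ : ∀ x ∈ Ω, (t, jet (closure Ω) w₁ x) ∈ A₀ ∧ 0 ≤ F (t, jet (closure Ω) w₁ x))
    (hs₂ : ∀ x ∈ Ω, (t, jet (closure Ω) w₂ x) ∈ A₀ ∧ F (t, jet (closure Ω) w₂ x) ≤ 0)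
    (hb : ∀ x ∈ frontier Ω, w₁ x ≤ w₂ x) : ∀ x ∈ closure Ω, w₁ x ≤ w₂ x := by
  by_contra hcon
  push Not at hcon
  obtain ⟨x₁, hx₁, hlt⟩ := hcon
  have hat₁ : ∀ x ∈ Ω, ContDiffAt ℝ 2 w₁ x := fun x hx => h₁.contDiffAt (hΩ.nhds hx)
  have hat₂ : ∀ x ∈ Ω, ContDiffAt ℝ 2 w₂ x := fun x hx => h₂.contDiffAt (hΩ.nhds hx)
  have hdiff : ∀ q ∈ A₀, DifferentiableAt ℝ F q := fun q hq =>
    (hF.smooth.contDiffAt (hF.isOpen.mem_nhds hq)).differentiableAt (by simp)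
  have hfd : ∀ y ∈ Ω, fderiv ℝ (fun y => w₁ y - w₂ y) y =
      D1 (closure Ω) w₁ y - D1 (closure Ω) w₂ y := by
    intro y hy
    rw [D1_int (hΩ.nhds hy), D1_int (hΩ.nhds hy)]
    exact fderiv_fun_sub ((hat₁ y hy).differentiableAt (by norm_num))
      ((hat₂ y hy).differentiableAt (by norm_num))
  have hdd : ∀ y ∈ Ω, A.DD (fun y => w₁ y - w₂ y) y =
      D2 (closure Ω) w₁ y - D2 (closure Ω) w₂ y := by
    intro y hy
    rw [D2_int (hΩ.nhds hy), D2_int (hΩ.nhds hy)]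
    exact A.DD_sub (hat₁ y hy) (hat₂ y hy)
  refine no_interior_max hn hΩ (w := fun y => w₁ y - w₂ y)
    (h₁.continuousOn.sub h₂.continuousOn) (fun x hx => (hat₁ x hx).sub (hat₂ x hx)) hx₁
    (fun x hx => by have := hb x hx; linarith) ?_
  intro x₀ hx₀ hmax
  have hS₀ : closure Ω ∈ 𝓝 x₀ := hΩ.nhds hx₀
  have hc₀ : x₀ ∈ closure Ω := subset_closure hx₀
  have hpos : w₂ x₀ < w₁ x₀ := by
    have : w₁ x₁ - w₂ x₁ ≤ w₁ x₀ - w₂ x₀ := hmax hx₁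
    linarith
  have hp : D1 (closure Ω) w₁ x₀ = D1 (closure Ω) w₂ x₀ := by
    have h0 := (hmax.isLocalMax hS₀).fderiv_eq_zero
    rw [hfd x₀ hx₀] at h0
    exact sub_eq_zero.1 h0
  have cr₂ : ContinuousAt (D2 (closure Ω) w₂) x₀ := (cont_D2 hΩ.ud h₂).continuousAt hS₀
  have cp₁ : ContinuousAt (D1 (closure Ω) w₁) x₀ := (cont_D1 hΩ.ud h₁).continuousAt hS₀
  have cz₁ : ContinuousAt w₁ x₀ := (hat₁ x₀ hx₀).continuousAt
  have cz₂ : ContinuousAt w₂ x₀ := (hat₂ x₀ hx₀).continuousAt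
  have hj₀ : ((t, D2 (closure Ω) w₂ x₀, D1 (closure Ω) w₁ x₀, w₂ x₀, x₀) : ℝ × Jet n) ∈ A₀ := by
    rw [hp]; exact (hs₂ x₀ hx₀).1
  have hq₀ : ((t, D2 (closure Ω) w₂ x₀, D1 (closure Ω) w₁ x₀, w₁ x₀, x₀) : ℝ × Jet n) ∈ A₀ :=
    hz _ _ _ _ _ hc₀ hj₀
  have hsym₁ : ∀ y ∈ Ω, Sym (D2 (closure Ω) w₁ y) := fun y hy =>
    sym_D2 hΩ.ud h₁ (subset_closure hy) (hΩ.cl_int (subset_closure hy))
  have hsym₂ : ∀ y ∈ Ω, Sym (D2 (closure Ω) w₂ y) := fun y hy =>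
    sym_D2 hΩ.ud h₂ (subset_closure hy) (hΩ.cl_int (subset_closure hy))
  obtain ⟨lam, Lam, hlam, hell⟩ := ell_near hF.isOpen hF.smooth hq₀
    (hF.ell t ht _ _ _ _ hc₀ (hsym₂ x₀ hx₀) hq₀)
  have hcd : ContDiffAt ℝ 1 F
      ((t, D2 (closure Ω) w₂ x₀, D1 (closure Ω) w₁ x₀, w₂ x₀, x₀) : ℝ × Jet n) :=
    (hF.smooth.contDiffAt (hF.isOpen.mem_nhds hj₀)).of_le (by simp)
  obtain ⟨K, U, hU, hK⟩ := hcd.exists_lipschitzOnWith
  have cQ : ContinuousAt (fun y => ((t, D2 (closure Ω) w₂ y, D1 (closure Ω) w₁ y, w₁ y, y) :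
      ℝ × Jet n)) x₀ :=
    continuousAt_const.prodMk (cr₂.prodMk (cp₁.prodMk (cz₁.prodMk continuousAt_id)))
  have cP : ContinuousAt (fun y => ((t, D2 (closure Ω) w₂ y, D1 (closure Ω) w₁ y, w₂ y, y) :
      ℝ × Jet n)) x₀ :=
    continuousAt_const.prodMk (cr₂.prodMk (cp₁.prodMk (cz₂.prodMk continuousAt_id)))
  have cJ : ContinuousAt (fun y => ((t, jet (closure Ω) w₂ y) : ℝ × Jet n)) x₀ :=
    continuousAt_const.prodMk ((cont_jet hΩ.ud h₂).continuousAt hS₀)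
  have hU' : U ∈ 𝓝 ((t, jet (closure Ω) w₂ x₀) : ℝ × Jet n) := by
    rw [hp] at hU; exact hU
  refine ⟨lam, Lam, K, hlam, ?_⟩
  filter_upwards [cQ.eventually hell, cQ.eventually (hF.isOpen.mem_nhds hq₀), cP.eventually hU,
    cJ.eventually hU', hΩ.op.mem_nhds hx₀, cz₂.eventually_lt cz₁ hpos] with y e1 e2 e3 e4 hy e5
  have hcy : y ∈ closure Ω := subset_closure hy
  refine ⟨_, e1, ?_⟩
  rw [hfd y hy, hdd y hy]
  have a1 := tcmp_tangent (hF.conc t ht (D1 (closure Ω) w₁ y) (w₁ y) y hcy)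
    (a := D2 (closure Ω) w₂ y) (b := D2 (closure Ω) w₁ y) ⟨hsym₂ y hy, e2⟩
    ⟨hsym₁ y hy, (hs₁ y hy).1⟩ (tcmp_hasF (hdiff _ e2))
  have a2 : Antitone fun z' : ℝ => F (t, D2 (closure Ω) w₂ y, D1 (closure Ω) w₁ y, z', y) := by
    have hd := fun z' : ℝ => tcmp_hasZ (hdiff _ (hz _ _ _ z' _ hcy e2))
    refine antitone_of_deriv_nonpos (fun z' => (hd z').differentiableAt) fun z' => ?_
    rw [(hd z').deriv]
    exact hF.mono t ht _ _ _ _ hcy (hsym₂ y hy) (hz _ _ _ z' _ hcy e2)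
  have a3 := a2 e5.le
  have a4 := hK.dist_le_mul _ e3 _ e4
  have a5 : dist ((t, D2 (closure Ω) w₂ y, D1 (closure Ω) w₁ y, w₂ y, y) : ℝ × Jet n)
      (t, jet (closure Ω) w₂ y) = ‖D1 (closure Ω) w₁ y - D1 (closure Ω) w₂ y‖ :=
    tcmp_norm _ _ _ _ _ _
  rw [a5, Real.dist_eq] at a4
  have a6 := (le_abs_self _).trans a4
  have a7 := (hs₁ y hy).2
  have a8 := (hs₂ y hy).2
  have a9 : F (t, jet (closure Ω) w₁ y) =
    F (t, D2 (closure Ω) w₁ y, D1 (closure Ω) w₁ y, w₁ y, y) := rfl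
  simp only at a1 a3
  linarith

end Pool.Agent.Mink.T
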