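import Pool.Agent.Lib.MP_88c759_an.Mink.TPull
import Pool.Agent.Lib.MP_88c759_an.Mink.TC3
import Pool.Agent.Lib.MP_88c759_an.Mink.ATB

/-! The continuity method on a domain diffeomorphic to the ball. -/

set_option maxSynthPendingDepth 3

namespace Pool.Agent.Mink.T

open scoped ContDiff Topology
open Set Filter

variable {n : ℕ}

variable {Ω : Set (E n)} {Φ Ψ : E n → E n} {A : Set (ℝ × Jet n)} {F : ℝ × Jet n → ℝ}

theorem tcont_ud : UniqueDiffOn ℝ (cB n) :=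
  uniqueDiffOn_convex (convex_closedBall 0 1)
    ⟨0, mem_interior_iff_mem_nhds.2 (Metric.closedBall_mem_nhds 0 one_pos)⟩

theorem tcont_mG (h : Chart Ω Φ Ψ) : MapsTo Ψ (closure Ω) (cB n) := fun y hy => (h.cl y).1 hy

theorem tcont_mF (h : Chart Ω Φ Ψ) : MapsTo Φ (cB n) (closure Ω) := fun x hx =>
  (h.cl (Φ x)).2 (by rwa [h.li])

theorem tcont_le2 : (2 : WithTop ℕ∞) ≤ ∞ := ENat.LEInfty.out

theorem tcont_le3 : (3 : WithTop ℕ∞) ≤ ∞ := ENat.LEInfty.out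

theorem tcont_le4 : (4 : WithTop ℕ∞) ≤ ∞ := ENat.LEInfty.out

theorem tcont_jet (hΩ : Nice Ω) (h : Chart Ω Φ Ψ) {v : E n → ℝ} (hv : ContDiffOn ℝ 2 v (cB n))
    {x : E n} (hx : x ∈ cB n) : jet (closure Ω) (v ∘ Ψ) (Φ x) = TJ Φ Ψ (jet (cB n) v x) := by
  have h1 := jet_comp hΩ.ud tcont_ud h.sG (tcont_mG h) hv (tcont_mF h hx) (h.ri (Φ x))
  rwa [h.li] at h1

/-- `jet_comp` (with `S = closure Ω`, `S' = cB n`) -/
theorem solOn_of_sol (hΩ : Nice Ω) (h : Chart Ω Φ Ψ) {t : ℝ} {φ v : E n → ℝ}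
    (hv : Sol {q | (q.1, TJ Φ Ψ q.2) ∈ A} (fun q => F (q.1, TJ Φ Ψ q.2)) t (φ ∘ Φ) v) :
    SolOn Ω A F t φ (v ∘ Ψ) := by
  have hj : ∀ y ∈ closure Ω, jet (closure Ω) (v ∘ Ψ) y = TJ Φ Ψ (jet (cB n) v (Ψ y)) :=
    fun y hy => jet_comp hΩ.ud tcont_ud h.sG (tcont_mG h) hv.c2 hy (h.ri y)
  refine ⟨hv.c2.comp (h.sG.of_le tcont_le2).contDiffOn (tcont_mG h),
    hv.c4.comp (h.sG.of_le tcont_le4).contDiffOn (fun y hy => (h.op y).1 hy),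
    fun y hy => ?_, fun y hy => ?_, fun y hy => ?_⟩
  · rw [hj y hy]
    exact hv.mem _ (tcont_mG h hy)
  · rw [hj y hy]
    exact hv.eq _ (tcont_mG h hy)
  · have h1 := hv.bd _ ((h.fr y).1 hy)
    rw [Function.comp_apply, h.ri] at h1
    exact h1

/-- apply `jet_comp` to `v = u ∘ Φ`, for which `v ∘ Ψ = u` -/
theorem sol_of_solOn (hΩ : Nice Ω) (h : Chart Ω Φ Ψ) {t : ℝ} {φ u : E n → ℝ}
    (hu : SolOn Ω A F t φ u) :
    Sol {q | (q.1, TJ Φ Ψ q.2) ∈ A} (fun q => F (q.1, TJ Φ Ψ q.2)) t (φ ∘ Φ) (u ∘ Φ) := by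
  have c2 : ContDiffOn ℝ 2 (u ∘ Φ) (cB n) :=
    hu.c2.comp (h.sF.of_le tcont_le2).contDiffOn (tcont_mF h)
  have e : (u ∘ Φ) ∘ Ψ = u := funext (fun y => by
    show u (Φ (Ψ y)) = u y
    rw [h.ri])
  have hj : ∀ x ∈ cB n, TJ Φ Ψ (jet (cB n) (u ∘ Φ) x) = jet (closure Ω) u (Φ x) := by
    intro x hx
    rw [← tcont_jet hΩ h c2 hx, e]
  refine ⟨c2, hu.c4.comp (h.sF.of_le tcont_le4).contDiffOn
    (fun x hx => (h.op (Φ x)).2 (by rwa [h.li])), fun x hx => ?_, fun x hx => ?_, fun x hx => ?_⟩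
  · show (t, TJ Φ Ψ (jet (cB n) (u ∘ Φ) x)) ∈ A
    rw [hj x hx]
    exact hu.mem _ (tcont_mF h hx)
  · show F (t, TJ Φ Ψ (jet (cB n) (u ∘ Φ) x)) = 0
    rw [hj x hx]
    exact hu.eq _ (tcont_mF h hx)
  · exact hu.bd _ ((h.fr (Φ x)).2 (by rwa [h.li]))

/-- Apply `continuity_method` with `K' = {q | (q.1, TJ Φ Ψ q.2) ∈ K} ∩ closedBall 0 R` (closed and
bounded, finite dimension), where `R` bounds `q ↦ (q.1, TJ Ψ Φ q.2)` on `K`: for a solution `v` on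
the ball, `u = v ∘ Ψ` is a solution on `Ω` and `jet (cB n) v x = TJ Ψ Φ (jet (closure Ω) u (Φ x))` by
`jet_comp` with the roles exchanged (`v = u ∘ Φ`).  Finish with `c3a_comp`. -/
theorem continuity_dom (hn : 0 < n) (hΩ : Nice Ω) (h : Chart Ω Φ Ψ) (hF : FamOn (closure Ω) A F)
    {φ₀ φ₁ : E n → ℝ} (h₀ : ContDiff ℝ 4 φ₀) (h₁ : ContDiff ℝ 4 φ₁)
    {K : Set (ℝ × Jet n)} (hK : IsCompact K) (hKA : K ⊆ A)
    (hap : ∀ t ∈ Icc (0:ℝ) 1, ∀ u : E n → ℝ, SolOn Ω A F t (mix t φ₀ φ₁) u →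
      ∀ x ∈ closure Ω, (t, jet (closure Ω) u x) ∈ K)
    {u₀ : E n → ℝ} (hu₀ : SolOn Ω A F 0 φ₀ u₀) (hu₀3 : ContDiffOn ℝ 3 u₀ (closure Ω)) :
    ∃ u : E n → ℝ, SolOn Ω A F 1 φ₁ u ∧ ∀ α : ℝ, 0 < α → α < 1 → C3a (closure Ω) α u := by
  have c1 : Continuous fun q : ℝ × Jet n => (q.1, TJ Φ Ψ q.2) :=
    continuous_fst.prodMk ((contDiff_TJ h.sF h.sG).continuous.comp continuous_snd)
  have c2 : Continuous fun q : ℝ × Jet n => (q.1, TJ Ψ Φ q.2) :=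
    continuous_fst.prodMk ((contDiff_TJ h.sG h.sF).continuous.comp continuous_snd)
  have hK' : IsCompact ((fun q : ℝ × Jet n => (q.1, TJ Ψ Φ q.2)) '' K ∩
      (fun q : ℝ × Jet n => (q.1, TJ Φ Ψ q.2)) ⁻¹' K) :=
    (hK.image c2).inter_right (hK.isClosed.preimage c1)
  obtain ⟨v, hv, hv3⟩ := continuity_method hn (fam_of_famOn h hF)
    (h₀.comp (h.sF.of_le tcont_le4)) (h₁.comp (h.sF.of_le tcont_le4)) hK'
    (fun q hq => hKA hq.2)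
    (fun t ht v hv x hx => by
      have hu : SolOn Ω A F t (mix t φ₀ φ₁) (v ∘ Ψ) := solOn_of_sol hΩ h hv
      have h1 := hap t ht _ hu _ (tcont_mF h hx)
      have e : (v ∘ Ψ) ∘ Φ = v := funext (fun y => by
        show v (Ψ (Φ y)) = v y
        rw [h.li])
      refine ⟨⟨_, h1, ?_⟩, ?_⟩
      · have h2 := jet_comp tcont_ud hΩ.ud h.sF (tcont_mF h) hu.c2 hx (h.li x)
        rw [e] at h2
        rw [h2]
      · show (t, TJ Φ Ψ (jet (cB n) v x)) ∈ K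
        rw [← tcont_jet hΩ h hv.c2 hx]
        exact h1)
    (sol_of_solOn hΩ h hu₀) (hu₀3.comp (h.sF.of_le tcont_le3).contDiffOn (tcont_mF h))
  exact ⟨v ∘ Ψ, solOn_of_sol hΩ h hv, fun α h0 h1 => c3a_comp hΩ.ud tcont_ud hΩ.compact
    (isCompact_closedBall 0 1) (convex_closedBall 0 1) h.sG (tcont_mG h) h0 h1 (hv3 α h0 h1)⟩

end Pool.Agent.Mink.T
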