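import Pool.Agent.Lib.MP_88c759_an.Mink.Iface
import Pool.Agent.Lib.MP_88c759_an.Mink.Stmt

/-! Definitions for the transfer part. -/

set_option maxSynthPendingDepth 3

namespace Pool.Agent.Mink.T

open scoped ContDiff Topology
open Set

variable {n : ℕ}

/-- open, convex, nonempty, bounded -/
structure Nice (Ω : Set (E n)) : Prop where
  op : IsOpen Ω
  conv : Convex ℝ Ω
  ne : Ω.Nonempty
  bdd : Bornology.IsBounded Ω

/-- a global diffeomorphism `Ψ` (inverse `Φ`) that maps `Ω` to the unit ball -/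
structure Chart (Ω : Set (E n)) (Φ Ψ : E n → E n) : Prop where
  sF : ContDiff ℝ ∞ Φ
  sG : ContDiff ℝ ∞ Ψ
  li : ∀ x, Ψ (Φ x) = x
  ri : ∀ y, Φ (Ψ y) = y
  op : ∀ y, y ∈ Ω ↔ Ψ y ∈ oB n
  cl : ∀ y, y ∈ closure Ω ↔ Ψ y ∈ cB n
  fr : ∀ y, y ∈ frontier Ω ↔ Ψ y ∈ sB n

/-- pull back of a bilinear form by a linear map -/
noncomputable def pull (L : E n →L[ℝ] E n) (r : B2 n) : B2 n := r.bilinearComp L L

/-- the bilinear form `(a, b) ↦ p (H a b)` -/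
noncomputable def post (p : B1 n) (H : E n →L[ℝ] E n →L[ℝ] E n) : B2 n :=
  (ContinuousLinearMap.compL ℝ (E n) (E n) ℝ p).comp H

/-- the jet of `v ∘ Ψ` at `Φ x` in terms of the jet of `v` at `x` -/
noncomputable def TJ (Φ Ψ : E n → E n) (J : Jet n) : Jet n :=
  (pull (fderiv ℝ Ψ (Φ J.2.2.2)) J.1 + post J.2.1 (fderiv ℝ (fderiv ℝ Ψ) (Φ J.2.2.2)),
    J.2.1.comp (fderiv ℝ Ψ (Φ J.2.2.2)), J.2.2.1, Φ J.2.2.2)

/-- `Fam` with base points in `S` -/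
structure FamOn (S : Set (E n)) (A : Set (ℝ × Jet n)) (F : ℝ × Jet n → ℝ) : Prop where
  isOpen : IsOpen A
  smooth : ContDiffOn ℝ ∞ F A
  conc : ∀ t ∈ Icc (0:ℝ) 1, ∀ (p : B1 n) (z : ℝ), ∀ x ∈ S,
    ConcaveOn ℝ {r : B2 n | Sym r ∧ (t, r, p, z, x) ∈ A} (fun r => F (t, r, p, z, x))
  ell : ∀ t ∈ Icc (0:ℝ) 1, ∀ (r : B2 n) (p : B1 n) (z : ℝ), ∀ x ∈ S, Sym r →
    (t, r, p, z, x) ∈ A → ∀ m : B2 n, Psd m → m ≠ 0 →
      0 < fderiv ℝ F (t, r, p, z, x) (0, m, 0, 0, 0)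
  mono : ∀ t ∈ Icc (0:ℝ) 1, ∀ (r : B2 n) (p : B1 n) (z : ℝ), ∀ x ∈ S, Sym r →
    (t, r, p, z, x) ∈ A → fderiv ℝ F (t, r, p, z, x) (0, 0, 0, 1, 0) ≤ 0

/-- `Sol` on `closure Ω` -/
structure SolOn (Ω : Set (E n)) (A : Set (ℝ × Jet n)) (F : ℝ × Jet n → ℝ) (t : ℝ)
    (φ u : E n → ℝ) : Prop where
  c2 : ContDiffOn ℝ 2 u (closure Ω)
  c4 : ContDiffOn ℝ 4 u Ω
  mem : ∀ x ∈ closure Ω, (t, jet (closure Ω) u x) ∈ A
  eq : ∀ x ∈ closure Ω, F (t, jet (closure Ω) u x) = 0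
  bd : ∀ x ∈ frontier Ω, u x = φ x

/-- convex combination of two functions -/
def mix (t : ℝ) (f g : E n → ℝ) : E n → ℝ := fun x => (1 - t) * f x + t * g x

/-- admissible jets for the family with right hand side `χ` -/
def AA (k : ℕ) (V : Set (B1 n × ℝ × E n)) (χ : ℝ × B1 n × ℝ × E n → ℝ) : Set (ℝ × Jet n) :=
  {q | C.Adm k q.2.2.1 q.2.1 ∧ q.2.2 ∈ V ∧ 0 < χ (q.1, q.2.2)}

/-- the equation `log σ_k - log χ = 0` -/
noncomputable def GG (k : ℕ) (χ : ℝ × B1 n × ℝ × E n → ℝ) (q : ℝ × Jet n) : ℝ :=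
  Real.log (C.SS k q.2.2.1 q.2.1) - Real.log (χ (q.1, q.2.2))

/-- a family of right hand sides -/
structure RHS (Ω : Set (E n)) (V : Set (B1 n × ℝ × E n)) (χ : ℝ × B1 n × ℝ × E n → ℝ) :
    Prop where
  op : IsOpen V
  sub : ∀ q : B1 n × ℝ × E n, ‖q.1‖ ≤ 1 → q.2.2 ∈ closure Ω → q ∈ V
  smooth : ContDiffOn ℝ ∞ χ (univ ×ˢ V)
  pos : ∀ t ∈ Icc (0:ℝ) 1, ∀ q : B1 n × ℝ × E n, ‖q.1‖ ≤ 1 → q.2.2 ∈ closure Ω → 0 < χ (t, q)
  mono : ∀ t ∈ Icc (0:ℝ) 1, ∀ q : B1 n × ℝ × E n, ‖q.1‖ ≤ 1 → q.2.2 ∈ closure Ω →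
    0 ≤ fderiv ℝ χ (t, q) (0, 0, 1, 0)

/-- `mix t v₀ ub` is a family of subsolutions that starts at a smooth solution -/
structure Path (k : ℕ) (Ω : Set (E n)) (χ : ℝ × B1 n × ℝ × E n → ℝ) (v₀ ub : E n → ℝ) :
    Prop where
  v0 : ContDiff ℝ ∞ v₀
  ubc : ContDiffOn ℝ 2 ub (closure Ω)
  adm : ∀ t ∈ Icc (0:ℝ) 1, ∀ x ∈ closure Ω,
    C.Adm k (D1 (closure Ω) (mix t v₀ ub) x) (D2 (closure Ω) (mix t v₀ ub) x)
  sub : ∀ t ∈ Icc (0:ℝ) 1, ∀ x ∈ closure Ω,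
    χ (t, D1 (closure Ω) (mix t v₀ ub) x, mix t v₀ ub x, x) ≤
      C.SS k (D1 (closure Ω) (mix t v₀ ub) x) (D2 (closure Ω) (mix t v₀ ub) x)
  start : ∀ x ∈ closure Ω, C.SS k (D1 (closure Ω) v₀ x) (D2 (closure Ω) v₀ x) =
    χ (0, D1 (closure Ω) v₀ x, v₀ x, x)

lemma pull_apply (L : E n →L[ℝ] E n) (r : B2 n) (a b : E n) : pull L r a b = r (L a) (L b) := rfl

lemma post_apply (p : B1 n) (H : E n →L[ℝ] E n →L[ℝ] E n) (a b : E n) :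
    post p H a b = p (H a b) := rfl

namespace Nice

variable {Ω : Set (E n)}

lemma nhds (h : Nice Ω) {x : E n} (hx : x ∈ Ω) : closure Ω ∈ 𝓝 x :=
  Filter.mem_of_superset (h.op.mem_nhds hx) subset_closure

lemma sub_interior (h : Nice Ω) : Ω ⊆ interior (closure Ω) :=
  fun _ hx => mem_interior_iff_mem_nhds.2 (h.nhds hx)

lemma convex_cl (h : Nice Ω) : Convex ℝ (closure Ω) := h.conv.closure

lemma ud (h : Nice Ω) : UniqueDiffOn ℝ (closure Ω) :=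
  uniqueDiffOn_convex h.convex_cl (h.ne.mono h.sub_interior)

lemma compact (h : Nice Ω) : IsCompact (closure Ω) := h.bdd.isCompact_closure

lemma cl_int (h : Nice Ω) : closure Ω ⊆ closure (interior (closure Ω)) :=
  closure_mono h.sub_interior

lemma fr_sub (_h : Nice Ω) : frontier Ω ⊆ closure Ω := frontier_subset_closure

lemma mem_or (h : Nice Ω) {x : E n} (hx : x ∈ closure Ω) : x ∈ Ω ∨ x ∈ frontier Ω := by
  by_cases h1 : x ∈ Ω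
  · exact Or.inl h1
  · exact Or.inr ⟨hx, by rwa [h.op.interior_eq]⟩

end Nice

lemma nice_of_dom {k : ℕ} {Ω : Set (E n)} {ρ : E n → ℝ} (h : Dom k Ω ρ) : Nice Ω :=
  ⟨by
    have : Ω = {x | ρ x < 0} := Set.ext h.mem
    rw [this]; exact isOpen_lt h.smooth.continuous continuous_const, h.conv, h.ne, h.bdd⟩

end Pool.Agent.Mink.T
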