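import Pool.Agent.Lib.MP_88c759_an.Mink.TGauge
import Pool.Agent.Lib.MP_88c759_an.Mink.CJ

/-! The global defining function. -/

set_option maxSynthPendingDepth 3

namespace Pool.Agent.Mink.T

open scoped ContDiff Topology
open Set Filter

variable {n : ℕ}

variable {Ω : Set (E n)} {x₀ : E n}

lemma tdom_neg_right {f : ℝ → ℝ} {b : ℝ} (h : HasDerivAt f b 0) (h0 : f 0 = 0) (hb : b < 0) :
    ∀ᶠ t in 𝓝[>] (0:ℝ), f t < 0 := by
  have h1 := (hasDerivAt_iff_tendsto_slope.1 h).mono_left (nhdsGT_le_nhdsNE 0)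
  filter_upwards [h1.eventually (gt_mem_nhds hb), self_mem_nhdsWithin] with t ht ht0
  rw [slope_def_field, h0, sub_zero, sub_zero] at ht
  have h2 : (0:ℝ) < t := ht0
  have h3 := mul_neg_of_neg_of_pos ht h2
  rwa [div_mul_cancel₀ _ h2.ne'] at h3

lemma tdom_nonpos {f : ℝ → ℝ} {b : ℝ} (h : HasDerivAt f b 0) (h0 : f 0 = 0)
    (hf : ∀ᶠ t in 𝓝[>] (0:ℝ), f t < 0) : b ≤ 0 := by
  by_contra hb
  have h1 := tdom_neg_right (f := fun t => -f t) h.neg (by simp [h0])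
    (neg_lt_zero.2 (not_le.1 hb))
  obtain ⟨t, h2, h3⟩ := (hf.and h1).exists
  linarith

lemma tdom_neg_two {f : ℝ → ℝ} {c : ℝ} (h : C.J2 f 0 0 c) (hc : c < 0) :
    ∀ᶠ t in 𝓝 (0:ℝ), t ≠ 0 → f t < 0 := by
  obtain ⟨g', h1, h2, h3, h4⟩ := h.sub (C.J2.poly (0:ℝ) 0 (c / 2))
  have h5 : deriv (fun t : ℝ => f t - (0 + t • (0:ℝ) + (t ^ 2 / 2) • (c / 2))) =ᶠ[𝓝 0] g' :=
    h1.mono fun t ht => ht.deriv
  have h6 := isLocalMax_of_deriv_deriv_neg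
    (f := fun t : ℝ => f t - (0 + t • (0:ℝ) + (t ^ 2 / 2) • (c / 2))) (x₀ := 0)
    (by rw [h5.deriv_eq, h2.deriv]; linarith) (by rw [h5.self_of_nhds, h4, sub_zero])
    h1.self_of_nhds.continuousAt
  filter_upwards [h6] with t ht ht0
  have h7 : 0 < t ^ 2 := by positivity
  have h8 := h.val
  simp only [smul_eq_mul] at ht
  nlinarith

lemma tdom_nonpos_two {f : ℝ → ℝ} {c : ℝ} (h : C.J2 f 0 0 c)
    (hf : ∀ᶠ t in 𝓝 (0:ℝ), t ≠ 0 → f t < 0) : c ≤ 0 := by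
  refine (h.of_isLocalMax ?_).2
  filter_upwards [hf] with t ht
  by_cases h0 : t = 0
  · rw [h0]
  · rw [h.val]
    exact (ht h0).le

lemma tdom_prop {V : Type} [NormedAddCommGroup V] [NormedSpace ℝ V] {p q : V →L[ℝ] ℝ} {w : V}
    (hw : p w = 1) (hq : q ≠ 0) (h : ∀ v, p v < 0 → q v ≤ 0) : ∃ a : ℝ, 0 < a ∧ q = a • p := by
  have h1 : ∀ v, p v = 0 → q v = 0 := by
    intro v hv
    by_contra h0
    have h2 := h (((q w + 1) / q v) • v - w) (by rw [map_sub, map_smul, hv, hw]; simp)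
    rw [map_sub, map_smul, smul_eq_mul, div_mul_cancel₀ _ h0] at h2
    linarith
  have h2 : q = q w • p := by
    ext u
    have h3 := h1 (u - p u • w) (by rw [map_sub, map_smul, hw]; simp)
    rw [map_sub, map_smul, smul_eq_mul] at h3
    rw [smul_apply, smul_eq_mul]
    linarith
  have h3 : 0 ≤ q w := by
    have h4 := h (-w) (by rw [map_neg, hw]; norm_num)
    rw [map_neg] at h4
    linarith
  refine ⟨q w, lt_of_le_of_ne h3 fun e => hq ?_, h2⟩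
  rw [h2, ← e, zero_smul]

lemma tdom_one {V : Type} [NormedAddCommGroup V] [NormedSpace ℝ V] {p : V →L[ℝ] ℝ} (hp : p ≠ 0) :
    ∃ w, p w = 1 := by
  obtain ⟨u, hu⟩ := DFunLike.ne_iff.1 hp
  have h1 : p u ≠ 0 := hu
  exact ⟨(p u)⁻¹ • u, by rw [map_smul, smul_eq_mul, inv_mul_cancel₀ h1]⟩

lemma tdom_c2 {ρ : E n → ℝ} (h : Q.IsDefining Ω x₀ ρ) : ContDiffAt ℝ 2 ρ x₀ := by
  obtain ⟨U, hU, hx, hs, -⟩ := h
  exact (hs.contDiffAt (hU.mem_nhds hx)).of_le (WithTop.coe_le_coe.2 (le_top : (2 : ℕ∞) ≤ ⊤))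

lemma tdom_ne {ρ : E n → ℝ} (h : Q.IsDefining Ω x₀ ρ) : fderiv ℝ ρ x₀ ≠ 0 := by
  obtain ⟨U, -, -, -, h, -⟩ := h
  exact h

lemma tdom_mem {ρ : E n → ℝ} (h : Q.IsDefining Ω x₀ ρ) {γ : ℝ → E n} {b c : E n}
    (hγ : C.J2 γ x₀ b c) : ∀ᶠ t in 𝓝 (0:ℝ), γ t ∈ Ω ↔ ρ (γ t) < 0 := by
  obtain ⟨U, hU, hx, -, -, hm⟩ := h
  have h1 : ∀ᶠ t in 𝓝 (0:ℝ), γ t ∈ U :=
    hγ.continuousAt.preimage_mem_nhds (hU.mem_nhds (hγ.val ▸ hx))
  exact h1.mono fun t ht => hm _ ht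

lemma tdom_le (ho : IsOpen Ω) (hx : x₀ ∈ frontier Ω) {ρ₁ ρ₂ : E n → ℝ}
    (h₁ : Q.IsDefining Ω x₀ ρ₁) (h₂ : Q.IsDefining Ω x₀ ρ₂) {a : ℝ} (ha : 0 < a)
    (h : fderiv ℝ ρ₂ x₀ = a • fderiv ℝ ρ₁ x₀) {v : E n} (hv : fderiv ℝ ρ₁ x₀ v = 0) :
    fderiv ℝ (fderiv ℝ ρ₂) x₀ v v ≤ a * fderiv ℝ (fderiv ℝ ρ₁) x₀ v v := by
  obtain ⟨w, hw⟩ := tdom_one (tdom_ne h₁)
  refine le_of_forall_pos_le_add fun ε hε => ?_
  set b := -fderiv ℝ (fderiv ℝ ρ₁) x₀ v v - ε / a with hb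
  have hγ := C.J2.poly x₀ v (b • w)
  have hεa : 0 < ε / a := div_pos hε ha
  have j₁ := (C.J2.comp (tdom_c2 h₁) hγ).of_eq (defining_zero ho hx h₁) hv rfl
  have j₂ := (C.J2.comp (tdom_c2 h₂) hγ).of_eq (b' := 0) (defining_zero ho hx h₂)
    (by rw [h, smul_apply, hv, smul_zero]) rfl
  have h1 := tdom_neg_two j₁ (by rw [map_smul, hw, smul_eq_mul]; linarith)
  have h2 := tdom_nonpos_two j₂ (by
    filter_upwards [h1, tdom_mem h₁ hγ, tdom_mem h₂ hγ] with t e1 e2 e3 ht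
    exact e3.1 (e2.2 (e1 ht)))
  rw [map_smul, h, smul_apply, hw, smul_eq_mul, smul_eq_mul, hb] at h2
  have h3 : ε / a * a = ε := div_mul_cancel₀ _ ha.ne'
  nlinarith

/-- One sided comparison.  First order: if `fderiv ρ₁ x₀ v < 0` then `ρ₁ (x₀ + s • v) < 0` for small
`s > 0`, so the point is in `Ω`, so `ρ₂ < 0` there and `fderiv ρ₂ x₀ v ≤ 0`.  Two nonzero functionals
with this property are positively proportional (apply it to `± v - ε • w`, `fderiv ρ₁ x₀ w = 1`). -/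
theorem defining_first (ho : IsOpen Ω) (hx : x₀ ∈ frontier Ω) {ρ₁ ρ₂ : E n → ℝ}
    (h₁ : Q.IsDefining Ω x₀ ρ₁) (h₂ : Q.IsDefining Ω x₀ ρ₂) :
    ∃ a : ℝ, 0 < a ∧ fderiv ℝ ρ₂ x₀ = a • fderiv ℝ ρ₁ x₀ := by
  obtain ⟨w, hw⟩ := tdom_one (tdom_ne h₁)
  refine tdom_prop hw (tdom_ne h₂) fun v hv => ?_
  have hγ := C.J2.line x₀ v
  have j₁ := C.J2.comp (tdom_c2 h₁) hγ
  have j₂ := C.J2.comp (tdom_c2 h₂) hγ
  have h1 := tdom_neg_right j₁.hasDerivAt (j₁.val.trans (defining_zero ho hx h₁)) hv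
  refine tdom_nonpos j₂.hasDerivAt (j₂.val.trans (defining_zero ho hx h₂)) ?_
  filter_upwards [h1, nhdsWithin_le_nhds (tdom_mem h₁ hγ), nhdsWithin_le_nhds (tdom_mem h₂ hγ)]
    with t e1 e2 e3
  exact e3.1 (e2.2 e1)

/-- Second order: along `γ s = x₀ + s • v + (s ^ 2 * b) • w` (with `fderiv ρ₁ x₀ v = 0`,
`fderiv ρ₁ x₀ w = 1`) the function `ρ_i ∘ γ` has value `0`, derivative `0` and second derivative
`D²ρ_i v v + 2 b (fderiv ρ_i x₀ w)` at `s = 0` (`C.J2.poly`, `C.J2.comp`).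
If this is negative for `i = 1` then `ρ₁ ∘ γ < 0` for small `s ≠ 0`, so `ρ₂ ∘ γ ≤ 0` near `0` (local
maximum) and the second derivative for `i = 2` is `≤ 0`.  Let `b` increase to `- D²ρ₁ v v / 2`;
exchange the roles; polarise (both forms are symmetric). -/
theorem defining_second (ho : IsOpen Ω) (hx : x₀ ∈ frontier Ω) {ρ₁ ρ₂ : E n → ℝ}
    (h₁ : Q.IsDefining Ω x₀ ρ₁) (h₂ : Q.IsDefining Ω x₀ ρ₂) {a : ℝ} (ha : 0 < a)
    (h : fderiv ℝ ρ₂ x₀ = a • fderiv ℝ ρ₁ x₀) {v w : E n} (hv : fderiv ℝ ρ₁ x₀ v = 0)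
    (hw : fderiv ℝ ρ₁ x₀ w = 0) :
    fderiv ℝ (fderiv ℝ ρ₂) x₀ v w = a * fderiv ℝ (fderiv ℝ ρ₁) x₀ v w := by
  have h' : fderiv ℝ ρ₁ x₀ = a⁻¹ • fderiv ℝ ρ₂ x₀ := by
    rw [h, smul_smul, inv_mul_cancel₀ ha.ne', one_smul]
  have key : ∀ u, fderiv ℝ ρ₁ x₀ u = 0 →
      fderiv ℝ (fderiv ℝ ρ₂) x₀ u u = a * fderiv ℝ (fderiv ℝ ρ₁) x₀ u u := by
    intro u hu
    refine le_antisymm (tdom_le ho hx h₁ h₂ ha h hu) ?_
    have h1 := tdom_le ho hx h₂ h₁ (inv_pos.2 ha) h' (v := u)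
      (by rw [h, smul_apply, hu, smul_zero])
    have h2 := mul_le_mul_of_nonneg_left h1 ha.le
    rwa [← mul_assoc, mul_inv_cancel₀ ha.ne', one_mul] at h2
  have s₁ := ((tdom_c2 h₁).isSymmSndFDerivAt (by simp)).eq v w
  have s₂ := ((tdom_c2 h₂).isSymmSndFDerivAt (by simp)).eq v w
  have h1 := key (v + w) (by rw [map_add, hv, hw, add_zero])
  have h2 := key v hv
  have h3 := key w hw
  simp only [map_add, add_apply] at h1
  rw [← s₁, ← s₂] at h1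
  linarith

/-- If the value were negative, `x₀ ± s • v ∈ Ω` for small `s > 0`, so `x₀ ∈ Ω` by convexity. -/
theorem defining_psd (hΩ : Nice Ω) (hx : x₀ ∈ frontier Ω) {ρ : E n → ℝ}
    (h : Q.IsDefining Ω x₀ ρ) {v : E n} (hv : fderiv ℝ ρ x₀ v = 0) :
    0 ≤ fderiv ℝ (fderiv ℝ ρ) x₀ v v := by
  by_contra hc
  have hγ := C.J2.line x₀ v
  have j := (C.J2.comp (tdom_c2 h) hγ).of_eq (defining_zero hΩ.op hx h) hv rfl
  have h1 := tdom_neg_two j (by rw [map_zero, add_zero]; exact not_le.1 hc)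
  obtain ⟨ε, hε, h2⟩ := Metric.eventually_nhds_iff.1 (h1.and (tdom_mem h hγ))
  have h3 : ∀ t : ℝ, |t| = ε / 2 → x₀ + t • v ∈ Ω := by
    intro t ht
    have h4 := h2 (y := t) (by rw [Real.dist_eq, sub_zero, ht]; linarith)
    refine h4.2.2 (h4.1 fun e => ?_)
    rw [e, abs_zero] at ht
    linarith
  have h4 := hΩ.conv (h3 (ε / 2) (abs_of_pos (by linarith)))
    (h3 (-(ε / 2)) (by rw [abs_neg]; exact abs_of_pos (by linarith)))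
    (a := 1 / 2) (b := 1 / 2) (by norm_num) (by norm_num) (by norm_num)
  have h5 : (1 / 2 : ℝ) • (x₀ + (ε / 2) • v) + (1 / 2 : ℝ) • (x₀ + (-(ε / 2)) • v) = x₀ := by
    module
  rw [h5] at h4
  exact hx.2 (by rwa [hΩ.op.interior_eq])

/-- `ρ y = ‖Ψ y‖ ^ 2 - 1`.  `fderiv Ψ y` is onto because `Ψ ∘ Φ = id` (chain rule at `Ψ y`), so
`fderiv ρ y ≠ 0` where `‖Ψ y‖ = 1`; hence `ρ` is defining (with `U = univ`) at every frontier point.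
`supp`: `defining_supp`, `psd`: `defining_psd`, `adm`: `defining_first`, `defining_second`,
`iteratedFDeriv_two_apply`; `Q.InGamma` and `C.Gam Finset.univ` agree by `rfl`. -/
theorem exists_dom {k : ℕ} {Φ Ψ : E n → E n} (hΩ : Nice Ω) (h : Chart Ω Φ Ψ)
    (hadm : ∀ x₀ ∈ frontier Ω, ∃ κ, Q.IsBdryCurv Ω x₀ κ ∧ Q.InGamma (k - 1) κ) :
    ∃ ρ, Dom k Ω ρ := by
  let ρ : E n → ℝ := fun y => ‖Ψ y‖ ^ 2 - 1
  have hs : ContDiff ℝ ∞ ρ := (h.sG.norm_sq ℝ).sub contDiff_const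
  have hmem : ∀ x, x ∈ Ω ↔ ρ x < 0 := fun x => by
    rw [h.op, oB, mem_ball_zero_iff, sub_neg, sq_lt_one_iff₀ (norm_nonneg _)]
  have hcl : ∀ x, x ∈ closure Ω ↔ ρ x ≤ 0 := fun x => by
    rw [h.cl, cB, mem_closedBall_zero_iff, sub_nonpos, sq_le_one_iff₀ (norm_nonneg _)]
  have hfr : ∀ x, x ∈ frontier Ω ↔ ρ x = 0 := fun x => by
    rw [h.fr, sB, mem_sphere_zero_iff_norm, sub_eq_zero, pow_eq_one_iff_of_nonneg (norm_nonneg _)
      two_ne_zero]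
  have hgrad : ∀ x, ρ x = 0 → fderiv ℝ ρ x ≠ 0 := by
    intro x hx h0
    have h1 : HasFDerivAt ρ (0 : E n →L[ℝ] ℝ) (Φ (Ψ x)) := by
      rw [h.ri, ← h0]
      exact (hs.differentiable (by simp) x).hasFDerivAt
    have h2 := h1.comp (Ψ x) (h.sF.differentiable (by simp) (Ψ x)).hasFDerivAt
    have h3 : ρ ∘ Φ = fun y => ‖y‖ ^ 2 - 1 := by
      funext y
      simp only [ρ, Function.comp, h.li]
    rw [h3] at h2
    have h4 := ((hasStrictFDerivAt_norm_sq (Ψ x)).hasFDerivAt.sub_const 1).unique h2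
    have h5 := congrArg (fun L : E n →L[ℝ] ℝ => L (Ψ x)) h4
    have h6 : ‖Ψ x‖ ^ 2 = 1 := sub_eq_zero.1 hx
    simp [h6] at h5
  have hdef : ∀ x, ρ x = 0 → Q.IsDefining Ω x ρ := fun x hx =>
    ⟨univ, isOpen_univ, trivial, hs.contDiffOn, hgrad x hx, fun y _ => hmem y⟩
  refine ⟨ρ, hs, hmem, hcl, hfr, hgrad, hΩ.conv, hΩ.ne, hΩ.bdd,
    fun x hx => defining_supp hΩ ((hfr x).2 hx) (hdef x hx),
    fun x hx v hv => defining_psd hΩ ((hfr x).2 hx) (hdef x hx) hv, fun x hx => ?_⟩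
  obtain ⟨κ, ⟨ρ₁, h₁, e, he, he1, he2⟩, hκ⟩ := hadm x ((hfr x).2 hx)
  obtain ⟨a, ha, hρ⟩ := defining_first hΩ.op ((hfr x).2 hx) h₁ (hdef x hx)
  refine ⟨e, κ, he, fun i => ?_, fun i j => ?_, hκ⟩
  · rw [hρ, smul_apply, he1, smul_zero]
  · have h1 := he2 i j
    rw [iteratedFDeriv_two_apply, div_eq_iff (norm_ne_zero_iff.2 (tdom_ne h₁))] at h1
    rw [defining_second hΩ.op ((hfr x).2 hx) h₁ (hdef x hx) ha hρ (he1 i) (he1 j)]
    simp only [Matrix.cons_val_zero, Matrix.cons_val_one, Matrix.cons_val_fin_one] at h1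
    rw [h1]
    conv_rhs => rw [hρ, norm_smul, Real.norm_of_nonneg ha.le]
    split_ifs <;> ring

end Pool.Agent.Mink.T
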