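import Pool.Agent.Lib.MP_88c759_an.Mink.TCalc
import Pool.Agent.Lib.MP_88c759_an.Mink.ATG

/-! The family of curvature equations. -/

set_option maxSynthPendingDepth 3

namespace Pool.Agent.Mink.T

open scoped ContDiff Topology
open Set Filter

variable {n : ℕ}

variable {k : ℕ} {Ω : Set (E n)} {V : Set (B1 n × ℝ × E n)} {χ : ℝ × B1 n × ℝ × E n → ℝ}

/-- `{q | C.Adm k q.1 q.2}` is open (`contDiffOn_SS`, `ContinuousOn.isOpen_inter_preimage`, finite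
intersection over `j ∈ Finset.Icc 1 k`). -/
theorem isOpen_adm (k : ℕ) : IsOpen {q : B1 n × B2 n | C.Adm k q.1 q.2} := by
  have h0 : IsOpen {q : B1 n × B2 n | ‖q.1‖ < 1} :=
    isOpen_lt (continuous_norm.comp continuous_fst) continuous_const
  have h1 : ∀ j : ℕ, IsOpen ({q : B1 n × B2 n | ‖q.1‖ < 1} ∩
      (fun q : B1 n × B2 n => C.SS j q.1 q.2) ⁻¹' Ioi 0) := fun j =>
    (contDiffOn_SS (n := n) j).continuousOn.isOpen_inter_preimage h0 isOpen_Ioi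
  have h2 : {q : B1 n × B2 n | C.Adm k q.1 q.2} = {q : B1 n × B2 n | ‖q.1‖ < 1} ∩
      ⋂ j ∈ Finset.Icc 1 k, ({q : B1 n × B2 n | ‖q.1‖ < 1} ∩
        (fun q : B1 n × B2 n => C.SS j q.1 q.2) ⁻¹' Ioi 0) := by
    ext q
    simp only [Set.mem_ofPred_eq, mem_inter_iff, mem_iInter, Finset.mem_Icc, mem_preimage, mem_Ioi,
      C.Adm]
    constructor
    · rintro ⟨a, b⟩
      exact ⟨a, fun j hj => ⟨a, b j hj.1 hj.2⟩⟩
    · rintro ⟨a, b⟩
      exact ⟨a, fun j h1 h2 => (b j ⟨h1, h2⟩).2⟩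
  rw [h2]
  exact h0.inter (isOpen_biInter_finset fun j _ => h1 j)

/-- the projection to the pair (gradient, Hessian) -/
theorem tfam_cd1 : ContDiff ℝ ∞ (fun q : ℝ × Jet n => ((q.2.2.1, q.2.1) : B1 n × B2 n)) :=
  (contDiff_fst.comp (contDiff_snd.comp contDiff_snd)).prodMk (contDiff_fst.comp contDiff_snd)

/-- the projection that forgets the Hessian -/
theorem tfam_cd2 :
    ContDiff ℝ ∞ (fun q : ℝ × Jet n => ((q.1, q.2.2) : ℝ × B1 n × ℝ × E n)) :=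
  contDiff_fst.prodMk (contDiff_snd.comp contDiff_snd)

theorem tfam_open (h : RHS Ω V χ) : IsOpen ((univ : Set ℝ) ×ˢ V) := isOpen_univ.prod h.op

theorem isOpen_AA (h : RHS Ω V χ) : IsOpen (AA k V χ) := by
  have h1 : IsOpen (((univ : Set ℝ) ×ˢ V) ∩ χ ⁻¹' Ioi 0) :=
    h.smooth.continuousOn.isOpen_inter_preimage (tfam_open h) isOpen_Ioi
  have h2 := (isOpen_adm (n := n) k).preimage (tfam_cd1 (n := n)).continuous
  have h3 := h1.preimage (tfam_cd2 (n := n)).continuous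
  have h4 : AA k V χ = (fun q : ℝ × Jet n => ((q.2.2.1, q.2.1) : B1 n × B2 n)) ⁻¹'
      {q : B1 n × B2 n | C.Adm k q.1 q.2} ∩
      (fun q : ℝ × Jet n => ((q.1, q.2.2) : ℝ × B1 n × ℝ × E n)) ⁻¹'
        (((univ : Set ℝ) ×ˢ V) ∩ χ ⁻¹' Ioi 0) := by
    ext q
    simp only [AA, Set.mem_ofPred_eq, mem_inter_iff, mem_preimage, mem_prod, mem_univ, true_and,
      mem_Ioi]
  rw [h4]
  exact h2.inter h3

theorem tfam_aux {f : B1 n → B2 n → ℝ} {T : Set (B1 n × B2 n)} {A : Set (ℝ × Jet n)}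
    (hf : ContDiffOn ℝ ∞ (fun q : B1 n × B2 n => f q.1 q.2) T)
    (hA : ∀ q ∈ A, ((q.2.2.1, q.2.1) : B1 n × B2 n) ∈ T) :
    ContDiffOn ℝ ∞ (fun q : ℝ × Jet n => f q.2.2.1 q.2.1) A :=
  hf.comp (tfam_cd1 (n := n)).contDiffOn hA

theorem tfam_cdS (j : ℕ) :
    ContDiffOn ℝ ∞ (fun q : ℝ × Jet n => C.SS j q.2.2.1 q.2.1) (AA k V χ) :=
  tfam_aux (f := C.SS j) (contDiffOn_SS (n := n) j) (fun _ hq => hq.1.1)

theorem tfam_cdC (h : RHS Ω V χ) :
    ContDiffOn ℝ ∞ (fun q : ℝ × Jet n => χ (q.1, q.2.2)) (AA k V χ) :=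
  h.smooth.comp (tfam_cd2 (n := n)).contDiffOn (fun _ hq => ⟨mem_univ _, hq.2.1⟩)

theorem tfam_pos (hk : 1 ≤ k) {q : ℝ × Jet n} (hq : q ∈ AA k V χ) : 0 < C.SS k q.2.2.1 q.2.1 :=
  hq.1.2 k hk le_rfl

theorem contDiffOn_GG (hk : 1 ≤ k) (h : RHS Ω V χ) : ContDiffOn ℝ ∞ (GG k χ) (AA k V χ) := by
  have h1 := (tfam_cdS (V := V) (χ := χ) (k := k) k).log (fun q hq => (tfam_pos hk hq).ne')
  have h2 := (tfam_cdC (k := k) h).log (fun q hq => hq.2.2.ne')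
  exact h1.sub h2

theorem mem_AA (h : RHS Ω V χ) {t : ℝ} (ht : t ∈ Icc (0:ℝ) 1) {r : B2 n} {p : B1 n} {z : ℝ}
    {x : E n} (hx : x ∈ closure Ω) : (t, r, p, z, x) ∈ AA k V χ ↔ C.Adm k p r := by
  constructor
  · exact fun hq => hq.1
  · exact fun hq => ⟨hq, h.sub (p, z, x) hq.1.le hx, h.pos t ht (p, z, x) hq.1.le hx⟩

theorem GG_nonneg_iff (hk : 1 ≤ k) {q : ℝ × Jet n} (hq : q ∈ AA k V χ) :
    0 ≤ GG k χ q ↔ χ (q.1, q.2.2) ≤ C.SS k q.2.2.1 q.2.1 := by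
  unfold GG
  rw [sub_nonneg]
  exact Real.log_le_log_iff hq.2.2 (tfam_pos hk hq)

theorem GG_nonpos_iff (hk : 1 ≤ k) {q : ℝ × Jet n} (hq : q ∈ AA k V χ) :
    GG k χ q ≤ 0 ↔ C.SS k q.2.2.1 q.2.1 ≤ χ (q.1, q.2.2) := by
  unfold GG
  rw [sub_nonpos]
  exact Real.log_le_log_iff (tfam_pos hk hq) hq.2.2

theorem GG_eq_zero_iff (hk : 1 ≤ k) {q : ℝ × Jet n} (hq : q ∈ AA k V χ) :
    GG k χ q = 0 ↔ C.SS k q.2.2.1 q.2.1 = χ (q.1, q.2.2) := by
  rw [le_antisymm_iff, le_antisymm_iff, GG_nonneg_iff hk hq, GG_nonpos_iff hk hq]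

/-- derivative along a line -/
theorem tfam_line {W : Type} [NormedAddCommGroup W] [NormedSpace ℝ W] {F : W → ℝ} {q : W}
    (hF : DifferentiableAt ℝ F q) (v : W) :
    HasDerivAt (fun s : ℝ => F (q + s • v)) (fderiv ℝ F q v) 0 := by
  have h1 : HasDerivAt (fun s : ℝ => q + s • v) v 0 := by
    simpa using ((hasDerivAt_id (0:ℝ)).smul_const v).const_add q
  have h2 : HasFDerivAt F (fderiv ℝ F q) (q + (0:ℝ) • v) := by
    simpa using hF.hasFDerivAt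
  exact h2.comp_hasDerivAt (0:ℝ) h1

theorem tfam_diffS {r : B2 n} {p : B1 n} (hp : ‖p‖ < 1) :
    DifferentiableAt ℝ (fun s : B2 n => C.SS k p s) r := by
  have h0 : IsOpen {q : B1 n × B2 n | ‖q.1‖ < 1} :=
    isOpen_lt (continuous_norm.comp continuous_fst) continuous_const
  have h1 : ContDiffAt ℝ ∞ (fun q : B1 n × B2 n => C.SS k q.1 q.2) (p, r) :=
    (contDiffOn_SS (n := n) k).contDiffAt (h0.mem_nhds hp)
  have h2 : DifferentiableAt ℝ (fun s : B2 n => ((p, s) : B1 n × B2 n)) r :=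
    (differentiableAt_const p).prodMk differentiableAt_id
  exact (h1.differentiableAt (by simp)).comp r h2

theorem tfam_diffG (hk : 1 ≤ k) (h : RHS Ω V χ) {q : ℝ × Jet n} (hq : q ∈ AA k V χ) :
    DifferentiableAt ℝ (GG k χ) q :=
  ((contDiffOn_GG hk h).contDiffAt ((isOpen_AA h).mem_nhds hq)).differentiableAt (by simp)

theorem tfam_ell (hk : 1 ≤ k) (h : RHS Ω V χ) {t : ℝ} {r : B2 n} {p : B1 n} {z : ℝ} {x : E n}
    (hq : (t, r, p, z, x) ∈ AA k V χ) (m : B2 n) :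
    fderiv ℝ (GG k χ) (t, r, p, z, x) (0, m, 0, 0, 0) =
      fderiv ℝ (fun s : B2 n => C.SS k p s) r m / C.SS k p r := by
  have h1 := tfam_line (tfam_diffG hk h hq) ((0, m, 0, 0, 0) : ℝ × Jet n)
  have h2 := tfam_line (tfam_diffS (k := k) (r := r) hq.1.1) m
  have hpos : C.SS k p (r + (0:ℝ) • m) ≠ 0 := by
    rw [zero_smul, add_zero]; exact (tfam_pos hk hq).ne'
  have h3 := (h2.log hpos).sub_const (Real.log (χ (t, p, z, x)))
  rw [zero_smul, add_zero] at h3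
  refine h1.unique ?_
  convert h3 using 2 with s
  simp [GG]

theorem tfam_mono (hk : 1 ≤ k) (h : RHS Ω V χ) {t : ℝ} {r : B2 n} {p : B1 n} {z : ℝ} {x : E n}
    (hq : (t, r, p, z, x) ∈ AA k V χ) :
    fderiv ℝ (GG k χ) (t, r, p, z, x) (0, 0, 0, 1, 0) =
      -(fderiv ℝ χ (t, p, z, x) (0, 0, 1, 0) / χ (t, p, z, x)) := by
  have h1 := tfam_line (tfam_diffG hk h hq) ((0, 0, 0, 1, 0) : ℝ × Jet n)
  have hd : DifferentiableAt ℝ χ (t, p, z, x) :=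
    (h.smooth.contDiffAt ((tfam_open h).mem_nhds ⟨mem_univ _, hq.2.1⟩)).differentiableAt
      (by simp)
  have h2 := tfam_line hd ((0, 0, 1, 0) : ℝ × B1 n × ℝ × E n)
  have hpos : χ ((t, p, z, x) + (0:ℝ) • ((0, 0, 1, 0) : ℝ × B1 n × ℝ × E n)) ≠ 0 := by
    rw [zero_smul, add_zero]; exact hq.2.2.ne'
  have h3 := (h2.log hpos).const_sub (Real.log (C.SS k p r))
  rw [zero_smul, add_zero] at h3
  refine h1.unique ?_
  convert h3 using 2 with s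
  simp [GG]

/-- `conc`: `mem_AA`, `concaveOn_log_SS` (subtract a constant).  `ell`, `mono`: compute the derivative
of `GG` along the lines `s ↦ (t, r + s • m, p, z, x)` and `s ↦ (t, r, p, z + s, x)`
(`HasFDerivAt.comp_hasDerivAt`, `HasDerivAt.log`, `HasDerivAt.unique`); use `fderiv_SS_pos`. -/
theorem famOn_GG (hk : 1 ≤ k) (hkn : k ≤ n) (h : RHS Ω V χ) :
    FamOn (closure Ω) (AA k V χ) (GG k χ) := by
  refine ⟨isOpen_AA h, contDiffOn_GG hk h, ?_, ?_, ?_⟩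
  · intro t ht p z x hx
    have h1 : {r : B2 n | Sym r ∧ (t, r, p, z, x) ∈ AA k V χ} = {r : B2 n | Sym r ∧ C.Adm k p r} := by
      ext r
      simp only [Set.mem_ofPred_eq, mem_AA h ht hx]
    rw [h1]
    have h2 := (concaveOn_log_SS hk hkn p).add_const (-Real.log (χ (t, p, z, x)))
    refine h2.congr ?_
    intro r _
    simp [GG, sub_eq_add_neg]
  · intro t _ r p z x _ hr hq m hm hm0
    rw [tfam_ell hk h hq m]
    have ha : C.Adm k p r := hq.1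
    exact div_pos (fderiv_SS_pos hk hkn hr ha hm hm0) (ha.2 k hk le_rfl)
  · intro t ht r p z x hx _ hq
    rw [tfam_mono hk h hq, neg_nonpos]
    have hp : ‖p‖ < 1 := hq.1.1
    have hc : 0 < χ (t, p, z, x) := hq.2.2
    exact div_nonneg (h.mono t ht (p, z, x) hp.le hx) hc.le

end Pool.Agent.Mink.T
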