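import Pool.Agent.Lib.MP_88c759_an.Mink.TDefs

/-! The gauge of a convex domain with smooth boundary is smooth off the centre. -/

set_option maxSynthPendingDepth 3

namespace Pool.Agent.Mink.T

open scoped ContDiff Topology
open Set Filter

variable {n : ℕ}

variable {Ω : Set (E n)} {x₀ : E n} {ρ : E n → ℝ}

lemma tgauge_zero (ho : IsOpen Ω) {U : Set (E n)} (hU : IsOpen U) (hρ : ContinuousOn ρ U)
    (hm : ∀ x ∈ U, (x ∈ Ω ↔ ρ x < 0)) {y : E n} (hy : y ∈ U) (hf : y ∈ frontier Ω) : ρ y = 0 := by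
  rw [ho.frontier_eq] at hf
  refine le_antisymm ?_ (not_lt.1 fun h => hf.2 ((hm y hy).2 h))
  by_contra h
  have h1 : ∀ᶠ z in 𝓝 y, 0 < ρ z :=
    (hρ.continuousAt (hU.mem_nhds hy)).eventually (lt_mem_nhds (not_le.1 h))
  obtain ⟨z, hz, hzΩ⟩ := mem_closure_iff_nhds.1 hf.1 _ (h1.and (hU.mem_nhds hy))
  exact lt_asymm hz.1 ((hm z hz.2).1 hzΩ)

lemma tgauge_contDiffAt (h : Q.IsDefining Ω x₀ ρ) : ContDiffAt ℝ ∞ ρ x₀ := by
  obtain ⟨U, hU, hx, hρ, -, -⟩ := h
  exact hρ.contDiffAt (hU.mem_nhds hx)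

lemma tgauge_inv (L : ℝ →L[ℝ] ℝ) (h : L 1 ≠ 0) : L.IsInvertible := by
  have h1 : ∀ t : ℝ, L t = t * L 1 := fun t => by
    rw [← smul_eq_mul, ← map_smul, smul_eq_mul, mul_one]
  refine ContinuousLinearMap.IsInvertible.of_inverse
    (g := (L 1)⁻¹ • ContinuousLinearMap.id ℝ ℝ) ?_ ?_
  · ext
    change L ((L 1)⁻¹ * 1) = 1
    rw [h1, mul_one, inv_mul_cancel₀ h]
  · ext
    change (L 1)⁻¹ * L 1 = 1
    exact inv_mul_cancel₀ h

/-- `x₀ ∉ Ω` gives `0 ≤ ρ x₀`, and `x₀ ∈ closure Ω` with continuity of `ρ` at `x₀` gives `ρ x₀ ≤ 0`. -/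
theorem defining_zero (ho : IsOpen Ω) (hx : x₀ ∈ frontier Ω) (h : Q.IsDefining Ω x₀ ρ) :
    ρ x₀ = 0 := by
  obtain ⟨U, hU, hxU, hρ, -, hm⟩ := h
  exact tgauge_zero ho hU hρ.continuousOn hm hxU hx

/-- Near `x₀` the function `ρ` vanishes on the frontier (apply `defining_zero` at nearby points,
or repeat its argument). -/
theorem defining_zero_near (ho : IsOpen Ω) (h : Q.IsDefining Ω x₀ ρ) :
    ∀ᶠ y in 𝓝 x₀, y ∈ frontier Ω → ρ y = 0 := by
  obtain ⟨U, hU, hxU, hρ, -, hm⟩ := h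
  filter_upwards [hU.mem_nhds hxU] with y hy hf
  exact tgauge_zero ho hU hρ.continuousOn hm hy hf

/-- For `y ∈ Ω` the points `x₀ + s • (y - x₀)`, `0 < s ≤ 1`, lie in `Ω`
(`Convex.add_smul_sub_mem_interior'` or `Convex.combo_closure_interior_mem_interior`), so `ρ < 0`
there for small `s` and the derivative at `s = 0` is `≤ 0`.  The inequality is a closed condition
in `y`. -/
theorem defining_supp (hΩ : Nice Ω) (hx : x₀ ∈ frontier Ω) (h : Q.IsDefining Ω x₀ ρ) :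
    ∀ y ∈ closure Ω, fderiv ℝ ρ x₀ (y - x₀) ≤ 0 := by
  have h0 := defining_zero hΩ.op hx h
  have hd : DifferentiableAt ℝ ρ x₀ := (tgauge_contDiffAt h).differentiableAt (by simp)
  obtain ⟨U, hU, hxU, -, -, hm⟩ := h
  refine fun y hy => closure_minimal (t := {y | fderiv ℝ ρ x₀ (y - x₀) ≤ 0}) ?_
    (isClosed_le (by fun_prop) continuous_const) hy
  intro y hy
  have hl : HasDerivAt (fun s : ℝ => x₀ + s • (y - x₀)) (y - x₀) 0 := by
    simpa using ((hasDerivAt_id (0 : ℝ)).smul_const (y - x₀)).const_add x₀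
  have h1 : HasDerivAt (fun s : ℝ => ρ (x₀ + s • (y - x₀))) (fderiv ℝ ρ x₀ (y - x₀)) 0 := by
    have h2 : HasFDerivAt ρ (fderiv ℝ ρ x₀) (x₀ + (0 : ℝ) • (y - x₀)) := by
      simpa using hd.hasFDerivAt
    exact h2.comp_hasDerivAt (0 : ℝ) hl
  have h2 := h1.tendsto_slope_zero_right
  refine le_of_tendsto h2 ?_
  have h3 : ∀ᶠ s : ℝ in 𝓝 0, x₀ + s • (y - x₀) ∈ U :=
    hl.continuousAt.eventually (hU.mem_nhds (by simpa using hxU))
  filter_upwards [nhdsWithin_le_nhds h3, Ioc_mem_nhdsGT (zero_lt_one' ℝ)] with s hs hs'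
  have h4 : x₀ + s • (y - x₀) ∈ interior Ω :=
    hΩ.conv.add_smul_sub_mem_interior' (frontier_subset_closure hx)
      (by rwa [hΩ.op.interior_eq]) hs'
  have h5 := (hm _ hs).1 (interior_subset h4)
  rw [zero_add, zero_smul, add_zero, h0, sub_zero, smul_eq_mul]
  exact mul_nonpos_of_nonneg_of_nonpos (inv_nonneg.2 hs'.1.le) h5.le

/-- Apply `defining_supp` at `c + ε • w` where `0 < fderiv ρ x₀ w`. -/
theorem defining_transversal (hΩ : Nice Ω) (hx : x₀ ∈ frontier Ω) (h : Q.IsDefining Ω x₀ ρ)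
    {c : E n} (hc : c ∈ Ω) : 0 < fderiv ℝ ρ x₀ (x₀ - c) := by
  have h1 := defining_supp hΩ hx h
  obtain ⟨U, -, -, -, hne, -⟩ := h
  obtain ⟨w, hw⟩ : ∃ w, 0 < fderiv ℝ ρ x₀ w := by
    by_contra hcon
    refine hne (ContinuousLinearMap.ext fun w => ?_)
    have h2 := not_lt.1 fun h => hcon ⟨w, h⟩
    have h3 := not_lt.1 fun h => hcon ⟨-w, h⟩
    rw [map_neg] at h3
    exact le_antisymm h2 (by simpa using h3)
  have h2 : ContinuousAt (fun s : ℝ => c + s • w) 0 := by fun_prop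
  have h3 : ∀ᶠ s : ℝ in 𝓝 0, c + s • w ∈ Ω :=
    h2.eventually (hΩ.op.mem_nhds (by simpa using hc))
  obtain ⟨s, hs, hs'⟩ := ((h3.filter_mono (nhdsWithin_le_nhds (s := Ioi (0 : ℝ)))).and
    self_mem_nhdsWithin).exists
  have h4 := h1 _ (subset_closure hs)
  have h5 : c + s • w - x₀ = s • w - (x₀ - c) := by abel
  rw [h5, map_sub, map_smul, smul_eq_mul] at h4
  have h6 := mul_pos (show 0 < s from hs') hw
  linarith

/-- `g = gauge s` with `s = {y | c + y ∈ Ω}` (open, convex, bounded, contains `0`):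
`continuous_gauge`, `gauge_smul_of_nonneg`, `gauge_pos`, `gauge_lt_one_iff_mem_interior`,
`gauge_le_one_iff_mem_closure`, `gauge_eq_one_iff_mem_frontier`.  Smoothness at `y₀ ≠ 0`: put
`τ y = (g y)⁻¹` (continuous at `y₀`), `x₀ = c + τ y₀ • y₀ ∈ frontier Ω`, `ρ` defining at `x₀`,
`H (y, s) = (y, ρ (c + s • y))`.  The derivative of `H` at `(y₀, τ y₀)` is injective by
`defining_transversal`, so an equivalence (finite dimension).  With the local inverse `L`
(implicit function theorem) we get `τ y = (L (y, 0)).2`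
near `y₀` (`defining_zero_near`), so `τ` and `g = τ⁻¹` are smooth at `y₀`. -/
theorem exists_gauge (hΩ : Nice Ω) (hs : ∀ x₀ ∈ frontier Ω, ∃ ρ, Q.IsDefining Ω x₀ ρ)
    {c : E n} (hc : c ∈ Ω) :
    ∃ g : E n → ℝ, Continuous g ∧ ContDiffOn ℝ ∞ g {0}ᶜ ∧
      (∀ s : ℝ, 0 ≤ s → ∀ y, g (s • y) = s * g y) ∧ (∀ y, y ≠ 0 → 0 < g y) ∧
      (∀ y, c + y ∈ Ω ↔ g y < 1) ∧ (∀ y, c + y ∈ closure Ω ↔ g y ≤ 1) := by
  set s : Set (E n) := (Homeomorph.addLeft c) ⁻¹' Ω with hsd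
  have hso : IsOpen s := hΩ.op.preimage (Homeomorph.addLeft c).continuous
  have hsc : Convex ℝ s := hΩ.conv.translate_preimage_right c
  have hs0 : s ∈ 𝓝 (0 : E n) := hso.mem_nhds (by simpa [hsd] using hc)
  have hsb : Bornology.IsBounded s := by
    obtain ⟨R, hR⟩ := hΩ.bdd.subset_closedBall c
    refine (Metric.isBounded_closedBall (x := (0 : E n)) (r := R)).subset fun y hy => ?_
    simpa using hR hy
  have hcont : Continuous (gauge s) := continuous_gauge hsc hs0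
  have hpos : ∀ y, y ≠ 0 → 0 < gauge s y := fun y hy =>
    (gauge_pos (absorbent_nhds_zero hs0) ((NormedSpace.isVonNBounded_iff ℝ).2 hsb)).2 hy
  have hsm : ∀ t : ℝ, 0 ≤ t → ∀ y, gauge s (t • y) = t * gauge s y := fun t ht y =>
    gauge_smul_of_nonneg ht y
  have hfr : ∀ y, y ≠ 0 → c + (gauge s y)⁻¹ • y ∈ frontier Ω := by
    intro y hy
    have h1 : gauge s ((gauge s y)⁻¹ • y) = 1 := by
      rw [hsm _ (inv_nonneg.2 (hpos y hy).le), inv_mul_cancel₀ (hpos y hy).ne']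
    rw [gauge_eq_one_iff_mem_frontier hsc hs0, hsd, ← Homeomorph.preimage_frontier] at h1
    exact h1
  refine ⟨gauge s, hcont, fun y₀ hy₀ => ContDiffAt.contDiffWithinAt ?_, hsm, hpos, fun y => ?_,
    fun y => ?_⟩
  · have hy : y₀ ≠ 0 := hy₀
    obtain ⟨ρ, hρ⟩ := hs _ (hfr y₀ hy)
    have hτ : ContinuousAt (fun y => (gauge s y)⁻¹) y₀ := hcont.continuousAt.inv₀ (hpos y₀ hy).ne'
    have hA : ContDiff ℝ ∞ (fun q : E n × ℝ => c + q.2 • q.1) := by fun_prop
    have cdf : ContDiffAt ℝ ∞ (fun q : E n × ℝ => ρ (c + q.2 • q.1)) (y₀, (gauge s y₀)⁻¹) :=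
      (tgauge_contDiffAt hρ).comp (y₀, (gauge s y₀)⁻¹) hA.contDiffAt
    have pn : (∞ : WithTop ℕ∞) ≠ 0 := by simp
    have if₂ : (fderiv ℝ (fun q : E n × ℝ => ρ (c + q.2 • q.1)) (y₀, (gauge s y₀)⁻¹) ∘L
        ContinuousLinearMap.inr ℝ (E n) ℝ).IsInvertible := by
      refine tgauge_inv _ ?_
      have h1 : HasDerivAt (fun t : ℝ => (y₀, t)) ((0 : E n), (1 : ℝ)) (gauge s y₀)⁻¹ :=
        (hasDerivAt_const _ _).prodMk (hasDerivAt_id _)
      have h2 := (cdf.differentiableAt pn).hasFDerivAt.comp_hasDerivAt _ h1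
      have h3 : HasDerivAt (fun t : ℝ => c + t • y₀) y₀ (gauge s y₀)⁻¹ := by
        simpa using ((hasDerivAt_id (gauge s y₀)⁻¹).smul_const y₀).const_add c
      have h4 := ((tgauge_contDiffAt hρ).differentiableAt pn).hasFDerivAt.comp_hasDerivAt _ h3
      have h5 := defining_transversal hΩ (hfr y₀ hy) hρ hc
      rw [add_sub_cancel_left, map_smul, smul_eq_mul] at h5
      have h6 := h2.unique h4
      change fderiv ℝ (fun q : E n × ℝ => ρ (c + q.2 • q.1)) (y₀, (gauge s y₀)⁻¹) (0, 1) ≠ 0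
      rw [h6]
      intro h7
      rw [h7, mul_zero] at h5
      exact lt_irrefl _ h5
    have h1 := cdf.contDiffAt_implicitFunction pn if₂
    have h2 : ContinuousAt (fun y => (y, (gauge s y)⁻¹)) y₀ := continuousAt_id.prodMk hτ
    have h3 := h2.eventually (cdf.eventually_apply_eq_iff_implicitFunction pn if₂)
    have h4 : ContinuousAt (fun y => c + (gauge s y)⁻¹ • y) y₀ :=
      continuousAt_const.add (hτ.smul continuousAt_id)
    have h5 := h4.eventually (defining_zero_near hΩ.op hρ)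
    have h6 : (fun y => (gauge s y)⁻¹) =ᶠ[𝓝 y₀] cdf.implicitFunction pn if₂ := by
      filter_upwards [h3, h5, isOpen_ne.mem_nhds hy] with y h3 h5 hy'
      refine (h3.1 ?_).symm
      exact (h5 (hfr y hy')).trans (defining_zero hΩ.op (hfr y₀ hy) hρ).symm
    have h7 : ContDiffAt ℝ ∞ (fun y => (gauge s y)⁻¹) y₀ := h1.congr_of_eventuallyEq h6
    exact (h7.inv (inv_ne_zero (hpos y₀ hy).ne')).congr_of_eventuallyEq
      (Eventually.of_forall fun y => (inv_inv _).symm)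
  · rw [gauge_lt_one_iff_mem_interior hsc hs0, hso.interior_eq]
    rfl
  · rw [gauge_le_one_iff_mem_closure hsc hs0, hsd, ← Homeomorph.preimage_closure]
    rfl

end Pool.Agent.Mink.T
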