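import Pool.Agent.Lib.MP_88c759_an.Mink.TFam
import Pool.Agent.Lib.MP_88c759_an.Mink.ADD

/-! Upper bound and the compact set of jets. -/

set_option maxSynthPendingDepth 3

namespace Pool.Agent.Mink.T

open scoped ContDiff Topology
open Set Filter

variable {n : ℕ}

variable {k : ℕ} {Ω : Set (E n)} {V : Set (B1 n × ℝ × E n)} {χ : ℝ × B1 n × ℝ × E n → ℝ}

theorem tk_sM_one (M : Matrix (Fin n) (Fin n) ℝ) : C.sM 1 M = ∑ i, M i i := by
  rw [C.sM, Finset.powersetCard_one, Finset.sum_map]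
  refine Finset.sum_congr rfl fun i _ => ?_
  change (M.submatrix (Subtype.val : ({i} : Finset (Fin n)) → Fin n)
    (Subtype.val : ({i} : Finset (Fin n)) → Fin n)).det = M i i
  rw [Matrix.det_eq_elem_of_card_eq_one (by simp) ⟨i, Finset.mem_singleton_self i⟩]
  rfl

theorem tk_closed_sym : IsClosed {r : B2 n | Sym r} := by
  have : {r : B2 n | Sym r} = ⋂ v, ⋂ w, {r : B2 n | r v w = r w v} := by
    ext r
    simp only [mem_ofPred_eq, mem_iInter, Sym]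
  rw [this]
  refine isClosed_iInter fun v => isClosed_iInter fun w => isClosed_eq ?_ ?_
  · fun_prop
  · fun_prop

/-- `C.SS 1 0 r = ∑ i, r (ee i) (ee i)` (`Finset.powersetCard_one`, `Matrix.det_unique`) -/
theorem SS_one_zero (r : B2 n) : C.SS 1 0 r = ∑ i, r (C.ee i) (C.ee i) := by
  rw [C.SS, tk_sM_one]
  refine Finset.sum_congr rfl fun i _ => ?_
  simp [C.shape, C.Wp]

/-- At an interior maximum `D1 = 0` and `- D2` is `Psd` (`A.psd_of_isLocalMin` for `- u`), which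
contradicts `0 < C.SS 1`. -/
theorem le_of_adm (hk : 1 ≤ k) (hΩ : Nice Ω) {u : E n → ℝ} (hu : ContDiffOn ℝ 2 u (closure Ω))
    (ha : ∀ x ∈ Ω, C.Adm k (D1 (closure Ω) u x) (D2 (closure Ω) u x)) {B : ℝ}
    (hb : ∀ x ∈ frontier Ω, u x ≤ B) : ∀ x ∈ closure Ω, u x ≤ B := by
  obtain ⟨y, hy, hmax⟩ := hΩ.compact.exists_isMaxOn (hΩ.ne.mono subset_closure) hu.continuousOn
  rcases hΩ.mem_or hy with hy1 | hy1
  · exfalso
    have hn := hΩ.nhds hy1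
    have hloc : IsLocalMax u y := hmax.isLocalMax hn
    have h2 : ContDiffAt ℝ 2 u y := (hu y hy).contDiffAt hn
    have h1 : D1 (closure Ω) u y = 0 := by rw [D1_int hn, hloc.fderiv_eq_zero]
    have h3 := (ha y hy1).2 1 le_rfl hk
    rw [h1, SS_one_zero, D2_int hn] at h3
    have hmin : IsLocalMin (fun x => (-1 : ℝ) * u x) y := by
      filter_upwards [hloc] with x hx
      linarith
    have h4 := A.psd_of_isLocalMin (contDiffAt_const.mul h2) hmin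
    rw [A.DD_const_mul (-1) h2] at h4
    have h5 : ∑ i, fderiv ℝ (fderiv ℝ u) y (C.ee i) (C.ee i) ≤ 0 :=
      Finset.sum_nonpos fun i _ => by
        have h6 := h4.2 (C.ee i)
        change 0 ≤ (-1 : ℝ) * fderiv ℝ (fderiv ℝ u) y (C.ee i) (C.ee i) at h6
        linarith
    linarith
  · intro x hx
    exact (hmax hx).trans (hb y hy1)

/-- `K = {(t, r, p, z, x) | t ∈ [0,1], Sym r, ‖r‖ ≤ C, ‖p‖ ≤ θ, |z| ≤ R, x ∈ closure Ω,
0 ≤ C.SS j p r (1 ≤ j ≤ k), δ ≤ C.SS k p r}`: the first six conditions give a compact set on which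
`C.SS j` is continuous (`contDiffOn_SS`, `ContinuousOn.preimage_isClosed_of_isClosed`);
`adm_of_nonneg` and `mem_AA` give the inclusion. -/
theorem exists_compact (hkn : k ≤ n) (hΩ : Nice Ω) (h : RHS Ω V χ) (C₀ θ R δ : ℝ) (hθ : θ < 1)
    (hδ : 0 < δ) : ∃ K : Set (ℝ × Jet n), IsCompact K ∧ K ⊆ AA k V χ ∧
      ∀ t ∈ Icc (0:ℝ) 1, ∀ (r : B2 n) (p : B1 n) (z : ℝ), ∀ x ∈ closure Ω, Sym r → ‖r‖ ≤ C₀ →
        ‖p‖ ≤ θ → |z| ≤ R → C.Adm k p r → δ ≤ C.SS k p r → (t, r, p, z, x) ∈ K := by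
  have hK0 : IsCompact ((Icc (0:ℝ) 1) ×ˢ ((Metric.closedBall (0 : B2 n) C₀ ∩ {r | Sym r}) ×ˢ
      (Metric.closedBall (0 : B1 n) θ ×ˢ (Metric.closedBall (0 : ℝ) R ×ˢ closure Ω)))) :=
    isCompact_Icc.prod (((isCompact_closedBall _ _).inter_right tk_closed_sym).prod
      ((isCompact_closedBall _ _).prod ((isCompact_closedBall _ _).prod hΩ.compact)))
  set K0 : Set (ℝ × Jet n) := ((Icc (0:ℝ) 1) ×ˢ
    ((Metric.closedBall (0 : B2 n) C₀ ∩ {r | Sym r}) ×ˢ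
      (Metric.closedBall (0 : B1 n) θ ×ˢ (Metric.closedBall (0 : ℝ) R ×ˢ closure Ω)))) with hK0def
  have hp : ∀ q ∈ K0, ‖q.2.2.1‖ < 1 := fun q hq =>
    (mem_closedBall_zero_iff.mp hq.2.2.1).trans_lt hθ
  have hc : ∀ j, ContinuousOn (fun q : ℝ × Jet n => C.SS j q.2.2.1 q.2.1) K0 := fun j =>
    (contDiffOn_SS (n := n) j).continuousOn.comp (f := fun q : ℝ × Jet n => (q.2.2.1, q.2.1))
      (Continuous.continuousOn (by fun_prop)) hp
  have hcl : ∀ (j : ℕ) (a : ℝ), IsClosed (K0 ∩ {q : ℝ × Jet n | a ≤ C.SS j q.2.2.1 q.2.1}) :=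
    fun j a => (hc j).preimage_isClosed_of_isClosed hK0.isClosed isClosed_Ici
  refine ⟨(K0 ∩ {q : ℝ × Jet n | δ ≤ C.SS k q.2.2.1 q.2.1}) ∩
    ⋂ j ∈ Icc 1 k, (K0 ∩ {q : ℝ × Jet n | 0 ≤ C.SS j q.2.2.1 q.2.1}), ?_, ?_, ?_⟩
  · exact (hK0.of_isClosed_subset (hcl k δ) inter_subset_left).inter_right
      (isClosed_biInter fun j _ => hcl j 0)
  · rintro ⟨t, r, p, z, x⟩ ⟨⟨h0, h1⟩, h2⟩
    rw [mem_AA h h0.1 h0.2.2.2.2]
    exact adm_of_nonneg hkn h0.2.1.2 (hp _ h0)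
      (fun j hj1 hj2 => (mem_iInter₂.mp h2 j ⟨hj1, hj2⟩).2) (hδ.trans_le h1)
  · intro t ht r p z x hx hr hr' hp' hz ha hd
    have h0 : (t, r, p, z, x) ∈ K0 :=
      ⟨ht, ⟨mem_closedBall_zero_iff.mpr hr', hr⟩, mem_closedBall_zero_iff.mpr hp',
        mem_closedBall_zero_iff.mpr hz, hx⟩
    exact ⟨⟨h0, hd⟩, mem_iInter₂.mpr fun j hj => ⟨h0, (ha.2 j hj.1 hj.2).le⟩⟩

end Pool.Agent.Mink.T
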