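import Pool.Agent.Lib.MP_88c759_an.Mink.TCmp
import Pool.Agent.Lib.MP_88c759_an.Mink.TK
import Pool.Agent.Lib.MP_88c759_an.Mink.TBnd

/-! Uniform constants along the path. -/

set_option maxSynthPendingDepth 3

namespace Pool.Agent.Mink.T

open scoped ContDiff Topology
open Set Filter

variable {n : ℕ}

variable {k : ℕ} {Ω : Set (E n)} {V : Set (B1 n × ℝ × E n)} {χ : ℝ × B1 n × ℝ × E n → ℝ}

/-- `R` from `ub_bounds`.  A solution `u` satisfies `mix t v₀ ub ≤ u` (`comparison` with `famOn_GG`,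
`mem_AA`, `GG_nonneg_iff`) and `u ≤ R` (`le_of_adm`; on the frontier `u = mix t v₀ ub`).  Take the
maximum of the constants `M` and the minimum of the constants `δ`. -/
theorem exists_apr (hn : 0 < n) (hk : 1 ≤ k) (hkn : k ≤ n) (hΩ : Nice Ω) (h : RHS Ω V χ)
    {v₀ ub φ₁ : E n → ℝ} (hp : Path k Ω χ v₀ ub) (hφ : ContDiff ℝ 4 φ₁)
    (hb : ∀ x ∈ frontier Ω, ub x = φ₁ x) :
    ∃ R M δ : ℝ, 0 < δ ∧ ∀ t ∈ Icc (0:ℝ) 1, ∀ u : E n → ℝ,
      SolOn Ω (AA k V χ) (GG k χ) t (mix t v₀ φ₁) u →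
      Apr k Ω R M δ (fun q => χ (t, q)) (mix t v₀ φ₁) (mix t v₀ ub) u := by
  obtain ⟨R, δ₁, hδ₁, hub⟩ := ub_bounds hΩ hp
  obtain ⟨M₂, δ₂, hδ₂, hrhs⟩ := rhs_bounds hΩ h R
  have hv4 : ContDiff ℝ 4 v₀ := hp.v0.of_le (by norm_cast)
  obtain ⟨M₃, hphi⟩ := phi_bounds hΩ hv4 hφ
  refine ⟨R, max R (max M₂ M₃), min δ₁ δ₂, lt_min hδ₁ hδ₂, fun t ht u hu => ?_⟩
  have hM₂ : M₂ ≤ max R (max M₂ M₃) := (le_max_left _ _).trans (le_max_right _ _)
  have hM₃ : M₃ ≤ max R (max M₂ M₃) := (le_max_right _ _).trans (le_max_right _ _)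
  have hv2 : ContDiffOn ℝ 2 v₀ (closure Ω) := (hv4.of_le (by norm_num)).contDiffOn
  have hmc : ContDiffOn ℝ 2 (mix t v₀ ub) (closure Ω) := cd_mix t hv2 hp.ubc
  have hbd : ∀ x ∈ frontier Ω, mix t v₀ ub x = mix t v₀ φ₁ x := by
    intro x hx
    simp only [mix, hb x hx]
  have hadm : ∀ x ∈ closure Ω, C.Adm k (D1 (closure Ω) u x) (D2 (closure Ω) u x) :=
    fun x hx => (mem_AA h ht hx).1 (hu.mem x hx)
  have hlow : ∀ x ∈ closure Ω, mix t v₀ ub x ≤ u x := by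
    refine comparison hn hΩ (famOn_GG hk hkn h) ht ?_ hmc hu.c2 ?_ ?_ ?_
    · intro r p z z' x hx hm
      exact (mem_AA h ht hx).2 ((mem_AA h ht hx).1 hm)
    · intro x hx
      have hx' : x ∈ closure Ω := subset_closure hx
      have hm : (t, jet (closure Ω) (mix t v₀ ub) x) ∈ AA k V χ :=
        (mem_AA h ht hx').2 (hp.adm t ht x hx')
      exact ⟨hm, (GG_nonneg_iff hk hm).2 (hp.sub t ht x hx')⟩
    · intro x hx
      have hx' : x ∈ closure Ω := subset_closure hx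
      exact ⟨hu.mem x hx', (hu.eq x hx').le⟩
    · intro x hx
      rw [hbd x hx, hu.bd x hx]
  have hup : ∀ x ∈ closure Ω, u x ≤ R := by
    refine le_of_adm hk hΩ hu.c2 (fun x hx => hadm x (subset_closure hx)) fun x hx => ?_
    rw [hu.bd x hx, ← hbd x hx]
    exact (le_abs_self _).trans (hub t ht x (hΩ.fr_sub hx)).1
  exact
    { psi_c := fun q hq => (hrhs t ht q hq).1
      psi_b := fun q hq =>
        ⟨(min_le_right _ _).trans (hrhs t ht q hq).2.1, (hrhs t ht q hq).2.2.1.trans hM₂,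
          (hrhs t ht q hq).2.2.2.1.trans hM₂, (hrhs t ht q hq).2.2.2.2.1.trans hM₂⟩
      psi_m := fun q hq => (hrhs t ht q hq).2.2.2.2.2
      phi_c := (contDiff_const.mul hv4).add (contDiff_const.mul hφ)
      phi_b := fun i hi x hx => (hphi t ht i hi x hx).trans hM₃
      ub_c := hmc
      ub_b := fun x hx =>
        ⟨(hub t ht x hx).1, (hub t ht x hx).2.1.trans (sub_le_sub_left (min_le_left _ _) 1),
          (hub t ht x hx).2.2.trans (le_max_left _ _)⟩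
      ub_adm := hp.adm t ht
      ub_sub := hp.sub t ht
      ub_bd := hbd
      u_c2 := hu.c2
      u_c4 := hu.c4
      u_b := fun x hx =>
        ⟨abs_le.2 ⟨(abs_le.1 (hub t ht x hx).1).1.trans (hlow x hx), hup x hx⟩, hlow x hx⟩
      u_adm := hadm
      u_eq := fun x hx => (GG_eq_zero_iff hk (hu.mem x hx)).1 (hu.eq x hx)
      u_bd := hu.bd }

end Pool.Agent.Mink.T
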