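import Pool.Agent.Lib.MP_88c759_an.Mink.TCalc

/-! Jets under a change of variables. -/

set_option maxSynthPendingDepth 3

namespace Pool.Agent.Mink.T

open scoped ContDiff Topology
open Set Filter

variable {n : ℕ}

variable {Φ Ψ : E n → E n} {S S' : Set (E n)} {v : E n → ℝ}

/-- `pull` is a continuous trilinear expression: write
`pull L r = ((ContinuousLinearMap.compL ℝ _ _ _).flip L).comp (r.comp L)` and use
`ContDiff.clm_comp`, `ContDiff.clm_apply`; or test on vectors with `contDiff_clm_apply_iff`. -/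
theorem contDiff_pull : ContDiff ℝ ∞ fun q : (E n →L[ℝ] E n) × B2 n => pull q.1 q.2 := by
  refine contDiff_clm_apply_iff.2 fun a => contDiff_clm_apply_iff.2 fun b => ?_
  exact (contDiff_snd.clm_apply (contDiff_fst.clm_apply contDiff_const)).clm_apply
    (contDiff_fst.clm_apply contDiff_const)

theorem contDiff_post :
    ContDiff ℝ ∞ fun q : B1 n × (E n →L[ℝ] E n →L[ℝ] E n) => post q.1 q.2 := by
  refine contDiff_clm_apply_iff.2 fun a => contDiff_clm_apply_iff.2 fun b => ?_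
  exact contDiff_fst.clm_apply ((contDiff_snd.clm_apply contDiff_const).clm_apply contDiff_const)

lemma tjet_comp {X Y Z : Type} [NormedAddCommGroup X] [NormedSpace ℝ X] [NormedAddCommGroup Y]
    [NormedSpace ℝ Y] [NormedAddCommGroup Z] [NormedSpace ℝ Z] {g : Y → Z} {f : X → Y}
    (hg : ContDiff ℝ ∞ g) (hf : ContDiff ℝ ∞ f) : ContDiff ℝ ∞ fun x => g (f x) := hg.comp hf

lemma tjet_pull {X : Type} [NormedAddCommGroup X] [NormedSpace ℝ X] {f : X → E n →L[ℝ] E n}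
    {g : X → B2 n} (hf : ContDiff ℝ ∞ f) (hg : ContDiff ℝ ∞ g) :
    ContDiff ℝ ∞ fun x => pull (f x) (g x) := by
  simpa only using tjet_comp contDiff_pull (hf.prodMk hg)

lemma tjet_post {X : Type} [NormedAddCommGroup X] [NormedSpace ℝ X] {f : X → B1 n}
    {g : X → E n →L[ℝ] E n →L[ℝ] E n} (hf : ContDiff ℝ ∞ f) (hg : ContDiff ℝ ∞ g) :
    ContDiff ℝ ∞ fun x => post (f x) (g x) := by
  simpa only using tjet_comp contDiff_post (hf.prodMk hg)

theorem contDiff_TJ (hΦ : ContDiff ℝ ∞ Φ) (hΨ : ContDiff ℝ ∞ Ψ) : ContDiff ℝ ∞ (TJ Φ Ψ) := by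
  have h1 : ContDiff ℝ ∞ (fderiv ℝ Ψ) := hΨ.fderiv_right (m := ∞) le_rfl
  have h2 : ContDiff ℝ ∞ (fderiv ℝ (fderiv ℝ Ψ)) := h1.fderiv_right (m := ∞) le_rfl
  have p1 : ContDiff ℝ ∞ fun J : Jet n => J.1 := contDiff_fst
  have p2 : ContDiff ℝ ∞ fun J : Jet n => J.2.1 := contDiff_snd.fst
  have p3 : ContDiff ℝ ∞ fun J : Jet n => J.2.2.1 := contDiff_snd.snd.fst
  have p4 : ContDiff ℝ ∞ fun J : Jet n => J.2.2.2 := contDiff_snd.snd.snd
  have h3 := tjet_comp hΦ p4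
  have h4 := tjet_pull (tjet_comp h1 h3) p1
  have h5 := tjet_post p2 (tjet_comp h2 h3)
  have h6 := p2.clm_comp (tjet_comp h1 h3)
  exact (h4.add h5).prodMk (h6.prodMk (p3.prodMk h3))

theorem D1_comp (hS : UniqueDiffOn ℝ S) (hΨ : ContDiff ℝ ∞ Ψ) (hm : MapsTo Ψ S S')
    (hv : ContDiffOn ℝ 2 v S') {y : E n} (hy : y ∈ S) :
    D1 S (v ∘ Ψ) y = (D1 S' v (Ψ y)).comp (fderiv ℝ Ψ y) := by
  exact ((hasD1 hv (hm hy)).comp y
    (hΨ.differentiable (by simp) y).hasFDerivAt.hasFDerivWithinAt hm).fderivWithin (hS y hy)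

/-- differentiate `D1_comp` within `S` (`HasFDerivWithinAt.clm_comp`, `fderivWithin_congr`) -/
theorem D2_comp (hS : UniqueDiffOn ℝ S) (hS' : UniqueDiffOn ℝ S') (hΨ : ContDiff ℝ ∞ Ψ)
    (hm : MapsTo Ψ S S') (hv : ContDiffOn ℝ 2 v S') {y : E n} (hy : y ∈ S) :
    D2 S (v ∘ Ψ) y = pull (fderiv ℝ Ψ y) (D2 S' v (Ψ y)) +
      post (D1 S' v (Ψ y)) (fderiv ℝ (fderiv ℝ Ψ) y) := by
  have h1 : D2 S (v ∘ Ψ) y =
      fderivWithin ℝ (fun z => (D1 S' v (Ψ z)).comp (fderiv ℝ Ψ z)) S y :=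
    fderivWithin_congr (fun z hz => D1_comp hS hΨ hm hv hz) (D1_comp hS hΨ hm hv hy)
  have h2 : HasFDerivWithinAt (fun z => D1 S' v (Ψ z))
      ((D2 S' v (Ψ y)).comp (fderiv ℝ Ψ y)) S y :=
    (hasD2 hS' hv (hm hy)).comp y
      (hΨ.differentiable (by simp) y).hasFDerivAt.hasFDerivWithinAt hm
  have h3 : HasFDerivWithinAt (fderiv ℝ Ψ) (fderiv ℝ (fderiv ℝ Ψ) y) S y :=
    ((hΨ.fderiv_right (m := ∞) le_rfl).differentiable (by simp) y).hasFDerivAt.hasFDerivWithinAt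
  rw [h1, (h2.clm_comp h3).fderivWithin (hS y hy)]
  ext a b
  simp [pull_apply, post_apply, add_comm]

theorem jet_comp (hS : UniqueDiffOn ℝ S) (hS' : UniqueDiffOn ℝ S') (hΨ : ContDiff ℝ ∞ Ψ)
    (hm : MapsTo Ψ S S') (hv : ContDiffOn ℝ 2 v S') {y : E n} (hy : y ∈ S)
    (hΦ : Φ (Ψ y) = y) : jet S (v ∘ Ψ) y = TJ Φ Ψ (jet S' v (Ψ y)) := by
  simp only [jet, TJ, hΦ, D1_comp hS hΨ hm hv hy, D2_comp hS hS' hΨ hm hv hy, Function.comp]

end Pool.Agent.Mink.T
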