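import Pool.Agent.Lib.MP_88c759_an.Mink.TApx
import Pool.Agent.Lib.MP_88c759_an.Mink.TFam

/-! The path of subsolutions. -/

set_option maxSynthPendingDepth 3

namespace Pool.Agent.Mink.T

open scoped ContDiff Topology
open Set Filter

variable {n : ℕ}

/-- Uniform local bounds near a compact set: `K` compact inside the open set `O`, `f` is `C¹` on `O`.
Take `cthickening δ K ⊆ O` compact (`IsCompact.exists_cthickening_subset_open`), `L` a bound for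
`fderiv f` there, and the mean value inequality on `closedBall a δ`. -/
theorem local_lipschitz {V : Type} [NormedAddCommGroup V] [NormedSpace ℝ V] [ProperSpace V]
    {K O : Set V} (hK : IsCompact K) (hO : IsOpen O) (hKO : K ⊆ O) {f : V → ℝ}
    (hf : ContDiffOn ℝ 1 f O) : ∃ δ L : ℝ, 0 < δ ∧ 0 < L ∧ ∀ a ∈ K,
      Metric.closedBall a δ ⊆ O ∧ ∀ b ∈ Metric.closedBall a δ, ∀ b' ∈ Metric.closedBall a δ,
        |f b - f b'| ≤ L * ‖b - b'‖ := by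
  obtain ⟨δ, hδ, hsub⟩ := hK.exists_cthickening_subset_open hO hKO
  obtain ⟨M, hM⟩ := (hK.cthickening (r := δ)).exists_bound_of_continuousOn
    ((hf.continuousOn_fderiv_of_isOpen hO le_rfl).mono hsub)
  refine ⟨δ, max M 1, hδ, lt_max_of_lt_right one_pos, fun a ha => ?_⟩
  have h1 := Metric.closedBall_subset_cthickening ha δ
  refine ⟨h1.trans hsub, fun b hb b' hb' => ?_⟩
  exact Convex.norm_image_sub_le_of_norm_fderiv_le (𝕜 := ℝ) (f := f)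
    (fun x hx => (hf.contDiffAt (hO.mem_nhds (hsub (h1 hx)))).differentiableAt one_ne_zero)
    (fun x hx => (hM x (h1 hx)).trans (le_max_left _ _)) (convex_closedBall a δ) hb' hb

/-- The numerical step: `S₀, S_t, S₁` are the values of `σ_k` at the jets `J₀, J_t, J₁`, and
`P_t, P₁` the values of `ψ`. -/
theorem path_ineq {t c η S₀ St S₁ Pt P₁ : ℝ} (h0 : 0 ≤ t) (h1 : t ≤ 1) (hη : 0 ≤ η) (hc : η ≤ c)
    (hS : c ≤ St) (a1 : |St - S₀| ≤ t * η) (a2 : |St - S₁| ≤ (1 - t) * η)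
    (a3 : |Pt - P₁| ≤ (1 - t) * η) (a4 : P₁ ≤ S₁) : (1 - t) ^ 2 * S₀ + t ^ 2 * Pt ≤ St := by
  have b1 := (abs_le.1 a1).1
  have b2 := (abs_le.1 a2).1
  have b3 := (abs_le.1 a3).2
  have h2 : 0 ≤ 1 - t := sub_nonneg.2 h1
  have c1 : (1 - t) ^ 2 * S₀ ≤ (1 - t) ^ 2 * (St + t * η) :=
    mul_le_mul_of_nonneg_left (by linarith) (sq_nonneg _)
  have c2 : t ^ 2 * Pt ≤ t ^ 2 * (St + 2 * ((1 - t) * η)) :=
    mul_le_mul_of_nonneg_left (by linarith) (sq_nonneg _)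
  have c3 : 0 ≤ t * (1 - t) * (2 * St - (1 + t) * η) :=
    mul_nonneg (mul_nonneg h0 h2) (by nlinarith)
  nlinarith

theorem tpath_seg {V : Type} [NormedAddCommGroup V] [NormedSpace ℝ V] {a b : V} {t ε : ℝ}
    (ht : t ∈ Icc (0 : ℝ) 1) (h : ‖a - b‖ ≤ ε) :
    ‖(1 - t) • a + t • b - a‖ ≤ t * ε ∧ ‖(1 - t) • a + t • b - b‖ ≤ (1 - t) * ε := by
  have h1 : (1 - t) • a + t • b - a = t • (b - a) := by module
  have h2 : (1 - t) • a + t • b - b = (1 - t) • (a - b) := by module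
  have h3 : 0 ≤ 1 - t := sub_nonneg.2 ht.2
  rw [h1, h2, norm_smul, norm_smul, Real.norm_of_nonneg ht.1, Real.norm_of_nonneg h3,
    norm_sub_rev b a]
  exact ⟨mul_le_mul_of_nonneg_left h ht.1, mul_le_mul_of_nonneg_left h h3⟩

theorem tpath_abs {V : Type} [NormedAddCommGroup V] [NormedSpace ℝ V] [ProperSpace V]
    {K O : Set V} (hK : IsCompact K) (hO : IsOpen O) (hKO : K ⊆ O) {f g : V → ℝ}
    (f1 : ContDiffOn ℝ 1 f O) (f2 : ContDiffOn ℝ 1 g O) (hpos : ∀ a ∈ K, 0 < f a)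
    (hle : ∀ a ∈ K, g a ≤ f a) : ∃ ε : ℝ, 0 < ε ∧ ∀ a ∈ K, ∀ b, ‖b - a‖ ≤ ε → b ∈ O ∧
      ∀ t ∈ Icc (0 : ℝ) 1, (1 - t) • b + t • a ∈ O ∧
        (1 - t) ^ 2 * f b + t ^ 2 * g ((1 - t) • b + t • a) ≤ f ((1 - t) • b + t • a) := by
  obtain ⟨δ₁, L₁, hδ₁, hL₁, H₁⟩ := local_lipschitz hK hO hKO f1
  obtain ⟨δ₂, L₂, hδ₂, hL₂, H₂⟩ := local_lipschitz hK hO hKO f2
  obtain ⟨m, hm, hlow⟩ := hK.exists_forall_le' (f1.continuousOn.mono hKO) hpos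
  obtain ⟨ε, hε, e1, e2, e3⟩ : ∃ ε : ℝ, 0 < ε ∧ ε ≤ δ₁ ∧ ε ≤ δ₂ ∧ (L₁ + L₂) * ε ≤ m / 2 :=
    ⟨min (min δ₁ δ₂) (m / 2 / (L₁ + L₂)), by positivity, (min_le_left _ _).trans (min_le_left _ _),
      (min_le_left _ _).trans (min_le_right _ _),
      (le_div_iff₀' (by positivity)).1 (min_le_right _ _)⟩
  refine ⟨ε, hε, fun a ha b hb => ?_⟩
  obtain ⟨s1, l1⟩ := H₁ _ ha
  obtain ⟨-, l2⟩ := H₂ _ ha
  have m0 := mem_closedBall_iff_norm.2 (hb.trans e1)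
  refine ⟨s1 m0, fun t ht => ?_⟩
  obtain ⟨d0, d1⟩ := tpath_seg ht hb
  have h1t : 0 ≤ 1 - t := sub_nonneg.2 ht.2
  have d2 := d1.trans (mul_le_of_le_one_left hε.le (sub_le_self 1 ht.1))
  have mt := mem_closedBall_iff_norm.2 (d2.trans e1)
  have a1 := (l1 _ mt _ m0).trans (mul_le_mul_of_nonneg_left d0 hL₁.le)
  have a2 := (l1 _ mt _ (Metric.mem_closedBall_self hδ₁.le)).trans
    (mul_le_mul_of_nonneg_left d1 hL₁.le)
  have a3 := (l2 _ (mem_closedBall_iff_norm.2 (d2.trans e2)) _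
    (Metric.mem_closedBall_self hδ₂.le)).trans (mul_le_mul_of_nonneg_left d1 hL₂.le)
  have p0 := mul_nonneg ht.1 hε.le
  have p1 := mul_nonneg h1t hε.le
  have a2' := a2.trans (show L₁ * ((1 - t) * ε) ≤ (1 - t) * ((L₁ + L₂) * ε) by nlinarith)
  refine ⟨s1 mt, path_ineq ht.1 ht.2 (by positivity) e3 ?_
    (a1.trans (by nlinarith)) a2' (a3.trans (by nlinarith)) (hle a ha)⟩
  have b1 := (abs_le.1 a2').1
  have b2 := hlow _ ha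
  have b3 : (1 - t) * ((L₁ + L₂) * ε) ≤ m / 2 :=
    (mul_le_of_le_one_left (by positivity) (sub_le_self 1 ht.1)).trans e3
  linarith

/-- the choice of the smooth function -/
theorem tpath_approx {k : ℕ} (hk : 1 ≤ k) {Ω : Set (E n)} (hΩ : Nice Ω)
    {U : Set (B1 n × ℝ × E n)} (hU : IsOpen U)
    (hsub : ∀ q : B1 n × ℝ × E n, ‖q.1‖ ≤ 1 → q.2.2 ∈ closure Ω → q ∈ U)
    {ψ : B1 n × ℝ × E n → ℝ} (hψ : ContDiffOn ℝ ∞ ψ U)
    {ub : E n → ℝ} (hub : ContDiffOn ℝ 2 ub (closure Ω))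
    (hs : ∀ x ∈ closure Ω, C.Adm k (D1 (closure Ω) ub x) (D2 (closure Ω) ub x) ∧
      ψ (D1 (closure Ω) ub x, ub x, x) ≤ C.SS k (D1 (closure Ω) ub x) (D2 (closure Ω) ub x)) :
    ∃ v₀ : E n → ℝ, ContDiff ℝ ∞ v₀ ∧ ∀ x ∈ closure Ω,
      C.Adm k (D1 (closure Ω) v₀ x) (D2 (closure Ω) v₀ x) ∧ ∀ t ∈ Icc (0 : ℝ) 1,
        C.Adm k (D1 (closure Ω) (mix t v₀ ub) x) (D2 (closure Ω) (mix t v₀ ub) x) ∧
        (1 - t) ^ 2 * C.SS k (D1 (closure Ω) v₀ x) (D2 (closure Ω) v₀ x) +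
          t ^ 2 * ψ (D1 (closure Ω) (mix t v₀ ub) x, mix t v₀ ub x, x) ≤
          C.SS k (D1 (closure Ω) (mix t v₀ ub) x) (D2 (closure Ω) (mix t v₀ ub) x) := by
  have hK : IsCompact (jet (closure Ω) ub '' closure Ω) :=
    hΩ.compact.image_of_continuousOn (cont_jet hΩ.ud hub)
  have c1 : ContDiff ℝ 1 (fun J : Jet n => (J.2.1, J.1)) := contDiff_snd.fst.prodMk contDiff_fst
  have hO : IsOpen {J : Jet n | C.Adm k J.2.1 J.1 ∧ J.2 ∈ U} :=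
    ((isOpen_adm k).preimage c1.continuous).inter (hU.preimage continuous_snd)
  have hKO : jet (closure Ω) ub '' closure Ω ⊆ {J : Jet n | C.Adm k J.2.1 J.1 ∧ J.2 ∈ U} := by
    rintro _ ⟨x, hx, rfl⟩
    exact ⟨(hs x hx).1, hsub _ (hs x hx).1.1.le hx⟩
  have f1 : ContDiffOn ℝ 1 (fun J : Jet n => C.SS k J.2.1 J.1)
      {J : Jet n | C.Adm k J.2.1 J.1 ∧ J.2 ∈ U} :=
    ContDiffOn.comp (g := fun q : B1 n × B2 n => C.SS k q.1 q.2)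
      (f := fun J : Jet n => (J.2.1, J.1)) ((contDiffOn_SS k).of_le (by norm_cast))
      c1.contDiffOn fun J hJ => hJ.1.1
  have f2 : ContDiffOn ℝ 1 (fun J : Jet n => ψ J.2) {J : Jet n | C.Adm k J.2.1 J.1 ∧ J.2 ∈ U} :=
    (hψ.of_le (by norm_cast)).comp contDiff_snd.contDiffOn fun J hJ => hJ.2
  obtain ⟨ε, hε, H⟩ := tpath_abs hK hO hKO f1 f2 (fun J hJ => (hKO hJ).1.2 k hk le_rfl)
    (by
      rintro _ ⟨x, hx, rfl⟩
      exact (hs x hx).2)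
  obtain ⟨v₀, hv, happ⟩ := exists_smooth_approx hΩ hub hε
  refine ⟨v₀, hv, fun x hx => ?_⟩
  obtain ⟨h1, h2⟩ := H _ (mem_image_of_mem (jet (closure Ω) ub) hx) _ (happ x hx)
  refine ⟨h1.1, fun t ht => ?_⟩
  have h3 := h2 t ht
  rw [← jet_mix hΩ.ud t (hv.of_le (by norm_cast)).contDiffOn hub hx] at h3
  exact ⟨h3.1.1, h3.2⟩

/-- Let `K` be the (compact) set of jets of `ub` on `closure Ω`, inside the open set
`O = {J | C.Adm k J.2.1 J.1 ∧ J.2 ∈ U}`.  `local_lipschitz` for `J ↦ C.SS k J.2.1 J.1` and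
`J ↦ ψ J.2`; `C.SS k ≥ 2 c > 0` on `K`.  Take `ε ≤ δ` with `L ε ≤ c` and `v₀` from
`exists_smooth_approx`.  `f₀ x = C.SS k (fderiv v₀ x) (fderiv (fderiv v₀) x)` is smooth on the open
set `{x | ‖fderiv v₀ x‖ < 1} ⊇ closure Ω`.  `V = U ∩ {q | ‖fderiv v₀ q.2.2‖ < 1}`,
`χ (t, q) = (1 - t) ^ 2 * f₀ q.2.2 + t ^ 2 * ψ q`.  By `jet_mix` the jet of `mix t v₀ ub` is
`(1 - t) • J₀ + t • J₁`, at distance `≤ t ε` from `J₀` and `≤ (1 - t) ε` from `J₁`; `path_ineq`. -/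
theorem exists_path {k : ℕ} (hk : 1 ≤ k) {Ω : Set (E n)} (hΩ : Nice Ω)
    {U : Set (B1 n × ℝ × E n)} (hU : IsOpen U)
    (hsub : ∀ q : B1 n × ℝ × E n, ‖q.1‖ ≤ 1 → q.2.2 ∈ closure Ω → q ∈ U)
    {ψ : B1 n × ℝ × E n → ℝ} (hψ : ContDiffOn ℝ ∞ ψ U)
    (hpos : ∀ q : B1 n × ℝ × E n, ‖q.1‖ ≤ 1 → q.2.2 ∈ closure Ω → 0 < ψ q)
    (hmono : ∀ q : B1 n × ℝ × E n, ‖q.1‖ ≤ 1 → q.2.2 ∈ closure Ω → 0 ≤ fderiv ℝ ψ q (0, 1, 0))
    {ub : E n → ℝ} (hub : ContDiffOn ℝ 2 ub (closure Ω))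
    (hs : ∀ x ∈ closure Ω, C.Adm k (D1 (closure Ω) ub x) (D2 (closure Ω) ub x) ∧
      ψ (D1 (closure Ω) ub x, ub x, x) ≤ C.SS k (D1 (closure Ω) ub x) (D2 (closure Ω) ub x)) :
    ∃ (V : Set (B1 n × ℝ × E n)) (χ : ℝ × B1 n × ℝ × E n → ℝ) (v₀ : E n → ℝ),
      RHS Ω V χ ∧ (∀ q, χ (1, q) = ψ q) ∧ Path k Ω χ v₀ ub := by
  obtain ⟨v₀, hv, H⟩ := tpath_approx hk hΩ hU hsub hψ hub hs
  have hv2 : ContDiff ℝ 2 v₀ := hv.of_le (by norm_cast)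
  have hd1 : ContDiff ℝ ∞ (fderiv ℝ v₀) := hv.fderiv_right (by norm_cast)
  have hd2 : ContDiff ℝ ∞ (fderiv ℝ (fderiv ℝ v₀)) := hd1.fderiv_right (by norm_cast)
  have hop : IsOpen (U ∩ {q : B1 n × ℝ × E n | ‖fderiv ℝ v₀ q.2.2‖ < 1}) :=
    hU.inter (isOpen_lt (hd1.continuous.comp continuous_snd.snd).norm continuous_const)
  have hin : ∀ q : B1 n × ℝ × E n, ‖q.1‖ ≤ 1 → q.2.2 ∈ closure Ω →
      q ∈ U ∩ {q : B1 n × ℝ × E n | ‖fderiv ℝ v₀ q.2.2‖ < 1} := fun q h1 h2 =>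
    ⟨hsub q h1 h2, by
      have := (H _ h2).1.1
      rwa [D1_glob hΩ.ud h2 hv2] at this⟩
  have hsm : ContDiffOn ℝ ∞ (fun p : ℝ × B1 n × ℝ × E n =>
      (1 - p.1) ^ 2 * C.SS k (fderiv ℝ v₀ p.2.2.2) (fderiv ℝ (fderiv ℝ v₀) p.2.2.2) +
        p.1 ^ 2 * ψ p.2) (univ ×ˢ (U ∩ {q : B1 n × ℝ × E n | ‖fderiv ℝ v₀ q.2.2‖ < 1})) :=
    ((((contDiff_const.sub contDiff_fst).pow 2).contDiffOn.mul ((contDiffOn_SS k).comp
      ((hd1.comp contDiff_snd.snd.snd).prodMk (hd2.comp contDiff_snd.snd.snd)).contDiffOn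
      fun p hp => hp.2.2)).add ((contDiff_fst.pow 2).contDiffOn.mul
        (hψ.comp contDiff_snd.contDiffOn fun p hp => hp.2.1)))
  refine ⟨_, _, v₀, ⟨hop, hin, hsm, fun t ht q h1 h2 => ?_, fun t ht q h1 h2 => ?_⟩,
    fun q => by simp, ⟨hv, hub, fun t ht x hx => ((H x hx).2 t ht).1, fun t ht x hx => ?_,
      fun x hx => ?_⟩⟩
  · have a1 := (H _ h2).1.2 k hk le_rfl
    rw [D1_glob hΩ.ud h2 hv2, D2_glob hΩ.ud h2 hv2] at a1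
    have a2 := hpos q h1 h2
    rcases eq_or_ne t 0 with rfl | h
    · simpa using a1
    · exact add_pos_of_nonneg_of_pos (mul_nonneg (sq_nonneg _) a1.le)
        (mul_pos (sq_pos_of_ne_zero h) a2)
  · have a1 := ((hsm.contDiffAt (x := (t, q)) ((isOpen_univ.prod hop).mem_nhds
      ⟨mem_univ _, hin q h1 h2⟩)).differentiableAt (by simp)).hasFDerivAt.hasLineDerivAt
        ((0, 0, 1, 0) : ℝ × B1 n × ℝ × E n)
    have a2 := ((hψ.contDiffAt (hU.mem_nhds (hsub q h1 h2))).differentiableAt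
      (by simp)).hasFDerivAt.hasLineDerivAt ((0, 1, 0) : B1 n × ℝ × E n)
    have a3 := (HasDerivAt.const_mul (t ^ 2) a2).const_add
      ((1 - t) ^ 2 * C.SS k (fderiv ℝ v₀ q.2.2) (fderiv ℝ (fderiv ℝ v₀) q.2.2))
    rw [HasDerivAt.unique a1 (a3.congr_of_eventuallyEq (Eventually.of_forall fun s => by simp))]
    exact mul_nonneg (sq_nonneg t) (hmono q h1 h2)
  · have a1 := ((H x hx).2 t ht).2
    rwa [D1_glob hΩ.ud hx hv2, D2_glob hΩ.ud hx hv2] at a1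
  · simp [D1_glob hΩ.ud hx hv2, D2_glob hΩ.ud hx hv2]

end Pool.Agent.Mink.T
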