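import Pool.Agent.Lib.MP_88c759_an.Mink.TCalc
import Pool.Agent.Lib.MP_88c759_an.Mink.ADD

/-! A local maximum principle. -/

set_option maxSynthPendingDepth 3

namespace Pool.Agent.Mink.T

open scoped ContDiff Topology
open Set Filter

variable {n : ℕ}

lemma tmax_far (hn : 0 < n) {S M : Set (E n)} (hS : IsCompact S) (hM : IsCompact M)
    (hne : M.Nonempty) (hMS : M ⊆ S) :
    ∃ x₀ ∈ M, ∃ e : E n, e ≠ 0 ∧ ∀ x ∈ M, x ≠ x₀ → A.II n e (x - x₀) < 0 := by
  have : Nonempty (Fin n) := ⟨⟨0, hn⟩⟩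
  obtain ⟨R, hR⟩ := hS.isBounded.exists_norm_le
  obtain ⟨a, ha⟩ := NormedSpace.exists_lt_norm ℝ (E n) R
  obtain ⟨x₀, hx₀, hmax⟩ := hM.exists_isMaxOn hne
    (f := fun x : E n => ‖x - a‖) (by fun_prop)
  refine ⟨x₀, hx₀, x₀ - a, ?_, fun x hx hxx => ?_⟩
  · intro h
    have h1 : x₀ = a := sub_eq_zero.1 h
    have h2 := hR x₀ (hMS hx₀)
    rw [h1] at h2
    linarith
  · have h1 : ‖x - a‖ ≤ ‖x₀ - a‖ := hmax hx
    have h2 : x - a = (x₀ - a) + (x - x₀) := by abel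
    have h3 : ‖x - a‖ ^ 2 = ‖x₀ - a‖ ^ 2 + 2 * inner ℝ (x₀ - a) (x - x₀) + ‖x - x₀‖ ^ 2 := by
      rw [h2, norm_add_sq_real]
    have h4 : 0 < ‖x - x₀‖ := norm_pos_iff.2 (sub_ne_zero.2 hxx)
    have h5 : ‖x - a‖ ^ 2 ≤ ‖x₀ - a‖ ^ 2 := pow_le_pow_left₀ (norm_nonneg _) h1 2
    rw [A.II_apply]
    nlinarith [sq_pos_of_pos h4]

lemma tmax_hasF (L : B1 n) (x₀ y : E n) : HasFDerivAt (fun z : E n => L (z - x₀)) L y := by
  have h : (fun z : E n => L (z - x₀)) = fun z => L z - L x₀ := by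
    funext z; rw [map_sub]
  rw [h]
  exact L.hasFDerivAt.sub_const _

lemma tmax_cd (L : B1 n) (x₀ : E n) : ContDiff ℝ 2 (fun z : E n => L (z - x₀)) :=
  L.contDiff.comp (contDiff_id.sub contDiff_const)

lemma tmax_DD0 (L : B1 n) (x₀ y : E n) : A.DD (fun z : E n => L (z - x₀)) y = 0 := by
  have h : fderiv ℝ (fun z : E n => L (z - x₀)) = fun _ => L := by
    funext z; exact (tmax_hasF L x₀ z).fderiv
  show fderiv ℝ (fderiv ℝ (fun z : E n => L (z - x₀))) y = 0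
  rw [h]
  exact fderiv_const_apply _

lemma tmax_exp (γ t : ℝ) :
    HasDerivAt (fun s : ℝ => Real.exp (γ * s) - 1) (γ * Real.exp (γ * t)) t := by
  have h1 : HasDerivAt (fun s : ℝ => γ * s) γ t := by simpa using (hasDerivAt_id t).const_mul γ
  have h2 := h1.exp.sub_const 1
  rwa [mul_comm] at h2

lemma tmax_exp2 (γ t : ℝ) :
    HasDerivAt (fun s : ℝ => γ * Real.exp (γ * s)) (γ ^ 2 * Real.exp (γ * t)) t := by
  have h1 : HasDerivAt (fun s : ℝ => γ * s) γ t := by simpa using (hasDerivAt_id t).const_mul γ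
  have h2 := h1.exp.const_mul γ
  have h3 : γ ^ 2 * Real.exp (γ * t) = γ * (Real.exp (γ * t) * γ) := by ring
  rw [h3]
  exact h2

lemma tmax_end {w : E n → ℝ} {y x₀ : E n} (hw : ContDiffAt ℝ 2 w y) (L : B1 n) {γ ε lam Lam C : ℝ}
    (hγ : 0 < γ) (hε : 0 < ε) (hlam : 0 < lam) (hL : 0 < ‖L‖) (hC : |C| < lam * γ * ‖L‖)
    (hmax : IsLocalMax (fun z => w z + ε * (Real.exp (γ * L (z - x₀)) - 1)) y)
    {l : B2 n →L[ℝ] ℝ} (hl : Ell lam Lam l) (h0 : 0 ≤ l (A.DD w y) + C * ‖fderiv ℝ w y‖) :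
    False := by
  set X := Real.exp (γ * L (y - x₀)) with hX
  have hXp : 0 < X := Real.exp_pos _
  have hf := (tmax_cd L x₀).contDiffAt (x := y)
  have hh : ContDiffAt ℝ 2 (fun z : E n => Real.exp (γ * L (z - x₀)) - 1) y :=
    ((contDiffAt_const.mul hf).exp).sub contDiffAt_const
  have hh1 : HasFDerivAt (fun z : E n => Real.exp (γ * L (z - x₀)) - 1) ((γ * X) • L) y :=
    HasDerivAt.comp_hasFDerivAt (f := fun z : E n => L (z - x₀)) y (tmax_exp γ (L (y - x₀)))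
      (tmax_hasF L x₀ y)
  have hw1 : HasFDerivAt w (fderiv ℝ w y) y := (hw.differentiableAt (by norm_num)).hasFDerivAt
  have hu1 : HasFDerivAt (fun z => w z + ε * (Real.exp (γ * L (z - x₀)) - 1))
      (fderiv ℝ w y + ε • ((γ * X) • L)) y := hw1.add (hh1.const_mul ε)
  have hz : fderiv ℝ w y + ε • ((γ * X) • L) = 0 := hmax.hasFDerivAt_eq_zero hu1
  have hn1 : ‖fderiv ℝ w y‖ = ε * (γ * X) * ‖L‖ := by
    rw [eq_neg_of_add_eq_zero_left hz, norm_neg, norm_smul, norm_smul, Real.norm_of_nonneg hε.le,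
      Real.norm_of_nonneg (mul_pos hγ hXp).le]
    ring
  have hDh : A.DD (fun z : E n => Real.exp (γ * L (z - x₀)) - 1) y = (γ ^ 2 * X) • A.tt L := by
    have h := A.DD_comp hf (tmax_exp γ) (tmax_exp2 γ (L (y - x₀)))
    rw [tmax_DD0, smul_zero, zero_add, (tmax_hasF L x₀ y).fderiv] at h
    exact h
  have hu2 : ContDiffAt ℝ 2 (fun z => w z + ε * (Real.exp (γ * L (z - x₀)) - 1)) y :=
    hw.add (contDiffAt_const.mul hh)
  have hmin : IsLocalMin (fun z => (-1 : ℝ) * (w z + ε * (Real.exp (γ * L (z - x₀)) - 1))) y := by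
    filter_upwards [hmax] with z hz
    linarith
  have hp := A.psd_of_isLocalMin (contDiffAt_const.mul hu2) hmin
  rw [A.DD_const_mul _ hu2, A.DD_add hw (contDiffAt_const.mul hh), A.DD_const_mul _ hh, hDh] at hp
  have h1 := A.ell_nonneg hl hlam.le hp
  rw [map_smul, map_add, map_smul, map_smul, smul_eq_mul, smul_eq_mul, smul_eq_mul] at h1
  have h2 := A.ell_tt hl L
  have h3 : C * ‖fderiv ℝ w y‖ ≤ |C| * (ε * (γ * X) * ‖L‖) := by
    rw [← hn1]; exact mul_le_mul_of_nonneg_right (le_abs_self C) (norm_nonneg _)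
  have hP : 0 < ε * (γ * X) * ‖L‖ := by positivity
  have h4 : |C| * (ε * (γ * X) * ‖L‖) < lam * γ * ‖L‖ * (ε * (γ * X) * ‖L‖) :=
    mul_lt_mul_of_pos_right hC hP
  have h5 : ε * (γ ^ 2 * X) * (lam * ‖L‖ ^ 2) ≤ ε * (γ ^ 2 * X) * l (A.tt L) :=
    mul_le_mul_of_nonneg_left h2 (by positivity)
  nlinarith

lemma tmax_closed : IsClosed {m : B2 n | Psd m} := by
  have h : {m : B2 n | Psd m} =
      (⋂ v, ⋂ w, {m : B2 n | m v w = m w v}) ∩ ⋂ v, {m : B2 n | 0 ≤ m v v} := by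
    ext m
    simp only [Psd, Sym, mem_ofPred_eq, mem_inter_iff, mem_iInter]
  rw [h]
  refine IsClosed.inter (isClosed_iInter fun v => isClosed_iInter fun w => ?_)
    (isClosed_iInter fun v => ?_)
  · exact isClosed_eq (by fun_prop) (by fun_prop)
  · exact isClosed_le continuous_const (by fun_prop)

/-- A local maximum principle.  `M` = points of the compact set `S` where `w` takes its maximum `m`;
they all lie in the open set `Ω`.  Take `a` outside `S`, `x₀ ∈ M` farthest from `a`, `e = x₀ - a ≠ 0`;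
then `⟪x - x₀, e⟫ < 0` for `x ∈ M`, `x ≠ x₀`.  Let `h y = exp (γ ⟪y - x₀, e⟫) - 1`, and let `B` be a
small closed ball around `x₀` inside the neighbourhood given by `hloc`.  On the sphere of `B` we have
`w + ε h < m` for small `ε > 0` (compactness: where `h ≥ 0` we have `w < m`), and `w + ε h = m` at
`x₀`, so `w + ε h` has an interior maximum `y`: `fderiv w y = - ε fderiv h y`, `- DD w y - ε DD h y` is
`Psd` (`A.psd_of_isLocalMin`), `DD h y = γ² exp(..) • A.tt (II e)` (`A.DD_comp`, `A.ell_tt`).  This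
gives `0 ≤ - ε exp(..) (lam γ² ‖e‖² - C γ ‖e‖)`, false for `γ` large. -/
theorem no_interior_max (hn : 0 < n) {Ω : Set (E n)} (hΩ : Nice Ω) {w : E n → ℝ}
    (hc : ContinuousOn w (closure Ω)) (h2 : ∀ x ∈ Ω, ContDiffAt ℝ 2 w x) {x₁ : E n}
    (hx₁ : x₁ ∈ closure Ω) (hb : ∀ x ∈ frontier Ω, w x < w x₁)
    (hloc : ∀ x₀ ∈ Ω, IsMaxOn w (closure Ω) x₀ → ∃ lam Lam C : ℝ, 0 < lam ∧ ∀ᶠ y in 𝓝 x₀,
      ∃ l : B2 n →L[ℝ] ℝ, Ell lam Lam l ∧ 0 ≤ l (A.DD w y) + C * ‖fderiv ℝ w y‖) : False := by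
  have hS := hΩ.compact
  obtain ⟨z, hz, hzm⟩ := hS.exists_isMaxOn ⟨x₁, hx₁⟩ hc
  have hle : ∀ x ∈ closure Ω, w x ≤ w z := fun x hx => hzm hx
  have hMc : IsCompact (closure Ω ∩ w ⁻¹' {w z}) :=
    hS.of_isClosed_subset (hc.preimage_isClosed_of_isClosed isClosed_closure isClosed_singleton)
      inter_subset_left
  obtain ⟨x₀, hx₀, e, he, hfar⟩ := tmax_far hn hS hMc ⟨z, hz, rfl⟩ inter_subset_left
  have hw0 : w x₀ = w z := hx₀.2
  have hx0 : x₀ ∈ Ω := by
    rcases hΩ.mem_or hx₀.1 with h | h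
    · exact h
    · have h1 := hb x₀ h
      have h3 := hle x₁ hx₁
      linarith
  obtain ⟨lam, Lam, C, hlam, hev⟩ := hloc x₀ hx0 (fun x hx => by
    show w x ≤ w x₀
    rw [hw0]; exact hle x hx)
  obtain ⟨r, hr, hB⟩ := Metric.nhds_basis_closedBall.eventually_iff.1
    (hev.and (hΩ.op.mem_nhds hx0))
  set L : B1 n := A.II n e with hLd
  have hL : 0 < ‖L‖ := by rw [hLd, A.norm_II_apply]; exact norm_pos_iff.2 he
  set γ : ℝ := (|C| + 1) / (lam * ‖L‖) with hγd
  have hγ : 0 < γ := by positivity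
  have hC : |C| < lam * γ * ‖L‖ := by
    have : lam * γ * ‖L‖ = |C| + 1 := by rw [hγd]; field_simp
    linarith
  have hBS : Metric.closedBall x₀ r ⊆ closure Ω := fun y hy => subset_closure (hB hy).2
  have hcf : Continuous (fun y : E n => L (y - x₀)) := (tmax_cd L x₀).continuous
  have hKc : IsCompact (Metric.sphere x₀ r ∩ {y | 0 ≤ L (y - x₀)}) :=
    (isCompact_sphere x₀ r).inter_right (isClosed_le continuous_const hcf)
  have hKS : Metric.sphere x₀ r ∩ {y | 0 ≤ L (y - x₀)} ⊆ closure Ω :=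
    fun y hy => hBS (Metric.sphere_subset_closedBall hy.1)
  obtain ⟨δ, hδ, hδK⟩ := hKc.exists_forall_le' (f := fun y => w z - w y) (a := 0)
    (continuousOn_const.sub (hc.mono hKS)) (fun y hy => by
      have h1 := hle y (hKS hy)
      rcases h1.lt_or_eq with h | h
      · linarith
      · have hne : y ≠ x₀ := by
          intro h3
          have h4 := hy.1
          rw [h3, Metric.mem_sphere, dist_self] at h4
          linarith
        have h5 := hfar y ⟨hKS hy, h⟩ hne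
        have h6 : 0 ≤ L (y - x₀) := hy.2
        linarith)
  set H : ℝ := Real.exp (γ * (‖L‖ * r)) with hH
  have hHp : 0 < H := Real.exp_pos _
  have hε : 0 < δ / H := by positivity
  have hcu : ContinuousOn (fun y => w y + δ / H * (Real.exp (γ * L (y - x₀)) - 1))
      (Metric.closedBall x₀ r) := by
    refine (hc.mono hBS).add (Continuous.continuousOn ?_)
    exact continuous_const.mul ((Real.continuous_exp.comp (continuous_const.mul hcf)).sub
      continuous_const)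
  obtain ⟨y, hy, hym⟩ := (isCompact_closedBall x₀ r).exists_isMaxOn
    ⟨x₀, Metric.mem_closedBall_self hr.le⟩ hcu
  have hy0 : w z ≤ w y + δ / H * (Real.exp (γ * L (y - x₀)) - 1) := by
    have h1 : w x₀ + δ / H * (Real.exp (γ * L (x₀ - x₀)) - 1) ≤
        w y + δ / H * (Real.exp (γ * L (y - x₀)) - 1) := hym (Metric.mem_closedBall_self hr.le)
    simpa [hw0] using h1
  have hyb : y ∈ Metric.ball x₀ r := by
    rcases (Metric.mem_closedBall.1 hy).lt_or_eq with h | h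
    · exact h
    · exfalso
      rcases le_or_gt 0 (L (y - x₀)) with h1 | h1
      · have h3 : δ ≤ w z - w y := hδK y ⟨h, h1⟩
        have h4 : L (y - x₀) ≤ ‖L‖ * r := by
          have h5 := L.le_opNorm (y - x₀)
          rw [← dist_eq_norm, h] at h5
          exact (le_abs_self _).trans h5
        have h6 : Real.exp (γ * L (y - x₀)) ≤ H :=
          Real.exp_le_exp.2 (mul_le_mul_of_nonneg_left h4 hγ.le)
        have h7 : δ / H * (Real.exp (γ * L (y - x₀)) - 1) < δ / H * H :=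
          mul_lt_mul_of_pos_left (by linarith) hε
        rw [div_mul_cancel₀ _ hHp.ne'] at h7
        linarith
      · have h3 : Real.exp (γ * L (y - x₀)) < 1 :=
          Real.exp_lt_one_iff.2 (mul_neg_of_pos_of_neg hγ h1)
        have h4 : δ / H * (Real.exp (γ * L (y - x₀)) - 1) < 0 :=
          mul_neg_of_pos_of_neg hε (by linarith)
        have h5 := hle y (hBS hy)
        linarith
  have hlm : IsLocalMax (fun y => w y + δ / H * (Real.exp (γ * L (y - x₀)) - 1)) y :=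
    hym.isLocalMax (Filter.mem_of_superset (Metric.isOpen_ball.mem_nhds hyb)
      Metric.ball_subset_closedBall)
  obtain ⟨⟨l, hl, h0⟩, hyΩ⟩ := hB hy
  exact tmax_end (h2 y hyΩ) L hγ hε hlam hL hC hlm hl h0

/-- Uniform ellipticity near a point: `{m | Psd m ∧ ‖m‖ = 1}` is compact, `q ↦ A.lin F q` is
continuous at `q₀`; if `2 lam` is the minimum of `A.lin F q₀` on it then `Ell lam Lam (A.lin F q)`
whenever `‖A.lin F q - A.lin F q₀‖ ≤ lam`. -/
theorem ell_near {A₀ : Set (ℝ × Jet n)} {F : ℝ × Jet n → ℝ} (ho : IsOpen A₀)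
    (hs : ContDiffOn ℝ ∞ F A₀) {q₀ : ℝ × Jet n} (hq : q₀ ∈ A₀)
    (he : ∀ m : B2 n, Psd m → m ≠ 0 → 0 < fderiv ℝ F q₀ (0, m, 0, 0, 0)) :
    ∃ lam Lam : ℝ, 0 < lam ∧ ∀ᶠ q in 𝓝 q₀, Ell lam Lam (A.lin F q) := by
  have : ProperSpace (B2 n) := FiniteDimensional.proper ℝ (B2 n)
  have hK : IsCompact (Metric.sphere (0 : B2 n) 1 ∩ {m | Psd m}) :=
    (isCompact_sphere 0 1).inter_right tmax_closed
  obtain ⟨μ, hμ, hμK⟩ := hK.exists_forall_le' (f := fun m => A.lin F q₀ m) (a := 0)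
    (A.lin F q₀).continuous.continuousOn (fun m hm => by
      have h1 : ‖m‖ = 1 := mem_sphere_zero_iff_norm.1 hm.1
      have h2 : m ≠ 0 := by
        intro h; rw [h, norm_zero] at h1; exact zero_ne_one h1
      exact he m hm.2 h2)
  have hlow : ∀ m : B2 n, Psd m → μ * ‖m‖ ≤ A.lin F q₀ m := by
    intro m hm
    rcases eq_or_ne m 0 with h | h
    · rw [h, norm_zero, mul_zero, map_zero]
    · have hp : 0 < ‖m‖ := norm_pos_iff.2 h
      have h1 : ‖m‖⁻¹ • m ∈ Metric.sphere (0 : B2 n) 1 ∩ {m | Psd m} := by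
        refine ⟨mem_sphere_zero_iff_norm.2 ?_, fun v w => ?_, fun v => ?_⟩
        · rw [norm_smul, norm_inv, norm_norm, inv_mul_cancel₀ hp.ne']
        · show ‖m‖⁻¹ * m v w = ‖m‖⁻¹ * m w v
          rw [hm.1 v w]
        · show 0 ≤ ‖m‖⁻¹ * m v v
          exact mul_nonneg (inv_pos.2 hp).le (hm.2 v)
      have h2 : μ ≤ A.lin F q₀ (‖m‖⁻¹ • m) := hμK _ h1
      rw [map_smul, smul_eq_mul, ← div_eq_inv_mul, le_div_iff₀ hp] at h2
      exact h2
  have hF : ContDiffAt ℝ ∞ F q₀ := hs.contDiffAt (ho.mem_nhds hq)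
  have hcf : ContinuousAt (fderiv ℝ F) q₀ :=
    (hF.fderiv_right (m := 0) (by norm_cast)).continuousAt
  have hcl : ContinuousAt (A.lin F) q₀ := hcf.clm_comp continuousAt_const
  refine ⟨μ / 2, ‖A.lin F q₀‖ + μ / 2, by positivity, ?_⟩
  filter_upwards [hcl.eventually (Metric.ball_mem_nhds _ (half_pos hμ))] with q hq
  have hd : ‖A.lin F q - A.lin F q₀‖ ≤ μ / 2 := by
    rw [← dist_eq_norm]; exact le_of_lt hq
  refine ⟨fun m hm => ?_, ?_⟩
  · have h1 := hlow m hm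
    have h2 := (A.lin F q - A.lin F q₀).le_opNorm m
    have h3 : ‖A.lin F q - A.lin F q₀‖ * ‖m‖ ≤ μ / 2 * ‖m‖ :=
      mul_le_mul_of_nonneg_right hd (norm_nonneg _)
    rw [sub_apply, Real.norm_eq_abs] at h2
    have h4 := neg_abs_le (A.lin F q m - A.lin F q₀ m)
    linarith
  · have h1 := norm_sub_norm_le (A.lin F q) (A.lin F q₀)
    linarith

end Pool.Agent.Mink.T
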