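import Pool.Agent.Lib.MP_88c759_an.Mink.TDefs

/-! Mollification. -/

set_option maxSynthPendingDepth 3

namespace Pool.Agent.Mink.T

open scoped ContDiff Topology
open Set Filter

variable {n : ℕ}

section aux

open MeasureTheory ContinuousLinearMap
open scoped Convolution

variable {W : Type} [NormedAddCommGroup W] [NormedSpace ℝ W] [CompleteSpace W]

omit [CompleteSpace W] in
lemma tmoll_fderiv (φ : ContDiffBump (0 : E n)) {g : E n → W} (hg : ContDiff ℝ 1 g)
    (hc : HasCompactSupport g) :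
    fderiv ℝ (φ.normed volume ⋆[lsmul ℝ ℝ, volume] g) =
      φ.normed volume ⋆[lsmul ℝ ℝ, volume] fderiv ℝ g := by
  funext x
  rw [(hc.hasFDerivAt_convolution_right (lsmul ℝ ℝ)
    (φ.continuous_normed.locallyIntegrable) hg x).fderiv]
  rfl

lemma tmoll_close {g : E n → W} (hg : Continuous g) (hc : HasCompactSupport g) {ε : ℝ}
    (hε : 0 < ε) : ∃ δ > 0, ∀ φ : ContDiffBump (0 : E n), φ.rOut ≤ δ → ∀ x,
      ‖(φ.normed volume ⋆[lsmul ℝ ℝ, volume] g : E n → W) x - g x‖ ≤ ε := by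
  obtain ⟨δ, hδ, h⟩ := Metric.uniformContinuous_iff.1 (hc.uniformContinuous_of_continuous hg) ε hε
  refine ⟨δ, hδ, fun φ hφ x => ?_⟩
  rw [← dist_eq_norm]
  exact φ.dist_normed_convolution_le hg.aestronglyMeasurable fun y hy =>
    (h (lt_of_lt_of_le (Metric.mem_ball.1 hy) hφ)).le

end aux

/-- Mollification.  `f`, `fderiv f`, `fderiv (fderiv f)` are continuous with compact support, so
uniformly continuous.  With a bump `φ : ContDiffBump (0 : E n)` of small outer radius put
`v = φ.normed volume ⋆[lsmul ℝ ℝ, volume] f`.  Smooth: `HasCompactSupport.contDiff_convolution_left`.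
Derivative: `HasCompactSupport.hasFDerivAt_convolution_right` (the convolution with
`(lsmul ℝ ℝ).precompR _` equals the convolution with `lsmul ℝ ℝ`), so prove once, for a general
target space, `fderiv (φ ⋆ g) = φ ⋆ fderiv g`.  Closeness: `ContDiffBump.dist_normed_convolution_le`. -/
theorem approx_of_compact_support {f : E n → ℝ} (hf : ContDiff ℝ 2 f) (hc : HasCompactSupport f)
    {ε : ℝ} (hε : 0 < ε) : ∃ v : E n → ℝ, ContDiff ℝ ∞ v ∧ ∀ x, |v x - f x| ≤ ε ∧
      ‖fderiv ℝ v x - fderiv ℝ f x‖ ≤ ε ∧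
      ‖fderiv ℝ (fderiv ℝ v) x - fderiv ℝ (fderiv ℝ f) x‖ ≤ ε := by
  have hf1 : ContDiff ℝ 1 (fderiv ℝ f) := hf.fderiv_right (m := 1) (by norm_num)
  have hc1 := hc.fderiv ℝ
  obtain ⟨a, ha, h0⟩ := tmoll_close hf.continuous hc hε
  obtain ⟨b, hb, h1⟩ := tmoll_close hf1.continuous hc1 hε
  obtain ⟨c, hc', h2⟩ := tmoll_close (hf1.continuous_fderiv one_ne_zero) (hc1.fderiv ℝ) hε
  have hd : 0 < min a (min b c) := lt_min ha (lt_min hb hc')
  let φ : ContDiffBump (0 : E n) := ⟨min a (min b c) / 2, min a (min b c), half_pos hd,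
    half_lt_self hd⟩
  refine ⟨_, φ.hasCompactSupport_normed.contDiff_convolution_left (ContinuousLinearMap.lsmul ℝ ℝ)
    (φ.contDiff_normed (μ := MeasureTheory.volume))
    (hf.continuous.locallyIntegrable (μ := MeasureTheory.volume)), fun x => ?_⟩
  rw [tmoll_fderiv φ (hf.of_le (by norm_num)) hc, tmoll_fderiv φ hf1 hc1]
  exact ⟨h0 φ (min_le_left _ _) x, h1 φ ((min_le_right _ _).trans (min_le_left _ _)) x,
    h2 φ ((min_le_right _ _).trans (min_le_right _ _)) x⟩

/-- Cut off: `exists_contDiff_tsupport_subset`-type lemma, e.g. `exists_contMDiff_support_eq...`,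
`exists_smooth_one_nhds_of_subset_interior`, or `exists_contDiff_one_nhds_of_interior`: a smooth
`β` with compact support in `O`, equal to `1` near `K`; `β * f` is `C²` on the whole space
(`contDiff_of_tsupport` or a case split) and agrees with `f` near each point of `K`. -/
theorem approx_on_compact {K O : Set (E n)} (hK : IsCompact K) (hO : IsOpen O) (hKO : K ⊆ O)
    {f : E n → ℝ} (hf : ContDiffOn ℝ 2 f O) {ε : ℝ} (hε : 0 < ε) :
    ∃ v : E n → ℝ, ContDiff ℝ ∞ v ∧ ∀ x ∈ K, |v x - f x| ≤ ε ∧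
      ‖fderiv ℝ v x - fderiv ℝ f x‖ ≤ ε ∧
      ‖fderiv ℝ (fderiv ℝ v) x - fderiv ℝ (fderiv ℝ f) x‖ ≤ ε := by
  obtain ⟨L, hL, hKL, hLO⟩ := exists_compact_between hK hO hKO
  obtain ⟨β, h1, h0, -⟩ := exists_contMDiffMap_one_nhds_of_subset_interior (n := 2)
    (modelWithCornersSelf ℝ (E n)) hK.isClosed hKL
  have hβ : ContDiff ℝ 2 β := β.contMDiff.contDiff
  have hg : ContDiff ℝ 2 fun x => β x * f x := by
    refine contDiff_iff_contDiffAt.2 fun x => ?_
    by_cases hx : x ∈ O
    · exact hβ.contDiffAt.mul (hf.contDiffAt (hO.mem_nhds hx))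
    · refine (contDiffAt_const (c := (0 : ℝ))).congr_of_eventuallyEq ?_
      filter_upwards [hL.isClosed.isOpen_compl.mem_nhds fun h => hx (hLO h)] with y hy
      rw [h0 y hy, zero_mul]
  have hc : HasCompactSupport fun x => β x * f x :=
    HasCompactSupport.intro hL fun x hx => by rw [h0 x hx, zero_mul]
  obtain ⟨v, hv, h⟩ := approx_of_compact_support hg hc hε
  refine ⟨v, hv, fun x hx => ?_⟩
  have e : (fun x => β x * f x) =ᶠ[𝓝 x] f := by
    filter_upwards [h1.filter_mono (nhds_le_nhdsSet hx)] with y hy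
    rw [hy, one_mul]
  have h2 := h x
  rw [e.fderiv.fderiv_eq, e.fderiv_eq, e.eq_of_nhds] at h2
  exact h2

end Pool.Agent.Mink.T
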