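import Pool.Agent.Lib.MP_88c759_an.Mink.TJet

/-! The pulled back family. -/

set_option maxSynthPendingDepth 3

namespace Pool.Agent.Mink.T

open scoped ContDiff Topology
open Set Filter

variable {n : ℕ}

variable {Ω : Set (E n)} {Φ Ψ : E n → E n} {A : Set (ℝ × Jet n)} {F : ℝ × Jet n → ℝ}

lemma tpull_line {V W : Type} [NormedAddCommGroup V] [NormedSpace ℝ V] [NormedAddCommGroup W]
    [NormedSpace ℝ W] {T : V → W} {G : W → ℝ} {q v : V} {w : W} (hT : DifferentiableAt ℝ T q)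
    (hG : DifferentiableAt ℝ G (T q)) (h : ∀ s : ℝ, T (q + s • v) = T q + s • w) :
    fderiv ℝ (fun q => G (T q)) q v = fderiv ℝ G (T q) w := by
  have h1 : HasDerivAt (fun s : ℝ => q + s • v) v 0 := by
    simpa using ((hasDerivAt_id (0 : ℝ)).smul_const v).const_add q
  have h2 : HasDerivAt (fun s : ℝ => T (q + s • v)) (fderiv ℝ T q v) 0 :=
    HasFDerivAt.comp_hasDerivAt_of_eq 0 hT.hasFDerivAt h1 (by simp)
  have h3 : HasDerivAt (fun s : ℝ => T (q + s • v)) w 0 := by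
    simp only [h]
    simpa using ((hasDerivAt_id (0 : ℝ)).smul_const w).const_add (T q)
  rw [← h2.unique h3]
  exact congrArg (fun L : V →L[ℝ] ℝ => L v) (fderiv_comp q hG hT)

lemma tpull_surj (h : Chart Ω Φ Ψ) (x : E n) : Function.Surjective (fderiv ℝ Ψ (Φ x)) := by
  have h1 := fderiv_comp x (h.sG.differentiable (by simp) (Φ x)) (h.sF.differentiable (by simp) x)
  rw [show Ψ ∘ Φ = id from funext h.li, fderiv_id] at h1
  exact fun a => ⟨fderiv ℝ Φ x a, (congrArg (fun L : E n →L[ℝ] E n => L a) h1).symm⟩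

lemma tpull_sym (h : Chart Ω Φ Ψ) {r : B2 n} (hr : Sym r) (p : B1 n) (y : E n) :
    Sym (pull (fderiv ℝ Ψ y) r + post p (fderiv ℝ (fderiv ℝ Ψ) y)) := fun a b => by
  have h1 := (contDiff_infty.1 h.sG 2).contDiffAt (x := y) |>.isSymmSndFDerivAt (by simp)
  rw [add_apply, add_apply, add_apply, add_apply, pull_apply, pull_apply, post_apply, post_apply,
    hr, h1.eq]

lemma tpull_comb (L : E n →L[ℝ] E n) (r r' b : B2 n) {a c : ℝ} (h : a + c = 1) :
    pull L (a • r + c • r') + b = a • (pull L r + b) + c • (pull L r' + b) := by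
  ext u v
  simp only [add_apply, smul_apply, pull_apply, smul_eq_mul]
  linear_combination (-b u v) * h

/-- Let `TT q = (q.1, TJ Φ Ψ q.2)` (smooth).  `TT (t, r + s • m, p, z + s * c, x)` equals
`TT (t, r, p, z, x) + s • (0, pull L m, 0, c, 0)` with `L = fderiv Ψ (Φ x)`, so `fderiv TT` maps
`(0, m, 0, c, 0)` to `(0, pull L m, 0, c, 0)` (derivative along the line).  `L` is onto (chain rule for
`Ψ ∘ Φ = id`), so `pull L` maps nonzero `Psd` forms to nonzero `Psd` forms; `post p (D²Ψ)` is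
symmetric (`ContDiffAt.isSymmSndFDerivAt`).  Concavity: `ConcaveOn.comp_affineMap` and
`ConcaveOn.subset`, or directly from the definition since `r ↦ pull L r + b` is affine. -/
theorem fam_of_famOn (h : Chart Ω Φ Ψ) (hF : FamOn (closure Ω) A F) :
    Fam {q | (q.1, TJ Φ Ψ q.2) ∈ A} (fun q => F (q.1, TJ Φ Ψ q.2)) := by
  have hT : ContDiff ℝ ∞ fun q : ℝ × Jet n => (q.1, TJ Φ Ψ q.2) :=
    contDiff_fst.prodMk ((contDiff_TJ h.sF h.sG).comp contDiff_snd)
  have hx : ∀ x ∈ cB n, Φ x ∈ closure Ω := fun x hx => (h.cl _).2 (by rwa [h.li])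
  have key : ∀ (t : ℝ) (r m : B2 n) (p : B1 n) (z c : ℝ) (x : E n),
      (t, TJ Φ Ψ (r, p, z, x)) ∈ A →
      fderiv ℝ (fun q : ℝ × Jet n => F (q.1, TJ Φ Ψ q.2)) (t, r, p, z, x) (0, m, 0, c, 0) =
        fderiv ℝ F (t, TJ Φ Ψ (r, p, z, x)) (0, pull (fderiv ℝ Ψ (Φ x)) m, 0, c, 0) := by
    intro t r m p z c x hq
    refine tpull_line (T := fun q : ℝ × Jet n => (q.1, TJ Φ Ψ q.2)) (hT.differentiable (by simp) _)
      ((hF.smooth.contDiffAt (hF.isOpen.mem_nhds hq)).differentiableAt (by simp)) fun s => ?_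
    simp only [TJ, Prod.smul_mk, Prod.mk_add_mk, smul_zero, add_zero, Prod.mk.injEq, and_true,
      true_and]
    ext u v
    simp only [add_apply, smul_apply, pull_apply]
    ring
  refine ⟨hF.isOpen.preimage hT.continuous, hF.smooth.comp hT.contDiffOn fun _ hq => hq,
    fun t ht p z x hx' => ?_, fun t ht r p z x hx' hr hq m hm hm0 => ?_,
    fun t ht r p z x hx' hr hq => ?_⟩
  · have hc := hF.conc t ht (p.comp (fderiv ℝ Ψ (Φ x))) z (Φ x) (hx x hx')
    refine ⟨fun r hr r' hr' a c ha hc' hac => ⟨fun u v => ?_, ?_⟩,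
      fun r hr r' hr' a c ha hc' hac => ?_⟩
    · simp only [add_apply, smul_apply, hr.1 u v, hr'.1 u v]
    · have := hc.1 ⟨tpull_sym h hr.1 p _, hr.2⟩ ⟨tpull_sym h hr'.1 p _, hr'.2⟩ ha hc' hac
      rw [← tpull_comb _ _ _ _ hac] at this
      exact this.2
    · have := hc.2 ⟨tpull_sym h hr.1 p _, hr.2⟩ ⟨tpull_sym h hr'.1 p _, hr'.2⟩ ha hc' hac
      rw [← tpull_comb _ _ _ _ hac] at this
      exact this
  · rw [key t r m p z 0 x hq]
    refine hF.ell t ht _ _ z _ (hx x hx') (tpull_sym h hr p _) hq _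
      ⟨fun a b => hm.1 _ _, fun a => hm.2 _⟩ fun h0 => hm0 ?_
    ext a b
    obtain ⟨a, rfl⟩ := tpull_surj h x a
    obtain ⟨b, rfl⟩ := tpull_surj h x b
    exact congrArg (fun r : B2 n => r a b) h0
  · rw [key t r 0 p z 1 x hq, show pull (fderiv ℝ Ψ (Φ x)) (0 : B2 n) = 0 from rfl]
    exact hF.mono t ht _ _ z _ (hx x hx') (tpull_sym h hr p _) hq

end Pool.Agent.Mink.T
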